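import Pool.Agent.SPH.StE

/-!
# The sphere S²: averages of slowly varying functions
-/

namespace SPH

open STZ LGR STZ3 MeasureTheory Matrix Filter

open scoped ComplexConjugate Matrix Real Topology

noncomputable section

theorem AVS_abel (f g : ℕ → ℂ) (B M D : ℝ) (n : ℕ) (hM : 0 ≤ M) (hD : 0 ≤ D)
    (hg : ∀ i ≤ n, ‖∑ k ∈ Finset.range i, g k‖ ≤ B)
    (hf : ∀ i < n, ‖f i‖ ≤ M) (hd : ∀ i, i + 1 < n → ‖f (i + 1) - f i‖ ≤ D) :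
    ‖∑ i ∈ Finset.range n, f i * g i‖ ≤ B * (M + n * D) := by
  have hB : 0 ≤ B := le_trans (norm_nonneg _) (hg 0 (Nat.zero_le _))
  rcases Nat.eq_zero_or_pos n with rfl | hn
  · simp; positivity
  have h := Finset.sum_range_by_parts f g n
  simp only [smul_eq_mul] at h
  rw [h]
  have h1 : ‖f (n - 1) * ∑ i ∈ Finset.range n, g i‖ ≤ M * B := by
    rw [norm_mul]
    exact mul_le_mul (hf _ (by omega)) (hg n le_rfl) (norm_nonneg _) hM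
  have h2 : ‖∑ i ∈ Finset.range (n - 1), (f (i + 1) - f i) * ∑ i ∈ Finset.range (i + 1), g i‖ ≤ n * (D * B) := by
    refine le_trans (norm_sum_le _ _) ?_
    refine le_trans (Finset.sum_le_card_nsmul _ _ (D * B) ?_) ?_
    · intro i hi
      rw [Finset.mem_range] at hi
      rw [norm_mul]
      exact mul_le_mul (hd i (by omega)) (hg _ (by omega)) (norm_nonneg _) hD
    · rw [Finset.card_range, nsmul_eq_mul]
      apply mul_le_mul_of_nonneg_right _ (by positivity)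
      exact_mod_cast Nat.sub_le _ _
  calc _ ≤ ‖f (n - 1) * ∑ i ∈ Finset.range n, g i‖ + _ := norm_sub_le _ _
    _ ≤ M * B + n * (D * B) := add_le_add h1 h2
    _ = B * (M + n * D) := by ring

theorem AVS_tel (h : ℤ → ℂ) (K : ℕ) (D : ℝ) (hD0 : 0 ≤ D)
    (hD : ∀ i : ℤ, -(K : ℤ) ≤ i → i + 1 ≤ K → ‖h (i + 1) - h i‖ ≤ D) (k : ℤ) (h1 : -(K : ℤ) ≤ k) (h2 : k ≤ K) :
    ‖h k - h 0‖ ≤ K * D := by
  have hp : ∀ n : ℕ, n ≤ K → ‖h n - h 0‖ ≤ n * D := by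
    intro n
    induction n with
    | zero => intro _; simp
    | succ n ih =>
      intro hn
      have a1 := ih (by omega)
      have a2 := hD n (by omega) (by exact_mod_cast hn)
      have : h ((n + 1 : ℕ) : ℤ) - h 0 = (h ((n : ℤ) + 1) - h n) + (h n - h 0) := by push_cast; ring
      rw [this]
      refine le_trans (norm_add_le _ _) ?_
      push_cast
      linarith
  have hm : ∀ n : ℕ, n ≤ K → ‖h (-n) - h 0‖ ≤ n * D := by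
    intro n
    induction n with
    | zero => intro _; simp
    | succ n ih =>
      intro hn
      have a1 := ih (by omega)
      have a2 := hD (-((n : ℤ) + 1)) (by omega) (by omega)
      have e1 : -((n : ℤ) + 1) + 1 = -n := by ring
      rw [e1] at a2
      have : h (-((n + 1 : ℕ) : ℤ)) - h 0 = -(h (-(n : ℤ)) - h (-((n : ℤ) + 1))) + (h (-n) - h 0) := by push_cast; ring
      rw [this]
      refine le_trans (norm_add_le _ _) ?_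
      rw [norm_neg]
      push_cast
      linarith
  rcases le_total 0 k with hk | hk
  · obtain ⟨n, rfl⟩ := Int.eq_ofNat_of_zero_le hk
    have hn : n ≤ K := by exact_mod_cast h2
    refine le_trans (hp n hn) ?_
    apply mul_le_mul_of_nonneg_right _ hD0
    exact_mod_cast hn
  · obtain ⟨n, hn⟩ := Int.eq_ofNat_of_zero_le (show 0 ≤ -k by omega)
    have hk' : k = -(n : ℤ) := by omega
    subst hk'
    have hn : n ≤ K := by omega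
    refine le_trans (hm n hn) ?_
    apply mul_le_mul_of_nonneg_right _ hD0
    exact_mod_cast hn

theorem AVS_gS1 (e J : ℕ) (t : ℝ) (Z j : ℤ) (he : e ≤ 1) (hX : (2 : ℤ) ^ J = 32 * Z) (h1 : Z ≤ j) (h2 : j < 8 * Z) :
    gS e (2 ^ J) t (1 + 2 * (e : ℤ) + 4 * j) = eu (-(t * ((1 + 2 * (e : ℤ) + 4 * j : ℤ) : ℝ) ^ 2)) := by
  unfold gS qS
  have hX' : ((2 ^ J : ℕ) : ℤ) = 32 * Z := by push_cast; exact hX
  have hp : 0 < Z := by omega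
  have ha : |1 + 2 * (e : ℤ) + 4 * j| = 1 + 2 * (e : ℤ) + 4 * j := abs_of_nonneg (by omega)
  rw [if_pos]
  · simp
  · rw [ha, hX']
    refine ⟨by omega, by omega, by omega⟩

theorem AVS_gS0 (e J : ℕ) (t : ℝ) (Z ν : ℤ) (he : e ≤ 1) (hX : (2 : ℤ) ^ J = 32 * Z) (hν : ν % 4 = 1 + 2 * (e : ℤ))
    (h : gS e (2 ^ J) t ν ≠ 0) : ∃ j : ℤ, Z ≤ j ∧ j < 8 * Z ∧ ν = 1 + 2 * (e : ℤ) + 4 * j := by
  unfold gS qS at h
  have hX' : ((2 ^ J : ℕ) : ℤ) = 32 * Z := by push_cast; exact hX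
  have hc : |ν| % 4 = 1 + 2 * (e : ℤ) ∧ ((2 ^ J : ℕ) : ℤ) < 8 * |ν| ∧ |ν| ≤ ((2 ^ J : ℕ) : ℤ) := by
    by_contra hcon
    rw [if_neg hcon] at h
    simp at h
  rw [hX'] at hc
  refine ⟨(ν - (1 + 2 * (e : ℤ))) / 4, ?_⟩
  rcases abs_cases ν with ⟨e1, e2⟩ | ⟨e1, e2⟩
  · rw [e1] at hc
    omega
  · rw [e1] at hc
    omega

theorem AVS_inner (e J : ℕ) (t : ℝ) (G : ℤ → ℂ) (k Z : ℤ) (he : e ≤ 1) (hX : (2 : ℤ) ^ J = 32 * Z) (hZ : 0 < Z)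
    (hk1 : -Z ≤ 4 * k) (hk2 : 4 * k ≤ Z) :
    ∑ l ∈ (Finset.Icc (1 : ℤ) (2 * 2 ^ J)).filter (fun l => l % 4 = 1 + 2 * (e : ℤ)), gS e (2 ^ J) t (l - 4 * k) * G l =
      ∑ j ∈ Finset.Ico Z (8 * Z), eu (-(t * ((1 + 2 * (e : ℤ) + 4 * j : ℤ) : ℝ) ^ 2)) * G (1 + 2 * (e : ℤ) + 4 * j + 4 * k) := by
  have hinj : Set.InjOn (fun j : ℤ => 1 + 2 * (e : ℤ) + 4 * j + 4 * k) (Finset.Ico Z (8 * Z) : Finset ℤ) := by
    intro a _ b _ hab
    simp only at hab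
    omega
  rw [← Finset.sum_subset (s₁ := (Finset.Ico Z (8 * Z)).image fun j : ℤ => 1 + 2 * (e : ℤ) + 4 * j + 4 * k)]
  · rw [Finset.sum_image hinj]
    apply Finset.sum_congr rfl
    intro j hj
    rw [Finset.mem_Ico] at hj
    have e1 : 1 + 2 * (e : ℤ) + 4 * j + 4 * k - 4 * k = 1 + 2 * (e : ℤ) + 4 * j := by ring
    rw [e1, AVS_gS1 e J t Z j he hX hj.1 hj.2]
  · intro l hl
    rw [Finset.mem_image] at hl
    obtain ⟨j, hj, rfl⟩ := hl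
    rw [Finset.mem_Ico] at hj
    rw [Finset.mem_filter, Finset.mem_Icc, hX]
    omega
  · intro l hl hn
    rw [Finset.mem_filter, Finset.mem_Icc] at hl
    by_cases hz : gS e (2 ^ J) t (l - 4 * k) = 0
    · rw [hz, zero_mul]
    · exfalso
      obtain ⟨j, j1, j2, j3⟩ := AVS_gS0 e J t Z (l - 4 * k) he hX (by omega) hz
      apply hn
      rw [Finset.mem_image]
      refine ⟨j, Finset.mem_Ico.2 ⟨j1, j2⟩, ?_⟩
      omega

theorem AVS_eu_add (x y : ℝ) : eu (x + y) = eu x * eu y := by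
  unfold eu
  rw [← Complex.exp_add]
  congr 1
  push_cast
  ring

theorem AVS_eu_norm (x : ℝ) : ‖eu x‖ = 1 := by
  unfold eu
  rw [show (2 * π * x * Complex.I : ℂ) = ((2 * π * x : ℝ) : ℂ) * Complex.I by push_cast; ring]
  exact Complex.norm_exp_ofReal_mul_I _

/-- the average with the coefficients `cf` -/
def AVSF (m Y y : ℕ) (θ : ℝ) (h : ℤ → ℂ) : ℂ :=
  ∑ k ∈ Finset.Icc (-((2 * m ^ 2 * 2 ^ y : ℕ) : ℤ)) ((2 * m ^ 2 * 2 ^ y : ℕ) : ℤ), cf m Y y k * eu (k * θ) * h k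

theorem AVS_avg (m : ℕ) (C₁ : ℝ) (hC : CFF m C₁) (Y y : ℕ) (hy : y ≤ Y) (θ D : ℝ) (hD0 : 0 ≤ D) (h : ℤ → ℂ)
    (hD : ∀ i : ℤ, -((2 * m ^ 2 * 2 ^ y : ℕ) : ℤ) ≤ i → i + 1 ≤ ((2 * m ^ 2 * 2 ^ y : ℕ) : ℤ) → ‖h (i + 1) - h i‖ ≤ D) :
    ‖AVSF m Y y θ h‖ ≤ ‖fx m Y y θ‖ * ‖h 0‖ + C₁ * (((2 * m ^ 2 * 2 ^ y : ℕ) : ℝ) * D) := by
  set K : ℕ := 2 * m ^ 2 * 2 ^ y with hK
  have e1 : AVSF m Y y θ h = fx m Y y θ * h 0 + ∑ k ∈ Finset.Icc (-(K : ℤ)) (K : ℤ), cf m Y y k * eu (k * θ) * (h k - h 0) := by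
    rw [← hC.ex Y y K θ hy (le_of_eq hK.symm)]
    unfold AVSF
    rw [Finset.sum_mul, ← Finset.sum_add_distrib]
    apply Finset.sum_congr rfl
    intro k _
    have : Complex.exp (2 * π * Complex.I * k * θ) = eu (k * θ) := by
      unfold eu
      congr 1
      push_cast
      ring
    rw [this]
    ring
  rw [e1]
  refine le_trans (norm_add_le _ _) ?_
  rw [norm_mul]
  refine add_le_add le_rfl ?_
  refine le_trans (norm_sum_le _ _) ?_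
  calc ∑ k ∈ Finset.Icc (-(K : ℤ)) (K : ℤ), ‖cf m Y y k * eu (k * θ) * (h k - h 0)‖
      ≤ ∑ k ∈ Finset.Icc (-(K : ℤ)) (K : ℤ), ‖cf m Y y k‖ * (K * D) := by
        apply Finset.sum_le_sum
        intro k hk
        rw [Finset.mem_Icc] at hk
        rw [norm_mul, norm_mul, AVS_eu_norm, mul_one]
        apply mul_le_mul_of_nonneg_left _ (norm_nonneg _)
        exact AVS_tel h K D hD0 hD k hk.1 hk.2
    _ = (∑ k ∈ Finset.Icc (-(K : ℤ)) (K : ℤ), ‖cf m Y y k‖) * (K * D) := by rw [Finset.sum_mul]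
    _ ≤ C₁ * (K * D) := by
        apply mul_le_mul_of_nonneg_right _ (by positivity)
        exact hC.abs Y y K hy

theorem AVS_rng (f : ℤ → ℂ) (z : ℤ) (n : ℕ) : ∑ j ∈ Finset.Ico z (z + n), f j = ∑ i ∈ Finset.range n, f (z + i) := by
  have h : Finset.Ico z (z + n) = (Finset.range n).image fun i : ℕ => z + (i : ℤ) := by
    ext x
    simp only [Finset.mem_Ico, Finset.mem_image, Finset.mem_range]
    constructor
    · rintro ⟨h1, h2⟩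
      exact ⟨(x - z).toNat, by omega, by omega⟩
    · rintro ⟨i, hi, rfl⟩
      omega
  rw [h, Finset.sum_image]
  intro a _ b _ hab
  simp only at hab
  omega

theorem t_AVS : M_AVS := by
  intro hCFA _ hWSS _ m hm
  obtain ⟨C₁, hC0, hC⟩ := hCFA m hm
  obtain ⟨c, hc, hW⟩ := hWSS 1 le_rfl
  refine ⟨c, c * (1 + 4 * m ^ 2 * C₁), hc, by positivity, ?_⟩
  intro J Y y e t θ A A' a hJ hy he hA hA' ha1 ha2 ha3
  have hJ8 : 5 ≤ J := by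
    have h1 : 2 ^ 8 ≤ 2 ^ J := by
      refine le_trans ?_ hJ
      have : 1 ≤ m ^ 2 * 2 ^ Y := Nat.one_le_iff_ne_zero.2 (by positivity)
      nlinarith [this]
    have h2 := (Nat.pow_le_pow_iff_right (by norm_num : 1 < 2)).1 h1
    omega
  obtain ⟨J', rfl⟩ : ∃ J', J = J' + 5 := ⟨J - 5, by omega⟩
  set K : ℕ := 2 * m ^ 2 * 2 ^ y with hK
  have hKZ : 4 * K ≤ 2 ^ J' := by
    have h1 : 2 ^ y ≤ 2 ^ Y := Nat.pow_le_pow_right (by norm_num) hy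
    have h2 : m ^ 2 * 2 ^ y ≤ m ^ 2 * 2 ^ Y := Nat.mul_le_mul_left _ h1
    have h3 : (2 : ℕ) ^ (J' + 5) = 32 * 2 ^ J' := by ring
    rw [h3] at hJ
    rw [hK]
    nlinarith [h2, hJ]
  have hXZ : (2 : ℤ) ^ (J' + 5) = 32 * ((2 ^ J' : ℕ) : ℤ) := by push_cast; ring
  set Z : ℤ := ((2 ^ J' : ℕ) : ℤ) with hZ
  have hKZ' : 4 * (K : ℤ) ≤ Z := by rw [hZ]; exact_mod_cast hKZ
  have hZp : 0 < Z := by rw [hZ]; positivity
  have hXr : (2 : ℝ) ^ (J' + 5) = 32 * ((2 ^ J' : ℕ) : ℝ) := by push_cast; ring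
  have hXp : (0 : ℝ) < (2 : ℝ) ^ (J' + 5) := by positivity
  -- the form as a sum over `j`
  have key : ∑ l ∈ (Finset.Icc (1 : ℤ) (2 * 2 ^ (J' + 5))).filter (fun l => l % 4 = 1 + 2 * (e : ℤ)),
      nT m Y y e (J' + 5) t l * (eu (l * (θ / 4)) * a l) =
      ∑ j ∈ Finset.Ico Z (8 * Z), eu (-(t * ((1 + 2 * (e : ℤ) + 4 * j : ℤ) : ℝ) ^ 2) + ((1 + 2 * (e : ℤ) + 4 * j : ℤ) : ℝ) * (θ / 4)) *
        AVSF m Y y θ (fun k => a (1 + 2 * (e : ℤ) + 4 * j + 4 * k)) := by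
    have s1 : ∀ l : ℤ, nT m Y y e (J' + 5) t l * (eu (l * (θ / 4)) * a l) =
        ∑ k ∈ Finset.Icc (-(K : ℤ)) K, cf m Y y k * (gS e (2 ^ (J' + 5)) t (l - 4 * k) * (eu (l * (θ / 4)) * a l)) := by
      intro l
      unfold nT
      rw [Finset.sum_mul]
      have e1 : (2 * (m : ℤ) ^ 2 * 2 ^ y) = (K : ℤ) := by rw [hK]; push_cast; ring
      rw [e1]
      apply Finset.sum_congr rfl
      intro k _
      ring
    simp only [s1]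
    rw [Finset.sum_comm]
    simp only [← Finset.mul_sum]
    have s2 : ∀ k ∈ Finset.Icc (-(K : ℤ)) K, cf m Y y k * ∑ l ∈ (Finset.Icc (1 : ℤ) (2 * 2 ^ (J' + 5))).filter (fun l => l % 4 = 1 + 2 * (e : ℤ)),
        gS e (2 ^ (J' + 5)) t (l - 4 * k) * (eu (l * (θ / 4)) * a l) =
        ∑ j ∈ Finset.Ico Z (8 * Z), cf m Y y k * (eu (-(t * ((1 + 2 * (e : ℤ) + 4 * j : ℤ) : ℝ) ^ 2)) *
          (eu (((1 + 2 * (e : ℤ) + 4 * j + 4 * k : ℤ) : ℝ) * (θ / 4)) * a (1 + 2 * (e : ℤ) + 4 * j + 4 * k))) := by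
      intro k hk
      rw [Finset.mem_Icc] at hk
      rw [AVS_inner e (J' + 5) t (fun l => eu (l * (θ / 4)) * a l) k Z he hXZ hZp (by omega) (by omega), Finset.mul_sum]
    rw [Finset.sum_congr rfl s2, Finset.sum_comm]
    apply Finset.sum_congr rfl
    intro j _
    unfold AVSF
    rw [Finset.mul_sum]
    apply Finset.sum_congr rfl
    intro k _
    have e2 : ((1 + 2 * (e : ℤ) + 4 * j + 4 * k : ℤ) : ℝ) * (θ / 4) = ((1 + 2 * (e : ℤ) + 4 * j : ℤ) : ℝ) * (θ / 4) + k * θ := by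
      push_cast; ring
    rw [e2, AVS_eu_add, AVS_eu_add]
    ring
  rw [key]
  obtain ⟨n, hn⟩ : ∃ n : ℕ, n = 7 * 2 ^ J' := ⟨_, rfl⟩
  have h8 : 8 * Z = Z + (n : ℤ) := by rw [hn, hZ]; push_cast; ring
  rw [h8, AVS_rng]
  -- bounds
  set B : ℝ := c * √(WW (2 ^ (J' + 5)) c t) with hB
  have hpart : ∀ i ≤ n, ‖∑ k ∈ Finset.range i, eu (-(t * ((1 + 2 * (e : ℤ) + 4 * (Z + (k : ℤ)) : ℤ) : ℝ) ^ 2) +
      ((1 + 2 * (e : ℤ) + 4 * (Z + (k : ℤ)) : ℤ) : ℝ) * (θ / 4))‖ ≤ B := by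
    intro i hi
    have h1 := hW (J' + 5) Z (1 + 2 * (e : ℤ)) (Z + i) t (θ / 4) (by
      rw [hXZ]
      have : (i : ℤ) ≤ n := by exact_mod_cast hi
      push_cast
      omega)
    rw [AVS_rng] at h1
    exact h1
  have hj : ∀ i < n, ∀ k : ℤ, -(K : ℤ) ≤ k → k ≤ K → 1 ≤ 1 + 2 * (e : ℤ) + 4 * (Z + (i : ℤ)) + 4 * k ∧
      (2 : ℤ) ^ (J' + 5) ≤ 16 * (1 + 2 * (e : ℤ) + 4 * (Z + (i : ℤ)) + 4 * k) ∧
      1 + 2 * (e : ℤ) + 4 * (Z + (i : ℤ)) + 4 * k + 8 ≤ 2 * 2 ^ (J' + 5) := by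
    intro i hi k k1 k2
    rw [hXZ]
    have : (i : ℤ) < n := by exact_mod_cast hi
    have h9 : (n : ℤ) = 7 * Z := by omega
    omega
  have hA1 : ∀ i < n, ‖AVSF m Y y θ (fun k => a (1 + 2 * (e : ℤ) + 4 * (Z + (i : ℤ)) + 4 * k))‖ ≤
      ‖fx m Y y θ‖ * A + C₁ * (K * (A' / 2 ^ (J' + 5))) := by
    intro i hi
    refine le_trans (AVS_avg m C₁ hC Y y hy θ (A' / 2 ^ (J' + 5)) (by positivity) _ ?_) ?_
    · intro k k1 k2
      obtain ⟨q1, q2, q3⟩ := hj i hi k k1 (by omega)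
      have := ha2 (1 + 2 * (e : ℤ) + 4 * (Z + (i : ℤ)) + 4 * k) q2 (by omega)
      have e3 : 1 + 2 * (e : ℤ) + 4 * (Z + (i : ℤ)) + 4 * (k + 1) = 1 + 2 * (e : ℤ) + 4 * (Z + (i : ℤ)) + 4 * k + 4 := by ring
      rw [e3]
      exact this
    · refine add_le_add ?_ le_rfl
      apply mul_le_mul_of_nonneg_left _ (norm_nonneg _)
      obtain ⟨q1, q2, q3⟩ := hj i hi 0 (by omega) (by omega)
      exact ha1 _ q1 (by omega)
  have hA2 : ∀ i, i + 1 < n → ‖AVSF m Y y θ (fun k => a (1 + 2 * (e : ℤ) + 4 * (Z + ((i + 1 : ℕ) : ℤ)) + 4 * k)) -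
      AVSF m Y y θ (fun k => a (1 + 2 * (e : ℤ) + 4 * (Z + (i : ℤ)) + 4 * k))‖ ≤
      ‖fx m Y y θ‖ * (A' / 2 ^ (J' + 5)) + C₁ * (K * (A' / (2 ^ (J' + 5)) ^ 2)) := by
    intro i hi
    have e4 : AVSF m Y y θ (fun k => a (1 + 2 * (e : ℤ) + 4 * (Z + ((i + 1 : ℕ) : ℤ)) + 4 * k)) -
      AVSF m Y y θ (fun k => a (1 + 2 * (e : ℤ) + 4 * (Z + (i : ℤ)) + 4 * k)) =
      AVSF m Y y θ (fun k => a (1 + 2 * (e : ℤ) + 4 * (Z + (i : ℤ)) + 4 * k + 4) - a (1 + 2 * (e : ℤ) + 4 * (Z + (i : ℤ)) + 4 * k)) := by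
      unfold AVSF
      rw [← Finset.sum_sub_distrib]
      apply Finset.sum_congr rfl
      intro k _
      have e5 : 1 + 2 * (e : ℤ) + 4 * (Z + ((i + 1 : ℕ) : ℤ)) + 4 * k = 1 + 2 * (e : ℤ) + 4 * (Z + (i : ℤ)) + 4 * k + 4 := by
        push_cast; ring
      simp only [e5]
      ring
    rw [e4]
    refine le_trans (AVS_avg m C₁ hC Y y hy θ (A' / (2 ^ (J' + 5)) ^ 2) (by positivity) _ ?_) ?_
    · intro k k1 k2
      obtain ⟨q1, q2, q3⟩ := hj i (by omega) k k1 (by omega)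
      have := ha3 (1 + 2 * (e : ℤ) + 4 * (Z + (i : ℤ)) + 4 * k) q2 (by omega)
      have e3 : 1 + 2 * (e : ℤ) + 4 * (Z + (i : ℤ)) + 4 * (k + 1) = 1 + 2 * (e : ℤ) + 4 * (Z + (i : ℤ)) + 4 * k + 4 := by ring
      rw [e3]
      have e6 : 1 + 2 * (e : ℤ) + 4 * (Z + (i : ℤ)) + 4 * k + 4 + 4 = 1 + 2 * (e : ℤ) + 4 * (Z + (i : ℤ)) + 4 * k + 8 := by ring
      rw [e6]
      refine le_trans (le_of_eq ?_) this
      congr 1
      ring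
    · refine add_le_add ?_ le_rfl
      apply mul_le_mul_of_nonneg_left _ (norm_nonneg _)
      obtain ⟨q1, q2, q3⟩ := hj i (by omega) 0 (by omega) (by omega)
      exact ha2 _ q2 (by omega)
  have hfin := AVS_abel (fun i => AVSF m Y y θ (fun k => a (1 + 2 * (e : ℤ) + 4 * (Z + (i : ℤ)) + 4 * k)))
    (fun k => eu (-(t * ((1 + 2 * (e : ℤ) + 4 * (Z + (k : ℤ)) : ℤ) : ℝ) ^ 2) +
      ((1 + 2 * (e : ℤ) + 4 * (Z + (k : ℤ)) : ℤ) : ℝ) * (θ / 4))) B _ _ n (by positivity) (by positivity) hpart hA1 hA2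
  have hcomm : ∑ i ∈ Finset.range n, eu (-(t * ((1 + 2 * (e : ℤ) + 4 * (Z + (i : ℤ)) : ℤ) : ℝ) ^ 2) +
      ((1 + 2 * (e : ℤ) + 4 * (Z + (i : ℤ)) : ℤ) : ℝ) * (θ / 4)) *
      AVSF m Y y θ (fun k => a (1 + 2 * (e : ℤ) + 4 * (Z + (i : ℤ)) + 4 * k)) =
      ∑ i ∈ Finset.range n, AVSF m Y y θ (fun k => a (1 + 2 * (e : ℤ) + 4 * (Z + (i : ℤ)) + 4 * k)) *
      eu (-(t * ((1 + 2 * (e : ℤ) + 4 * (Z + (i : ℤ)) : ℤ) : ℝ) ^ 2) +
      ((1 + 2 * (e : ℤ) + 4 * (Z + (i : ℤ)) : ℤ) : ℝ) * (θ / 4)) :=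
    Finset.sum_congr rfl fun _ _ => mul_comm _ _
  rw [hcomm]
  refine le_trans hfin ?_
  have hnX : (n : ℝ) ≤ 2 ^ (J' + 5) := by
    rw [hXr, hn]
    push_cast
    have : (0 : ℝ) < 2 ^ J' := by positivity
    linarith
  have hKr : (K : ℝ) = 2 * m ^ 2 * 2 ^ y := by rw [hK]; push_cast; ring
  have hB0 : 0 ≤ B := by rw [hB]; positivity
  have hfx := norm_nonneg (fx m Y y θ)
  have s3 : ‖fx m Y y θ‖ * A + C₁ * (K * (A' / 2 ^ (J' + 5))) +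
      n * (‖fx m Y y θ‖ * (A' / 2 ^ (J' + 5)) + C₁ * (K * (A' / (2 ^ (J' + 5)) ^ 2))) ≤
      ‖fx m Y y θ‖ * (A + A') + 4 * m ^ 2 * C₁ * (2 ^ y / 2 ^ (J' + 5) * A') := by
    have s4 : (n : ℝ) * (‖fx m Y y θ‖ * (A' / 2 ^ (J' + 5)) + C₁ * (K * (A' / (2 ^ (J' + 5)) ^ 2))) ≤
        2 ^ (J' + 5) * (‖fx m Y y θ‖ * (A' / 2 ^ (J' + 5)) + C₁ * (K * (A' / (2 ^ (J' + 5)) ^ 2))) :=
      mul_le_mul_of_nonneg_right hnX (by positivity)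
    have s5 : (2 : ℝ) ^ (J' + 5) * (‖fx m Y y θ‖ * (A' / 2 ^ (J' + 5)) + C₁ * (K * (A' / (2 ^ (J' + 5)) ^ 2))) =
        ‖fx m Y y θ‖ * A' + C₁ * (K * (A' / 2 ^ (J' + 5))) := by
      field_simp
    have s6 : C₁ * (K * (A' / 2 ^ (J' + 5))) = 2 * m ^ 2 * C₁ * (2 ^ y / 2 ^ (J' + 5) * A') := by
      rw [hKr]; ring
    rw [s5, s6] at s4
    rw [s6] at *
    nlinarith [s4]
  have s7 : ‖fx m Y y θ‖ * (A + A') + 4 * m ^ 2 * C₁ * (2 ^ y / 2 ^ (J' + 5) * A') ≤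
      (1 + 4 * m ^ 2 * C₁) * (‖fx m Y y θ‖ * (A + A') + 2 ^ y / 2 ^ (J' + 5) * A') := by
    have p1 : 0 ≤ 4 * m ^ 2 * C₁ * (‖fx m Y y θ‖ * (A + A')) := by positivity
    have p2 : 0 ≤ (2 : ℝ) ^ y / 2 ^ (J' + 5) * A' := by positivity
    nlinarith [p1, p2]
  calc B * _ ≤ B * ((1 + 4 * m ^ 2 * C₁) * (‖fx m Y y θ‖ * (A + A') + 2 ^ y / 2 ^ (J' + 5) * A')) :=
        mul_le_mul_of_nonneg_left (le_trans s3 s7) hB0
    _ = _ := by rw [hB]; ring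

end

end SPH
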