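import Pool.Agent.SPH.StC
import Pool.Agent.STZ3.L2W
import Pool.Agent.LGR.TPOL

/-!
# Module BND: the band
-/

namespace SPH

open STZ LGR STZ3 MeasureTheory Matrix Filter

open scoped ComplexConjugate Matrix Real Topology

noncomputable section

namespace BND

/-! ### the numerical part -/

theorem exp_two : (5 : ℝ) ≤ Real.exp 2 := by
  have h1 : Real.exp 2 = Real.exp 1 * Real.exp 1 := by
    rw [← Real.exp_add]
    norm_num
  have h2 := Real.exp_one_gt_d9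
  rw [h1]
  nlinarith

/-- the angle -/
theorem angle {t : ℝ} (h0 : 0 ≤ t) (h1 : t ≤ 1) :
    ∃ u : ℝ, 0 ≤ u ∧ u ≤ 2 - t / 2 ∧ Real.cosh u = t + (1 - t) * Real.cosh 2 := by
  have hE := exp_two
  have hE0 : 0 < Real.exp 2 := Real.exp_pos _
  have hneg : Real.exp (-2) = 1 / Real.exp 2 := by
    rw [Real.exp_neg]
    simp
  have hc : Real.cosh 2 = (Real.exp 2 + 1 / Real.exp 2) / 2 := by rw [Real.cosh_eq, hneg]
  have hs : Real.sinh 2 = (Real.exp 2 - 1 / Real.exp 2) / 2 := by rw [Real.sinh_eq, hneg]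
  have hinv0 : 0 < 1 / Real.exp 2 := by positivity
  have hc1 : 1 ≤ Real.cosh 2 := Real.one_le_cosh 2
  have hX1 : 1 ≤ t + (1 - t) * Real.cosh 2 := by nlinarith
  have hX2 : t + (1 - t) * Real.cosh 2 ≤ Real.cosh 2 := by nlinarith
  have h2 : Set.Icc (Real.cosh 0) (Real.cosh 2) ⊆ Real.cosh '' Set.Icc 0 2 :=
    intermediate_value_Icc (by norm_num) Real.continuous_cosh.continuousOn
  obtain ⟨u, ⟨hu0, hu2⟩, hu⟩ := h2 ⟨by rw [Real.cosh_zero]; exact hX1, hX2⟩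
  refine ⟨u, hu0, ?_, hu⟩
  have h3 : Real.cosh 2 - t / 2 * Real.sinh 2 ≤ Real.cosh (2 - t / 2) := by
    have e1 := Real.add_one_le_exp (-(t / 2))
    have e2 := Real.add_one_le_exp (t / 2)
    have e3 : Real.exp (2 - t / 2) = Real.exp 2 * Real.exp (-(t / 2)) := by
      rw [← Real.exp_add]
      ring_nf
    have e4 : Real.exp (-(2 - t / 2)) = 1 / Real.exp 2 * Real.exp (t / 2) := by
      rw [← hneg, ← Real.exp_add]
      ring_nf
    rw [Real.cosh_eq (2 - t / 2), e3, e4, hc, hs]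
    have e5 := mul_le_mul_of_nonneg_left e1 hE0.le
    have e6 := mul_le_mul_of_nonneg_left e2 hinv0.le
    nlinarith
  have h4 : Real.sinh 2 / 2 ≤ Real.cosh 2 - 1 := by
    rw [hc, hs]
    nlinarith
  have h5 : Real.cosh u ≤ Real.cosh (2 - t / 2) := by
    rw [hu]
    refine le_trans ?_ h3
    nlinarith
  rw [Real.cosh_le_cosh, abs_of_nonneg hu0, abs_of_nonneg (by linarith)] at h5
  exact h5

/-- the bound of the sum -/
theorem bnum {ι : Type} [Fintype ι] (n : ℕ) (t ϑ M₁ η₁ C₂ : ℝ) (D : ι → ℝ) (m : ι → ℤ) (ψ q : ι → ℝ)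
    (hD : ∀ i, 0 ≤ D i) (h1 : ∑ i, D i ≤ 1) (ht0 : 0 ≤ t) (ht1 : t ≤ 1)
    (hp : ∑ i, D i * Real.exp (m i) ≤ Real.exp (n * (2 - t / 2)))
    (hn : ∑ i, D i * Real.exp (-(m i)) ≤ Real.exp (n * (2 - t / 2)))
    (hψ : ∀ i, |ψ i| ≤ C₂) (hψ' : ∀ i, |(m i : ℝ)| < M₁ → |ψ i| ≤ η₁) (hϑ : 0 ≤ ϑ) (hM : 1 ≤ M₁)
    (hq0 : ∀ i, 0 ≤ q i) (hq : ∀ i, 4 * (n : ℝ) ^ 2 - (m i : ℝ) ^ 2 ≤ q i) (hm : ∀ i, |(m i : ℝ)| ≤ 2 * n) :
    ∑ i, ψ i ^ 2 * Real.exp (-(2 * ϑ * q i)) * D i ≤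
      η₁ ^ 2 + 2 * C₂ ^ 2 * (Real.exp (-(1 / 8 * M₁ * t)) + Real.exp (-(1 / 8 * ϑ * M₁ ^ 2 * t))) := by
  have hn0 : (0 : ℝ) ≤ n := Nat.cast_nonneg n
  have hC2 : 0 ≤ C₂ ^ 2 := sq_nonneg _
  have he1 : ∀ i, Real.exp (-(2 * ϑ * q i)) ≤ 1 := by
    intro i
    rw [Real.exp_le_one_iff]
    have := mul_nonneg hϑ (hq0 i)
    linarith
  have hψ2 : ∀ i, ψ i ^ 2 ≤ C₂ ^ 2 := fun i => by
    rw [← sq_abs]
    exact pow_le_pow_left₀ (abs_nonneg _) (hψ i) 2
  have hfirst : ∀ i, |(m i : ℝ)| < M₁ → ψ i ^ 2 * Real.exp (-(2 * ϑ * q i)) * D i ≤ η₁ ^ 2 * D i := by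
    intro i hi
    have h2 : ψ i ^ 2 ≤ η₁ ^ 2 := by
      rw [← sq_abs]
      exact pow_le_pow_left₀ (abs_nonneg _) (hψ' i hi) 2
    have h3 : ψ i ^ 2 * Real.exp (-(2 * ϑ * q i)) ≤ η₁ ^ 2 * 1 :=
      mul_le_mul h2 (he1 i) (Real.exp_pos _).le (sq_nonneg _)
    have := mul_le_mul_of_nonneg_right h3 (hD i)
    linarith
  have hpos : 0 ≤ 2 * C₂ ^ 2 * (Real.exp (-(1 / 8 * M₁ * t)) + Real.exp (-(1 / 8 * ϑ * M₁ ^ 2 * t))) := by positivity
  by_cases hc : 2 * (n : ℝ) < M₁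
  · have h2 : ∑ i, ψ i ^ 2 * Real.exp (-(2 * ϑ * q i)) * D i ≤ ∑ i, η₁ ^ 2 * D i :=
      Finset.sum_le_sum fun i _ => hfirst i (lt_of_le_of_lt (hm i) hc)
    rw [← Finset.mul_sum] at h2
    have h3 : η₁ ^ 2 * ∑ i, D i ≤ η₁ ^ 2 * 1 := mul_le_mul_of_nonneg_left h1 (sq_nonneg _)
    linarith
  · push Not at hc
    set A : ℝ := Real.exp (-(2 * n - n * t / 4)) with hA
    have hA0 : 0 < A := Real.exp_pos _
    have hall : ∀ i, ψ i ^ 2 * Real.exp (-(2 * ϑ * q i)) * D i ≤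
        η₁ ^ 2 * D i + C₂ ^ 2 * A * (D i * Real.exp (m i) + D i * Real.exp (-(m i))) +
          C₂ ^ 2 * Real.exp (-(ϑ * n ^ 2 * t)) * D i := by
      intro i
      have z1 : 0 ≤ η₁ ^ 2 * D i := mul_nonneg (sq_nonneg _) (hD i)
      have z2 : 0 ≤ C₂ ^ 2 * A * (D i * Real.exp (m i) + D i * Real.exp (-(m i))) := by
        have := hD i
        positivity
      have z3 : 0 ≤ C₂ ^ 2 * Real.exp (-(ϑ * n ^ 2 * t)) * D i := by
        have := hD i
        positivity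
      by_cases h3 : |(m i : ℝ)| < M₁
      · have := hfirst i h3
        linarith
      by_cases h4 : 2 * (n : ℝ) - n * t / 4 ≤ |(m i : ℝ)|
      · have h5 : 1 ≤ A * (Real.exp (m i) + Real.exp (-(m i))) := by
          have h6 : Real.exp |(m i : ℝ)| ≤ Real.exp (m i) + Real.exp (-(m i)) := by
            rcases abs_cases (m i : ℝ) with h | h
            · rw [h.1]
              linarith [Real.exp_pos (-(m i : ℝ))]
            · rw [h.1]
              linarith [Real.exp_pos (m i : ℝ)]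
          have h7 : 1 ≤ A * Real.exp |(m i : ℝ)| := by
            rw [hA, ← Real.exp_add, Real.one_le_exp_iff]
            linarith
          exact h7.trans (mul_le_mul_of_nonneg_left h6 hA0.le)
        have h6 : ψ i ^ 2 * Real.exp (-(2 * ϑ * q i)) ≤ C₂ ^ 2 * 1 :=
          mul_le_mul (hψ2 i) (he1 i) (Real.exp_pos _).le hC2
        have h7 : ψ i ^ 2 * Real.exp (-(2 * ϑ * q i)) * D i ≤ C₂ ^ 2 * 1 * D i := mul_le_mul_of_nonneg_right h6 (hD i)
        have h8 : C₂ ^ 2 * D i * 1 ≤ C₂ ^ 2 * D i * (A * (Real.exp (m i) + Real.exp (-(m i)))) :=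
          mul_le_mul_of_nonneg_left h5 (mul_nonneg hC2 (hD i))
        have h9 : C₂ ^ 2 * D i * (A * (Real.exp (m i) + Real.exp (-(m i)))) =
            C₂ ^ 2 * A * (D i * Real.exp (m i) + D i * Real.exp (-(m i))) := by ring
        linarith
      · push Not at h4
        have h5 : (n : ℝ) ^ 2 * t / 2 ≤ q i := by
          refine le_trans ?_ (hq i)
          have h6 : (m i : ℝ) ^ 2 ≤ (2 * (n : ℝ) - n * t / 4) ^ 2 := by
            rw [← sq_abs]
            exact pow_le_pow_left₀ (abs_nonneg _) h4.le 2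
          nlinarith [mul_nonneg (mul_nonneg hn0 hn0) ht0, mul_nonneg (mul_nonneg (mul_nonneg hn0 hn0) ht0) (sub_nonneg.2 ht1)]
        have h6 : Real.exp (-(2 * ϑ * q i)) ≤ Real.exp (-(ϑ * n ^ 2 * t)) := by
          rw [Real.exp_le_exp]
          have := mul_le_mul_of_nonneg_left h5 hϑ
          linarith
        have h7 : ψ i ^ 2 * Real.exp (-(2 * ϑ * q i)) ≤ C₂ ^ 2 * Real.exp (-(ϑ * n ^ 2 * t)) :=
          mul_le_mul (hψ2 i) h6 (Real.exp_pos _).le hC2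
        have h8 := mul_le_mul_of_nonneg_right h7 (hD i)
        linarith
    have hsum := Finset.sum_le_sum fun i (_ : i ∈ Finset.univ) => hall i
    rw [Finset.sum_add_distrib, Finset.sum_add_distrib, ← Finset.mul_sum, ← Finset.mul_sum, ← Finset.mul_sum,
      Finset.sum_add_distrib] at hsum
    have k1 : η₁ ^ 2 * ∑ i, D i ≤ η₁ ^ 2 * 1 := mul_le_mul_of_nonneg_left h1 (sq_nonneg _)
    have k2 : C₂ ^ 2 * A * (∑ i, D i * Real.exp (m i) + ∑ i, D i * Real.exp (-(m i))) ≤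
        C₂ ^ 2 * A * (2 * Real.exp (n * (2 - t / 2))) :=
      mul_le_mul_of_nonneg_left (by linarith) (by positivity)
    have k3 : A * Real.exp (n * (2 - t / 2)) ≤ Real.exp (-(1 / 8 * M₁ * t)) := by
      rw [hA, ← Real.exp_add, Real.exp_le_exp]
      nlinarith
    have k4 : C₂ ^ 2 * Real.exp (-(ϑ * n ^ 2 * t)) * ∑ i, D i ≤ C₂ ^ 2 * Real.exp (-(ϑ * n ^ 2 * t)) * 1 :=
      mul_le_mul_of_nonneg_left h1 (by positivity)
    have k5 : Real.exp (-(ϑ * n ^ 2 * t)) ≤ Real.exp (-(1 / 8 * ϑ * M₁ ^ 2 * t)) := by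
      rw [Real.exp_le_exp]
      have h3 : M₁ ^ 2 ≤ 4 * (n : ℝ) ^ 2 := by nlinarith
      have h4 := mul_le_mul_of_nonneg_left h3 (mul_nonneg hϑ ht0)
      nlinarith [mul_nonneg (mul_nonneg hϑ ht0) (sq_nonneg (n : ℝ))]
    have k6 : C₂ ^ 2 * A * (2 * Real.exp (n * (2 - t / 2))) ≤ 2 * C₂ ^ 2 * Real.exp (-(1 / 8 * M₁ * t)) := by
      have := mul_le_mul_of_nonneg_left k3 (mul_nonneg (by norm_num : (0 : ℝ) ≤ 2) hC2)
      nlinarith
    have k7 := mul_le_mul_of_nonneg_left k5 hC2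
    have k8 : 0 ≤ C₂ ^ 2 * Real.exp (-(1 / 8 * ϑ * M₁ ^ 2 * t)) := by positivity
    nlinarith


/-! ### the form for a fixed `h` -/

section grp

variable {G : Type} [Group G] [TopologicalSpace G] [IsTopologicalGroup G] [CompactSpace G]
  [T2Space G] [SecondCountableTopology G] [MeasurableSpace G] [BorelSpace G]

theorem wt_mat (ω₁ ω₂ : Measure G) [IsFiniteMeasure ω₁] [IsFiniteMeasure ω₂] {n : ℕ} (σ : Rep G (Fin n))
    (U M : Matrix (Fin n) (Fin n) ℂ) (hM : ∀ a b, L2W.MM ω₁ ω₂ σ a b = M a b) (p j : Fin n) (h g : G) :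
    L2W.Wt ω₁ ω₂ (fun g => (σ.ρ g * U) p j) (h, g) = (σ.ρ g * (M * (σ.ρ h)ᴴ * U)) p j := by
  have hce : ∀ i j, Continuous fun g => σ.ρ g i j := fun i j => σ.cont.matrix_elem i j
  have e1 : (fun g => (σ.ρ g * U) p j) = fun g => ∑ q, U q j * σ.ρ g p q := by
    funext g
    rw [Matrix.mul_apply]
    exact Finset.sum_congr rfl fun q _ => mul_comm _ _
  rw [e1, L2W.wt_sum ω₁ ω₂ Finset.univ (fun q => U q j) (fun q g => σ.ρ g p q) (fun q => hce p q) (h, g),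
    ← Matrix.mul_assoc, ← Matrix.mul_assoc, Matrix.mul_apply]
  refine Finset.sum_congr rfl fun q _ => ?_
  rw [L2W.wt_entry, mul_comm, Matrix.mul_apply]
  congr 1
  refine Finset.sum_congr rfl fun b _ => ?_
  rw [Matrix.mul_apply, Finset.sum_mul, Matrix.conjTranspose_apply]
  refine Finset.sum_congr rfl fun a _ => ?_
  rw [hM]
  rfl

theorem int_mat (ω : Measure G) [IsFiniteMeasure ω] {n : ℕ} (σ : Rep G (Fin n))
    (P Q : Matrix (Fin n) (Fin n) ℂ) (i j : Fin n) :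
    ∫ x, (P * (σ.ρ x)ᴴ * Q) i j ∂ω = ∑ b, ∑ a, P i a * conj (∫ x, σ.ρ x b a ∂ω) * Q b j := by
  have hce : ∀ i j, Continuous fun g => σ.ρ g i j := fun i j => σ.cont.matrix_elem i j
  have e1 : ∀ x, (P * (σ.ρ x)ᴴ * Q) i j = ∑ b, ∑ a, (P i a * conj (σ.ρ x b a)) * Q b j := by
    intro x
    rw [Matrix.mul_apply]
    refine Finset.sum_congr rfl fun b _ => ?_
    rw [Matrix.mul_apply, Finset.sum_mul]
    rfl
  simp only [e1]
  rw [integral_finsetSum]
  · refine Finset.sum_congr rfl fun b _ => ?_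
    rw [integral_finsetSum]
    · refine Finset.sum_congr rfl fun a _ => ?_
      rw [integral_mul_const, integral_const_mul, integral_conj]
    · intro a _
      exact ((L2W.cint ω (Complex.continuous_conj.comp (hce b a))).const_mul _).mul_const _
  · intro b _
    exact integrable_finsetSum _ fun a _ =>
      ((L2W.cint ω (Complex.continuous_conj.comp (hce b a))).const_mul _).mul_const _

theorem diag_sum {n : ℕ} (S : Matrix (Fin n) (Fin n) ℂ) (t : Fin n → ℂ) (j : Fin n) :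
    (Sᴴ * (Matrix.diagonal (fun i => conj (t i)) * Matrix.diagonal t) * S) j j =
      ((∑ i, ‖t i‖ ^ 2 * ‖S i j‖ ^ 2 : ℝ) : ℂ) := by
  rw [Matrix.diagonal_mul_diagonal, Matrix.mul_apply]
  push_cast
  refine Finset.sum_congr rfl fun i _ => ?_
  rw [Matrix.mul_diagonal, Matrix.conjTranspose_apply, Complex.star_def, ← Complex.conj_mul', ← Complex.conj_mul']
  ring

/-- the main identity for a fixed `h` -/
theorem main1 (μ : Measure G) [IsProbabilityMeasure μ] [μ.IsMulRightInvariant]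
    (ω₁ ω₂ : Measure G) [IsFiniteMeasure ω₁] [IsFiniteMeasure ω₂] {n : ℕ} (σ : Rep G (Fin n))
    (U : Matrix (Fin n) (Fin n) ℂ) (hU1 : U * Uᴴ = 1) (hU2 : Uᴴ * U = 1) (t : Fin n → ℂ)
    (hM : ∀ a b, L2W.MM ω₁ ω₂ σ a b = (U * Matrix.diagonal t * Uᴴ) a b) (h : G) (p j₀ : Fin n) (f : G → ℂ) (hf : Continuous f)
    (hz : ∀ i, i ≠ j₀ → ∫ g, (σ.ρ g * U) p i * conj (f g) ∂μ = 0) :
    ∫ g, L2W.Wt ω₁ ω₂ (fun g => (σ.ρ g * U) p j₀) (h, g) * conj (L2W.Wt ω₁ ω₂ f (h, g)) ∂μ =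
      ((∑ i, ‖t i‖ ^ 2 * ‖(Uᴴ * σ.ρ h⁻¹ * U) i j₀‖ ^ 2 : ℝ) : ℂ) * ∫ g, (σ.ρ g * U) p j₀ * conj (f g) ∂μ := by
  have hce : ∀ i j, Continuous fun g => σ.ρ g i j := fun i j => σ.cont.matrix_elem i j
  have hme : ∀ (V : Matrix (Fin n) (Fin n) ℂ) (i j : Fin n), Continuous fun g => (σ.ρ g * V) i j := by
    intro V i j
    simp only [Matrix.mul_apply]
    exact continuous_finsetSum _ fun q _ => (hce i q).mul continuous_const
  set M : Matrix (Fin n) (Fin n) ℂ := U * Matrix.diagonal t * Uᴴ with hMd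
  set A : Matrix (Fin n) (Fin n) ℂ := M * (σ.ρ h)ᴴ * U with hA
  set I : ℂ := ∫ g, (σ.ρ g * U) p j₀ * conj (f g) ∂μ with hI
  have hv : ∀ g, L2W.Wt ω₁ ω₂ (fun g => (σ.ρ g * U) p j₀) (h, g) = (σ.ρ g * A) p j₀ := fun g =>
    wt_mat ω₁ ω₂ σ U M hM p j₀ h g
  simp only [hv]
  -- for a fixed `x`
  have hx : ∀ x : G, ∫ g, (σ.ρ g * A) p j₀ * conj (f (g * x * h⁻¹)) ∂μ =
      ((Uᴴ * σ.ρ h) * (σ.ρ x)ᴴ * A) j₀ j₀ * I := by
    intro x
    have h1 : ∫ g, (σ.ρ g * A) p j₀ * conj (f (g * x * h⁻¹)) ∂μ =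
        ∫ g, (σ.ρ (g * h * x⁻¹) * A) p j₀ * conj (f g) ∂μ := by
      rw [← integral_mul_right_eq_self (fun g => (σ.ρ (g * h * x⁻¹) * A) p j₀ * conj (f g)) (x * h⁻¹)]
      refine integral_congr_ae (Eventually.of_forall fun g => ?_)
      show (σ.ρ g * A) p j₀ * conj (f (g * x * h⁻¹)) =
        (σ.ρ (g * (x * h⁻¹) * h * x⁻¹) * A) p j₀ * conj (f (g * (x * h⁻¹)))
      have e1 : g * (x * h⁻¹) * h * x⁻¹ = g := by group
      rw [e1, mul_assoc]
    have h2 : ∀ g, (σ.ρ (g * h * x⁻¹) * A) p j₀ = ∑ i, ((Uᴴ * σ.ρ h) * (σ.ρ x)ᴴ * A) i j₀ * (σ.ρ g * U) p i := by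
      intro g
      have e1 : σ.ρ (g * h * x⁻¹) * A = (σ.ρ g * U) * ((Uᴴ * σ.ρ h) * (σ.ρ x)ᴴ * A) := by
        rw [map_mul, map_mul, σ.unit]
        calc σ.ρ g * σ.ρ h * (σ.ρ x)ᴴ * A = σ.ρ g * 1 * σ.ρ h * (σ.ρ x)ᴴ * A := by rw [Matrix.mul_one]
          _ = σ.ρ g * (U * Uᴴ) * σ.ρ h * (σ.ρ x)ᴴ * A := by rw [hU1]
          _ = _ := by simp only [Matrix.mul_assoc]
      rw [e1, Matrix.mul_apply]
      exact Finset.sum_congr rfl fun i _ => mul_comm _ _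
    have h3 : ∀ i, Integrable (fun g => (σ.ρ g * U) p i * conj (f g)) μ := fun i =>
      L2W.cint μ ((hme U p i).mul (Complex.continuous_conj.comp hf))
    have h4 : ∀ g, (σ.ρ (g * h * x⁻¹) * A) p j₀ * conj (f g) =
        ∑ i, ((Uᴴ * σ.ρ h) * (σ.ρ x)ᴴ * A) i j₀ * ((σ.ρ g * U) p i * conj (f g)) := by
      intro g
      rw [h2, Finset.sum_mul]
      exact Finset.sum_congr rfl fun i _ => mul_assoc _ _ _
    rw [h1]
    simp only [h4]
    rw [integral_finsetSum _ fun i _ => (h3 i).const_mul _, Finset.sum_eq_single j₀]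
    · rw [integral_const_mul]
    · intro i _ hi
      rw [integral_const_mul, hz i hi, mul_zero]
    · intro h5
      exact absurd (Finset.mem_univ _) h5
  have hu : Continuous fun z : G × G => conj (f (z.1 * z.2 * h⁻¹)) :=
    Complex.continuous_conj.comp (hf.comp ((continuous_fst.mul continuous_snd).mul continuous_const))
  have hvu : Continuous fun z : G × G => (σ.ρ z.1 * A) p j₀ * conj (f (z.1 * z.2 * h⁻¹)) :=
    ((hme A p j₀).comp continuous_fst).mul hu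
  have h1 : ∀ (ω : Measure G) [IsFiniteMeasure ω],
      (∫ g, (σ.ρ g * A) p j₀ * ∫ x, conj (f (g * x * h⁻¹)) ∂ω ∂μ =
        (∑ b, ∑ a, (Uᴴ * σ.ρ h) j₀ a * conj (∫ x, σ.ρ x b a ∂ω) * A b j₀) * I) ∧
      Integrable (fun g => (σ.ρ g * A) p j₀ * ∫ x, conj (f (g * x * h⁻¹)) ∂ω) μ := by
    intro ω _
    have hc1 := continuous_parametric_integral_of_continuous (μ := ω) (X := G)
      (f := fun g x => conj (f (g * x * h⁻¹))) hu (isCompact_univ (X := G))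
    rw [Measure.restrict_univ] at hc1
    refine ⟨?_, L2W.cint μ ((hme A p j₀).mul hc1)⟩
    have e1 : ∀ g, (σ.ρ g * A) p j₀ * ∫ x, conj (f (g * x * h⁻¹)) ∂ω =
        ∫ x, (σ.ρ g * A) p j₀ * conj (f (g * x * h⁻¹)) ∂ω := fun y => by rw [integral_const_mul]
    simp only [e1]
    have hiu : Integrable (Function.uncurry fun (g : G) (x : G) =>
        (σ.ρ g * A) p j₀ * conj (f (g * x * h⁻¹))) (μ.prod ω) := L2W.cint _ hvu
    rw [integral_integral_swap hiu]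
    simp only [hx]
    rw [integral_mul_const, int_mat]
  have e3 : ∀ g, (σ.ρ g * A) p j₀ * conj (L2W.Wt ω₁ ω₂ f (h, g)) =
      (σ.ρ g * A) p j₀ * (∫ x, conj (f (g * x * h⁻¹)) ∂ω₁) - (σ.ρ g * A) p j₀ * ∫ x, conj (f (g * x * h⁻¹)) ∂ω₂ := by
    intro g
    rw [← mul_sub]
    congr 1
    unfold L2W.Wt
    rw [map_sub, ← integral_conj, ← integral_conj]
  simp only [e3]
  rw [integral_sub (h1 ω₁).2 (h1 ω₂).2, (h1 ω₁).1, (h1 ω₂).1, ← sub_mul]
  congr 1
  have e4 : (∑ b, ∑ a, (Uᴴ * σ.ρ h) j₀ a * conj (∫ x, σ.ρ x b a ∂ω₁) * A b j₀) -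
      ∑ b, ∑ a, (Uᴴ * σ.ρ h) j₀ a * conj (∫ x, σ.ρ x b a ∂ω₂) * A b j₀ = ((Uᴴ * σ.ρ h) * Mᴴ * A) j₀ j₀ := by
    rw [← Finset.sum_sub_distrib, Matrix.mul_apply]
    refine Finset.sum_congr rfl fun b _ => ?_
    rw [← Finset.sum_sub_distrib, Matrix.mul_apply, Finset.sum_mul]
    refine Finset.sum_congr rfl fun a _ => ?_
    rw [← sub_mul, ← mul_sub, ← map_sub, Matrix.conjTranspose_apply, ← hM b a]
    rfl
  have e5 : (Uᴴ * σ.ρ h) * Mᴴ * A = (Uᴴ * σ.ρ h⁻¹ * U)ᴴ *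
      (Matrix.diagonal (fun i => conj (t i)) * Matrix.diagonal t) * (Uᴴ * σ.ρ h⁻¹ * U) := by
    have e6 : (star t : Fin n → ℂ) = fun j => conj (t j) := by
      funext j
      rfl
    rw [hA, hMd, σ.unit, Matrix.conjTranspose_mul, Matrix.conjTranspose_mul, Matrix.conjTranspose_mul,
      Matrix.conjTranspose_mul, Matrix.conjTranspose_conjTranspose, Matrix.conjTranspose_conjTranspose,
      Matrix.diagonal_conjTranspose, e6]
    calc Uᴴ * σ.ρ h * (U * (Matrix.diagonal (fun j => conj (t j)) * Uᴴ)) * (U * Matrix.diagonal t * Uᴴ * (σ.ρ h)ᴴ * U) =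
        Uᴴ * (σ.ρ h * (U * (Matrix.diagonal (fun j => conj (t j)) * ((Uᴴ * U) *
          (Matrix.diagonal t * (Uᴴ * ((σ.ρ h)ᴴ * U))))))) := by simp only [Matrix.mul_assoc]
      _ = _ := by
        rw [hU2, Matrix.one_mul]
        simp only [Matrix.mul_assoc]
  rw [e4, e5, diag_sum]

/-- the inequality for combinations of entries -/
theorem comb1 (μ : Measure G) [IsProbabilityMeasure μ]
    {κ : Type} (s : Finset κ)
    (c : κ → ℂ) (f w : κ → G → ℂ) (hf : ∀ k, Continuous (f k)) (hw : ∀ k, Continuous (w k)) (la : κ → ℝ) (b : ℝ)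
    (hb : ∀ k, la k ≤ b)
    (h : ∀ k l, ∫ y, w k y * conj (w l y) ∂μ =
      ((la k : ℝ) : ℂ) * ∫ g, f k g * conj (f l g) ∂μ) :
    ∫ y, ‖∑ k ∈ s, c k * w k y‖ ^ 2 ∂μ ≤
      b * ∫ g, ‖∑ k ∈ s, c k * f k g‖ ^ 2 ∂μ := by
  set S : κ → κ → ℂ := fun k l => ∫ g, f k g * conj (f l g) ∂μ with hSd
  have hsym : ∀ k l, conj (S k l) = S l k := by
    intro k l
    simp only [hSd]
    rw [← integral_conj]
    refine integral_congr_ae (Eventually.of_forall fun g => ?_)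
    show conj (f k g * conj (f l g)) = f l g * conj (f k g)
    rw [map_mul, Complex.conj_conj, mul_comm]
  have hla : ∀ k l, ((la k : ℝ) : ℂ) * S k l = ((la l : ℝ) : ℂ) * S k l := by
    intro k l
    rw [← h k l]
    have e1 : ∫ y, w k y * conj (w l y) ∂μ =
        conj (∫ y, w l y * conj (w k y) ∂μ) := by
      rw [← integral_conj]
      refine integral_congr_ae (Eventually.of_forall fun y => ?_)
      show w k y * conj (w l y) =
        conj (w l y * conj (w k y))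
      rw [map_mul, Complex.conj_conj, mul_comm]
    rw [e1, h l k, map_mul, Complex.conj_ofReal]
    show ((la l : ℝ) : ℂ) * conj (S l k) = _
    rw [hsym]
  set a : κ → ℝ := fun k => √(b - la k) with ha
  have haa : ∀ k l, ((a k : ℝ) : ℂ) * ((a l : ℝ) : ℂ) * S k l =
      ((b : ℝ) : ℂ) * S k l - ((la k : ℝ) : ℂ) * S k l := by
    intro k l
    by_cases hS0 : S k l = 0
    · rw [hS0]
      ring
    · have h1 : ((la k : ℝ) : ℂ) = ((la l : ℝ) : ℂ) := mul_right_cancel₀ hS0 (hla k l)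
      have h2 : la k = la l := by exact_mod_cast h1
      have h3 : a k * a l = b - la k := by
        simp only [ha]
        rw [← h2, Real.mul_self_sqrt (by linarith [hb k])]
      rw [← Complex.ofReal_mul, h3]
      push_cast
      ring
  have e1 := L2W.sq_sum μ s c w hw
  have e2 := L2W.sq_sum μ s c f hf
  have e3 := L2W.sq_sum μ s (fun k => ((a k : ℝ) : ℂ) * c k) f hf
  have e5 : ((∫ x, ‖∑ k ∈ s, ((a k : ℝ) : ℂ) * c k * f k x‖ ^ 2 ∂μ : ℝ) : ℂ) =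
      ((b * ∫ g, ‖∑ k ∈ s, c k * f k g‖ ^ 2 ∂μ -
        ∫ y, ‖∑ k ∈ s, c k * w k y‖ ^ 2 ∂μ : ℝ) : ℂ) := by
    rw [Complex.ofReal_sub, Complex.ofReal_mul, e1, e2, e3, Finset.mul_sum,
      ← Finset.sum_sub_distrib]
    refine Finset.sum_congr rfl fun k _ => ?_
    rw [Finset.mul_sum, ← Finset.sum_sub_distrib]
    refine Finset.sum_congr rfl fun l _ => ?_
    rw [h k l, map_mul, Complex.conj_ofReal]
    show ((a k : ℝ) : ℂ) * c k * (((a l : ℝ) : ℂ) * conj (c l)) * S k l =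
      ((b : ℝ) : ℂ) * ((c k * conj (c l)) * S k l) - (c k * conj (c l)) * (((la k : ℝ) : ℂ) * S k l)
    linear_combination (c k * conj (c l)) * haa k l
  have e6 : 0 ≤ ∫ x, ‖∑ k ∈ s, ((a k : ℝ) : ℂ) * c k * f k x‖ ^ 2 ∂μ :=
    integral_nonneg fun x => by positivity
  have e7 := Complex.ofReal_injective e5
  linarith

/-- density -/
theorem dens1 (μ : Measure G) [IsProbabilityMeasure μ]
    (ω₁ ω₂ : Measure G) [IsFiniteMeasure ω₁] [IsFiniteMeasure ω₂] {b : ℝ} (hb : 0 ≤ b)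
    (F : G → ℂ) (hF : Continuous F) (h₀ : G)
    (h : ∀ ε : ℝ, 0 < ε → ∃ P : G → ℂ, Continuous P ∧ (∀ g, ‖F g - P g‖ ≤ ε) ∧
      ∫ y, ‖L2W.Wt ω₁ ω₂ P (h₀, y)‖ ^ 2 ∂μ ≤ b * ∫ g, ‖P g‖ ^ 2 ∂μ) :
    ∫ y, ‖L2W.Wt ω₁ ω₂ F (h₀, y)‖ ^ 2 ∂μ ≤ b * ∫ g, ‖F g‖ ^ 2 ∂μ := by
  obtain ⟨S, hS⟩ := (isCompact_univ (X := G)).exists_bound_of_continuousOn hF.continuousOn
  have hS' : ∀ g, ‖F g‖ ≤ |S| := fun g => (hS g (Set.mem_univ g)).trans (le_abs_self S)
  set m : ℝ := ω₁.real Set.univ + ω₂.real Set.univ with hm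
  have hm0 : 0 ≤ m := add_nonneg measureReal_nonneg measureReal_nonneg
  -- bounds of the transform
  have hW : ∀ (f : G → ℂ) (t : ℝ), 0 ≤ t → (∀ g, ‖f g‖ ≤ t) → ∀ y, ‖L2W.Wt ω₁ ω₂ f y‖ ≤ m * t := by
    intro f t ht hft y
    unfold L2W.Wt
    have h1 : ∀ (ω : Measure G) [IsFiniteMeasure ω],
        ‖∫ x, f (y.2 * x * y.1⁻¹) ∂ω‖ ≤ t * ω.real Set.univ := by
      intro ω _
      exact norm_integral_le_of_norm_le_const (Eventually.of_forall fun x => hft _)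
    refine (norm_sub_le _ _).trans ?_
    have h2 := h1 ω₁
    have h3 := h1 ω₂
    rw [hm]
    nlinarith
  have hsub : ∀ P : G → ℂ, Continuous P → ∀ y,
      L2W.Wt ω₁ ω₂ F y - L2W.Wt ω₁ ω₂ P y = L2W.Wt ω₁ ω₂ (fun g => F g - P g) y := by
    intro P hP y
    unfold L2W.Wt
    have hc : ∀ f : G → ℂ, Continuous f → Continuous fun x => f (y.2 * x * y.1⁻¹) := fun f hf =>
      hf.comp ((continuous_const.mul continuous_id).mul continuous_const)
    rw [integral_sub (L2W.cint ω₁ (hc F hF)) (L2W.cint ω₁ (hc P hP)),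
      integral_sub (L2W.cint ω₂ (hc F hF)) (L2W.cint ω₂ (hc P hP))]
    ring
  have hsq : ∀ u v : ℂ, ∀ A e : ℝ, ‖u‖ ≤ A → ‖v‖ ≤ A → ‖u - v‖ ≤ e → 0 ≤ e →
      ‖u‖ ^ 2 ≤ ‖v‖ ^ 2 + 2 * A * e := by
    intro u v A e h1 h2 h3 h4
    have h5 : ‖u‖ ≤ ‖v‖ + e := by
      have := norm_le_norm_add_norm_sub' u v
      linarith
    nlinarith [norm_nonneg u, norm_nonneg v]
  refine le_of_forall_pos_le_add fun δ hδ => ?_
  set K : ℝ := 2 * (m * (|S| + 1)) * m + b * (2 * (|S| + 1)) with hK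
  have hK0 : 0 ≤ K := by positivity
  set ε : ℝ := min 1 (δ / (K + 1)) with hε
  have hε0 : 0 < ε := lt_min one_pos (by positivity)
  have hε1 : ε ≤ 1 := min_le_left _ _
  have hε2 : K * ε ≤ δ := by
    have h1 : ε ≤ δ / (K + 1) := min_le_right _ _
    calc K * ε ≤ K * (δ / (K + 1)) := mul_le_mul_of_nonneg_left h1 hK0
      _ ≤ (K + 1) * (δ / (K + 1)) := mul_le_mul_of_nonneg_right (by linarith) (by positivity)
      _ = δ := by field_simp
  obtain ⟨P, hP, hPF, hPI⟩ := h ε hε0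
  have hP' : ∀ g, ‖P g‖ ≤ |S| + 1 := by
    intro g
    have h1 := norm_le_norm_add_norm_sub' (P g) (F g)
    have h2 := hPF g
    rw [norm_sub_rev] at h2
    linarith [hS' g]
  have hF' : ∀ g, ‖F g‖ ≤ |S| + 1 := fun g => (hS' g).trans (by linarith)
  have hS1 : 0 ≤ |S| + 1 := by positivity
  have b1 : ∀ y : G, ‖L2W.Wt ω₁ ω₂ F (h₀, y)‖ ^ 2 ≤
      ‖L2W.Wt ω₁ ω₂ P (h₀, y)‖ ^ 2 + 2 * (m * (|S| + 1)) * (m * ε) := by
    intro y
    refine hsq _ _ _ _ (hW F _ hS1 hF' (h₀, y)) (hW P _ hS1 hP' (h₀, y)) ?_ (by positivity)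
    rw [hsub P hP]
    exact hW _ _ hε0.le hPF (h₀, y)
  have b2 : ∀ g, ‖P g‖ ^ 2 ≤ ‖F g‖ ^ 2 + 2 * (|S| + 1) * ε := by
    intro g
    refine hsq _ _ _ _ (hP' g) (hF' g) ?_ hε0.le
    rw [norm_sub_rev]
    exact hPF g
  have rint : ∀ {X : Type} [TopologicalSpace X] [CompactSpace X] [MeasurableSpace X]
      [OpensMeasurableSpace X] (ν : Measure X) [IsFiniteMeasure ν] {f : X → ℝ}
      (_ : Continuous f), Integrable f ν := by
    intro X _ _ _ _ ν _ f hf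
    exact hf.integrable_of_hasCompactSupport (HasCompactSupport.of_compactSpace _)
  have i1 : ∀ f : G → ℂ, Continuous f →
      Integrable (fun y : G => ‖L2W.Wt ω₁ ω₂ f (h₀, y)‖ ^ 2) μ := fun f hf =>
    rint μ (((L2W.wt_cont ω₁ ω₂ hf).comp (continuous_const.prodMk continuous_id)).norm.pow 2)
  have i2 : ∀ f : G → ℂ, Continuous f → Integrable (fun g => ‖f g‖ ^ 2) μ := fun f hf =>
    rint μ (hf.norm.pow 2)
  have c1 : ∫ y : G, ‖L2W.Wt ω₁ ω₂ F (h₀, y)‖ ^ 2 ∂μ ≤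
      (∫ y : G, ‖L2W.Wt ω₁ ω₂ P (h₀, y)‖ ^ 2 ∂μ) + 2 * (m * (|S| + 1)) * (m * ε) := by
    have h1 := integral_mono (i1 F hF) ((i1 P hP).add (integrable_const _)) b1
    refine h1.trans (le_of_eq ?_)
    show ∫ y : G, (‖L2W.Wt ω₁ ω₂ P (h₀, y)‖ ^ 2 + 2 * (m * (|S| + 1)) * (m * ε)) ∂μ = _
    rw [integral_add (i1 P hP) (integrable_const _)]
    simp
  have c2 : ∫ g, ‖P g‖ ^ 2 ∂μ ≤ (∫ g, ‖F g‖ ^ 2 ∂μ) + 2 * (|S| + 1) * ε := by
    have h1 := integral_mono (i2 P hP) ((i2 F hF).add (integrable_const _)) b2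
    refine h1.trans (le_of_eq ?_)
    show ∫ g, (‖F g‖ ^ 2 + 2 * (|S| + 1) * ε) ∂μ = _
    rw [integral_add (i2 F hF) (integrable_const _)]
    simp
  have c3 := mul_le_mul_of_nonneg_left c2 hb
  have c4 : 2 * (m * (|S| + 1)) * (m * ε) + b * (2 * (|S| + 1) * ε) = K * ε := by
    rw [hK]
    ring
  linarith

end grp

theorem eu_half : eu (1 / 2) = -1 := by
  unfold eu
  have h : 2 * (π : ℂ) * ((1 / 2 : ℝ) : ℂ) * Complex.I = π * Complex.I := by
    push_cast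
    ring
  rw [h, Complex.exp_pi_mul_I]

theorem ent_right {N : ℕ} {H : Subgroup (SU N)} {Hc : Fin 1 → MT N} {n : ℕ} {σ : Rep H (Fin n)}
    {U : Matrix (Fin n) (Fin n) ℂ} {m : Fin n → Fin 1 → ℤ} (hU : Uᴴ * U = 1)
    (htor : ∀ θ : Fin 1 → ℝ, σ.ρ (tt H Hc θ) = U * Matrix.diagonal (fun k => eu (dz (m k) θ)) * Uᴴ)
    (g : H) (θ : Fin 1 → ℝ) (p j : Fin n) :
    (σ.ρ (g * tt H Hc θ) * U) p j = (σ.ρ g * U) p j * eu (dz (m j) θ) := by
  rw [map_mul, htor]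
  have e : σ.ρ g * (U * Matrix.diagonal (fun k => eu (dz (m k) θ)) * Uᴴ) * U =
      σ.ρ g * U * Matrix.diagonal (fun k => eu (dz (m k) θ)) := by
    calc σ.ρ g * (U * Matrix.diagonal (fun k => eu (dz (m k) θ)) * Uᴴ) * U =
        σ.ρ g * U * Matrix.diagonal (fun k => eu (dz (m k) θ)) * (Uᴴ * U) := by simp only [Matrix.mul_assoc]
      _ = _ := by rw [hU, Matrix.mul_one]
  rw [e, Matrix.mul_diagonal]

theorem dz1 (m : Fin 1 → ℤ) (θ : Fin 1 → ℝ) : dz m θ = m 0 * θ 0 := by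
  simp [dz]

theorem ent_zero {N : ℕ} {H : Subgroup (SU N)} {Hc : Fin 1 → MT N} {n : ℕ} {σ : Rep H (Fin n)}
    {U : Matrix (Fin n) (Fin n) ℂ} {m : Fin n → Fin 1 → ℤ} (hU : Uᴴ * U = 1)
    (htor : ∀ θ : Fin 1 → ℝ, σ.ρ (tt H Hc θ) = U * Matrix.diagonal (fun k => eu (dz (m k) θ)) * Uᴴ)
    (μ : Measure H) [μ.IsMulRightInvariant] {f : H → ℂ} (hf : TI Hc f) (p j : Fin n) (hj : m j ≠ 0) :
    ∫ g, (σ.ρ g * U) p j * conj (f g) ∂μ = 0 := by
  have hj0 : (m j 0 : ℝ) ≠ 0 := by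
    intro h
    apply hj
    funext i
    rw [Subsingleton.elim i 0]
    exact_mod_cast h
  set θ : Fin 1 → ℝ := fun _ => 1 / (2 * (m j 0 : ℝ)) with hθ
  have h1 : eu (dz (m j) θ) = -1 := by
    rw [dz1, hθ, ← eu_half]
    congr 1
    field_simp
  have h2 := integral_mul_right_eq_self (μ := μ) (fun g => (σ.ρ g * U) p j * conj (f g)) (tt H Hc θ)
  have h3 : ∀ g, (σ.ρ (g * tt H Hc θ) * U) p j * conj (f (g * tt H Hc θ)) = -((σ.ρ g * U) p j * conj (f g)) := by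
    intro g
    rw [ent_right hU htor, h1, hf g θ]
    ring
  simp only [h3] at h2
  rw [integral_neg] at h2
  have h4 : 2 * ∫ g, (σ.ρ g * U) p j * conj (f g) ∂μ = 0 := by linear_combination -h2
  simpa using h4

end BND

open BND in
theorem t_BND : M_BND := by
  intro _ hSC hTE hWF hTA hPF hDP hTR hNR hPS hHM hRN hLB hSPW N H Φ B Hc E c k hX cc ze w C₀ hSP htr μ _ _ χ hχ
  refine ⟨2, 1 / 8, by norm_num, by norm_num, ?_⟩
  intro ϑ κ hϑ hϑ1 hκ ν₁ ν₂ Ψ R C₂ η₁ M₁ hFM hΨ hM₁ hη F hF hFT h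
  obtain ⟨X, hfr⟩ := hX.frame
  have T : TAF H Φ Hc E := hTA N H 1 Φ B Hc E hX.closed hX.lrd
  have hww := hWF 1 Φ B hX.lrd.ird
  have RF := hRN Φ B hX.lrd.ird hww
  have hcs : CompactSpace H := isCompact_iff_compactSpace.1 hX.closed.isCompact
  have hsec : SecondCountableTopology H :=
    TopologicalSpace.Subtype.secondCountableTopology (H : Set (SU N))
  have hκp : IsProbabilityMeasure κ := hκ.prob
  have hν₁ : IsFiniteMeasure ν₁ := hFM.fin₁
  have hν₂ : IsFiniteMeasure ν₂ := hFM.fin₂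
  have htc : Continuous (tt H Hc) := L2W.tt_cont T
  have hri : μ.IsMulRightInvariant := (t_HAAR H μ).1
  set ω₁ := L2W.om Hc ν₁ κ with hω₁
  set ω₂ := L2W.om Hc ν₂ κ with hω₂
  have f1 : IsFiniteMeasure ω₁ := L2W.om_fin ν₁ κ
  have f2 : IsFiniteMeasure ω₂ := L2W.om_fin ν₂ κ
  have hη0 : 0 ≤ η₁ := le_trans (abs_nonneg _) (hη 0 (by
    simp only [Pi.zero_apply, Int.cast_zero, abs_zero]
    linarith))
  set b : ℝ := η₁ ^ 2 + 2 * C₂ ^ 2 * (Real.exp (-(1 / 8 * M₁ * cc h ^ 2)) + Real.exp (-(1 / 8 * ϑ * M₁ ^ 2 * cc h ^ 2))) with hb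
  have hb0 : 0 ≤ b := by positivity
  have htt0 : 0 ≤ cc h ^ 2 := sq_nonneg _
  have htt1 : cc h ^ 2 ≤ 1 := by
    have h1 := hSP.norm h
    nlinarith [sq_nonneg ‖ze h‖]
  -- the representations
  have hrep : ∀ (n : ℕ) (σ : Rep H (Fin n)), σ.Irr → PRep σ → ∃ (U : Matrix (Fin n) (Fin n) ℂ) (m : Fin n → Fin 1 → ℤ)
      (t : Fin n → ℂ), WT Hc σ U m ∧ (∀ i j, m i = m j → i = j) ∧
        (∀ a' b', L2W.MM ω₁ ω₂ σ a' b' = (U * Matrix.diagonal t * Uᴴ) a' b') ∧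
        ∀ j₀, m j₀ = 0 → ∑ i, ‖t i‖ ^ 2 * ‖(Uᴴ * σ.ρ h⁻¹ * U) i j₀‖ ^ 2 ≤ b := by
    intro n σ hσ hσp
    obtain ⟨l, hl⟩ := hNR N H 1 Φ B Hc E c k 3 X hX.one_le hX.closed hX.conn hX.lrd hX.kc hfr n σ
      hσ hσp
    obtain ⟨U, m, hU1, hU2, hU3⟩ := hTR N H 1 Φ B Hc E hX.closed hX.lrd n σ hσp
    have hW : WT Hc σ U m := ⟨hU1, hU2, hU3⟩
    have hce : ∀ i j, Continuous fun g => σ.ρ g i j := fun i j => σ.cont.matrix_elem i j
    set kk : Fin n → ℂ := fun j => ((Real.exp (-(ϑ * cq Φ l (m j))) : ℝ) : ℂ) with hkk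
    set ps : Fin n → ℂ := fun j => ∫ s, eu (dz (m j) s) ∂ν₁ - ∫ s, eu (dz (m j) s) ∂ν₂ with hps
    have hK : ∀ i j, ∫ x, σ.ρ x i j ∂κ = (U * Matrix.diagonal kk * Uᴴ) i j :=
      hHM N H 1 Φ B Hc E c k 3 hX ϑ κ hϑ hκ n σ l U m hσ hσp hl hW
    have hone : ∀ (ν : Measure (Fin 1 → ℝ)) [IsFiniteMeasure ν] (a e : Fin n),
        ∫ x, σ.ρ x a e ∂(L2W.om Hc ν κ) =
          (U * Matrix.diagonal (fun j => (∫ s, eu (dz (m j) s) ∂ν) * kk j) * Uᴴ) a e := by
      intro ν _ a e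
      rw [L2W.om_int htc ν κ _ (hce a e)]
      have e1 : ∀ s, ∫ z, σ.ρ (tt H Hc s * z) a e ∂κ =
          ∑ q, σ.ρ (tt H Hc s) a q * (U * Matrix.diagonal kk * Uᴴ) q e := by
        intro s
        have e2 : ∀ z, σ.ρ (tt H Hc s * z) a e = ∑ q, σ.ρ (tt H Hc s) a q * σ.ρ z q e := by
          intro z
          rw [map_mul, Matrix.mul_apply]
        simp only [e2]
        rw [integral_finsetSum _ fun q _ => (L2W.cint κ (hce q e)).const_mul _]
        refine Finset.sum_congr rfl fun q _ => ?_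
        rw [integral_const_mul, hK]
      simp only [e1]
      have hi : ∀ q, Integrable (fun s => σ.ρ (tt H Hc s) a q) ν := by
        intro q
        obtain ⟨S, hS⟩ := (isCompact_univ (X := H)).exists_bound_of_continuousOn
          (hce a q).continuousOn
        exact Integrable.of_bound ((hce a q).comp htc).aestronglyMeasurable S
          (Eventually.of_forall fun x => hS _ (Set.mem_univ _))
      rw [integral_finsetSum _ fun q _ => (hi q).mul_const _]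
      have e3 : ∑ q, ∫ s, σ.ρ (tt H Hc s) a q * (U * Matrix.diagonal kk * Uᴴ) q e ∂ν =
          ((U * Matrix.diagonal (fun j => ∫ s, eu (dz (m j) s) ∂ν) * Uᴴ) *
            (U * Matrix.diagonal kk * Uᴴ)) a e := by
        rw [Matrix.mul_apply]
        refine Finset.sum_congr rfl fun q _ => ?_
        rw [integral_mul_const, L2W.tor_int T hW ν a q]
      have e4 : U * Matrix.diagonal (fun j => ∫ s, eu (dz (m j) s) ∂ν) * Uᴴ *
            (U * Matrix.diagonal kk * Uᴴ) =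
          U * Matrix.diagonal (fun j => (∫ s, eu (dz (m j) s) ∂ν) * kk j) * Uᴴ := by
        calc U * Matrix.diagonal (fun j => ∫ s, eu (dz (m j) s) ∂ν) * Uᴴ *
              (U * Matrix.diagonal kk * Uᴴ)
            = U * Matrix.diagonal (fun j => ∫ s, eu (dz (m j) s) ∂ν) * (Uᴴ * U) *
              Matrix.diagonal kk * Uᴴ := by simp only [Matrix.mul_assoc]
          _ = U * (Matrix.diagonal (fun j => ∫ s, eu (dz (m j) s) ∂ν) * Matrix.diagonal kk) * Uᴴ := by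
            rw [hU2, Matrix.mul_one]
            simp only [Matrix.mul_assoc]
          _ = _ := by rw [Matrix.diagonal_mul_diagonal]
      rw [e3, e4]
    have hMM : ∀ a' b', L2W.MM ω₁ ω₂ σ a' b' = (U * Matrix.diagonal (fun j => ps j * kk j) * Uᴴ) a' b' := by
      intro a' b'
      unfold L2W.MM
      have e5 : (fun j => (∫ s, eu (dz (m j) s) ∂ν₁) * kk j - (∫ s, eu (dz (m j) s) ∂ν₂) * kk j) =
          fun j => ps j * kk j := by
        funext j
        simp only [hps]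
        ring
      rw [hω₁, hω₂, hone ν₁, hone ν₂, ← Matrix.sub_apply, ← Matrix.sub_mul, ← Matrix.mul_sub,
        Matrix.diagonal_sub, e5]
    obtain ⟨s1, s2, s3⟩ := hSPW N H Φ B Hc E c k hX cc ze w C₀ hSP htr χ hχ n σ l U m hσ hσp hl hW
    refine ⟨U, m, fun j => ps j * kk j, hW, s1, hMM, ?_⟩
    intro j₀ hj₀
    obtain ⟨s4, s5⟩ := s3 j₀ hj₀
    have hl1 : 1 ≤ l 0 := by
      have := hl.reg 0
      omega
    set nn : ℕ := (l 0).toNat / 2 with hnn
    have hln : l 0 = 2 * (nn : ℤ) + 1 := by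
      rw [hnn]
      omega
    have hlr : ((l 0 : ℤ) : ℝ) = 2 * (nn : ℝ) + 1 := by
      rw [hln]
      push_cast
      ring
    have hmabs : ∀ i, |(m i 0 : ℝ)| ≤ 2 * nn := by
      intro i
      have h1 := (s2 i).1
      have h2 : ((|m i 0| : ℤ) : ℝ) ≤ ((l 0 - 1 : ℤ) : ℝ) := by exact_mod_cast h1
      rw [Int.cast_abs] at h2
      push_cast at h2
      rw [hlr] at h2
      linarith
    have hmsq : ∀ i, (m i 0 : ℝ) ^ 2 ≤ (2 * nn) ^ 2 := fun i => by
      rw [← sq_abs]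
      exact pow_le_pow_left₀ (abs_nonneg _) (hmabs i) 2
    have hnn0 : (0 : ℝ) ≤ nn := Nat.cast_nonneg nn
    obtain ⟨u, hu0, hu1, hu2⟩ := angle htt0 htt1
    have hcosh : ∀ y : ℝ, Real.cosh (2 * y) = Real.cosh 2 →
        ∑ i, ‖(Uᴴ * σ.ρ h⁻¹ * U) i j₀‖ ^ 2 * Real.exp (y * m i 0) ≤ Real.exp (nn * (2 - cc h ^ 2 / 2)) := by
      intro y hy
      have h1 := s5 h⁻¹ y
      rw [hSP.inv, hy, ← hu2] at h1
      have h2 := hLB.cosh nn u hu0
      rw [← h1, Complex.norm_real] at h2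
      refine (le_abs_self _).trans (h2.trans ?_)
      rw [Real.exp_le_exp]
      exact mul_le_mul_of_nonneg_left hu1 hnn0
    have hnorm : ∀ i, ‖ps i * kk i‖ ^ 2 * ‖(Uᴴ * σ.ρ h⁻¹ * U) i j₀‖ ^ 2 =
        Ψ (m i) ^ 2 * Real.exp (-(2 * ϑ * cq Φ l (m i))) * ‖(Uᴴ * σ.ρ h⁻¹ * U) i j₀‖ ^ 2 := by
      intro i
      have h2 : ‖kk i‖ ^ 2 = Real.exp (-(2 * ϑ * cq Φ l (m i))) := by
        simp only [hkk]
        rw [Complex.norm_real, Real.norm_of_nonneg (Real.exp_pos _).le, ← Real.exp_nat_mul]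
        congr 1
        push_cast
        ring
      have h3 : ps i = ((Ψ (m i) : ℝ) : ℂ) := hFM.tr (m i)
      rw [norm_mul, mul_pow, h2, h3, Complex.norm_real, Real.norm_eq_abs, sq_abs]
    simp only [hnorm]
    refine bnum nn (cc h ^ 2) ϑ M₁ η₁ C₂ (fun i => ‖(Uᴴ * σ.ρ h⁻¹ * U) i j₀‖ ^ 2) (fun i => m i 0) (fun i => Ψ (m i))
      (fun i => cq Φ l (m i)) (fun i => by positivity) ?_ htt0 htt1 ?_ ?_ (fun i => hΨ _) (fun i hi => hη _ hi)
      hϑ.le hM₁ ?_ ?_ hmabs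
    · have h1 := s5 h⁻¹ 0
      rw [mul_zero, Real.cosh_zero, mul_one] at h1
      have h2 : cc h⁻¹ ^ 2 + (1 - cc h⁻¹ ^ 2) = 1 := by ring
      rw [h2, Complex.ofReal_one, hLB.one] at h1
      simp only [zero_mul, Real.exp_zero, mul_one] at h1
      exact le_of_eq (by exact_mod_cast h1)
    · have h1 := hcosh 1 (by rw [mul_one])
      simpa using h1
    · have h1 := hcosh (-1) (by rw [mul_neg, mul_one, Real.cosh_neg])
      simpa using h1
    · intro i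
      rw [RF.cq, hlr]
      nlinarith [hmsq i]
    · intro i
      rw [RF.cq, hlr]
      nlinarith [hmsq i]
  choose! UU mm tq hWT hinj hMMM hbb using hrep
  have htor : ∀ (n : ℕ) (σ : Rep H (Fin n)), σ.Irr → PRep σ → ∀ θ : Fin 1 → ℝ,
      σ.ρ (tt H Hc θ) = UU n σ * Matrix.diagonal (fun k => eu (dz (mm n σ k) θ)) * (UU n σ)ᴴ := by
    intro n σ hσ hσp θ
    exact (hWT n σ hσ hσp).tor (tt H Hc θ) θ (by rw [L2W.tt_coe T])
  have hfin := dens1 μ ω₁ ω₂ (b := b) hb0 F hF h (by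
    intro ε hε
    obtain ⟨P, hP1, hP2⟩ := (hPF N H hX.closed).dense F hF ε hε
    have hPc : Continuous P := ((hPF N H hX.closed).c2 P hP1).1.cont
    obtain ⟨m, a, f, hf⟩ := Submodule.mem_span_set'.1 (L2W.pf_span hTE hPF hDP hX.closed hP1)
    choose M σ p q h1 h2 h3 using fun k => (f k).2
    have hPe : P = fun g => ∑ k, a k * (σ k).ρ g (p k) (q k) := by
      funext g
      rw [← hf, Finset.sum_apply]
      refine Finset.sum_congr rfl fun k _ => ?_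
      rw [Pi.smul_apply, smul_eq_mul, h3 k]
    classical
    set ff : (Σ k : Fin m, Fin (M k)) → H → ℂ := fun x g =>
      if mm (M x.1) (σ x.1) x.2 = 0 then ((σ x.1).ρ g * UU (M x.1) (σ x.1)) (p x.1) x.2 else 0 with hff
    set cf : (Σ k : Fin m, Fin (M k)) → ℂ := fun x => a x.1 * conj (UU (M x.1) (σ x.1) (q x.1) x.2) with hcf
    have hme : ∀ x : (Σ k : Fin m, Fin (M k)), Continuous fun g => ((σ x.1).ρ g * UU (M x.1) (σ x.1)) (p x.1) x.2 := by
      intro x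
      simp only [Matrix.mul_apply]
      exact continuous_finsetSum _ fun q _ => ((σ x.1).cont.matrix_elem _ _).mul continuous_const
    have hffc : ∀ x, Continuous (ff x) := by
      intro x
      simp only [hff]
      split_ifs
      · exact hme x
      · exact continuous_const
    have hffT : ∀ x, TI Hc (ff x) := by
      intro x g θ
      simp only [hff]
      split_ifs with h4
      · rw [ent_right (hWT _ _ (h1 x.1) (h2 x.1)).ru (htor _ _ (h1 x.1) (h2 x.1)), h4, dz1]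
        simp [eu]
      · rfl
    have hvol : volume.real (Set.Icc (0 : Fin 1 → ℝ) 1) = 1 := by
      rw [measureReal_def, Real.volume_Icc_pi]
      simp
    -- the average
    have hav : ∀ g, ∫ θ in Set.Icc (0 : Fin 1 → ℝ) 1, P (g * tt H Hc θ) = ∑ x, cf x * ff x g := by
      intro g
      have e1 : ∀ θ, P (g * tt H Hc θ) = ∑ x : (Σ k : Fin m, Fin (M k)),
          (cf x * ((σ x.1).ρ g * UU (M x.1) (σ x.1)) (p x.1) x.2) * eu (dz (mm (M x.1) (σ x.1) x.2) θ) := by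
        intro θ
        rw [hPe, Fintype.sum_sigma]
        refine Finset.sum_congr rfl fun k _ => ?_
        have e2 : (σ k).ρ (g * tt H Hc θ) = ((σ k).ρ g * UU (M k) (σ k)) *
            Matrix.diagonal (fun j => eu (dz (mm (M k) (σ k) j) θ)) * (UU (M k) (σ k))ᴴ := by
          rw [map_mul, htor _ _ (h1 k) (h2 k)]
          simp only [Matrix.mul_assoc]
        rw [e2, Matrix.mul_apply, Finset.mul_sum]
        refine Finset.sum_congr rfl fun j _ => ?_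
        rw [Matrix.mul_diagonal, Matrix.conjTranspose_apply]
        simp only [hcf]
        rw [← Complex.star_def]
        ring
      simp only [e1]
      have : IsFiniteMeasure (volume.restrict (Set.Icc (0 : Fin 1 → ℝ) 1)) :=
        ⟨by rw [Measure.restrict_apply_univ]; exact isCompact_Icc.measure_lt_top⟩
      have hi : ∀ x : (Σ k : Fin m, Fin (M k)), IntegrableOn (fun θ : Fin 1 → ℝ => eu (dz (mm (M x.1) (σ x.1) x.2) θ))
          (Set.Icc 0 1) := fun x => L2W.eu_int _ _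
      rw [integral_finsetSum _ fun x _ => (hi x).const_mul _]
      refine Finset.sum_congr rfl fun x _ => ?_
      rw [integral_const_mul, (LGR.t_TPOL 1).1]
      simp only [hff]
      split_ifs
      · ring
      · ring
    refine ⟨fun g => ∑ x, cf x * ff x g, continuous_finsetSum _ fun x _ => continuous_const.mul (hffc x), ?_, ?_⟩
    · intro g
      have e1 : F g - ∑ x, cf x * ff x g = ∫ θ in Set.Icc (0 : Fin 1 → ℝ) 1, (F (g * tt H Hc θ) - P (g * tt H Hc θ)) := by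
        have hci : ∀ f : H → ℂ, Continuous f → IntegrableOn (fun θ : Fin 1 → ℝ => f (g * tt H Hc θ)) (Set.Icc 0 1) :=
          fun f hf => (hf.comp (continuous_const.mul htc)).continuousOn.integrableOn_compact isCompact_Icc
        rw [integral_sub (hci F hF) (hci P hPc), hav]
        simp only [hFT g]
        rw [setIntegral_const, hvol, one_smul]
      rw [e1]
      have e2 := norm_setIntegral_le_of_norm_le_const (μ := volume) (s := Set.Icc (0 : Fin 1 → ℝ) 1)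
        (f := fun θ => F (g * tt H Hc θ) - P (g * tt H Hc θ)) (C := ε) (by
          rw [Real.volume_Icc_pi]
          simp) (fun θ _ => hP2 _)
      rw [hvol, mul_one] at e2
      exact e2
    · have e1 : ∀ y, L2W.Wt ω₁ ω₂ (fun g => ∑ x, cf x * ff x g) (h, y) =
          ∑ x, cf x * L2W.Wt ω₁ ω₂ (ff x) (h, y) := fun y => L2W.wt_sum ω₁ ω₂ Finset.univ cf ff hffc (h, y)
      simp only [e1]
      refine comb1 μ Finset.univ cf ff (fun x y => L2W.Wt ω₁ ω₂ (ff x) (h, y)) hffc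
        (fun x => (L2W.wt_cont ω₁ ω₂ (hffc x)).comp (continuous_const.prodMk continuous_id))
        (fun x => if mm (M x.1) (σ x.1) x.2 = 0 then ∑ i, ‖tq (M x.1) (σ x.1) i‖ ^ 2 *
          ‖((UU (M x.1) (σ x.1))ᴴ * (σ x.1).ρ h⁻¹ * UU (M x.1) (σ x.1)) i x.2‖ ^ 2 else 0) b ?_ ?_
      · intro x
        split_ifs with h4
        · exact hbb _ _ (h1 x.1) (h2 x.1) _ h4
        · exact hb0
      · intro x y
        by_cases h4 : mm (M x.1) (σ x.1) x.2 = 0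
        · rw [if_pos h4]
          have e2 : ff x = fun g => ((σ x.1).ρ g * UU (M x.1) (σ x.1)) (p x.1) x.2 := by
            funext g
            simp only [hff]
            rw [if_pos h4]
          rw [e2]
          refine main1 μ ω₁ ω₂ (σ x.1) (UU (M x.1) (σ x.1)) (hWT _ _ (h1 x.1) (h2 x.1)).lu
            (hWT _ _ (h1 x.1) (h2 x.1)).ru (tq (M x.1) (σ x.1)) (hMMM _ _ (h1 x.1) (h2 x.1)) h (p x.1) x.2 (ff y) (hffc y) ?_
          intro i hi
          refine ent_zero (hWT _ _ (h1 x.1) (h2 x.1)).ru (htor _ _ (h1 x.1) (h2 x.1)) μ (hffT y) _ _ ?_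
          intro h5
          exact hi (hinj _ _ (h1 x.1) (h2 x.1) _ _ (h5.trans h4.symm))
        · have e2 : ff x = fun g => 0 := by
            funext g
            simp only [hff]
            rw [if_neg h4]
          rw [if_neg h4, e2]
          simp [L2W.Wt])
  have hcF : ∀ (g : H) (ν : Measure (Fin 1 → ℝ)) [IsFiniteMeasure ν],
      ∫ s, VV κ h F (g * tt H Hc s) ∂ν = ∫ x, F (g * x * h⁻¹) ∂(L2W.om Hc ν κ) := by
    intro g ν _
    rw [L2W.om_int htc ν κ (fun x => F (g * x * h⁻¹))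
      (hF.comp ((continuous_const.mul continuous_id).mul continuous_const))]
    refine integral_congr_ae (Eventually.of_forall fun s => ?_)
    show ∫ z, F (g * tt H Hc s * z * h⁻¹) ∂κ = ∫ z, F (g * (tt H Hc s * z) * h⁻¹) ∂κ
    refine integral_congr_ae (Eventually.of_forall fun z => ?_)
    show F (g * tt H Hc s * z * h⁻¹) = F (g * (tt H Hc s * z) * h⁻¹)
    rw [mul_assoc g (tt H Hc s) z]
  refine le_trans (le_of_eq ?_) hfin
  refine integral_congr_ae (Eventually.of_forall fun g => ?_)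
  show ‖∫ s, VV κ h F (g * tt H Hc s) ∂ν₁ - ∫ s, VV κ h F (g * tt H Hc s) ∂ν₂‖ ^ 2 =
    ‖L2W.Wt ω₁ ω₂ F (h, g)‖ ^ 2
  rw [hcF g ν₁, hcF g ν₂]
  rfl

end

end SPH

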