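import Pool.Agent.SPH.StD

/-!
# BXS: the pieces of the kernel
-/

namespace SPH

open STZ LGR STZ3 MeasureTheory Matrix Filter

open scoped ComplexConjugate Matrix Real Topology

noncomputable section

namespace BXS

theorem KS_le (m Y : ℕ) (hm : 1 ≤ m) : KS m Y ≤ 5 * m ^ 2 * 2 ^ Y := by
  unfold KS
  have h1 : 1 ≤ 2 ^ Y := Nat.one_le_two_pow
  have h2 : m ≤ m ^ 2 := by nlinarith
  have h3 : m ^ 2 ≤ m ^ 2 * 2 ^ Y := Nat.le_mul_of_pos_right _ h1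
  have h4 : 1 ≤ m ^ 2 := hm.trans h2
  nlinarith

/-- the constants `Y J`, `J₀` -/
theorem choice (ε : ℝ) (hε : 0 < ε) (hε' : ε ≤ 1 / 64) (m : ℕ) (hm : 1 ≤ m) :
    ∃ (Y : ℕ → ℕ) (J₀ : ℕ), 1 ≤ J₀ ∧ ∀ J : ℕ, J₀ ≤ J → Y J ≤ J ∧ 32 * KS m (Y J) ≤ 2 ^ J ∧
      (Y J : ℝ) ≤ (1 - 12 * ε) * J ∧ (1 - 12 * ε) * J ≤ Y J + 1 := by
  have h0 : 0 < 1 - 12 * ε := by linarith
  have h1 : (1 : ℝ) < (2 : ℝ) ^ (12 * ε) := Real.one_lt_rpow (by norm_num) (by positivity)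
  have h2 := tendsto_pow_atTop_atTop_of_one_lt h1
  obtain ⟨J₁, hJ₁⟩ := (h2.eventually_ge_atTop (160 * (m : ℝ) ^ 2)).exists_forall_of_atTop
  refine ⟨fun J => ⌊(1 - 12 * ε) * J⌋₊, max 1 J₁, le_max_left _ _, ?_⟩
  intro J hJ
  have hJ0 : (0 : ℝ) ≤ J := Nat.cast_nonneg J
  have hnn : 0 ≤ (1 - 12 * ε) * (J : ℝ) := by positivity
  have hfl : ((⌊(1 - 12 * ε) * (J : ℝ)⌋₊ : ℕ) : ℝ) ≤ (1 - 12 * ε) * J := Nat.floor_le hnn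
  have hle : ⌊(1 - 12 * ε) * (J : ℝ)⌋₊ ≤ J := by
    have h3 : ((⌊(1 - 12 * ε) * (J : ℝ)⌋₊ : ℕ) : ℝ) ≤ J := hfl.trans (by nlinarith)
    exact_mod_cast h3
  refine ⟨hle, ?_, hfl, (Nat.lt_floor_add_one _).le⟩
  have h3 := hJ₁ J ((le_max_right _ _).trans hJ)
  have h4 : ((2 : ℝ) ^ (12 * ε)) ^ J = (2 : ℝ) ^ (12 * ε * J) := by
    rw [← Real.rpow_natCast, ← Real.rpow_mul (by norm_num)]
  rw [h4] at h3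
  have h5 : (32 * KS m ⌊(1 - 12 * ε) * (J : ℝ)⌋₊ : ℝ) ≤ 2 ^ J := by
    have h6 : (KS m ⌊(1 - 12 * ε) * (J : ℝ)⌋₊ : ℝ) ≤
        5 * (m : ℝ) ^ 2 * 2 ^ ⌊(1 - 12 * ε) * (J : ℝ)⌋₊ := by
      exact_mod_cast KS_le m _ hm
    have h7 : (2 : ℝ) ^ ⌊(1 - 12 * ε) * (J : ℝ)⌋₊ ≤ (2 : ℝ) ^ ((1 - 12 * ε) * (J : ℝ)) := by
      rw [← Real.rpow_natCast]
      exact Real.rpow_le_rpow_of_exponent_le (by norm_num) hfl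
    have h8 : (2 : ℝ) ^ (12 * ε * J) * (2 : ℝ) ^ ((1 - 12 * ε) * (J : ℝ)) = 2 ^ J := by
      rw [← Real.rpow_add (by norm_num), ← Real.rpow_natCast]
      congr 1
      ring
    calc (32 * KS m ⌊(1 - 12 * ε) * (J : ℝ)⌋₊ : ℝ) ≤
        32 * (5 * (m : ℝ) ^ 2 * 2 ^ ⌊(1 - 12 * ε) * (J : ℝ)⌋₊) := by gcongr
      _ = 160 * (m : ℝ) ^ 2 * 2 ^ ⌊(1 - 12 * ε) * (J : ℝ)⌋₊ := by ring
      _ ≤ (2 : ℝ) ^ (12 * ε * J) * (2 : ℝ) ^ ((1 - 12 * ε) * (J : ℝ)) := by gcongr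
      _ = 2 ^ J := h8
  exact_mod_cast h5

/-- the comparison of the bounds -/
theorem fin {C C' K ε ε₁ M N J : ℝ} (hC : 0 ≤ C) (hCC : C ≤ C') (hJ : 0 ≤ J)
    (hK : K * ε₁ ≤ ε) (hε : 0 ≤ ε) (hM : 0 ≤ M) (hN : 0 ≤ N) :
    C * (2 : ℝ) ^ (-(4 * J)) * M + C * (2 : ℝ) ^ (K * ε₁ * J) * N ≤
      C' * (2 : ℝ) ^ (ε * J) * (N + (2 : ℝ) ^ (-(4 * J)) * M) := by
  have h1 : (1 : ℝ) ≤ (2 : ℝ) ^ (ε * J) := Real.one_le_rpow (by norm_num) (by positivity)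
  have h2 : (2 : ℝ) ^ (K * ε₁ * J) ≤ (2 : ℝ) ^ (ε * J) :=
    Real.rpow_le_rpow_of_exponent_le (by norm_num) (mul_le_mul_of_nonneg_right hK hJ)
  have h3 : 0 ≤ (2 : ℝ) ^ (-(4 * J)) := Real.rpow_nonneg (by norm_num) _
  have hC' : 0 ≤ C' := hC.trans hCC
  have e1 : C * (2 : ℝ) ^ (-(4 * J)) * M ≤ C' * (2 : ℝ) ^ (ε * J) * ((2 : ℝ) ^ (-(4 * J)) * M) := by
    have h4 : C * 1 ≤ C' * (2 : ℝ) ^ (ε * J) := mul_le_mul hCC h1 zero_le_one hC'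
    rw [mul_one] at h4
    rw [mul_assoc]
    exact mul_le_mul_of_nonneg_right h4 (mul_nonneg h3 hM)
  have e2 : C * (2 : ℝ) ^ (K * ε₁ * J) * N ≤ C' * (2 : ℝ) ^ (ε * J) * N := by
    refine mul_le_mul_of_nonneg_right ?_ hN
    exact mul_le_mul hCC h2 (Real.rpow_nonneg (by norm_num) _) hC'
  linarith

end BXS

open BXS in
theorem t_BXS : M_BXS := by
  intro hCSA hRTW hRON N H Φ B Hc E c k hX cc ze w C₀ hSP hcc μ _ _ χ hχ ε hε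
  obtain ⟨K₁, hK₁, h1⟩ := hRTW N H Φ B Hc E c k hX cc ze w C₀ hSP hcc μ χ hχ
  obtain ⟨K₂, hK₂, h2⟩ := hRON N H Φ B Hc E c k hX μ χ hχ
  obtain ⟨ε₁, hε₁⟩ : ∃ ε₁ : ℝ, ε₁ = min (1 / 64) (ε / (K₁ + K₂ + 1)) := ⟨_, rfl⟩
  have hp : 0 < ε₁ := by
    rw [hε₁]
    positivity
  have hp1 : ε₁ ≤ 1 / 64 := by
    rw [hε₁]
    exact min_le_left _ _
  have hp2 : (K₁ + K₂ + 1) * ε₁ ≤ ε := by
    have h3 : ε₁ ≤ ε / (K₁ + K₂ + 1) := by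
      rw [hε₁]
      exact min_le_right _ _
    rw [le_div_iff₀ (by positivity)] at h3
    linarith
  have hk1 : K₁ * ε₁ ≤ ε := by nlinarith
  have hk2 : K₂ * ε₁ ≤ ε := by nlinarith
  obtain ⟨m, hm⟩ : ∃ m : ℕ, m = ⌈14 / ε₁⌉₊ := ⟨_, rfl⟩
  have hm0 : 14 / ε₁ ≤ m := by
    rw [hm]
    exact Nat.le_ceil _
  have hm1 : (10 : ℝ) + 4 ≤ ε₁ * m := by
    rw [div_le_iff₀ hp] at hm0
    linarith
  have hm2 : 1 ≤ m := by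
    have h3 : 0 < 14 / ε₁ := by positivity
    rw [hm]
    exact Nat.ceil_pos.2 h3
  obtain ⟨C₁, hC₁, hCSF⟩ := hCSA m hm2
  obtain ⟨C, hC, h3⟩ := h1 m C₁ ε₁ 4 hm2 hCSF hp hp1 (by norm_num) hm1
  obtain ⟨C', hC', h4⟩ := h2 m C₁ ε₁ 4 hm2 hCSF hp hp1 (by norm_num) hm1
  obtain ⟨Y, J₀, hJ₀, h5⟩ := choice ε₁ hp hp1 m hm2
  refine ⟨m, C₁, C + C', Y, J₀, hm2, hCSF, by positivity, hJ₀, ?_⟩
  intro J hJ
  obtain ⟨h6, h7, h8, h9⟩ := h5 J hJ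
  refine ⟨h6, h7, ?_⟩
  intro x e F G hx he hF hG hG1 hTI
  have hJ1 : 1 ≤ J := hJ₀.trans hJ
  have hmG : 0 ≤ mG μ G := intervalIntegral.integral_nonneg zero_le_one fun t _ =>
    integral_nonneg fun x => norm_nonneg _
  have hN : 0 ≤ (2 : ℝ) ^ ((2 : ℝ) / 7 * J) * mG μ G ^ ((11 : ℝ) / 7) :=
    mul_nonneg (Real.rpow_nonneg (by norm_num) _) (Real.rpow_nonneg hmG _)
  rcases lt_or_eq_of_le hx with hx | rfl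
  · refine (h3 J (Y J) x e F G hJ1 h8 hx h7 he hF hG hG1 hTI).trans ?_
    exact fin hC (by linarith) (Nat.cast_nonneg J) hk1 hε.le hmG hN
  · refine (h4 J (Y J) e F G hJ1 h8 h9 h7 he hF hG hG1 hTI).trans ?_
    exact fin hC' (by linarith) (Nat.cast_nonneg J) hk2 hε.le hmG hN

end

end SPH
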