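import Pool.Agent.SPH.StE
import Pool.Agent.STZ3.CEL

/-!
# Module CES: integrals over cells (helper92), copy of STZ3/CEL.lean
-/

set_option autoImplicit false

namespace SPH

open STZ LGR STZ3 MeasureTheory Matrix Filter

open scoped ComplexConjugate Matrix Real Topology

noncomputable section

open STZ3.CEL in
open Classical in
theorem t_CES : M_CES := by
  intro hCNS p hp
  have hp1 : 0 < p - 1 := by linarith
  have hp0 : 0 < p := by linarith
  set s := p / (p - 1) with hs
  have hs1 : 1 ≤ s := by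
    rw [hs, le_div_iff₀ hp1]
    linarith
  have hs2 : s < 4 / 3 := by
    rw [hs, div_lt_iff₀ hp1]
    linarith
  have hs0 : 0 < s := by linarith
  have hsp : s.HolderConjugate p := by
    rw [Real.holderConjugate_iff]
    refine ⟨?_, ?_⟩
    · rw [hs, lt_div_iff₀ hp1]
      linarith
    · rw [hs]
      field_simp
      ring
  obtain ⟨K, C, hK, hC, hcnt⟩ := hCNS s hs1 hs2
  refine ⟨K, C, hK, hC, fun R δ e hR hδ hKδ hc he => ?_⟩
  have hR' : (1 : ℝ) ≤ R := by exact_mod_cast hR
  have hK' : (1 : ℝ) ≤ K := by exact_mod_cast hK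
  have hKR : (1 : ℝ) ≤ K * (R : ℝ) ^ K := by
    have := one_le_pow₀ (n := K) hR'
    nlinarith
  have hδ1 : δ ≤ 1 := by nlinarith
  set L := ⌈1 / δ⌉₊ with hL
  have hL1 : 1 / δ ≤ L := Nat.le_ceil _
  have hLpos : 0 < L := Nat.ceil_pos.2 (by positivity)
  have hL0 : (0 : ℝ) < L := by exact_mod_cast hLpos
  have hL2 : (L : ℝ) ≤ 2 / δ := by
    have h1 := Nat.ceil_lt_add_one (a := 1 / δ) (by positivity)
    have h2 : (1 : ℝ) ≤ 1 / δ := by rwa [le_div_iff₀ hδ, one_mul]
    have h3 : 2 / δ = 1 / δ + 1 / δ := by ring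
    rw [h3]
    exact (h1.le).trans (by linarith)
  have hLδ : 1 / (L : ℝ) ≤ δ := by
    rw [div_le_iff₀ hL0]
    rw [div_le_iff₀ hδ] at hL1
    linarith
  have hδL : δ ≤ 2 / L := by
    rw [le_div_iff₀ hL0]
    rw [le_div_iff₀ hδ] at hL2
    linarith
  have hKL : K * R ^ K ≤ L := by
    have h1 : (K : ℝ) * (R : ℝ) ^ K ≤ L := by
      refine le_trans ?_ hL1
      rwa [le_div_iff₀ hδ]
    exact_mod_cast h1
  -- the function
  have h1p : 1 - 1 / p = 1 / s := by
    rw [hs]
    field_simp
  have hcs : Continuous fun t => e t ^ (1 / s) :=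
    hc.rpow_const fun t => Or.inr (by positivity)
  have hh0 : ∀ t, 0 ≤ e t ^ (1 / s) := fun t => Real.rpow_nonneg (he t) _
  have hM0 : ∀ i j, 0 ≤ cM R L i j := by
    intro i j
    unfold cM
    simp only [Matrix.of_apply]
    split_ifs
    · exact zero_le_one
    · exact le_rfl
  have hφ0 : ∀ (i : Fin L) (t : ℝ), 0 ≤ (cell L i).indicator (fun t => e t ^ (1 / s)) t :=
    fun i t => Set.indicator_nonneg (fun t _ => hh0 t) t
  have hd := dbl (fun i j => cM R L i j) (fun i => (cell L i).indicator (fun t => e t ^ (1 / s)))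
    (fun t s' => if nr R δ (t - s') then (e t * e s') ^ (1 - 1 / p) else 0)
    (fun i => int_cell hcs i)
    (fun t s' => by
      split_ifs
      · exact Real.rpow_nonneg (mul_nonneg (he t) (he s')) _
      · exact le_rfl)
    (fun t ht s' hs' => by
      have hnn : ∀ i j : Fin L, 0 ≤ cM R L i j * ((cell L i).indicator (fun t => e t ^ (1 / s)) t *
          (cell L j).indicator (fun t => e t ^ (1 / s)) s') := fun i j =>
        mul_nonneg (hM0 i j) (mul_nonneg (hφ0 i t) (hφ0 j s'))
      split_ifs with hnr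
      · obtain ⟨i, hi⟩ := mem_cell hLpos ht
        obtain ⟨j, hj⟩ := mem_cell hLpos hs'
        have hij : cM R L i j = 1 := by
          unfold cM
          simp only [Matrix.of_apply]
          rw [if_pos]
          obtain ⟨q, a, hq1, hq2, hq3⟩ := hnr
          refine ⟨q, a, hq1, hq2, ?_⟩
          have hi1 : (i.val : ℝ) / L < t := hi.1
          have hi2 : t ≤ ((i.val : ℝ) + 1) / L := hi.2
          have hj1 : (j.val : ℝ) / L < s' := hj.1
          have hj2 : s' ≤ ((j.val : ℝ) + 1) / L := hj.2
          rw [add_div] at hi2 hj2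
          rw [abs_le] at hq3 ⊢
          rw [sub_div]
          have e3 : (3 : ℝ) / L = 1 / L + 2 / L := by ring
          rw [e3]
          constructor
          · linarith [hq3.1]
          · linarith [hq3.2]
        calc (e t * e s') ^ (1 - 1 / p) = cM R L i j *
              ((cell L i).indicator (fun t => e t ^ (1 / s)) t *
                (cell L j).indicator (fun t => e t ^ (1 / s)) s') := by
              rw [hij, Set.indicator_of_mem hi, Set.indicator_of_mem hj, one_mul, h1p,
                Real.mul_rpow (he t) (he s')]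
          _ ≤ ∑ j, cM R L i j * ((cell L i).indicator (fun t => e t ^ (1 / s)) t *
                (cell L j).indicator (fun t => e t ^ (1 / s)) s') :=
              Finset.single_le_sum (f := fun j => cM R L i j *
                ((cell L i).indicator (fun t => e t ^ (1 / s)) t *
                (cell L j).indicator (fun t => e t ^ (1 / s)) s')) (fun j _ => hnn i j)
                (Finset.mem_univ j)
          _ ≤ _ :=
              Finset.single_le_sum (f := fun i => ∑ j, cM R L i j *
                ((cell L i).indicator (fun t => e t ^ (1 / s)) t *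
                (cell L j).indicator (fun t => e t ^ (1 / s)) s'))
                (fun i _ => Finset.sum_nonneg fun j _ => hnn i j)
                (Finset.mem_univ i)
      · exact Finset.sum_nonneg fun i _ => Finset.sum_nonneg fun j _ => hnn i j)
  simp only [eq_cell] at hd
  refine hd.trans ?_
  refine (hcnt R L hR hKL (fun i => ∫ t in cell L i, e t ^ (1 / s))
    (fun i => integral_nonneg fun t => hh0 t)).trans ?_
  have hE0 : 0 ≤ ∫ t in (0 : ℝ)..1, e t :=
    intervalIntegral.integral_nonneg zero_le_one fun t _ => he t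
  have hsum : ∑ i : Fin L, (∫ t in cell L i, e t ^ (1 / s)) ^ s ≤
      (∫ t in (0 : ℝ)..1, e t) * (1 / (L : ℝ)) ^ (s / p) := by
    rw [← sum_cell hLpos hc, Finset.sum_mul]
    exact Finset.sum_le_sum fun i _ => hold hc he hsp i
  have hsum0 : 0 ≤ ∑ i : Fin L, (∫ t in cell L i, e t ^ (1 / s)) ^ s :=
    Finset.sum_nonneg fun i _ => Real.rpow_nonneg (integral_nonneg fun t => hh0 t) _
  have h2s : 2 / s = 2 - 2 / p := by
    rw [hs]
    field_simp
  have hfin : (∑ i : Fin L, (∫ t in cell L i, e t ^ (1 / s)) ^ s) ^ (2 / s) ≤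
      δ ^ (2 / p) * (∫ t in (0 : ℝ)..1, e t) ^ (2 - 2 / p) := by
    calc (∑ i : Fin L, (∫ t in cell L i, e t ^ (1 / s)) ^ s) ^ (2 / s)
        ≤ ((∫ t in (0 : ℝ)..1, e t) * (1 / (L : ℝ)) ^ (s / p)) ^ (2 / s) :=
          Real.rpow_le_rpow hsum0 hsum (by positivity)
      _ = (1 / (L : ℝ)) ^ (2 / p) * (∫ t in (0 : ℝ)..1, e t) ^ (2 - 2 / p) := by
          rw [Real.mul_rpow hE0 (by positivity), ← Real.rpow_mul (by positivity), h2s, mul_comm]
          congr 2
          rw [← h2s]
          field_simp
      _ ≤ _ := mul_le_mul_of_nonneg_right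
          (Real.rpow_le_rpow (by positivity) hLδ (by positivity)) (Real.rpow_nonneg hE0 _)
  calc C * (R : ℝ) ^ ((1 : ℝ) / 2) * (∑ i : Fin L, (∫ t in cell L i, e t ^ (1 / s)) ^ s) ^ (2 / s)
      ≤ C * (R : ℝ) ^ ((1 : ℝ) / 2) * (δ ^ (2 / p) * (∫ t in (0 : ℝ)..1, e t) ^ (2 - 2 / p)) :=
        mul_le_mul_of_nonneg_left hfin (by positivity)
    _ = _ := by ring

end

end SPH
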