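import Pool.Agent.SPH.StA
import Pool.Agent.LGR.LIEB
import Mathlib.Analysis.SpecialFunctions.Trigonometric.Chebyshev.Basic

/-!
# CHT: the average of a character over a coset of the torus
-/

namespace SPH

open STZ LGR STZ3 MeasureTheory Matrix Filter

open scoped ComplexConjugate Matrix Real Topology

noncomputable section

namespace CHT

/-! ### the three-dimensional adjoint representation -/

section alg

variable {N : ℕ}

/-- the relations of the basis `h`, `e`, `eᴴ` -/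
structure SL (h e : MT N) (κ : ℝ) : Prop where
  pos : 0 < κ
  herm : hᴴ = h
  ead : h * e - e * h = (2 : ℂ) • e
  cor : e * eᴴ - eᴴ * e = h
  ee : (e * e).trace = 0
  eh : (e * h).trace = 0
  hh : (h * h).trace = 2 * (κ : ℂ)
  nrm : (e * eᴴ).trace = (κ : ℂ)

variable {h e : MT N} {κ : ℝ}

theorem SL.kne (H : SL h e κ) : (κ : ℂ) ≠ 0 := by exact_mod_cast H.pos.ne'

theorem SL.he (H : SL h e κ) : (h * e).trace = 0 := by rw [Matrix.trace_mul_comm, H.eh]

theorem SL.heH (H : SL h e κ) : (h * eᴴ).trace = 0 := by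
  have h1 : (h * eᴴ) = (e * h)ᴴ := by rw [Matrix.conjTranspose_mul, H.herm]
  rw [h1, Matrix.trace_conjTranspose, H.eh, star_zero]

theorem SL.eHh (H : SL h e κ) : (eᴴ * h).trace = 0 := by rw [Matrix.trace_mul_comm, H.heH]

theorem SL.eHeH (H : SL h e κ) : (eᴴ * eᴴ).trace = 0 := by
  have h1 : (eᴴ * eᴴ) = (e * e)ᴴ := by rw [Matrix.conjTranspose_mul]
  rw [h1, Matrix.trace_conjTranspose, H.ee, star_zero]

theorem SL.nrm' (H : SL h e κ) : (eᴴ * e).trace = (κ : ℂ) := by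
  rw [Matrix.trace_mul_comm, H.nrm]

theorem SL.ead' (H : SL h e κ) : h * eᴴ - eᴴ * h = -((2 : ℂ) • eᴴ) := by
  have h1 := congrArg Matrix.conjTranspose H.ead
  rw [Matrix.conjTranspose_sub, Matrix.conjTranspose_mul, Matrix.conjTranspose_mul, H.herm,
    Matrix.conjTranspose_smul] at h1
  have h2 : star (2 : ℂ) = 2 := by simp
  rw [h2] at h1
  rw [← h1, neg_sub]

/-- the basis -/
def ev (h e : MT N) : Fin 3 → MT N := ![h, e, eᴴ]

/-- the dual basis for the trace form -/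
def fv (h e : MT N) (κ : ℝ) : Fin 3 → MT N :=
  ![(1 / (2 * (κ : ℂ))) • h, (1 / (κ : ℂ)) • eᴴ, (1 / (κ : ℂ)) • e]

theorem SL.dual (H : SL h e κ) (a b : Fin 3) :
    (ev h e a * fv h e κ b).trace = if a = b then 1 else 0 := by
  have hκ := H.kne
  have h2 : (2 : ℂ) * κ ≠ 0 := mul_ne_zero two_ne_zero hκ
  fin_cases a <;> fin_cases b <;>
    simp [ev, fv, Matrix.trace_smul, H.hh, H.he, H.heH, H.eh, H.nrm, H.ee,
      H.eHh, H.nrm', H.eHeH, hκ]
  field_simp

/-- the complex span -/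
def VS (h e : MT N) : Submodule ℂ (MT N) := Submodule.span ℂ (Set.range (ev h e))

theorem SL.coords (H : SL h e κ) {Y : MT N} (hY : Y ∈ VS h e) :
    Y = ∑ a, (Y * fv h e κ a).trace • ev h e a := by
  obtain ⟨c, rfl⟩ := (Submodule.mem_span_range_iff_exists_fun ℂ).1 hY
  refine Finset.sum_congr rfl fun a _ => ?_
  congr 1
  rw [Finset.sum_mul, Matrix.trace_sum]
  have h1 : ∀ b : Fin 3, (c b • ev h e b * fv h e κ a).trace = c b * if b = a then 1 else 0 := by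
    intro b
    rw [Matrix.smul_mul, Matrix.trace_smul, H.dual, smul_eq_mul]
  rw [Finset.sum_congr rfl fun b _ => h1 b]
  simp

/-- the matrix of the adjoint representation -/
def MM (h e : MT N) (κ : ℝ) (g : MT N) : Matrix (Fin 3) (Fin 3) ℂ :=
  fun a b => (g * ev h e b * gᴴ * fv h e κ a).trace

theorem SL.MM_one (H : SL h e κ) : MM h e κ 1 = 1 := by
  ext a b
  unfold MM
  rw [Matrix.conjTranspose_one, Matrix.one_mul, Matrix.mul_one, H.dual, Matrix.one_apply]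
  by_cases hab : a = b
  · rw [if_pos hab, if_pos hab.symm]
  · rw [if_neg hab, if_neg (Ne.symm hab)]

theorem SL.MM_mul (H : SL h e κ) (g u : MT N) (hu : ∀ b, u * ev h e b * uᴴ ∈ VS h e) :
    MM h e κ (g * u) = MM h e κ g * MM h e κ u := by
  ext a b
  rw [Matrix.mul_apply]
  change (g * u * ev h e b * (g * u)ᴴ * fv h e κ a).trace = _
  have h1 : g * u * ev h e b * (g * u)ᴴ = g * (u * ev h e b * uᴴ) * gᴴ := by
    rw [Matrix.conjTranspose_mul]
    simp only [Matrix.mul_assoc]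
  rw [h1, H.coords (hu b), Finset.mul_sum, Finset.sum_mul, Finset.sum_mul, Matrix.trace_sum]
  refine Finset.sum_congr rfl fun c _ => ?_
  rw [Matrix.mul_smul, Matrix.smul_mul, Matrix.smul_mul, Matrix.trace_smul, smul_eq_mul, mul_comm]
  rfl

theorem SL.trace_conj (H : SL h e κ) (u g : MT N) (h1 : uᴴ * u = 1)
    (hu : ∀ b, u * ev h e b * uᴴ ∈ VS h e) (hu' : ∀ b, uᴴ * ev h e b * u ∈ VS h e)
    (hgu : ∀ b, (g * uᴴ) * ev h e b * (g * uᴴ)ᴴ ∈ VS h e) :
    (MM h e κ (u * g * uᴴ)).trace = (MM h e κ g).trace := by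
  have hu'' : ∀ b, uᴴ * ev h e b * (uᴴ)ᴴ ∈ VS h e := by
    intro b
    rw [Matrix.conjTranspose_conjTranspose]
    exact hu' b
  rw [Matrix.mul_assoc, H.MM_mul u (g * uᴴ) hgu, H.MM_mul g uᴴ hu'', Matrix.trace_mul_comm,
    Matrix.mul_assoc, ← H.MM_mul uᴴ u hu, h1, H.MM_one, Matrix.mul_one]

theorem SL.trace_right (g t : MT N) (d : Fin 3 → ℂ)
    (ht : ∀ b, t * ev h e b * tᴴ = d b • ev h e b) :
    (MM h e κ (g * t)).trace = ∑ b, d b * MM h e κ g b b := by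
  unfold Matrix.trace
  refine Finset.sum_congr rfl fun b _ => ?_
  rw [Matrix.diag_apply]
  change (g * t * ev h e b * (g * t)ᴴ * fv h e κ b).trace = _
  have h1 : g * t * ev h e b * (g * t)ᴴ = g * (t * ev h e b * tᴴ) * gᴴ := by
    rw [Matrix.conjTranspose_mul]
    simp only [Matrix.mul_assoc]
  rw [h1, ht, Matrix.mul_smul, Matrix.smul_mul, Matrix.smul_mul, Matrix.trace_smul, smul_eq_mul]
  rfl

theorem MM00 (g : MT N) : MM h e κ g 0 0 = (1 / (2 * (κ : ℂ))) * (g * h * gᴴ * h).trace := by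
  simp [MM, ev, fv]

theorem MM11 (g : MT N) : MM h e κ g 1 1 = (1 / (κ : ℂ)) * (g * e * gᴴ * eᴴ).trace := by
  simp [MM, ev, fv]

theorem MM22 (g : MT N) : MM h e κ g 2 2 = (1 / (κ : ℂ)) * (g * eᴴ * gᴴ * e).trace := by
  simp [MM, ev, fv]

theorem MM22' (g : MT N) : MM h e κ g 2 2 = conj (MM h e κ g 1 1) := by
  rw [MM22, MM11, map_mul, map_div₀, map_one, Complex.conj_ofReal]
  congr 1
  have h1 : (g * e * gᴴ * eᴴ)ᴴ = e * (g * eᴴ * gᴴ) := by
    simp only [Matrix.conjTranspose_mul, Matrix.conjTranspose_conjTranspose, Matrix.mul_assoc]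
  have h2 : conj ((g * e * gᴴ * eᴴ).trace) = ((g * e * gᴴ * eᴴ)ᴴ).trace := by
    rw [Matrix.trace_conjTranspose]
    rfl
  rw [h2, h1, Matrix.trace_mul_comm]

theorem SL.mm00 (H : SL h e κ) (g : MT N) (c : ℝ)
    (hc : (c : ℂ) * (h * h).trace = (h * (g * h * gᴴ)).trace) : MM h e κ g 0 0 = c := by
  have hκ := H.kne
  rw [MM00, Matrix.trace_mul_comm, ← hc, H.hh]
  field_simp

theorem SL.sq (H : SL h e κ) (g : MT N) (h1 : g * gᴴ = 1) (h2 : gᴴ * g = 1)
    (hY : g * e * gᴴ ∈ VS h e) (hZ : gᴴ * h * g ∈ VS h e) (c : ℝ)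
    (hc : (c : ℂ) * (h * h).trace = (h * (g * h * gᴴ)).trace) :
    MM h e κ g 1 1 * conj (MM h e κ g 1 1) = (((1 + c) / 2 : ℝ) : ℂ) ^ 2 := by
  have hκ := H.kne
  obtain ⟨s, hs⟩ : ∃ s, s = (g * e * gᴴ * fv h e κ 0).trace := ⟨_, rfl⟩
  obtain ⟨a, ha⟩ : ∃ a, a = (g * e * gᴴ * fv h e κ 1).trace := ⟨_, rfl⟩
  obtain ⟨b, hb⟩ : ∃ b, b = (g * e * gᴴ * fv h e κ 2).trace := ⟨_, rfl⟩
  have hYe : g * e * gᴴ = s • h + a • e + b • eᴴ := by
    have h3 := H.coords hY
    rw [Fin.sum_univ_three, ← hs, ← ha, ← hb] at h3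
    exact h3
  have haa : MM h e κ g 1 1 = a := by
    rw [ha]
    rfl
  have hYH : g * eᴴ * gᴴ = conj s • h + conj a • eᴴ + conj b • e := by
    have h3 := congrArg Matrix.conjTranspose hYe
    simp only [Matrix.conjTranspose_add, Matrix.conjTranspose_smul, Matrix.conjTranspose_mul,
      Matrix.conjTranspose_conjTranspose, H.herm, ← Matrix.mul_assoc] at h3
    exact h3
  -- (2)
  have e2 : 2 * (s * conj s) + a * conj a + b * conj b = 1 := by
    have h3 : (g * e * gᴴ * (g * eᴴ * gᴴ)).trace = κ := by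
      have h4 : g * e * gᴴ * (g * eᴴ * gᴴ) = g * (e * (gᴴ * g) * eᴴ * gᴴ) := by
        simp only [Matrix.mul_assoc]
      rw [h4, h2, Matrix.mul_one, Matrix.trace_mul_comm, Matrix.mul_assoc, h2, Matrix.mul_one,
        H.nrm]
    rw [hYe, hYH] at h3
    simp only [Matrix.add_mul, Matrix.mul_add, Matrix.smul_mul, Matrix.mul_smul,
      Matrix.trace_add, Matrix.trace_smul, smul_eq_mul, H.hh, H.he, H.heH, H.eh, H.nrm, H.ee,
      H.eHh, H.nrm', H.eHeH, mul_zero, add_zero, zero_add] at h3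
    have h5 : (κ : ℂ) * (2 * (s * conj s) + a * conj a + b * conj b) = κ * 1 := by
      rw [mul_one]
      linear_combination h3
    exact mul_left_cancel₀ hκ h5
  -- (1)
  have e1 : a * conj a - b * conj b = c := by
    have h3 : g * h * gᴴ = g * e * gᴴ * (g * eᴴ * gᴴ) - g * eᴴ * gᴴ * (g * e * gᴴ) := by
      have h4 : g * e * gᴴ * (g * eᴴ * gᴴ) = g * (e * eᴴ) * gᴴ := by
        have h5 : g * e * gᴴ * (g * eᴴ * gᴴ) = g * (e * (gᴴ * g) * eᴴ) * gᴴ := by
          simp only [Matrix.mul_assoc]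
        rw [h5, h2, Matrix.mul_one]
      have h4' : g * eᴴ * gᴴ * (g * e * gᴴ) = g * (eᴴ * e) * gᴴ := by
        have h5 : g * eᴴ * gᴴ * (g * e * gᴴ) = g * (eᴴ * (gᴴ * g) * e) * gᴴ := by
          simp only [Matrix.mul_assoc]
        rw [h5, h2, Matrix.mul_one]
      rw [h4, h4', ← Matrix.sub_mul, ← Matrix.mul_sub, H.cor]
    have h6 : (h * (g * h * gᴴ)).trace =
        ((g * eᴴ * gᴴ) * (h * (g * e * gᴴ) - (g * e * gᴴ) * h)).trace := by
      rw [h3, Matrix.mul_sub, Matrix.mul_sub, Matrix.trace_sub, Matrix.trace_sub]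
      congr 1
      · rw [← Matrix.mul_assoc, Matrix.trace_mul_comm]
      · rw [Matrix.trace_mul_comm, Matrix.mul_assoc]
    have h7 : h * (g * e * gᴴ) - (g * e * gᴴ) * h = (2 * a) • e - (2 * b) • eᴴ := by
      rw [hYe]
      have h8 : h * (s • h + a • e + b • eᴴ) - (s • h + a • e + b • eᴴ) * h =
          a • (h * e - e * h) + b • (h * eᴴ - eᴴ * h) := by
        simp only [Matrix.mul_add, Matrix.add_mul, Matrix.mul_smul, Matrix.smul_mul, smul_sub]
        abel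
      rw [h8, H.ead, H.ead', smul_neg, smul_smul, smul_smul, mul_comm a 2, mul_comm b 2,
        sub_eq_add_neg]
    rw [h7, hYH, ← hc] at h6
    simp only [Matrix.add_mul, Matrix.mul_sub, Matrix.smul_mul, Matrix.mul_smul,
      Matrix.trace_add, Matrix.trace_sub, Matrix.trace_smul, smul_eq_mul, H.he, H.heH,
      H.nrm, H.ee, H.nrm', H.eHeH, mul_zero, add_zero, zero_add, H.hh] at h6
    have h5 : (2 * (κ : ℂ)) * (a * conj a - b * conj b) = (2 * κ) * c := by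
      linear_combination -h6
    exact mul_left_cancel₀ (mul_ne_zero two_ne_zero hκ) h5
  -- (3)
  have e3 : (c : ℂ) ^ 2 + 4 * (s * conj s) = 1 := by
    obtain ⟨c', hc'⟩ : ∃ s, s = (gᴴ * h * g * fv h e κ 0).trace := ⟨_, rfl⟩
    obtain ⟨z, hz⟩ : ∃ a, a = (gᴴ * h * g * fv h e κ 1).trace := ⟨_, rfl⟩
    obtain ⟨w, hw⟩ : ∃ b, b = (gᴴ * h * g * fv h e κ 2).trace := ⟨_, rfl⟩
    have hZe : gᴴ * h * g = c' • h + z • e + w • eᴴ := by
      have h3 := H.coords hZ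
      rw [Fin.sum_univ_three, ← hc', ← hz, ← hw] at h3
      exact h3
    have h3 : c' = c := by
      have h4 : c' = (1 / (2 * (κ : ℂ))) * (gᴴ * h * g * h).trace := by
        rw [hc']
        simp [fv]
      have h5 : (gᴴ * h * g * h).trace = (h * (g * h * gᴴ)).trace := by
        have h6 : gᴴ * h * g * h = gᴴ * (h * g * h) := by simp only [Matrix.mul_assoc]
        rw [h6, Matrix.trace_mul_comm]
        simp only [Matrix.mul_assoc]
      rw [h4, h5, ← hc, H.hh]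
      field_simp
    have h4 : w = 2 * s := by
      have h5 : w = (1 / (κ : ℂ)) * (gᴴ * h * g * e).trace := by
        rw [hw]
        simp [fv]
      have h6 : s = (1 / (2 * (κ : ℂ))) * (g * e * gᴴ * h).trace := by
        rw [hs]
        simp [fv]
      have h7 : (gᴴ * h * g * e).trace = (g * e * gᴴ * h).trace := by
        have h8 : gᴴ * h * g * e = (gᴴ * h) * (g * e) := by simp only [Matrix.mul_assoc]
        rw [h8, Matrix.trace_mul_comm]
        simp only [Matrix.mul_assoc]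
      rw [h5, h6, h7]
      field_simp
    have h5 : z = conj w := by
      have h6 : w = (1 / (κ : ℂ)) * (gᴴ * h * g * e).trace := by
        rw [hw]
        simp [fv]
      have h7 : z = (1 / (κ : ℂ)) * (gᴴ * h * g * eᴴ).trace := by
        rw [hz]
        simp [fv]
      have h8 : conj ((gᴴ * h * g * e).trace) = ((gᴴ * h * g * e)ᴴ).trace := by
        rw [Matrix.trace_conjTranspose]
        rfl
      have h9 : (gᴴ * h * g * e)ᴴ = eᴴ * (gᴴ * h * g) := by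
        simp only [Matrix.conjTranspose_mul, Matrix.conjTranspose_conjTranspose, H.herm,
          Matrix.mul_assoc]
      rw [h6, h7, map_mul, map_div₀, map_one, Complex.conj_ofReal, h8, h9, Matrix.trace_mul_comm]
    have h6 : (gᴴ * h * g * (gᴴ * h * g)).trace = 2 * κ := by
      have h7 : gᴴ * h * g * (gᴴ * h * g) = gᴴ * (h * (g * gᴴ) * h * g) := by
        simp only [Matrix.mul_assoc]
      rw [h7, h1, Matrix.mul_one, Matrix.trace_mul_comm, Matrix.mul_assoc, h1, Matrix.mul_one,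
        H.hh]
    rw [hZe] at h6
    simp only [Matrix.add_mul, Matrix.mul_add, Matrix.smul_mul, Matrix.mul_smul,
      Matrix.trace_add, Matrix.trace_smul, smul_eq_mul, H.hh, H.he, H.heH, H.eh, H.nrm, H.ee,
      H.eHh, H.nrm', H.eHeH, mul_zero, add_zero, zero_add] at h6
    rw [h3, h5, h4, map_mul, Complex.conj_ofNat] at h6
    have h7 : (2 * (κ : ℂ)) * ((c : ℂ) ^ 2 + 4 * (s * conj s)) = (2 * κ) * 1 := by
      linear_combination h6
    exact mul_left_cancel₀ (mul_ne_zero two_ne_zero hκ) h7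
  rw [haa]
  push_cast
  linear_combination (1 / 2 : ℂ) * e1 + (1 / 2 : ℂ) * e2 - (1 / 4 : ℂ) * e3

end alg

/-! ### the group -/

section grp

/-- the positive root -/
def al : (Fin 1 → ℤ) × (Fin 1 → ℤ) := ((fun _ => 2), fun _ => 1)

variable {N : ℕ} {H : Subgroup (SU N)} {Φ : RT 1} {B : Matrix (Fin 1) (Fin 1) ℤ}
  {Hc : Fin 1 → MT N} {E : (Fin 1 → ℤ) × (Fin 1 → ℤ) → MT N}

theorem al_mem (hR : R1F Φ) : al ∈ Φ := by
  have h1 : al ∈ pos Φ := by
    rw [hR.pos]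
    exact Finset.mem_singleton_self _
  exact (Finset.mem_filter.1 h1).1

/-- the normalisation -/
def kp (E : (Fin 1 → ℤ) × (Fin 1 → ℤ) → MT N) : ℝ := (E al * (E al)ᴴ).trace.re

theorem mk_SL (hR : R1F Φ) (hW : WFF Φ B) (hL : LRD H Φ B Hc E) (hT : TAF H Φ Hc E) :
    SL (Hc 0) (E al) (kp E) := by
  have h1 := al_mem hR
  have h2 : (-al.1, -al.2) ∈ Φ := hW.neg _ h1
  have h3 : (E al * (E al)ᴴ).trace = (kp E : ℂ) := by
    apply Complex.ext
    · rw [Complex.ofReal_re]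
      rfl
    · rw [Complex.ofReal_im]
      exact (hT.pos al h1).2
  refine ⟨(hT.pos al h1).1, hL.herm 0, ?_, ?_, ?_, ?_, ?_, h3⟩
  · have h4 := hL.ead al h1 0
    rw [h4]
    simp [al]
  · have h4 := hL.cor al h1
    rw [h4, Fin.sum_univ_one]
    simp [al]
  · have h4 : al ≠ (-al.1, -al.2) := by
      intro h5
      have h6 := congrFun (congrArg Prod.fst h5) 0
      simp [al] at h6
    have h5 := hT.orth al h1 _ h2 h4
    rwa [hL.star al h1, Matrix.conjTranspose_conjTranspose] at h5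
  · exact hT.orh al h1 0
  · have h4 := hT.tp al h1 0
    rw [Fin.sum_univ_one, h3] at h4
    simpa [al] using h4

theorem lie_sub (hR : R1F Φ) (hL : LRD H Φ B Hc E) (X : MT N) (hX : X ∈ lie H) :
    X ∈ VS (Hc 0) (E al) := by
  obtain ⟨x, z, rfl⟩ := hL.span X hX
  have h0 : ∀ i, ev (Hc 0) (E al) i ∈ VS (Hc 0) (E al) := fun i =>
    Submodule.subset_span ⟨i, rfl⟩
  rw [Fin.sum_univ_one, hR.pos, Finset.sum_singleton]
  exact Submodule.add_mem _ (Submodule.smul_mem _ _ (h0 0))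
    (Submodule.sub_mem _ (Submodule.smul_mem _ _ (h0 1)) (Submodule.smul_mem _ _ (h0 2)))

theorem stab (hR : R1F Φ) (hL : LRD H Φ B Hc E) (hF : LIF H) (g : SU N) (hg : g ∈ H)
    (b : Fin 3) : g.1 * ev (Hc 0) (E al) b * g.1ᴴ ∈ VS (Hc 0) (E al) := by
  have h0 := lie_sub hR hL _ (hF.ad g hg _ (hL.mem 0))
  have h1 := lie_sub hR hL _ (hF.ad g hg _ (hL.emem al (al_mem hR)).1)
  have h2 := lie_sub hR hL _ (hF.ad g hg _ (hL.emem al (al_mem hR)).2)
  fin_cases b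
  · have h3 := Submodule.smul_mem _ (-Complex.I) h0
    have h4 : (-Complex.I) • (g.1 * (Complex.I • Hc 0) * g.1ᴴ) = g.1 * Hc 0 * g.1ᴴ := by
      rw [Matrix.mul_smul, Matrix.smul_mul, smul_smul]
      simp
    rw [h4] at h3
    exact h3
  · have h3 := Submodule.smul_mem _ (1 / 2 : ℂ)
      (Submodule.add_mem _ h1 (Submodule.smul_mem _ (-Complex.I) h2))
    have h4 : (1 / 2 : ℂ) • (g.1 * (E al - (E al)ᴴ) * g.1ᴴ +
        (-Complex.I) • (g.1 * (Complex.I • (E al + (E al)ᴴ)) * g.1ᴴ)) = g.1 * E al * g.1ᴴ := by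
      rw [Matrix.mul_smul, Matrix.smul_mul, smul_smul]
      have h5 : -Complex.I * Complex.I = 1 := by simp
      rw [h5, one_smul, Matrix.mul_sub, Matrix.sub_mul, Matrix.mul_add, Matrix.add_mul]
      have h6 : g.1 * E al * g.1ᴴ - g.1 * (E al)ᴴ * g.1ᴴ + (g.1 * E al * g.1ᴴ +
          g.1 * (E al)ᴴ * g.1ᴴ) = (2 : ℂ) • (g.1 * E al * g.1ᴴ) := by
        rw [two_smul]
        abel
      rw [h6, smul_smul]
      norm_num
    rw [h4] at h3
    exact h3
  · have h3 := Submodule.smul_mem _ (1 / 2 : ℂ)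
      (Submodule.sub_mem _ (Submodule.smul_mem _ (-Complex.I) h2) h1)
    have h4 : (1 / 2 : ℂ) • ((-Complex.I) • (g.1 * (Complex.I • (E al + (E al)ᴴ)) * g.1ᴴ) -
        g.1 * (E al - (E al)ᴴ) * g.1ᴴ) = g.1 * (E al)ᴴ * g.1ᴴ := by
      rw [Matrix.mul_smul, Matrix.smul_mul, smul_smul]
      have h5 : -Complex.I * Complex.I = 1 := by simp
      rw [h5, one_smul, Matrix.mul_sub, Matrix.sub_mul, Matrix.mul_add, Matrix.add_mul]
      have h6 : g.1 * E al * g.1ᴴ + g.1 * (E al)ᴴ * g.1ᴴ - (g.1 * E al * g.1ᴴ -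
          g.1 * (E al)ᴴ * g.1ᴴ) = (2 : ℂ) • (g.1 * (E al)ᴴ * g.1ᴴ) := by
        rw [two_smul]
        abel
      rw [h6, smul_smul]
      norm_num
    rw [h4] at h3
    exact h3

/-- the trace of the adjoint representation -/
def TA (Hc : Fin 1 → MT N) (E : (Fin 1 → ℤ) × (Fin 1 → ℤ) → MT N) (g : MT N) : ℂ :=
  (MM (Hc 0) (E al) (kp E) g).trace

theorem TA_conj (hR : R1F Φ) (hL : LRD H Φ B Hc E) (hF : LIF H)
    (hS : SL (Hc 0) (E al) (kp E)) (u g : SU N) (hu : u ∈ H) (hg : g ∈ H) :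
    TA Hc E (u * g * u⁻¹).1 = TA Hc E g.1 := by
  have h1 : (u * g * u⁻¹).1 = u.1 * g.1 * u.1ᴴ := by
    change u.1 * g.1 * (u⁻¹).1 = _
    rw [LGR.LIEB.coe_inv]
  rw [h1]
  refine hS.trace_conj u.1 g.1 (LGR.LIEB.ct_mul u) (stab hR hL hF u hu) ?_ ?_
  · intro b
    have h2 := stab hR hL hF u⁻¹ (H.inv_mem hu) b
    rwa [LGR.LIEB.coe_inv, Matrix.conjTranspose_conjTranspose] at h2
  · intro b
    have h2 := stab hR hL hF (g * u⁻¹) (H.mul_mem hg (H.inv_mem hu)) b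
    have h3 : (g * u⁻¹).1 = g.1 * u.1ᴴ := by
      change g.1 * (u⁻¹).1 = _
      rw [LGR.LIEB.coe_inv]
    rwa [h3] at h2

/-! ### the torus -/

theorem eu_conj (a : ℝ) : conj (eu a) = eu (-a) := by
  unfold eu
  rw [← Complex.exp_conj]
  congr 1
  rw [map_mul, map_mul, map_mul, Complex.conj_I, Complex.conj_ofReal, Complex.conj_ofReal,
    Complex.conj_ofNat]
  push_cast
  ring

theorem eu_mul_neg (a : ℝ) : eu a * eu (-a) = 1 := by
  unfold eu
  rw [← Complex.exp_add]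
  have h1 : 2 * (π : ℂ) * (a : ℂ) * Complex.I + 2 * (π : ℂ) * ((-a : ℝ) : ℂ) * Complex.I = 0 := by
    push_cast
    ring
  rw [h1, Complex.exp_zero]

/-- the eigenvalues of the torus -/
def dd (θ : ℝ) : Fin 3 → ℂ := ![1, eu (2 * θ), eu (-(2 * θ))]

theorem tor_E (hR : R1F Φ) (hT : TAF H Φ Hc E) (θ : ℝ) :
    (ta Hc fun _ => θ).1 * E al * (ta Hc fun _ => θ).1ᴴ = eu (2 * θ) • E al := by
  have h1 := hT.Ade al (al_mem hR) (fun _ => θ)
  have h2 : dz al.1 (fun _ => θ) = 2 * θ := by simp [dz, al]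
  rwa [h2] at h1

theorem tor (hR : R1F Φ) (hT : TAF H Φ Hc E) (hS : SL (Hc 0) (E al) (kp E)) (θ : ℝ)
    (b : Fin 3) : (ta Hc fun _ => θ).1 * ev (Hc 0) (E al) b * (ta Hc fun _ => θ).1ᴴ =
      dd θ b • ev (Hc 0) (E al) b := by
  obtain ⟨t, ht⟩ : ∃ t, t = ta Hc fun _ => θ := ⟨_, rfl⟩
  have h1 := tor_E hR hT θ
  rw [← ht] at h1 ⊢
  have h2 : t.1 * (E al)ᴴ * t.1ᴴ = eu (-(2 * θ)) • (E al)ᴴ := by
    have h3 := congrArg Matrix.conjTranspose h1
    rw [Matrix.conjTranspose_smul, ← starRingEnd_apply, eu_conj] at h3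
    rw [← h3]
    simp only [Matrix.conjTranspose_mul, Matrix.conjTranspose_conjTranspose, Matrix.mul_assoc]
  fin_cases b
  · have h3 : t.1 * Hc 0 * t.1ᴴ = Hc 0 := by
      have h4 : t.1 * (E al * (E al)ᴴ) * t.1ᴴ = E al * (E al)ᴴ := by
        have h5 : t.1 * (E al * (E al)ᴴ) * t.1ᴴ =
            (t.1 * E al * t.1ᴴ) * (t.1 * (E al)ᴴ * t.1ᴴ) := by
          have h6 : (t.1 * E al * t.1ᴴ) * (t.1 * (E al)ᴴ * t.1ᴴ) =
              t.1 * (E al * (t.1ᴴ * t.1) * (E al)ᴴ) * t.1ᴴ := by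
            simp only [Matrix.mul_assoc]
          rw [h6, LGR.LIEB.ct_mul, Matrix.mul_one]
        rw [h5, h1, h2, Matrix.smul_mul, Matrix.mul_smul, smul_smul, eu_mul_neg, one_smul]
      have h4' : t.1 * ((E al)ᴴ * E al) * t.1ᴴ = (E al)ᴴ * E al := by
        have h5 : t.1 * ((E al)ᴴ * E al) * t.1ᴴ =
            (t.1 * (E al)ᴴ * t.1ᴴ) * (t.1 * E al * t.1ᴴ) := by
          have h6 : (t.1 * (E al)ᴴ * t.1ᴴ) * (t.1 * E al * t.1ᴴ) =
              t.1 * ((E al)ᴴ * (t.1ᴴ * t.1) * E al) * t.1ᴴ := by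
            simp only [Matrix.mul_assoc]
          rw [h6, LGR.LIEB.ct_mul, Matrix.mul_one]
        rw [h5, h1, h2, Matrix.smul_mul, Matrix.mul_smul, smul_smul, mul_comm (eu (-(2 * θ))),
          eu_mul_neg, one_smul]
      rw [← hS.cor, Matrix.mul_sub, Matrix.sub_mul, h4, h4']
    change t.1 * Hc 0 * t.1ᴴ = (1 : ℂ) • Hc 0
    rw [h3, one_smul]
  · exact h1
  · exact h2

theorem TA_tor (hR : R1F Φ) (hT : TAF H Φ Hc E) (hS : SL (Hc 0) (E al) (kp E)) (g : MT N)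
    (θ : ℝ) : TA Hc E (g * (ta Hc fun _ => θ).1) =
      MM (Hc 0) (E al) (kp E) g 0 0 + eu (2 * θ) * MM (Hc 0) (E al) (kp E) g 1 1 +
        eu (-(2 * θ)) * MM (Hc 0) (E al) (kp E) g 2 2 := by
  unfold TA
  rw [SL.trace_right g _ (dd θ) (tor hR hT hS θ), Fin.sum_univ_three]
  simp [dd]

theorem TA_ta (hR : R1F Φ) (hT : TAF H Φ Hc E) (hS : SL (Hc 0) (E al) (kp E)) (θ : ℝ) :
    TA Hc E (ta Hc fun _ => θ).1 = ((4 * Real.cos (2 * π * θ) ^ 2 - 1 : ℝ) : ℂ) := by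
  have h1 := TA_tor hR hT hS 1 θ
  rw [Matrix.one_mul, hS.MM_one] at h1
  rw [h1]
  simp only [Matrix.one_apply_eq, mul_one]
  have h2 : eu (2 * θ) + eu (-(2 * θ)) = ((2 * Real.cos (2 * (2 * π * θ)) : ℝ) : ℂ) := by
    unfold eu
    push_cast
    rw [Complex.cos]
    ring_nf
  rw [Real.cos_two_mul] at h2
  have h3 : (1 : ℂ) + eu (2 * θ) + eu (-(2 * θ)) = 1 + (eu (2 * θ) + eu (-(2 * θ))) := by ring
  rw [h3, h2]
  push_cast
  ring

end grp

/-! ### the characters -/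

section chr

theorem eu_sub (a : ℝ) : eu a - eu (-a) = 2 * Complex.I * ((Real.sin (2 * π * a) : ℝ) : ℂ) := by
  unfold eu
  push_cast
  rw [Complex.sin]
  have h1 : -(2 * (π : ℂ) * a) * Complex.I = 2 * π * -a * Complex.I := by ring
  rw [h1]
  have h2 : Complex.I * Complex.I = -1 := Complex.I_mul_I
  linear_combination (Complex.exp (2 * (π : ℂ) * a * Complex.I) -
    Complex.exp (2 * π * -a * Complex.I)) * h2

/-- continuous functions which agree where `sin (2πθ) ≠ 0` are equal -/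
theorem dens (f g : ℝ → ℂ) (hf : Continuous f) (hg : Continuous g)
    (h : ∀ θ : ℝ, ((Real.sin (2 * π * θ) : ℝ) : ℂ) * f θ = ((Real.sin (2 * π * θ) : ℝ) : ℂ) * g θ) :
    f = g := by
  have h1 : Set.Countable {θ : ℝ | Real.sin (2 * π * θ) = 0} := by
    refine (Set.countable_range fun n : ℤ => (n : ℝ) / 2).mono ?_
    intro θ hθ
    obtain ⟨n, hn⟩ := Real.sin_eq_zero_iff.1 hθ
    refine ⟨n, ?_⟩
    have h2 : (π : ℝ) ≠ 0 := Real.pi_ne_zero
    have h3 : π * ((n : ℝ) - 2 * θ) = 0 := by linear_combination hn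
    rcases mul_eq_zero.1 h3 with h4 | h4
    · exact absurd h4 h2
    · change (n : ℝ) / 2 = θ
      linarith
  have h2 := h1.dense_compl ℝ
  refine hf.ext_on h2 hg ?_
  intro θ hθ
  have h3 : ((Real.sin (2 * π * θ) : ℝ) : ℂ) ≠ 0 := by
    intro h4
    exact hθ (Complex.ofReal_eq_zero.1 h4)
  exact mul_left_cancel₀ h3 (h θ)

variable {N : ℕ} {H : Subgroup (SU N)} {Φ : RT 1} {Hc : Fin 1 → MT N} {c k : ℝ}

/-- the facts on one character: class function, continuous, the values on the torus -/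
structure CF (Hc : Fin 1 → MT N) (l : ℤ) (f : H → ℂ) : Prop where
  cls : ∀ u g : H, f (u * g * u⁻¹) = f g
  cont : Continuous f
  tor : ∀ θ : ℝ, ((Real.sin (2 * π * θ) : ℝ) : ℂ) * f (tt H Hc fun _ => θ) =
    ((Real.sin (2 * π * (l * θ)) : ℝ) : ℂ)

theorem mk_CF (hR : R1F Φ) {C : ℝ} (hP : PSC H Hc C)
    (χ : IX Hc → H → ℂ) (hχ : CHI Φ Hc c k 3 χ) (i : IX Hc) : CF Hc (lw i) (χ i) := by
  obtain ⟨n, σ, -, -, hw, hch⟩ := hχ i
  have hf : χ i = σ.ch := by
    funext g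
    exact (hch g).symm
  rw [hf]
  refine ⟨?_, ?_, ?_⟩
  · intro u g
    unfold Rep.ch
    rw [map_mul, Matrix.trace_mul_comm, ← map_mul, ← mul_assoc, inv_mul_cancel, one_mul]
  · exact σ.cont.matrix_trace
  · intro θ
    have h1 := hw.wcf (tt H Hc fun _ => θ) (fun _ => θ) (hP.tcoe _)
    rw [hR.at', hR.at', eu_sub, eu_sub] at h1
    have h2 : (2 * Complex.I : ℂ) ≠ 0 := mul_ne_zero two_ne_zero Complex.I_ne_zero
    have h3 : ((1 : Fin 1 → ℤ) 0 : ℝ) * θ = θ := by simp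
    rw [h3, mul_assoc] at h1
    exact mul_left_cancel₀ h2 h1

/-- the values for odd `l` -/
theorem CF.odd {l : ℤ} {f : H → ℂ} (hf : CF Hc l f) {C : ℝ} (hP : PSC H Hc C) (n : ℕ)
    (hl : l = 2 * n + 1) (θ : ℝ) : f (tt H Hc fun _ => θ) =
      (((Polynomial.Chebyshev.U ℝ (2 * (n : ℤ))).eval (Real.cos (2 * π * θ)) : ℝ) : ℂ) := by
  have h1 : (fun θ : ℝ => f (tt H Hc fun _ => θ)) = fun θ : ℝ =>
      (((Polynomial.Chebyshev.U ℝ (2 * (n : ℤ))).eval (Real.cos (2 * π * θ)) : ℝ) : ℂ) := by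
    refine dens _ _ ?_ ?_ ?_
    · exact hf.cont.comp (hP.tcont.comp (continuous_pi fun _ => continuous_id))
    · refine Complex.continuous_ofReal.comp ?_
      refine (Polynomial.Chebyshev.U ℝ (2 * (n : ℤ))).continuous.comp ?_
      exact Real.continuous_cos.comp (continuous_const.mul continuous_id)
    · intro θ
      rw [hf.tor θ]
      have h2 := Polynomial.Chebyshev.U_real_cos (2 * π * θ) (2 * (n : ℤ))
      rw [← Complex.ofReal_mul, mul_comm (Real.sin (2 * π * θ)), h2, hl]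
      congr 2
      push_cast
      ring
  exact congrFun h1 θ

/-- the values for even `l` -/
theorem CF.even {l : ℤ} {f : H → ℂ} (hf : CF Hc l f) {C : ℝ} (hP : PSC H Hc C) (n : ℤ)
    (hl : l = 2 * n) (θ : ℝ) :
    f (tt H Hc fun _ => θ + 1 / 2) = -f (tt H Hc fun _ => θ) := by
  have h1 : (fun θ : ℝ => f (tt H Hc fun _ => θ + 1 / 2)) =
      fun θ : ℝ => -f (tt H Hc fun _ => θ) := by
    refine dens _ _ ?_ ?_ ?_
    · exact hf.cont.comp (hP.tcont.comp (continuous_pi fun _ => continuous_id.add continuous_const))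
    · exact (hf.cont.comp (hP.tcont.comp (continuous_pi fun _ => continuous_id))).neg
    · intro θ
      have h2 := hf.tor (θ + 1 / 2)
      have h3 : Real.sin (2 * π * (θ + 1 / 2)) = -Real.sin (2 * π * θ) := by
        rw [← Real.sin_add_pi]
        congr 1
        ring
      have h4 : Real.sin (2 * π * (l * (θ + 1 / 2))) = Real.sin (2 * π * (l * θ)) := by
        rw [← Real.sin_add_int_mul_two_pi (2 * π * (l * θ)) n]
        congr 1
        rw [hl]
        push_cast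
        ring
      rw [h3, h4, ← hf.tor θ] at h2
      push_cast at h2 ⊢
      linear_combination -h2
  exact congrFun h1 θ

end chr

/-! ### the coset -/

section fin

variable {N : ℕ} {H : Subgroup (SU N)} {Φ : RT 1} {B : Matrix (Fin 1) (Fin 1) ℤ}
  {Hc : Fin 1 → MT N} {E : (Fin 1 → ℤ) × (Fin 1 → ℤ) → MT N}

theorem ex_conj (u : SU N) (hu : u ∈ H) (X : MT N) (hX : X ∈ lie H) :
    ex (u.1 * X * u.1ᴴ) 1 = u * ex X 1 * u⁻¹ := by
  have hs : u.1 * X * u.1ᴴ ∈ su N := (LGR.LIEB.lie_ad u hu X hX).1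
  apply Subtype.ext
  have h2 : (u * ex X 1 * u⁻¹).1 = u.1 * (ex X 1).1 * (u⁻¹).1 := rfl
  rw [h2, LGR.LIEB.coe _ hs, LGR.LIEB.coe _ hX.1, LGR.LIEB.coe_inv]
  have hinv : (u.1)⁻¹ = u.1ᴴ := Matrix.inv_eq_left_inv (LGR.LIEB.ct_mul u)
  have hun : IsUnit u.1 := by
    rw [isUnit_iff_exists]
    exact ⟨u.1ᴴ, LGR.LIEB.mul_ct u, LGR.LIEB.ct_mul u⟩
  rw [← hinv, ← Matrix.exp_conj _ _ hun]
  congr 1
  simp only [Matrix.mul_smul, Matrix.smul_mul]

theorem fix_VS (hR : R1F Φ) (hT : TAF H Φ Hc E) (hS : SL (Hc 0) (E al) (kp E)) (Y : MT N)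
    (hY : Y ∈ VS (Hc 0) (E al)) :
    (ta Hc fun _ => (1 / 2 : ℝ)).1 * Y * (ta Hc fun _ => (1 / 2 : ℝ)).1ᴴ = Y := by
  obtain ⟨a, rfl⟩ := (Submodule.mem_span_range_iff_exists_fun ℂ).1 hY
  rw [Finset.mul_sum, Finset.sum_mul]
  refine Finset.sum_congr rfl fun b _ => ?_
  rw [Matrix.mul_smul, Matrix.smul_mul, tor hR hT hS]
  have h1 : dd (1 / 2) b = 1 := by
    have h2 : eu 1 = 1 := by
      unfold eu
      rw [Complex.ofReal_one, mul_one, Complex.exp_two_pi_mul_I]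
    have h3 : eu (-1) = 1 := by
      have h4 := eu_mul_neg 1
      rwa [h2, one_mul] at h4
    fin_cases b
    · rfl
    · change eu (2 * (1 / 2)) = 1
      rw [show (2 : ℝ) * (1 / 2) = 1 by norm_num, h2]
    · change eu (-(2 * (1 / 2))) = 1
      rw [show -((2 : ℝ) * (1 / 2)) = -1 by norm_num, h3]
  rw [h1, one_smul]

theorem central (hR : R1F Φ) (hL : LRD H Φ B Hc E) (hF : LIF H) (hT : TAF H Φ Hc E)
    (hS : SL (Hc 0) (E al) (kp E))
    (hC : ∀ g ∈ H, ∃ h ∈ H, ∃ θ : Fin 1 → ℝ, g = h * ta Hc θ * h⁻¹) (u : SU N) (hu : u ∈ H) :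
    (ta Hc fun _ => (1 / 2 : ℝ)) * u = u * ta Hc fun _ => (1 / 2 : ℝ) := by
  obtain ⟨v, hv, θ, rfl⟩ := hC u hu
  obtain ⟨z, hz⟩ : ∃ z, z = ta Hc fun _ => (1 / 2 : ℝ) := ⟨_, rfl⟩
  have hzH : z ∈ H := by
    rw [hz]
    exact hT.mem _
  have h1 := hT.hmem (fun j => 2 * π * θ j)
  have h2 := ex_conj v hv _ h1
  have h3 := hF.ad v hv _ h1
  have h4 : v * ta Hc θ * v⁻¹ = ex (v.1 * hx Hc (fun j => 2 * π * θ j) * v.1ᴴ) 1 := h2.symm
  have h5 := ex_conj z hzH _ h3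
  have h6 := fix_VS hR hT hS _ (lie_sub hR hL _ h3)
  rw [← hz] at h6 ⊢
  rw [h6] at h5
  rw [h4]
  have h7 : z * ex (v.1 * hx Hc (fun j => 2 * π * θ j) * v.1ᴴ) 1 =
      z * ex (v.1 * hx Hc (fun j => 2 * π * θ j) * v.1ᴴ) 1 * z⁻¹ * z := by group
  rw [h7, ← h5]

/-- conjugation to the torus, in `H` -/
theorem conjH {C : ℝ} (hP : PSC H Hc C)
    (hC : ∀ g ∈ H, ∃ h ∈ H, ∃ θ : Fin 1 → ℝ, g = h * ta Hc θ * h⁻¹) (u : H) :
    ∃ (v : H) (θ : ℝ), u = v * (tt H Hc fun _ => θ) * v⁻¹ := by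
  obtain ⟨v, hv, θ, h1⟩ := hC u.1 u.2
  refine ⟨⟨v, hv⟩, θ 0, ?_⟩
  apply Subtype.ext
  have h2 : (fun _ : Fin 1 => θ 0) = θ := by
    funext j
    rw [Subsingleton.elim j 0]
  rw [h2]
  change u.1 = v * (tt H Hc θ).1 * v⁻¹
  rw [hP.tcoe, h1]

/-- the sign for even `l` -/
theorem neg_half (hR : R1F Φ) (hL : LRD H Φ B Hc E) (hF : LIF H) (hT : TAF H Φ Hc E)
    (hS : SL (Hc 0) (E al) (kp E)) {C : ℝ} (hP : PSC H Hc C)
    (hC : ∀ g ∈ H, ∃ h ∈ H, ∃ θ : Fin 1 → ℝ, g = h * ta Hc θ * h⁻¹) {l : ℤ} {f : H → ℂ}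
    (hf : CF Hc l f) (n : ℤ) (hl : l = 2 * n) (g : H) (φ : ℝ) :
    f (g * tt H Hc fun _ => φ + 1 / 2) = -f (g * tt H Hc fun _ => φ) := by
  obtain ⟨v, θ, h1⟩ := conjH hP hC (g * tt H Hc fun _ => φ)
  have hz : ∀ u : H, (tt H Hc fun _ => (1 / 2 : ℝ)) * u = u * tt H Hc fun _ => (1 / 2 : ℝ) := by
    intro u
    apply Subtype.ext
    change (tt H Hc fun _ => (1 / 2 : ℝ)).1 * u.1 = u.1 * (tt H Hc fun _ => (1 / 2 : ℝ)).1
    rw [hP.tcoe]
    exact central hR hL hF hT hS hC u.1 u.2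
  have h2 : ∀ x : ℝ, (tt H Hc fun _ => x + 1 / 2) =
      (tt H Hc fun _ => x) * tt H Hc fun _ => (1 / 2 : ℝ) := fun x => by
    have h3 := hP.tadd (fun _ => x) (fun _ => (1 / 2 : ℝ))
    exact h3
  rw [h2, ← mul_assoc, h1]
  have h3 : v * (tt H Hc fun _ => θ) * v⁻¹ * (tt H Hc fun _ => (1 / 2 : ℝ)) =
      v * (tt H Hc fun _ => θ + 1 / 2) * v⁻¹ := by
    rw [mul_assoc, ← hz, h2]
    simp only [mul_assoc]
  rw [h3, hf.cls, hf.cls, hf.even hP n hl]

/-- the value of an odd character by the trace of the adjoint representation -/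
theorem val_odd (hR : R1F Φ) (hL : LRD H Φ B Hc E) (hF : LIF H) (hT : TAF H Φ Hc E)
    (hS : SL (Hc 0) (E al) (kp E)) {C : ℝ} (hP : PSC H Hc C)
    (hC : ∀ g ∈ H, ∃ h ∈ H, ∃ θ : Fin 1 → ℝ, g = h * ta Hc θ * h⁻¹) {l : ℤ} {f : H → ℂ}
    (hf : CF Hc l f) (n : ℕ) (hl : l = 2 * n + 1) (u : H) (x : ℝ)
    (hx : TA Hc E u.1.1 = ((4 * x ^ 2 - 1 : ℝ) : ℂ)) :
    f u = (((Polynomial.Chebyshev.U ℝ (2 * (n : ℤ))).eval x : ℝ) : ℂ) := by
  obtain ⟨v, θ, rfl⟩ := conjH hP hC u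
  rw [hf.cls, hf.odd hP n hl]
  have h1 : TA Hc E (v * (tt H Hc fun _ => θ) * v⁻¹).1.1 =
      ((4 * Real.cos (2 * π * θ) ^ 2 - 1 : ℝ) : ℂ) := by
    rw [← TA_ta hR hT hS, ← hP.tcoe]
    exact TA_conj hR hL hF hS v.1 _ v.2 (tt H Hc fun _ => θ).2
  rw [h1] at hx
  have h2 : Real.cos (2 * π * θ) ^ 2 = x ^ 2 := by
    have h3 := Complex.ofReal_injective hx
    linarith
  rcases sq_eq_sq_iff_eq_or_eq_neg.1 h2 with h3 | h3
  · rw [h3]
  · rw [h3]
    have h4 := Polynomial.Chebyshev.U_eval_neg (R := ℝ) (2 * n) x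
    have h5 : (((2 * n : ℕ) : ℤ)) = 2 * (n : ℤ) := by push_cast; ring
    rw [h5, Int.negOnePow_two_mul] at h4
    rw [h4]
    simp

theorem int_even {F : ℝ → ℂ} (hF : Continuous F) (h : ∀ x, F (x + 1 / 2) = -F x) :
    ∫ x in (0 : ℝ)..1, F x = 0 := by
  have h1 : ∫ x in (0 : ℝ)..1, F x =
      (∫ x in (0 : ℝ)..(1 / 2), F x) + ∫ x in (1 / 2 : ℝ)..1, F x :=
    (intervalIntegral.integral_add_adjacent_intervals (hF.intervalIntegrable _ _)
      (hF.intervalIntegrable _ _)).symm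
  have h2 : ∫ x in (0 : ℝ)..(1 / 2), F (x + 1 / 2) = ∫ x in (1 / 2 : ℝ)..1, F x := by
    rw [intervalIntegral.integral_comp_add_right]
    norm_num
  rw [h1, ← h2]
  simp only [h]
  rw [intervalIntegral.integral_neg, add_neg_cancel]

theorem int_odd {G : ℝ → ℂ} (hG : Continuous G) (h : ∀ x, G (x + 1) = G x) (α : ℝ) :
    ∫ x in (0 : ℝ)..1, G (2 * x + α) = ∫ x in (0 : ℝ)..1, G x := by
  have hp : Function.Periodic G 1 := h
  rw [intervalIntegral.integral_comp_mul_add G two_ne_zero α]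
  have h1 : ∫ x in (2 * 0 + α)..(2 * 1 + α), G x =
      (∫ x in α..(α + 1), G x) + ∫ x in (α + 1)..(α + 1 + 1), G x := by
    rw [intervalIntegral.integral_add_adjacent_intervals (hG.intervalIntegrable _ _)
      (hG.intervalIntegrable _ _)]
    congr 1 <;> ring
  have h2 := hp.intervalIntegral_add_eq α 0
  have h3 := hp.intervalIntegral_add_eq (α + 1) 0
  rw [zero_add] at h2 h3
  rw [h1, h2, h3, ← two_smul ℝ, smul_smul]
  norm_num

theorem polar (a : ℂ) : a = (‖a‖ : ℂ) * eu (Complex.arg a / (2 * π)) := by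
  have h1 : eu (Complex.arg a / (2 * π)) = Complex.exp (Complex.arg a * Complex.I) := by
    unfold eu
    congr 1
    have h2 : (π : ℂ) ≠ 0 := by exact_mod_cast Real.pi_ne_zero
    push_cast
    field_simp
  rw [h1, Complex.norm_mul_exp_arg_mul_I]

end fin

end CHT

open CHT in
theorem t_CHT : M_CHT := by
  intro hLIE hWFA hTAU hCON hPSF hRNK hLGA N H Φ B Hc E c k hX cc ze w C hSP hcc χ hχ i g
  have hL := hX.lrd
  have hW := hWFA 1 Φ B hL.ird
  have hR := hRNK Φ B hL.ird hW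
  have hF := hLIE N H hX.closed
  have hT := hTAU N H 1 Φ B Hc E hX.closed hL
  have hC := hCON N H 1 Φ B Hc E hX.closed hX.conn hL
  obtain ⟨C', -, hP⟩ := hPSF N H 1 Φ B Hc E c k 3 hX
  have hS := mk_SL hR hW hL hT
  have hf := mk_CF hR hP χ hχ i
  have hcont : Continuous fun φ : ℝ => χ i (g * tt H Hc fun _ => φ) :=
    hf.cont.comp (continuous_const.mul (hP.tcont.comp (continuous_pi fun _ => continuous_id)))
  have hlw : lw i = (i.1 0 : ℤ) + 1 := rfl
  rcases Nat.even_or_odd' (i.1 0) with ⟨n, hn | hn⟩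
  · -- odd `l`
    have hl : lw i = 2 * n + 1 := by
      rw [hlw, hn]
      push_cast
      ring
    have hl1 : lw i % 2 = 1 := by omega
    have hl2 : (lw i).toNat / 2 = n := by omega
    rw [if_pos hl1, hl2]
    -- the coordinates
    have hY := stab hR hL hF g.1 g.2 1
    have hZ := stab hR hL hF (g.1)⁻¹ (H.inv_mem g.2) 0
    rw [LGR.LIEB.coe_inv, Matrix.conjTranspose_conjTranspose] at hZ
    have hsq := hS.sq g.1.1 (LGR.LIEB.mul_ct g.1) (LGR.LIEB.ct_mul g.1) hY hZ (cc g) (hcc g)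
    obtain ⟨a, ha⟩ : ∃ a, a = MM (Hc 0) (E al) (kp E) g.1.1 1 1 := ⟨_, rfl⟩
    rw [← ha] at hsq
    have hc1 : -1 ≤ cc g := by
      have h1 := hSP.norm g
      nlinarith [sq_nonneg ‖ze g‖]
    obtain ⟨r, hr⟩ : ∃ r : ℝ, r = (1 + cc g) / 2 := ⟨_, rfl⟩
    have hr0 : 0 ≤ r := by
      rw [hr]
      linarith
    have hr1 : r ≤ 1 := by
      have h1 := hSP.norm g
      rw [hr]
      nlinarith [sq_nonneg ‖ze g‖]
    have hna : ‖a‖ = r := by
      rw [Complex.mul_conj, ← hr] at hsq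
      have h1 : Complex.normSq a = r ^ 2 := by exact_mod_cast hsq
      rw [Complex.normSq_eq_norm_sq] at h1
      exact (sq_eq_sq₀ (norm_nonneg _) hr0).1 h1
    obtain ⟨α, hα⟩ : ∃ α : ℝ, a = (r : ℂ) * eu α := by
      refine ⟨Complex.arg a / (2 * π), ?_⟩
      rw [← hna]
      exact polar a
    -- the trace on the coset
    have hTA : ∀ φ : ℝ, TA Hc E (g * tt H Hc fun _ => φ).1.1 =
        ((4 * (√r * Real.cos (π * (2 * φ + α))) ^ 2 - 1 : ℝ) : ℂ) := by
      intro φ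
      have h1 : (g * tt H Hc fun _ => φ).1.1 = g.1.1 * (ta Hc fun _ => φ).1 := by
        change g.1.1 * (tt H Hc fun _ => φ).1.1 = _
        rw [hP.tcoe]
      rw [h1, TA_tor hR hT hS, hS.mm00 g.1.1 (cc g) (hcc g), MM22', ← ha, hα, map_mul,
        Complex.conj_ofReal, eu_conj]
      have h2 : eu (2 * φ) * ((r : ℂ) * eu α) + eu (-(2 * φ)) * ((r : ℂ) * eu (-α)) =
          (r : ℂ) * ((2 * Real.cos (2 * (π * (2 * φ + α))) : ℝ) : ℂ) := by
        have h3 : eu (2 * φ) * eu α = Complex.exp (2 * (π * (2 * φ + α)) * Complex.I) := by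
          unfold eu
          rw [← Complex.exp_add]
          congr 1
          push_cast
          ring
        have h4 : eu (-(2 * φ)) * eu (-α) = Complex.exp (-(2 * (π * (2 * φ + α))) * Complex.I) := by
          unfold eu
          rw [← Complex.exp_add]
          congr 1
          push_cast
          ring
        push_cast
        rw [Complex.cos]
        linear_combination (r : ℂ) * h3 + (r : ℂ) * h4
      rw [add_assoc, h2, Real.cos_two_mul, mul_pow, Real.sq_sqrt hr0]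
      have h5 : (cc g : ℂ) = 2 * r - 1 := by
        rw [hr]
        push_cast
        ring
      rw [h5]
      push_cast
      ring
    obtain ⟨G, hG⟩ : ∃ G : ℝ → ℝ, G = fun ψ =>
        (Polynomial.Chebyshev.U ℝ (2 * (n : ℤ))).eval (√r * Real.cos (π * ψ)) := ⟨_, rfl⟩
    have hGc : Continuous G := by
      rw [hG]
      exact (Polynomial.Chebyshev.U ℝ (2 * (n : ℤ))).continuous.comp
        (continuous_const.mul (Real.continuous_cos.comp (continuous_const.mul continuous_id)))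
    have hGp : ∀ x, G (x + 1) = G x := by
      intro x
      rw [hG]
      change (Polynomial.Chebyshev.U ℝ (2 * (n : ℤ))).eval (√r * Real.cos (π * (x + 1))) =
        (Polynomial.Chebyshev.U ℝ (2 * (n : ℤ))).eval (√r * Real.cos (π * x))
      have h1 : √r * Real.cos (π * (x + 1)) = -(√r * Real.cos (π * x)) := by
        rw [mul_add, mul_one, Real.cos_add_pi]
        ring
      have h4 := Polynomial.Chebyshev.U_eval_neg (R := ℝ) (2 * n) (√r * Real.cos (π * x))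
      have h5 : (((2 * n : ℕ) : ℤ)) = 2 * (n : ℤ) := by push_cast; ring
      rw [h5, Int.negOnePow_two_mul] at h4
      rw [h1, h4]
      simp
    have hval : ∀ φ : ℝ, χ i (g * tt H Hc fun _ => φ) = ((G (2 * φ + α) : ℝ) : ℂ) := by
      intro φ
      have h1 := val_odd hR hL hF hT hS hP hC hf n hl (g * tt H Hc fun _ => φ)
        (√r * Real.cos (π * (2 * φ + α))) (hTA φ)
      rw [h1, hG]
    simp only [hval]
    have h2 := int_odd (G := fun x => ((G x : ℝ) : ℂ)) (Complex.continuous_ofReal.comp hGc)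
      (fun x => by rw [hGp]) α
    rw [h2, intervalIntegral.integral_ofReal]
    have h3 := hLGA n r hr0 hr1
    rw [hG, h3]
    congr 2
    rw [hr]
    ring
  · -- even `l`
    have hl : lw i = 2 * ((n : ℤ) + 1) := by
      rw [hlw, hn]
      push_cast
      ring
    have hl1 : ¬ lw i % 2 = 1 := by omega
    rw [if_neg hl1]
    exact int_even hcont fun x => neg_half hR hL hF hT hS hP hC hf ((n : ℤ) + 1) hl g x

end

end SPH
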