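import Pool.Agent.SPH.StC
import Pool.Agent.STZ3.CLL

/-!
# CLB: the cells, with `h` in a set `Bd` (as `STZ3/CLL.lean`; module of helper5)
-/

set_option autoImplicit false

namespace SPH

open STZ LGR STZ3 MeasureTheory Matrix Filter

open scoped ComplexConjugate Matrix Real Topology Pointwise

noncomputable section

namespace CLB

open CLL

section core

variable {G : Type} [Group G] [TopologicalSpace G] [IsTopologicalGroup G]
  [SecondCountableTopology G] [MeasurableSpace G] [BorelSpace G] {r : ℕ}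

omit [SecondCountableTopology G] in
theorem avg2 {E : Type*} [NormedAddCommGroup E] [NormedSpace ℝ E] [CompleteSpace E] (μ mh : Measure G)
    [μ.IsMulRightInvariant] (ℓ : Measure ℝ) (T : (Fin r → ℝ) → G)
    (tadd : ∀ θ θ', T (θ + θ') = T θ * T θ')
    (tint : ∀ n : Fin r → ℤ, T (fun j => (n j : ℝ)) = 1) (K : ℝ → ℝ → G → G → G → (Fin r → ℝ) → E)
    (hK : ∀ t s h x y θ (n : Fin r → ℤ), K t s h x y (θ + fun j => (n j : ℝ)) = K t s h x y θ)
    (Q : Set (Fin r → ℝ)) (hQ : MeasurableSet Q) (hQ1 : Q ⊆ Set.Icc 0 1) :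
    ∫ φ in Set.Icc (0 : Fin r → ℝ) 1, ∫ t, ∫ s, ∫ h, ∫ g, (∫ θ in Set.Icc (0 : Fin r → ℝ) 1,
        cR Q φ • K t s h (g * T φ) (g * T θ) (θ - φ)) ∂μ ∂mh ∂ℓ ∂ℓ =
      volume.real Q • ∫ t, ∫ s, ∫ h, ∫ g, (∫ θ in Set.Icc (0 : Fin r → ℝ) 1,
        K t s h g (g * T θ) θ) ∂μ ∂mh ∂ℓ ∂ℓ := by
  simp only [integral_smul]
  have e1 : ∀ φ t s h, ∫ g, (∫ θ in Set.Icc (0 : Fin r → ℝ) 1,
      K t s h (g * T φ) (g * T θ) (θ - φ)) ∂μ = ∫ g, (∫ θ in Set.Icc (0 : Fin r → ℝ) 1,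
      K t s h g (g * T θ) θ) ∂μ := fun φ t s h =>
    subst μ T tadd tint (K t s h) (hK t s h) φ
  simp only [e1]
  rw [integral_smul_const]
  congr 1
  unfold cR
  rw [integral_indicator_const _ hQ, measureReal_restrict_apply hQ,
    Set.inter_eq_left.2 hQ1, smul_eq_mul, mul_one]


theorem core2 (μ mh : Measure G) [IsProbabilityMeasure μ] [IsFiniteMeasure mh] [μ.IsMulRightInvariant] (ℓ : Measure ℝ)
    [IsFiniteMeasure ℓ] (T : (Fin r → ℝ) → G) (hT : Continuous T)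
    (tadd : ∀ θ θ', T (θ + θ') = T θ * T θ')
    (tint : ∀ n : Fin r → ℤ, T (fun j => (n j : ℝ)) = 1)
    (ker : ℝ → (Fin r → ℝ) → ℂ) (V W : ℝ → G → G → ℂ) (Q S : Set (Fin r → ℝ)) (η : ℝ)
    (hker : Continuous fun z : ℝ × (Fin r → ℝ) => ker z.1 z.2)
    (kper : ∀ τ θ (n : Fin r → ℤ), ker τ (θ + fun i => (n i : ℝ)) = ker τ θ)
    (kb : ∃ C : ℝ, ∀ τ θ, ‖ker τ θ‖ ≤ C)
    (hV : Continuous fun z : ℝ × G × G => V z.1 z.2.1 z.2.2)
    (hW : Continuous fun z : ℝ × G × G => W z.1 z.2.1 z.2.2)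
    (Vb : ∃ C : ℝ, ∀ t h g, ‖V t h g‖ ≤ C) (Wb : ∃ C : ℝ, ∀ t h g, ‖W t h g‖ ≤ C)
    (hQ : MeasurableSet Q) (hS : MeasurableSet S) (hQ1 : Q ⊆ Set.Icc 0 1) (hS1 : S ⊆ Set.Icc 0 1)
    (hQ0 : 0 < volume.real Q) (hη : 0 ≤ η)
    (hk : ∀ φ ∈ Q, ∀ θ ∈ Set.Icc (0 : Fin r → ℝ) 1, θ ∉ S → ∀ τ, ‖ker τ (θ - φ)‖ ≤ η) :
    ‖∫ t, ∫ s, ∫ h, ∫ g, (∫ θ in Set.Icc (0 : Fin r → ℝ) 1,
        ker (t - s) θ * (V s h g * conj (W t h (g * T θ)))) ∂μ ∂mh ∂ℓ ∂ℓ‖ ≤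
      1 / volume.real Q * ‖∫ h, ∫ g, (∫ t, ∫ s, (∫ φ in Set.Icc (0 : Fin r → ℝ) 1,
        ∫ θ in Set.Icc (0 : Fin r → ℝ) 1, ker (t - s) (θ - φ) *
          (Q.indicator (fun φ => V s h (g * T φ)) φ *
            conj (S.indicator (fun θ => W t h (g * T θ)) θ))) ∂ℓ ∂ℓ) ∂μ ∂mh‖ +
      η * ∫ t, ∫ s, ∫ h, ∫ g, (∫ θ in Set.Icc (0 : Fin r → ℝ) 1,
        ‖V s h g‖ * ‖W t h (g * T θ)‖) ∂μ ∂mh ∂ℓ ∂ℓ := by
  have hνf : IsFiniteMeasure (volume.restrict (Set.Icc (0 : Fin r → ℝ) 1)) :=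
    isFiniteMeasure_restrict.2 isCompact_Icc.measure_lt_top.ne
  set ν : Measure (Fin r → ℝ) := volume.restrict (Set.Icc (0 : Fin r → ℝ) 1) with hν
  set D : Set (Fin r → ℝ) := Set.Icc 0 1 \ S with hD
  have hDm : MeasurableSet D := measurableSet_Icc.diff hS
  -- the basic function
  set B : (Fin r → ℝ) × ℝ × ℝ × G × G × (Fin r → ℝ) → ℂ := fun z =>
    ker (z.2.1 - z.2.2.1) (z.2.2.2.2.2 - z.1) * (V z.2.2.1 z.2.2.2.1 (z.2.2.2.2.1 * T z.1) *
      conj (W z.2.1 z.2.2.2.1 (z.2.2.2.2.1 * T z.2.2.2.2.2))) with hB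
  have c1 : Continuous fun z : (Fin r → ℝ) × ℝ × ℝ × G × G × (Fin r → ℝ) =>
      V z.2.2.1 z.2.2.2.1 (z.2.2.2.2.1 * T z.1) :=
    hV.comp (f := fun z : (Fin r → ℝ) × ℝ × ℝ × G × G × (Fin r → ℝ) =>
      (z.2.2.1, z.2.2.2.1, z.2.2.2.2.1 * T z.1)) (by fun_prop)
  have c2 : Continuous fun z : (Fin r → ℝ) × ℝ × ℝ × G × G × (Fin r → ℝ) =>
      W z.2.1 z.2.2.2.1 (z.2.2.2.2.1 * T z.2.2.2.2.2) :=
    hW.comp (f := fun z : (Fin r → ℝ) × ℝ × ℝ × G × G × (Fin r → ℝ) =>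
      (z.2.1, z.2.2.2.1, z.2.2.2.2.1 * T z.2.2.2.2.2)) (by fun_prop)
  have c3 : Continuous fun z : (Fin r → ℝ) × ℝ × ℝ × G × G × (Fin r → ℝ) =>
      ker (z.2.1 - z.2.2.1) (z.2.2.2.2.2 - z.1) :=
    hker.comp (f := fun z : (Fin r → ℝ) × ℝ × ℝ × G × G × (Fin r → ℝ) =>
      (z.2.1 - z.2.2.1, z.2.2.2.2.2 - z.1)) (by fun_prop)
  obtain ⟨Ck, hCk⟩ := kb
  obtain ⟨CV, hCV⟩ := Vb
  obtain ⟨CW, hCW⟩ := Wb
  have hBM : BM B := by
    refine ⟨(c3.mul (c1.mul (Complex.continuous_conj.comp c2))).stronglyMeasurable,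
      |Ck| * (|CV| * |CW|), fun z => ?_⟩
    simp only [hB, norm_mul, RCLike.norm_conj]
    exact mul_le_mul ((hCk _ _).trans (le_abs_self _))
      (mul_le_mul ((hCV _ _ _).trans (le_abs_self _)) ((hCW _ _ _).trans (le_abs_self _))
        (norm_nonneg _) (abs_nonneg _)) (by positivity) (abs_nonneg _)
  set FQ : Set (Fin r → ℝ) → (Fin r → ℝ) × ℝ × ℝ × G × G × (Fin r → ℝ) → ℂ := fun A z =>
    cR Q z.1 • (cR A z.2.2.2.2.2 • B z) with hFQ
  have hFm : ∀ A : Set (Fin r → ℝ), MeasurableSet A → BM (FQ A) := fun A hA =>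
    ((bm_cR hQ).comp (g := fun z : (Fin r → ℝ) × ℝ × ℝ × G × G × (Fin r → ℝ) => z.1)
      (by fun_prop)).smul (((bm_cR hA).comp
      (g := fun z : (Fin r → ℝ) × ℝ × ℝ × G × G × (Fin r → ℝ) => z.2.2.2.2.2)
      (by fun_prop)).smul hBM)
  set P := ν.prod (ℓ.prod (ℓ.prod (mh.prod (μ.prod ν)))) with hP
  -- the whole integral
  set TXv : ℂ := ∫ t, ∫ s, ∫ h, ∫ g, (∫ θ, ker (t - s) θ * (V s h g * conj (W t h (g * T θ)))
    ∂ν) ∂μ ∂mh ∂ℓ ∂ℓ with hTX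
  have s1 : ∫ z, FQ (Set.Icc 0 1) z ∂P = volume.real Q • TXv := by
    rw [hP, iter6 ν ℓ ℓ mh μ ν (hFm _ measurableSet_Icc), hTX,
      ← avg2 μ mh ℓ T tadd tint (fun t s h x y θ => ker (t - s) θ * (V s h x * conj (W t h y)))
      (fun t s h x y θ n => by rw [kper]) Q hQ hQ1]
    refine integral_congr_ae (Eventually.of_forall fun φ => ?_)
    refine integral_congr_ae (Eventually.of_forall fun t => ?_)
    refine integral_congr_ae (Eventually.of_forall fun s => ?_)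
    refine integral_congr_ae (Eventually.of_forall fun h => ?_)
    refine integral_congr_ae (Eventually.of_forall fun g => ?_)
    refine setIntegral_congr_fun measurableSet_Icc fun θ hθ => ?_
    simp only [hFQ, hB]
    rw [show cR (Set.Icc (0 : Fin r → ℝ) 1) θ = 1 from Set.indicator_of_mem hθ _, one_smul]
  -- the cell
  have s2 : ∫ z, FQ S z ∂P = ∫ h, ∫ g, (∫ t, ∫ s, ∫ φ, ∫ θ, ker (t - s) (θ - φ) *
          (Q.indicator (fun φ => V s h (g * T φ)) φ *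
            conj (S.indicator (fun θ => W t h (g * T θ)) θ)) ∂ν ∂ν ∂ℓ ∂ℓ) ∂μ ∂mh := by
    rw [hP, iter6 ν ℓ ℓ mh μ ν (hFm _ hS), reord ν ℓ ℓ mh μ ν (hFm _ hS)]
    refine integral_congr_ae (Eventually.of_forall fun h => ?_)
    refine integral_congr_ae (Eventually.of_forall fun g => ?_)
    refine integral_congr_ae (Eventually.of_forall fun t => ?_)
    refine integral_congr_ae (Eventually.of_forall fun s => ?_)
    refine integral_congr_ae (Eventually.of_forall fun φ => ?_)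
    refine integral_congr_ae (Eventually.of_forall fun θ => ?_)
    simp only [hFQ, hB, cR]
    by_cases h1 : φ ∈ Q
    · by_cases h2 : θ ∈ S
      · simp only [Set.indicator_of_mem h1, Set.indicator_of_mem h2, one_smul]
      · simp only [Set.indicator_of_notMem h2, zero_smul, smul_zero, map_zero, mul_zero]
    · simp only [Set.indicator_of_notMem h1, zero_smul, zero_mul, mul_zero]
  -- the rest
  set R : ℝ := ∫ t, ∫ s, ∫ h, ∫ g, (∫ θ, ‖V s h g‖ * ‖W t h (g * T θ)‖ ∂ν) ∂μ ∂mh ∂ℓ ∂ℓ with hR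
  have s3 : ‖∫ z, FQ D z ∂P‖ ≤ volume.real Q * (η * R) := by
    set K : (Fin r → ℝ) × ℝ × ℝ × G × G × (Fin r → ℝ) → ℝ := fun z =>
      cR Q z.1 • (η * (‖V z.2.2.1 z.2.2.2.1 (z.2.2.2.2.1 * T z.1)‖ *
        ‖W z.2.1 z.2.2.2.1 (z.2.2.2.2.1 * T z.2.2.2.2.2)‖)) with hK
    have hKm : BM K := by
      refine BM.smul ((bm_cR hQ).comp
        (g := fun z : (Fin r → ℝ) × ℝ × ℝ × G × G × (Fin r → ℝ) => z.1) (by fun_prop)) ?_
      refine ⟨(continuous_const.mul (c1.norm.mul c2.norm)).stronglyMeasurable,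
        η * (|CV| * |CW|), fun z => ?_⟩
      rw [Real.norm_of_nonneg (by positivity)]
      exact mul_le_mul_of_nonneg_left (mul_le_mul ((hCV _ _ _).trans (le_abs_self _))
        ((hCW _ _ _).trans (le_abs_self _)) (norm_nonneg _) (abs_nonneg _)) hη
    have h1 : ‖∫ z, FQ D z ∂P‖ ≤ ∫ z, K z ∂P := by
      refine norm_integral_le_of_norm_le (hKm.integrable _) (Eventually.of_forall fun z => ?_)
      simp only [hFQ, hK, norm_smul, smul_eq_mul, Real.norm_of_nonneg (cR_nonneg _ _)]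
      by_cases h1 : z.1 ∈ Q
      · refine mul_le_mul_of_nonneg_left ?_ (cR_nonneg _ _)
        by_cases h2 : z.2.2.2.2.2 ∈ D
        · rw [show cR D z.2.2.2.2.2 = 1 from Set.indicator_of_mem h2 _, one_mul]
          simp only [hB, norm_mul, RCLike.norm_conj]
          exact mul_le_mul_of_nonneg_right (hk _ h1 _ h2.1 h2.2 _) (by positivity)
        · rw [show cR D z.2.2.2.2.2 = 0 from Set.indicator_of_notMem h2 _, zero_mul]
          positivity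
      · rw [show cR Q z.1 = 0 from Set.indicator_of_notMem h1 _, zero_mul, zero_mul]
    refine h1.trans (le_of_eq ?_)
    have h2 := avg2 μ mh ℓ T tadd tint (fun t s h x y θ => η * (‖V s h x‖ * ‖W t h y‖))
      (fun t s h x y θ n => rfl) Q hQ hQ1
    rw [hP, iter6 ν ℓ ℓ mh μ ν hKm]
    refine h2.trans ?_
    rw [hR]
    simp only [integral_const_mul, smul_eq_mul, hν]
  have s4 : ∫ z, FQ (Set.Icc 0 1) z ∂P = ∫ z, FQ S z ∂P + ∫ z, FQ D z ∂P := by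
    rw [← integral_add ((hFm _ hS).integrable _) ((hFm _ hDm).integrable _)]
    refine integral_congr_ae (Eventually.of_forall fun z => ?_)
    simp only [hFQ]
    rw [← smul_add, ← add_smul]
    congr 2
    unfold cR
    by_cases h1 : z.2.2.2.2.2 ∈ S
    · have h2 : z.2.2.2.2.2 ∉ D := fun h => h.2 h1
      rw [Set.indicator_of_mem h1, Set.indicator_of_notMem h2, Set.indicator_of_mem (hS1 h1), add_zero]
    · by_cases h3 : z.2.2.2.2.2 ∈ Set.Icc (0 : Fin r → ℝ) 1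
      · have h2 : z.2.2.2.2.2 ∈ D := ⟨h3, h1⟩
        rw [Set.indicator_of_notMem h1, Set.indicator_of_mem h2, Set.indicator_of_mem h3, zero_add]
      · have h2 : z.2.2.2.2.2 ∉ D := fun h => h3 h.1
        rw [Set.indicator_of_notMem h1, Set.indicator_of_notMem h2, Set.indicator_of_notMem h3, zero_add]
  rw [← s2]
  have h5 : volume.real Q * ‖TXv‖ ≤ ‖∫ z, FQ S z ∂P‖ + volume.real Q * (η * R) := by
    have h6 : ‖volume.real Q • TXv‖ = volume.real Q * ‖TXv‖ := by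
      rw [norm_smul, Real.norm_of_nonneg hQ0.le]
    rw [← h6, ← s1, s4]
    exact (norm_add_le _ _).trans (by linarith)
  have h7 : ‖TXv‖ = 1 / volume.real Q * (volume.real Q * ‖TXv‖) := by
    field_simp
  rw [h7]
  calc 1 / volume.real Q * (volume.real Q * ‖TXv‖) ≤
      1 / volume.real Q * (‖∫ z, FQ S z ∂P‖ + volume.real Q * (η * R)) :=
        mul_le_mul_of_nonneg_left h5 (by positivity)
    _ = _ := by field_simp


end core

end CLB

open CLL CLB in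
theorem t_CLB : M_CLB := by
  intro hHAAR hPSF N H Φ B Hc E c k hCX μ _ _ ker V W Bd Q S η hker kper hV hW hBd hQ hS hQ1 hS1
    hQ0 hη hk
  have hcl := hCX.closed
  have hcs : CompactSpace H := isCompact_iff_compactSpace.1 hcl.isCompact
  have hsec : SecondCountableTopology H :=
    inferInstanceAs (SecondCountableTopology ((H : Set (SU N)) : Type))
  obtain ⟨hR, -, -⟩ := hHAAR H μ
  obtain ⟨CP, hCP, P⟩ := hPSF N H 1 Φ B Hc E c k 3 hCX
  have hℓ : IsFiniteMeasure (volume.restrict (Set.Ioc (0 : ℝ) 1)) :=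
    isFiniteMeasure_restrict.2 (by simp)
  have hmain := core2 μ (μ.restrict Bd) (volume.restrict (Set.Ioc (0 : ℝ) 1)) (tt H Hc) P.tcont
    P.tadd P.tint
    (fun τ θ => ker (max (-1) (min 1 τ)) θ) (fun t h g => V (max 0 (min 1 t)) h g)
    (fun t h g => W (max 0 (min 1 t)) h g) Q S η
    (hker.comp (f := fun z : ℝ × (Fin 1 → ℝ) => (max (-1) (min 1 z.1), z.2)) (by fun_prop))
    (fun τ θ n => kper _ _ _) (bdk ker hker kper)
    (Continuous.comp hV (f := fun z : ℝ × H × H => (max 0 (min 1 z.1), z.2.1, z.2.2)) (by fun_prop))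
    (Continuous.comp hW (f := fun z : ℝ × H × H => (max 0 (min 1 z.1), z.2.1, z.2.2)) (by fun_prop))
    (bdV V hV) (bdV W hW) hQ hS hQ1 hS1 hQ0 hη (fun φ hφ θ hθ hθS τ => hk φ hφ θ hθ hθS _)
  have e0 : ∀ t ∈ Set.Ioc (0 : ℝ) 1, max 0 (min 1 t) = t := fun t ht => by
    rw [min_eq_right ht.2, max_eq_right ht.1.le]
  have e1 : ∀ t ∈ Set.Ioc (0 : ℝ) 1, ∀ s ∈ Set.Ioc (0 : ℝ) 1, max (-1) (min 1 (t - s)) = t - s :=
    fun t ht s hs => by
      rw [min_eq_right (by linarith [ht.2, hs.1]), max_eq_right (by linarith [ht.1, hs.2])]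
  have f1 : (∫ t in Set.Ioc (0 : ℝ) 1, ∫ s in Set.Ioc (0 : ℝ) 1, ∫ h in Bd, ∫ g,
      (∫ θ in Set.Icc (0 : Fin 1 → ℝ) 1, ker (max (-1) (min 1 (t - s))) θ *
        (V (max 0 (min 1 s)) h g * conj (W (max 0 (min 1 t)) h (g * tt H Hc θ)))) ∂μ ∂μ) =
      TB Hc μ ker Bd V W := by
    unfold TB
    simp only [intervalIntegral.integral_of_le zero_le_one]
    refine setIntegral_congr_fun measurableSet_Ioc fun t ht => ?_
    refine setIntegral_congr_fun measurableSet_Ioc fun s hs => ?_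
    simp only [e0 t ht, e0 s hs, e1 t ht s hs]
  have f2 : (∫ h in Bd, ∫ g, (∫ t in Set.Ioc (0 : ℝ) 1, ∫ s in Set.Ioc (0 : ℝ) 1,
      (∫ φ in Set.Icc (0 : Fin 1 → ℝ) 1, ∫ θ in Set.Icc (0 : Fin 1 → ℝ) 1,
        ker (max (-1) (min 1 (t - s))) (θ - φ) *
          (Q.indicator (fun φ => V (max 0 (min 1 s)) h (g * tt H Hc φ)) φ *
            conj (S.indicator (fun θ => W (max 0 (min 1 t)) h (g * tt H Hc θ)) θ)))) ∂μ ∂μ) =
      ∫ h in Bd, ∫ g, (∫ t in (0 : ℝ)..1, ∫ s in (0 : ℝ)..1,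
        ∫ φ in Set.Icc (0 : Fin 1 → ℝ) 1, ∫ θ in Set.Icc (0 : Fin 1 → ℝ) 1,
          ker (t - s) (θ - φ) * (uq Hc Q V h g s φ * conj (uq Hc S W h g t θ))) ∂μ ∂μ := by
    simp only [intervalIntegral.integral_of_le zero_le_one]
    refine integral_congr_ae (Eventually.of_forall fun h => ?_)
    refine integral_congr_ae (Eventually.of_forall fun g => ?_)
    refine setIntegral_congr_fun measurableSet_Ioc fun t ht => ?_
    refine setIntegral_congr_fun measurableSet_Ioc fun s hs => ?_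
    simp only [e0 t ht, e0 s hs, e1 t ht s hs, uq]
  -- the rest: the integral over `Bd` is at most the integral over `H`
  have hℓ1 : (volume.restrict (Set.Ioc (0 : ℝ) 1)).real Set.univ = 1 := by simp
  obtain ⟨CV, hCV⟩ := bdV V hV
  obtain ⟨CW, hCW⟩ := bdV W hW
  set ν : Measure (Fin 1 → ℝ) := volume.restrict (Set.Icc (0 : Fin 1 → ℝ) 1) with hν
  have hνf : IsFiniteMeasure ν := isFiniteMeasure_restrict.2 isCompact_Icc.measure_lt_top.ne
  have hF : BM fun z : (ℝ × ℝ × H × H) × (Fin 1 → ℝ) =>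
      ‖V (max 0 (min 1 z.1.2.1)) z.1.2.2.1 z.1.2.2.2‖ *
        ‖W (max 0 (min 1 z.1.1)) z.1.2.2.1 (z.1.2.2.2 * tt H Hc z.2)‖ := by
    have c1 : Continuous fun z : (ℝ × ℝ × H × H) × (Fin 1 → ℝ) =>
        V (max 0 (min 1 z.1.2.1)) z.1.2.2.1 z.1.2.2.2 :=
      Continuous.comp hV (f := fun z : (ℝ × ℝ × H × H) × (Fin 1 → ℝ) =>
        (max 0 (min 1 z.1.2.1), z.1.2.2.1, z.1.2.2.2)) (by fun_prop)
    have c2 : Continuous fun z : (ℝ × ℝ × H × H) × (Fin 1 → ℝ) =>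
        W (max 0 (min 1 z.1.1)) z.1.2.2.1 (z.1.2.2.2 * tt H Hc z.2) := by
      have hT := P.tcont
      exact Continuous.comp hW (f := fun z : (ℝ × ℝ × H × H) × (Fin 1 → ℝ) =>
        (max 0 (min 1 z.1.1), z.1.2.2.1, z.1.2.2.2 * tt H Hc z.2)) (by fun_prop)
    refine ⟨(c1.norm.mul c2.norm).stronglyMeasurable, |CV| * |CW|, fun z => ?_⟩
    rw [Real.norm_of_nonneg (by positivity)]
    exact mul_le_mul ((hCV _ _ _).trans (le_abs_self _)) ((hCW _ _ _).trans (le_abs_self _))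
      (norm_nonneg _) (abs_nonneg _)
  have f3 : (∫ t in Set.Ioc (0 : ℝ) 1, ∫ s in Set.Ioc (0 : ℝ) 1, ∫ h in Bd, ∫ g,
      (∫ θ in Set.Icc (0 : Fin 1 → ℝ) 1,
        ‖V (max 0 (min 1 s)) h g‖ * ‖W (max 0 (min 1 t)) h (g * tt H Hc θ)‖) ∂μ ∂μ) ≤
      ∫ t in Set.Ioc (0 : ℝ) 1, ∫ s in Set.Ioc (0 : ℝ) 1, ∫ h, ∫ g,
      (∫ θ in Set.Icc (0 : Fin 1 → ℝ) 1,
        ‖V (max 0 (min 1 s)) h g‖ * ‖W (max 0 (min 1 t)) h (g * tt H Hc θ)‖) ∂μ ∂μ := by
    have g1 : BM fun z : ℝ × ℝ × H × H => ∫ θ, ‖V (max 0 (min 1 z.2.1)) z.2.2.1 z.2.2.2‖ *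
        ‖W (max 0 (min 1 z.1)) z.2.2.1 (z.2.2.2 * tt H Hc θ)‖ ∂ν := hF.int ν
    have g2 : BM fun z : ℝ × ℝ × H => ∫ g, (∫ θ, ‖V (max 0 (min 1 z.2.1)) z.2.2 g‖ *
        ‖W (max 0 (min 1 z.1)) z.2.2 (g * tt H Hc θ)‖ ∂ν) ∂μ :=
      (g1.comp (g := fun z : (ℝ × ℝ × H) × H => (z.1.1, z.1.2.1, z.1.2.2, z.2)) (by fun_prop)).int μ
    have g3 : ∀ m : Measure H, IsFiniteMeasure m → BM fun z : ℝ × ℝ => ∫ h, (∫ g, (∫ θ,
        ‖V (max 0 (min 1 z.2)) h g‖ * ‖W (max 0 (min 1 z.1)) h (g * tt H Hc θ)‖ ∂ν) ∂μ) ∂m :=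
      fun m _ => (g2.comp (g := fun z : (ℝ × ℝ) × H => (z.1.1, z.1.2, z.2)) (by fun_prop)).int m
    have g4 : ∀ m : Measure H, IsFiniteMeasure m → BM fun t : ℝ => ∫ s in Set.Ioc (0 : ℝ) 1, (∫ h,
        (∫ g, (∫ θ, ‖V (max 0 (min 1 s)) h g‖ * ‖W (max 0 (min 1 t)) h (g * tt H Hc θ)‖ ∂ν) ∂μ) ∂m) :=
      fun m hm => (g3 m hm).int _
    refine integral_mono ((g4 _ inferInstance).integrable _) ((g4 _ inferInstance).integrable _)
      fun t => ?_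
    refine integral_mono (((g3 _ inferInstance).comp (g := fun s : ℝ => (t, s))
      (by fun_prop)).integrable _) (((g3 _ inferInstance).comp (g := fun s : ℝ => (t, s))
      (by fun_prop)).integrable _) fun s => ?_
    refine setIntegral_le_integral ((g2.comp (g := fun h : H => (t, s, h))
      (by fun_prop)).integrable _) (Eventually.of_forall fun h => ?_)
    exact integral_nonneg fun g => integral_nonneg fun θ => by positivity
  have f4 : (∫ t in Set.Ioc (0 : ℝ) 1, ∫ s in Set.Ioc (0 : ℝ) 1, ∫ h, ∫ g,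
      (∫ θ in Set.Icc (0 : Fin 1 → ℝ) 1,
        ‖V (max 0 (min 1 s)) h g‖ * ‖W (max 0 (min 1 t)) h (g * tt H Hc θ)‖) ∂μ ∂μ) =
      ∫ t in (0 : ℝ)..1, ∫ s in (0 : ℝ)..1, ∫ h, ∫ g, (∫ θ in Set.Icc (0 : Fin 1 → ℝ) 1,
        ‖V s h g‖ * ‖W t h (g * tt H Hc θ)‖) ∂μ ∂μ := by
    simp only [intervalIntegral.integral_of_le zero_le_one]
    refine setIntegral_congr_fun measurableSet_Ioc fun t ht => ?_
    refine setIntegral_congr_fun measurableSet_Ioc fun s hs => ?_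
    simp only [e0 t ht, e0 s hs]
  rw [← f1, ← f2, ← f4]
  refine hmain.trans (add_le_add le_rfl ?_)
  exact mul_le_mul_of_nonneg_left f3 hη

end

end SPH
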