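import Pool.Agent.SPH.StE
import Pool.Agent.STZ3.CNT

/-!
# Module CNS: counting (helper92), adapted from STZ3/CNT.lean
-/

set_option autoImplicit false

namespace SPH

open STZ LGR STZ3 MeasureTheory Matrix Filter

open scoped ComplexConjugate Matrix Real Topology

noncomputable section

theorem t_CNS : M_CNS := by
  intro hENT hSPS s hs1 hs2
  have hs0 : 0 < s := by linarith
  set θ₀ : ℝ := 2 * (s - 1) / s with hθ₀
  have h00 : 0 ≤ θ₀ := div_nonneg (by linarith) hs0.le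
  have h01 : θ₀ < 1 / 2 := by
    rw [hθ₀, div_lt_iff₀ hs0]
    linarith
  set θ : ℝ := (θ₀ + 1 / 2) / 2 with hθ
  have hθ0 : 0 < θ := by linarith
  have hθ1 : θ₀ < θ := by linarith
  have hθ2 : θ < 1 / 2 := by linarith
  have hd : 0 < θ * s / 2 - (s - 1) := by
    rw [hθ₀, div_lt_iff₀ hs0] at hθ1
    linarith
  obtain ⟨k₀, hk₀⟩ := exists_nat_gt (θ * s / (4 * (θ * s / 2 - (s - 1))))
  have h4d : 0 < 4 * (θ * s / 2 - (s - 1)) := by linarith
  rw [div_lt_iff₀ h4d] at hk₀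
  obtain ⟨k, hk⟩ : ∃ k : ℕ, k = k₀ + 1 := ⟨_, rfl⟩
  have hk1 : 1 ≤ k := by omega
  have hkr : (1 : ℝ) ≤ k := by exact_mod_cast hk1
  have hkk : (k : ℝ) = k₀ + 1 := by
    rw [hk]
    push_cast
    ring
  have hk0 : (0 : ℝ) < 2 * k := by linarith
  have hcond : (s - 1) * (1 - θ) < θ * (1 - s / 2 - s / (4 * k)) := by
    have h1 : θ * s < k * (4 * (θ * s / 2 - (s - 1))) := by
      rw [hkk]
      nlinarith
    have h2 : θ * (s / (4 * k)) < θ * s / 2 - (s - 1) := by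
      rw [← mul_div_assoc, div_lt_iff₀ (by linarith)]
      linarith
    nlinarith
  have hε : 0 < 2 * (k : ℝ) * (1 / (2 * θ) - 1) := by
    have h1 : 1 < 1 / (2 * θ) := by
      rw [lt_div_iff₀ (by linarith)]
      linarith
    exact mul_pos hk0 (by linarith)
  obtain ⟨K, C1, hC1, h1⟩ := hENT (2 * k) (2 * k * (1 / (2 * θ) - 1)) (by omega) hε
  obtain ⟨C2, hC2, h2⟩ := hSPS k s θ hk1 hs1 hθ0 (by linarith) hcond
  refine ⟨max K (2 * k), C2 * (C1 ^ (1 / (2 * (k : ℝ)))) ^ θ, le_trans (by omega) (le_max_right _ _),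
    by positivity, ?_⟩
  intro R L hR hL F hF
  have hR' : (1 : ℝ) ≤ R := by exact_mod_cast hR
  have hR0 : (0 : ℝ) ≤ R := by linarith
  have hL' : K * R ^ (2 * k) ≤ L :=
    le_trans (Nat.mul_le_mul (le_max_left _ _) (Nat.pow_le_pow_right hR (le_max_right _ _))) hL
  have hB := h1 R L hR hL'
  have hM1 : ∀ i j, 0 ≤ cM R L i j ∧ cM R L i j ≤ 1 := by
    intro i j
    refine ⟨CNT.nonneg R L i j, ?_⟩
    simp only [cM, Matrix.of_apply]
    split_ifs <;> norm_num
  have h3 := h2 L (cM R L) (C1 * (R : ℝ) ^ (((2 * k : ℕ) : ℝ) + 2 * k * (1 / (2 * θ) - 1)))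
    (CNT.symm R L) hM1 (by positivity)
    (fun i j => by rw [abs_of_nonneg (CNT.pow_nonneg R L _ i j)]; exact hB i j) F hF
  refine (le_abs_self _).trans (h3.trans (le_of_eq ?_))
  congr 1
  rw [Real.mul_rpow hC1 (by positivity), ← Real.rpow_mul hR0, Real.mul_rpow (by positivity)
    (by positivity), ← Real.rpow_mul hR0, ← mul_assoc]
  congr 2
  push_cast
  field_simp
  ring

end

end SPH
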