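import Pool.Agent.STZ3.StF
import Mathlib.RingTheory.Polynomial.Chebyshev

/-!
# The sphere S²: root data of rank one, the sphere, Legendre polynomials (sections 1, 2 of `PAPER.md`)

Module `X` proves `theorem t_X : M_X` (or `t_X : S_X` if there is no `M_X`) in the file `Pool/Agent/SPH/X.lean`, namespace `SPH`. Import this file (and Mathlib), not the proofs of the other modules; the hypotheses `S_...` of
`M_X` are the facts which may be used. `H` is a closed connected subgroup of `SU(N)` of rank one and dimension `3` (`CX H Φ B Hc E c k 3` with `r = 1`). Elements of `H`: `g.1 ∈ SU N`, `g.1.1` is the matrix.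
-/

namespace SPH

open STZ LGR STZ3 MeasureTheory Matrix Filter

open scoped ComplexConjugate Matrix Real Topology

noncomputable section

/-! ### root data of rank one -/

/-- facts about root data of rank one: the weights are the integers `l 0`, the simple root is `2`, the coroot is `1` -/
structure R1F (Φ : RT 1) : Prop where
  pos : pos Φ = {((fun _ => 2), fun _ => 1)}
  q : ∀ l, (rd Φ).Q l = l 0 ^ 2
  e : (rd Φ).e = 2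
  at' : ∀ (l : Fin 1 → ℤ) (θ : Fin 1 → ℝ), AT (rd Φ) l θ = eu (l 0 * θ 0) - eu (-(l 0 * θ 0))
  wa : ∀ (nf : (Fin 1 → ℤ) → ℂ) (l : Fin 1 → ℤ), wa Φ nf l = (nf l + nf (-l)) / 2
  lm : ∀ (ϑ : ℝ) (nf : (Fin 1 → ℤ) → ℂ) (l : Fin 1 → ℤ), lm Φ ϑ nf l =
    (((Real.exp (4 * ϑ * l 0) * (l 0 + 1) : ℝ) : ℂ) * nf (l + 1) -
      ((Real.exp (-(4 * ϑ * l 0)) * (l 0 - 1) : ℝ) : ℂ) * nf (l - 1)) / 2
  cq : ∀ l m : Fin 1 → ℤ, cq Φ l m = (l 0 : ℝ) ^ 2 - 1 - (m 0 : ℝ) ^ 2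

/-- RNK. `(B 0, Pi.single 0 1) ∈ Φ` (`base`), so `B 0 0 = 2` (`two`). In `ℤ^1` all vectors are proportional: for `p ∈ Φ` `(p.2 0) • (Pi.single 0 1) = 1 • p.2` and `p.2 0 ≠ 0`, so `p = ± (B 0, 1)` by `red`; both are in `Φ` (`WFF.neg`), and `pos Φ = {(B 0, 1)}`.
`WM Φ` is generated by `rf (B 0, 1) = rf (-B 0, -1) = -1`, so `WF Φ = {1, -1}` (`WFF.mem`), `det 1 = 1`, `det (-1) = -1`. `(rd Φ).A 0 0 = 2`, `ip x y = 2 x 0 y 0`, `dR l = l 0`, `w *ᵥ 1 = ± 1`. -/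
def S_RNK : Prop := ∀ (Φ : RT 1) (B : Matrix (Fin 1) (Fin 1) ℤ), IRD Φ B → WFF Φ B → R1F Φ

/-- the label of a representation: its dimension -/
def lw {N : ℕ} {Hc : Fin 1 → MT N} (i : IX Hc) : ℤ := wG i.1 0

/-- functions which are invariant under the right translations by the torus (functions on the sphere) -/
def TI {N : ℕ} {H : Subgroup (SU N)} (Hc : Fin 1 → MT N) {α : Type} (f : H → α) : Prop :=
  ∀ (g : H) (θ : Fin 1 → ℝ), f (g * tt H Hc θ) = f g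

/-! ### the sphere -/

/-- facts about the coordinates `cc g ∈ ℝ`, `ze g ∈ ℂ` of the point of the unit sphere of `ℝ × ℂ` which belongs to `g`:
`g Hc₀ gᴴ = cc g Hc₀ + ze g E + conj (ze g) Eᴴ`; `w` is an element with `w Hc₀ wᴴ = - Hc₀` -/
structure SPF {N : ℕ} (H : Subgroup (SU N)) (Hc : Fin 1 → MT N) (cc : H → ℝ) (ze : H → ℂ) (w : H) (C : ℝ) : Prop where
  nn : 0 ≤ C
  ccont : Continuous cc
  zcont : Continuous ze
  norm : ∀ g, cc g ^ 2 + ‖ze g‖ ^ 2 = 1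
  one : cc 1 = 1
  cleft : ∀ (g : H) (θ : Fin 1 → ℝ), cc (tt H Hc θ * g) = cc g
  zleft : ∀ (g : H) (θ : Fin 1 → ℝ), ze (tt H Hc θ * g) = eu (2 * θ 0) * ze g
  cright : TI Hc cc
  zright : TI Hc ze
  inner : ∀ x y : H, cc (x⁻¹ * y) = cc x * cc y + (ze x * conj (ze y)).re
  inv : ∀ g : H, cc g⁻¹ = cc g
  clip : ∀ z g : H, |cc (z * g) - cc g| ≤ C * √(ps z)
  zlip : ∀ z g : H, ‖ze (z * g) - ze g‖ ≤ C * √(ps z)
  wcc : ∀ g : H, cc (g * w) = -cc g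
  wtt : ∀ θ : Fin 1 → ℝ, tt H Hc θ * w = w * tt H Hc (-θ)
  wsq : ∃ θ : Fin 1 → ℝ, w * w = tt H Hc θ
  fib : ∀ u v : H, cc u = cc v → ∃ θ θ' : Fin 1 → ℝ, v = tt H Hc θ * u * tt H Hc θ'

/-- SPX. Let `p = ((2), (1)) ∈ Φ` (RNK), `E = E p`, `h = Hc 0 = [E, Eᴴ]` (`LRD.cor`), `[h, E] = 2 E`. `tr (h h) = 2 tr (E Eᴴ)` (`TAF.tp`), `tr (E h) = 0`, `tr (E E) = 0` (`TAF.orth` for `p`, `-p`, as `(E (-p))ᴴ = E p`). `lie H` is spanned over `ℝ` by `i h`, `E - Eᴴ`, `i (E + Eᴴ)` (`LRD.span`), so for `g ∈ H`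
(LIEB: `g X gᴴ ∈ lie H`) `g h gᴴ = cc g h + ze g E + conj (ze g) Eᴴ` with `cc g = tr (h g h gᴴ)/tr (h h)`, `ze g = tr (g h gᴴ Eᴴ)/tr (E Eᴴ)`. `norm`, `inner`: compare `tr ((x h xᴴ)(y h yᴴ)) = tr (h (x⁻¹y) h (x⁻¹y)ᴴ)` with the inner product of the coordinates. `zleft`: `TAF.Ade`. `right`: the torus commutes with `h`.
`clip`, `zlip`: `‖z A zᴴ - A‖ ≤ 2 ‖z - 1‖ ‖A‖`. `w = exp ((π/2)(E - Eᴴ))` (REFH: `w h wᴴ = -h`, `w hx(x) wᴴ = -hx(x)`, so `w⁻¹ tt(θ) w = tt(-θ)`, `cc (g w) = -cc g`). `fib`: first the case `cc g = 1`: then `ze g = 0`, `g` commutes with `h`, and `g E gᴴ = a E` (it is an eigenvector of `ad h` with the eigenvalue `2`,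
and the traces with `h` and `Eᴴ...` show that it has no other components), `|a| = 1`, `a = eu (2 θ)`; `g' = g tt(-θ)` commutes with `h`, `E`, `Eᴴ`, hence with the whole torus and all of `lie H`; by CONJ `g' = h₁ tt(θ') h₁⁻¹` with `h₁ ∈ H`; `g'` acts trivially on `lie H`, so `tt(θ') = h₁⁻¹ g' h₁` acts trivially
on `lie H`, and an element of `H` which commutes with `lie H` commutes with all `exp X`, `X ∈ lie H`; by CONJ every element of `H` is such an exponential, so `tt(θ')` is central and `g' = tt(θ')`. General case: `‖ze u‖ = ‖ze v‖`, choose `θ` with `eu (2 θ) ze u = ze v`; for `u' = tt(θ) u` `inner` gives `cc (u'⁻¹ v) = 1`,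
so `v = u' tt(θ')`. `wsq`: `cc (w w) = 1`. -/
def S_SPX : Prop := ∀ (N : ℕ) (H : Subgroup (SU N)) (Φ : RT 1) (B : Matrix (Fin 1) (Fin 1) ℤ)
  (Hc : Fin 1 → MT N) (E : (Fin 1 → ℤ) × (Fin 1 → ℤ) → MT N) (c k : ℝ), CX H Φ B Hc E c k 3 →
  ∃ (cc : H → ℝ) (ze : H → ℂ) (w : H) (C : ℝ), SPF H Hc cc ze w C ∧
    ∀ g : H, (cc g : ℂ) * (Hc 0 * Hc 0).trace = (Hc 0 * (g.1.1 * Hc 0 * g.1.1ᴴ)).trace

def M_SPX : Prop := S_LIEB → S_WFAC → S_TAUF → S_CONJ → S_REFH → S_PSF → S_RNK → S_SPX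

/-- LAW. The law of `cc` is uniform on `[-1, 1]` (Archimedes). Let `q j = ∫ cc^j`. Odd `j`: `wcc` and the invariance (HAAR: right invariance) give `q j = 0`. `cc` is continuous on the connected group `H` (`CX.conn`), `cc 1 = 1`, `cc w = -1`, so it takes all values `s ∈ [-1, 1]`, and (multiply by `tt θ` on the left) for every real `α` there is `x` with
`cc x = cos α`, `ze x = sin α`. `q j = ∫ cc (x⁻¹ g)^j = ∫ (cos α cc g + sin α Re (ze g))^j` (left invariance, `inner`). Differentiate twice at `α = 0`: `(j - 1) ∫ cc^(j-2) (Re ze)² = ∫ cc^j` for `j ≥ 2`. By the left translations with `tt θ` (average over `θ`) `∫ cc^(j-2) (Re ze)² = (1/2) ∫ cc^(j-2) ‖ze‖² = (1/2)(q (j-2) - q j)`.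
So `(j + 1) q j = (j - 1) q (j-2)`, `q (2i) = 1/(2i + 1)`: these are the moments of the uniform distribution, and finite measures on `[-1, 1]` with the same moments are equal (Weierstrass). -/
def S_LAW : Prop := ∀ (N : ℕ) (H : Subgroup (SU N)) (Φ : RT 1) (B : Matrix (Fin 1) (Fin 1) ℤ)
  (Hc : Fin 1 → MT N) (E : (Fin 1 → ℤ) × (Fin 1 → ℤ) → MT N) (c k : ℝ), CX H Φ B Hc E c k 3 →
  ∀ (cc : H → ℝ) (ze : H → ℂ) (w : H) (C : ℝ), SPF H Hc cc ze w C →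
  ∀ (μ : Measure H) [IsProbabilityMeasure μ] [μ.IsMulLeftInvariant] (f : ℝ → ENNReal), Measurable f →
    ∫⁻ g, f (cc g) ∂μ = ∫⁻ s in Set.Icc (-1 : ℝ) 1, f s / 2

def M_LAW : Prop := S_HAAR → S_PSF → S_LAW

/-! ### Legendre polynomials -/

/-- the Legendre polynomials -/
def LP : ℕ → ℂ → ℂ
  | 0, _ => 1
  | 1, x => x
  | (n + 2), x => ((2 * (n : ℂ) + 3) * x * LP (n + 1) x - ((n : ℂ) + 1) * LP n x) / ((n : ℂ) + 2)

/-- LGA. The average of the Chebyshev polynomials `U (2n)`. Let `V n` be the left side, `x = √a cos (πψ)`. `V 0 = 1`, `V 1 = ∫ (4 x² - 1) = 2a - 1`. Recursion: `(n + 1) V (n+1) - (2n + 1)(2a - 1) V n + n V (n-1) = 0` for `n ≥ 1`. Let `F ψ = T (2n+1) (x) * 4 √a sin (πψ)`; `F 0 = F 1 = 0`. As `T (m+1)' = (m+1) U m` (`Polynomial.Chebyshev`):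
`F' = π [(2n+1) U (2n)(x) (-4 a sin² (πψ)) + 4 x T (2n+1)(x)]`. And `U (2n+2) + U (2n-2) = (4x² - 2) U (2n)`, `U (2n+2) - U (2n-2) = 4 x T (2n+1)`; `4 x² - 2 - 2 (2a - 1) = -4 a sin² (πψ)`. So
`(n+1) U(2n+2) + n U(2n-2) - (2n+1)(2a-1) U(2n) = (n + 1/2)(U(2n+2) + U(2n-2)) + (1/2)(U(2n+2) - U(2n-2)) - (2n+1)(2a-1) U(2n) = (n+1/2)(4x² - 2 - 2(2a-1)) U(2n) + 2 x T(2n+1) = F'/(2π)`. -/
def S_LGA : Prop := ∀ (n : ℕ) (a : ℝ), 0 ≤ a → a ≤ 1 →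
  ((∫ ψ in (0 : ℝ)..1, (Polynomial.Chebyshev.U ℝ (2 * (n : ℤ))).eval (√a * Real.cos (π * ψ)) : ℝ) : ℂ) =
    LP n ((2 * a - 1 : ℝ) : ℂ)

/-- facts about the Legendre polynomials -/
structure LPF : Prop where
  lap : ∀ (n : ℕ) (x s : ℂ), s ^ 2 = x ^ 2 - 1 → LP n x = ∫ φ in (0 : ℝ)..1, (x + s * ((Real.cos (2 * π * φ) : ℝ) : ℂ)) ^ n
  neg : ∀ (n : ℕ) (x : ℂ), LP n (-x) = (-1) ^ n * LP n x
  one : ∀ n : ℕ, LP n 1 = 1
  le : ∀ (n : ℕ) (x : ℝ), |x| ≤ 1 → ‖LP n x‖ ≤ 1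
  real : ∀ (n : ℕ) (x : ℝ), ∃ y : ℝ, LP n x = y
  cosh : ∀ (n : ℕ) (u : ℝ), 0 ≤ u → ‖LP n (Real.cosh u)‖ ≤ Real.exp (n * u)
  d1 : ∀ (n : ℕ) (D : ℝ), ‖LP (n + 1) (Real.cos D) - LP n (Real.cos D)‖ ≤ |D|
  d2 : ∀ (n : ℕ) (D : ℝ), ‖LP (n + 2) (Real.cos D) - 2 * LP (n + 1) (Real.cos D) + LP n (Real.cos D)‖ ≤ D ^ 2

/-- LGB. Laplace's integral. Let `z = x + s cos (2πφ)`, `I n = ∫ z^n`. `z' = -2π s sin (2πφ)`, `(z')² = 4π² (s² - (z - x)²) = 4π² (-1 + 2 x z - z²)`, `z'' = 4π² (x - z)`. `0 = ∫ (z^n z')' = ∫ n z^(n-1) (z')² + z^n z'' = 4π² (-n I (n-1) + (2n+1) x I n - (n+1) I (n+1))`: the recursion of `LP`; `I 0 = 1`, `I 1 = x`. `neg`, `real`, `one`: recursion.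
`le`, `d1`, `d2`: `x = cos D`, `s = i sin D`: `|z|² = cos² D + sin² D cos² ≤ 1`, `|z - 1|² ≤ (1 - cos D)² + sin² D = 2 - 2 cos D ≤ D²`. `cosh`: `s = sinh u`, `|z| ≤ cosh u + sinh u = e^u`. -/
def S_LGB : Prop := LPF

/-- the amplitude of the Legendre functions: `LP n (cos D) = (2/π) Im (e^(i(n+1)D) bL n D)` -/
def bL (n : ℕ) (D : ℝ) : ℂ :=
  ∫ y in Set.Ioi (0 : ℝ), ((Real.exp (-((n + 1) * y)) * (1 - Real.exp (-y)) ^ (-(1 / 2) : ℝ) : ℝ) : ℂ) *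
    (1 - Complex.exp (2 * Complex.I * D - y)) ^ (-(1 / 2) : ℂ)

/-- LGC. Let `I n = e^(i(n+1)D) bL n D`. With `w = e^(iD - y)`: `I n = ∫ w^(n+1) (1 - 2 w cos D + w²)^(-1/2) dy`, `(1 - e^(-y))(1 - e^(2iD - y)) = 1 - 2 w cos D + w²` (`Re (1 - e^(2iD-y)) > 0`, so all powers are principal values). Let `R y = (1 - e^(-y))^(1/2) (1 - e^(2iD-y))^(1/2)`, so `R² = 1 - 2 w cos D + w²`, `dw/dy = -w`,
`d/dy (w^n R) = -n w^n R + w^n (-w)(2w - 2 cos D)/(2R) = -(w^n/R)(n (1 - 2 w cos D + w²) + w² - w cos D) = -(1/R)(n w^n - (2n+1) cos D w^(n+1) + (n+1) w^(n+2))`. Integrate over `(0, ∞)`, `n ≥ 1` (`R = 0` at `y = 0`, `w^n → 0` at `∞`): `n I (n-1) - (2n+1) cos D I n + (n+1) I (n+1) = 0`. For `n = 0` the same computation gives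
(`w^0 R → 1` at `∞`) `1 = ∫ (1/R)(cos D w - w²)`, i.e. `I 1 = cos D I 0 - 1`, so `Im I 1 = cos D Im I 0`. `Im I 0 = π/2`: `I 0 = ∫ w/R dy`, and `d/dy log (w - cos D + i sin D-part ...)`: precisely `d/dy Log (w - cos D + R) = -w/R` on the domain where `w - cos D + R` is not on the cut; at `y = 0` `w - cos D + R = i sin D`, at `y = ∞` it is
`1 - cos D > 0`; so `I 0 = Log (i sin D) - Log (1 - cos D)`, with the imaginary part `π/2` (the path stays in the region `Im > 0` or on the positive axis: check that `Im (w - cos D + R) ≥ 0`; alternatively show that `D ↦ Im I 0` is constant, or use any other proof of `Im I 0 = π/2`; e.g. for `D = π/2` it is `∫ e^(-y) (1 - e^(-2y))^(-1/2) dy = π/2`). -/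
def S_LGC : Prop := ∀ (n : ℕ) (D : ℝ), 0 < D → D < π →
  LP n (Real.cos D) = ((2 / π * (Complex.exp (Complex.I * ((n + 1) * D)) * bL n D).im : ℝ) : ℂ)

/-- LGD. Bounds of the amplitude. `|1 - e^(2iD - y)| ≥ c D` for `0 < D ≤ π/2`, `y ≥ 0` (`|1 - r e^(iα)| ≥ |sin α|` for `α ≤ π/2`, `≥ 1` for `π/2 ≤ α ≤ π`; or `≥ c` for `y ≥ 1`); the differences in `n` multiply the integrand by `e^(-y) - 1`, `|e^(-y) - 1| = 1 - e^(-y)`. So the `j`-th difference is at most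
`C D^(-1/2) ∫ e^(-(n+1)y) (1 - e^(-y))^(j - 1/2) dy ≤ C D^(-1/2) n^(-j-1/2)` (`1 - e^(-y) ≤ y`, and for `j = 0` `1 - e^(-y) ≥ c min y 1`). -/
def S_LGD : Prop := ∃ C : ℝ, 0 ≤ C ∧ ∀ (n : ℕ) (D : ℝ), 1 ≤ n → 0 < D → D ≤ π / 2 →
  ‖bL n D‖ ≤ C * ((n : ℝ) ^ (-(1 / 2) : ℝ) * D ^ (-(1 / 2) : ℝ)) ∧
  ‖bL (n + 1) D - bL n D‖ ≤ C * ((n : ℝ) ^ (-(3 / 2) : ℝ) * D ^ (-(1 / 2) : ℝ)) ∧
  ‖bL (n + 2) D - 2 * bL (n + 1) D + bL n D‖ ≤ C * ((n : ℝ) ^ (-(5 / 2) : ℝ) * D ^ (-(1 / 2) : ℝ))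

/-! ### the kernels of the sphere -/

/-- the kernel of the projection on the functions of the representation `i` which are invariant under the torus -/
def KP {N : ℕ} {H : Subgroup (SU N)} {Hc : Fin 1 → MT N} (χ : IX Hc → H → ℂ) (i : IX Hc) (x y : H) : ℂ :=
  ∫ φ in (0 : ℝ)..1, KK χ i (x * tt H Hc fun _ => φ) y

/-- the representations of a given parity: `lw i = 2n + 1`, `n = e` modulo `2` -/
def PX {N : ℕ} (Hc : Fin 1 → MT N) (e : ℕ) : Type := {i : IX Hc // lw i % 4 = 1 + 2 * (e : ℤ)}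

/-- the kernels for the representations of a given parity -/
def KQ {N : ℕ} {H : Subgroup (SU N)} {Hc : Fin 1 → MT N} (χ : IX Hc → H → ℂ) (e : ℕ) (i : PX Hc e) (x y : H) : ℂ :=
  KP χ i.1 x y

/-- CHT. The average of a character over a coset of the torus. Let `l = lw i`. By CHI and `R1F.at'` `χ i (tt θ) (e(θ) - e(-θ)) = e(lθ) - e(-lθ)`. `l` even: `z = tt (1/2)` commutes with `E` and `Hc` (`TAF.Ade`: `eu (2 · 1/2) = 1`), so with `lie H`, so it is central (CONJ: every element is `exp X`, `X ∈ lie H`), and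
`χ i (h tt(θ) h⁻¹ z) = χ i (tt(θ + 1/2)) = -χ i (tt θ)` (for `θ ∉ ℤ/2`, then by continuity everywhere: CONJ); so the average over `φ` and `φ + 1/2` is `0`. `l = 2n + 1`: let `E = E p`, `g E gᴴ = a E + b Eᴴ + s Hc₀`, `a = tr (g E gᴴ Eᴴ)/tr (E Eᴴ)`, and `g Eᴴ gᴴ = ā Eᴴ + b̄ E + s̄ Hc₀`. As `Hc₀ = [E, Eᴴ]` and `[E, Hc₀]`, `[Eᴴ, Hc₀]` are
multiples of `E`, `Eᴴ`: the `Hc₀` component of `g Hc₀ gᴴ = [g E gᴴ, g Eᴴ gᴴ]` is `cc g = |a|² - |b|²`. Norms: `|a|² + |b|² + 2 |s|² = 1` (`tr (Hc₀ Hc₀) = 2 tr (E Eᴴ)`), `cc² + ‖ze‖² = 1` and (the matrix of `Ad g` in an orthonormal basis is unitary, so the row of `Hc₀` has the norm 1) `cc² + 4 |s|² = 1`.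
So `|a|² = (cc + 1 - (1 - cc²)/2)/2 = ((1 + cc)/2)²`. The trace of `Ad g` is `cc g + 2 Re a`. For `g' = g tt(φ)`: `cc` is the same, `a' = eu (2φ) a`. So `1 + tr Ad (g tt φ) = (1 + cc g)(1 + cos (4πφ + α)) = 2 (1 + cc g) cos² (2πφ + α/2)`. On the torus `1 + tr Ad (tt θ) = 2 + 2 cos (4πθ) = 4 cos² (2πθ)` and
`χ i (tt θ) = sin (2π l θ)/sin (2πθ) = U (2n) (cos (2πθ))`, an even polynomial in `cos (2πθ)`; both sides of: `χ i g = U (2n) (x)` if `4 x² = 1 + tr Ad g`, are class functions, so this holds for all `g` (CONJ; continuity). So the average is `∫ U (2n) (√((1 + cc g)/2) cos (2πφ + α/2)) dφ`, by periodicity and symmetry the left side of LGA for `a = (1 + cc g)/2`. -/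
def S_CHT : Prop := ∀ (N : ℕ) (H : Subgroup (SU N)) (Φ : RT 1) (B : Matrix (Fin 1) (Fin 1) ℤ)
  (Hc : Fin 1 → MT N) (E : (Fin 1 → ℤ) × (Fin 1 → ℤ) → MT N) (c k : ℝ), CX H Φ B Hc E c k 3 →
  ∀ (cc : H → ℝ) (ze : H → ℂ) (w : H) (C : ℝ), SPF H Hc cc ze w C →
  (∀ g : H, (cc g : ℂ) * (Hc 0 * Hc 0).trace = (Hc 0 * (g.1.1 * Hc 0 * g.1.1ᴴ)).trace) →
  ∀ χ : IX Hc → H → ℂ, CHI Φ Hc c k 3 χ → ∀ (i : IX Hc) (g : H),
    ∫ φ in (0 : ℝ)..1, χ i (g * tt H Hc fun _ => φ) = if lw i % 2 = 1 then LP ((lw i).toNat / 2) (cc g) else 0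

def M_CHT : Prop := S_LIEB → S_WFAC → S_TAUF → S_CONJ → S_PSF → S_RNK → S_LGA → S_CHT

/-- facts about the kernels -/
structure KPF {N : ℕ} {H : Subgroup (SU N)} {Hc : Fin 1 → MT N} (χ : IX Hc → H → ℂ) (cc : H → ℝ) (w : H)
    (μ : Measure H) : Prop where
  ker : ∀ e : ℕ, Ker μ (KQ χ e)
  odd : ∀ (i : IX Hc) (x y : H), lw i % 2 = 1 → KP χ i x y = (lw i : ℂ) * LP ((lw i).toNat / 2) (cc (y⁻¹ * x))
  even : ∀ (i : IX Hc) (x y : H), lw i % 2 = 0 → KP χ i x y = 0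
  le : ∀ (i : IX Hc) (x y : H), ‖KP χ i x y‖ ≤ lw i
  inj : ∀ i j : IX Hc, lw i = lw j → i = j
  ge : ∀ i : IX Hc, 1 ≤ lw i
  ti : ∀ (i : IX Hc) (f : H → ℂ), Continuous f → TI Hc f → ∀ x, ∫ y, KP χ i x y * f y ∂μ = ∫ y, KK χ i x y * f y ∂μ
  mem : ∀ (e : ℕ) (i : PX Hc e) (u : H → ℂ), Mem μ (KQ χ e i) u →
    TI Hc u ∧ Mem μ (KK χ i.1) u ∧ ∀ g, u (g * w) = (-1) ^ e * u g
  van : ∀ (e : ℕ) (i : IX Hc) (f : H → ℂ), Continuous f → TI Hc f → (∀ g, f (g * w) = (-1) ^ e * f g) →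
    lw i % 4 ≠ 1 + 2 * (e : ℤ) → e ≤ 1 → ∀ x, ∫ y, KK χ i x y * f y ∂μ = 0

/-- KPR. `KK χ i x y = χ i 1 χ i (x y⁻¹)`, `χ i 1 = lw i` (`HWR.dim`, RNK), `χ i` is a class function, so `KP χ i x y = lw i ∫ χ i (y⁻¹ x tt φ)`: CHT, `|LP| ≤ 1`. `ker`: `KK χ` is a kernel (CHIF, KERI); `KP` is the average of `KK (x tt φ) y = KK x (y tt(-φ))` (class function), so `herm`, `rep`, `orth` follow with the
invariance of `μ` under right translations (HAAR). `ti`: substitute `y ↦ y tt φ`. `mem`: `u x = ∫ KQ x y u y`: `KP (x tt θ) y = KP x y` (periodicity in `φ`); `KP (x w) y = (-1)^n KP x y` by `odd`, `wcc` and `LPF.neg` (`lw i = 2n + 1`); then `ti`. `van`: for `lw i` even use `ti` and `even`; for `lw i = 2n + 1`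
with `(-1)^n ≠ (-1)^e`: `∫ KP x y f y = ∫ KP x (y w) f (y w) = (-1)^n (-1)^e ∫ KP x y f y`, as `cc ((y w)⁻¹ x) = cc (x⁻¹ y w) = -cc (x⁻¹ y)` (`inv`). -/
def S_KPR : Prop := ∀ (N : ℕ) (H : Subgroup (SU N)) (Φ : RT 1) (B : Matrix (Fin 1) (Fin 1) ℤ)
  (Hc : Fin 1 → MT N) (E : (Fin 1 → ℤ) × (Fin 1 → ℤ) → MT N) (c k : ℝ), CX H Φ B Hc E c k 3 →
  ∀ (cc : H → ℝ) (ze : H → ℂ) (w : H) (C : ℝ), SPF H Hc cc ze w C →
  (∀ g : H, (cc g : ℂ) * (Hc 0 * Hc 0).trace = (Hc 0 * (g.1.1 * Hc 0 * g.1.1ᴴ)).trace) →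
  ∀ χ : IX Hc → H → ℂ, CHI Φ Hc c k 3 χ →
  ∀ (μ : Measure H) [IsProbabilityMeasure μ] [μ.IsMulLeftInvariant], KPF χ cc w μ

def M_KPR : Prop := S_HAAR → S_KERI → S_CHIF → S_WFAC → S_TAUF → S_PSF → S_RNK → S_LGB → S_CHT → S_KPR

/-- PRJ. The projection of `G` on the functions with the given parity: `G' t g = (1/2) (A t g + (-1)^e A t (g w))`, `A t g = ∫ φ in 0..1, G t (g tt φ)`. `TI`: periodicity in `φ` (`PSC.tint`, `tadd`), and `g tt(θ) w = g w tt(-θ)` (`wtt`). The parity: `g w w = g tt(θ₀)` (`wsq`). The integrals: right invariance of `μ` (HAAR), Fubini. -/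
def S_PRJ : Prop := ∀ (N : ℕ) (H : Subgroup (SU N)) (Φ : RT 1) (B : Matrix (Fin 1) (Fin 1) ℤ)
  (Hc : Fin 1 → MT N) (E : (Fin 1 → ℤ) × (Fin 1 → ℤ) → MT N) (c k : ℝ), CX H Φ B Hc E c k 3 →
  ∀ (cc : H → ℝ) (ze : H → ℂ) (w : H) (C : ℝ), SPF H Hc cc ze w C →
  ∀ (μ : Measure H) [IsProbabilityMeasure μ] [μ.IsMulLeftInvariant] (e : ℕ) (G : ℝ → H → ℂ), JC G →
  (∀ t x, ‖G t x‖ ≤ 1) → ∃ G' : ℝ → H → ℂ, JC G' ∧ (∀ t x, ‖G' t x‖ ≤ 1) ∧ (∀ t, TI Hc (G' t)) ∧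
    (∀ t g, G' t (g * w) = (-1) ^ e * G' t g) ∧ (∀ t, ∫ x, ‖G' t x‖ ∂μ ≤ ∫ x, ‖G t x‖ ∂μ) ∧
    ∀ (t : ℝ) (u : H → ℂ), Continuous u → TI Hc u → (∀ g, u (g * w) = (-1) ^ e * u g) →
      ∫ x, conj (G' t x) * u x ∂μ = ∫ x, conj (G t x) * u x ∂μ

def M_PRJ : Prop := S_HAAR → S_PSF → S_PRJ

end

end SPH
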