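import Pool.Agent.SPH.StA

/-!
# The sphere S²: the torus, cutoffs, the localisation of the kernel (sections 3, 4 of `PAPER.md`)

Module `X` proves `theorem t_X : M_X` (or `t_X : S_X` if there is no `M_X`) in the file `Pool/Agent/SPH/X.lean`, namespace `SPH`. The scale of the frequencies is `2 ^ J`.
-/

namespace SPH

open STZ LGR STZ3 MeasureTheory Matrix Filter

open scoped ComplexConjugate Matrix Real Topology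

noncomputable section

/-! ### the torus -/

/-- T46. Let `u = ∑ c l eu (-(t l²) + l θ)`. First claim (`θ` fixed): `∫ |u|⁴ = ∫ |u²|²`, the coefficient of `u²` at `N` is the sum over `l² + l'² = N`, at most `C X^ε` pairs (`STZ3.form_bound` in `Pool/Agent/STZ3/RQN.lean` for `x² + y²`), Cauchy-Schwarz. Second claim: the coefficient of `u³` at `(k, N)` is the sum over
`l₁ + l₂ + l₃ = k`, `l₁² + l₂² + l₃² = N`; with `a = 3 l₁ - k`, `b = 3 l₂ - k`: `2 a² + 2 a b + 2 b² = 9 N - 3 k²`, and `x² + y² ≤ 2x² + 2xy + 2y²` (`form_bound`), `|a|, |b| ≤ 6 X`: at most `C X^ε` triples; Cauchy-Schwarz. -/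
def S_T46 : Prop := ∀ ε : ℝ, 0 < ε → ∃ C : ℝ, 0 ≤ C ∧ ∀ (X : ℕ) (c : ℤ → ℂ) (S : Finset ℤ), 1 ≤ X → (∀ l ∈ S, |l| ≤ X) →
  (∀ θ : ℝ, ∫ t in (0 : ℝ)..1, ‖∑ l ∈ S, c l * eu (-(t * (l : ℝ) ^ 2) + l * θ)‖ ^ 4 ≤
    C * (X : ℝ) ^ ε * (∑ l ∈ S, ‖c l‖ ^ 2) ^ 2) ∧
  ∫ t in (0 : ℝ)..1, ∫ θ in (0 : ℝ)..1, ‖∑ l ∈ S, c l * eu (-(t * (l : ℝ) ^ 2) + l * θ)‖ ^ 6 ≤
    C * (X : ℝ) ^ ε * (∑ l ∈ S, ‖c l‖ ^ 2) ^ 3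

/-- T14. The dual estimate on a set `Q` of the torus. Let `a l` be the integral on the left. `∑ |a l|² = ∫∫ u conj v`, `v = ∑ a l eu (-(t l²) + (l + k) φ)`, `|v| = |∑ a l eu (-(t l²) + l φ)|`. Hölder with `14/11`, `14/3` on `[0,1] × Q`, and `‖v‖_(14/3) ≤ ‖v‖_4^(4/7) ‖v‖_6^(3/7)` on `[0,1] × Q` (`3/14 = (4/7)/4 + (3/7)/6`),
`‖v‖_4 ≤ (|Q| C X^ε)^(1/4) (∑ |a|²)^(1/2)` (T46 for every `φ`), `‖v‖_6 ≤ (C X^ε)^(1/6) (∑ |a|²)^(1/2)`. So `∑ |a|² ≤ ‖u‖_(14/11) |Q|^(1/7) C X^ε (∑ |a|²)^(1/2)`. (`Fin 1 → ℝ` and `ℝ`: `MeasureTheory.volume_preserving_funUnique`.) -/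
def S_T14 : Prop := ∀ ε : ℝ, 0 < ε → ∃ C : ℝ, 0 ≤ C ∧ ∀ (X : ℕ) (k : ℤ) (S : Finset ℤ) (Q : Set (Fin 1 → ℝ))
  (u : ℝ → (Fin 1 → ℝ) → ℂ) (b : ℝ), 1 ≤ X → (∀ l ∈ S, |l| ≤ X) → MeasurableSet Q → Q ⊆ Set.Icc 0 1 →
  Measurable (fun z : ℝ × (Fin 1 → ℝ) => u z.1 z.2) → (∀ t φ, ‖u t φ‖ ≤ b) → (∀ t, ∀ φ, φ ∉ Q → u t φ = 0) →
  ∑ l ∈ S, ‖∫ t in (0 : ℝ)..1, ∫ φ in Set.Icc (0 : Fin 1 → ℝ) 1, u t φ * eu (t * (l : ℝ) ^ 2 - ((l + k : ℤ) : ℝ) * φ 0)‖ ^ 2 ≤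
    C * (X : ℝ) ^ ε * volume.real Q ^ ((2 : ℝ) / 7) *
      (∫ t in (0 : ℝ)..1, ∫ φ in Set.Icc (0 : Fin 1 → ℝ) 1, ‖u t φ‖ ^ ((14 : ℝ) / 11)) ^ ((11 : ℝ) / 7)

def M_T14 : Prop := S_T46 → S_T14

/-- the kernel `ker` satisfies the estimate `L^(14/11) → L^(14/3)` between two sets of the torus, with the constant `D` -/
structure KBd (ker : ℝ → (Fin 1 → ℝ) → ℂ) (D : ℝ) : Prop where
  cont : Continuous fun z : ℝ × (Fin 1 → ℝ) => ker z.1 z.2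
  bd : ∀ (Q S : Set (Fin 1 → ℝ)) (u w : ℝ → (Fin 1 → ℝ) → ℂ) (b : ℝ), MeasurableSet Q → MeasurableSet S →
    Q ⊆ Set.Icc 0 1 → S ⊆ Set.Icc 0 1 → Measurable (fun z : ℝ × (Fin 1 → ℝ) => u z.1 z.2) → (∀ t φ, ‖u t φ‖ ≤ b) →
    Measurable (fun z : ℝ × (Fin 1 → ℝ) => w z.1 z.2) → (∀ t φ, ‖w t φ‖ ≤ b) → (∀ t, ∀ φ, φ ∉ Q → u t φ = 0) →
    (∀ t, ∀ φ, φ ∉ S → w t φ = 0) →
    ‖∫ t in (0 : ℝ)..1, ∫ s in (0 : ℝ)..1, ∫ φ in Set.Icc (0 : Fin 1 → ℝ) 1, ∫ θ in Set.Icc (0 : Fin 1 → ℝ) 1,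
        ker (t - s) (θ - φ) * (u s φ * conj (w t θ))‖ ≤
      D * (volume.real Q * volume.real S) ^ ((1 : ℝ) / 7) *
        ((∫ t in (0 : ℝ)..1, ∫ φ in Set.Icc (0 : Fin 1 → ℝ) 1, ‖u t φ‖ ^ ((14 : ℝ) / 11)) ^ ((11 : ℝ) / 14) *
          (∫ t in (0 : ℝ)..1, ∫ φ in Set.Icc (0 : Fin 1 → ℝ) 1, ‖w t φ‖ ^ ((14 : ℝ) / 11)) ^ ((11 : ℝ) / 14))

/-- the kernel with the symbol `aa` and the coefficients `b` -/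
def tk1 (q : ℤ → ℝ) (aa : (Fin 1 → ℤ) → ℂ) (b : ℤ → ℂ) (T : Finset (Fin 1 → ℤ)) (K : ℕ) (κ : ℤ) (t : ℝ)
    (θ : Fin 1 → ℝ) : ℂ :=
  ∑ l ∈ T, aa l * (∑ k ∈ Finset.Icc (-(K : ℤ)) K, b k *
    ((q (l 0 + κ - 2 * k) : ℂ) * eu (-(t * ((l 0 + κ - 2 * k : ℤ) : ℝ) ^ 2)))) * eu (dz l θ)

/-- KT1. As K4B (`Pool/Agent/STZ3/K4B.lean`): the form is `∑ k, b k ∑ l ∈ T, aa l q(l') U l conj (W l)`, `l' = l + κ - 2k`, `U l = ∫∫ u s φ eu (s l'² - l φ)`, the same for `w`; Cauchy-Schwarz in `l` and T14 (the set of the `l'` with `q l' ≠ 0`, `l = l' + (2k - κ)`). -/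
def S_KT1 : Prop := ∀ ε : ℝ, 0 < ε → ∃ C : ℝ, 0 ≤ C ∧ ∀ (X : ℕ) (q : ℤ → ℝ) (aa : (Fin 1 → ℤ) → ℂ) (b : ℤ → ℂ)
  (T : Finset (Fin 1 → ℤ)) (K : ℕ) (κ : ℤ) (A : ℝ), 1 ≤ X → 0 ≤ A → (∀ l, 0 ≤ q l ∧ q l ≤ 1) → (∀ l, q l ≠ 0 → |l| ≤ X) →
  (∀ l ∈ T, ∀ k ∈ Finset.Icc (-(K : ℤ)) K, q (l 0 + κ - 2 * k) ≠ 0 → ‖aa l‖ ≤ A) →
  KBd (tk1 q aa b T K κ) (C * (X : ℝ) ^ ε * A * ∑ k ∈ Finset.Icc (-(K : ℤ)) K, ‖b k‖)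

def M_KT1 : Prop := S_T14 → S_KT1

/-! ### cutoffs near zero, away from one half -/

/-- `bb z + bb (z + 1/2) = 1`, small near `z = 1/2` -/
def bb (m : ℕ) (z : ℂ) : ℂ :=
  ∑ i ∈ Finset.Icc (m + 1) (2 * m + 1), ((2 * m + 1).choose i : ℂ) * Complex.cos (π * z) ^ (2 * i) *
    Complex.sin (π * z) ^ (2 * (2 * m + 1 - i))

/-- the cutoffs: `x < Y` at the distance `2 ^ (-x)` from zero, `x = Y` the remaining neighbourhood of zero -/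
def fS (m Y x : ℕ) (z : ℂ) : ℂ := bb m z * fx m Y x z

/-- their Fourier coefficients -/
def cS (m Y x : ℕ) (k : ℤ) : ℂ := ∫ y in (0 : ℝ)..1, fS m Y x y * eu (-(k * y))

/-- the degree -/
def KS (m Y : ℕ) : ℕ := 2 * m ^ 2 * 2 ^ Y + 2 * m + 1

/-- facts about the Fourier coefficients -/
structure CSF (m : ℕ) (C : ℝ) : Prop where
  zero : ∀ Y, ∑ x ∈ Finset.range (Y + 1), cS m Y x 0 = 1 / 2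
  ev : ∀ Y (k : ℤ), k ≠ 0 → k % 2 = 0 → ∑ x ∈ Finset.range (Y + 1), cS m Y x k = 0
  far : ∀ Y (k : ℤ), (2 * m + 1 : ℤ) < |k| → ∑ x ∈ Finset.range (Y + 1), cS m Y x k = 0
  supp : ∀ Y x k, x ≤ Y → (2 * m ^ 2 * 2 ^ x + 2 * m + 1 : ℤ) < |k| → cS m Y x k = 0
  symm : ∀ Y x k, cS m Y x (-k) = cS m Y x k
  abs : ∀ Y x (K : ℕ), x ≤ Y → ∑ k ∈ Finset.Icc (-(K : ℤ)) K, ‖cS m Y x k‖ ≤ C
  sup : ∀ Y x k, x ≤ Y → ‖cS m Y x k‖ ≤ C / 2 ^ x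
  var : ∀ Y x (K : ℕ), x ≤ Y → ∑ k ∈ Finset.Icc (-(K : ℤ)) K, ‖cS m Y x k - cS m Y x (k - 1)‖ ≤ C / 2 ^ x
  ex : ∀ Y x (K : ℕ) (z : ℂ), x ≤ Y → 2 * m ^ 2 * 2 ^ x + 2 * m + 1 ≤ K →
    ∑ k ∈ Finset.Icc (-(K : ℤ)) K, cS m Y x k * Complex.exp (2 * π * Complex.I * k * z) = fS m Y x z

/-- CSA. `cos² (πz) = (2 + e(z) + e(-z))/4`, `sin² (πz) = (2 - e(z) - e(-z))/4`: `bb m` is an even trigonometric polynomial of degree `2m + 1` with coefficients `β k`. Binomial theorem for `(cos² + sin²)^(2m+1) = 1`, and `z ↦ z + 1/2` exchanges `cos²` and `sin²`: `bb z + bb (z + 1/2) = 1`, so `β 0 = 1/2`, `β k = 0` for even `k ≠ 0`.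
`fx m Y x` has the coefficients `cf m Y x k` (`CFF` for `C₁` from `S_CFA`, in particular `CFF.ex`), even in `k` (`sg M` is even), and `∑ x, fx m Y x = 1` (`CFF.sum`). So `cS` is the convolution `∑ j, β j cf (k - j)` and all claims follow from `CFF`. -/
def S_CSA : Prop := ∀ m : ℕ, 1 ≤ m → ∃ C : ℝ, 0 ≤ C ∧ CSF m C

def M_CSA : Prop := S_CFA → S_CSA

/-- CSB. `|bb m z| ≤ C` for `|Im z| ≤ κ`, and `|bb m z| ≤ C |cos (πz)|^(2m) ≤ C (nd (Re z - 1/2) + |Im z|)^(2m)`. First claim: CFB with `J = Y`. Second claim: for `x < Y` `fx m Y x = fx m J x` if `x < J`, so CFB for `J` (`x < Y ≤ J`). Third claim: `|fx| ≤ C` (CFB with `J = Y`, as `κ/2^J ≤ κ/2^Y`). -/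
def S_CSB : Prop := ∀ (m : ℕ) (κ : ℝ), 1 ≤ m → 0 ≤ κ → ∃ C : ℝ, 0 ≤ C ∧ ∀ (J Y x : ℕ) (z : ℂ), x ≤ Y → Y ≤ J →
  |z.im| ≤ κ / 2 ^ J → ‖fS m Y x z‖ * (1 + 2 ^ x * nd z.re) ^ (2 * m) ≤ C ∧
    (x < Y → ‖fS m Y x z‖ ≤ C * (2 ^ x * (nd z.re + 1 / 2 ^ J)) ^ (2 * m)) ∧
    ‖fS m Y x z‖ ≤ C * (nd (z.re - 1 / 2) + 1 / 2 ^ J) ^ (2 * m)

def M_CSB : Prop := S_CFB → S_CSB

/-- the frequencies: the numbers `l` with `|l| = 1 + 2e` modulo `4`, `X/8 < |l| ≤ X` -/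
def qS (e X : ℕ) (l : ℤ) : ℝ :=
  if |l| % 4 = 1 + 2 * (e : ℤ) ∧ (X : ℤ) < 8 * |l| ∧ |l| ≤ (X : ℤ) then 1 else 0

/-- the coefficients of the theta function -/
def gS (e X : ℕ) (t : ℝ) (l : ℤ) : ℂ := (qS e X l : ℂ) * eu (-(t * (l : ℝ) ^ 2))

/-- the coefficients with the cutoff `x` -/
def nS (m Y x e J : ℕ) (t : ℝ) (ν : ℤ) : ℂ :=
  2 * ∑ k ∈ Finset.Icc (-(KS m Y : ℤ)) (KS m Y), cS m Y x k * gS e (2 ^ J) t (ν - 2 * k)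

/-- facts about `nS` -/
structure NSF (m : ℕ) (C : ℝ) : Prop where
  even : ∀ Y x e J t ν, nS m Y x e J t (-ν) = nS m Y x e J t ν
  supp : ∀ Y x e J t ν, e ≤ 1 → 32 * KS m Y ≤ 2 ^ J → nS m Y x e J t ν ≠ 0 →
    (2 : ℤ) ^ J < 16 * |ν| ∧ |ν| ≤ 2 * 2 ^ J ∧ ν % 2 = 1
  sum : ∀ (Y e J : ℕ) (t : ℝ) (l : ℤ), e ≤ 1 → 32 * KS m Y ≤ 2 ^ J → |l| % 4 = 1 + 2 * (e : ℤ) →
    ∑ x ∈ Finset.range (Y + 1), nS m Y x e J t l = gS e (2 ^ J) t l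
  cont : ∀ Y x e J ν, Continuous fun t => nS m Y x e J t ν
  bd : ∀ Y x e J t ν, x ≤ Y → ‖nS m Y x e J t ν‖ ≤ C

/-- NSX. `even`: `gS` and `cS` are even. `supp`: `gS (ν - 2k) ≠ 0` gives `2^J/8 < |ν - 2k| ≤ 2^J`, `|2k| ≤ 2 KS ≤ 2^J/16`; `ν - 2k` is odd. `sum`: `∑ x, nS = 2 ∑ k, (∑ x, cS k) gS (l - 2k)`. We may assume `l > 0` (both sides are even in `l`). For `k` odd, `|k| ≤ 2m + 1`: if `l - 2k > 0` then `l - 2k = l + 2` modulo `4` is in the other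
class, so `gS (l - 2k) = 0`; if `l - 2k ≤ 0` then `|l - 2k| ≤ 2 (2m+1) ≤ 2^J/8`, `gS = 0`. For `k` even `≠ 0` and for `|k| > 2m + 1` the sum of the `cS` is `0`; `k = 0` gives `2 · (1/2) gS l`. `bd`: `CSF.abs`, `|gS| ≤ 1`. -/
def S_NSX : Prop := ∀ (m : ℕ) (C : ℝ), 1 ≤ m → CSF m C → NSF m (2 * C)

/-- the coefficients of the kernel on the torus, the time of the packets is `ϑ = 2^(-x) 2^(-J)` -/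
def aS (Φ : RT 1) (m Y x e J : ℕ) (τ : ℝ) (l : Fin 1 → ℤ) : ℂ :=
  lm Φ (1 / 2 ^ (x + J)) (fun ν => nS m Y x e J τ (ν 0)) l

/-- the shell -/
def sS (ε : ℝ) (J Y x : ℕ) : Set (Fin 1 → ℝ) :=
  {θ | nd (2 * θ 0) ≤ (2 : ℝ) ^ (ε * J) / 2 ^ x ∧
    (x < Y → (2 : ℝ) ^ (-(ε * J)) / 2 ^ x ≤ nd (2 * θ 0) ∧ (2 : ℝ) ^ (-(ε * J)) ≤ nd (2 * θ 0 - 1 / 2))}

/-- KLS. The localisation of the kernel. `X = 2^J`, `ϑ = 2^(-x-J) ≤ 1/X`. By `R1F.lm`, with `ν = l ± 1`: for `Ψ = 1` `km = (1/2) [e^(-4ϑ) e(-θ) N₁(z₊) - e^(-4ϑ) e(θ) N₁(z₋)]`, `z_± = θ ∓ 4 i ϑ/(2π)`, `N₁(z) = ∑ ν nS(ν) e(νz) = N'(z)/(2πi)`, `N(z) = ∑ nS(ν) e(νz) = 2 Θ(z) fS(2z)` (`CSF.ex`), `Θ(z) = ∑ l, gS l e(lz)`, `|Θ| ≤ C X` for `|Im z| ≤ C/X`.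
Cauchy's estimate for the derivative with the radius `1/X` (CAUC): `|km| ≤ C X² sup |fS(2z')|`, `|z' - θ| ≤ 2/X`. CSB (`κ = 4`, `|Im 2z'| ≤ 4/2^J`). If `nd (2θ) > X^ε 2^(-x)`: `|fS| ≤ C X^(-2mε)`; if `x < Y` and `nd (2θ) < X^(-ε) 2^(-x)`: `2^x (nd (2θ') + 1/X) ≤ X^(-ε) + 5 · 2^Y/X ≤ 6 X^(-ε)`; if `x < Y` and `nd (2θ - 1/2) < X^(-ε)`: `|fS| ≤ C (6 X^(-ε))^(2m)`.
`2 + A ≤ 2 ε m`. For general `Ψ`: `km Ψ θ = ∫ km 1 (θ + s) dν₁ - ∫ km 1 (θ + s) dν₂`. (For the supports and the set `T` see KOF, `Pool/Agent/STZ3/KOF.lean`.) -/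
def S_KLS : Prop := ∀ (m : ℕ) (C₁ C₂ ε A : ℝ), 1 ≤ m → CSF m C₁ → 0 ≤ C₂ → 0 < ε → ε ≤ 1 / 8 → 0 ≤ A → 2 + A ≤ 2 * ε * m →
  ∃ C : ℝ, 0 ≤ C ∧ ∀ (Φ : RT 1) (J Y x e : ℕ) (T : Finset (Fin 1 → ℤ)) (Ψ : (Fin 1 → ℤ) → ℝ) (ν₁ ν₂ : Measure (Fin 1 → ℝ))
    (R : ℝ), R1F Φ → 1 ≤ J → x ≤ Y → (Y : ℝ) ≤ (1 - ε) * J → 32 * KS m Y ≤ 2 ^ J → e ≤ 1 →
    (∀ τ l, aS Φ m Y x e J τ l ≠ 0 → l ∈ T) → FM C₂ R Ψ ν₁ ν₂ → ∀ (τ : ℝ) (θ : Fin 1 → ℝ),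
    ‖km (aS Φ m Y x e J) T Ψ τ θ‖ ≤ C * 2 ^ (2 * J) ∧
      ((∀ s : Fin 1 → ℝ, (∀ i, |s i| ≤ C₂ * R) → θ + s ∉ sS ε J Y x) →
        ‖km (aS Φ m Y x e J) T Ψ τ θ‖ ≤ C * (2 : ℝ) ^ (-(A * J)))

def M_KLS : Prop := S_CAUC → S_CSB → S_NSX → S_KLS

/-- KBS. The estimate `KBd` for the kernel of the piece `x`. `X = 2^J`, `n(l ± 1) = nS`: `n(l + 1) = 2 ∑ k, cS k gS (l + 1 - 2k)`, `n(l - 1) = 2 ∑ k, cS (k - 1) gS (l + 1 - 2k)`, so by `R1F.lm` `aS l = e^(4ϑl) (l+1) ∑ k, (cS k - cS (k-1)) gS (l + 1 - 2k) + (e^(4ϑl)(l+1) - e^(-4ϑl)(l-1)) ∑ k, cS (k-1) gS (l + 1 - 2k)`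
(`|k| ≤ KS + 1`): two kernels `tk1` (`q = qS`, `κ = 1`), times `Ψ l` in the symbol. The symbols are at most `C X` and `C (1 + ϑ X²) ≤ C 2^(J - x)` (`4 ϑ |l| ≤ C` if `gS (l + 1 - 2k) ≠ 0`, as then `|l| ≤ 2X`), the sums of the coefficients at most `C 2^(-x)` and `C` (`CSF.var`, `abs`). KT1 for both, and the sum of two kernels. -/
def S_KBS : Prop := ∀ (m : ℕ) (C₁ C₂ ε : ℝ), 1 ≤ m → CSF m C₁ → 0 ≤ C₂ → 0 < ε → ∃ C : ℝ, 0 ≤ C ∧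
  ∀ (Φ : RT 1) (J Y x e : ℕ) (T : Finset (Fin 1 → ℤ)) (Ψ : (Fin 1 → ℤ) → ℝ), R1F Φ → 1 ≤ J → x ≤ Y → Y ≤ J →
    32 * KS m Y ≤ 2 ^ J → e ≤ 1 → (∀ l, |Ψ l| ≤ C₂) →
    KBd (km (aS Φ m Y x e J) T Ψ) (C * (2 : ℝ) ^ (ε * J) * (2 ^ J / 2 ^ x))

def M_KBS : Prop := S_NSX → S_KT1 → S_KBS

end

end SPH
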