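import Mathlib
import Pool.Agent.SPH.StA
import Pool.Agent.SPH.StB
import Pool.Agent.STZ3.CFA

/-!
# The Fourier coefficients of the cutoffs on the sphere

Module CSA of the project SPH.
-/

set_option autoImplicit false
set_option linter.unusedVariables false

namespace SPH

open STZ LGR STZ3 MeasureTheory Matrix Filter

open scoped ComplexConjugate Matrix Real Topology

noncomputable section

namespace CSA

open STZ3.CFA

/-- trigonometric polynomials of degree `n` -/
def HE (F : ℂ → ℂ) (n : ℕ) : Prop := ∃ a α σ, TP F a n α σ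

lemma HE.mul {F G : ℂ → ℂ} {n n' : ℕ} (hF : HE F n) (hG : HE G n') :
    HE (fun z => F z * G z) (n + n') := by
  obtain ⟨a, α, σ, h⟩ := hF
  obtain ⟨b, α', σ', h'⟩ := hG
  exact ⟨_, _, _, h.mul h'⟩

lemma HE.add {F G : ℂ → ℂ} {n : ℕ} (hF : HE F n) (hG : HE G n) :
    HE (fun z => F z + G z) n := by
  obtain ⟨a, α, σ, h⟩ := hF
  obtain ⟨b, α', σ', h'⟩ := hG
  exact ⟨_, _, _, (h.add h').mono (by simp) le_rfl le_rfl⟩

lemma HE.mono {F : ℂ → ℂ} {n n' : ℕ} (hF : HE F n) (h : n ≤ n') : HE F n' := by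
  obtain ⟨a, α, σ, hh⟩ := hF
  exact ⟨a, α, σ, hh.mono h le_rfl le_rfl⟩

lemma HE.congr {F G : ℂ → ℂ} {n : ℕ} (hF : HE F n) (e : ∀ z, F z = G z) : HE G n := by
  have : F = G := funext e
  rwa [← this]

lemma mkHE {F : ℂ → ℂ} {a : ℤ → ℂ} {n : ℕ} (hs : ∀ k : ℤ, (n : ℤ) < |k| → a k = 0)
    (hF : ∀ z, F z = ∑ k ∈ Finset.Icc (-(n : ℤ)) n, a k * xp k z) : HE F n := by
  have hmem : ∀ k : ℤ, k ∉ Finset.Icc (-(n : ℤ)) n → a k = 0 := by
    intro k hk
    apply hs
    by_contra h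
    exact hk (Finset.mem_Icc.2 (abs_le.1 (not_lt.1 h)))
  have habs : ∀ S : Finset ℤ, ∑ k ∈ S, ‖a k‖ ≤ ∑ k ∈ Finset.Icc (-(n : ℤ)) n, ‖a k‖ := by
    intro S
    have h1 : ∑ k ∈ S, ‖a k‖ = ∑ k ∈ S.filter (fun k => k ∈ Finset.Icc (-(n : ℤ)) n), ‖a k‖ := by
      rw [Finset.sum_filter]
      refine Finset.sum_congr rfl fun k _ => ?_
      split_ifs with h
      · rfl
      · rw [hmem k h, norm_zero]
    rw [h1]
    refine Finset.sum_le_sum_of_subset_of_nonneg ?_ (fun _ _ _ => norm_nonneg _)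
    intro k hk
    exact (Finset.mem_filter.1 hk).2
  refine ⟨a, ∑ k ∈ Finset.Icc (-(n : ℤ)) n, ‖a k‖, 2 * ∑ k ∈ Finset.Icc (-(n : ℤ)) n, ‖a k‖,
    hs, habs, ?_, ?_, ?_⟩
  · intro k
    have h1 := habs {k}
    have h2 := norm_nonneg (a k)
    rw [Finset.sum_singleton] at h1
    linarith
  · intro S
    have h1 : ∑ k ∈ S, ‖a (k - 1)‖ ≤ ∑ k ∈ Finset.Icc (-(n : ℤ)) n, ‖a k‖ :=
      shift (fun k => ‖a k‖) habs 1 S
    calc ∑ k ∈ S, ‖a k - a (k - 1)‖ ≤ ∑ k ∈ S, (‖a k‖ + ‖a (k - 1)‖) :=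
          Finset.sum_le_sum fun k _ => norm_sub_le _ _
      _ ≤ _ := by
          rw [Finset.sum_add_distrib]
          linarith [habs S]
  · intro z
    rw [hF z]
    exact hasSum_sum_of_ne_finset_zero fun k hk => by rw [hmem k hk, zero_mul]

lemma HE_const (c : ℂ) : HE (fun _ => c) 0 := by
  refine mkHE (a := fun k => if k = 0 then c else 0) (fun k hk => ?_) (fun z => ?_)
  · rw [if_neg]
    rintro rfl
    simp at hk
  · have h : Finset.Icc (-((0 : ℕ) : ℤ)) ((0 : ℕ) : ℤ) = {0} := by decide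
    rw [h]
    simp [xp]

lemma HE.pow {F : ℂ → ℂ} {n : ℕ} (hF : HE F n) (i : ℕ) : HE (fun z => F z ^ i) (i * n) := by
  induction i with
  | zero => exact ((HE_const 1).congr fun z => by simp).mono (by simp)
  | succ i ih =>
    refine ((ih.mul hF).congr fun z => ?_).mono (le_of_eq (by ring))
    rw [pow_succ]

lemma HE.sum {ι : Type} (s : Finset ι) {F : ι → ℂ → ℂ} {n : ℕ} (h : ∀ i ∈ s, HE (F i) n) :
    HE (fun z => ∑ i ∈ s, F i z) n := by
  classical
  induction s using Finset.induction_on with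
  | empty => exact ((HE_const 0).congr fun z => by simp).mono (by simp)
  | insert i s hi ih =>
    refine ((h i (Finset.mem_insert_self i s)).add
      (ih fun j hj => h j (Finset.mem_insert_of_mem hj))).congr fun z => ?_
    rw [Finset.sum_insert hi]

lemma xp_one (z : ℂ) : xp 1 z = Complex.exp (π * z * Complex.I) ^ 2 := by
  unfold xp
  rw [← Complex.exp_nat_mul]
  congr 1
  push_cast
  ring

lemma xp_neg_one (z : ℂ) : xp (-1) z = Complex.exp (-(π * z) * Complex.I) ^ 2 := by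
  unfold xp
  rw [← Complex.exp_nat_mul]
  congr 1
  push_cast
  ring

lemma exp_mul' (z : ℂ) : Complex.exp (π * z * Complex.I) * Complex.exp (-(π * z) * Complex.I) = 1 := by
  rw [← Complex.exp_add, ← Complex.exp_zero]
  congr 1
  ring

lemma Icc_one : Finset.Icc (-((1 : ℕ) : ℤ)) ((1 : ℕ) : ℤ) = {-1, 0, 1} := by decide

lemma HE_cos : HE (fun z => Complex.cos (π * z) ^ 2) 1 := by
  refine mkHE (a := fun k => if k = 0 then 1 / 2 else if k = 1 ∨ k = -1 then 1 / 4 else 0)
    (fun k hk => ?_) (fun z => ?_)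
  · rw [if_neg, if_neg]
    · rintro (rfl | rfl) <;> simp at hk
    · rintro rfl
      simp at hk
  · rw [Icc_one]
    have h0 : xp 0 z = 1 := by simp [xp]
    have h1 := exp_mul' z
    rw [neg_mul] at h1
    simp [xp_one, xp_neg_one, h0, Complex.cos]
    linear_combination (1 / 2 : ℂ) * h1

lemma HE_sin : HE (fun z => Complex.sin (π * z) ^ 2) 1 := by
  refine mkHE (a := fun k => if k = 0 then 1 / 2 else if k = 1 ∨ k = -1 then -(1 / 4) else 0)
    (fun k hk => ?_) (fun z => ?_)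
  · rw [if_neg, if_neg]
    · rintro (rfl | rfl) <;> simp at hk
    · rintro rfl
      simp at hk
  · rw [Icc_one]
    have h0 : xp 0 z = 1 := by simp [xp]
    have h1 := exp_mul' z
    rw [neg_mul] at h1
    simp [xp_one, xp_neg_one, h0, Complex.sin]
    linear_combination (1 / 2 : ℂ) * h1 + ((Complex.exp (-(π * z * Complex.I)) -
      Complex.exp (π * z * Complex.I)) ^ 2 / 4) * Complex.I_sq

lemma HE_bb (m : ℕ) : HE (bb m) (2 * m + 1) := by
  unfold bb
  refine HE.sum _ fun i hi => ?_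
  rw [Finset.mem_Icc] at hi
  have h := ((HE_const ((2 * m + 1).choose i : ℂ)).mul (HE_cos.pow i)).mul
    (HE_sin.pow (2 * m + 1 - i))
  refine (h.congr fun z => ?_).mono (by omega)
  rw [← pow_mul, ← pow_mul]

lemma bb_add (m : ℕ) (z : ℂ) : bb m (z + 1 / 2) + bb m z = 1 := by
  set f : ℕ → ℂ := fun i => ((2 * m + 1).choose i : ℂ) * Complex.cos (π * z) ^ (2 * i) *
    Complex.sin (π * z) ^ (2 * (2 * m + 1 - i)) with hf
  have hI : Finset.Icc (m + 1) (2 * m + 1) = Finset.Ico (m + 1) (2 * m + 2) := by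
    ext i
    rw [Finset.mem_Icc, Finset.mem_Ico]
    omega
  have e1 : bb m z = ∑ i ∈ Finset.Ico (m + 1) (2 * m + 2), f i := by
    unfold bb
    rw [hI]
  have hc : Complex.cos (π * (z + 1 / 2)) = -Complex.sin (π * z) := by
    rw [← Complex.cos_add_pi_div_two]
    congr 1
    ring
  have hs : Complex.sin (π * (z + 1 / 2)) = Complex.cos (π * z) := by
    rw [← Complex.sin_add_pi_div_two]
    congr 1
    ring
  have e2 : bb m (z + 1 / 2) = ∑ i ∈ Finset.range (m + 1), f i := by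
    unfold bb
    rw [hI, hc, hs]
    refine Finset.sum_nbij' (fun i => 2 * m + 1 - i) (fun i => 2 * m + 1 - i) ?_ ?_ ?_ ?_ ?_
    · intro i hi
      rw [Finset.mem_Ico] at hi
      rw [Finset.mem_range]
      omega
    · intro i hi
      rw [Finset.mem_range] at hi
      rw [Finset.mem_Ico]
      omega
    · intro i hi
      rw [Finset.mem_Ico] at hi
      omega
    · intro i hi
      rw [Finset.mem_range] at hi
      omega
    · intro i hi
      rw [Finset.mem_Ico] at hi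
      simp only [hf]
      rw [Nat.choose_symm (by omega : i ≤ 2 * m + 1),
        show 2 * m + 1 - (2 * m + 1 - i) = i by omega, Even.neg_pow (even_two_mul i)]
      ring
  rw [e1, e2, Finset.sum_range_add_sum_Ico _ (by omega : m + 1 ≤ 2 * m + 2)]
  have h := add_pow (Complex.cos (π * z) ^ 2) (Complex.sin (π * z) ^ 2) (2 * m + 1)
  rw [Complex.cos_sq_add_sin_sq, one_pow] at h
  rw [h]
  refine Finset.sum_congr rfl fun i _ => ?_
  simp only [hf]
  rw [← pow_mul, ← pow_mul]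
  ring

lemma bb_per (m : ℕ) (z : ℂ) : bb m (z + 1) = bb m z := by
  have h1 := bb_add m z
  have h2 := bb_add m (z + 1 / 2)
  rw [show z + 1 / 2 + 1 / 2 = z + 1 by ring] at h2
  linear_combination h2 - h1

lemma bb_refl (m : ℕ) (z : ℂ) : bb m (1 - z) = bb m z := by
  unfold bb
  refine Finset.sum_congr rfl fun i _ => ?_
  have hc : Complex.cos (π * (1 - z)) = -Complex.cos (π * z) := by
    rw [← Complex.cos_pi_sub]
    congr 1
    ring
  have hs : Complex.sin (π * (1 - z)) = Complex.sin (π * z) := by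
    rw [← Complex.sin_pi_sub]
    congr 1
    ring
  rw [hc, hs, Even.neg_pow (even_two_mul i)]

lemma HE.cont {F : ℂ → ℂ} {n : ℕ} (h : HE F n) : Continuous F := by
  obtain ⟨a, α, σ, hh⟩ := h
  have : F = fun z => ∑ k ∈ Finset.Icc (-(n : ℤ)) n, a k * xp k z :=
    funext fun z => (hh.sum_eq n le_rfl z).symm
  rw [this]
  unfold xp
  fun_prop

/-- the Fourier coefficients of `bb` -/
def be (m : ℕ) (k : ℤ) : ℂ := ∫ y in (0 : ℝ)..1, bb m y * eu (-(k * y))

lemma eu_cont (k : ℤ) : Continuous fun y : ℝ => eu (-(k * y)) := by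
  unfold eu
  fun_prop

lemma eu_add (a b : ℝ) : eu (a + b) = eu a * eu b := by
  unfold eu
  rw [← Complex.exp_add]
  congr 1
  push_cast
  ring

lemma eu_int (k : ℤ) : eu (k : ℝ) = 1 := by
  unfold eu
  rw [show (2 * π * ((k : ℝ) : ℂ) * Complex.I : ℂ) = k * (2 * π * Complex.I) by push_cast; ring,
    Complex.exp_int_mul_two_pi_mul_I]

lemma int_eu (k : ℤ) : ∫ y in (0 : ℝ)..1, eu (-(k * y)) = if k = 0 then 1 else 0 := by
  have h := orth 0 k
  have h1 : ∀ y : ℝ, xp 0 y * eu (-(k * y)) = eu (-(k * y)) := by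
    intro y
    have : xp 0 y = 1 := by
      unfold xp
      simp
    rw [this, one_mul]
  simp only [h1] at h
  rw [h]
  simp only [eq_comm]

lemma be_even (m : ℕ) (k : ℤ) (hk : k % 2 = 0) : 2 * be m k = if k = 0 then 1 else 0 := by
  have hb := (HE_bb m).cont
  set g : ℝ → ℂ := fun y => bb m y * eu (-(k * y)) with hg
  have hper : Function.Periodic g 1 := by
    intro y
    simp only [hg]
    have e1 : bb m ((y + 1 : ℝ) : ℂ) = bb m y := by
      push_cast
      exact bb_per m y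
    rw [e1, show -((k : ℝ) * (y + 1)) = -(k * y) + ((-k : ℤ) : ℝ) by push_cast; ring, eu_add,
      eu_int, mul_one]
  have hi : ∀ F : ℝ → ℂ, Continuous F → IntervalIntegrable F volume 0 1 := fun F hF =>
    hF.intervalIntegrable _ _
  have e2 : be m k = ∫ y in (0 : ℝ)..1, g (y + 1 / 2) := by
    rw [intervalIntegral.integral_comp_add_right]
    have h3 := hper.intervalIntegral_add_eq (0 + 1 / 2) 0
    rw [show (0 : ℝ) + 1 / 2 + 1 = 1 + 1 / 2 by ring, zero_add (1 : ℝ)] at h3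
    rw [h3]
    rfl
  have e3 : ∀ y : ℝ, g (y + 1 / 2) = bb m ((y : ℂ) + 1 / 2) * eu (-(k * y)) := by
    intro y
    simp only [hg]
    obtain ⟨j, hj⟩ : ∃ j : ℤ, k = 2 * j := ⟨k / 2, by omega⟩
    have e4 : eu (-((k : ℝ) * (y + 1 / 2))) = eu (-(k * y)) := by
      rw [show -((k : ℝ) * (y + 1 / 2)) = -(k * y) + ((-j : ℤ) : ℝ) by
        rw [hj]; push_cast; ring, eu_add, eu_int, mul_one]
    rw [e4]
    push_cast
    rfl
  have c1 : Continuous fun y : ℝ => bb m ((y : ℂ) + 1 / 2) * eu (-(k * y)) :=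
    (hb.comp (by fun_prop)).mul (eu_cont k)
  have c2 : Continuous fun y : ℝ => bb m (y : ℂ) * eu (-(k * y)) :=
    (hb.comp (by fun_prop)).mul (eu_cont k)
  calc 2 * be m k = be m k + be m k := by ring
    _ = (∫ y in (0 : ℝ)..1, bb m ((y : ℂ) + 1 / 2) * eu (-(k * y))) +
        ∫ y in (0 : ℝ)..1, bb m (y : ℂ) * eu (-(k * y)) := by
        congr 1
        rw [e2]
        exact intervalIntegral.integral_congr fun y _ => e3 y
    _ = ∫ y in (0 : ℝ)..1, eu (-(k * y)) := by
        rw [← intervalIntegral.integral_add (hi _ c1) (hi _ c2)]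
        refine intervalIntegral.integral_congr fun y _ => ?_
        rw [← add_mul, bb_add, one_mul]
    _ = _ := int_eu k

lemma be_far (m : ℕ) (k : ℤ) (hk : (2 * m + 1 : ℤ) < |k|) : be m k = 0 := by
  obtain ⟨a, α, σ, h⟩ := HE_bb m
  unfold be
  rw [h.coef k]
  exact h.supp k (by exact_mod_cast hk)

lemma HE_fS (m Y x : ℕ) (hm : 1 ≤ m) (hx : x ≤ Y) : ∃ n, HE (fS m Y x) n := by
  obtain ⟨a, h⟩ := has_fx m Y x hm hx
  have h1 : HE (fx m Y x) (2 * m ^ 2 * 2 ^ x) := ⟨a, _, _, h⟩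
  exact ⟨_, (HE_bb m).mul h1⟩

lemma sum_cS (m Y : ℕ) (hm : 1 ≤ m) (k : ℤ) :
    ∑ x ∈ Finset.range (Y + 1), cS m Y x k = be m k := by
  unfold cS be
  rw [← intervalIntegral.integral_finsetSum]
  · refine intervalIntegral.integral_congr fun y _ => ?_
    rw [← Finset.sum_mul]
    congr 1
    unfold fS
    rw [← Finset.mul_sum, sum_fx m Y hm, mul_one]
  · intro x hx
    obtain ⟨n, h⟩ := HE_fS m Y x hm (by rw [Finset.mem_range] at hx; omega)
    exact ((h.cont.comp Complex.continuous_ofReal).mul (eu_cont k)).intervalIntegrable _ _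

lemma sg_refl (M : ℕ) (z : ℂ) : sg M (1 - z) = sg M z := by
  unfold sg
  refine Finset.sum_nbij' (fun k => -k) (fun k => -k) ?_ ?_ ?_ ?_ ?_
  · intro k hk
    rw [Finset.mem_Icc] at hk ⊢
    omega
  · intro k hk
    rw [Finset.mem_Icc] at hk ⊢
    omega
  · intro k _
    simp
  · intro k _
    simp
  · intro k _
    have h1 : Complex.exp (2 * π * Complex.I * k * (1 - z)) =
        Complex.exp (2 * π * Complex.I * ((-k : ℤ) : ℂ) * z) := by
      rw [show (2 * π * Complex.I * k * (1 - z) : ℂ) =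
        k * (2 * π * Complex.I) + 2 * π * Complex.I * ((-k : ℤ) : ℂ) * z by push_cast; ring,
        Complex.exp_add, Complex.exp_int_mul_two_pi_mul_I, one_mul]
    rw [h1]
    congr 3
    push_cast
    rw [abs_neg]

lemma fS_refl (m Y x : ℕ) (z : ℂ) : fS m Y x (1 - z) = fS m Y x z := by
  unfold fS fx sM
  rw [bb_refl, sg_refl, sg_refl, sg_refl]

lemma cS_symm (m Y x : ℕ) (k : ℤ) : cS m Y x (-k) = cS m Y x k := by
  unfold cS
  have h := intervalIntegral.integral_comp_sub_left (a := 0) (b := 1)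
    (fun y : ℝ => fS m Y x y * eu (-(((-k : ℤ) : ℝ) * y))) (1 : ℝ)
  rw [sub_self, sub_zero] at h
  rw [← h]
  refine intervalIntegral.integral_congr fun y _ => ?_
  have e1 : fS m Y x ((1 - y : ℝ) : ℂ) = fS m Y x y := by
    push_cast
    exact fS_refl m Y x y
  rw [e1, show -(((-k : ℤ) : ℝ) * (1 - y)) = -(k * y) + ((k : ℤ) : ℝ) by push_cast; ring, eu_add,
    eu_int, mul_one]

end CSA

open SPH.CSA STZ3.CFA in
theorem t_CSA : M_CSA := by
  intro _ m hm
  obtain ⟨a, α, σ, hb⟩ := HE_bb m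
  have hα : 0 ≤ α := hb.nn
  have H : ∀ Y x, x ≤ Y → TP (fS m Y x) (cS m Y x) ((2 * m + 1) + 2 * m ^ 2 * 2 ^ x)
      (α * (4 * 2 ^ m)) (α * (4 * 2 ^ m) / 2 ^ x) := by
    intro Y x hx
    obtain ⟨b, hf⟩ := has_fx m Y x hm hx
    have h := (hb.mul hf).mono le_rfl le_rfl
      (le_of_eq (show α * (4 * 2 ^ m / 2 ^ x) = α * (4 * 2 ^ m) / 2 ^ x by ring))
    have e : cS m Y x = _ := funext fun k => h.coef k
    rw [e]
    exact h
  refine ⟨α * (4 * 2 ^ m), by positivity, ?_, ?_, ?_, ?_, ?_, ?_, ?_, ?_, ?_⟩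
  · intro Y
    rw [sum_cS m Y hm]
    have h := be_even m 0 (by decide)
    rw [if_pos rfl] at h
    linear_combination (1 / 2 : ℂ) * h
  · intro Y k hk hk2
    rw [sum_cS m Y hm]
    have h := be_even m k hk2
    rw [if_neg hk] at h
    linear_combination (1 / 2 : ℂ) * h
  · intro Y k hk
    rw [sum_cS m Y hm]
    exact be_far m k hk
  · intro Y x k hx hk
    refine (H Y x hx).supp k ?_
    push_cast
    linarith
  · intro Y x k
    exact cS_symm m Y x k
  · intro Y x K hx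
    exact (H Y x hx).abs _
  · intro Y x k hx
    exact (H Y x hx).sup k
  · intro Y x K hx
    exact (H Y x hx).var _
  · intro Y x K z hx hK
    exact (H Y x hx).sum_eq K (by omega) z

end

end SPH
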