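import Mathlib
import Pool.Agent.SPH.StA
import Pool.Agent.SPH.StB

/-!
# Bounds of the cutoffs on the sphere

Module CSB of the project SPH.
-/

set_option autoImplicit false
set_option linter.unusedVariables false

namespace SPH

open STZ LGR STZ3 MeasureTheory Matrix Filter

open scoped ComplexConjugate Matrix Real Topology

noncomputable section

namespace CSB

lemma sinh_le {t : ℝ} (ht : 0 ≤ t) : Real.sinh t ≤ t * Real.exp t := by
  rw [Real.sinh_eq]
  have h1 := Real.add_one_le_exp (-t)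
  have h2 : Real.exp t * Real.exp (-t) = 1 := by rw [← Real.exp_add]; simp
  have h3 := Real.exp_pos t
  have h4 : Real.exp t - 1 ≤ t * Real.exp t := by nlinarith
  have h5 : t ≤ t * Real.exp t := le_mul_of_one_le_right ht (Real.one_le_exp ht)
  linarith

lemma abs_sinh_le (t : ℝ) : |Real.sinh t| ≤ |t| * Real.exp |t| := by
  rw [Real.abs_sinh]
  exact sinh_le (abs_nonneg t)

lemma sin_le (u : ℝ) : |Real.sin (π * u)| ≤ π * nd u := by
  unfold nd
  have h1 : π * u = π * (u - round u) + (round u : ℤ) * π := by ring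
  have h2 : |Real.sin (π * u)| = |Real.sin (π * (u - round u))| := by
    rw [h1, Real.sin_add_int_mul_pi, abs_mul, abs_zpow, abs_neg, abs_one, _root_.one_zpow, one_mul]
  rw [h2]
  refine (Real.abs_sin_le_abs).trans ?_
  rw [abs_mul, abs_of_pos Real.pi_pos]

lemma cosh_le {y κ : ℝ} (hκ : 0 ≤ κ) (hy : |y| ≤ κ) : Real.cosh (π * y) ≤ Real.cosh (π * κ) := by
  rw [Real.cosh_le_cosh, abs_mul, abs_mul, abs_of_pos Real.pi_pos, abs_of_nonneg hκ]
  exact mul_le_mul_of_nonneg_left hy Real.pi_pos.le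

lemma norm_cos_eq (z : ℂ) : ‖Complex.cos (π * z)‖ ≤
    |Real.cos (π * z.re)| * Real.cosh (π * z.im) + |Real.sin (π * z.re)| * |Real.sinh (π * z.im)| := by
  have h : Complex.cos (π * z) = ((Real.cos (π * z.re) * Real.cosh (π * z.im) : ℝ) : ℂ) -
      ((Real.sin (π * z.re) * Real.sinh (π * z.im) : ℝ) : ℂ) * Complex.I := by
    rw [Complex.cos_eq]
    simp
  rw [h]
  refine (norm_sub_le _ _).trans ?_
  rw [norm_mul, Complex.norm_real, Complex.norm_real, Complex.norm_I, mul_one, Real.norm_eq_abs,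
    Real.norm_eq_abs, abs_mul, abs_mul, abs_of_pos (Real.cosh_pos _)]

lemma norm_cos_le (z : ℂ) : ‖Complex.cos z‖ ≤ Real.cosh z.im := by
  have h1 : ‖Complex.exp (z * Complex.I)‖ = Real.exp (-z.im) := by
    rw [Complex.norm_exp]
    simp
  have h2 : ‖Complex.exp (-z * Complex.I)‖ = Real.exp z.im := by
    rw [Complex.norm_exp]
    simp
  rw [Complex.cos, Real.cosh_eq, norm_div, Complex.norm_two]
  refine div_le_div_of_nonneg_right ((norm_add_le _ _).trans ?_) (by norm_num)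
  rw [h1, h2, add_comm]

lemma norm_sin_le (z : ℂ) : ‖Complex.sin z‖ ≤ Real.cosh z.im := by
  have h1 : ‖Complex.exp (z * Complex.I)‖ = Real.exp (-z.im) := by
    rw [Complex.norm_exp]
    simp
  have h2 : ‖Complex.exp (-z * Complex.I)‖ = Real.exp z.im := by
    rw [Complex.norm_exp]
    simp
  rw [Complex.sin, Real.cosh_eq, norm_div, Complex.norm_two, norm_mul, Complex.norm_I, mul_one]
  refine div_le_div_of_nonneg_right ((norm_sub_le _ _).trans ?_) (by norm_num)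
  rw [h1, h2]

lemma pi_im (z : ℂ) : ((π : ℂ) * z).im = π * z.im := by simp

/-- the constant in the bound for the cosine -/
def c1 (κ : ℝ) : ℝ := π * Real.cosh (π * κ) + π * κ * Real.exp (π * κ)

lemma cos_small {κ : ℝ} (hκ : 0 ≤ κ) (J : ℕ) (z : ℂ) (hz : |z.im| ≤ κ / 2 ^ J) :
    ‖Complex.cos (π * z)‖ ≤ c1 κ * (nd (z.re - 1 / 2) + 1 / 2 ^ J) := by
  have hJ : (1 : ℝ) ≤ 2 ^ J := one_le_pow₀ (by norm_num)
  have hJ0 : (0 : ℝ) < 2 ^ J := by positivity
  have hz' : |z.im| ≤ κ := hz.trans (div_le_self hκ hJ)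
  have h1 := norm_cos_eq z
  have h2 : |Real.cos (π * z.re)| ≤ π * nd (z.re - 1 / 2) := by
    have h3 := sin_le (z.re - 1 / 2)
    rw [show π * (z.re - 1 / 2) = π * z.re - π / 2 by ring, Real.sin_sub_pi_div_two, abs_neg] at h3
    exact h3
  have h3 := cosh_le hκ hz'
  have h4 : |Real.sinh (π * z.im)| ≤ π * (κ / 2 ^ J) * Real.exp (π * κ) := by
    refine (abs_sinh_le _).trans ?_
    have e : |π * z.im| = π * |z.im| := by rw [abs_mul, abs_of_pos Real.pi_pos]
    rw [e]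
    have h5 : Real.exp (π * |z.im|) ≤ Real.exp (π * κ) :=
      Real.exp_le_exp.2 (mul_le_mul_of_nonneg_left hz' Real.pi_pos.le)
    gcongr
  have h5 : |Real.sin (π * z.re)| ≤ 1 := Real.abs_sin_le_one _
  have hnd : 0 ≤ nd (z.re - 1 / 2) := abs_nonneg _
  have hc : 0 < Real.cosh (π * κ) := Real.cosh_pos _
  have he : 0 < Real.exp (π * κ) := Real.exp_pos _
  have hpi := Real.pi_pos
  calc ‖Complex.cos (π * z)‖ ≤ π * nd (z.re - 1 / 2) * Real.cosh (π * κ) +
        1 * (π * (κ / 2 ^ J) * Real.exp (π * κ)) := by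
        refine h1.trans (add_le_add ?_ ?_)
        · exact mul_le_mul h2 h3 (Real.cosh_pos _).le (by positivity)
        · exact mul_le_mul h5 h4 (abs_nonneg _) (by norm_num)
    _ ≤ c1 κ * (nd (z.re - 1 / 2) + 1 / 2 ^ J) := by
        unfold c1
        have q1 : 0 ≤ π * κ * Real.exp (π * κ) * nd (z.re - 1 / 2) := by positivity
        have q2 : 0 ≤ π * Real.cosh (π * κ) * (1 / 2 ^ J) := by positivity
        have q3 : π * (κ / 2 ^ J) * Real.exp (π * κ) = π * κ * Real.exp (π * κ) * (1 / 2 ^ J) := by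
          ring
        rw [one_mul, q3]
        nlinarith

lemma bb_le {κ : ℝ} (hκ : 0 ≤ κ) (m : ℕ) (z : ℂ) (hz : |z.im| ≤ κ) :
    ‖bb m z‖ ≤ 2 ^ (2 * m + 1) * Real.cosh (π * κ) ^ (2 * m + 2) *
      ‖Complex.cos (π * z)‖ ^ (2 * m) := by
  set c := ‖Complex.cos (π * z)‖ with hc
  set ch := Real.cosh (π * κ) with hch
  have h1 : 1 ≤ ch := Real.one_le_cosh _
  have hc0 : 0 ≤ c := norm_nonneg _
  have hcc : c ≤ ch := by
    have := norm_cos_le (π * z)
    rw [pi_im] at this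
    exact this.trans (cosh_le hκ hz)
  have hss : ‖Complex.sin (π * z)‖ ≤ ch := by
    have := norm_sin_le (π * z)
    rw [pi_im] at this
    exact this.trans (cosh_le hκ hz)
  have h2 : ∀ i ∈ Finset.Icc (m + 1) (2 * m + 1),
      ‖((2 * m + 1).choose i : ℂ) * Complex.cos (π * z) ^ (2 * i) *
        Complex.sin (π * z) ^ (2 * (2 * m + 1 - i))‖ ≤
      ((2 * m + 1).choose i : ℝ) * (ch ^ (2 * m + 2) * c ^ (2 * m)) := by
    intro i hi
    rw [Finset.mem_Icc] at hi
    rw [norm_mul, norm_mul, norm_pow, norm_pow, Complex.norm_natCast, mul_assoc]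
    refine mul_le_mul_of_nonneg_left ?_ (Nat.cast_nonneg _)
    have e1 : c ^ (2 * i) = c ^ (2 * m) * c ^ (2 * i - 2 * m) := by
      rw [← pow_add]
      congr 1
      omega
    have e2 : ch ^ (2 * m + 2) = ch ^ (2 * i - 2 * m) * ch ^ (2 * (2 * m + 1 - i)) := by
      rw [← pow_add]
      congr 1
      omega
    rw [← hc, e1, e2]
    calc c ^ (2 * m) * c ^ (2 * i - 2 * m) * ‖Complex.sin (π * z)‖ ^ (2 * (2 * m + 1 - i))
        ≤ c ^ (2 * m) * ch ^ (2 * i - 2 * m) * ch ^ (2 * (2 * m + 1 - i)) := by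
          gcongr
      _ = _ := by ring
  unfold bb
  refine (norm_sum_le _ _).trans ((Finset.sum_le_sum h2).trans ?_)
  rw [← Finset.sum_mul, mul_assoc]
  refine mul_le_mul_of_nonneg_right ?_ (by positivity)
  have h3 : (∑ i ∈ Finset.range (2 * m + 2), ((2 * m + 1).choose i : ℝ)) = 2 ^ (2 * m + 1) := by
    exact_mod_cast Nat.sum_range_choose (2 * m + 1)
  rw [← h3]
  refine Finset.sum_le_sum_of_subset_of_nonneg ?_ (fun _ _ _ => Nat.cast_nonneg _)
  intro i hi
  rw [Finset.mem_Icc] at hi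
  rw [Finset.mem_range]
  omega

end CSB

open SPH.CSB in
theorem t_CSB : M_CSB := by
  intro hB m κ hm hκ
  obtain ⟨C₀, hC₀, hf⟩ := hB m κ hm hκ
  set ch := Real.cosh (π * κ) with hch
  have h1 : 1 ≤ ch := Real.one_le_cosh _
  have hc1 : 0 ≤ c1 κ := by
    unfold c1
    have := Real.pi_pos
    have := Real.cosh_pos (π * κ)
    positivity
  set B1 : ℝ := 2 ^ (2 * m + 1) * ch ^ (2 * m + 2) * ch ^ (2 * m) with hB1
  set B2 : ℝ := 2 ^ (2 * m + 1) * ch ^ (2 * m + 2) * c1 κ ^ (2 * m) with hB2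
  have hB1' : 0 ≤ B1 := by positivity
  have hB2' : 0 ≤ B2 := by positivity
  refine ⟨(B1 + B2) * C₀, by positivity, ?_⟩
  intro J Y x z hx hY hz
  have hJ : (1 : ℝ) ≤ 2 ^ J := one_le_pow₀ (by norm_num)
  have hz' : |z.im| ≤ κ := hz.trans (div_le_self hκ hJ)
  have hzY : |z.im| ≤ κ / 2 ^ Y := by
    refine hz.trans ?_
    gcongr
    norm_num
  have hbb := bb_le hκ m z hz'
  have hcc : ‖Complex.cos (π * z)‖ ≤ ch := by
    have := norm_cos_le (π * z)
    rw [pi_im] at this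
    exact this.trans (cosh_le hκ hz')
  have b1 : ‖bb m z‖ ≤ B1 := by
    refine hbb.trans ?_
    rw [hB1]
    gcongr
  have b2 : ‖bb m z‖ ≤ B2 * (nd (z.re - 1 / 2) + 1 / 2 ^ J) ^ (2 * m) := by
    refine hbb.trans ?_
    rw [hB2, mul_assoc _ (c1 κ ^ (2 * m)), ← mul_pow]
    have := cos_small hκ J z hz
    gcongr
  obtain ⟨f1, f2⟩ := hf Y x z hx hzY
  have hnd : 0 ≤ nd z.re := abs_nonneg _
  have hp : (1 : ℝ) ≤ (1 + 2 ^ x * nd z.re) ^ (2 * m) := by
    apply one_le_pow₀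
    have : 0 ≤ 2 ^ x * nd z.re := by positivity
    linarith
  have f3 : ‖fx m Y x z‖ ≤ C₀ := le_trans (le_mul_of_one_le_right (norm_nonneg _) hp) f1
  unfold fS
  rw [norm_mul]
  refine ⟨?_, ?_, ?_⟩
  · rw [mul_assoc]
    calc ‖bb m z‖ * (‖fx m Y x z‖ * (1 + 2 ^ x * nd z.re) ^ (2 * m)) ≤ B1 * C₀ := by
          gcongr
      _ ≤ (B1 + B2) * C₀ := by
          have := mul_nonneg hB2' hC₀
          linarith
  · intro hxY
    obtain ⟨_, g2⟩ := hf J x z (by omega) hz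
    have e : fx m J x z = fx m Y x z := by
      unfold fx
      rw [if_pos (by omega), if_pos hxY]
    rw [e] at g2
    have g3 := g2 (by omega)
    have hq : 0 ≤ (2 ^ x * (nd z.re + 1 / 2 ^ J)) ^ (2 * m) := by positivity
    calc ‖bb m z‖ * ‖fx m Y x z‖ ≤ B1 * (C₀ * (2 ^ x * (nd z.re + 1 / 2 ^ J)) ^ (2 * m)) := by
          gcongr
      _ ≤ (B1 + B2) * C₀ * (2 ^ x * (nd z.re + 1 / 2 ^ J)) ^ (2 * m) := by
          have := mul_nonneg (mul_nonneg hB2' hC₀) hq
          linarith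
  · have hnd2 : 0 ≤ nd (z.re - 1 / 2) := abs_nonneg _
    have hq : 0 ≤ (nd (z.re - 1 / 2) + 1 / 2 ^ J) ^ (2 * m) := by positivity
    calc ‖bb m z‖ * ‖fx m Y x z‖ ≤ (B2 * (nd (z.re - 1 / 2) + 1 / 2 ^ J) ^ (2 * m)) * C₀ := by
          gcongr
      _ ≤ (B1 + B2) * C₀ * (nd (z.re - 1 / 2) + 1 / 2 ^ J) ^ (2 * m) := by
          have := mul_nonneg (mul_nonneg hB1' hC₀) hq
          linarith

end

end SPH
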