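import Pool.Agent.SPH.StF

/-!
# The sphere: module DIM
-/

namespace SPH

open STZ LGR STZ3 MeasureTheory Matrix Filter

open scoped ComplexConjugate Matrix Real Topology

noncomputable section

namespace DIM

variable {N : ℕ} {H : Subgroup (SU N)}

theorem coe_smul (s : ℝ) (X : MT N) : (s : ℂ) • X = s • X := by
  ext i j
  simp

/-- the Lie algebra as a real subspace -/
def LS (F : LIF H) : Submodule ℝ (MT N) where
  carrier := lie H
  zero_mem' := F.zero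
  add_mem' := fun {a b} ha hb => F.add a ha b hb
  smul_mem' := fun s X hX => by
    have h := F.smul s X hX
    rw [coe_smul] at h
    exact h

theorem mem_LS (F : LIF H) (X : MT N) : X ∈ LS F ↔ X ∈ lie H := Iff.rfl

/-- the tangent space -/
def PS (F : LIF H) (τ : MT N →ₗ[ℝ] MT N) : Submodule ℝ (MT N) :=
  LS F ⊓ LinearMap.ker (τ + LinearMap.id)

theorem mem_PS (F : LIF H) (τ : MT N →ₗ[ℝ] MT N) (X : MT N) :
    X ∈ PS F τ ↔ X ∈ lie H ∧ τ X = -X := by
  unfold PS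
  rw [Submodule.mem_inf, mem_LS, LinearMap.mem_ker, LinearMap.add_apply, LinearMap.id_apply,
    add_eq_zero_iff_eq_neg]

open scoped ComplexOrder in
theorem double_ad (A Q : MT N) (hA : Aᴴ = -A) (hQ : Qᴴ = -Q)
    (h : A * (A * Q - Q * A) = (A * Q - Q * A) * A) : A * Q - Q * A = 0 := by
  set C := A * Q - Q * A with hC
  have h1 : Cᴴ = -C := by
    rw [hC, Matrix.conjTranspose_sub, Matrix.conjTranspose_mul, Matrix.conjTranspose_mul, hA, hQ]
    noncomm_ring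
  have h2 : (C * C).trace = 0 := by
    have h3 : C * C = A * (Q * C) - Q * C * A := by
      have h4 : Q * C * A = Q * (A * C) := by rw [mul_assoc, h]
      have h5 : C * C = (A * Q - Q * A) * C := congrArg (· * C) hC
      rw [h4, h5, sub_mul, mul_assoc, mul_assoc]
    rw [h3, Matrix.trace_sub, Matrix.trace_mul_comm A, sub_self]
  have h3 : (C * Cᴴ).trace = 0 := by
    rw [h1, mul_neg, Matrix.trace_neg, h2, neg_zero]
  exact Matrix.trace_mul_conjTranspose_self_eq_zero_iff.1 h3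

end DIM

open DIM in
theorem t_DIM : M_DIM := by
  intro hLIEB hTAUS N H K σ τ D hcl hS hSP hD h2
  have F := hLIEB N H hcl
  have hT := hTAUS N H K σ τ hcl hS hSP
  have hLS : Submodule.span ℝ (lie H) = LS F := by
    have h : ((LS F : Submodule ℝ (MT N)) : Set (MT N)) = lie H := rfl
    rw [← h, Submodule.span_eq]
  have hPS : Submodule.span ℝ {X | X ∈ lie H ∧ τ X = -X} = PS F τ := by
    have h : ((PS F τ : Submodule ℝ (MT N)) : Set (MT N)) = {X | X ∈ lie H ∧ τ X = -X} := by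
      ext X
      exact mem_PS F τ X
    rw [← h, Submodule.span_eq]
  rw [hLS] at hD
  rw [hPS] at h2
  -- the basis of the tangent space
  set b := Module.finBasisOfFinrankEq ℝ (PS F τ) h2 with hb
  set X₁ : MT N := (b 0).1 with hX₁
  set X₂ : MT N := (b 1).1 with hX₂
  have hX₁P : X₁ ∈ PS F τ := (b 0).2
  have hX₂P : X₂ ∈ PS F τ := (b 1).2
  have hspan : ∀ Y ∈ PS F τ, ∃ s t : ℝ, Y = s • X₁ + t • X₂ := by
    intro Y hY
    refine ⟨b.repr ⟨Y, hY⟩ 0, b.repr ⟨Y, hY⟩ 1, ?_⟩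
    have h := b.sum_repr ⟨Y, hY⟩
    rw [Fin.sum_univ_two] at h
    exact (congrArg Subtype.val h).symm
  set Z : MT N := X₁ * X₂ - X₂ * X₁ with hZ
  obtain ⟨hX₁H, hX₁τ⟩ := (mem_PS F τ X₁).1 hX₁P
  obtain ⟨hX₂H, hX₂τ⟩ := (mem_PS F τ X₂).1 hX₂P
  have hZH : Z ∈ lie H := F.br X₁ hX₁H X₂ hX₂H
  have hZτ : τ Z = Z := by
    rw [hZ, hT.br X₁ hX₁H X₂ hX₂H, hX₁τ, hX₂τ]
    noncomm_ring
  -- the brackets
  have hpp : ∀ Y ∈ PS F τ, ∀ Y' ∈ PS F τ, ∃ s : ℝ, Y * Y' - Y' * Y = s • Z := by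
    intro Y hY Y' hY'
    obtain ⟨s, t, rfl⟩ := hspan Y hY
    obtain ⟨s', t', rfl⟩ := hspan Y' hY'
    refine ⟨s * t' - t * s', ?_⟩
    rw [hZ]
    simp only [add_mul, mul_add, Matrix.smul_mul, Matrix.mul_smul, smul_smul, smul_sub, sub_smul]
    rw [mul_comm s' s, mul_comm t' s, mul_comm s' t, mul_comm t' t]
    abel
  have hkp : ∀ U ∈ lie H, τ U = U → ∀ Y ∈ PS F τ, U * Y - Y * U ∈ PS F τ := by
    intro U hU hUτ Y hY
    obtain ⟨hYH, hYτ⟩ := (mem_PS F τ Y).1 hY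
    refine (mem_PS F τ _).2 ⟨F.br U hU Y hYH, ?_⟩
    rw [hT.br U hU Y hYH, hUτ, hYτ]
    noncomm_ring
  have hkZ : ∀ U ∈ lie H, τ U = U → ∃ s : ℝ, U * Z - Z * U = s • Z := by
    intro U hU hUτ
    obtain ⟨s, hs⟩ := hpp _ (hkp U hU hUτ X₁ hX₁P) X₂ hX₂P
    obtain ⟨t, ht⟩ := hpp X₁ hX₁P _ (hkp U hU hUτ X₂ hX₂P)
    refine ⟨s + t, ?_⟩
    rw [add_smul, ← hs, ← ht, hZ]
    noncomm_ring
  have hdec : ∀ X ∈ lie H, ∃ U ∈ lie H, ∃ Y ∈ PS F τ, τ U = U ∧ X = U + Y := by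
    intro X hX
    have h1 := hSP.mem X hX
    have h3 := hT.inv X hX
    have h4 : (1 / 2 : ℝ) • (X + τ X) ∈ LS F :=
      (LS F).smul_mem _ ((LS F).add_mem hX h1)
    have h5 : (1 / 2 : ℝ) • (X - τ X) ∈ LS F :=
      (LS F).smul_mem _ ((LS F).sub_mem hX h1)
    refine ⟨(1 / 2 : ℝ) • (X + τ X), h4, (1 / 2 : ℝ) • (X - τ X), (mem_PS F τ _).2 ⟨h5, ?_⟩, ?_, ?_⟩
    · rw [map_smul, map_sub, h3, ← smul_neg, neg_sub]
    · rw [map_smul, map_add, h3, add_comm]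
    · rw [← smul_add]
      have h6 : X + τ X + (X - τ X) = (2 : ℝ) • X := by
        rw [two_smul]
        abel
      rw [h6, smul_smul]
      norm_num
  -- the ideal
  set V : Submodule ℝ (MT N) := PS F τ ⊔ Submodule.span ℝ {Z} with hV
  have hVmem : ∀ X, X ∈ V ↔ ∃ Y ∈ PS F τ, ∃ s : ℝ, X = Y + s • Z := by
    intro X
    rw [hV, Submodule.mem_sup]
    constructor
    · rintro ⟨Y, hY, W, hW, rfl⟩
      obtain ⟨s, rfl⟩ := Submodule.mem_span_singleton.1 hW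
      exact ⟨Y, hY, s, rfl⟩
    · rintro ⟨Y, hY, s, rfl⟩
      exact ⟨Y, hY, s • Z, Submodule.mem_span_singleton.2 ⟨s, rfl⟩, rfl⟩
  have hZV : ∀ s : ℝ, s • Z ∈ V := fun s => (hVmem _).2 ⟨0, (PS F τ).zero_mem, s, by rw [zero_add]⟩
  have hPV : ∀ Y ∈ PS F τ, Y ∈ V := fun Y hY => (hVmem _).2 ⟨Y, hY, 0, by rw [zero_smul, add_zero]⟩
  have hVsub : ∀ X ∈ V, X ∈ lie H := by
    intro X hX
    obtain ⟨Y, hY, s, rfl⟩ := (hVmem X).1 hX
    exact (LS F).add_mem ((mem_PS F τ Y).1 hY).1 ((LS F).smul_mem s hZH)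
  have hVid : ∀ X ∈ lie H, ∀ W ∈ V, X * W - W * X ∈ V := by
    intro X hX W hW
    obtain ⟨U, hU, Y, hY, hUτ, rfl⟩ := hdec X hX
    obtain ⟨Y', hY', s, rfl⟩ := (hVmem W).1 hW
    have e : (U + Y) * (Y' + s • Z) - (Y' + s • Z) * (U + Y) =
        (U * Y' - Y' * U) + s • (U * Z - Z * U) + (Y * Y' - Y' * Y) - s • (Z * Y - Y * Z) := by
      simp only [add_mul, mul_add, Matrix.smul_mul, Matrix.mul_smul, smul_sub]
      abel
    rw [e]
    obtain ⟨a, ha⟩ := hkZ U hU hUτ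
    obtain ⟨a', ha'⟩ := hpp Y hY Y' hY'
    rw [ha, ha']
    refine V.sub_mem (V.add_mem (V.add_mem (hPV _ (hkp U hU hUτ Y' hY')) ?_) (hZV a')) ?_
    · exact V.smul_mem s (hZV a)
    · exact V.smul_mem s (hPV _ (hkp Z hZH hZτ Y hY))
  have hVbot : V ≠ ⊥ := by
    intro h
    have h3 : PS F τ ≤ ⊥ := by
      rw [← h]
      exact le_sup_left
    have h4 : PS F τ = ⊥ := le_bot_iff.1 h3
    rw [h4, finrank_bot] at h2
    omega
  have hVall : ∀ X ∈ lie H, X ∈ V := (hS.2 V hVsub hVid).resolve_left hVbot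
  have hVLS : V = LS F := by
    ext X
    exact ⟨fun h => hVsub X h, fun h => hVall X h⟩
  have hZ0 : Z ≠ 0 := by
    intro h0
    obtain ⟨X, hX, Y, hY, hXY⟩ := hS.1
    obtain ⟨P, hP, s, rfl⟩ := (hVmem X).1 (hVall X hX)
    obtain ⟨P', hP', s', rfl⟩ := (hVmem Y).1 (hVall Y hY)
    obtain ⟨t, ht⟩ := hpp P hP P' hP'
    rw [h0, smul_zero] at ht
    apply hXY
    rw [h0, smul_zero, smul_zero, add_zero, add_zero]
    exact sub_eq_zero.1 ht
  have hinf : PS F τ ⊓ Submodule.span ℝ {Z} = ⊥ := by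
    rw [Submodule.eq_bot_iff]
    intro X hX
    obtain ⟨h3, h4⟩ := Submodule.mem_inf.1 hX
    obtain ⟨s, rfl⟩ := Submodule.mem_span_singleton.1 h4
    have h5 := ((mem_PS F τ _).1 h3).2
    rw [map_smul, hZτ] at h5
    have h6 : (2 : ℝ) • (s • Z) = 0 := by
      rw [two_smul]
      nth_rewrite 1 [h5]
      rw [neg_add_cancel]
    exact (smul_eq_zero.1 h6).resolve_left two_ne_zero
  have hf1 : Module.finrank ℝ (Submodule.span ℝ {Z}) = 1 := finrank_span_singleton hZ0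
  refine ⟨?_, Submodule.span ℝ {Z}, ⟨?_, ?_, ?_⟩, hf1, ?_⟩
  · have h3 := Submodule.finrank_sup_add_finrank_inf_eq (PS F τ) (Submodule.span ℝ {Z})
    rw [hinf, finrank_bot, h2, hf1, ← hV, hVLS, hD] at h3
    omega
  · intro X hX
    obtain ⟨s, rfl⟩ := Submodule.mem_span_singleton.1 hX
    exact (LS F).smul_mem s hZH
  · intro X hX Y hY
    obtain ⟨s, rfl⟩ := Submodule.mem_span_singleton.1 hX
    obtain ⟨t, rfl⟩ := Submodule.mem_span_singleton.1 hY
    rw [Matrix.smul_mul, Matrix.smul_mul, Matrix.mul_smul, Matrix.mul_smul, smul_comm]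
  · intro X hX hXZ
    have h3 := hXZ Z (Submodule.mem_span_singleton_self Z)
    obtain ⟨P, hP, c, rfl⟩ := (hVmem X).1 (hVall X hX)
    obtain ⟨a, t, rfl⟩ := hspan P hP
    set P := a • X₁ + t • X₂ with hPdef
    have hPH : P ∈ lie H := ((mem_PS F τ P).1 hP).1
    have hPZ : P * Z = Z * P := by
      rw [add_mul, mul_add, Matrix.smul_mul, Matrix.mul_smul] at h3
      exact add_right_cancel h3
    have hPs : Pᴴ = -P := (F.su P hPH).1
    have h4 : P * X₂ - X₂ * P = a • Z := by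
      rw [hPdef, hZ]
      simp only [add_mul, mul_add, Matrix.smul_mul, Matrix.mul_smul, smul_sub]
      abel
    have h5 : P * X₁ - X₁ * P = (-t) • Z := by
      rw [hPdef, hZ]
      simp only [add_mul, mul_add, Matrix.smul_mul, Matrix.mul_smul, smul_sub, neg_smul]
      abel
    have h6 := double_ad P X₂ hPs (F.su X₂ hX₂H).1 (by
      rw [h4, Matrix.mul_smul, Matrix.smul_mul, hPZ])
    have h7 := double_ad P X₁ hPs (F.su X₁ hX₁H).1 (by
      rw [h5, Matrix.mul_smul, Matrix.smul_mul, hPZ])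
    rw [h4] at h6
    rw [h5] at h7
    have h8 : a = 0 := (smul_eq_zero.1 h6).resolve_right hZ0
    have h9 : t = 0 := by
      have := (smul_eq_zero.1 h7).resolve_right hZ0
      linarith
    have h10 : P = 0 := by
      rw [hPdef, h8, h9, zero_smul, zero_smul, add_zero]
    rw [h10, zero_add]
    exact Submodule.mem_span_singleton.2 ⟨c, rfl⟩
  · intro X hX
    obtain ⟨s, rfl⟩ := Submodule.mem_span_singleton.1 hX
    refine hSP.big _ ((LS F).smul_mem s hZH) ?_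
    rw [map_smul, hZτ]

end

end SPH
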