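import Pool.Agent.SPH.StF

/-!
# Module FIN: the upper bound for the sphere and the projective plane, from its parts (helper92)
-/

set_option autoImplicit false

namespace SPH

open STZ LGR STZ3 MeasureTheory Matrix Filter

open scoped ComplexConjugate Matrix Real Topology

noncomputable section

/-- assembly -/
theorem t_FIN : M_FIN := by
  intro _ hTAUF hLRDX hKFRM hFORM hGXOC hDIM hSPX hKPR hLWS hTPS hMXS hLTS hSTS N H K σ τ D hcl hco
    hsi hsy hD h2 p hp μ hμ hi a b hab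
  obtain ⟨hD3, T, hT, hr, hTK⟩ := hDIM N H K σ τ D hcl hsi hsy hD h2
  subst hD3
  obtain ⟨Φ, B, Hc, E, hL, hTx⟩ := hLRDX N H T 1 hcl hsi hT hr.symm
  obtain ⟨c, hc, hfr, hK⟩ := hKFRM N H hcl hsi
  obtain ⟨X, hX⟩ := hfr 3 hD
  obtain ⟨k, hk⟩ := hFORM N H 1 Φ B Hc E hcl hL le_rfl c hc
  have hCX : CX H Φ B Hc E c k 3 := ⟨le_rfl, hcl, hco, hL, hk, ⟨X, hX⟩⟩
  have hTF := hTAUF N H 1 Φ B Hc E hcl hL
  have htt : ∀ θ : Fin 1 → ℝ, (tt H Hc θ).1 ∈ K := by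
    intro θ
    have h1 : (tt H Hc θ).1 = ta Hc θ := by
      unfold tt
      rw [dif_pos (hTF.mem θ)]
    rw [h1]
    have h3 : hx Hc (fun j => 2 * π * θ j) ∈ T := (hTx _).2 ⟨_, rfl⟩
    exact (hTK _ h3).2 1
  obtain ⟨⟨χ, hχ⟩, -⟩ := hGXOC N H 1 Φ B Hc E c k 3 X le_rfl hcl hco hL hk hX
  obtain ⟨cc, ze, w, C₀, hS, hcc⟩ := hSPX N H Φ B Hc E c k hCX
  have hP : KPF χ cc w μ := hKPR N H Φ B Hc E c k hCX cc ze w C₀ hS hcc χ hχ μ
  have hcpt : CompactSpace H := isCompact_iff_compactSpace.1 hcl.isCompact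
  have h2c : SecondCountableTopology H := TopologicalSpace.Subtype.secondCountableTopology _
  refine hSTS N H K Φ B Hc E c k hCX (fun Y hY => hK 3 Y hY) htt cc ze w C₀ hS μ χ hχ hP ?_ p hp a b
    hab
  intro e he
  exact hLTS H μ (PX Hc e) (KQ χ e) 1 (1 : ℝ) (fun i : PX Hc e => wG i.1.1)
    (fun l => -(rd Φ).Q l) (14 / 3) (1 / 2) zero_le_one (by norm_num)
    (hMXS N H Φ B Hc E c k hCX cc w χ μ hP e)
    (hTPS N H Φ B Hc E c k hCX cc ze w C₀ hS μ χ hP e he)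
    (hLWS N H Φ B Hc E c k hCX cc ze w C₀ hS hcc μ χ hχ hP e he)

end

end SPH
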