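import Pool.Agent.SPH.StB

/-!
# The sphere S²: packets, the bound with loss (sections 5, 6, 7 of `PAPER.md`)

Module `X` proves `theorem t_X : M_X` (or `t_X : S_X` if there is no `M_X`) in the file `Pool/Agent/SPH/X.lean`, namespace `SPH`. The scale of the frequencies is `X = 2 ^ J`. `TX`, `km`, `FM`, `J3`, `vn`, `po`, `uq` are in `Pool/Agent/STZ3/StM.lean`, `VV`, `PM`, `ps`, `tt` in `StP.lean`, `BF`, `mG` in `StS.lean`.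
-/

namespace SPH

open STZ LGR STZ3 MeasureTheory Matrix Filter

open scoped ComplexConjugate Matrix Real Topology

noncomputable section

/-! ### the form -/

/-- the form, restricted to the `h ∈ Bd` -/
def TB {N : ℕ} {H : Subgroup (SU N)} (Hc : Fin 1 → MT N) (μ : Measure H) (ker : ℝ → (Fin 1 → ℝ) → ℂ) (Bd : Set H)
    (V W : ℝ → H → H → ℂ) : ℂ :=
  ∫ t in (0 : ℝ)..1, ∫ s in (0 : ℝ)..1, ∫ h in Bd, ∫ g, (∫ θ in Set.Icc (0 : Fin 1 → ℝ) 1,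
    ker (t - s) θ * (V s h g * conj (W t h (g * tt H Hc θ)))) ∂μ ∂μ

/-- NRS. BRP for all times `t`, `s`, with `nf ν = nS m Y x e J (t - s) (ν 0)`: `wa Φ nf (wG i.1) = nS (lw i)` (`R1F.wa`, `NSF.even`), `lm Φ ϑ nf = aS`. The continuity of both sides as in NRP (`Pool/Agent/STZ3/NRP.lean`). -/
def S_NRS : Prop := ∀ (N : ℕ) (H : Subgroup (SU N)) (Φ : RT 1) (B : Matrix (Fin 1) (Fin 1) ℤ)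
  (Hc : Fin 1 → MT N) (E : (Fin 1 → ℤ) × (Fin 1 → ℤ) → MT N) (c k : ℝ), CX H Φ B Hc E c k 3 →
  ∀ (μ : Measure H) [IsProbabilityMeasure μ] [μ.IsMulLeftInvariant] (χ : IX Hc → H → ℂ), CHI Φ Hc c k 3 χ →
  ∀ (m : ℕ) (C₁ : ℝ), 1 ≤ m → CSF m C₁ → ∀ (J Y x e : ℕ) (T : Finset (Fin 1 → ℤ)) (F : Finset (IX Hc))
    (κ : Measure H) (G : ℝ → H → ℂ), x ≤ Y → (∀ τ l, aS Φ m Y x e J τ l ≠ 0 → l ∈ T) →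
    (∀ τ (i : IX Hc), nS m Y x e J τ (lw i) ≠ 0 → i ∈ F) → PM H Φ E c k (1 / 2 ^ (x + J)) κ → JC G →
    BF μ χ F (fun t i => nS m Y x e J t (lw i)) G =
      TX Hc μ (km (aS Φ m Y x e J) T fun _ => 1) (fun t h g => VV κ h (G t) g) (fun t h g => VV κ h (G t) g)

def M_NRS : Prop := S_WFAC → S_PSF → S_RNK → S_NSX → S_BRP → S_NRS

/-- RED. The reduction to the `h ∈ Bd` and to the near part of the packet measure. For fixed `t`, `s`, `h` use PLA. `km a T 1` is `km` with the coefficients `a Ψ³` plus `a (1 - Ψ³)`; the second part is at most `A₀ η ‖V_s‖₂ ‖V_t‖₂` (`V_t = VV κ h (G t)`), and `∫_h ‖V_t‖₂² ≤ ‖G_t‖₂²` (`|VV|² ≤ ∫ |G (g z h⁻¹)|² dκ`, invariance).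
The first part is `TX (km a T Ψ) (po V) (po V)` (first claim of PLA). For `h ∉ Bd` the inner form is at most `A₀ C₂ ‖po V_s‖₂ ‖po V_t‖₂ ≤ A₀ C₂ η² ‖G_s‖₂ ‖G_t‖₂`. For `h ∈ Bd` replace `V` by `vn`: `po V - po vn = po (V - vn)`, the `L²` norm of `po F` is at most `2 C₂` times that of `F`, and `∫_h ‖V_t - vn_t‖₂² ≤ η² ‖G_t‖₂²` (VCN).
`∫_t ‖G_t‖₂² ≤ mG` as `‖G‖ ≤ 1`; Cauchy-Schwarz in `h`, `t`, `s`. -/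
def S_RED : Prop := ∀ (N : ℕ) (H : Subgroup (SU N)) (Φ : RT 1) (B : Matrix (Fin 1) (Fin 1) ℤ)
  (Hc : Fin 1 → MT N) (E : (Fin 1 → ℤ) × (Fin 1 → ℤ) → MT N) (c k : ℝ), CX H Φ B Hc E c k 3 →
  ∀ (μ : Measure H) [IsProbabilityMeasure μ] [μ.IsMulLeftInvariant] (C₂ : ℝ), 0 ≤ C₂ → ∃ C : ℝ, 0 ≤ C ∧
    ∀ (a : ℝ → (Fin 1 → ℤ) → ℂ) (T : Finset (Fin 1 → ℤ)) (Ψ : (Fin 1 → ℤ) → ℝ) (ν₁ ν₂ : Measure (Fin 1 → ℝ)) (R : ℝ)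
      (κ : Measure H) (ρ : ℝ) (Bd : Set H) (G : ℝ → H → ℂ) (A₀ η : ℝ), (∀ l, Continuous fun τ => a τ l) → 0 ≤ A₀ →
      (∀ τ, ∀ l ∈ T, ‖a τ l‖ ≤ A₀) → (∀ τ, ∀ l ∈ T, ‖a τ l‖ * |1 - Ψ l ^ 3| ≤ A₀ * η) → FM C₂ R Ψ ν₁ ν₂ →
      (∀ l, |Ψ l| ≤ C₂) → IsProbabilityMeasure κ → 0 ≤ η → η ≤ 1 → κ.real {z | ρ ^ 2 ≤ ps z} ≤ η → MeasurableSet Bd →
      JC G → (∀ t y, ‖G t y‖ ≤ 1) →
      (∀ t, ∀ h ∉ Bd, ∫ g, ‖po Hc ν₁ ν₂ (fun t h g => VV κ h (G t) g) t h g‖ ^ 2 ∂μ ≤ η ^ 2 * ∫ g, ‖G t g‖ ^ 2 ∂μ) →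
      ‖TX Hc μ (km a T fun _ => 1) (fun t h g => VV κ h (G t) g) (fun t h g => VV κ h (G t) g) -
        TB Hc μ (km a T Ψ) Bd (po Hc ν₁ ν₂ (vn κ ρ G)) (po Hc ν₁ ν₂ (vn κ ρ G))‖ ≤ C * A₀ * η * mG μ G

def M_RED : Prop := S_HAAR → S_PSF → S_VCN → S_PLA → S_RED

/-- CLB. As CLL (`Pool/Agent/STZ3/CLL.lean`), with `h ∈ Bd`. -/
def S_CLB : Prop := ∀ (N : ℕ) (H : Subgroup (SU N)) (Φ : RT 1) (B : Matrix (Fin 1) (Fin 1) ℤ)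
  (Hc : Fin 1 → MT N) (E : (Fin 1 → ℤ) × (Fin 1 → ℤ) → MT N) (c k : ℝ), CX H Φ B Hc E c k 3 →
  ∀ (μ : Measure H) [IsProbabilityMeasure μ] [μ.IsMulLeftInvariant] (ker : ℝ → (Fin 1 → ℝ) → ℂ)
    (V W : ℝ → H → H → ℂ) (Bd : Set H) (Q S : Set (Fin 1 → ℝ)) (η : ℝ),
    (Continuous fun z : ℝ × (Fin 1 → ℝ) => ker z.1 z.2) → (∀ τ θ (n : Fin 1 → ℤ), ker τ (θ + fun i => (n i : ℝ)) = ker τ θ) →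
    J3 V → J3 W → MeasurableSet Bd → MeasurableSet Q → MeasurableSet S → Q ⊆ Set.Icc 0 1 → S ⊆ Set.Icc 0 1 →
    0 < volume.real Q → 0 ≤ η →
    (∀ φ ∈ Q, ∀ θ ∈ Set.Icc (0 : Fin 1 → ℝ) 1, θ ∉ S → ∀ τ, ‖ker τ (θ - φ)‖ ≤ η) →
    ‖TB Hc μ ker Bd V W‖ ≤ 1 / volume.real Q * ‖∫ h in Bd, ∫ g, (∫ t in (0 : ℝ)..1, ∫ s in (0 : ℝ)..1,
        ∫ φ in Set.Icc (0 : Fin 1 → ℝ) 1, ∫ θ in Set.Icc (0 : Fin 1 → ℝ) 1,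
          ker (t - s) (θ - φ) * (uq Hc Q V h g s φ * conj (uq Hc S W h g t θ))) ∂μ ∂μ‖ +
      η * ∫ t in (0 : ℝ)..1, ∫ s in (0 : ℝ)..1, ∫ h, ∫ g, (∫ θ in Set.Icc (0 : Fin 1 → ℝ) 1,
        ‖V s h g‖ * ‖W t h (g * tt H Hc θ)‖) ∂μ ∂μ

def M_CLB : Prop := S_HAAR → S_PSF → S_CLB

/-- KHB. As KHO (`Pool/Agent/STZ3/KHO.lean`): `KBd` for every `(h, g)`, then Hölder. `‖u‖_(14/11) ≤ ‖u‖₁^(4/7) ‖u‖₂^(3/7)`: `(∫ |u|^(14/11))^(11/14) ≤ (∫ |u|)^(4/7) (∫ |u|²)^(3/14)` (`11/14 = 4/7 + 3/14`) for `u = uq Q V h g` and `uq S W h g`; then Hölder's inequality in `(h, g)`, `h ∈ Bd`, with the exponents `4/7, 3/14, 3/14`, and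
`∫_h ∫_g ∫_t ∫_(φ ∈ Q) |V t h (g tt φ)|² = |Q| ∫ t, ∫ h, ∫ g, |V|²`. -/
def S_KHB : Prop := ∀ (N : ℕ) (H : Subgroup (SU N)) (Φ : RT 1) (B : Matrix (Fin 1) (Fin 1) ℤ)
  (Hc : Fin 1 → MT N) (E : (Fin 1 → ℤ) × (Fin 1 → ℤ) → MT N) (c k : ℝ), CX H Φ B Hc E c k 3 →
  ∀ (μ : Measure H) [IsProbabilityMeasure μ] [μ.IsMulLeftInvariant] (ker : ℝ → (Fin 1 → ℝ) → ℂ) (D b : ℝ)
    (V W : ℝ → H → H → ℂ) (Bd : Set H) (Q S : Set (Fin 1 → ℝ)), KBd ker D → 0 ≤ D → J3 V → J3 W →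
    (∀ t h g, ‖V t h g‖ ≤ b) → (∀ t h g, ‖W t h g‖ ≤ b) → MeasurableSet Bd → MeasurableSet Q → MeasurableSet S →
    Q ⊆ Set.Icc 0 1 → S ⊆ Set.Icc 0 1 →
    ‖∫ h in Bd, ∫ g, (∫ t in (0 : ℝ)..1, ∫ s in (0 : ℝ)..1, ∫ φ in Set.Icc (0 : Fin 1 → ℝ) 1,
        ∫ θ in Set.Icc (0 : Fin 1 → ℝ) 1,
          ker (t - s) (θ - φ) * (uq Hc Q V h g s φ * conj (uq Hc S W h g t θ))) ∂μ ∂μ‖ ≤
      D * (volume.real Q * volume.real S) ^ ((1 : ℝ) / 7) *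
        ((∫ h in Bd, ∫ g, (∫ t in (0 : ℝ)..1, ∫ φ in Q, ‖V t h (g * tt H Hc φ)‖) *
            (∫ t in (0 : ℝ)..1, ∫ θ in S, ‖W t h (g * tt H Hc θ)‖) ∂μ ∂μ) ^ ((4 : ℝ) / 7) *
          ((volume.real Q * ∫ t in (0 : ℝ)..1, ∫ h, ∫ g, ‖V t h g‖ ^ 2 ∂μ ∂μ) ^ ((3 : ℝ) / 14) *
            (volume.real S * ∫ t in (0 : ℝ)..1, ∫ h, ∫ g, ‖W t h g‖ ^ 2 ∂μ ∂μ) ^ ((3 : ℝ) / 14)))

def M_KHB : Prop := S_HAAR → S_PSF → S_KHB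

/-! ### the `L¹` bound -/

/-- the `L¹` bound for the packets, for functions on the sphere, `h ∈ Bd`, and sets of `θ` in `Sg` -/
def JBd {N : ℕ} {H : Subgroup (SU N)} (Hc : Fin 1 → MT N) (μ : Measure H) (κ : Measure H) (ρ : ℝ) (Bd : Set H)
    (Sg : Set (Fin 1 → ℝ)) (D : ℝ) : Prop :=
  ∀ (S : Set (Fin 1 → ℝ)) (a : Fin 1 → ℝ) (f₁ f₂ : H → ℝ), MeasurableSet S → S ⊆ Set.Icc a (fun i => a i + 1) → S ⊆ Sg →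
    Continuous f₁ → Continuous f₂ → (∀ x, 0 ≤ f₁ x) → (∀ x, 0 ≤ f₂ x) → TI Hc f₁ → TI Hc f₂ →
    ∫ h in Bd, ∫ g, (∫ θ in S, (∫ z in {z : H | ps z ≤ ρ ^ 2}, f₁ (g * z * h⁻¹) ∂κ) *
        (∫ z in {z : H | ps z ≤ ρ ^ 2}, f₂ (g * tt H Hc θ * z * h⁻¹) ∂κ)) ∂μ ∂μ ≤
      D * ((∫ x, f₁ x ∂μ) * ∫ x, f₂ x ∂μ)

/-- JSS. As JSB (`Pool/Agent/STZ3/JSB.lean`), with `JBd` instead of JBD and `h ∈ Bd`; `f₁ = ‖G t ·‖`, `f₂ = ‖G t' ·‖` are `TI`. -/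
def S_JSS : Prop := ∀ (N : ℕ) (H : Subgroup (SU N)) (Φ : RT 1) (B : Matrix (Fin 1) (Fin 1) ℤ)
  (Hc : Fin 1 → MT N) (E : (Fin 1 → ℤ) × (Fin 1 → ℤ) → MT N) (c k : ℝ), CX H Φ B Hc E c k 3 →
  ∀ (μ : Measure H) [IsProbabilityMeasure μ] [μ.IsMulLeftInvariant] (C₂ : ℝ), 0 ≤ C₂ → ∃ C : ℝ, 0 ≤ C ∧
    ∀ (κ : Measure H) (ρ R D : ℝ) (Bd : Set H) (Sg : Set (Fin 1 → ℝ)) (ν₁ ν₂ : Measure (Fin 1 → ℝ))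
      (Ψ : (Fin 1 → ℤ) → ℝ) (Q S : Set (Fin 1 → ℝ)) (G : ℝ → H → ℂ), IsProbabilityMeasure κ → 0 ≤ D → 0 ≤ R →
      JBd Hc μ κ ρ Bd Sg D → FM C₂ R Ψ ν₁ ν₂ → MeasurableSet Bd → MeasurableSet Q → MeasurableSet S →
      Q ⊆ Set.Icc 0 1 → S ⊆ Set.Icc 0 1 →
      (∀ φ ∈ Q, ∀ θ ∈ S, ∀ s : Fin 1 → ℝ, (∀ i, |s i| ≤ 2 * C₂ * R) → θ - φ + s ∈ Sg) → JC G →
      (∀ t y, ‖G t y‖ ≤ 1) → (∀ t, TI Hc (G t)) →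
      ∫ h in Bd, ∫ g, (∫ t in (0 : ℝ)..1, ∫ φ in Q, ‖po Hc ν₁ ν₂ (vn κ ρ G) t h (g * tt H Hc φ)‖) *
          (∫ t in (0 : ℝ)..1, ∫ θ in S, ‖po Hc ν₁ ν₂ (vn κ ρ G) t h (g * tt H Hc θ)‖) ∂μ ∂μ ≤
        C * volume.real Q * D * mG μ G ^ 2

def M_JSS : Prop := S_HAAR → S_PSF → S_VCN → S_JSS

/-- JR2. The `L¹` bound for `h` in the band `|cc h| ≤ η`. Let `F u = ∫ f₁ g f₂ (g u) dμ(g)`: continuous, `≥ 0`, invariant under the torus on both sides, so `F u = φ (cc u)` (`fib`; `cc` takes all values in `[-1, 1]`, and `φ` is continuous because `cc : H → [-1, 1]` is a quotient map: compactness; or measurable, whatever is simpler), and by LAW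
`∫_(-1)^1 φ = 2 ∫ F = 2 ∫ f₁ ∫ f₂`. Expand the left side; for fixed `h`, `z`, `z'`: `∫_g f₁ (g z h⁻¹) f₂ (g tt(θ) z' h⁻¹) = F (x⁻¹ y)`, `x = z h⁻¹`, `y = tt(θ) z' h⁻¹`, and `cc (x⁻¹ y) = cc x cc (z' h⁻¹) + Re (b conj (eu (2θ)))`, `b = ze (z h⁻¹) conj (ze (z' h⁻¹))` (`inner`, `cleft`, `zleft`).
`cc (h⁻¹) = cc h`, so by `clip`, `zlip` and `C ρ ≤ λ ≤ 1/2` (otherwise `Sg` is empty; `nd ≤ 1/2`), for `C` large: `|cc (z h⁻¹)| ≤ 1/3`, `|b| ≥ 1/2`, and `|b - ‖ze h⁻¹‖²| ≤ C' ρ`, so `b = |b| e^(iα)` with `|α| ≤ 2 C' ρ ≤ λ/2`. `f(θ) = Re (b conj (eu (2θ))) = |b| cos (4πθ - α)` has the derivative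
`|f'| = 4π |b| |sin (4πθ - α)| ≥ 2π (|sin (4πθ)| - |α|) ≥ 2π (2 nd (4θ) - λ/2) ≥ λ` on `S`. On an interval of length `1` `f` has at most 5 intervals of monotonicity, so (change of variables on each of them, e.g. `MeasureTheory.lintegral_image_eq_lintegral_abs_deriv_mul`) `∫_(θ ∈ S) φ (a + f θ) dθ ≤ (5/λ) ∫_(-1)^1 φ`. The measure of
`{|cc h| ≤ η}` is at most `η` (LAW), `κ` is a probability measure. -/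
def S_JR2 : Prop := ∀ (N : ℕ) (H : Subgroup (SU N)) (Φ : RT 1) (B : Matrix (Fin 1) (Fin 1) ℤ)
  (Hc : Fin 1 → MT N) (E : (Fin 1 → ℤ) × (Fin 1 → ℤ) → MT N) (c k : ℝ), CX H Φ B Hc E c k 3 →
  ∀ (cc : H → ℝ) (ze : H → ℂ) (w : H) (C₀ : ℝ), SPF H Hc cc ze w C₀ →
  ∀ (μ : Measure H) [IsProbabilityMeasure μ] [μ.IsMulLeftInvariant], ∃ C : ℝ, 1 ≤ C ∧
    ∀ (κ : Measure H) (ρ η lam : ℝ), IsProbabilityMeasure κ → 0 ≤ ρ → 0 ≤ η → η ≤ 1 / 4 → 0 < lam → C * ρ ≤ lam →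
      JBd Hc μ κ ρ {h | |cc h| ≤ η} {θ | lam ≤ nd (4 * θ 0)} (C * η / lam)

def M_JR2 : Prop := S_HAAR → S_PSF → S_LAW → S_JR2

/-- JR1. The `L¹` bound near the diagonal, for all `h`. As JBD (`Pool/Agent/STZ3/JBD.lean`): the left side is `∫_g f₁ g M (u ↦ f₂ (g u))`, `M φ = ∫_h ∫_(z ∈ D) ∫_(z' ∈ D) ∫_(θ ∈ S) φ (h z⁻¹ tt(θ) z' h⁻¹)`. For `θ ∈ S` (`nd (2θ) ≤ ρ₁`) `θ` or `θ + 1/2` is within `ρ₁` of an integer, so for these `u` `ps u ≤ C' ρ₁²` or `ps (u tt(1/2)) ≤ C' ρ₁²` (`tt(1/2)` is central).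
So `M φ ≤ M' (φ 1_U)`, `U = {u : ps u ≤ C' ρ₁² or ps (u tt(1/2)) ≤ C' ρ₁²}`, and `M' φ = ∫_u φ u ∫_h ∫_θ hk (2ϑ) (h tt(-θ) h⁻¹ u)`; by SBD with `FF` from DET and `FF u ≥ ρ²` for all `u` (`FDF.tor`, `cnj`, CONJ) the inner integral is at most `B = C ((ρ²/ϑ)^(3/2)/ρ² + ϑ^(-3/2) (ϑ/ρ²)^j)`. So the left side is at most
`B ∫_g f₁ g ∫_u f₂ (g u) 1_U(u) = B ∫_g f₁ g ∫_u f₂ (g u) [∫_(φ ∈ [0,1]) 1_U (u tt φ)]` (`f₂` is `TI`, invariance of `μ`), and the last integral is at most `C ρ₁`: if `ps (u tt φ), ps (u tt φ') ≤ C' ρ₁²` then `ps (tt (φ - φ')) ≤ 4 C' ρ₁²`, hence `‖1 - eu (2 (φ - φ'))‖ ≤ C'' ρ₁` (`TAF.Ade`, as in VOL). -/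
def S_JR1 : Prop := ∀ (N : ℕ) (H : Subgroup (SU N)) (Φ : RT 1) (B : Matrix (Fin 1) (Fin 1) ℤ)
  (Hc : Fin 1 → MT N) (E : (Fin 1 → ℤ) × (Fin 1 → ℤ) → MT N) (c k : ℝ), CX H Φ B Hc E c k 3 →
  ∀ (μ : Measure H) [IsProbabilityMeasure μ] [μ.IsMulLeftInvariant] (j : ℕ), ∃ C : ℝ, 0 ≤ C ∧
    ∀ (ϑ ρ ρ₁ : ℝ) (κ : Measure H), 0 < ϑ → ϑ ≤ 1 / 2 → 0 < ρ → ρ ≤ ρ₁ → ρ₁ ≤ 1 → PM H Φ E c k ϑ κ →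
      JBd Hc μ κ ρ Set.univ {θ | nd (2 * θ 0) ≤ ρ₁}
        (C * ρ₁ * ((ρ ^ 2 / ϑ) ^ ((3 : ℝ) / 2) / ρ ^ 2 + ϑ ^ (-((3 : ℝ) / 2)) * (ϑ / ρ ^ 2) ^ j))

def M_JR1 : Prop := S_HAAR → S_LIEB → S_WFAC → S_TAUF → S_CONJ → S_GXOC → S_PSF → S_EXI → S_SYK → S_HKS → S_HKM →
  S_MTK → S_DET → S_SBD → S_RNK → S_JR1

/-! ### the band -/

/-- SPW. The weights of the vector of weight zero. Let `S g = Uᴴ σ(g) U`, so `S (tt θ) = diag (eu (μ j · θ))` (WT). The weights of `σ` are `l - 1, l - 3, …, -(l - 1)` (`HWR.wcf`, `R1F.at'`: `∑ j, eu (μ j θ) (e(θ) - e(-θ)) = e(lθ) - e(-lθ)`; TPOL), so they are different, and `l` is odd if `0` is a weight. `σ.ch = χ i` for the `i` with `lw i = l`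
(`HWR.triv`; both characters agree on the torus at the points with `e(θ) ≠ e(-θ)`, so everywhere by continuity and CONJ). `σ.ch (g tt φ) = ∑ j, S g j j eu (μ j φ)`, so `S g j₀ j₀ = ∫ χ i (g tt φ) dφ = LP (l/2) (cc g)` by CHT. For `g = h⁻¹ tt(θ) h`: `S g j₀ j₀ = ∑ j, ‖S h j j₀‖² eu (μ j θ)`,
`cc g = cc h² + Re (ze h conj (eu (2θ) ze h)) = cc h² + (1 - cc h²) cos (4πθ)` (`inner`). Both sides are trigonometric polynomials in `θ` (the weights are even: `u = eu (2θ)`, a Laurent polynomial identity on the unit circle), so the identity holds for complex `θ = -i y/(2π)`: `eu (μ θ) = e^(μ y)`, `cos (4πθ) = cosh (2y)`. -/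
def S_SPW : Prop := ∀ (N : ℕ) (H : Subgroup (SU N)) (Φ : RT 1) (B : Matrix (Fin 1) (Fin 1) ℤ)
  (Hc : Fin 1 → MT N) (E : (Fin 1 → ℤ) × (Fin 1 → ℤ) → MT N) (c k : ℝ), CX H Φ B Hc E c k 3 →
  ∀ (cc : H → ℝ) (ze : H → ℂ) (w : H) (C₀ : ℝ), SPF H Hc cc ze w C₀ →
  (∀ g : H, (cc g : ℂ) * (Hc 0 * Hc 0).trace = (Hc 0 * (g.1.1 * Hc 0 * g.1.1ᴴ)).trace) →
  ∀ χ : IX Hc → H → ℂ, CHI Φ Hc c k 3 χ →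
  ∀ (n : ℕ) (σ : Rep H (Fin n)) (l : Fin 1 → ℤ) (U : Matrix (Fin n) (Fin n) ℂ) (μ : Fin n → Fin 1 → ℤ), σ.Irr → PRep σ →
    HWR Φ Hc c k 3 σ l → WT Hc σ U μ → (∀ i j, μ i = μ j → i = j) ∧
    (∀ j, |μ j 0| ≤ l 0 - 1 ∧ (μ j 0 - (l 0 - 1)) % 2 = 0) ∧
    ∀ j₀ : Fin n, μ j₀ = 0 → l 0 % 2 = 1 ∧ ∀ (h : H) (y : ℝ),
      ((∑ j, ‖(Uᴴ * σ.ρ h * U) j j₀‖ ^ 2 * Real.exp (y * μ j 0) : ℝ) : ℂ) =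
        LP ((l 0).toNat / 2) ((cc h ^ 2 + (1 - cc h ^ 2) * Real.cosh (2 * y) : ℝ) : ℂ)

def M_SPW : Prop := S_WFAC → S_TAUF → S_CONJ → S_TPOL → S_PSF → S_RNK → S_CHT → S_SPW

/-- BND. The band. As in L2W (`Pool/Agent/STZ3/L2W.lean`) we may take `F = ∑ s, ∑ p q, c_s p q σ_s p q` in `PF H` with irreducible `σ_s` with different characters (density: approximate `F` by a polynomial function and average it over the torus on the right: it stays in `PF H` and becomes `TI`). `F` is `TI`, so `F g = ∑ s, ∑ p, a_s p (σ_s(g) U_s) p j₀`, `j₀ = j₀(s)` the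
index of the weight `0`, the sum over the `s` which have the weight `0`. The function on the left is `∑ s, ∑ p, a_s p ∑ j, (σ_s(g) U_s) p j Ψ(μ j) e^(-ϑ cq(l, μ j)) S_s(h⁻¹) j j₀`, `S_s(h) = U_sᴴ σ_s(h) U_s` (HMV). By SCHUR (integration over `g`) the left side is
`∑ s, (‖a_s‖²/n_s) ∑ j, Ψ(μ j)² e^(-2ϑ cq(l, μ j)) ‖S_s(h⁻¹) j j₀‖²` and `∫ |F|² = ∑ s, ‖a_s‖²/n_s`. Let `l = 2n + 1`, `μ j = 2 v`, `|v| ≤ n`, `D v = ‖S(h⁻¹) j j₀‖²`, `c = cc h` (`= cc h⁻¹`), `∑ D v = 1` (`y = 0` in SPW). The part with `|μ j| < M₁` is at most `η₁²`. For the others `n ≥ M₁/4` (`2n ≥ |μ j| ≥ M₁`), factor `C₂²`; by symmetry `v > 0`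
(use `y` and `-y`). SPW for `y = 1`: `∑ D v e^(2v) = LP n (c² + (1 - c²) cosh 2) ≤ e^(nu)`, `cosh u = c² + (1 - c²) cosh 2`, i.e. `sinh(u/2) = √(1 - c²) sinh 1 ≤ (1 - c²/2) sinh 1 ≤ sinh (1 - a₀ c²)` for `a₀ = tanh(1)/2` (`sinh (1 - x) ≥ sinh 1 - x cosh 1`), so `u ≤ 2 - 2 a₀ c²` (`LPF.cosh`).
Let `j = a₀ n c²/2`. `∑_(v ≥ n - j) D v ≤ e^(-2(n - j)) e^(n (2 - 2 a₀ c²)) = e^(-a₀ n c²)`. For `0 ≤ v < n - j`: `cq = l² - 1 - 4 v² ≥ 4 (n² - v²) ≥ 4 n j`, so `e^(-2ϑ cq) ≤ e^(-4 a₀ ϑ n² c²)`. With `n ≥ M₁/4` this gives the claim with `c₀ = a₀/4`. -/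
def S_BND : Prop := ∀ (N : ℕ) (H : Subgroup (SU N)) (Φ : RT 1) (B : Matrix (Fin 1) (Fin 1) ℤ)
  (Hc : Fin 1 → MT N) (E : (Fin 1 → ℤ) × (Fin 1 → ℤ) → MT N) (c k : ℝ), CX H Φ B Hc E c k 3 →
  ∀ (cc : H → ℝ) (ze : H → ℂ) (w : H) (C₀ : ℝ), SPF H Hc cc ze w C₀ →
  (∀ g : H, (cc g : ℂ) * (Hc 0 * Hc 0).trace = (Hc 0 * (g.1.1 * Hc 0 * g.1.1ᴴ)).trace) →
  ∀ (μ : Measure H) [IsProbabilityMeasure μ] [μ.IsMulLeftInvariant] (χ : IX Hc → H → ℂ), CHI Φ Hc c k 3 χ →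
  ∃ C c₀ : ℝ, 0 ≤ C ∧ 0 < c₀ ∧ ∀ (ϑ : ℝ) (κ : Measure H), 0 < ϑ → ϑ ≤ 1 → PM H Φ E c k ϑ κ →
    ∀ (ν₁ ν₂ : Measure (Fin 1 → ℝ)) (Ψ : (Fin 1 → ℤ) → ℝ) (R C₂ η₁ M₁ : ℝ), FM C₂ R Ψ ν₁ ν₂ → (∀ l, |Ψ l| ≤ C₂) →
    1 ≤ M₁ → (∀ l : Fin 1 → ℤ, |(l 0 : ℝ)| < M₁ → |Ψ l| ≤ η₁) → ∀ F : H → ℂ, Continuous F → TI Hc F → ∀ h : H,
      ∫ g, ‖∫ s, VV κ h F (g * tt H Hc s) ∂ν₁ - ∫ s, VV κ h F (g * tt H Hc s) ∂ν₂‖ ^ 2 ∂μ ≤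
        (η₁ ^ 2 + C * C₂ ^ 2 * (Real.exp (-(c₀ * M₁ * cc h ^ 2)) + Real.exp (-(c₀ * ϑ * M₁ ^ 2 * cc h ^ 2)))) *
          ∫ g, ‖F g‖ ^ 2 ∂μ

def M_BND : Prop := S_HAAR → S_SCHUR → S_TENH → S_WFAC → S_TAUF → S_PFFX → S_DECP → S_TRES → S_NORR → S_PSF → S_HMV →
  S_RNK → S_LGB → S_SPW → S_BND

/-- FRS. The frequency cutoff. `Ψ l = 1 - S_(M₀)(l 0)`, `S_M = 1 - (1 - β_M^(2m))^m`, see FRQ (`StS.lean` and `Pool/Agent/STZ3/FRQ.lean`): `0 ≤ 1 - S_M(u) ≤ C min 1 (|u|/M)^(2m)`, `0 ≤ S_M(u) ≤ C (M/|u|)^(2m)`; `1 - S_M` is the Fourier transform of the difference of two finite measures with support in `|s| ≤ C/M` and mass `≤ C`. -/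
def S_FRS : Prop := ∀ m : ℕ, 1 ≤ m → ∃ C : ℝ, 1 ≤ C ∧ ∀ M₀ : ℝ, 1 ≤ M₀ →
  ∃ (Ψ : (Fin 1 → ℤ) → ℝ) (ν₁ ν₂ : Measure (Fin 1 → ℝ)), FM C (1 / M₀) Ψ ν₁ ν₂ ∧ (∀ l, |Ψ l| ≤ C) ∧
    (∀ l, |Ψ l| * M₀ ^ (2 * m) ≤ C * |(l 0 : ℝ)| ^ (2 * m)) ∧
    ∀ l, |1 - Ψ l| * |(l 0 : ℝ)| ^ (2 * m) ≤ C * M₀ ^ (2 * m)

/-! ### the bound with loss -/

/-- RTW. The pieces `x < Y`. `X = 2^J`, `δ = 2^(-x) ≥ 2 X^(12ε - 1)`, `ϑ = δ/X`, `ρ = X^(2ε) √ϑ`, `κ` from EXI (`PM` for `ϑ`), `Ψ`, `ν₁`, `ν₂` from FRS for `M₀ = X^(1-ε)`, `R = 1/M₀`, `Bd = {|cc h| ≤ η}`, `η = X^(3ε) (Xδ)^(-1/2)`. (1) NRS, RED with the error `X^(-A)`: `‖aS‖ ≤ C X` (`NSF.bd`, `R1F.lm`), and where `aS τ l ≠ 0` `|l| ≥ X/32` (`NSF.supp`), so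
`|1 - Ψ³| ≤ C X^(-2mε)`; `κ{ps ≥ ρ²} ≤ C X^(-4εj)` (TAI), `j` large; for `h ∉ Bd` BND with `M₁ = X^(1-2ε)`, `η₁ = C X^(-2mε)`: `M₁ η² ≥ X^(4ε)`, `ϑ M₁² η² ≥ X^(2ε)`, and `exp (-c X^(2ε)) ≤ C X^(-2A-2)`. `T` is a box. (2) CLB with `Q = {0 ≤ θ ≤ X^(-3ε) δ}`, `S = {θ ∈ [0,1] : nd (2θ) ≤ 3 X^ε δ, X^(-ε) δ/2 ≤ nd (2θ), X^(-ε)/2 ≤ nd (2θ - 1/2)}`:
if `φ ∈ Q`, `θ ∉ S`, `|s| ≤ C₂ R = C₂ X^(ε-1)` then `θ - φ + s ∉ sS ε J Y x` for large `J` (`nd` is 1-Lipschitz, `X^(ε-1) ≤ X^(-10ε) δ`), so the kernel is `≤ C X^(-A-2)` (KLS); `∫∫ ‖po vn‖ ‖po vn‖ ≤ C mG²` (VCN), `mG ≤ 1`. (3) KHB with `D = C X^ε (Xδ)` (KBS). (4) `|S| ≤ C X^ε δ`, `|Q| = X^(-3ε) δ`. (5) JSS with `JBd` from JR2,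
`λ = X^(-ε) δ/8` (if `φ ∈ Q`, `θ ∈ S`, `|s| ≤ 2 C₂ R` then `nd (4 (θ - φ + s)) ≥ λ`: with `u = 2 (θ - φ + s)`, `nd (2u) ≥ min (nd u) (nd (u - 1/2))`), `C ρ ≤ λ` as `ρ = X^(2ε) (δ/X)^(1/2) ≤ X^(-4ε) δ`; `η ≤ X^(3ε - 6ε) ≤ 1/4`: the integral is `≤ C |Q| (X^ε η/δ) mG²`. (6) L2N with `b = C X^(2ε)/(Xδ)` (`Ψ² ≤ C (1 + ϑ l²)/(1 + ϑ M₀²)`; `(ϑ/ρ²)^j ≤ b`):
`∫ t, ∫ h, ∫ g, ‖po vn‖² ≤ C b mG`. Result: `|Q|^(-1) (Xδ) (δ²)^(1/7) (δ (Xδ)^(-1/2) δ^(-1) mG²)^(4/7) (δ (Xδ)^(-1) mG)^(3/7) X^(K ε) = X^(Kε) X^(2/7) mG^(11/7)`. For small `J` (depending on `ε`, `m`): `‖BF‖ ≤ C mG²` (the kernel `∑ nS KK` is bounded by a constant depending on `J`). `K` is an absolute constant, e.g. `K = 20`. -/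
def S_RTW : Prop := ∀ (N : ℕ) (H : Subgroup (SU N)) (Φ : RT 1) (B : Matrix (Fin 1) (Fin 1) ℤ)
  (Hc : Fin 1 → MT N) (E : (Fin 1 → ℤ) × (Fin 1 → ℤ) → MT N) (c k : ℝ), CX H Φ B Hc E c k 3 →
  ∀ (cc : H → ℝ) (ze : H → ℂ) (w : H) (C₀ : ℝ), SPF H Hc cc ze w C₀ →
  (∀ g : H, (cc g : ℂ) * (Hc 0 * Hc 0).trace = (Hc 0 * (g.1.1 * Hc 0 * g.1.1ᴴ)).trace) →
  ∀ (μ : Measure H) [IsProbabilityMeasure μ] [μ.IsMulLeftInvariant] (χ : IX Hc → H → ℂ), CHI Φ Hc c k 3 χ →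
  ∃ K : ℝ, 0 ≤ K ∧ ∀ (m : ℕ) (C₁ ε A : ℝ), 1 ≤ m → CSF m C₁ → 0 < ε → ε ≤ 1 / 64 → 0 ≤ A → 10 + A ≤ ε * m →
    ∃ C : ℝ, 0 ≤ C ∧ ∀ (J Y x e : ℕ) (F : Finset (IX Hc)) (G : ℝ → H → ℂ), 1 ≤ J → (Y : ℝ) ≤ (1 - 12 * ε) * J → x < Y →
      32 * KS m Y ≤ 2 ^ J → e ≤ 1 → (∀ τ (i : IX Hc), nS m Y x e J τ (lw i) ≠ 0 → i ∈ F) → JC G → (∀ t y, ‖G t y‖ ≤ 1) →
      (∀ t, TI Hc (G t)) →
      ‖BF μ χ F (fun t i => nS m Y x e J t (lw i)) G‖ ≤ C * (2 : ℝ) ^ (-(A * J)) * mG μ G +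
        C * (2 : ℝ) ^ (K * ε * J) * ((2 : ℝ) ^ ((2 : ℝ) / 7 * J) * mG μ G ^ ((11 : ℝ) / 7))

def M_RTW : Prop := S_LIEB → S_WFAC → S_TAUF → S_PSF → S_EXI → S_TAI → S_VCN → S_L2N → S_RNK → S_NSX → S_KLS → S_KBS →
  S_NRS → S_RED → S_CLB → S_KHB → S_JSS → S_JR2 → S_BND → S_FRS → S_RTW

/-- RON. The piece `x = Y`. `X = 2^J`, `δ = 2^(-Y)`, `X^(12ε - 1) ≤ δ ≤ 2 X^(12ε-1)`, `ϑ = δ/X`, `ρ = X^(2ε) √ϑ`, `κ` from EXI, `Ψ = 1` (`ν₁ = dirac 0`, `ν₂ = 0`, `R = 0`), `Bd = univ`. NRS, RED (`κ{ps ≥ ρ²} ≤ C X^(-4εj)`: TAI; no condition on `h`). CLB with `Q = {0 ≤ θ ≤ X^(-3ε) δ}`, `S = {θ ∈ [0,1] : nd (2θ) ≤ 3 X^ε δ}`; KLS. KHB with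
`D = C X^ε (Xδ) ≤ C X^(13ε)` (KBS). JSS with JR1, `ρ₁ = 4 X^ε δ` (`ρ ≤ ρ₁` as `δ ≥ X^(12ε-1)`; for large `J` `ρ₁ ≤ 1`): the constant is `C ρ₁ (X^(6ε)/(X^(4ε) ϑ) + ..) ≤ C X^(3ε) X`. L2N with `b = 1`. Result: `|Q|^(-1) X^(13ε) (δ²)^(1/7) (δ X mG²)^(4/7) (δ mG)^(3/7) X^(Kε) = X^(Kε) δ^(2/7) X^(4/7) mG^(11/7) ≤ X^(Kε) X^(2/7) mG^(11/7)`.
Small `J` as in RTW. -/
def S_RON : Prop := ∀ (N : ℕ) (H : Subgroup (SU N)) (Φ : RT 1) (B : Matrix (Fin 1) (Fin 1) ℤ)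
  (Hc : Fin 1 → MT N) (E : (Fin 1 → ℤ) × (Fin 1 → ℤ) → MT N) (c k : ℝ), CX H Φ B Hc E c k 3 →
  ∀ (μ : Measure H) [IsProbabilityMeasure μ] [μ.IsMulLeftInvariant] (χ : IX Hc → H → ℂ), CHI Φ Hc c k 3 χ →
  ∃ K : ℝ, 0 ≤ K ∧ ∀ (m : ℕ) (C₁ ε A : ℝ), 1 ≤ m → CSF m C₁ → 0 < ε → ε ≤ 1 / 64 → 0 ≤ A → 10 + A ≤ ε * m →
    ∃ C : ℝ, 0 ≤ C ∧ ∀ (J Y e : ℕ) (F : Finset (IX Hc)) (G : ℝ → H → ℂ), 1 ≤ J → (Y : ℝ) ≤ (1 - 12 * ε) * J →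
      (1 - 12 * ε) * J ≤ Y + 1 → 32 * KS m Y ≤ 2 ^ J → e ≤ 1 → (∀ τ (i : IX Hc), nS m Y Y e J τ (lw i) ≠ 0 → i ∈ F) →
      JC G → (∀ t y, ‖G t y‖ ≤ 1) → (∀ t, TI Hc (G t)) →
      ‖BF μ χ F (fun t i => nS m Y Y e J t (lw i)) G‖ ≤ C * (2 : ℝ) ^ (-(A * J)) * mG μ G +
        C * (2 : ℝ) ^ (K * ε * J) * ((2 : ℝ) ^ ((2 : ℝ) / 7 * J) * mG μ G ^ ((11 : ℝ) / 7))

def M_RON : Prop := S_LIEB → S_WFAC → S_TAUF → S_PSF → S_EXI → S_TAI → S_VCN → S_L2N → S_RNK → S_NSX → S_KLS → S_KBS →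
  S_NRS → S_RED → S_CLB → S_KHB → S_JSS → S_JR1 → S_RON

end

end SPH
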