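import Mathlib
import Pool.Agent.SPH.StA
import Pool.Agent.SPH.StC
import Pool.Agent.STZ3.FRQ

/-!
# The frequency cutoff on the sphere

Module FRS of the project SPH.
-/

set_option autoImplicit false
set_option linter.unusedVariables false

namespace SPH

open STZ LGR STZ3 MeasureTheory Matrix Filter

open scoped ComplexConjugate Matrix Real Topology

noncomputable section

open STZ3.FRQ in
theorem t_FRS : S_FRS := by
  intro m hm
  have hA := AA_ge m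
  have hC1 := C1_nonneg m
  have hm0 : (0 : ℝ) ≤ m := Nat.cast_nonneg m
  set C : ℝ := 1 + AA m + m * ((2 * m : ℕ) * 1) + STZ3.FRQ.C1 m + m with hC
  have hq : (0 : ℝ) ≤ m * ((2 * m : ℕ) * 1) := by positivity
  refine ⟨C, by linarith, ?_⟩
  intro M₀ hM
  have hM0 : 0 < M₀ := by linarith
  set v : Fin 1 → ℤ := fun _ => 1 with hv
  have hv1 : ∀ i, |(v i : ℝ)| ≤ 1 := by
    intro i
    simp [hv]
  have hvl : ∀ l : Fin 1 → ℤ, v ⬝ᵥ l = l 0 := by
    intro l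
    simp [hv, dotProduct]
  have h1 := InA.SS v hv1 zero_le_one hM m
  have h2 : InA (r := 1) 1 (m * ((2 * m : ℕ) * (1 / M₀))) (fun _ => 1) :=
    InA.one.mono le_rfl (by positivity)
  have h3 := (h2.add h1.neg).mono (b := C) (σ := C * (1 / M₀)) (by linarith) (by
    have e : (m : ℝ) * ((2 * m : ℕ) * (1 / M₀)) = (m * ((2 * m : ℕ) * 1)) * (1 / M₀) := by ring
    rw [e]
    exact mul_le_mul_of_nonneg_right (by linarith) (by positivity))
  obtain ⟨ν₁, ν₂, g1, g2, g3, g4, g5, g6, g7⟩ := h3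
  refine ⟨fun l => 1 + -(STZ3.FRQ.SS m (π * ((v ⬝ᵥ l : ℤ) : ℝ) / M₀)), ν₁, ν₂,
    ⟨g1, g2, g3, g4, g5, g6, g7⟩, ?_, ?_, ?_⟩
  · intro l
    have s1 := SS_nonneg m (π * ((v ⬝ᵥ l : ℤ) : ℝ) / M₀)
    have s2 := SS_le m (π * ((v ⬝ᵥ l : ℤ) : ℝ) / M₀)
    dsimp only
    rw [abs_le]
    constructor <;> linarith
  · intro l
    have s1 := SS_nonneg m (π * ((v ⬝ᵥ l : ℤ) : ℝ) / M₀)
    have s2 := SS_le m (π * ((v ⬝ᵥ l : ℤ) : ℝ) / M₀)
    have s3 := scale_lo m hM0 ((v ⬝ᵥ l : ℤ) : ℝ)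
    dsimp only
    rw [← sub_eq_add_neg, abs_of_nonneg (by linarith)]
    rw [hvl] at s3 ⊢
    refine s3.trans ?_
    exact mul_le_mul_of_nonneg_right (by linarith) (by positivity)
  · intro l
    have s1 := SS_nonneg m (π * ((v ⬝ᵥ l : ℤ) : ℝ) / M₀)
    have s3 := scale_hi m hM0 ((v ⬝ᵥ l : ℤ) : ℝ)
    dsimp only
    rw [show 1 - (1 + -(STZ3.FRQ.SS m (π * ((v ⬝ᵥ l : ℤ) : ℝ) / M₀))) =
      STZ3.FRQ.SS m (π * ((v ⬝ᵥ l : ℤ) : ℝ) / M₀) by ring, abs_of_nonneg s1]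
    rw [hvl] at s3 ⊢
    refine s3.trans ?_
    exact mul_le_mul_of_nonneg_right (by linarith) (by positivity)

end

end SPH
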