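import Pool.Agent.SPH.StF

/-!
# Module JOI: the two classes of representations together
-/

namespace SPH

open STZ LGR STZ3 MeasureTheory Matrix Filter

open scoped ComplexConjugate Matrix Real Topology

noncomputable section

namespace JOI

/-- the class of an odd label -/
theorem class_odd {n : ℤ} (h : n % 2 = 1) : n % 4 = 1 + 2 * ((0 : ℕ) : ℤ) ∨ n % 4 = 1 + 2 * ((1 : ℕ) : ℤ) := by
  push_cast
  omega

theorem odd_class {n : ℤ} {e : ℕ} (h : n % 4 = 1 + 2 * (e : ℤ)) : n % 2 = 1 := by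
  omega

/-- from a class to the odd labels -/
def psi {N : ℕ} {Hc : Fin 1 → MT N} (e : ℕ) (b : PX Hc e) : OX Hc :=
  ⟨b.1, odd_class b.2⟩

theorem psi_inj {N : ℕ} {Hc : Fin 1 → MT N} (e : ℕ) :
    Function.Injective (psi (Hc := Hc) e) := by
  intro a b h
  have h1 : (psi e a).1 = (psi e b).1 := congrArg (fun x : OX Hc => x.1) h
  exact Subtype.ext h1

theorem mem_range {N : ℕ} {Hc : Fin 1 → MT N} (e : ℕ) (a : OX Hc) :
    a ∈ Set.range (psi (Hc := Hc) e) ↔ lw a.1 % 4 = 1 + 2 * (e : ℤ) := by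
  constructor
  · rintro ⟨b, rfl⟩
    exact b.2
  · intro h
    exact ⟨⟨a.1, h⟩, rfl⟩

open Classical in
/-- a sum over the odd labels is the sum over the two classes -/
theorem sum_split {N : ℕ} {Hc : Fin 1 → MT N} {A : Type*} [AddCommMonoid A] (F : Finset (OX Hc))
    (g : OX Hc → A) :
    ∑ a ∈ F, g a =
      ∑ b ∈ F.preimage (psi 0) (psi_inj 0).injOn, g (psi 0 b) +
        ∑ b ∈ F.preimage (psi 1) (psi_inj 1).injOn, g (psi 1 b) := by
  rw [Finset.sum_preimage', Finset.sum_preimage',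
    ← Finset.sum_filter_add_sum_filter_not F (fun a => a ∈ Set.range (psi (Hc := Hc) 0))]
  congr 1
  refine Finset.sum_congr ?_ fun _ _ => rfl
  refine Finset.filter_congr fun a _ => ?_
  rw [mem_range, mem_range]
  have h := a.2
  have h2 := class_odd h
  constructor
  · intro h3
    exact h2.resolve_left h3
  · intro h3 h4
    rw [h3] at h4
    norm_num at h4

theorem cont_left {X : Type} [TopologicalSpace X] (f : X → X → ℂ)
    (hf : Continuous fun q : X × X => f q.1 q.2) (z : X) : Continuous fun y => f y z := by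
  have h2 : Continuous fun y : X => (y, z) := by fun_prop
  exact hf.comp h2

theorem cc_left {N : ℕ} {H : Subgroup (SU N)} {Hc : Fin 1 → MT N} {χ : IX Hc → H → ℂ} {cc : H → ℝ}
    {w : H} {μ : Measure H} (hK : KPF χ cc w μ) (i : IX Hc) (hi : lw i % 2 = 1) (x y : H) :
    KP χ i x y = (lw i : ℂ) * LP ((lw i).toNat / 2) (cc (y⁻¹ * x)) := hK.odd i x y hi

/-- orthogonality of different classes -/
theorem orth {N : ℕ} {H : Subgroup (SU N)} {Hc : Fin 1 → MT N} {χ : IX Hc → H → ℂ} {cc : H → ℝ}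
    {ze : H → ℂ} {w : H} {C₀ : ℝ} (hS : SPF H Hc cc ze w C₀) (hL : LPF) {μ : Measure H}
    (hK : KPF χ cc w μ) (e : ℕ) (he : e ≤ 1) (a b : IX Hc)
    (hb : lw b % 4 = 1 + 2 * (e : ℤ)) (ha : lw a % 4 ≠ 1 + 2 * (e : ℤ)) (x z : H) :
    ∫ y, KP χ a x y * KP χ b y z ∂μ = 0 := by
  have hbo : lw b % 2 = 1 := odd_class hb
  have hodd := fun y : H => hK.odd b y z hbo
  have hcont : Continuous fun y : H => KP χ b y z := by
    exact cont_left (KP χ b) ((hK.ker e).cont ⟨b, hb⟩) z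
  have hTI : TI Hc fun y : H => KP χ b y z := by
    intro g θ
    change KP χ b (g * tt H Hc θ) z = KP χ b g z
    rw [hodd, hodd, ← mul_assoc, hS.cright]
  have hpar : ∀ g : H, KP χ b (g * w) z = (-1) ^ e * KP χ b g z := by
    intro g
    rw [hodd, hodd, ← mul_assoc, hS.wcc, Complex.ofReal_neg, hL.neg]
    have hpos := hK.ge b
    have h2 : ((-1 : ℂ)) ^ ((lw b).toNat / 2) = (-1) ^ e := by
      have h3 : ((lw b).toNat / 2) % 2 = e % 2 := by omega
      rw [neg_one_pow_eq_pow_mod_two, h3, ← neg_one_pow_eq_pow_mod_two]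
    rw [h2]
    ring
  rw [hK.ti a _ hcont hTI x]
  exact hK.van e a _ hcont hTI hpar ha he x

theorem eu_cont : Continuous eu := by
  unfold eu
  fun_prop

/-- continuity of the solutions -/
theorem jc_uw {N : ℕ} {H : Subgroup (SU N)} {ι : Type} {r : ℕ} (w : ι → Fin r → ℤ)
    (Q : (Fin r → ℤ) → ℤ) (F : Finset ι) (u : ι → H → ℂ) (hu : ∀ a ∈ F, Continuous (u a)) :
    JC (uw w Q F u) := by
  unfold JC uw
  refine continuous_finsetSum _ fun a ha => ?_
  refine Continuous.mul ?_ ((hu a ha).comp continuous_snd)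
  exact eu_cont.comp (continuous_fst.mul continuous_const)

end JOI

open JOI

theorem t_JOI : M_JOI := by
  intro hNQ hLGB hALA N H Φ B Hc E c k hCX cc ze w C₀ hS μ _ _ χ hK hloc
  have hcpt : CompactSpace H := isCompact_iff_compactSpace.1 hCX.closed.isCompact
  have h2c : SecondCountableTopology H := TopologicalSpace.Subtype.secondCountableTopology _
  constructor
  · -- the kernels
    have hcl : ∀ a : OX Hc, ∃ (e : ℕ) (_ : e ≤ 1), lw a.1 % 4 = 1 + 2 * (e : ℤ) := by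
      intro a
      rcases class_odd a.2 with h | h
      · exact ⟨0, by norm_num, h⟩
      · exact ⟨1, le_rfl, h⟩
    refine ⟨fun a => ?_, fun a x y => ?_, fun a x z => ?_, fun a b x z hab => ?_⟩
    · obtain ⟨e, -, h⟩ := hcl a
      exact (hK.ker e).cont ⟨a.1, h⟩
    · obtain ⟨e, -, h⟩ := hcl a
      exact (hK.ker e).herm ⟨a.1, h⟩ x y
    · obtain ⟨e, -, h⟩ := hcl a
      exact (hK.ker e).rep ⟨a.1, h⟩ x z
    · obtain ⟨e, he, h⟩ := hcl b
      by_cases ha : lw a.1 % 4 = 1 + 2 * (e : ℤ)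
      · have hne : (⟨a.1, ha⟩ : PX Hc e) ≠ ⟨b.1, h⟩ := fun h1 =>
          hab (Subtype.ext (congrArg (fun x : PX Hc e => x.1) h1))
        exact (hK.ker e).orth ⟨a.1, ha⟩ ⟨b.1, h⟩ x z hne
      · exact orth hS hLGB hK e he a.1 b.1 h ha x z
  · -- the estimate
    intro p hp
    have hp1 : (1 : ℝ) ≤ p := by linarith
    obtain ⟨D0, hD00, hD0⟩ := hALA H μ (PX Hc 0) (KQ χ 0) 1 1 (fun i => wG i.1.1)
      (fun l => -(rd Φ).Q l) (14 / 3) (by norm_num) (by norm_num) (hloc 0 (by norm_num)) p hp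
    obtain ⟨D1, hD10, hD1⟩ := hALA H μ (PX Hc 1) (KQ χ 1) 1 1 (fun i => wG i.1.1)
      (fun l => -(rd Φ).Q l) (14 / 3) (by norm_num) (by norm_num) (hloc 1 le_rfl) p hp
    refine ⟨D0 + D1, add_nonneg hD00 hD10, fun F u hu => ?_⟩
    set F0 := F.preimage (psi (Hc := Hc) 0) (psi_inj 0).injOn with hF0
    set F1 := F.preimage (psi (Hc := Hc) 1) (psi_inj 1).injOn with hF1
    have hu0 : ∀ b ∈ F0, Mem μ (KQ χ 0 b) (u (psi 0 b)) := fun b hb =>
      hu _ (Finset.mem_preimage.1 hb)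
    have hu1 : ∀ b ∈ F1, Mem μ (KQ χ 1 b) (u (psi 1 b)) := fun b hb =>
      hu _ (Finset.mem_preimage.1 hb)
    have k0 := hD0 F0 (fun b => u (psi 0 b)) hu0
    have k1 := hD1 F1 (fun b => u (psi 1 b)) hu1
    let G1 : ℝ → H → ℂ :=
      uw (fun i : PX Hc 1 => wG i.1.1) (fun l => -(rd Φ).Q l) F1 (fun b => u (psi 1 b))
    let G0 : ℝ → H → ℂ :=
      uw (fun i : PX Hc 0 => wG i.1.1) (fun l => -(rd Φ).Q l) F0 (fun b => u (psi 0 b))
    let G : Bool → ℝ → H → ℂ := fun i => cond i G1 G0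
    have hsum : uw (fun i : OX Hc => wG i.1.1) (fun l => -(rd Φ).Q l) F u =
        fun t x => ∑ i ∈ (Finset.univ : Finset Bool), G i t x := by
      funext t x
      rw [Fintype.sum_bool]
      have e1 : uw (fun i : OX Hc => wG i.1.1) (fun l => -(rd Φ).Q l) F u t x =
          ∑ a ∈ F, eu (t * ((-(rd Φ).Q (wG a.1.1) : ℤ) : ℝ)) * u a x := rfl
      have e2 : G true t x =
          ∑ b ∈ F1, eu (t * ((-(rd Φ).Q (wG b.1.1) : ℤ) : ℝ)) * u (psi 1 b) x := rfl
      have e3 : G false t x =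
          ∑ b ∈ F0, eu (t * ((-(rd Φ).Q (wG b.1.1) : ℤ) : ℝ)) * u (psi 0 b) x := rfl
      rw [e1, e2, e3, sum_split F (fun a => eu (t * ((-(rd Φ).Q (wG a.1.1) : ℤ) : ℝ)) * u a x),
        add_comm]
      rfl
    have jc0 : JC G0 := jc_uw (fun i : PX Hc 0 => wG i.1.1) (fun l => -(rd Φ).Q l) F0
      (fun b => u (psi 0 b)) fun b hb => (hu0 b hb).1
    have jc1 : JC G1 := jc_uw (fun i : PX Hc 1 => wG i.1.1) (fun l => -(rd Φ).Q l) F1
      (fun b => u (psi 1 b)) fun b hb => (hu1 b hb).1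
    have jcG : ∀ i ∈ (Finset.univ : Finset Bool), JC (G i) := by
      intro i _
      cases i
      · exact jc0
      · exact jc1
    have htri := (hNQ H μ).tri p Bool Finset.univ G hp1 jcG
    rw [hsum]
    refine htri.trans ?_
    rw [Fintype.sum_bool]
    set s : ℝ := (((1 : ℕ) : ℝ) + 1) - 2 * (((1 : ℕ) : ℝ) + 1 + 2) / p with hs
    set g : OX Hc → ℝ := fun a => sz (wG a.1.1) ^ s * nsq μ (u a) with hg
    have hg0 : ∀ a, 0 ≤ g a := by
      intro a
      refine mul_nonneg (Real.rpow_nonneg ?_ _) (integral_nonneg fun _ => by positivity)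
      unfold sz
      positivity
    have hgs := sum_split F g
    have n0 : 0 ≤ ∑ b ∈ F0, g (psi 0 b) := Finset.sum_nonneg fun b _ => hg0 _
    have n1 : 0 ≤ ∑ b ∈ F1, g (psi 1 b) := Finset.sum_nonneg fun b _ => hg0 _
    have q0 : √(∑ b ∈ F0, g (psi 0 b)) ≤ √(∑ a ∈ F, g a) := by
      apply Real.sqrt_le_sqrt
      rw [hgs]
      linarith
    have q1 : √(∑ b ∈ F1, g (psi 1 b)) ≤ √(∑ a ∈ F, g a) := by
      apply Real.sqrt_le_sqrt
      rw [hgs]
      linarith
    have r0 : nq μ p (G false) ≤ D0 * √(∑ a ∈ F, g a) :=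
      k0.trans (mul_le_mul_of_nonneg_left q0 hD00)
    have r1 : nq μ p (G true) ≤ D1 * √(∑ a ∈ F, g a) :=
      k1.trans (mul_le_mul_of_nonneg_left q1 hD10)
    calc nq μ p (G true) + nq μ p (G false) ≤ D1 * √(∑ a ∈ F, g a) + D0 * √(∑ a ∈ F, g a) :=
          add_le_add r1 r0
      _ = (D0 + D1) * √(∑ a ∈ F, g a) := by ring

end

end SPH
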