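import Pool.Agent.SPH.StC
import Pool.Agent.STZ3.JBD
import Pool.Agent.STZ3.VOL

/-!
# The sphere: module JR1, the `L¹` bound near the diagonal
-/

namespace SPH

open STZ LGR STZ3 MeasureTheory Matrix Filter

open scoped ComplexConjugate Matrix Real Topology

noncomputable section

namespace JR1

section abs

variable {G : Type} [Group G] [TopologicalSpace G] [IsTopologicalGroup G]
  [SecondCountableTopology G] [MeasurableSpace G] [BorelSpace G] {r : ℕ}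

/-- as `STZ3.JBD.main`, with the integral over the set `A` kept -/
theorem main (μ κ : Measure G) [IsProbabilityMeasure μ] [μ.IsMulLeftInvariant]
    [μ.IsMulRightInvariant] [IsProbabilityMeasure κ] (hκ : κ.map Inv.inv = κ)
    (t : (Fin r → ℝ) → G) (ht : Measurable t) (D : Set G) (hD : MeasurableSet D)
    (hDi : ∀ z, z⁻¹ ∈ D ↔ z ∈ D) (w : G → ENNReal) (hw : Measurable w)
    (hwc : ∀ h x, w (h * x * h⁻¹) = w x) (tneg : ∀ θ, t (-θ) = (t θ)⁻¹)
    (tper : ∀ θ (n : Fin r → ℤ), t (θ + fun j => (n j : ℝ)) = t θ)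
    (hM : ∀ φ : G → ENNReal, Measurable φ →
      ∫⁻ θ in Set.Icc (0 : Fin r → ℝ) 1, ∫⁻ z, ∫⁻ z', φ (z * t θ * z') ∂κ ∂κ =
        ∫⁻ θ in Set.Icc (0 : Fin r → ℝ) 1, ∫⁻ x, φ (t θ * x) * w x ∂μ)
    (hper : ∀ (F : (Fin r → ℝ) → ENNReal), (∀ θ (n : Fin r → ℤ), F (θ + fun j => (n j : ℝ)) = F θ) →
      ∀ a : Fin r → ℝ, ∫⁻ θ in Set.Icc a (fun i => a i + 1), F θ =
        ∫⁻ θ in Set.Icc (0 : Fin r → ℝ) 1, F θ)
    (S : Set (Fin r → ℝ)) (a : Fin r → ℝ) (hSa : S ⊆ Set.Icc a (fun i => a i + 1))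
    (A : Set G) (hA : MeasurableSet A)
    (hmem : ∀ h z z' θ, z ∈ D → z' ∈ D → θ ∈ S → h * z * t θ * z' * h⁻¹ ∈ A) (K : ENNReal)
    (hS : MeasurableSet S)
    (hK : ∀ u ∈ A, ∫⁻ h, (∫⁻ θ in Set.Icc (0 : Fin r → ℝ) 1, w (h * t (-θ) * h⁻¹ * u)) ∂μ ≤ K)
    (F1 F2 : G → ENNReal) (hF1 : Measurable F1) (hF2 : Measurable F2) (L : ENNReal)
    (hL : ∀ g, ∫⁻ u, A.indicator (fun u => F2 (g * u)) u ∂μ ≤ L * ∫⁻ x, F2 x ∂μ) :
    ∫⁻ h, ∫⁻ g, (∫⁻ θ in S, (∫⁻ z in D, F1 (g * z * h⁻¹) ∂κ) *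
      (∫⁻ z in D, F2 (g * t θ * z * h⁻¹) ∂κ)) ∂μ ∂μ ≤
      K * (L * ((∫⁻ x, F1 x ∂μ) * ∫⁻ x, F2 x ∂μ)) := by
  classical
  set κD := κ.restrict D with hκD
  have hκDi : κD.map Inv.inv = κD := JBD.map_inv_restrict κ hκ D hD hDi
  set Ψ : G → ENNReal := fun u => ∫⁻ g, F1 g * F2 (g * u) ∂μ with hΨ
  have hΨm : Measurable Ψ := by
    refine Measurable.lintegral_prod_right' (f := fun p : G × G => F1 p.2 * F2 (p.2 * p.1)) ?_
    exact (hF1.comp measurable_snd).mul (hF2.comp (measurable_snd.mul measurable_fst))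
  -- step 1
  have step1 : ∀ h, ∫⁻ g, (∫⁻ θ in S, (∫⁻ z in D, F1 (g * z * h⁻¹) ∂κ) *
      (∫⁻ z in D, F2 (g * t θ * z * h⁻¹) ∂κ)) ∂μ =
      ∫⁻ θ in S, ∫⁻ z, ∫⁻ z', Ψ (h * z⁻¹ * t θ * z' * h⁻¹) ∂κD ∂κD := by
    intro h
    have e1 : ∀ g, (∫⁻ θ in S, (∫⁻ z in D, F1 (g * z * h⁻¹) ∂κ) *
      (∫⁻ z in D, F2 (g * t θ * z * h⁻¹) ∂κ)) =
        ∫⁻ θ in S, ∫⁻ z, ∫⁻ z', F1 (g * z * h⁻¹) * F2 (g * t θ * z' * h⁻¹) ∂κD ∂κD := by
      intro g
      refine lintegral_congr fun θ => ?_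
      rw [← lintegral_mul_const]
      · refine lintegral_congr fun z => ?_
        rw [lintegral_const_mul]
        exact hF2.comp (by fun_prop)
      · exact hF1.comp (by fun_prop)
    simp_rw [e1]
    have m0 : Measurable fun p : G × ((Fin r → ℝ) × (G × G)) =>
        F1 (p.1 * p.2.2.1 * h⁻¹) * F2 (p.1 * t p.2.1 * p.2.2.2 * h⁻¹) := by
      refine (hF1.comp (by fun_prop)).mul (hF2.comp ?_)
      have : Measurable fun p : G × ((Fin r → ℝ) × (G × G)) => t p.2.1 :=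
        ht.comp (by fun_prop)
      fun_prop
    rw [lintegral_lintegral_swap]
    · refine lintegral_congr fun θ => ?_
      rw [lintegral_lintegral_swap]
      · refine lintegral_congr fun z => ?_
        rw [lintegral_lintegral_swap]
        · refine lintegral_congr fun z' => ?_
          exact JBD.subst1 μ F1 F2 h z z' (t θ)
        · exact (m0.comp (by fun_prop : Measurable fun q : G × G => (q.1, (θ, (z, q.2))))).aemeasurable
      · refine Measurable.aemeasurable ?_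
        refine Measurable.lintegral_prod_right' (f := fun q : (G × G) × G =>
          F1 (q.1.1 * q.1.2 * h⁻¹) * F2 (q.1.1 * t θ * q.2 * h⁻¹)) ?_
        exact m0.comp (by fun_prop : Measurable fun q : (G × G) × G => (q.1.1, (θ, (q.1.2, q.2))))
    · refine Measurable.aemeasurable ?_
      refine Measurable.lintegral_prod_right' (f := fun q : (G × (Fin r → ℝ)) × G =>
          ∫⁻ z', F1 (q.1.1 * q.2 * h⁻¹) * F2 (q.1.1 * t q.1.2 * z' * h⁻¹) ∂κD) ?_
      refine Measurable.lintegral_prod_right' (f := fun q : ((G × (Fin r → ℝ)) × G) × G =>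
          F1 (q.1.1.1 * q.1.2 * h⁻¹) * F2 (q.1.1.1 * t q.1.1.2 * q.2 * h⁻¹)) ?_
      exact m0.comp (by fun_prop : Measurable fun q : ((G × (Fin r → ℝ)) × G) × G =>
        (q.1.1.1, (q.1.1.2, (q.1.2, q.2))))
  refine (lintegral_congr step1).le.trans ?_
  -- step 2
  have step2 : ∀ h θ, ∫⁻ z, ∫⁻ z', Ψ (h * z⁻¹ * t θ * z' * h⁻¹) ∂κD ∂κD =
      ∫⁻ z, ∫⁻ z', Ψ (h * z * t θ * z' * h⁻¹) ∂κD ∂κD := by
    intro h θ
    have m1 : Measurable fun z => ∫⁻ z', Ψ (h * z * t θ * z' * h⁻¹) ∂κD := by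
      refine Measurable.lintegral_prod_right' (f := fun q : G × G =>
        Ψ (h * q.1 * t θ * q.2 * h⁻¹)) ?_
      exact hΨm.comp (by fun_prop)
    conv_rhs => rw [← hκDi]
    rw [lintegral_map _ measurable_inv]
    · rw [hκDi]
    · rw [hκDi]; exact m1
  simp_rw [step2]
  -- step 3
  set Ψ' : G → ENNReal := A.indicator Ψ with hΨ'
  have hΨ'm : Measurable Ψ' := hΨm.indicator hA
  have step3 : ∀ h θ, θ ∈ S → ∫⁻ z, ∫⁻ z', Ψ (h * z * t θ * z' * h⁻¹) ∂κD ∂κD ≤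
      ∫⁻ z, ∫⁻ z', Ψ' (h * z * t θ * z' * h⁻¹) ∂κ ∂κ := by
    intro h θ hθ
    have e2 : ∫⁻ z, ∫⁻ z', Ψ (h * z * t θ * z' * h⁻¹) ∂κD ∂κD =
        ∫⁻ z in D, ∫⁻ z' in D, Ψ' (h * z * t θ * z' * h⁻¹) ∂κ ∂κ := by
      rw [hκD]
      refine setLIntegral_congr_fun hD fun z hz => ?_
      refine setLIntegral_congr_fun hD fun z' hz' => ?_
      rw [hΨ', Set.indicator_of_mem (hmem h z z' θ hz hz' hθ)]
    rw [e2]
    refine (setLIntegral_le_lintegral _ _).trans ?_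
    exact lintegral_mono fun z => setLIntegral_le_lintegral _ _
  have step4 : ∀ h, ∫⁻ θ in S, ∫⁻ z, ∫⁻ z', Ψ (h * z * t θ * z' * h⁻¹) ∂κD ∂κD ≤
      ∫⁻ θ in Set.Icc (0 : Fin r → ℝ) 1, ∫⁻ z, ∫⁻ z', Ψ' (h * z * t θ * z' * h⁻¹) ∂κ ∂κ := by
    intro h
    refine (setLIntegral_mono' hS fun θ hθ => step3 h θ hθ).trans ?_
    refine (lintegral_mono_set hSa).trans ?_
    refine le_of_eq (hper _ ?_ a)
    intro θ n
    simp_rw [tper θ n]
  have step5 : ∀ h, ∫⁻ θ in Set.Icc (0 : Fin r → ℝ) 1,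
      ∫⁻ z, ∫⁻ z', Ψ' (h * z * t θ * z' * h⁻¹) ∂κ ∂κ =
      ∫⁻ θ in Set.Icc (0 : Fin r → ℝ) 1, ∫⁻ u, Ψ' u * w (h * t (-θ) * h⁻¹ * u) ∂μ := by
    intro h
    have h1 := hM (fun x => Ψ' (h * x * h⁻¹)) (hΨ'm.comp (by fun_prop))
    have e3 : ∀ θ z z', Ψ' (h * (z * t θ * z') * h⁻¹) = Ψ' (h * z * t θ * z' * h⁻¹) := by
      intro θ z z'
      congr 1
      group
    simp_rw [e3] at h1
    rw [h1]
    refine lintegral_congr fun θ => ?_
    rw [JBD.subst2 μ w hwc Ψ' h (t θ), tneg]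
  calc ∫⁻ h, (∫⁻ θ in S, ∫⁻ z, ∫⁻ z', Ψ (h * z * t θ * z' * h⁻¹) ∂κD ∂κD) ∂μ
      ≤ ∫⁻ h, (∫⁻ θ in Set.Icc (0 : Fin r → ℝ) 1,
          ∫⁻ u, Ψ' u * w (h * t (-θ) * h⁻¹ * u) ∂μ) ∂μ := by
        refine lintegral_mono fun h => ?_
        rw [← step5 h]
        exact step4 h
    _ = ∫⁻ u, Ψ' u * ∫⁻ h, (∫⁻ θ in Set.Icc (0 : Fin r → ℝ) 1,
          w (h * t (-θ) * h⁻¹ * u)) ∂μ ∂μ := by
        have m2 : Measurable fun p : G × ((Fin r → ℝ) × G) =>
            w (p.1 * t (-p.2.1) * p.1⁻¹ * p.2.2) := by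
          refine hw.comp ?_
          have : Measurable fun p : G × ((Fin r → ℝ) × G) => t (-p.2.1) :=
            ht.comp (by fun_prop)
          fun_prop
        have m3 : Measurable fun p : G × ((Fin r → ℝ) × G) =>
            Ψ' p.2.2 * w (p.1 * t (-p.2.1) * p.1⁻¹ * p.2.2) :=
          (hΨ'm.comp (by fun_prop)).mul m2
        have e4 : ∀ h, ∫⁻ θ in Set.Icc (0 : Fin r → ℝ) 1,
            ∫⁻ u, Ψ' u * w (h * t (-θ) * h⁻¹ * u) ∂μ =
            ∫⁻ u, (∫⁻ θ in Set.Icc (0 : Fin r → ℝ) 1, Ψ' u * w (h * t (-θ) * h⁻¹ * u)) ∂μ := by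
          intro h
          rw [lintegral_lintegral_swap]
          exact (m3.comp (by fun_prop : Measurable fun q : (Fin r → ℝ) × G =>
            (h, (q.1, q.2)))).aemeasurable
        simp_rw [e4]
        rw [lintegral_lintegral_swap]
        · refine lintegral_congr fun u => ?_
          rw [← lintegral_const_mul]
          · refine lintegral_congr fun h => ?_
            rw [lintegral_const_mul]
            exact m2.comp (by fun_prop : Measurable fun θ : Fin r → ℝ => (h, (θ, u)))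
          · refine Measurable.lintegral_prod_right' (f := fun q : G × (Fin r → ℝ) =>
              w (q.1 * t (-q.2) * q.1⁻¹ * u)) ?_
            exact m2.comp (by fun_prop : Measurable fun q : G × (Fin r → ℝ) => (q.1, (q.2, u)))
        · refine Measurable.aemeasurable ?_
          refine Measurable.lintegral_prod_right' (f := fun q : (G × G) × (Fin r → ℝ) =>
              Ψ' q.1.2 * w (q.1.1 * t (-q.2) * q.1.1⁻¹ * q.1.2)) ?_
          exact m3.comp (by fun_prop : Measurable fun q : (G × G) × (Fin r → ℝ) =>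
            (q.1.1, (q.2, q.1.2)))
    _ ≤ ∫⁻ u, Ψ' u * K ∂μ := by
        refine lintegral_mono fun u => ?_
        by_cases hu : u ∈ A
        · exact mul_le_mul_right (hK u hu) _
        · rw [hΨ', Set.indicator_of_notMem hu, zero_mul, zero_mul]
    _ = K * ∫⁻ u, Ψ' u ∂μ := by rw [lintegral_mul_const _ hΨ'm, mul_comm]
    _ ≤ K * (L * ((∫⁻ x, F1 x ∂μ) * ∫⁻ x, F2 x ∂μ)) := by
        refine mul_le_mul_right ?_ _
        have e5 : ∀ u, Ψ' u = ∫⁻ g, F1 g * A.indicator (fun u => F2 (g * u)) u ∂μ := by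
          intro u
          by_cases hu : u ∈ A
          · rw [hΨ', Set.indicator_of_mem hu]
            refine lintegral_congr fun g => ?_
            rw [Set.indicator_of_mem hu]
          · rw [hΨ', Set.indicator_of_notMem hu]
            simp only [Set.indicator_of_notMem hu, mul_zero, lintegral_zero]
        simp_rw [e5]
        rw [lintegral_lintegral_swap]
        · calc ∫⁻ g, ∫⁻ u, F1 g * A.indicator (fun u => F2 (g * u)) u ∂μ ∂μ
              = ∫⁻ g, F1 g * ∫⁻ u, A.indicator (fun u => F2 (g * u)) u ∂μ ∂μ := by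
                refine lintegral_congr fun g => ?_
                rw [lintegral_const_mul]
                exact (hF2.comp (measurable_const_mul g)).indicator hA
            _ ≤ ∫⁻ g, F1 g * (L * ∫⁻ x, F2 x ∂μ) ∂μ :=
                lintegral_mono fun g => mul_le_mul_right (hL g) _
            _ = _ := by
                rw [lintegral_mul_const _ hF1]
                ring
        · refine Measurable.aemeasurable ?_
          have e6 : (Function.uncurry fun u g => F1 g * A.indicator (fun u => F2 (g * u)) u) =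
              fun p : G × G => F1 p.2 *
                ({p : G × G | p.1 ∈ A}.indicator (fun p => F2 (p.2 * p.1)) p) := by
            funext p
            obtain ⟨u, g⟩ := p
            by_cases hu : u ∈ A
            · simp only [Function.uncurry]
              rw [Set.indicator_of_mem hu, Set.indicator_of_mem (by exact hu)]
            · simp only [Function.uncurry]
              rw [Set.indicator_of_notMem hu, Set.indicator_of_notMem (by exact hu)]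
          rw [e6]
          refine (hF1.comp measurable_snd).mul ?_
          exact (hF2.comp (measurable_snd.mul measurable_fst)).indicator (measurable_fst hA)

/-- averaging over the torus -/
theorem avg (μ : Measure G) [IsProbabilityMeasure μ] [μ.IsMulLeftInvariant]
    [μ.IsMulRightInvariant] (t : (Fin r → ℝ) → G) (ht : Measurable t) (A : Set G)
    (hA : MeasurableSet A) (L : ENNReal)
    (hAL : ∀ u, ∫⁻ φ in Set.Icc (0 : Fin r → ℝ) 1, A.indicator 1 (u * t φ) ≤ L)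
    (F2 : G → ENNReal) (hF2 : Measurable F2) (hti : ∀ g φ, F2 (g * t φ) = F2 g) (g : G) :
    ∫⁻ u, A.indicator (fun u => F2 (g * u)) u ∂μ ≤ L * ∫⁻ x, F2 x ∂μ := by
  have hvol : volume (Set.Icc (0 : Fin r → ℝ) 1) = 1 := by
    rw [Real.volume_Icc_pi]
    simp
  have h1m : Measurable (A.indicator (1 : G → ENNReal)) := measurable_one.indicator hA
  have hgm : Measurable fun u => F2 (g * u) := hF2.comp (measurable_const_mul g)
  have hut : Measurable fun p : G × (Fin r → ℝ) => p.1 * t p.2 := by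
    have : Measurable fun p : G × (Fin r → ℝ) => t p.2 := ht.comp (by fun_prop)
    fun_prop
  calc ∫⁻ u, A.indicator (fun u => F2 (g * u)) u ∂μ
      = ∫⁻ u, F2 (g * u) * A.indicator 1 u ∂μ := by
        refine lintegral_congr fun u => ?_
        by_cases hu : u ∈ A
        · rw [Set.indicator_of_mem hu, Set.indicator_of_mem hu, Pi.one_apply, mul_one]
        · rw [Set.indicator_of_notMem hu, Set.indicator_of_notMem hu, mul_zero]
    _ = ∫⁻ φ in Set.Icc (0 : Fin r → ℝ) 1, ∫⁻ u, F2 (g * u) * A.indicator 1 u ∂μ := by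
        rw [setLIntegral_const, hvol, mul_one]
    _ = ∫⁻ φ in Set.Icc (0 : Fin r → ℝ) 1, ∫⁻ u, F2 (g * u) * A.indicator 1 (u * t φ) ∂μ := by
        refine lintegral_congr fun φ => ?_
        rw [← lintegral_mul_right_eq_self (μ := μ) (fun u => F2 (g * u) * A.indicator 1 u) (t φ)]
        refine lintegral_congr fun u => ?_
        rw [← mul_assoc, hti]
    _ = ∫⁻ u, F2 (g * u) *
          (∫⁻ φ in Set.Icc (0 : Fin r → ℝ) 1, A.indicator 1 (u * t φ)) ∂μ := by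
        rw [lintegral_lintegral_swap]
        · refine lintegral_congr fun u => ?_
          rw [lintegral_const_mul]
          exact h1m.comp (hut.comp (by fun_prop : Measurable fun φ : Fin r → ℝ => (u, φ)))
        · refine Measurable.aemeasurable ?_
          exact (hgm.comp measurable_snd).mul
            (h1m.comp (hut.comp (by fun_prop : Measurable fun q : (Fin r → ℝ) × G => (q.2, q.1))))
    _ ≤ ∫⁻ u, F2 (g * u) * L ∂μ := lintegral_mono fun u => mul_le_mul_right (hAL u) _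
    _ = L * ∫⁻ x, F2 x ∂μ := by
        rw [lintegral_mul_const _ hgm, lintegral_mul_left_eq_self, mul_comm]

end abs

/-- the volume of a neighbourhood of the half integers -/
theorem vol_nd (a δ : ℝ) (ha : 0 ≤ a) (ha' : a ≤ 1) :
    volume {φ : Fin 1 → ℝ | φ ∈ Set.Icc 0 1 ∧ nd (2 * (φ 0 - a)) ≤ δ} ≤
      ENNReal.ofReal (5 * δ) := by
  have hsub : {φ : Fin 1 → ℝ | φ ∈ Set.Icc 0 1 ∧ nd (2 * (φ 0 - a)) ≤ δ} ⊆
      ⋃ n ∈ Finset.Icc (-2 : ℤ) 2, Set.Icc (fun _ : Fin 1 => a + (n : ℝ) / 2 - δ / 2)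
        (fun _ => a + (n : ℝ) / 2 + δ / 2) := by
    rintro φ ⟨h1, h2⟩
    have h3 : 0 ≤ φ 0 := h1.1 0
    have h4 : φ 0 ≤ 1 := h1.2 0
    unfold nd at h2
    have h5 := abs_sub_round (2 * (φ 0 - a))
    set n := round (2 * (φ 0 - a)) with hn
    rw [abs_le] at h5 h2
    have h6 : -2 ≤ n := by
      have h8 : (-3 : ℝ) < n := by linarith
      have h9 : (-3 : ℤ) < n := by exact_mod_cast h8
      omega
    have h7 : n ≤ 2 := by
      have h8 : (n : ℝ) < 3 := by linarith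
      have h9 : n < (3 : ℤ) := by exact_mod_cast h8
      omega
    rw [Set.mem_iUnion₂]
    refine ⟨n, Finset.mem_Icc.2 ⟨h6, h7⟩, ?_⟩
    constructor
    · intro i
      rw [Subsingleton.elim i 0]
      dsimp only
      linarith
    · intro i
      rw [Subsingleton.elim i 0]
      dsimp only
      linarith
  refine (measure_mono hsub).trans ((measure_biUnion_finset_le _ _).trans ?_)
  have h1 : ∀ n ∈ Finset.Icc (-2 : ℤ) 2,
      volume (Set.Icc (fun _ : Fin 1 => a + (n : ℝ) / 2 - δ / 2)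
        (fun _ => a + (n : ℝ) / 2 + δ / 2)) = ENNReal.ofReal δ := by
    intro n _
    rw [Real.volume_Icc_pi, Fin.prod_univ_one]
    congr 1
    ring
  rw [Finset.sum_congr rfl h1, Finset.sum_const]
  have h2 : (Finset.Icc (-2 : ℤ) 2).card = 5 := by decide
  rw [h2, nsmul_eq_mul, ENNReal.ofReal_mul (by norm_num)]
  simp

theorem mul_star {N : ℕ} (z : SU N) : z.1 * z.1ᴴ = 1 := congrArg Subtype.val (mul_inv_cancel z)

theorem star_mul' {N : ℕ} (z : SU N) : z.1ᴴ * z.1 = 1 := congrArg Subtype.val (inv_mul_cancel z)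

/-- the element `tt (1/2)` is central -/
theorem central {N : ℕ} {H : Subgroup (SU N)} {Φ : RT 1} {B : Matrix (Fin 1) (Fin 1) ℤ}
    {Hc : Fin 1 → MT N} {E : (Fin 1 → ℤ) × (Fin 1 → ℤ) → MT N}
    (hL : LRD H Φ B Hc E) (hF : LIF H) (hW : WFF Φ B) (hT : TAF H Φ Hc E) (hR : R1F Φ)
    (hC : ∀ g ∈ H, ∃ h ∈ H, ∃ θ : Fin 1 → ℝ, g = h * ta Hc θ * h⁻¹) (g : SU N) (hg : g ∈ H) :
    g * ta Hc (fun _ => 1 / 2) = ta Hc (fun _ => 1 / 2) * g := by
  set z : SU N := ta Hc (fun _ => 1 / 2) with hz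
  have hzz : z.1ᴴ * z.1 = 1 := star_mul' z
  have hzz' : z.1 * z.1ᴴ = 1 := mul_star z
  -- the root vectors
  have hE : ∀ p ∈ pos Φ, z.1 * E p = E p * z.1 ∧ z.1 * (E p)ᴴ = (E p)ᴴ * z.1 := by
    intro p hp
    have hpΦ : p ∈ Φ := (hW.ppos p hp).1
    have h1 := hT.Ade p hpΦ (fun _ => 1 / 2)
    have h2 : dz p.1 (fun _ => (1 : ℝ) / 2) = ((1 : ℤ) : ℝ) := by
      rw [hR.pos, Finset.mem_singleton] at hp
      rw [hp]
      unfold dz
      rw [Fin.sum_univ_one]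
      norm_num
    rw [h2, GEO.eu_int, one_smul, ← hz] at h1
    have h3 : z.1 * E p = E p * z.1 := by
      calc z.1 * E p = z.1 * E p * (z.1ᴴ * z.1) := by rw [hzz, mul_one]
        _ = z.1 * E p * z.1ᴴ * z.1 := by rw [← mul_assoc]
        _ = E p * z.1 := by rw [h1]
    refine ⟨h3, ?_⟩
    have h4 : z.1 * (E p)ᴴ * z.1ᴴ = (E p)ᴴ := by
      have h5 := congrArg Matrix.conjTranspose h1
      rw [Matrix.conjTranspose_mul, Matrix.conjTranspose_mul, Matrix.conjTranspose_conjTranspose,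
        ← mul_assoc] at h5
      exact h5
    calc z.1 * (E p)ᴴ = z.1 * (E p)ᴴ * (z.1ᴴ * z.1) := by rw [hzz, mul_one]
      _ = z.1 * (E p)ᴴ * z.1ᴴ * z.1 := by rw [← mul_assoc]
      _ = (E p)ᴴ * z.1 := by rw [h4]
  -- the Cartan matrix
  have hH : ∀ j, Commute z.1 (Hc j) := by
    intro j
    rw [hz, hT.coe]
    have h1 : Commute (Hc j) (hx Hc fun j => 2 * π * (fun _ : Fin 1 => (1 : ℝ) / 2) j) := by
      unfold hx
      refine Commute.sum_right _ _ _ fun i _ => ?_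
      exact (show Commute (Hc j) (Hc i) from hL.comm j i).smul_right _
    exact (h1.exp_right).symm
  -- the Lie algebra
  have hX : ∀ X ∈ lie H, Commute z.1 X := by
    intro X hX
    obtain ⟨x, c, hxc⟩ := hL.span X hX
    rw [hxc]
    refine Commute.add_right (Commute.sum_right _ _ _ fun j _ => (hH j).smul_right _)
      (Commute.sum_right _ _ _ fun p hp => ?_)
    obtain ⟨h1, h2⟩ := hE p hp
    exact Commute.sub_right ((show Commute z.1 (E p) from h1).smul_right _)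
      ((show Commute z.1 (E p)ᴴ from h2).smul_right _)
  obtain ⟨h, hh, θ, hgθ⟩ := hC g hg
  have hhh : h.1ᴴ * h.1 = 1 := star_mul' h
  have hhh' : h.1 * h.1ᴴ = 1 := mul_star h
  have h1 := (hX _ (hF.ad h hh _ (hT.hmem fun j => 2 * π * θ j))).eq
  set A := hx Hc fun j => 2 * π * θ j with hA
  have h2 : Commute (h.1ᴴ * z.1 * h.1) A := by
    show h.1ᴴ * z.1 * h.1 * A = A * (h.1ᴴ * z.1 * h.1)
    calc h.1ᴴ * z.1 * h.1 * A = h.1ᴴ * (z.1 * (h.1 * A * h.1ᴴ)) * h.1 := by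
          simp only [mul_assoc]
          rw [hhh, mul_one]
      _ = h.1ᴴ * (h.1 * A * h.1ᴴ * z.1) * h.1 := by rw [h1]
      _ = h.1ᴴ * h.1 * (A * (h.1ᴴ * z.1 * h.1)) := by simp only [mul_assoc]
      _ = A * (h.1ᴴ * z.1 * h.1) := by rw [hhh, one_mul]
  have h3 := h2.exp_right.eq
  rw [← hT.coe θ] at h3
  apply Subtype.ext
  rw [hgθ]
  show h.1 * (ta Hc θ).1 * h.1ᴴ * z.1 = z.1 * (h.1 * (ta Hc θ).1 * h.1ᴴ)
  calc h.1 * (ta Hc θ).1 * h.1ᴴ * z.1
      = h.1 * ((ta Hc θ).1 * (h.1ᴴ * z.1 * h.1)) * h.1ᴴ := by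
        simp only [mul_assoc]
        rw [hhh', mul_one]
    _ = h.1 * (h.1ᴴ * z.1 * h.1 * (ta Hc θ).1) * h.1ᴴ := by rw [h3]
    _ = h.1 * h.1ᴴ * (z.1 * (h.1 * (ta Hc θ).1 * h.1ᴴ)) := by simp only [mul_assoc]
    _ = _ := by rw [hhh', one_mul]

section grp

variable {N : ℕ} {H : Subgroup (SU N)} {Hc : Fin 1 → MT N} {CP : ℝ}

/-- the torus points near the identity -/
theorem key {Φ : RT 1} {B : Matrix (Fin 1) (Fin 1) ℤ} {E : (Fin 1 → ℤ) × (Fin 1 → ℤ) → MT N}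
    (P : PSC H Hc CP) (hW : WFF Φ B) (hT : TAF H Φ Hc E) (hR : R1F Φ) (θ : Fin 1 → ℝ) :
    4 * nd (2 * θ 0) ≤ 2 * √(ps (tt H Hc θ)) := by
  have hp : ((fun _ => 2, fun _ => 1) : (Fin 1 → ℤ) × (Fin 1 → ℤ)) ∈ pos Φ := by
    rw [hR.pos]
    exact Finset.mem_singleton_self _
  set p : (Fin 1 → ℤ) × (Fin 1 → ℤ) := (fun _ => 2, fun _ => 1) with hpd
  have hpΦ : p ∈ Φ := (hW.ppos p hp).1
  have h1 := hT.Ade p hpΦ θ
  have h2 : (ta Hc θ).1 * E p = eu (dz p.1 θ) • (E p * (ta Hc θ).1) := by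
    have h3 : (ta Hc θ).1 * E p * (ta Hc θ).1ᴴ * (ta Hc θ).1 =
        eu (dz p.1 θ) • E p * (ta Hc θ).1 := by rw [h1]
    rw [Matrix.mul_assoc, star_mul', Matrix.mul_one, Matrix.smul_mul] at h3
    exact h3
  have h3 := VOL.small (ta Hc θ).1 (E p) (eu (dz p.1 θ)) (GEO.norm_eu _) (hT.pos p hpΦ).1 h2
  have h4 : (∑ i, ∑ j, ‖(ta Hc θ).1 i j - (1 : MT N) i j‖ ^ 2) = ps (tt H Hc θ) := by
    unfold STZ3.ps
    rw [P.tcoe θ]
  rw [h4] at h3
  have h5 : dz p.1 θ = 2 * θ 0 := by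
    unfold dz
    rw [Fin.sum_univ_one, hpd]
    norm_num
  rw [h5] at h3
  exact (GEO.lower _).trans h3

/-- the torus points in a small ball -/
theorem small_tor (P : PSC H Hc CP) (hk : ∀ θ : Fin 1 → ℝ, 4 * nd (2 * θ 0) ≤ 2 * √(ps (tt H Hc θ)))
    (R : ℝ) (u : H) :
    volume {φ : Fin 1 → ℝ | φ ∈ Set.Icc 0 1 ∧ √(ps (u * tt H Hc φ)) ≤ R} ≤
      ENNReal.ofReal (5 * R) := by
  by_cases hne : ({φ : Fin 1 → ℝ | φ ∈ Set.Icc 0 1 ∧ √(ps (u * tt H Hc φ)) ≤ R}).Nonempty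
  · obtain ⟨φ₀, h1, h2⟩ := hne
    refine (measure_mono ?_).trans (vol_nd (φ₀ 0) R (h1.1 0) (h1.2 0))
    rintro φ ⟨h3, h4⟩
    refine ⟨h3, ?_⟩
    have h5 : tt H Hc (φ - φ₀) = (u * tt H Hc φ₀)⁻¹ * (u * tt H Hc φ) := by
      rw [sub_eq_add_neg, add_comm, P.tadd, P.tneg]
      group
    have h6 := P.mul (u * tt H Hc φ₀)⁻¹ (u * tt H Hc φ)
    rw [← h5, P.inv] at h6
    have h7 := hk (φ - φ₀)
    rw [Pi.sub_apply] at h7
    linarith
  · rw [Set.not_nonempty_iff_eq_empty.1 hne, measure_empty]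
    exact zero_le

/-- the decomposition of `tt θ` -/
theorem tor_dec (P : PSC H Hc CP) (θ : Fin 1 → ℝ) (R : ℝ) (h : nd (2 * θ 0) ≤ R) :
    ∃ δ : Fin 1 → ℝ, (∀ i, |δ i| ≤ R) ∧
      (tt H Hc θ = tt H Hc δ ∨ tt H Hc θ = tt H Hc δ * tt H Hc (fun _ => 1 / 2)) := by
  unfold nd at h
  set n := round (2 * θ 0) with hn
  refine ⟨fun _ => θ 0 - (n : ℝ) / 2, ?_, ?_⟩
  · intro i
    have h0 : 0 ≤ |2 * θ 0 - (n : ℝ)| := abs_nonneg _
    have h1 : |θ 0 - (n : ℝ) / 2| = |2 * θ 0 - (n : ℝ)| / 2 := by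
      rw [← abs_of_pos (zero_lt_two' ℝ), ← abs_div, abs_of_pos (zero_lt_two' ℝ)]
      congr 1
      ring
    dsimp only
    rw [h1]
    linarith
  · rcases Int.even_or_odd' n with ⟨m, hm | hm⟩
    · left
      have h1 : θ = (fun _ : Fin 1 => θ 0 - (n : ℝ) / 2) +
          fun j => (((fun _ => m : Fin 1 → ℤ) j : ℤ) : ℝ) := by
        funext i
        rw [Subsingleton.elim i 0, Pi.add_apply, hm]
        push_cast
        ring
      conv_lhs => rw [h1]
      rw [P.tadd, P.tint, mul_one]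
    · right
      have h1 : θ = ((fun _ : Fin 1 => θ 0 - (n : ℝ) / 2) + fun _ => 1 / 2) +
          fun j => (((fun _ => m : Fin 1 → ℤ) j : ℤ) : ℝ) := by
        funext i
        rw [Subsingleton.elim i 0, Pi.add_apply, Pi.add_apply, hm]
        push_cast
        ring
      conv_lhs => rw [h1]
      rw [P.tadd, P.tadd, P.tint, mul_one]

end grp

end JR1

open JR1 in
theorem t_JR1 : M_JR1 := by
  intro hHAAR hLIEB hWFAC hTAUF hCONJ hGXOC hPSF hEXI hSYK hHKS hHKM hMTK hDET hSBD hRNK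
    N H Φ B Hc E c k hCX μ _ _ j
  classical
  have hcl := hCX.closed
  have hcs : CompactSpace H := isCompact_iff_compactSpace.1 hcl.isCompact
  have hsec : SecondCountableTopology H :=
    inferInstanceAs (SecondCountableTopology ((H : Set (SU N)) : Type))
  obtain ⟨hR, hI, hO⟩ := hHAAR H μ
  obtain ⟨X, hX⟩ := hCX.frame
  obtain ⟨⟨χ, hχ⟩, -⟩ := hGXOC N H 1 Φ B Hc E c k 3 X hCX.one_le hCX.closed hCX.conn hCX.lrd
    hCX.kc hX
  obtain ⟨CP, hCP, P⟩ := hPSF N H 1 Φ B Hc E c k 3 hCX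
  obtain ⟨C₂, hC₂, hD⟩ := hDET N H 1 Φ B Hc E c k 3 hCX
  obtain ⟨C₃, hC₃, hS⟩ := hSBD N H 1 Φ B Hc E c k 3 hCX μ χ hχ j C₂
  have hkc := (hHKS N H 1 Φ B Hc E c k 3 hCX χ hχ).1
  have hlie := hLIEB N H hcl
  have hIRD := hCX.lrd.ird
  have hW := hWFAC 1 Φ B hIRD
  have hR1 := hRNK Φ B hIRD hW
  have hT := hTAUF N H 1 Φ B Hc E hCX.closed hCX.lrd
  have hcj := hCONJ N H 1 Φ B Hc E hCX.closed hCX.conn hCX.lrd
  have hkey := key P hW hT hR1
  set z₀ : H := tt H Hc (fun _ => 1 / 2) with hz₀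
  have hz₀c : ∀ g : H, g * z₀ = z₀ * g := by
    intro g
    apply Subtype.ext
    have h1 := central hCX.lrd hlie hW hT hR1 hcj g.1 g.2
    rw [← P.tcoe] at h1
    exact h1
  have hz₀2 : z₀ * z₀ = 1 := by
    rw [hz₀, ← P.tadd, ← P.tint (fun _ => 1)]
    congr 1
    funext i
    rw [Pi.add_apply]
    norm_num
  set M : ℝ := 2 + √CP with hM
  have hM0 : 0 ≤ M := by positivity
  refine ⟨C₃ * (10 * M), by positivity, ?_⟩
  intro ϑ ρ ρ₁ κ hϑ hϑ' hρ hρ₁ hρ₁' hκ S a f₁ f₂ hSm hSa hSg hf₁ hf₂ h1 h2 hti₁ hti₂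
  have hρ' : ρ ≤ 1 := hρ₁.trans hρ₁'
  have hρ₁0 : 0 < ρ₁ := hρ.trans_le hρ₁
  obtain ⟨FF, hFF⟩ := hD ρ hρ hρ'
  obtain ⟨ϖ, hϖ⟩ := hEXI N H hcl (Fin 3) (fun a => ((√(2 * ϑ / k) : ℝ) : ℂ) • X a)
    (fun a => hlie.smul _ _ (hX.mem a))
  have hGM : GM H c k 3 (2 * ϑ) ϖ := ⟨X, hX, hϖ⟩
  have hκp : IsProbabilityMeasure κ := hκ.prob
  have hϖp : IsProbabilityMeasure ϖ := hϖ.prob
  have hκi : κ.map Inv.inv = κ := by
    refine hSYK N H hcl _ _ κ ?_ hκ
    intro a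
    refine hlie.smul _ _ ?_
    unfold yr
    refine hlie.smul _ _ ?_
    have hp : a.1.1 ∈ Φ := (Finset.mem_filter.1 a.1.2).1
    split_ifs
    · exact (hCX.lrd.emem _ hp).1
    · exact (hCX.lrd.emem _ hp).2
  -- the heat kernel
  set kk : H → ℂ := hk Φ χ (2 * ϑ) with hkk
  have hkkc : Continuous kk := hkc (2 * ϑ) (by linarith)
  obtain ⟨hk0, hk1⟩ := hHKM N H 1 Φ B Hc E c k 3 hCX μ χ hχ (2 * ϑ) (by linarith)
  rw [← hkk] at hk0 hk1
  have hϖd := JBD.hkm μ ϖ kk hkkc hk0 (fun f hf => hk1 ϖ hGM f hf)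
  set w : H → ENNReal := fun x => ENNReal.ofReal (kk x).re with hw
  have hwm : Measurable w := (Complex.continuous_re.comp hkkc).measurable.ennreal_ofReal
  have hnorm : ∀ x, (kk x).re = ‖kk x‖ := by
    intro x
    have h3 : kk x = ((kk x).re : ℂ) := by
      apply Complex.ext
      · simp
      · simp [(hk0 x).1]
    rw [h3, Complex.norm_real, Complex.ofReal_re, Real.norm_of_nonneg (hk0 x).2]
  have hkcl : ∀ h x : H, kk (h * x * h⁻¹) = kk x := by
    intro h x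
    rw [hkk]
    unfold hk
    refine tsum_congr fun i => ?_
    have h3 : χ i (h * x * h⁻¹) = χ i x := by
      obtain ⟨n, σ, -, -, -, hσ⟩ := hχ i
      rw [← hσ, ← hσ, Rep.ch, Rep.ch, map_mul, map_mul, Matrix.trace_mul_comm, ← mul_assoc,
        ← map_mul, inv_mul_cancel, map_one, one_mul]
    rw [h3]
  have hwc : ∀ h x : H, w (h * x * h⁻¹) = w x := by
    intro h x
    simp only [hw, hkcl h x]
  have hMm : ∀ φ : H → ENNReal, Measurable φ →
      ∫⁻ θ in Set.Icc (0 : Fin 1 → ℝ) 1, ∫⁻ z, ∫⁻ z', φ (z * tt H Hc θ * z') ∂κ ∂κ =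
        ∫⁻ θ in Set.Icc (0 : Fin 1 → ℝ) 1, ∫⁻ x, φ (tt H Hc θ * x) * w x ∂μ := by
    intro φ hφ
    rw [JBD.mtk κ ϖ (tt H Hc) P.tcont
      (fun f hf => hMTK N H 1 Φ B Hc E c k 3 hCX ϑ κ ϖ hϑ hκ hGM f hf) φ hφ]
    refine lintegral_congr fun θ => ?_
    have e0 := lintegral_withDensity_eq_lintegral_mul μ hwm
      (hφ.comp (measurable_const_mul (tt H Hc θ)))
    rw [← hϖd] at e0
    refine e0.trans ?_
    refine lintegral_congr fun x => ?_
    simp only [Pi.mul_apply, Function.comp_apply]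
    exact mul_comm _ _
  -- the sets
  set D : Set H := {z : H | ps z ≤ ρ ^ 2} with hDdef
  have hDm : MeasurableSet D := (isClosed_le P.cont continuous_const).measurableSet
  have hDi : ∀ z, z⁻¹ ∈ D ↔ z ∈ D := by
    intro z
    simp only [hDdef, Set.mem_ofPred_eq, P.inv]
  have hsq : ∀ z ∈ D, √(ps z) ≤ ρ := by
    intro z hz
    rw [Real.sqrt_le_left hρ.le]
    exact hz
  have hsc : Continuous fun u : H => √(ps u) := Real.continuous_sqrt.comp P.cont
  set A₀ : Set H := {u : H | √(ps u) ≤ M * ρ₁} with hA₀def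
  have hA₀m : MeasurableSet A₀ := (isClosed_le hsc continuous_const).measurableSet
  set A₁ : Set H := {u : H | √(ps (u * z₀)) ≤ M * ρ₁} with hA₁def
  have hA₁m : MeasurableSet A₁ :=
    (isClosed_le (hsc.comp (continuous_mul_const z₀)) continuous_const).measurableSet
  have hAm : MeasurableSet (A₀ ∪ A₁) := hA₀m.union hA₁m
  have hmem : ∀ (h z z' : H) (θ : Fin 1 → ℝ), z ∈ D → z' ∈ D → θ ∈ S →
      h * z * tt H Hc θ * z' * h⁻¹ ∈ A₀ ∪ A₁ := by
    intro h z z' θ hz hz' hθ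
    obtain ⟨δ, hδ, hδ'⟩ := tor_dec P θ ρ₁ (hSg hθ)
    have h3 : √(ps (h * (z * tt H Hc δ * z') * h⁻¹)) ≤ M * ρ₁ := by
      rw [P.cnj]
      have h4 := P.mul (z * tt H Hc δ) z'
      have h5 := P.mul z (tt H Hc δ)
      have h6 : √(ps (tt H Hc δ)) ≤ √CP * ρ₁ := by
        rw [← Real.sqrt_sq hρ₁0.le, ← Real.sqrt_mul hCP]
        exact Real.sqrt_le_sqrt (P.tps δ ρ₁ hδ)
      have h7 := hsq z hz
      have h8 := hsq z' hz'
      have h9 : M * ρ₁ = 2 * ρ₁ + √CP * ρ₁ := by rw [hM]; ring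
      linarith
    rcases hδ' with hδ' | hδ'
    · left
      rw [hA₀def, Set.mem_ofPred_eq, hδ']
      have e1 : h * z * tt H Hc δ * z' * h⁻¹ = h * (z * tt H Hc δ * z') * h⁻¹ := by group
      rw [e1]
      exact h3
    · right
      rw [hA₁def, Set.mem_ofPred_eq, hδ', ← hz₀]
      have e1 : h * z * (tt H Hc δ * z₀) * z' * h⁻¹ * z₀ = h * (z * tt H Hc δ * z') * h⁻¹ := by
        calc h * z * (tt H Hc δ * z₀) * z' * h⁻¹ * z₀
            = h * z * tt H Hc δ * (z₀ * (z' * h⁻¹)) * z₀ := by simp only [mul_assoc]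
          _ = h * z * tt H Hc δ * (z' * h⁻¹ * z₀) * z₀ := by rw [hz₀c (z' * h⁻¹)]
          _ = h * (z * tt H Hc δ * z') * h⁻¹ * (z₀ * z₀) := by simp only [mul_assoc]
          _ = _ := by rw [hz₀2, mul_one]
      rw [e1]
      exact h3
  -- the lower bound of the determinant
  have hFFl : ∀ u : H, ρ ^ 2 ≤ FF u := by
    intro u
    obtain ⟨h, hh, θ, hu⟩ := hcj u.1 u.2
    have h3 : u = (⟨h, hh⟩ : H) * tt H Hc θ * (⟨h, hh⟩ : H)⁻¹ := by
      apply Subtype.ext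
      show u.1 = h * (tt H Hc θ).1 * h⁻¹
      rw [P.tcoe]
      exact hu
    rw [h3, hFF.cnj, hFF.tor, hR1.pos, Finset.prod_singleton]
    have h4 : 0 ≤ (1 + ρ) * ‖1 - eu (dz (fun _ : Fin 1 => (2 : ℤ)) θ)‖ ^ 2 := by positivity
    linarith
  -- the bound
  set B₀ : ℝ := (ρ ^ 2 / ϑ) ^ ((3 : ℝ) / 2) / ρ ^ 2 + ϑ ^ (-((3 : ℝ) / 2)) * (ϑ / ρ ^ 2) ^ j with hB₀
  have hB₀0 : 0 ≤ B₀ := by positivity
  obtain ⟨Ck, hCk⟩ := JBD.bdd (fun x => (kk x).re) (Complex.continuous_re.comp hkkc)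
  have hνf : IsFiniteMeasure (volume.restrict (Set.Icc (0 : Fin 1 → ℝ) 1)) :=
    isFiniteMeasure_restrict.2 isCompact_Icc.measure_lt_top.ne
  have hK : ∀ u ∈ A₀ ∪ A₁, ∫⁻ h, (∫⁻ θ in Set.Icc (0 : Fin 1 → ℝ) 1,
      w (h * tt H Hc (-θ) * h⁻¹ * u)) ∂μ ≤ ENNReal.ofReal (C₃ * B₀) := by
    intro u _
    have m1 : Measurable fun p : H × (Fin 1 → ℝ) =>
        (kk (p.1 * tt H Hc (-p.2) * p.1⁻¹ * u)).re := by
      have h3 : Continuous fun p : H × (Fin 1 → ℝ) => tt H Hc (-p.2) :=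
        P.tcont.comp continuous_snd.neg
      have h4 : Continuous fun p : H × (Fin 1 → ℝ) => p.1 * tt H Hc (-p.2) * p.1⁻¹ * u := by
        fun_prop
      have h5 : Continuous fun p : H × (Fin 1 → ℝ) =>
          (kk (p.1 * tt H Hc (-p.2) * p.1⁻¹ * u)).re := Complex.continuous_re.comp (hkkc.comp h4)
      exact h5.measurable
    have h3 := JBD.lint_two μ (volume.restrict (Set.Icc (0 : Fin 1 → ℝ) 1))
      (fun p : H × (Fin 1 → ℝ) => (kk (p.1 * tt H Hc (-p.2) * p.1⁻¹ * u)).re) m1 Ck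
      (fun p => (hk0 _).2) (fun p => (le_abs_self _).trans (hCk _))
    have h4 := hS ϑ ρ FF hϑ hϑ' hρ hρ' hFF u
    have h5 : ∫ h, (∫ θ in Set.Icc (0 : Fin 1 → ℝ) 1,
        (kk (h * tt H Hc (-θ) * h⁻¹ * u)).re) ∂μ ≤ C₃ * B₀ := by
      simp_rw [hnorm]
      refine h4.trans ?_
      refine mul_le_mul_of_nonneg_left ?_ hC₃
      rw [hB₀]
      have h6 : ((3 : ℕ) : ℝ) = 3 := by norm_num
      rw [h6]
      refine add_le_add ?_ le_rfl
      exact div_le_div_of_nonneg_left (by positivity) (by positivity) (hFFl u)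
    exact h3.le.trans (ENNReal.ofReal_le_ofReal h5)
  -- the average over the torus
  have hball : ∀ u : H, ∫⁻ φ in Set.Icc (0 : Fin 1 → ℝ) 1, A₀.indicator 1 (u * tt H Hc φ) ≤
      ENNReal.ofReal (5 * (M * ρ₁)) := by
    intro u
    have hm : Measurable fun φ : Fin 1 → ℝ => u * tt H Hc φ :=
      (measurable_const_mul u).comp P.tcont.measurable
    have h3 : ∫⁻ φ in Set.Icc (0 : Fin 1 → ℝ) 1, A₀.indicator 1 (u * tt H Hc φ) =
        volume ((fun φ : Fin 1 → ℝ => u * tt H Hc φ) ⁻¹' A₀ ∩ Set.Icc (0 : Fin 1 → ℝ) 1) := by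
      rw [← Measure.restrict_apply (hm hA₀m), ← lintegral_indicator_one (hm hA₀m)]
      rfl
    rw [h3]
    refine (measure_mono ?_).trans (small_tor P hkey (M * ρ₁) u)
    rintro φ ⟨h4, h5⟩
    exact ⟨h5, h4⟩
  have hAL : ∀ u : H, ∫⁻ φ in Set.Icc (0 : Fin 1 → ℝ) 1,
      (A₀ ∪ A₁).indicator 1 (u * tt H Hc φ) ≤ ENNReal.ofReal (10 * M * ρ₁) := by
    intro u
    have h3 : ∀ v : H, (A₀ ∪ A₁).indicator (1 : H → ENNReal) v ≤
        A₀.indicator 1 v + A₀.indicator 1 (v * z₀) := by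
      intro v
      by_cases hv : v ∈ A₀
      · rw [Set.indicator_of_mem (show v ∈ A₀ ∪ A₁ from Or.inl hv), Set.indicator_of_mem hv]
        exact le_self_add
      · by_cases hv' : v * z₀ ∈ A₀
        · rw [Set.indicator_of_mem (show v ∈ A₀ ∪ A₁ from Or.inr hv'), Set.indicator_of_mem hv']
          exact le_add_self
        · have h4 : v ∉ A₀ ∪ A₁ := by
            rintro (h | h)
            · exact hv h
            · exact hv' h
          rw [Set.indicator_of_notMem h4]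
          exact zero_le
    have hm : Measurable fun φ : Fin 1 → ℝ => A₀.indicator (1 : H → ENNReal) (u * tt H Hc φ) :=
      (measurable_one.indicator hA₀m).comp ((measurable_const_mul u).comp P.tcont.measurable)
    calc ∫⁻ φ in Set.Icc (0 : Fin 1 → ℝ) 1, (A₀ ∪ A₁).indicator 1 (u * tt H Hc φ)
        ≤ ∫⁻ φ in Set.Icc (0 : Fin 1 → ℝ) 1, (A₀.indicator 1 (u * tt H Hc φ) +
            A₀.indicator 1 (u * z₀ * tt H Hc φ)) := by
          refine lintegral_mono fun φ => ?_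
          refine (h3 _).trans (le_of_eq ?_)
          rw [mul_assoc u (tt H Hc φ) z₀, hz₀c (tt H Hc φ), ← mul_assoc]
      _ = (∫⁻ φ in Set.Icc (0 : Fin 1 → ℝ) 1, A₀.indicator 1 (u * tt H Hc φ)) +
            ∫⁻ φ in Set.Icc (0 : Fin 1 → ℝ) 1, A₀.indicator 1 (u * z₀ * tt H Hc φ) :=
          lintegral_add_left hm _
      _ ≤ ENNReal.ofReal (5 * (M * ρ₁)) + ENNReal.ofReal (5 * (M * ρ₁)) :=
          add_le_add (hball u) (hball (u * z₀))
      _ = ENNReal.ofReal (10 * M * ρ₁) := by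
          rw [← ENNReal.ofReal_add (by positivity) (by positivity)]
          congr 1
          ring
  have hti : ∀ (g : H) (φ : Fin 1 → ℝ),
      ENNReal.ofReal (f₂ (g * tt H Hc φ)) = ENNReal.ofReal (f₂ g) := by
    intro g φ
    rw [hti₂ g φ]
  have hmain := JR1.main μ κ hκi (tt H Hc) P.tcont.measurable D hDm hDi w hwm hwc P.tneg
    (fun θ n => by rw [P.tadd, P.tint, mul_one]) hMm (fun F hF a => JBD.setLIntegral_per F hF a)
    S a hSa (A₀ ∪ A₁) hAm hmem _ hSm hK (fun x => ENNReal.ofReal (f₁ x))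
    (fun x => ENNReal.ofReal (f₂ x)) hf₁.measurable.ennreal_ofReal hf₂.measurable.ennreal_ofReal
    (ENNReal.ofReal (10 * M * ρ₁))
    (fun g => avg μ (tt H Hc) P.tcont.measurable (A₀ ∪ A₁) hAm _ hAL
      (fun x => ENNReal.ofReal (f₂ x)) hf₂.measurable.ennreal_ofReal hti g)
  have hi : ∀ f : H → ℝ, Continuous f → (∀ x, 0 ≤ f x) →
      ∫⁻ x, ENNReal.ofReal (f x) ∂μ = ENNReal.ofReal (∫ x, f x ∂μ) := by
    intro f hf h0
    obtain ⟨C, hC⟩ := JBD.bdd f hf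
    exact (ofReal_integral_eq_lintegral_ofReal (Integrable.of_bound hf.aestronglyMeasurable C
      (Eventually.of_forall hC)) (Eventually.of_forall h0)).symm
  rw [hi f₁ hf₁ h1, hi f₂ hf₂ h2, ← ENNReal.ofReal_mul (integral_nonneg h1),
    ← ENNReal.ofReal_mul (by positivity), ← ENNReal.ofReal_mul (by positivity)] at hmain
  have hi1 : 0 ≤ ∫ x, f₁ x ∂μ := integral_nonneg h1
  have hi2 : 0 ≤ ∫ x, f₂ x ∂μ := integral_nonneg h2
  have hR0 : 0 ≤ C₃ * B₀ * (10 * M * ρ₁ * ((∫ x, f₁ x ∂μ) * ∫ x, f₂ x ∂μ)) := by positivity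
  have hfin : C₃ * (10 * M) * ρ₁ * B₀ * ((∫ x, f₁ x ∂μ) * ∫ x, f₂ x ∂μ) =
      C₃ * B₀ * (10 * M * ρ₁ * ((∫ x, f₁ x ∂μ) * ∫ x, f₂ x ∂μ)) := by ring
  rw [hfin, Measure.restrict_univ, ← ENNReal.ofReal_le_ofReal_iff hR0]
  refine le_trans ?_ hmain
  refine (JBD.ofReal_integral_le μ _).trans (lintegral_mono fun h => ?_)
  refine (JBD.ofReal_integral_le μ _).trans (lintegral_mono fun g => ?_)
  refine (JBD.ofReal_integral_le _ _).trans (lintegral_mono fun θ => ?_)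
  dsimp only
  rw [ENNReal.ofReal_mul (integral_nonneg fun z => h1 _)]
  exact mul_le_mul' (JBD.ofReal_integral_le _ _) (JBD.ofReal_integral_le _ _)

end

end SPH
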