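import Pool.Agent.SPH.StC

/-!
# The sphere S²: module JR2 (helper55), the `L¹` bound for the band
-/

namespace SPH

open STZ LGR STZ3 MeasureTheory Matrix Filter

open scoped ComplexConjugate Matrix Real Topology

noncomputable section

namespace JR2

/-! ### change of variables -/

theorem nd_le_half (x : ℝ) : nd x ≤ 1 / 2 := abs_sub_round x

theorem two_nd_le (x : ℝ) : 2 * nd x ≤ |Real.sin (π * x)| := by
  have h1 : |Real.sin (π * x)| = Real.sin (π * nd x) := by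
    have h2 : Real.sin (π * (x - round x)) = (-1) ^ (round x) * Real.sin (π * x) := by
      rw [mul_sub, mul_comm π ((round x : ℤ) : ℝ), Real.sin_sub_int_mul_pi]
    have h3 : |Real.sin (π * x)| = |Real.sin (π * (x - round x))| := by
      rw [h2, abs_mul, abs_zpow, abs_neg, abs_one, _root_.one_zpow, one_mul]
    rw [h3]
    unfold nd
    have h5 := abs_sub_round x
    rcases le_total 0 (x - round x) with h4 | h4
    · rw [abs_of_nonneg h4] at h5 ⊢
      rw [abs_of_nonneg]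
      refine Real.sin_nonneg_of_nonneg_of_le_pi (by positivity) ?_
      nlinarith [Real.pi_pos]
    · rw [abs_of_nonpos h4] at h5 ⊢
      rw [mul_neg, Real.sin_neg, abs_of_nonpos]
      refine Real.sin_nonpos_of_nonpos_of_neg_pi_le ?_ ?_
      · nlinarith [Real.pi_pos]
      · nlinarith [Real.pi_pos]
  rw [h1]
  have h2 : 0 ≤ nd x := abs_nonneg _
  have h3 := Real.mul_le_sin (x := π * nd x) (by positivity) (by
    have := nd_le_half x
    nlinarith [Real.pi_pos])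
  have h4 : 2 / π * (π * nd x) = 2 * nd x := by
    field_simp
  linarith

theorem cos_inj (k : ℤ) (x y : ℝ) (hx : k * π ≤ x) (hx' : x ≤ (k + 1) * π) (hy : k * π ≤ y)
    (hy' : y ≤ (k + 1) * π) (h : Real.cos x = Real.cos y) : x = y := by
  have h1 := Real.cos_sub_int_mul_pi x k
  have h2 := Real.cos_sub_int_mul_pi y k
  have h3 : Real.cos (x - k * π) = Real.cos (y - k * π) := by rw [h1, h2, h]
  have h4 := Real.injOn_cos (x₁ := x - k * π) ⟨by linarith, by linarith⟩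
    (x₂ := y - k * π) ⟨by linarith, by linarith⟩ h3
  linarith

theorem cov (φ : ℝ → ENNReal) (A r α lam a : ℝ) (hlam : 0 < lam) (S : Set ℝ)
    (hS : MeasurableSet S) (hSa : S ⊆ Set.Icc a (a + 1))
    (hd : ∀ θ ∈ S, lam ≤ |4 * π * (r * Real.sin (4 * π * θ - α))|)
    (hv : ∀ θ ∈ S, A + r * Real.cos (4 * π * θ - α) ∈ Set.Icc (-1 : ℝ) 1) :
    ∫⁻ θ in S, φ (A + r * Real.cos (4 * π * θ - α)) ≤
      ENNReal.ofReal (5 / lam) * ∫⁻ s in Set.Icc (-1 : ℝ) 1, φ s := by
  have hpi := Real.pi_pos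
  set k₀ : ℤ := ⌊(4 * π * a - α) / π⌋ with hk₀
  set I : Fin 5 → Set ℝ := fun i => S ∩ {θ | ((k₀ + (i : ℕ) : ℤ) : ℝ) * π ≤ 4 * π * θ - α ∧
    4 * π * θ - α ≤ (((k₀ + (i : ℕ) : ℤ) : ℝ) + 1) * π} with hI
  have hIm : ∀ i, MeasurableSet (I i) := by
    intro i
    refine hS.inter ?_
    have h1 : IsClosed {θ : ℝ | ((k₀ + (i : ℕ) : ℤ) : ℝ) * π ≤ 4 * π * θ - α} :=
      isClosed_le (by fun_prop) (by fun_prop)
    have h2 : IsClosed {θ : ℝ | 4 * π * θ - α ≤ (((k₀ + (i : ℕ) : ℤ) : ℝ) + 1) * π} :=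
      isClosed_le (by fun_prop) (by fun_prop)
    exact (h1.inter h2).measurableSet
  have hcov : S ⊆ ⋃ i, I i := by
    intro θ hθ
    obtain ⟨h1, h2⟩ := hSa hθ
    set x := (4 * π * θ - α) / π with hx
    have h3 : (4 * π * a - α) / π ≤ x := by
      rw [hx]
      refine div_le_div_of_nonneg_right ?_ hpi.le
      nlinarith
    have h4 : x ≤ (4 * π * a - α) / π + 4 := by
      rw [hx, div_add' _ _ _ hpi.ne']
      refine div_le_div_of_nonneg_right ?_ hpi.le
      nlinarith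
    have h5 : k₀ ≤ ⌊x⌋ := Int.floor_le_floor h3
    have h6 : ⌊x⌋ ≤ k₀ + 4 := by
      rw [hk₀, ← Int.floor_add_ofNat]
      exact Int.floor_le_floor h4
    obtain ⟨n, hn⟩ : ∃ n : ℕ, ⌊x⌋ = k₀ + n := ⟨(⌊x⌋ - k₀).toNat, by omega⟩
    refine Set.mem_iUnion.2 ⟨⟨n, by omega⟩, hθ, ?_⟩
    have h7 := Int.floor_le x
    have h8 := Int.lt_floor_add_one x
    rw [hn] at h7 h8
    have h9 : x * π = 4 * π * θ - α := by
      rw [hx]
      field_simp
    change ((k₀ + (n : ℕ) : ℤ) : ℝ) * π ≤ 4 * π * θ - α ∧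
      4 * π * θ - α ≤ (((k₀ + (n : ℕ) : ℤ) : ℝ) + 1) * π
    rw [← h9]
    exact ⟨mul_le_mul_of_nonneg_right h7 hpi.le, mul_le_mul_of_nonneg_right h8.le hpi.le⟩
  have hone : ∀ i, ∫⁻ θ in I i, φ (A + r * Real.cos (4 * π * θ - α)) ≤
      ENNReal.ofReal (1 / lam) * ∫⁻ s in Set.Icc (-1 : ℝ) 1, φ s := by
    intro i
    have h1 := lintegral_image_eq_lintegral_abs_deriv_mul (s := I i)
      (f := fun θ => A + r * Real.cos (4 * π * θ - α))
      (f' := fun θ => r * (-Real.sin (4 * π * θ - α) * (4 * π))) (hIm i) (by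
        intro θ _
        refine HasDerivAt.hasDerivWithinAt ?_
        refine HasDerivAt.const_add _ (HasDerivAt.const_mul _ ?_)
        refine (Real.hasDerivAt_cos _).comp θ ?_
        have h2 := ((hasDerivAt_id θ).const_mul (4 * π)).sub_const α
        simpa using h2) (by
        intro θ hθ θ' hθ' h
        have hr : r ≠ 0 := by
          rintro rfl
          have := hd θ hθ.1
          simp at this
          linarith
        simp only [add_right_inj, mul_eq_mul_left_iff, hr, or_false] at h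
        have h3 := cos_inj _ _ _ hθ.2.1 hθ.2.2 hθ'.2.1 hθ'.2.2 h
        have h4 : 4 * π * θ = 4 * π * θ' := by linarith
        exact mul_left_cancel₀ (by positivity) h4) φ
    have h2 : (fun θ => A + r * Real.cos (4 * π * θ - α)) '' I i ⊆ Set.Icc (-1 : ℝ) 1 := by
      rintro _ ⟨θ, hθ, rfl⟩
      exact hv θ hθ.1
    have h3 : ENNReal.ofReal lam * ∫⁻ θ in I i, φ (A + r * Real.cos (4 * π * θ - α)) ≤
        ∫⁻ s in Set.Icc (-1 : ℝ) 1, φ s := by
      refine (lintegral_const_mul_le _ _).trans ?_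
      refine le_trans ?_ (lintegral_mono_set h2)
      rw [h1]
      refine setLIntegral_mono' (hIm i) fun θ hθ => ?_
      refine mul_le_mul_left (ENNReal.ofReal_le_ofReal ?_) _
      refine (hd θ hθ.1).trans (le_of_eq ?_)
      rw [← abs_neg]
      congr 1
      ring
    have h4 : ENNReal.ofReal lam ≠ 0 := by
      rw [Ne, ENNReal.ofReal_eq_zero, not_le]
      exact hlam
    have h5 : ENNReal.ofReal (1 / lam) = (ENNReal.ofReal lam)⁻¹ := by
      rw [one_div, ENNReal.ofReal_inv_of_pos hlam]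
    rw [h5, ← ENNReal.div_eq_inv_mul, ENNReal.le_div_iff_mul_le (Or.inl h4)
      (Or.inl ENNReal.ofReal_ne_top)]
    exact (mul_comm _ _).trans_le h3
  refine (lintegral_mono_set hcov).trans ((lintegral_iUnion_le _ _).trans ?_)
  rw [tsum_fintype]
  refine (Finset.sum_le_sum fun i _ => hone i).trans (le_of_eq ?_)
  rw [Finset.sum_const, Finset.card_univ, Fintype.card_fin, nsmul_eq_mul, ← mul_assoc]
  congr 1
  rw [show (5 / lam : ℝ) = 5 * (1 / lam) by ring, ENNReal.ofReal_mul (by norm_num)]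
  norm_num

/-- the polar form -/
theorem polar (b : ℂ) (θ : ℝ) : (b * conj (eu (2 * θ))).re =
    ‖b‖ * Real.cos (4 * π * θ - b.arg) := by
  have h1 : conj (eu (2 * θ)) = Complex.exp ((-(4 * π * θ) : ℝ) * Complex.I) := by
    unfold eu
    rw [← Complex.exp_conj]
    congr 1
    simp only [map_mul, Complex.conj_ofReal, Complex.conj_I, map_ofNat]
    push_cast
    ring
  have h2 : b * conj (eu (2 * θ)) =
      ((‖b‖ : ℝ) : ℂ) * Complex.exp (((b.arg - 4 * π * θ : ℝ) : ℂ) * Complex.I) := by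
    conv_lhs => rw [← Complex.norm_mul_exp_arg_mul_I b]
    rw [h1, mul_assoc, ← Complex.exp_add]
    congr 2
    push_cast
    ring
  rw [h2, Complex.re_ofReal_mul, Complex.exp_ofReal_mul_I_re, ← Real.cos_neg]
  congr 2
  ring

theorem polar' (b : ℂ) (θ : ℝ) : ‖b‖ * Real.sin (4 * π * θ - b.arg) =
    b.re * Real.sin (4 * π * θ) - b.im * Real.cos (4 * π * θ) := by
  have h1 : b.re = ‖b‖ * Real.cos b.arg := (Complex.norm_mul_cos_arg b).symm
  have h2 : b.im = ‖b‖ * Real.sin b.arg := (Complex.norm_mul_sin_arg b).symm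
  rw [Real.sin_sub]
  conv_rhs => rw [h1, h2]
  ring

/-- the derivative is large -/
theorem der (b : ℂ) (lam θ : ℝ) (h0 : 0 ≤ lam) (h1 : 1 / 2 ≤ b.re) (h2 : |b.im| ≤ lam / 2)
    (h3 : lam ≤ nd (4 * θ)) :
    lam ≤ |4 * π * (‖b‖ * Real.sin (4 * π * θ - b.arg))| := by
  rw [polar']
  have hpi := Real.pi_gt_three
  have h4 := two_nd_le (4 * θ)
  have h5 : π * (4 * θ) = 4 * π * θ := by ring
  rw [h5] at h4
  have h6 : |b.im * Real.cos (4 * π * θ)| ≤ lam / 2 := by
    rw [abs_mul]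
    exact (mul_le_of_le_one_right (abs_nonneg _) (Real.abs_cos_le_one _)).trans h2
  have h7 : lam ≤ |b.re * Real.sin (4 * π * θ)| := by
    rw [abs_mul, abs_of_nonneg (by linarith : (0 : ℝ) ≤ b.re)]
    nlinarith [abs_nonneg (Real.sin (4 * π * θ))]
  have h8 := abs_sub_abs_le_abs_sub (b.re * Real.sin (4 * π * θ)) (b.im * Real.cos (4 * π * θ))
  rw [abs_mul, abs_of_pos (by positivity : (0 : ℝ) < 4 * π)]
  nlinarith

/-- functions of the coordinate -/
theorem factor {X : Type*} [TopologicalSpace X] [CompactSpace X] (cc : X → ℝ)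
    (hc : Continuous cc) (Ψ : X → ENNReal) (hΨ : Continuous Ψ)
    (h : ∀ u v, cc u = cc v → Ψ u = Ψ v) :
    ∃ φ : ℝ → ENNReal, Measurable φ ∧ ∀ u, φ (cc u) = Ψ u := by
  have h1 : ∀ u, (⨆ (v : X) (_ : cc v = cc u), Ψ v) = Ψ u := by
    intro u
    apply le_antisymm
    · refine iSup₂_le fun v hv => ?_
      rw [h v u hv]
    · exact le_iSup₂ (f := fun (v : X) (_ : cc v = cc u) => Ψ v) u rfl
  refine ⟨fun s => ⨆ (v : X) (_ : cc v = s), Ψ v, ?_, h1⟩
  refine measurable_of_Ici fun c => ?_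
  rcases eq_or_ne c 0 with rfl | hc0
  · have : (fun s => ⨆ (v : X) (_ : cc v = s), Ψ v) ⁻¹' Set.Ici 0 = Set.univ := by
      ext s
      simp
    rw [this]
    exact MeasurableSet.univ
  · have : (fun s => ⨆ (v : X) (_ : cc v = s), Ψ v) ⁻¹' Set.Ici c = cc '' (Ψ ⁻¹' Set.Ici c) := by
      ext s
      constructor
      · intro hs
        by_cases hs' : ∃ u, cc u = s
        · obtain ⟨u, rfl⟩ := hs'
          refine ⟨u, ?_, rfl⟩
          rw [Set.mem_preimage, h1] at hs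
          exact hs
        · exfalso
          rw [Set.mem_preimage, Set.mem_Ici] at hs
          have h2 : (⨆ (v : X) (_ : cc v = s), Ψ v) = 0 := by
            rw [← bot_eq_zero, eq_bot_iff]
            refine iSup₂_le fun v hv => ?_
            exact absurd ⟨v, hv⟩ hs'
          rw [h2] at hs
          exact hc0 (le_antisymm hs zero_le)
      · rintro ⟨u, hu, rfl⟩
        rw [Set.mem_preimage, h1]
        exact hu
    rw [this]
    exact (((isClosed_Ici.preimage hΨ).isCompact).image hc).measurableSet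

theorem est (e p q : ℂ) (τ : ℝ) (hp : ‖p - e‖ ≤ τ) (hq : ‖q - e‖ ≤ τ) (hq1 : ‖q‖ ≤ 1)
    (he1 : ‖e‖ ≤ 1) : |(p * conj q).re - ‖e‖ ^ 2| ≤ 2 * τ ∧ |(p * conj q).im| ≤ 2 * τ := by
  have h1 : p * conj q - ((‖e‖ ^ 2 : ℝ) : ℂ) = (p - e) * conj q + e * conj (q - e) := by
    have h2 : ((‖e‖ ^ 2 : ℝ) : ℂ) = e * conj e := by
      rw [Complex.mul_conj, Complex.normSq_eq_norm_sq]
    rw [h2, map_sub]
    ring
  have h3 : ‖p * conj q - ((‖e‖ ^ 2 : ℝ) : ℂ)‖ ≤ 2 * τ := by
    rw [h1]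
    refine (norm_add_le _ _).trans ?_
    rw [norm_mul, norm_mul, RCLike.norm_conj, RCLike.norm_conj]
    have h4 : ‖p - e‖ * ‖q‖ ≤ τ * 1 := mul_le_mul hp hq1 (norm_nonneg _)
      ((norm_nonneg _).trans hp)
    have h5 : ‖e‖ * ‖q - e‖ ≤ 1 * τ := mul_le_mul he1 hq (norm_nonneg _) zero_le_one
    linarith
  constructor
  · have h6 := (Complex.abs_re_le_norm (p * conj q - ((‖e‖ ^ 2 : ℝ) : ℂ))).trans h3
    rwa [Complex.sub_re, Complex.ofReal_re] at h6
  · have h6 := (Complex.abs_im_le_norm (p * conj q - ((‖e‖ ^ 2 : ℝ) : ℂ))).trans h3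
    rwa [Complex.sub_im, Complex.ofReal_im, sub_zero] at h6

/-! ### the correlation -/

/-- the integral is at most the lower integral of the positive part -/
theorem ofReal_integral_le {α : Type*} [MeasurableSpace α] (μ : Measure α) (f : α → ℝ) :
    ENNReal.ofReal (∫ x, f x ∂μ) ≤ ∫⁻ x, ENNReal.ofReal (f x) ∂μ := by
  by_cases hf : Integrable f μ
  · rw [integral_eq_lintegral_pos_part_sub_lintegral_neg_part hf]
    refine le_trans (ENNReal.ofReal_le_ofReal (sub_le_self _ ENNReal.toReal_nonneg)) ?_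
    exact ENNReal.ofReal_toReal_le
  · rw [integral_undef hf]
    simp

section abs

variable {G : Type} [Group G] [TopologicalSpace G] [IsTopologicalGroup G]
  [SecondCountableTopology G] [MeasurableSpace G] [BorelSpace G] {r : ℕ}

/-- the correlation -/
def Psi (μ : Measure G) (F1 F2 : G → ENNReal) (u : G) : ENNReal := ∫⁻ g, F1 g * F2 (g * u) ∂μ

omit [SecondCountableTopology G] in
/-- substitution `g ↦ g h z⁻¹` -/
theorem subst1 (μ : Measure G) [μ.IsMulRightInvariant] (F1 F2 : G → ENNReal) (h z z' s : G) :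
    ∫⁻ g, F1 (g * z * h⁻¹) * F2 (g * s * z' * h⁻¹) ∂μ =
      Psi μ F1 F2 (h * z⁻¹ * s * z' * h⁻¹) := by
  unfold Psi
  rw [← lintegral_mul_right_eq_self (μ := μ) (fun g => F1 (g * z * h⁻¹) * F2 (g * s * z' * h⁻¹))
    (h * z⁻¹)]
  refine lintegral_congr fun g => ?_
  have e1 : g * (h * z⁻¹) * z * h⁻¹ = g := by group
  have e2 : g * (h * z⁻¹) * s * z' * h⁻¹ = g * (h * z⁻¹ * s * z' * h⁻¹) := by group
  rw [e1, e2]

theorem Psi_meas (μ : Measure G) [IsFiniteMeasure μ] {F1 F2 : G → ENNReal} (hF1 : Measurable F1)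
    (hF2 : Measurable F2) : Measurable (Psi μ F1 F2) := by
  refine Measurable.lintegral_prod_right' (f := fun p : G × G => F1 p.2 * F2 (p.2 * p.1)) ?_
  exact (hF1.comp measurable_snd).mul (hF2.comp (measurable_snd.mul measurable_fst))

theorem Psi_int (μ : Measure G) [IsFiniteMeasure μ] [μ.IsMulLeftInvariant]
    {F1 F2 : G → ENNReal} (hF1 : Measurable F1) (hF2 : Measurable F2) :
    ∫⁻ u, Psi μ F1 F2 u ∂μ = (∫⁻ x, F1 x ∂μ) * ∫⁻ x, F2 x ∂μ := by
  unfold Psi
  rw [lintegral_lintegral_swap]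
  · have : ∀ g, ∫⁻ u, F1 g * F2 (g * u) ∂μ = F1 g * ∫⁻ x, F2 x ∂μ := by
      intro g
      rw [lintegral_const_mul, lintegral_mul_left_eq_self]
      exact hF2.comp (by fun_prop)
    simp_rw [this]
    rw [lintegral_mul_const _ hF1]
  · exact ((hF1.comp measurable_snd).mul
      (hF2.comp (measurable_snd.mul measurable_fst))).aemeasurable

theorem step1 (μ κ : Measure G) [IsFiniteMeasure μ] [μ.IsMulRightInvariant] [IsFiniteMeasure κ]
    (t : (Fin r → ℝ) → G) (ht : Measurable t) (S : Set (Fin r → ℝ)) (D : Set G)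
    (F1 F2 : G → ENNReal) (hF1 : Measurable F1) (hF2 : Measurable F2) (h : G) :
    ∫⁻ g, (∫⁻ θ in S, (∫⁻ z in D, F1 (g * z * h⁻¹) ∂κ) *
      (∫⁻ z in D, F2 (g * t θ * z * h⁻¹) ∂κ)) ∂μ =
      ∫⁻ z in D, ∫⁻ z' in D, (∫⁻ θ in S, Psi μ F1 F2 (h * z⁻¹ * t θ * z' * h⁻¹)) ∂κ ∂κ := by
  set κD := κ.restrict D with hκD
  have e1 : ∀ g, (∫⁻ θ in S, (∫⁻ z in D, F1 (g * z * h⁻¹) ∂κ) *
    (∫⁻ z in D, F2 (g * t θ * z * h⁻¹) ∂κ)) =
      ∫⁻ θ in S, ∫⁻ z, ∫⁻ z', F1 (g * z * h⁻¹) * F2 (g * t θ * z' * h⁻¹) ∂κD ∂κD := by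
    intro g
    refine lintegral_congr fun θ => ?_
    rw [← lintegral_mul_const]
    · refine lintegral_congr fun z => ?_
      rw [lintegral_const_mul]
      exact hF2.comp (by fun_prop)
    · exact hF1.comp (by fun_prop)
  refine (lintegral_congr e1).trans ?_
  have m0 : Measurable fun p : G × ((Fin r → ℝ) × (G × G)) =>
      F1 (p.1 * p.2.2.1 * h⁻¹) * F2 (p.1 * t p.2.1 * p.2.2.2 * h⁻¹) := by
    refine (hF1.comp (by fun_prop)).mul (hF2.comp ?_)
    have : Measurable fun p : G × ((Fin r → ℝ) × (G × G)) => t p.2.1 :=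
      ht.comp (by fun_prop)
    fun_prop
  have mΨ : Measurable fun p : (Fin r → ℝ) × (G × G) =>
      Psi μ F1 F2 (h * p.2.1⁻¹ * t p.1 * p.2.2 * h⁻¹) := by
    refine (Psi_meas μ hF1 hF2).comp ?_
    have : Measurable fun p : (Fin r → ℝ) × (G × G) => t p.1 := ht.comp (by fun_prop)
    fun_prop
  rw [lintegral_lintegral_swap]
  · have e2 : ∀ θ, ∫⁻ g, ∫⁻ z, ∫⁻ z', F1 (g * z * h⁻¹) * F2 (g * t θ * z' * h⁻¹) ∂κD ∂κD ∂μ =
        ∫⁻ z, ∫⁻ z', Psi μ F1 F2 (h * z⁻¹ * t θ * z' * h⁻¹) ∂κD ∂κD := by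
      intro θ
      rw [lintegral_lintegral_swap]
      · refine lintegral_congr fun z => ?_
        rw [lintegral_lintegral_swap]
        · refine lintegral_congr fun z' => ?_
          exact subst1 μ F1 F2 h z z' (t θ)
        · exact (m0.comp (by fun_prop : Measurable fun q : G × G => (q.1, (θ, (z, q.2))))).aemeasurable
      · refine Measurable.aemeasurable ?_
        refine Measurable.lintegral_prod_right' (f := fun q : (G × G) × G =>
          F1 (q.1.1 * q.1.2 * h⁻¹) * F2 (q.1.1 * t θ * q.2 * h⁻¹)) ?_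
        exact m0.comp (by fun_prop : Measurable fun q : (G × G) × G => (q.1.1, (θ, (q.1.2, q.2))))
    refine (lintegral_congr fun θ => e2 θ).trans ?_
    rw [lintegral_lintegral_swap]
    · refine lintegral_congr fun z => ?_
      rw [lintegral_lintegral_swap]
      exact (mΨ.comp (by fun_prop : Measurable fun q : (Fin r → ℝ) × G =>
        (q.1, (z, q.2)))).aemeasurable
    · refine Measurable.aemeasurable ?_
      refine Measurable.lintegral_prod_right' (f := fun q : ((Fin r → ℝ) × G) × G =>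
        Psi μ F1 F2 (h * q.1.2⁻¹ * t q.1.1 * q.2 * h⁻¹)) ?_
      exact mΨ.comp (by fun_prop : Measurable fun q : ((Fin r → ℝ) × G) × G =>
        (q.1.1, (q.1.2, q.2)))
  · refine Measurable.aemeasurable ?_
    refine Measurable.lintegral_prod_right' (f := fun q : (G × (Fin r → ℝ)) × G =>
        ∫⁻ z', F1 (q.1.1 * q.2 * h⁻¹) * F2 (q.1.1 * t q.1.2 * z' * h⁻¹) ∂κD) ?_
    refine Measurable.lintegral_prod_right' (f := fun q : ((G × (Fin r → ℝ)) × G) × G =>
        F1 (q.1.1.1 * q.1.2 * h⁻¹) * F2 (q.1.1.1 * t q.1.1.2 * q.2 * h⁻¹)) ?_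
    exact m0.comp (by fun_prop : Measurable fun q : ((G × (Fin r → ℝ)) × G) × G =>
      (q.1.1.1, (q.1.1.2, (q.1.2, q.2))))

theorem main (μ κ : Measure G) [IsFiniteMeasure μ] [μ.IsMulRightInvariant]
    [IsProbabilityMeasure κ]
    (t : (Fin r → ℝ) → G) (ht : Measurable t) (S : Set (Fin r → ℝ)) (D : Set G)
    (hD : MeasurableSet D) (Bd : Set G) (hBd : MeasurableSet Bd)
    (F1 F2 : G → ENNReal) (hF1 : Measurable F1) (hF2 : Measurable F2) (K : ENNReal)
    (hK : ∀ h ∈ Bd, ∀ z ∈ D, ∀ z' ∈ D,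
      ∫⁻ θ in S, Psi μ F1 F2 (h * z⁻¹ * t θ * z' * h⁻¹) ≤ K) :
    ∫⁻ h in Bd, ∫⁻ g, (∫⁻ θ in S, (∫⁻ z in D, F1 (g * z * h⁻¹) ∂κ) *
      (∫⁻ z in D, F2 (g * t θ * z * h⁻¹) ∂κ)) ∂μ ∂μ ≤ K * μ Bd := by
  have h1 : ∀ A : ENNReal, ∫⁻ _ in D, A ∂κ ≤ A := by
    intro A
    rw [setLIntegral_const]
    exact mul_le_of_le_one_right zero_le (prob_le_one)
  rw [← setLIntegral_const]
  refine setLIntegral_mono' hBd fun h hh => ?_
  rw [step1 μ κ t ht S D F1 F2 hF1 hF2 h]
  refine le_trans ?_ (h1 K)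
  refine setLIntegral_mono' hD fun z hz => ?_
  refine le_trans ?_ (h1 K)
  exact setLIntegral_mono' hD fun z' hz' => hK h hh z hz z' hz'

omit [Group G] [IsTopologicalGroup G] [MeasurableSpace G] [BorelSpace G]
  [SecondCountableTopology G] in
theorem bdd [CompactSpace G] (f : G → ℝ) (hf : Continuous f) : ∃ C : ℝ, ∀ x, ‖f x‖ ≤ C := by
  obtain ⟨C, hC⟩ := (isCompact_univ (X := G)).exists_bound_of_continuousOn hf.continuousOn
  exact ⟨C, fun x => hC x (Set.mem_univ x)⟩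

theorem Psi_cont [CompactSpace G] (μ : Measure G) [IsFiniteMeasure μ] (f₁ f₂ : G → ℝ)
    (hf₁ : Continuous f₁) (hf₂ : Continuous f₂) (h1 : ∀ x, 0 ≤ f₁ x) (h2 : ∀ x, 0 ≤ f₂ x) :
    Continuous (Psi μ (fun x => ENNReal.ofReal (f₁ x)) (fun x => ENNReal.ofReal (f₂ x))) := by
  obtain ⟨C₁, hC₁⟩ := bdd f₁ hf₁
  obtain ⟨C₂, hC₂⟩ := bdd f₂ hf₂
  have hb : ∀ u g, ‖f₁ g * f₂ (g * u)‖ ≤ C₁ * C₂ := by
    intro u g
    rw [norm_mul]
    exact mul_le_mul (hC₁ _) (hC₂ _) (norm_nonneg _) ((norm_nonneg _).trans (hC₁ g))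
  have hc : ∀ u, Continuous fun g => f₁ g * f₂ (g * u) := fun u => by fun_prop
  have e : Psi μ (fun x => ENNReal.ofReal (f₁ x)) (fun x => ENNReal.ofReal (f₂ x)) =
      fun u => ENNReal.ofReal (∫ g, f₁ g * f₂ (g * u) ∂μ) := by
    funext u
    unfold Psi
    rw [ofReal_integral_eq_lintegral_ofReal (Integrable.of_bound (hc u).aestronglyMeasurable
      (C₁ * C₂) (Eventually.of_forall (hb u))) (Eventually.of_forall fun g =>
        mul_nonneg (h1 _) (h2 _))]
    refine lintegral_congr fun g => ?_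
    rw [ENNReal.ofReal_mul (h1 _)]
  rw [e]
  refine ENNReal.continuous_ofReal.comp ?_
  refine continuous_of_dominated (bound := fun _ => C₁ * C₂)
    (fun u => (hc u).aestronglyMeasurable) (fun u => Eventually.of_forall (hb u))
    (integrable_const _) (Eventually.of_forall fun g => ?_)
  fun_prop

end abs

/-- integrals over `Fin 1 → ℝ` -/
theorem fin1 (S : Set (Fin 1 → ℝ)) (F : ℝ → ENNReal) :
    ∫⁻ θ in S, F (θ 0) = ∫⁻ x in {x : ℝ | (fun _ => x) ∈ S}, F x := by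
  have h1 := (volume_preserving_funUnique (Fin 1) ℝ).setLIntegral_comp_preimage_emb
    (MeasurableEquiv.funUnique (Fin 1) ℝ).measurableEmbedding F {x : ℝ | (fun _ => x) ∈ S}
  rw [← h1]
  have h2 : (MeasurableEquiv.funUnique (Fin 1) ℝ) ⁻¹' {x : ℝ | (fun _ => x) ∈ S} = S := by
    ext θ
    have h3 : (fun _ : Fin 1 => (MeasurableEquiv.funUnique (Fin 1) ℝ) θ) = θ := by
      funext i
      rw [Subsingleton.elim i 0]
      rfl
    change (fun _ => (MeasurableEquiv.funUnique (Fin 1) ℝ) θ) ∈ S ↔ θ ∈ S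
    rw [h3]
  rw [h2]
  rfl

end JR2

open JR2 in
theorem t_JR2 : M_JR2 := by
  intro hHAAR hPSF hLAW N H Φ B Hc E c k hCX cc ze w C₀ hSP μ _ _
  classical
  have hcs : CompactSpace H := isCompact_iff_compactSpace.1 hCX.closed.isCompact
  have hsec : SecondCountableTopology H :=
    inferInstanceAs (SecondCountableTopology ((H : Set (SU N)) : Type))
  obtain ⟨hR, hI, hO⟩ := hHAAR H μ
  obtain ⟨CP, hCP, P⟩ := hPSF N H 1 Φ B Hc E c k 3 hCX
  have hlaw := hLAW N H Φ B Hc E c k hCX cc ze w C₀ hSP μ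
  have hC₀ := hSP.nn
  refine ⟨10 + 4 * C₀, by linarith, ?_⟩
  intro κ ρ η lam hκ hρ hη hη4 hlam hCρ S a f₁ f₂ hS hSa hSg hf₁ hf₂ h1 h2 ht1 ht2
  set D : Set H := {z : H | ps z ≤ ρ ^ 2} with hDdef
  have hDm : MeasurableSet D := (isClosed_le P.cont continuous_const).measurableSet
  set Bd : Set H := {h : H | |cc h| ≤ η} with hBdef
  have hBm : MeasurableSet Bd :=
    (isClosed_le hSP.ccont.abs continuous_const).measurableSet
  -- the measure of the band
  have hμB : μ Bd ≤ ENNReal.ofReal η := by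
    have e1 := hlaw (fun s => (Set.Icc (-η) η).indicator (fun _ => 1) s)
      (measurable_const.indicator measurableSet_Icc)
    have e2 : ∫⁻ g, (Set.Icc (-η) η).indicator (fun _ => (1 : ENNReal)) (cc g) ∂μ = μ Bd := by
      have e3 : (fun g => (Set.Icc (-η) η).indicator (fun _ => (1 : ENNReal)) (cc g)) =
          Bd.indicator (fun _ => 1) := by
        funext g
        by_cases hg : |cc g| ≤ η
        · rw [Set.indicator_of_mem (show cc g ∈ Set.Icc (-η) η from abs_le.1 hg),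
            Set.indicator_of_mem (show g ∈ Bd from hg)]
        · rw [Set.indicator_of_notMem (show cc g ∉ Set.Icc (-η) η from
              fun h => hg (abs_le.2 h)), Set.indicator_of_notMem (show g ∉ Bd from hg)]
      rw [e3, lintegral_indicator hBm, setLIntegral_const, one_mul]
    rw [e2] at e1
    rw [e1]
    refine (setLIntegral_le_lintegral _ _).trans (le_of_eq ?_)
    have e4 : (fun s => (Set.Icc (-η) η).indicator (fun _ => (1 : ENNReal)) s / 2) =
        (Set.Icc (-η) η).indicator (fun _ => 1 / 2) := by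
      funext s
      by_cases hs : s ∈ Set.Icc (-η) η
      · rw [Set.indicator_of_mem hs, Set.indicator_of_mem hs]
      · rw [Set.indicator_of_notMem hs, Set.indicator_of_notMem hs, ENNReal.zero_div]
    rw [e4, lintegral_indicator measurableSet_Icc, setLIntegral_const, Real.volume_Icc]
    rw [show η - -η = 2 * η by ring, ENNReal.ofReal_mul (by norm_num), ← mul_assoc]
    rw [ENNReal.ofReal_ofNat, ENNReal.div_mul_cancel (by norm_num) (by norm_num), one_mul]
  -- the correlation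
  set F1 : H → ENNReal := fun x => ENNReal.ofReal (f₁ x) with hF1
  set F2 : H → ENNReal := fun x => ENNReal.ofReal (f₂ x) with hF2
  have hF1m : Measurable F1 := hf₁.measurable.ennreal_ofReal
  have hF2m : Measurable F2 := hf₂.measurable.ennreal_ofReal
  have hΨc : Continuous (Psi μ F1 F2) := Psi_cont μ f₁ f₂ hf₁ hf₂ h1 h2
  have hright : ∀ u θ, Psi μ F1 F2 (u * tt H Hc θ) = Psi μ F1 F2 u := by
    intro u θ
    unfold Psi
    refine lintegral_congr fun g => ?_
    rw [hF2]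
    simp only
    rw [← mul_assoc, ht2]
  have hleft : ∀ u θ, Psi μ F1 F2 (tt H Hc θ * u) = Psi μ F1 F2 u := by
    intro u θ
    unfold Psi
    rw [← lintegral_mul_right_eq_self (μ := μ) (fun g => F1 g * F2 (g * u)) (tt H Hc θ)]
    refine lintegral_congr fun g => ?_
    rw [hF1]
    simp only
    rw [ht1, mul_assoc]
  obtain ⟨φ, hφm, hφ⟩ := factor cc hSP.ccont (Psi μ F1 F2) hΨc (by
    intro u v huv
    obtain ⟨θ, θ', rfl⟩ := hSP.fib u v huv
    rw [hright, hleft])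
  set M : ENNReal := (∫⁻ x, F1 x ∂μ) * ∫⁻ x, F2 x ∂μ with hM
  have hφi : ∫⁻ s in Set.Icc (-1 : ℝ) 1, φ s = 2 * M := by
    have e1 := hlaw φ hφm
    simp only [hφ, Psi_int μ hF1m hF2m] at e1
    rw [← hM] at e1
    have e2 : ∀ s, φ s / 2 = φ s * 2⁻¹ := fun s => by rw [div_eq_mul_inv]
    simp only [e2] at e1
    rw [lintegral_mul_const _ hφm, ← div_eq_mul_inv] at e1
    rw [e1, ENNReal.mul_div_cancel (by norm_num) (by norm_num)]
  have hsq : ∀ z ∈ D, √(ps z) ≤ ρ := by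
    intro z hz
    rw [Real.sqrt_le_left hρ]
    exact hz
  have hn1 : ∀ g, ‖ze g‖ ≤ 1 := by
    intro g
    have := hSP.norm g
    nlinarith [norm_nonneg (ze g), sq_nonneg (cc g)]
  have hc1 : ∀ g, cc g ∈ Set.Icc (-1 : ℝ) 1 := by
    intro g
    have := hSP.norm g
    rw [Set.mem_Icc, ← abs_le]
    have h3 : cc g ^ 2 ≤ 1 := by nlinarith [sq_nonneg ‖ze g‖]
    rw [← sq_abs] at h3
    nlinarith [abs_nonneg (cc g)]
  have key : ∀ h ∈ Bd, ∀ z ∈ D, ∀ z' ∈ D,
      ∫⁻ θ in S, Psi μ F1 F2 (h * z⁻¹ * tt H Hc θ * z' * h⁻¹) ≤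
        ENNReal.ofReal (5 / lam) * (2 * M) := by
    intro h hh z hz z' hz'
    set b : ℂ := ze (z * h⁻¹) * conj (ze (z' * h⁻¹)) with hb
    set A : ℝ := cc (z * h⁻¹) * cc (z' * h⁻¹) with hA
    have e0 : ∀ θ : Fin 1 → ℝ, cc (h * z⁻¹ * tt H Hc θ * z' * h⁻¹) =
        A + ‖b‖ * Real.cos (4 * π * θ 0 - b.arg) := by
      intro θ
      have e1 : h * z⁻¹ * tt H Hc θ * z' * h⁻¹ = (z * h⁻¹)⁻¹ * (tt H Hc θ * (z' * h⁻¹)) := by
        group
      rw [e1, hSP.inner, hSP.cleft, hSP.zleft, ← polar, hb]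
      congr 2
      rw [map_mul]
      ring
    have e1 : ∀ θ : Fin 1 → ℝ, Psi μ F1 F2 (h * z⁻¹ * tt H Hc θ * z' * h⁻¹) =
        φ (A + ‖b‖ * Real.cos (4 * π * θ 0 - b.arg)) := by
      intro θ
      rw [← hφ, e0]
    simp only [e1]
    rw [fin1 S (fun x => φ (A + ‖b‖ * Real.cos (4 * π * x - b.arg))), ← hφi]
    refine cov φ A ‖b‖ b.arg lam (a 0) hlam _ ?_ ?_ ?_ ?_
    · have : Measurable fun x : ℝ => (fun _ : Fin 1 => x) := by fun_prop
      exact this hS
    · intro x hx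
      obtain ⟨h3, h4⟩ := hSa hx
      exact ⟨h3 0, h4 0⟩
    · intro x hx
      have h3 : lam ≤ nd (4 * x) := hSg hx
      have h4 := nd_le_half (4 * x)
      obtain ⟨h5, h6⟩ := est (ze h⁻¹) (ze (z * h⁻¹)) (ze (z' * h⁻¹)) (C₀ * ρ)
        ((hSP.zlip z h⁻¹).trans (mul_le_mul_of_nonneg_left (hsq z hz) hC₀))
        ((hSP.zlip z' h⁻¹).trans (mul_le_mul_of_nonneg_left (hsq z' hz') hC₀))
        (hn1 _) (hn1 _)
      have h7 : C₀ * ρ ≤ lam / 4 := by nlinarith [mul_nonneg hC₀ hρ]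
      have h8 : 15 / 16 ≤ ‖ze h⁻¹‖ ^ 2 := by
        have h9 := hSP.norm h⁻¹
        rw [hSP.inv] at h9
        have h10 : |cc h| ≤ η := hh
        have h11 : cc h ^ 2 ≤ 1 / 16 := by
          rw [← sq_abs]
          nlinarith [abs_nonneg (cc h)]
        linarith
      refine der b lam x hlam.le ?_ ?_ h3
      · have := (abs_le.1 h5).1
        rw [hb]
        linarith
      · rw [hb]
        linarith
    · intro x _
      rw [← e0 (fun _ => x)]
      exact hc1 _
  have hmain := main μ κ (tt H Hc) P.tcont.measurable S D hDm Bd hBm F1 F2 hF1m hF2m _ key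
  have hi : ∀ f : H → ℝ, Continuous f → (∀ x, 0 ≤ f x) →
      ∫⁻ x, ENNReal.ofReal (f x) ∂μ = ENNReal.ofReal (∫ x, f x ∂μ) := by
    intro f hf h0
    obtain ⟨C, hC⟩ := bdd f hf
    exact (ofReal_integral_eq_lintegral_ofReal (Integrable.of_bound hf.aestronglyMeasurable C
      (Eventually.of_forall hC)) (Eventually.of_forall h0)).symm
  have hi1 : 0 ≤ ∫ x, f₁ x ∂μ := integral_nonneg h1
  have hi2 : 0 ≤ ∫ x, f₂ x ∂μ := integral_nonneg h2
  have hMe : M = ENNReal.ofReal ((∫ x, f₁ x ∂μ) * ∫ x, f₂ x ∂μ) := by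
    rw [hM, hF1, hF2, hi f₁ hf₁ h1, hi f₂ hf₂ h2, ← ENNReal.ofReal_mul hi1]
  have hK : ENNReal.ofReal (5 / lam) * (2 * M) * μ Bd ≤
      ENNReal.ofReal ((10 + 4 * C₀) * η / lam * ((∫ x, f₁ x ∂μ) * ∫ x, f₂ x ∂μ)) := by
    calc ENNReal.ofReal (5 / lam) * (2 * M) * μ Bd
        ≤ ENNReal.ofReal (5 / lam) * (2 * M) * ENNReal.ofReal η := mul_le_mul_right hμB _
      _ = ENNReal.ofReal (5 / lam * (2 * ((∫ x, f₁ x ∂μ) * ∫ x, f₂ x ∂μ)) * η) := by
          have e5 : (2 : ENNReal) = ENNReal.ofReal 2 := by norm_num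
          rw [hMe, e5, ← ENNReal.ofReal_mul (by norm_num), ← ENNReal.ofReal_mul (by positivity),
            ← ENNReal.ofReal_mul (by positivity)]
      _ ≤ _ := by
          refine ENNReal.ofReal_le_ofReal ?_
          have h3 : 0 ≤ (∫ x, f₁ x ∂μ) * ∫ x, f₂ x ∂μ := mul_nonneg hi1 hi2
          have h4 : 5 / lam * (2 * ((∫ x, f₁ x ∂μ) * ∫ x, f₂ x ∂μ)) * η =
              10 * η / lam * ((∫ x, f₁ x ∂μ) * ∫ x, f₂ x ∂μ) := by ring
          rw [h4]
          refine mul_le_mul_of_nonneg_right ?_ h3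
          refine div_le_div_of_nonneg_right ?_ hlam.le
          exact mul_le_mul_of_nonneg_right (by linarith) hη
  have hR0 : 0 ≤ (10 + 4 * C₀) * η / lam * ((∫ x, f₁ x ∂μ) * ∫ x, f₂ x ∂μ) := by positivity
  rw [← ENNReal.ofReal_le_ofReal_iff hR0]
  refine le_trans ?_ (hmain.trans hK)
  refine (ofReal_integral_le _ _).trans (lintegral_mono fun h => ?_)
  refine (ofReal_integral_le μ _).trans (lintegral_mono fun g => ?_)
  refine (ofReal_integral_le _ _).trans (lintegral_mono fun θ => ?_)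
  dsimp only
  rw [ENNReal.ofReal_mul (integral_nonneg fun z => h1 _)]
  exact mul_le_mul' (ofReal_integral_le _ _) (ofReal_integral_le _ _)

end

end SPH
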