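import Pool.Agent.SPH.StC
import Pool.Agent.STZ3.JSB

/-!
# JSS: the `L¹` norm on the cells, for the elements of the band
-/

namespace SPH

open STZ LGR STZ3 MeasureTheory Matrix Filter

open scoped ComplexConjugate Matrix Real Topology

noncomputable section

namespace JSS

section abs

variable {G : Type} [Group G] [TopologicalSpace G] [IsTopologicalGroup G]
  [SecondCountableTopology G] [MeasurableSpace G] [BorelSpace G] {r : ℕ}

theorem main (μ' μ : Measure G) [IsFiniteMeasure μ'] [IsProbabilityMeasure μ]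
    [μ.IsMulRightInvariant] (ℓ : Measure ℝ)
    [IsFiniteMeasure ℓ] (m m' : Measure (Fin r → ℝ)) [IsFiniteMeasure m] [IsFiniteMeasure m']
    (T : (Fin r → ℝ) → G) (hT : Continuous T) (tadd : ∀ x y, T (x + y) = T x * T y)
    (a : ℝ × G × G → ENNReal) (ha : Measurable a) (Q S B : Set (Fin r → ℝ))
    (hQ : MeasurableSet Q) (hm : ∀ᵐ s ∂m, s ∈ B) (hm' : ∀ᵐ s ∂m', s ∈ B) (K : ENNReal)
    (n : ℝ → ENNReal) (hn : Measurable n)
    (hb : ∀ t t', ∀ φ ∈ Q, ∀ s ∈ B, ∀ s' ∈ B,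
      ∫⁻ h, ∫⁻ g, (∫⁻ θ in S, a (t, h, g) * a (t', h, g * T (θ + (s' - φ - s)))) ∂μ ∂μ' ≤
        K * (n t * n t')) :
    ∫⁻ h, ∫⁻ g, (∫⁻ t, (∫⁻ φ in Q, ∫⁻ s, a (t, h, g * T φ * T s) ∂m) ∂ℓ) *
      (∫⁻ t, (∫⁻ θ in S, ∫⁻ s, a (t, h, g * T θ * T s) ∂m') ∂ℓ) ∂μ ∂μ' ≤
      K * (volume Q * m Set.univ * m' Set.univ) * (∫⁻ t, n t ∂ℓ) ^ 2 := by
  classical
  set q : Measure (Fin r → ℝ) := volume.restrict Q with hq
  set p : Measure (Fin r → ℝ) := volume.restrict S with hp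
  set M1 : Measure (ℝ × (Fin r → ℝ) × (Fin r → ℝ)) := ℓ.prod (q.prod m) with hM1
  set M2 : Measure (ℝ × (Fin r → ℝ)) := ℓ.prod m' with hM2
  set u : (ℝ × (Fin r → ℝ) × (Fin r → ℝ)) × (G × G) → ENNReal :=
    fun z => a (z.1.1, z.2.1, z.2.2 * T z.1.2.1 * T z.1.2.2) with hu
  set w0 : ((ℝ × (Fin r → ℝ)) × (G × G)) × (Fin r → ℝ) → ENNReal :=
    fun z => a (z.1.1.1, z.1.2.1, z.1.2.2 * T z.2 * T z.1.1.2) with hw0
  set w : (ℝ × (Fin r → ℝ)) × (G × G) → ENNReal := fun z => ∫⁻ θ, w0 (z, θ) ∂p with hw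
  have mu' : Measurable u := ha.comp (by
    have : Continuous fun z : (ℝ × (Fin r → ℝ) × (Fin r → ℝ)) × (G × G) =>
      (z.1.1, z.2.1, z.2.2 * T z.1.2.1 * T z.1.2.2) := by fun_prop
    exact this.measurable)
  have mw0 : Measurable w0 := ha.comp (by
    have : Continuous fun z : ((ℝ × (Fin r → ℝ)) × (G × G)) × (Fin r → ℝ) =>
      (z.1.1.1, z.1.2.1, z.1.2.2 * T z.2 * T z.1.1.2) := by fun_prop
    exact this.measurable)
  have mw : Measurable w := mw0.lintegral_prod_right'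
  have e1 : ∀ h g, ∫⁻ t, (∫⁻ φ in Q, ∫⁻ s, a (t, h, g * T φ * T s) ∂m) ∂ℓ =
      ∫⁻ x, u (x, (h, g)) ∂M1 := by
    intro h g
    have m1 : Measurable fun x : ℝ × (Fin r → ℝ) × (Fin r → ℝ) => u (x, (h, g)) :=
      mu'.comp (by fun_prop)
    rw [hM1, lintegral_prod _ m1.aemeasurable]
    refine lintegral_congr fun t => ?_
    have m2 : Measurable fun y : (Fin r → ℝ) × (Fin r → ℝ) => u ((t, y), (h, g)) :=
      mu'.comp (by fun_prop)
    rw [lintegral_prod _ m2.aemeasurable]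
  have e2 : ∀ h g, ∫⁻ t, (∫⁻ θ in S, ∫⁻ s, a (t, h, g * T θ * T s) ∂m') ∂ℓ =
      ∫⁻ y, w (y, (h, g)) ∂M2 := by
    intro h g
    have m1 : Measurable fun x : ℝ × (Fin r → ℝ) => w (x, (h, g)) := mw.comp (by fun_prop)
    rw [hM2, lintegral_prod _ m1.aemeasurable]
    refine lintegral_congr fun t => ?_
    rw [lintegral_lintegral_swap]
    have m2 : Measurable fun y : (Fin r → ℝ) × (Fin r → ℝ) => w0 (((t, y.2), (h, g)), y.1) :=
      mw0.comp (by fun_prop)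
    exact m2.aemeasurable
  have mx : ∀ z, Measurable fun x => u (x, z) := fun z => mu'.comp (by fun_prop)
  have my : ∀ z, Measurable fun x => w (x, z) := fun z => mw.comp (by fun_prop)
  have muI : Measurable fun z => ∫⁻ x, u (x, z) ∂M1 := mu'.lintegral_prod_left'
  have mwI : Measurable fun z => ∫⁻ x, w (x, z) ∂M2 := mw.lintegral_prod_left'
  have e3 : ∫⁻ h, ∫⁻ g, (∫⁻ t, (∫⁻ φ in Q, ∫⁻ s, a (t, h, g * T φ * T s) ∂m) ∂ℓ) *
      (∫⁻ t, (∫⁻ θ in S, ∫⁻ s, a (t, h, g * T θ * T s) ∂m') ∂ℓ) ∂μ ∂μ' =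
      ∫⁻ z, (∫⁻ x, ∫⁻ y, u (x, z) * w (y, z) ∂M2 ∂M1) ∂(μ'.prod μ) := by
    have e4 : ∀ z, ∫⁻ x, ∫⁻ y, u (x, z) * w (y, z) ∂M2 ∂M1 =
        (∫⁻ x, u (x, z) ∂M1) * ∫⁻ y, w (y, z) ∂M2 := by
      intro z
      rw [← lintegral_mul_const _ (mx z)]
      refine lintegral_congr fun x => ?_
      rw [lintegral_const_mul _ (my z)]
    simp_rw [e4]
    have m3 : Measurable fun z => (∫⁻ x, u (x, z) ∂M1) * ∫⁻ y, w (y, z) ∂M2 := muI.mul mwI
    rw [lintegral_prod _ m3.aemeasurable]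
    simp_rw [e1, e2]
  rw [e3]
  have e5 : ∫⁻ z, (∫⁻ x, ∫⁻ y, u (x, z) * w (y, z) ∂M2 ∂M1) ∂(μ'.prod μ) =
      ∫⁻ x, ∫⁻ y, (∫⁻ z, u (x, z) * w (y, z) ∂(μ'.prod μ)) ∂M2 ∂M1 := by
    have mF : Measurable fun v : ((G × G) × (ℝ × (Fin r → ℝ) × (Fin r → ℝ))) × (ℝ × (Fin r → ℝ)) =>
        u (v.1.2, v.1.1) * w (v.2, v.1.1) :=
      (mu'.comp (by fun_prop)).mul (mw.comp (by fun_prop))
    rw [lintegral_lintegral_swap (mF.lintegral_prod_right').aemeasurable]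
    refine lintegral_congr fun x => ?_
    rw [lintegral_lintegral_swap]
    have m2 : Measurable fun v : (G × G) × (ℝ × (Fin r → ℝ)) => u (x, v.1) * w (v.2, v.1) :=
      (mu'.comp (by fun_prop)).mul (mw.comp (by fun_prop))
    exact m2.aemeasurable
  rw [e5]
  -- the inner integral
  have e6 : ∀ x y, ∫⁻ z, u (x, z) * w (y, z) ∂(μ'.prod μ) =
      ∫⁻ h, ∫⁻ g, (∫⁻ θ in S, a (x.1, h, g) *
        a (y.1, h, g * T (θ + (y.2 - x.2.1 - x.2.2)))) ∂μ ∂μ' := by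
    intro x y
    have m1 : Measurable fun z : G × G => u (x, z) * w (y, z) :=
      (mu'.comp (by fun_prop)).mul (mw.comp (by fun_prop))
    rw [lintegral_prod _ m1.aemeasurable]
    refine lintegral_congr fun h => ?_
    have h1 := lintegral_mul_right_eq_self (μ := μ)
      (fun g => ∫⁻ θ in S, a (x.1, h, g) * a (y.1, h, g * T (θ + (y.2 - x.2.1 - x.2.2))))
      (T x.2.1 * T x.2.2)
    rw [← h1]
    refine lintegral_congr fun g => ?_
    rw [lintegral_const_mul]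
    · rw [← mul_assoc]
      refine congrArg (fun c => u (x, (h, g)) * c) ?_
      simp only [hw]
      refine lintegral_congr fun θ => ?_
      simp only [hw0]
      rw [mul_assoc, mul_assoc, mul_assoc, ← tadd, ← tadd, ← tadd]
      refine congrArg (fun c => a (y.1, h, g * T c)) ?_
      abel
    · refine ha.comp ?_
      have : Continuous fun θ : Fin r → ℝ =>
        (y.1, h, g * (T x.2.1 * T x.2.2) * T (θ + (y.2 - x.2.1 - x.2.2))) := by fun_prop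
      exact this.measurable
  have hM1ae : ∀ᵐ x ∂M1, x.2.1 ∈ Q ∧ x.2.2 ∈ B := by
    have h1 : ∀ᵐ v ∂(q.prod m), v.1 ∈ Q :=
      Measure.quasiMeasurePreserving_fst.ae (ae_restrict_mem hQ)
    have h2 : ∀ᵐ v ∂(q.prod m), v.2 ∈ B := Measure.quasiMeasurePreserving_snd.ae hm
    exact Measure.quasiMeasurePreserving_snd.ae
      (p := fun v : (Fin r → ℝ) × (Fin r → ℝ) => v.1 ∈ Q ∧ v.2 ∈ B) (h1.and h2)
  have hM2ae : ∀ᵐ x ∂M2, x.2 ∈ B := Measure.quasiMeasurePreserving_snd.ae hm'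
  have e7 : ∫⁻ x, ∫⁻ y, (∫⁻ z, u (x, z) * w (y, z) ∂(μ'.prod μ)) ∂M2 ∂M1 ≤
      ∫⁻ x, ∫⁻ y, K * (n x.1 * n y.1) ∂M2 ∂M1 := by
    refine lintegral_mono_ae ?_
    filter_upwards [hM1ae] with x hx
    refine lintegral_mono_ae ?_
    filter_upwards [hM2ae] with y hy
    rw [e6]
    exact hb _ _ _ hx.1 _ hx.2 _ hy
  refine e7.trans (le_of_eq ?_)
  have mn1 : Measurable fun y : ℝ × (Fin r → ℝ) => n y.1 := hn.comp measurable_fst
  have mn2 : Measurable fun y : ℝ × (Fin r → ℝ) × (Fin r → ℝ) => n y.1 := hn.comp measurable_fst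
  have e8 : ∀ x : ℝ × (Fin r → ℝ) × (Fin r → ℝ), ∫⁻ y, K * (n x.1 * n y.1) ∂M2 =
      n x.1 * (K * ∫⁻ y, n y.1 ∂M2) := by
    intro x
    have : ∀ y : ℝ × (Fin r → ℝ), K * (n x.1 * n y.1) = (n x.1 * K) * n y.1 := fun y => by ring
    simp_rw [this]
    rw [lintegral_const_mul _ mn1, mul_assoc]
  simp_rw [e8]
  rw [lintegral_mul_const _ mn2]
  have e9 : ∫⁻ x, n x.1 ∂M1 = (∫⁻ t, n t ∂ℓ) * (volume Q * m Set.univ) := by
    rw [hM1, lintegral_prod _ mn2.aemeasurable]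
    simp only [lintegral_const]
    rw [lintegral_mul_const _ hn, ← Set.univ_prod_univ, Measure.prod_prod, hq,
      Measure.restrict_apply_univ]
  have e10 : ∫⁻ x, n x.1 ∂M2 = (∫⁻ t, n t ∂ℓ) * m' Set.univ := by
    rw [hM2, lintegral_prod _ mn1.aemeasurable]
    simp only [lintegral_const]
    rw [lintegral_mul_const _ hn]
  rw [e9, e10]
  ring

end abs

section conv

variable {G : Type} [Group G] [TopologicalSpace G] [IsTopologicalGroup G] [CompactSpace G]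
  [SecondCountableTopology G] [MeasurableSpace G] [BorelSpace G] {r : ℕ}

open STZ3.CLL

theorem conv (μ' μ κ : Measure G) [IsFiniteMeasure μ'] [IsProbabilityMeasure μ]
    [IsProbabilityMeasure κ] (D : Set G)
    (T : (Fin r → ℝ) → G) (hT : Continuous T) (S : Set (Fin r → ℝ)) (hS : volume S ≠ ⊤)
    (f₁ f₂ : G → ℝ) (h1 : Continuous f₁) (h2 : Continuous f₂) (p1 : ∀ x, 0 ≤ f₁ x)
    (p2 : ∀ x, 0 ≤ f₂ x) :
    ∫⁻ h, ∫⁻ g, (∫⁻ θ in S, (∫⁻ z in D, ENNReal.ofReal (f₁ (g * z * h⁻¹)) ∂κ) *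
      (∫⁻ z in D, ENNReal.ofReal (f₂ (g * T θ * z * h⁻¹)) ∂κ)) ∂μ ∂μ' =
    ENNReal.ofReal (∫ h, ∫ g, (∫ θ in S, (∫ z in D, f₁ (g * z * h⁻¹) ∂κ) *
      (∫ z in D, f₂ (g * T θ * z * h⁻¹) ∂κ)) ∂μ ∂μ') := by
  have hfin : IsFiniteMeasure (volume.restrict S) := isFiniteMeasure_restrict.2 hS
  obtain ⟨C1, hC1⟩ := STZ3.JBD.bdd f₁ h1
  obtain ⟨C2, hC2⟩ := STZ3.JBD.bdd f₂ h2
  have b1 : BM fun x : (G × G) × G => f₁ (x.1.2 * x.2 * x.1.1⁻¹) :=
    ⟨(h1.comp (by fun_prop)).stronglyMeasurable, C1, fun x => hC1 _⟩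
  have b2 : BM fun x : ((G × G) × (Fin r → ℝ)) × G => f₂ (x.1.1.2 * T x.1.2 * x.2 * x.1.1.1⁻¹) :=
    ⟨(h2.comp (by fun_prop)).stronglyMeasurable, C2, fun x => hC2 _⟩
  have c1 := b1.int (κ.restrict D)
  have c2 := b2.int (κ.restrict D)
  have c3 : BM fun x : (G × G) × (Fin r → ℝ) => (∫ z in D, f₁ (x.1.2 * z * x.1.1⁻¹) ∂κ) *
      (∫ z in D, f₂ (x.1.2 * T x.2 * z * x.1.1⁻¹) ∂κ) :=
    (c1.comp (g := fun x : (G × G) × (Fin r → ℝ) => x.1) (by fun_prop)).smul c2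
  have n3 : ∀ x : (G × G) × (Fin r → ℝ), 0 ≤ (∫ z in D, f₁ (x.1.2 * z * x.1.1⁻¹) ∂κ) *
      (∫ z in D, f₂ (x.1.2 * T x.2 * z * x.1.1⁻¹) ∂κ) := fun x =>
    mul_nonneg (integral_nonneg fun z => p1 _) (integral_nonneg fun z => p2 _)
  have c4 := c3.int (volume.restrict S)
  have n4 : ∀ x : G × G, 0 ≤ ∫ θ in S, (∫ z in D, f₁ (x.2 * z * x.1⁻¹) ∂κ) *
      (∫ z in D, f₂ (x.2 * T θ * z * x.1⁻¹) ∂κ) := fun x =>
    integral_nonneg fun θ => n3 (x, θ)
  have c5 := c4.int μ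
  have n5 : ∀ x : G, 0 ≤ ∫ g, (∫ θ in S, (∫ z in D, f₁ (g * z * x⁻¹) ∂κ) *
      (∫ z in D, f₂ (g * T θ * z * x⁻¹) ∂κ)) ∂μ := fun x => integral_nonneg fun g => n4 (x, g)
  rw [ofReal_integral_eq_lintegral_ofReal (c5.integrable μ') (Eventually.of_forall n5)]
  refine lintegral_congr fun h => ?_
  have e1 := STZ3.JSB.bm_ofReal c4 n4 μ h
  simp only at e1
  rw [e1]
  refine lintegral_congr fun g => ?_
  have e2 := STZ3.JSB.bm_ofReal c3 n3 (volume.restrict S) (h, g)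
  simp only at e2
  rw [e2]
  refine lintegral_congr fun θ => ?_
  rw [ENNReal.ofReal_mul (integral_nonneg fun z => p1 _)]
  have e3 := STZ3.JSB.bm_ofReal b1 (fun x => p1 _) (κ.restrict D) (h, g)
  have e4 := STZ3.JSB.bm_ofReal b2 (fun x => p2 _) (κ.restrict D) ((h, g), θ)
  simp only at e3 e4
  rw [e3, e4]

end conv

end JSS

open JSS STZ3.JBD in
theorem t_JSS : M_JSS := by
  intro hHAAR hPSF _ N H Φ B Hc E c k hCX μ _ _ C₂ hC₂
  classical
  have hcl := hCX.closed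
  have hcs : CompactSpace H := isCompact_iff_compactSpace.1 hcl.isCompact
  have hsec : SecondCountableTopology H :=
    inferInstanceAs (SecondCountableTopology ((H : Set (SU N)) : Type))
  obtain ⟨hR, -, -⟩ := hHAAR H μ
  obtain ⟨CP, hCP, P⟩ := hPSF N H 1 Φ B Hc E c k 3 hCX
  refine ⟨(2 * C₂) ^ 2, by positivity, ?_⟩
  intro κ ρ R Dc Bd Sg ν₁ ν₂ Ψ Q S G hκp hDc hR0' hJ h12 hBd hQ hS hQ1 hS1 hF hG hG1 hGTI
  have i1 := h12.fin₁
  have i2 := h12.fin₂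
  set D : Set H := {z : H | ps z ≤ ρ ^ 2} with hDdef
  set ℓ : Measure ℝ := volume.restrict (Set.Ioc (0 : ℝ) 1) with hℓdef
  have hℓ : IsFiniteMeasure ℓ := isFiniteMeasure_restrict.2 (by simp)
  -- the function `a`
  set a : ℝ × H × H → ENNReal :=
    fun x => ∫⁻ z in D, ENNReal.ofReal ‖G x.1 (x.2.2 * z * x.2.1⁻¹)‖ ∂κ with ha
  have hma : Measurable a := by
    refine Measurable.lintegral_prod_right'
      (f := fun x : (ℝ × H × H) × H => ENNReal.ofReal ‖G x.1.1 (x.1.2.2 * x.2 * x.1.2.1⁻¹)‖) ?_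
    have h1 : Continuous fun x : (ℝ × H × H) × H => G x.1.1 (x.1.2.2 * x.2 * x.1.2.1⁻¹) :=
      hG.comp (f := fun x : (ℝ × H × H) × H => (x.1.1, x.1.2.2 * x.2 * x.1.2.1⁻¹)) (by fun_prop)
    exact h1.norm.measurable.ennreal_ofReal
  set n : ℝ → ENNReal := fun t => ENNReal.ofReal (∫ x, ‖G t x‖ ∂μ) with hn
  have hGc : ∀ t, Continuous fun x => ‖G t x‖ := fun t =>
    (hG.comp (f := fun x : H => (t, x)) (by fun_prop)).norm
  have hGt : ∀ t, TI Hc fun x => ‖G t x‖ := fun t g θ => by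
    change ‖G t (g * tt H Hc θ)‖ = ‖G t g‖
    rw [hGTI t g θ]
  have hbm : CLL.BM fun x : ℝ × H => ‖G x.1 x.2‖ :=
    ⟨(Continuous.norm hG).stronglyMeasurable, 1, fun x => by rw [norm_norm]; exact hG1 _ _⟩
  have hbm1 : CLL.BM fun t => ∫ x, ‖G t x‖ ∂μ := hbm.int μ
  have hmn : Measurable n := hbm1.1.measurable.ennreal_ofReal
  -- the set of the shifts
  set Bs : Set (Fin 1 → ℝ) := {s | ∀ i, |s i| ≤ C₂ * R} with hBs
  have hae : ∀ ν : Measure (Fin 1 → ℝ), ν {s | ∃ i, C₂ * R < |s i|} = 0 → ∀ᵐ s ∂ν, s ∈ Bs := by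
    intro ν hν
    rw [ae_iff]
    refine measure_mono_null ?_ hν
    intro s hs
    simp only [hBs, Set.mem_ofPred_eq, not_forall, not_le] at hs ⊢
    exact hs
  have hm : ∀ᵐ s ∂(ν₁ + ν₂), s ∈ Bs := by
    rw [ae_add_measure_iff]
    exact ⟨hae _ h12.supp₁, hae _ h12.supp₂⟩
  have hmain := main (μ.restrict Bd) μ ℓ (ν₁ + ν₂) (ν₁ + ν₂) (tt H Hc) P.tcont P.tadd a hma Q S Bs
    hQ hm hm (ENNReal.ofReal Dc) n hmn (by
      intro t t' φ hφ s hs s' hs'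
      set v : Fin 1 → ℝ := s' - φ - s with hv
      have e1 : ∀ h g : H, ∫⁻ θ in S, a (t, h, g) * a (t', h, g * tt H Hc (θ + v)) =
          ∫⁻ θ in {θ | θ - v ∈ S}, a (t, h, g) * a (t', h, g * tt H Hc θ) := fun h g =>
        STZ3.JSB.shift S hS (fun θ => a (t, h, g) * a (t', h, g * tt H Hc θ)) v
      simp_rw [e1]
      have hsub : {θ | θ - v ∈ S} ⊆ Set.Icc v (fun i => v i + 1) := by
        intro θ hθ
        have h1 := hS1 hθ
        refine ⟨fun i => ?_, fun i => ?_⟩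
        · have := h1.1 i
          simp only [Pi.zero_apply, Pi.sub_apply] at this
          linarith
        · have := h1.2 i
          simp only [Pi.one_apply, Pi.sub_apply] at this
          linarith
      have hfin : volume {θ : Fin 1 → ℝ | θ - v ∈ S} ≠ ⊤ :=
        ((measure_mono hsub).trans_lt isCompact_Icc.measure_lt_top).ne
      have h1 := conv (μ.restrict Bd) μ κ D (tt H Hc) P.tcont {θ | θ - v ∈ S} hfin
        (fun x => ‖G t x‖) (fun x => ‖G t' x‖) (hGc t) (hGc t') (fun x => norm_nonneg _)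
        (fun x => norm_nonneg _)
      simp only [ha]
      rw [h1, hn, ← ENNReal.ofReal_mul (integral_nonneg fun x => norm_nonneg _),
        ← ENNReal.ofReal_mul hDc]
      refine ENNReal.ofReal_le_ofReal ?_
      refine hJ {θ | θ - v ∈ S} v _ _
        (hS.preimage (f := fun θ : Fin 1 → ℝ => θ - v) (by fun_prop)) hsub ?_ (hGc t)
        (hGc t') (fun x => norm_nonneg _) (fun x => norm_nonneg _) (hGt t) (hGt t')
      intro θ hθ
      have h2 := hF φ hφ (θ - v) hθ (s' - s) (fun i => by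
        have h3 := hs i
        have h4 := hs' i
        rw [Pi.sub_apply]
        have := abs_sub (s' i) (s i)
        linarith)
      have e2 : θ - v - φ + (s' - s) = θ := by
        rw [hv]; abel
      rwa [e2] at h2)
  -- the left side
  have hpo : ∀ (ν ν' : Measure (Fin 1 → ℝ)) (t : ℝ) (h g : H),
      ENNReal.ofReal ‖po Hc ν ν' (vn κ ρ G) t h g‖ ≤
        ∫⁻ s, a (t, h, g * tt H Hc s) ∂(ν + ν') := by
    intro ν ν' t h g
    have h1 : ∀ g : H, ‖vn κ ρ G t h g‖ₑ ≤ a (t, h, g) := by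
      intro g
      refine (enorm_integral_le_lintegral_enorm _).trans (le_of_eq ?_)
      refine lintegral_congr fun z => ?_
      rw [ofReal_norm]
    rw [ofReal_norm]
    unfold po PO
    refine (enorm_sub_le).trans ?_
    rw [lintegral_add_measure]
    refine add_le_add ?_ ?_
    · exact (enorm_integral_le_lintegral_enorm _).trans (lintegral_mono fun s => h1 _)
    · exact (enorm_integral_le_lintegral_enorm _).trans (lintegral_mono fun s => h1 _)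
  have hin : ∀ (ν ν' : Measure (Fin 1 → ℝ)) (A : Set (Fin 1 → ℝ)) (h g : H),
      ENNReal.ofReal (∫ t in (0 : ℝ)..1, ∫ φ in A,
        ‖po Hc ν ν' (vn κ ρ G) t h (g * tt H Hc φ)‖) ≤
      ∫⁻ t, (∫⁻ φ in A, ∫⁻ s, a (t, h, g * tt H Hc φ * tt H Hc s) ∂(ν + ν')) ∂ℓ := by
    intro ν ν' A h g
    rw [intervalIntegral.integral_of_le zero_le_one]
    refine (ofReal_integral_le _ _).trans (lintegral_mono fun t => ?_)
    refine (ofReal_integral_le _ _).trans (lintegral_mono fun φ => ?_)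
    exact hpo ν ν' t h _
  have hlhs : ENNReal.ofReal (∫ h in Bd, ∫ g,
      (∫ t in (0 : ℝ)..1, ∫ φ in Q, ‖po Hc ν₁ ν₂ (vn κ ρ G) t h (g * tt H Hc φ)‖) *
      (∫ t in (0 : ℝ)..1, ∫ θ in S, ‖po Hc ν₁ ν₂ (vn κ ρ G) t h (g * tt H Hc θ)‖) ∂μ ∂μ) ≤
      ∫⁻ h in Bd, ∫⁻ g, (∫⁻ t, (∫⁻ φ in Q, ∫⁻ s, a (t, h, g * tt H Hc φ * tt H Hc s) ∂(ν₁ + ν₂)) ∂ℓ) *
      (∫⁻ t, (∫⁻ θ in S, ∫⁻ s, a (t, h, g * tt H Hc θ * tt H Hc s) ∂(ν₁ + ν₂)) ∂ℓ) ∂μ ∂μ := by
    refine (ofReal_integral_le (μ.restrict Bd) _).trans (lintegral_mono fun h => ?_)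
    refine (ofReal_integral_le μ _).trans (lintegral_mono fun g => ?_)
    rw [ENNReal.ofReal_mul (intervalIntegral.integral_nonneg zero_le_one fun t _ =>
      integral_nonneg fun φ => norm_nonneg _)]
    exact mul_le_mul' (hin ν₁ ν₂ Q h g) (hin ν₁ ν₂ S h g)
  have hfinal := hlhs.trans hmain
  -- the right side
  have hQv : volume Q ≠ ⊤ := ((measure_mono hQ1).trans_lt isCompact_Icc.measure_lt_top).ne
  have hmass : (ν₁ + ν₂) Set.univ ≤ ENNReal.ofReal (2 * C₂) := by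
    rw [Measure.add_apply, two_mul, ENNReal.ofReal_add hC₂ hC₂]
    refine add_le_add ?_ ?_
    · rw [ENNReal.le_ofReal_iff_toReal_le (measure_ne_top _ _) hC₂]
      exact h12.mass₁
    · rw [ENNReal.le_ofReal_iff_toReal_le (measure_ne_top _ _) hC₂]
      exact h12.mass₂
  have hnI : ∫⁻ t, n t ∂ℓ = ENNReal.ofReal (mG μ G) := by
    unfold mG
    rw [intervalIntegral.integral_of_le zero_le_one,
      ofReal_integral_eq_lintegral_ofReal (hbm1.integrable ℓ)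
        (Eventually.of_forall fun t => integral_nonneg fun x => norm_nonneg _)]
  have hmG : 0 ≤ mG μ G := intervalIntegral.integral_nonneg zero_le_one fun t _ =>
    integral_nonneg fun x => norm_nonneg _
  rw [hnI] at hfinal
  have hR0 : 0 ≤ (2 * C₂) ^ 2 * volume.real Q * Dc * mG μ G ^ 2 := by positivity
  rw [← ENNReal.ofReal_le_ofReal_iff hR0]
  refine hfinal.trans ?_
  have e3 : (2 * C₂) ^ 2 * volume.real Q * Dc * mG μ G ^ 2 =
      Dc * (volume.real Q * (2 * C₂) * (2 * C₂)) * mG μ G ^ 2 := by ring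
  have e4 : ENNReal.ofReal (volume.real Q * (2 * C₂) * (2 * C₂)) =
      volume Q * ENNReal.ofReal (2 * C₂) * ENNReal.ofReal (2 * C₂) := by
    rw [ENNReal.ofReal_mul (by positivity), ENNReal.ofReal_mul (by positivity), measureReal_def,
      ENNReal.ofReal_toReal hQv]
  have e5 : ENNReal.ofReal (Dc * (volume.real Q * (2 * C₂) * (2 * C₂)) * mG μ G ^ 2) =
      ENNReal.ofReal Dc * (volume Q * ENNReal.ofReal (2 * C₂) * ENNReal.ofReal (2 * C₂)) *
        ENNReal.ofReal (mG μ G) ^ 2 := by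
    rw [ENNReal.ofReal_mul (by positivity), ENNReal.ofReal_mul (p := Dc) (by positivity), e4,
      ENNReal.ofReal_pow hmG]
  rw [e3, e5]
  gcongr

end

end SPH
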