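import Pool.Agent.SPH.KT1

/-!
# The sphere S²: module KBS (helper63)
-/

namespace SPH

open STZ LGR STZ3 MeasureTheory Matrix Filter

open scoped ComplexConjugate Matrix Real Topology

noncomputable section

namespace KBS

open KT1

theorem tk_add (q : ℤ → ℝ) (aa aa' : (Fin 1 → ℤ) → ℂ) (b b' : ℤ → ℂ) (T : Finset (Fin 1 → ℤ)) (K : ℕ)
    (κ : ℤ) (u w : ℝ → (Fin 1 → ℝ) → ℂ) (b₁ : ℝ)
    (hum : Measurable (fun z : ℝ × (Fin 1 → ℝ) => u z.1 z.2)) (hub : ∀ t φ, ‖u t φ‖ ≤ b₁)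
    (hwm : Measurable (fun z : ℝ × (Fin 1 → ℝ) => w z.1 z.2)) (hwb : ∀ t φ, ‖w t φ‖ ≤ b₁) :
    ∫ t in (0 : ℝ)..1, ∫ s in (0 : ℝ)..1, ∫ φ in Set.Icc (0 : Fin 1 → ℝ) 1, ∫ θ in Set.Icc (0 : Fin 1 → ℝ) 1,
        (tk1 q aa b T K κ (t - s) (θ - φ) + tk1 q aa' b' T K κ (t - s) (θ - φ)) *
          (u s φ * conj (w t θ)) =
      (∫ t in (0 : ℝ)..1, ∫ s in (0 : ℝ)..1, ∫ φ in Set.Icc (0 : Fin 1 → ℝ) 1, ∫ θ in Set.Icc (0 : Fin 1 → ℝ) 1,
        tk1 q aa b T K κ (t - s) (θ - φ) * (u s φ * conj (w t θ))) +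
      ∫ t in (0 : ℝ)..1, ∫ s in (0 : ℝ)..1, ∫ φ in Set.Icc (0 : Fin 1 → ℝ) 1, ∫ θ in Set.Icc (0 : Fin 1 → ℝ) 1,
        tk1 q aa' b' T K κ (t - s) (θ - φ) * (u s φ * conj (w t θ)) := by
  set F : (Fin 1 → ℤ) × ℤ → (ℝ → (Fin 1 → ℝ) → ℂ) → ℝ → (Fin 1 → ℝ) → ℂ :=
    fun i v s φ => v s φ * eu (s * ((i.1 0 + κ - 2 * i.2 : ℤ) : ℝ) ^ 2 - i.1 0 * φ 0) with hF
  have hNc : ∀ (v : ℝ → (Fin 1 → ℝ) → ℂ), Measurable (fun z : ℝ × (Fin 1 → ℝ) => v z.1 z.2) →
      (∀ t θ, ‖v t θ‖ ≤ b₁) → ∀ i, Nc (F i v) := by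
    intro v hv hvb i
    refine ⟨?_, b₁, fun t θ => ?_⟩
    · simp only [hF]
      refine hv.mul (Continuous.measurable ?_)
      unfold eu
      fun_prop
    · simp only [hF]
      rw [norm_mul, T14.norm_eu, mul_one]
      exact hvb t θ
  have h4 := fun c : (Fin 1 → ℤ) × ℤ → ℂ => four (T ×ˢ Finset.Icc (-(K : ℤ)) K) c
    (fun i => F i u) (fun i => F i w) (hNc u hum hub) (hNc w hwm hwb)
  simp only [hF] at h4
  simp only [add_mul, kern, ← Finset.sum_add_distrib]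
  simp only [← add_mul]
  rw [h4, h4, h4, ← Finset.sum_add_distrib]
  refine Finset.sum_congr rfl fun i _ => ?_
  ring

theorem ex_bd {y : ℝ} (hy : |y| ≤ 8) : Real.exp y ≤ Real.exp 8 ∧ Real.exp (-y) ≤ Real.exp 8 ∧
    |Real.exp y - Real.exp (-y)| ≤ 2 * Real.exp 8 * |y| := by
  have h1 := abs_le.mp hy
  refine ⟨Real.exp_le_exp.mpr h1.2, Real.exp_le_exp.mpr (by linarith), ?_⟩
  have key : ∀ z : ℝ, 0 ≤ z → z ≤ 8 → Real.exp z - Real.exp (-z) ≤ 2 * Real.exp 8 * z := by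
    intro z h0 h8
    have h2 : 1 - 2 * z ≤ Real.exp (-(2 * z)) := by
      have := Real.add_one_le_exp (-(2 * z))
      linarith
    have h3 : Real.exp (-z) = Real.exp z * Real.exp (-(2 * z)) := by
      rw [← Real.exp_add]
      congr 1
      ring
    have h4 : Real.exp z ≤ Real.exp 8 := Real.exp_le_exp.mpr h8
    have h5 := Real.exp_pos z
    rw [h3]
    nlinarith
  rcases le_total 0 y with h | h
  · rw [abs_of_nonneg h, abs_of_nonneg]
    · exact key y h h1.2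
    · have : Real.exp (-y) ≤ Real.exp y := Real.exp_le_exp.mpr (by linarith)
      linarith
  · rw [abs_of_nonpos h, abs_of_nonpos]
    · have := key (-y) (by linarith) (by linarith)
      rw [neg_neg] at this
      linarith
    · have : Real.exp y ≤ Real.exp (-y) := Real.exp_le_exp.mpr (by linarith)
      linarith

/-- the two symbols -/
theorem symb {L ϑ X x2 : ℝ} (hX : 1 ≤ X) (hx : 1 ≤ x2) (hxX : x2 ≤ X) (hϑ : ϑ = 1 / (x2 * X))
    (hL : |L| ≤ 2 * X) :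
    |Real.exp (4 * ϑ * L) * (L + 1)| ≤ 3 * Real.exp 8 * X ∧
    |Real.exp (4 * ϑ * L) * (L + 1) - Real.exp (-(4 * ϑ * L)) * (L - 1)| ≤
      34 * Real.exp 8 * (X / x2) := by
  have hX0 : 0 < X := by linarith
  have hx0 : 0 < x2 := by linarith
  have hϑ0 : 0 < ϑ := by rw [hϑ]; positivity
  have h1 : |4 * ϑ * L| ≤ 8 / x2 := by
    rw [abs_mul, abs_of_pos (by positivity : 0 < 4 * ϑ), hϑ]
    calc 4 * (1 / (x2 * X)) * |L| ≤ 4 * (1 / (x2 * X)) * (2 * X) :=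
          mul_le_mul_of_nonneg_left hL (by positivity)
      _ = 8 / x2 := by
          field_simp
          ring
  have h2 : 8 / x2 ≤ 8 := by
    rw [div_le_iff₀ hx0]
    linarith
  obtain ⟨e1, e2, e3⟩ := ex_bd (h1.trans h2)
  have hE := Real.exp_pos 8
  have p1 := Real.exp_pos (4 * ϑ * L)
  have p2 := Real.exp_pos (-(4 * ϑ * L))
  constructor
  · rw [abs_mul, abs_of_pos p1]
    have h3 : |L + 1| ≤ 3 * X := by
      refine (abs_add_le _ _).trans ?_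
      rw [abs_one]
      linarith
    calc Real.exp (4 * ϑ * L) * |L + 1| ≤ Real.exp 8 * (3 * X) :=
          mul_le_mul e1 h3 (abs_nonneg _) hE.le
      _ = 3 * Real.exp 8 * X := by ring
  · have h4 : Real.exp (4 * ϑ * L) * (L + 1) - Real.exp (-(4 * ϑ * L)) * (L - 1) =
        L * (Real.exp (4 * ϑ * L) - Real.exp (-(4 * ϑ * L))) +
          (Real.exp (4 * ϑ * L) + Real.exp (-(4 * ϑ * L))) := by ring
    rw [h4]
    refine (abs_add_le _ _).trans ?_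
    rw [abs_mul, abs_of_pos (show 0 < Real.exp (4 * ϑ * L) + Real.exp (-(4 * ϑ * L)) by linarith)]
    have h5 : |L| * |Real.exp (4 * ϑ * L) - Real.exp (-(4 * ϑ * L))| ≤
        (2 * X) * (2 * Real.exp 8 * (8 / x2)) := by
      apply mul_le_mul hL _ (abs_nonneg _) (by positivity)
      refine e3.trans ?_
      exact mul_le_mul_of_nonneg_left h1 (by positivity)
    have h6 : 1 ≤ X / x2 := by
      rw [le_div_iff₀ hx0]
      linarith
    have h7 : (2 * X) * (2 * Real.exp 8 * (8 / x2)) = 32 * Real.exp 8 * (X / x2) := by ring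
    nlinarith

end KBS

open KBS KT1 in
theorem t_KBS : M_KBS := by
  intro _ hKT m C₁ C₂ ε hm hC hC₂ hε
  obtain ⟨D, hD, h⟩ := hKT ε hε
  have hC₁ : 0 ≤ C₁ := by
    have := hC.abs 0 0 0 le_rfl
    exact (Finset.sum_nonneg fun _ _ => norm_nonneg _).trans this
  refine ⟨D * (C₂ * (3 * Real.exp 8)) * C₁ + D * (C₂ * (34 * Real.exp 8)) * C₁, by positivity, ?_⟩
  intro Φ J Y x e T Ψ hΦ hJ hxY hYJ hKS he hΨ
  set q := qS e (2 ^ J) with hq
  set K' : ℕ := KS m Y + 1 with hK'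
  set ϑ : ℝ := 1 / 2 ^ (x + J) with hϑ
  set aa : (Fin 1 → ℤ) → ℂ := fun l => (Ψ l * (Real.exp (4 * ϑ * l 0) * (l 0 + 1)) : ℝ) with haa
  set aa' : (Fin 1 → ℤ) → ℂ := fun l => (Ψ l * (Real.exp (4 * ϑ * l 0) * (l 0 + 1) -
    Real.exp (-(4 * ϑ * l 0)) * (l 0 - 1)) : ℝ) with haa'
  set b : ℤ → ℂ := fun k => cS m Y x k - cS m Y x (k - 1) with hb
  set b' : ℤ → ℂ := fun k => cS m Y x (k - 1) with hb'
  have hX1 : (1 : ℝ) ≤ 2 ^ J := one_le_pow₀ (by norm_num)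
  have hx1 : (1 : ℝ) ≤ 2 ^ x := one_le_pow₀ (by norm_num)
  have hxX : (2 : ℝ) ^ x ≤ 2 ^ J := pow_le_pow_right₀ (by norm_num) (hxY.trans hYJ)
  have hKS1 : 1 ≤ KS m Y := by unfold KS; omega
  have hsup : ∀ k : ℤ, (KS m Y : ℤ) < |k| → cS m Y x k = 0 := by
    intro k hk
    apply hC.supp Y x k hxY
    refine lt_of_le_of_lt ?_ hk
    unfold KS
    push_cast
    have h1 : (2 : ℤ) ^ x ≤ 2 ^ Y := pow_le_pow_right₀ (by norm_num) hxY
    have h2 : (2 * (m : ℤ) ^ 2) * 2 ^ x ≤ (2 * (m : ℤ) ^ 2) * 2 ^ Y :=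
      mul_le_mul_of_nonneg_left h1 (by positivity)
    linarith
  -- bound of `l`
  have hbl : ∀ (l : Fin 1 → ℤ), ∀ k ∈ Finset.Icc (-(K' : ℤ)) K', q (l 0 + 1 - 2 * k) ≠ 0 →
      |((l 0 : ℤ) : ℝ)| ≤ 2 * 2 ^ J := by
    intro l k hk hne
    rw [Finset.mem_Icc] at hk
    have h1 : |l 0 + 1 - 2 * k| ≤ ((2 ^ J : ℕ) : ℤ) := by
      simp only [hq, qS] at hne
      by_contra h0
      apply hne
      rw [if_neg]
      rintro ⟨-, -, h2⟩
      exact h0 h2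
    have h2 : |l 0| ≤ 2 * ((2 ^ J : ℕ) : ℤ) := by
      rw [abs_le] at h1 ⊢
      have h3 : ((32 * KS m Y : ℕ) : ℤ) ≤ ((2 ^ J : ℕ) : ℤ) := by exact_mod_cast hKS
      have h4 : (K' : ℤ) = (KS m Y : ℤ) + 1 := by rw [hK']; push_cast; ring
      rw [h4] at hk
      have h5 : (1 : ℤ) ≤ KS m Y := by exact_mod_cast hKS1
      push_cast at h3
      push_cast at h1 ⊢
      constructor <;> linarith [h1.1, h1.2, hk.1, hk.2]
    have h3 : ((|l 0| : ℤ) : ℝ) ≤ ((2 * ((2 ^ J : ℕ) : ℤ) : ℤ) : ℝ) := by exact_mod_cast h2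
    push_cast at h3
    exact h3
  have hϑe : ϑ = 1 / ((2 : ℝ) ^ x * 2 ^ J) := by rw [hϑ, pow_add]
  have hq01 : ∀ l, 0 ≤ q l ∧ q l ≤ 1 := by
    intro l
    simp only [hq, qS]
    split_ifs <;> norm_num
  have hqX : ∀ l, q l ≠ 0 → |l| ≤ ((2 ^ J : ℕ) : ℤ) := by
    intro l hne
    simp only [hq, qS] at hne
    by_contra h0
    apply hne
    rw [if_neg]
    rintro ⟨-, -, h2⟩
    exact h0 h2
  have hX : 1 ≤ 2 ^ J := Nat.one_le_two_pow
  have k1 := h (2 ^ J) q aa b T K' 1 (C₂ * (3 * Real.exp 8) * 2 ^ J) hX (by positivity) hq01 hqX (by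
    intro l _ k hk hne
    have h1 := (symb hX1 hx1 hxX hϑe (hbl l k hk hne)).1
    simp only [haa]
    rw [Complex.norm_real, Real.norm_eq_abs, abs_mul]
    calc |Ψ l| * |Real.exp (4 * ϑ * l 0) * (l 0 + 1)| ≤ C₂ * (3 * Real.exp 8 * 2 ^ J) :=
          mul_le_mul (hΨ l) h1 (abs_nonneg _) hC₂
      _ = _ := by ring)
  have k2 := h (2 ^ J) q aa' b' T K' 1 (C₂ * (34 * Real.exp 8) * (2 ^ J / 2 ^ x)) hX
    (by positivity) hq01 hqX (by
    intro l _ k hk hne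
    have h1 := (symb hX1 hx1 hxX hϑe (hbl l k hk hne)).2
    simp only [haa']
    rw [Complex.norm_real, Real.norm_eq_abs, abs_mul]
    calc |Ψ l| * |Real.exp (4 * ϑ * l 0) * (l 0 + 1) - Real.exp (-(4 * ϑ * l 0)) * (l 0 - 1)| ≤
          C₂ * (34 * Real.exp 8 * (2 ^ J / 2 ^ x)) :=
          mul_le_mul (hΨ l) h1 (abs_nonneg _) hC₂
      _ = _ := by ring)
  have s1 : ∑ k ∈ Finset.Icc (-(K' : ℤ)) K', ‖b k‖ ≤ C₁ / 2 ^ x := hC.var Y x K' hxY
  have s2 : ∑ k ∈ Finset.Icc (-(K' : ℤ)) K', ‖b' k‖ ≤ C₁ := by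
    have h1 := hC.abs Y x (K' + 1) hxY
    refine le_trans ?_ h1
    have h2 : ∑ k ∈ Finset.Icc (-(K' : ℤ)) K', ‖b' k‖ =
        ∑ k ∈ (Finset.Icc (-(K' : ℤ)) K').image (fun k => k - 1), ‖cS m Y x k‖ := by
      rw [Finset.sum_image]
      intro a _ a' _ haa'
      simp only at haa'
      linarith
    rw [h2]
    apply Finset.sum_le_sum_of_subset_of_nonneg
    · intro k hk
      obtain ⟨k', hk', rfl⟩ := Finset.mem_image.mp hk
      rw [Finset.mem_Icc] at hk' ⊢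
      push_cast
      constructor <;> linarith [hk'.1, hk'.2]
    · intro _ _ _
      exact norm_nonneg _
  -- the decomposition
  have hdec : ∀ τ θ, km (aS Φ m Y x e J) T Ψ τ θ = tk1 q aa b T K' 1 τ θ + tk1 q aa' b' T K' 1 τ θ := by
    intro τ θ
    unfold km tk1
    rw [← Finset.sum_add_distrib]
    refine Finset.sum_congr rfl fun l _ => ?_
    rw [← add_mul]
    congr 1
    have g1 : ∀ k : ℤ, ((q (l 0 + 1 - 2 * k) : ℂ) * eu (-(τ * ((l 0 + 1 - 2 * k : ℤ) : ℝ) ^ 2))) =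
        gS e (2 ^ J) τ (l 0 + 1 - 2 * k) := fun k => rfl
    simp only [g1]
    have n1 : nS m Y x e J τ ((l + 1) 0) =
        2 * ∑ k ∈ Finset.Icc (-(K' : ℤ)) K', cS m Y x k * gS e (2 ^ J) τ (l 0 + 1 - 2 * k) := by
      unfold nS
      congr 1
      rw [Pi.add_apply, Pi.one_apply]
      apply Finset.sum_subset
      · apply Finset.Icc_subset_Icc <;> rw [hK'] <;> push_cast <;> linarith
      · intro k _ hk2
        rw [Finset.mem_Icc, not_and_or, not_le, not_le] at hk2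
        rw [hsup k, zero_mul]
        rcases hk2 with h1 | h1
        · rw [abs_of_neg (by
            have : (0 : ℤ) ≤ KS m Y := by positivity
            linarith)]
          linarith
        · exact lt_of_lt_of_le h1 (le_abs_self k)
    have n2 : nS m Y x e J τ ((l - 1) 0) =
        2 * ∑ k ∈ Finset.Icc (-(K' : ℤ)) K', cS m Y x (k - 1) * gS e (2 ^ J) τ (l 0 + 1 - 2 * k) := by
      unfold nS
      congr 1
      rw [Pi.sub_apply, Pi.one_apply]
      have h1 : ∑ k ∈ Finset.Icc (-(KS m Y : ℤ)) (KS m Y), cS m Y x k * gS e (2 ^ J) τ (l 0 - 1 - 2 * k) =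
          ∑ k ∈ (Finset.Icc (-(KS m Y : ℤ)) (KS m Y)).image (fun k => k + 1),
            cS m Y x (k - 1) * gS e (2 ^ J) τ (l 0 + 1 - 2 * k) := by
        rw [Finset.sum_image]
        · refine Finset.sum_congr rfl fun k _ => ?_
          congr 2
          · ring
          · ring
        · intro a _ a' _ haa'
          simp only at haa'
          linarith
      rw [h1]
      apply Finset.sum_subset
      · intro k hk
        obtain ⟨k', hk', rfl⟩ := Finset.mem_image.mp hk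
        rw [Finset.mem_Icc] at hk' ⊢
        rw [hK']
        push_cast
        constructor <;> linarith [hk'.1, hk'.2]
      · intro k _ hk2
        rw [Finset.mem_image] at hk2
        push Not at hk2
        rw [hsup (k - 1), zero_mul]
        by_contra h2
        push Not at h2
        rw [abs_le] at h2
        exact hk2 (k - 1) (Finset.mem_Icc.mpr h2) (by ring)
    unfold aS
    rw [hΦ.lm]
    simp only [n1, n2]
    simp only [haa, haa', hb, hb']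
    have e1 : ∑ k ∈ Finset.Icc (-(K' : ℤ)) K', (cS m Y x k - cS m Y x (k - 1)) *
          gS e (2 ^ J) τ (l 0 + 1 - 2 * k) =
        ∑ k ∈ Finset.Icc (-(K' : ℤ)) K', cS m Y x k * gS e (2 ^ J) τ (l 0 + 1 - 2 * k) -
          ∑ k ∈ Finset.Icc (-(K' : ℤ)) K', cS m Y x (k - 1) * gS e (2 ^ J) τ (l 0 + 1 - 2 * k) := by
      rw [← Finset.sum_sub_distrib]
      refine Finset.sum_congr rfl fun k _ => ?_
      ring
    rw [e1]
    rw [hϑ]
    push_cast
    ring_nf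
  have hX2 : (((2 ^ J : ℕ) : ℝ)) ^ ε = (2 : ℝ) ^ (ε * J) := by
    push_cast
    rw [← Real.rpow_natCast, ← Real.rpow_mul (by norm_num)]
    congr 1
    ring
  refine ⟨?_, ?_⟩
  · have : (fun z : ℝ × (Fin 1 → ℝ) => km (aS Φ m Y x e J) T Ψ z.1 z.2) =
        fun z => tk1 q aa b T K' 1 z.1 z.2 + tk1 q aa' b' T K' 1 z.1 z.2 := by
      funext z
      exact hdec _ _
    rw [this]
    exact k1.cont.add k2.cont
  · intro Q S u w b₁ hQm hSm hQ hS hum hub hwm hwb hu0 hw0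
    simp only [hdec]
    rw [tk_add q aa aa' b b' T K' 1 u w b₁ hum hub hwm hwb]
    have r1 := k1.bd Q S u w b₁ hQm hSm hQ hS hum hub hwm hwb hu0 hw0
    have r2 := k2.bd Q S u w b₁ hQm hSm hQ hS hum hub hwm hwb hu0 hw0
    rw [hX2] at r1 r2
    set R : ℝ := (volume.real Q * volume.real S) ^ ((1 : ℝ) / 7) *
        ((∫ t in (0 : ℝ)..1, ∫ φ in Set.Icc (0 : Fin 1 → ℝ) 1, ‖u t φ‖ ^ ((14 : ℝ) / 11)) ^ ((11 : ℝ) / 14) *
          (∫ t in (0 : ℝ)..1, ∫ φ in Set.Icc (0 : Fin 1 → ℝ) 1, ‖w t φ‖ ^ ((14 : ℝ) / 11)) ^ ((11 : ℝ) / 14))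
      with hR
    have hR0 : 0 ≤ R := by
      have i1 : ∀ v : ℝ → (Fin 1 → ℝ) → ℂ,
          0 ≤ ∫ t in (0 : ℝ)..1, ∫ φ in Set.Icc (0 : Fin 1 → ℝ) 1, ‖v t φ‖ ^ ((14 : ℝ) / 11) := by
        intro v
        refine intervalIntegral.integral_nonneg zero_le_one fun t _ => ?_
        exact integral_nonneg fun θ => by positivity
      have hQ0 : 0 ≤ volume.real Q := measureReal_nonneg
      have hS0 : 0 ≤ volume.real S := measureReal_nonneg
      have i2 := i1 u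
      have i3 := i1 w
      positivity
    refine (norm_add_le _ _).trans ?_
    have t1 : D * (2 : ℝ) ^ (ε * J) * (C₂ * (3 * Real.exp 8) * 2 ^ J) *
        ∑ k ∈ Finset.Icc (-(K' : ℤ)) K', ‖b k‖ ≤
        D * (2 : ℝ) ^ (ε * J) * (C₂ * (3 * Real.exp 8) * 2 ^ J) * (C₁ / 2 ^ x) :=
      mul_le_mul_of_nonneg_left s1 (by positivity)
    have t2 : D * (2 : ℝ) ^ (ε * J) * (C₂ * (34 * Real.exp 8) * (2 ^ J / 2 ^ x)) *
        ∑ k ∈ Finset.Icc (-(K' : ℤ)) K', ‖b' k‖ ≤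
        D * (2 : ℝ) ^ (ε * J) * (C₂ * (34 * Real.exp 8) * (2 ^ J / 2 ^ x)) * C₁ :=
      mul_le_mul_of_nonneg_left s2 (by positivity)
    rw [mul_assoc _ ((volume.real Q * volume.real S) ^ ((1 : ℝ) / 7)), ← hR] at r1 r2
    rw [mul_assoc _ ((volume.real Q * volume.real S) ^ ((1 : ℝ) / 7)), ← hR]
    refine (add_le_add (r1.trans (mul_le_mul_of_nonneg_right t1 hR0))
      (r2.trans (mul_le_mul_of_nonneg_right t2 hR0))).trans (le_of_eq ?_)
    ring

end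

end SPH
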