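import Pool.Agent.SPH.StC

/-!
# The sphere S²: module KHB (helper55), adapted from `Pool/Agent/STZ3/KHO.lean`
-/

namespace SPH

open STZ LGR STZ3 MeasureTheory Matrix Filter

open scoped ComplexConjugate Matrix Real Topology

noncomputable section

namespace KHB

/-- the measure of the torus -/
def tm : Measure (ℝ × (Fin 1 → ℝ)) :=
  ((volume : Measure ℝ).restrict (Set.Ioc 0 1)).prod
    ((volume : Measure (Fin 1 → ℝ)).restrict (Set.Icc 0 1))

instance : IsFiniteMeasure ((volume : Measure (Fin 1 → ℝ)).restrict (Set.Icc 0 1)) :=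
  ⟨by rw [Measure.restrict_apply_univ]; exact isCompact_Icc.measure_lt_top⟩

instance : IsFiniteMeasure tm := by
  unfold tm
  infer_instance

theorem int_eq {E : Type} [NormedAddCommGroup E] [NormedSpace ℝ E]
    (F : ℝ → (Fin 1 → ℝ) → E) (hF : Integrable (fun z : ℝ × (Fin 1 → ℝ) => F z.1 z.2) tm) :
    ∫ t in (0 : ℝ)..1, ∫ θ in Set.Icc (0 : Fin 1 → ℝ) 1, F t θ = ∫ z, F z.1 z.2 ∂tm := by
  rw [intervalIntegral.integral_of_le zero_le_one]
  unfold tm at hF ⊢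
  rw [integral_prod _ hF]

section Abs

variable {α : Type} [MeasurableSpace α] (μ : Measure α) [IsFiniteMeasure μ]

theorem memLp {f : α → ℝ} (hf : Measurable f) (hf0 : ∀ x, 0 ≤ f x) {b : ℝ} (hfb : ∀ x, f x ≤ b)
    (p : ENNReal) : MemLp f p μ :=
  MemLp.of_bound hf.aestronglyMeasurable b (ae_of_all _ fun x => by
    rw [Real.norm_of_nonneg (hf0 x)]
    exact hfb x)

theorem cs {f g : α → ℝ} (hf : Measurable f) (hg : Measurable g) (hf0 : ∀ x, 0 ≤ f x)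
    (hg0 : ∀ x, 0 ≤ g x) {b c : ℝ} (hfb : ∀ x, f x ≤ b) (hgc : ∀ x, g x ≤ c) :
    ∫ x, f x * g x ∂μ ≤ √(∫ x, f x ^ 2 ∂μ) * √(∫ x, g x ^ 2 ∂μ) := by
  have h := integral_mul_le_Lp_mul_Lq_of_nonneg (μ := μ) (p := 2) (q := 2)
    Real.HolderConjugate.two_two (ae_of_all _ hf0) (ae_of_all _ hg0)
    (memLp μ hf hf0 hfb _) (memLp μ hg hg0 hgc _)
  simp only [Real.rpow_two] at h
  rw [Real.sqrt_eq_rpow, Real.sqrt_eq_rpow]
  exact h

theorem interp {f : α → ℝ} (hf : Measurable f) (hf0 : ∀ x, 0 ≤ f x) {b : ℝ}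
    (hfb : ∀ x, f x ≤ b) :
    (∫ x, f x ^ ((14 : ℝ) / 11) ∂μ) ^ ((11 : ℝ) / 14) ≤
      (∫ x, f x ∂μ) ^ ((4 : ℝ) / 7) * (∫ x, f x ^ 2 ∂μ) ^ ((3 : ℝ) / 14) := by
  have hc : (11 / 8 : ℝ).HolderConjugate (11 / 3) := by
    rw [Real.holderConjugate_iff]
    norm_num
  have hm : ∀ p : ℝ, Measurable fun x => f x ^ p := fun p => hf.pow_const _
  have hm0 : ∀ (p : ℝ) x, 0 ≤ f x ^ p := fun p x => Real.rpow_nonneg (hf0 x) _
  have hmb : ∀ p : ℝ, 0 ≤ p → ∀ x, f x ^ p ≤ b ^ p := fun p hp x =>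
    Real.rpow_le_rpow (hf0 x) (hfb x) hp
  have h := integral_mul_le_Lp_mul_Lq_of_nonneg (μ := μ) hc (ae_of_all _ (hm0 (8 / 11)))
    (ae_of_all _ (hm0 (6 / 11)))
    (memLp μ (hm _) (hm0 _) (hmb _ (by norm_num)) _)
    (memLp μ (hm _) (hm0 _) (hmb _ (by norm_num)) _)
  have e1 : ∀ x, f x ^ ((8 : ℝ) / 11) * f x ^ ((6 : ℝ) / 11) = f x ^ ((14 : ℝ) / 11) := by
    intro x
    rw [← Real.rpow_add_of_nonneg (hf0 x) (by norm_num) (by norm_num)]
    norm_num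
  have e2 : ∀ x, (f x ^ ((8 : ℝ) / 11)) ^ (11 / 8 : ℝ) = f x := by
    intro x
    rw [← Real.rpow_mul (hf0 x)]
    norm_num
  have e3 : ∀ x, (f x ^ ((6 : ℝ) / 11)) ^ (11 / 3 : ℝ) = f x ^ 2 := by
    intro x
    rw [← Real.rpow_mul (hf0 x), ← Real.rpow_two]
    norm_num
  simp only [e1, e2, e3] at h
  have i1 : 0 ≤ ∫ x, f x ∂μ := integral_nonneg hf0
  have i2 : 0 ≤ ∫ x, f x ^ 2 ∂μ := integral_nonneg fun x => by positivity
  have i3 : 0 ≤ ∫ x, f x ^ ((14 : ℝ) / 11) ∂μ :=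
    integral_nonneg fun x => Real.rpow_nonneg (hf0 x) _
  refine (Real.rpow_le_rpow i3 h (by norm_num)).trans (le_of_eq ?_)
  rw [Real.mul_rpow (by positivity) (by positivity), ← Real.rpow_mul i1, ← Real.rpow_mul i2]
  norm_num

theorem hold4 {A B C : α → ℝ} (hA : Measurable A) (hB : Measurable B) (hC : Measurable C)
    (hA0 : ∀ x, 0 ≤ A x) (hB0 : ∀ x, 0 ≤ B x) (hC0 : ∀ x, 0 ≤ C x) {a b c : ℝ}
    (hAa : ∀ x, A x ≤ a) (hBb : ∀ x, B x ≤ b) (hCc : ∀ x, C x ≤ c) :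
    ∫ x, A x ^ ((4 : ℝ) / 7) * (B x ^ ((3 : ℝ) / 14) * C x ^ ((3 : ℝ) / 14)) ∂μ ≤
      (∫ x, A x ∂μ) ^ ((4 : ℝ) / 7) *
        ((∫ x, B x ∂μ) ^ ((3 : ℝ) / 14) * (∫ x, C x ∂μ) ^ ((3 : ℝ) / 14)) := by
  have hc : (7 / 4 : ℝ).HolderConjugate (7 / 3) := by
    rw [Real.holderConjugate_iff]
    norm_num
  have hb4 : ∀ x, B x ^ ((3 : ℝ) / 14) ≤ b ^ ((3 : ℝ) / 14) := fun x =>
    Real.rpow_le_rpow (hB0 x) (hBb x) (by norm_num)
  have hc4 : ∀ x, C x ^ ((3 : ℝ) / 14) ≤ c ^ ((3 : ℝ) / 14) := fun x =>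
    Real.rpow_le_rpow (hC0 x) (hCc x) (by norm_num)
  have h1 := integral_mul_le_Lp_mul_Lq_of_nonneg (μ := μ) hc
    (f := fun x => A x ^ ((4 : ℝ) / 7))
    (g := fun x => B x ^ ((3 : ℝ) / 14) * C x ^ ((3 : ℝ) / 14))
    (ae_of_all _ fun x => Real.rpow_nonneg (hA0 x) _)
    (ae_of_all _ fun x => mul_nonneg (Real.rpow_nonneg (hB0 x) _) (Real.rpow_nonneg (hC0 x) _))
    (memLp μ (hA.pow_const _) (fun x => Real.rpow_nonneg (hA0 x) _)
      (fun x => Real.rpow_le_rpow (hA0 x) (hAa x) (by norm_num)) _)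
    (memLp μ ((hB.pow_const _).mul (hC.pow_const _))
      (fun x => mul_nonneg (Real.rpow_nonneg (hB0 x) _) (Real.rpow_nonneg (hC0 x) _))
      (fun x => mul_le_mul (hb4 x) (hc4 x) (Real.rpow_nonneg (hC0 x) _)
        ((Real.rpow_nonneg (hB0 x) _).trans (hb4 x))) _)
  have e1 : ∀ x, (A x ^ ((4 : ℝ) / 7)) ^ (7 / 4 : ℝ) = A x := by
    intro x
    rw [← Real.rpow_mul (hA0 x)]
    norm_num
  have e2 : ∀ x, (B x ^ ((3 : ℝ) / 14) * C x ^ ((3 : ℝ) / 14)) ^ (7 / 3 : ℝ) =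
      √(B x) * √(C x) := by
    intro x
    rw [Real.mul_rpow (Real.rpow_nonneg (hB0 x) _) (Real.rpow_nonneg (hC0 x) _),
      ← Real.rpow_mul (hB0 x), ← Real.rpow_mul (hC0 x), Real.sqrt_eq_rpow, Real.sqrt_eq_rpow]
    norm_num
  simp only [e1, e2] at h1
  have h2 := cs μ (f := fun x => √(B x)) (g := fun x => √(C x)) hB.sqrt hC.sqrt
    (fun x => Real.sqrt_nonneg _) (fun x => Real.sqrt_nonneg _)
    (fun x => Real.sqrt_le_sqrt (hBb x)) (fun x => Real.sqrt_le_sqrt (hCc x))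
  have e3 : ∀ x, √(B x) ^ 2 = B x := fun x => Real.sq_sqrt (hB0 x)
  have e4 : ∀ x, √(C x) ^ 2 = C x := fun x => Real.sq_sqrt (hC0 x)
  simp only [e3, e4] at h2
  have iA : 0 ≤ ∫ x, A x ∂μ := integral_nonneg hA0
  have iB : 0 ≤ ∫ x, B x ∂μ := integral_nonneg hB0
  have iC : 0 ≤ ∫ x, C x ∂μ := integral_nonneg hC0
  have iE : 0 ≤ ∫ x, √(B x) * √(C x) ∂μ :=
    integral_nonneg fun x => mul_nonneg (Real.sqrt_nonneg _) (Real.sqrt_nonneg _)
  have e5 : (1 / (7 / 4) : ℝ) = 4 / 7 := by norm_num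
  have e6 : (1 / (7 / 3) : ℝ) = 3 / 7 := by norm_num
  rw [e5, e6] at h1
  refine h1.trans (mul_le_mul_of_nonneg_left ?_ (Real.rpow_nonneg iA _))
  refine (Real.rpow_le_rpow iE h2 (by norm_num)).trans (le_of_eq ?_)
  rw [Real.mul_rpow (Real.sqrt_nonneg _) (Real.sqrt_nonneg _), Real.sqrt_eq_rpow,
    Real.sqrt_eq_rpow, ← Real.rpow_mul iB, ← Real.rpow_mul iC]
  norm_num

end Abs

section Grp

variable {G : Type} [Group G] [TopologicalSpace G] [IsTopologicalGroup G] [CompactSpace G]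
  [SecondCountableTopology G] [MeasurableSpace G] [BorelSpace G] (μ : Measure G)
  [IsProbabilityMeasure μ]

/-- the cut off function -/
def U (τ : (Fin 1 → ℝ) → G) (Q : Set (Fin 1 → ℝ)) (V : ℝ → G → G → ℂ) (x : G × G)
    (z : ℝ × (Fin 1 → ℝ)) : ℂ := Q.indicator (fun φ => V z.1 x.1 (x.2 * τ φ)) z.2

omit [CompactSpace G] in
theorem U_meas {τ : (Fin 1 → ℝ) → G} (hτ : Continuous τ) {Q : Set (Fin 1 → ℝ)}
    (hQ : MeasurableSet Q) {V : ℝ → G → G → ℂ} (hV : J3 V) :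
    Measurable fun p : (G × G) × (ℝ × (Fin 1 → ℝ)) => U τ Q V p.1 p.2 := by
  have h1 : (fun p : (G × G) × (ℝ × (Fin 1 → ℝ)) => U τ Q V p.1 p.2) =
      ({p : (G × G) × (ℝ × (Fin 1 → ℝ)) | p.2.2 ∈ Q}).indicator
        (fun p => V p.2.1 p.1.1 (p.1.2 * τ p.2.2)) := by
    funext p
    unfold U
    by_cases h : p.2.2 ∈ Q
    · rw [Set.indicator_of_mem h, Set.indicator_of_mem (by exact h)]
    · rw [Set.indicator_of_notMem h, Set.indicator_of_notMem (by exact h)]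
  rw [h1]
  refine Measurable.indicator ?_ (hQ.preimage (measurable_snd.comp measurable_snd))
  have h2 : Continuous fun p : (G × G) × (ℝ × (Fin 1 → ℝ)) =>
      (p.2.1, p.1.1, p.1.2 * τ p.2.2) := by fun_prop
  exact (hV.comp h2).measurable

omit [TopologicalSpace G] [IsTopologicalGroup G] [CompactSpace G] [SecondCountableTopology G]
  [MeasurableSpace G] [BorelSpace G] in
theorem U_bd (τ : (Fin 1 → ℝ) → G) (Q : Set (Fin 1 → ℝ)) {V : ℝ → G → G → ℂ} {b : ℝ}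
    (hb : ∀ t h g, ‖V t h g‖ ≤ b) (x : G × G) (z : ℝ × (Fin 1 → ℝ)) : ‖U τ Q V x z‖ ≤ b := by
  unfold U
  by_cases h : z.2 ∈ Q
  · rw [Set.indicator_of_mem h]
    exact hb _ _ _
  · rw [Set.indicator_of_notMem h, norm_zero]
    exact (norm_nonneg _).trans (hb 0 1 1)

/-- the `L¹` norm -/
def a1 (τ : (Fin 1 → ℝ) → G) (Q : Set (Fin 1 → ℝ)) (V : ℝ → G → G → ℂ) (x : G × G) : ℝ :=
  ∫ z, ‖U τ Q V x z‖ ∂tm

/-- the square of the `L²` norm -/
def a2 (τ : (Fin 1 → ℝ) → G) (Q : Set (Fin 1 → ℝ)) (V : ℝ → G → G → ℂ) (x : G × G) : ℝ :=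
  ∫ z, ‖U τ Q V x z‖ ^ 2 ∂tm

variable {τ : (Fin 1 → ℝ) → G} (hτ : Continuous τ) {Q : Set (Fin 1 → ℝ)}
    (hQ : MeasurableSet Q) (hQ1 : Q ⊆ Set.Icc 0 1) {V : ℝ → G → G → ℂ} (hV : J3 V) {b : ℝ}
    (hb : ∀ t h g, ‖V t h g‖ ≤ b)

include hτ hQ hV in
omit [CompactSpace G] in
theorem a1_meas : Measurable (a1 τ Q V) := by
  have h := (U_meas hτ hQ hV).norm.stronglyMeasurable
  exact (h.integral_prod_right (ν := tm)).measurable

include hτ hQ hV in
omit [CompactSpace G] in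
theorem a2_meas : Measurable (a2 τ Q V) := by
  have h := ((U_meas hτ hQ hV).norm.pow_const 2).stronglyMeasurable
  exact (h.integral_prod_right (ν := tm)).measurable

omit [TopologicalSpace G] [IsTopologicalGroup G] [CompactSpace G] [SecondCountableTopology G]
  [MeasurableSpace G] [BorelSpace G] in
theorem a1_nn (x : G × G) : 0 ≤ a1 τ Q V x := integral_nonneg fun _ => norm_nonneg _

omit [TopologicalSpace G] [IsTopologicalGroup G] [CompactSpace G] [SecondCountableTopology G]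
  [MeasurableSpace G] [BorelSpace G] in
theorem a2_nn (x : G × G) : 0 ≤ a2 τ Q V x := integral_nonneg fun _ => by positivity

include hb in
omit [TopologicalSpace G] [IsTopologicalGroup G] [CompactSpace G] [SecondCountableTopology G]
  [MeasurableSpace G] [BorelSpace G] in
theorem a1_bd (x : G × G) : a1 τ Q V x ≤ b * tm.real Set.univ := by
  refine (le_abs_self _).trans ?_
  rw [← Real.norm_eq_abs]
  refine norm_integral_le_of_norm_le_const (ae_of_all _ fun z => ?_)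
  rw [norm_norm]
  exact U_bd τ Q hb x z

include hb in
omit [TopologicalSpace G] [IsTopologicalGroup G] [CompactSpace G] [SecondCountableTopology G]
  [MeasurableSpace G] [BorelSpace G] in
theorem a2_bd (x : G × G) : a2 τ Q V x ≤ b ^ 2 * tm.real Set.univ := by
  refine (le_abs_self _).trans ?_
  rw [← Real.norm_eq_abs]
  refine norm_integral_le_of_norm_le_const (ae_of_all _ fun z => ?_)
  rw [norm_pow, norm_norm]
  exact pow_le_pow_left₀ (norm_nonneg _) (U_bd τ Q hb x z) 2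

include hτ hQ hV in
omit [CompactSpace G] in
theorem U_meas_right (x : G × G) : Measurable (U τ Q V x) :=
  (U_meas hτ hQ hV).comp (measurable_const.prodMk measurable_id)

include hτ hQ hQ1 hV hb in
omit [CompactSpace G] in
theorem a1_eq (h g : G) : a1 τ Q V (h, g) =
    ∫ t in (0 : ℝ)..1, ∫ φ in Q, ‖V t h (g * τ φ)‖ := by
  unfold a1
  rw [← int_eq (fun t φ => ‖U τ Q V (h, g) (t, φ)‖)]
  · congr 1
    funext t
    have e1 : ∀ φ, ‖U τ Q V (h, g) (t, φ)‖ = Q.indicator (fun φ => ‖V t h (g * τ φ)‖) φ := by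
      intro φ
      unfold U
      by_cases hm : φ ∈ Q
      · rw [Set.indicator_of_mem hm, Set.indicator_of_mem hm]
      · rw [Set.indicator_of_notMem hm, Set.indicator_of_notMem hm, norm_zero]
    simp only [e1]
    rw [setIntegral_indicator hQ, Set.inter_eq_right.2 hQ1]
  · refine Integrable.of_bound ((U_meas_right hτ hQ hV (h, g)).norm).aestronglyMeasurable b
      (ae_of_all _ fun z => ?_)
    rw [norm_norm]
    exact U_bd τ Q hb _ _

include hτ hQ hQ1 hV hb in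
omit [CompactSpace G] in
theorem a2_int [μ.IsMulRightInvariant] : ∫ x, a2 τ Q V x ∂(μ.prod μ) =
    volume.real Q * ∫ t in (0 : ℝ)..1, ∫ h, ∫ g, ‖V t h g‖ ^ 2 ∂μ ∂μ := by
  have hi : Integrable (fun p : (G × G) × (ℝ × (Fin 1 → ℝ)) => ‖U τ Q V p.1 p.2‖ ^ 2)
      ((μ.prod μ).prod tm) := by
    refine Integrable.of_bound ((U_meas hτ hQ hV).norm.pow_const 2).aestronglyMeasurable (b ^ 2)
      (ae_of_all _ fun z => ?_)
    rw [norm_pow, norm_norm]
    exact pow_le_pow_left₀ (norm_nonneg _) (U_bd τ Q hb _ _) 2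
  unfold a2
  rw [integral_integral_swap hi, ← int_eq (fun t φ => ∫ x, ‖U τ Q V x (t, φ)‖ ^ 2 ∂(μ.prod μ))
    hi.integral_prod_right, ← intervalIntegral.integral_const_mul]
  congr 1
  funext t
  have hVi : ∀ y : G, Integrable (fun x : G × G => ‖V t x.1 (x.2 * y)‖ ^ 2) (μ.prod μ) := by
    intro y
    have h2 : Continuous fun x : G × G => (t, x.1, x.2 * y) := by fun_prop
    refine Integrable.of_bound ((hV.comp h2).norm.pow 2).measurable.aestronglyMeasurable (b ^ 2)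
      (ae_of_all _ fun z => ?_)
    rw [norm_pow, norm_norm]
    exact pow_le_pow_left₀ (norm_nonneg _) (hb _ _ _) 2
  have e1 : ∀ φ, ∫ x, ‖U τ Q V x (t, φ)‖ ^ 2 ∂(μ.prod μ) =
      Q.indicator (fun _ => ∫ h, ∫ g, ‖V t h g‖ ^ 2 ∂μ ∂μ) φ := by
    intro φ
    unfold U
    by_cases hm : φ ∈ Q
    · simp only [Set.indicator_of_mem hm]
      rw [integral_prod _ (hVi (τ φ))]
      congr 1
      funext h
      exact integral_mul_right_eq_self (fun g => ‖V t h g‖ ^ 2) (τ φ)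
    · simp only [Set.indicator_of_notMem hm]
      simp
  simp only [e1]
  rw [setIntegral_indicator hQ, Set.inter_eq_right.2 hQ1, setIntegral_const, smul_eq_mul]

end Grp

end KHB

open KHB in
theorem t_KHB : M_KHB := by
  intro hHR hPS N H Φ B Hc E c k hCX μ _ _ ker D₀ b V W Bd Q S hK hD₀ hV hWc hbV hbW hBd hQ hS
    hQ1 hS1
  have hcs : CompactSpace H := isCompact_iff_compactSpace.1 hCX.closed.isCompact
  have hsc : SecondCountableTopology H :=
    inferInstanceAs (SecondCountableTopology ((H : Set (SU N)) : Type))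
  have hri : μ.IsMulRightInvariant := (hHR H μ).1
  obtain ⟨C₀, -, hps⟩ := hPS N H 1 Φ B Hc E c k 3 hCX
  have hτ : Continuous (tt H Hc) := hps.tcont
  set D : ℝ := D₀ * (volume.real Q * volume.real S) ^ ((1 : ℝ) / 7) with hDdef
  have hD : 0 ≤ D := by positivity
  set P : H × H → ℝ := fun x => (a1 (tt H Hc) Q V x * a1 (tt H Hc) S W x) ^ ((4 : ℝ) / 7) *
    (a2 (tt H Hc) Q V x ^ ((3 : ℝ) / 14) * a2 (tt H Hc) S W x ^ ((3 : ℝ) / 14)) with hPdef
  -- one pair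
  have hone : ∀ (Q : Set (Fin 1 → ℝ)) (V : ℝ → H → H → ℂ), MeasurableSet Q → J3 V →
      (∀ t h g, ‖V t h g‖ ≤ b) → ∀ h g : H,
      (∫ t in (0 : ℝ)..1, ∫ θ in Set.Icc (0 : Fin 1 → ℝ) 1,
        ‖uq Hc Q V h g t θ‖ ^ ((14 : ℝ) / 11)) ^ ((11 : ℝ) / 14) ≤
      a1 (tt H Hc) Q V (h, g) ^ ((4 : ℝ) / 7) * a2 (tt H Hc) Q V (h, g) ^ ((3 : ℝ) / 14) := by
    intro Q V hQ hV hb h g
    have hm := (U_meas_right hτ hQ hV (h, g)).norm
    have h1 := interp tm hm (fun z => norm_nonneg _) (U_bd (tt H Hc) Q hb (h, g))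
    rw [int_eq (fun t θ => ‖uq Hc Q V h g t θ‖ ^ ((14 : ℝ) / 11))]
    · exact h1
    · refine Integrable.of_bound (hm.pow_const _).aestronglyMeasurable (b ^ ((14 : ℝ) / 11))
        (ae_of_all _ fun z => ?_)
      rw [Real.norm_of_nonneg (by positivity)]
      exact Real.rpow_le_rpow (norm_nonneg _) (U_bd (tt H Hc) Q hb (h, g) z) (by norm_num)
  have hpt : ∀ h g : H, ‖∫ t in (0 : ℝ)..1, ∫ s in (0 : ℝ)..1,
      ∫ φ in Set.Icc (0 : Fin 1 → ℝ) 1, ∫ θ in Set.Icc (0 : Fin 1 → ℝ) 1,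
        ker (t - s) (θ - φ) * (uq Hc Q V h g s φ * conj (uq Hc S W h g t θ))‖ ≤
      D * P (h, g) := by
    intro h g
    have h1 := hK.bd Q S (uq Hc Q V h g) (uq Hc S W h g) b hQ hS hQ1 hS1
      (U_meas_right hτ hQ hV (h, g)) (fun t θ => U_bd (tt H Hc) Q hbV (h, g) (t, θ))
      (U_meas_right hτ hS hWc (h, g)) (fun t θ => U_bd (tt H Hc) S hbW (h, g) (t, θ))
      (fun t φ hφ => Set.indicator_of_notMem hφ _) (fun t φ hφ => Set.indicator_of_notMem hφ _)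
    refine h1.trans (mul_le_mul_of_nonneg_left ?_ hD)
    refine (mul_le_mul (hone Q V hQ hV hbV h g) (hone S W hS hWc hbW h g)
      (Real.rpow_nonneg (intervalIntegral.integral_nonneg zero_le_one fun t _ =>
        integral_nonneg fun θ => Real.rpow_nonneg (norm_nonneg _) _) _)
      (mul_nonneg (Real.rpow_nonneg (a1_nn _) _) (Real.rpow_nonneg (a2_nn _) _))).trans
        (le_of_eq ?_)
    simp only [hPdef]
    rw [Real.mul_rpow (a1_nn _) (a1_nn _)]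
    ring
  -- measurability and bounds
  have mA : Measurable fun x => a1 (tt H Hc) Q V x * a1 (tt H Hc) S W x :=
    (a1_meas hτ hQ hV).mul (a1_meas hτ hS hWc)
  have nA : ∀ x, 0 ≤ a1 (tt H Hc) Q V x * a1 (tt H Hc) S W x := fun x =>
    mul_nonneg (a1_nn x) (a1_nn x)
  have bA : ∀ x, a1 (tt H Hc) Q V x * a1 (tt H Hc) S W x ≤
      (b * tm.real Set.univ) * (b * tm.real Set.univ) := fun x =>
    mul_le_mul (a1_bd hbV x) (a1_bd hbW x) (a1_nn x)
      ((a1_nn (τ := tt H Hc) (Q := Q) (V := V) x).trans (a1_bd hbV x))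
  have mP : Measurable P := (mA.pow_const _).mul
    (((a2_meas hτ hQ hV).pow_const _).mul ((a2_meas hτ hS hWc).pow_const _))
  have nP : ∀ x, 0 ≤ P x := fun x => mul_nonneg (Real.rpow_nonneg (nA x) _)
    (mul_nonneg (Real.rpow_nonneg (a2_nn _) _) (Real.rpow_nonneg (a2_nn _) _))
  have bP : ∀ x, P x ≤ ((b * tm.real Set.univ) * (b * tm.real Set.univ)) ^ ((4 : ℝ) / 7) *
      ((b ^ 2 * tm.real Set.univ) ^ ((3 : ℝ) / 14) *
        (b ^ 2 * tm.real Set.univ) ^ ((3 : ℝ) / 14)) := by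
    intro x
    refine mul_le_mul (Real.rpow_le_rpow (nA x) (bA x) (by norm_num)) (mul_le_mul
      (Real.rpow_le_rpow (a2_nn _) (a2_bd hbV x) (by norm_num))
      (Real.rpow_le_rpow (a2_nn _) (a2_bd hbW x) (by norm_num))
      (Real.rpow_nonneg (a2_nn _) _) (by positivity))
      (mul_nonneg (Real.rpow_nonneg (a2_nn _) _) (Real.rpow_nonneg (a2_nn _) _))
      (Real.rpow_nonneg ((nA x).trans (bA x)) _)
  have hDP : ∀ x, ‖D * P x‖ ≤ D *
      (((b * tm.real Set.univ) * (b * tm.real Set.univ)) ^ ((4 : ℝ) / 7) *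
      ((b ^ 2 * tm.real Set.univ) ^ ((3 : ℝ) / 14) *
        (b ^ 2 * tm.real Set.univ) ^ ((3 : ℝ) / 14))) := by
    intro x
    rw [Real.norm_of_nonneg (mul_nonneg hD (nP x))]
    exact mul_le_mul_of_nonneg_left (bP x) hD
  have iP : Integrable (fun x => D * P x) ((μ.restrict Bd).prod μ) :=
    Integrable.of_bound (mP.const_mul D).aestronglyMeasurable _ (ae_of_all _ hDP)
  have iPh : ∀ h : H, Integrable (fun g => D * P (h, g)) μ := fun h =>
    Integrable.of_bound ((mP.comp (measurable_const.prodMk measurable_id)).const_mul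
      D).aestronglyMeasurable _ (ae_of_all _ fun g => hDP (h, g))
  have e1 : ∫ x, a1 (tt H Hc) Q V x * a1 (tt H Hc) S W x ∂((μ.restrict Bd).prod μ) =
      ∫ h in Bd, ∫ g, (∫ t in (0 : ℝ)..1, ∫ φ in Q, ‖V t h (g * tt H Hc φ)‖) *
            (∫ t in (0 : ℝ)..1, ∫ θ in S, ‖W t h (g * tt H Hc θ)‖) ∂μ ∂μ := by
    rw [integral_prod]
    · simp only [a1_eq hτ hQ hQ1 hV hbV, a1_eq hτ hS hS1 hWc hbW]
    · refine Integrable.of_bound mA.aestronglyMeasurable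
        ((b * tm.real Set.univ) * (b * tm.real Set.univ)) (ae_of_all _ fun x => ?_)
      rw [Real.norm_of_nonneg (nA x)]
      exact bA x
  have e2 : ∀ (Q : Set (Fin 1 → ℝ)) (V : ℝ → H → H → ℂ), MeasurableSet Q → J3 V →
      (∀ t h g, ‖V t h g‖ ≤ b) → Q ⊆ Set.Icc 0 1 →
      ∫ x, a2 (tt H Hc) Q V x ∂((μ.restrict Bd).prod μ) ≤
        volume.real Q * ∫ t in (0 : ℝ)..1, ∫ h, ∫ g, ‖V t h g‖ ^ 2 ∂μ ∂μ := by
    intro Q V hQ hV hb hQ1
    rw [← a2_int μ hτ hQ hQ1 hV hb]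
    have e3 : (μ.restrict Bd).prod μ = (μ.prod μ).restrict (Bd ×ˢ Set.univ) := by
      rw [← Measure.prod_restrict, Measure.restrict_univ]
    rw [e3]
    refine setIntegral_le_integral ?_ (ae_of_all _ fun x => a2_nn x)
    refine Integrable.of_bound (a2_meas hτ hQ hV).aestronglyMeasurable
      (b ^ 2 * tm.real Set.univ) (ae_of_all _ fun x => ?_)
    rw [Real.norm_of_nonneg (a2_nn x)]
    exact a2_bd hb x
  have n2 : ∀ (Q : Set (Fin 1 → ℝ)) (V : ℝ → H → H → ℂ),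
      0 ≤ ∫ x, a2 (tt H Hc) Q V x ∂((μ.restrict Bd).prod μ) := fun Q V =>
    integral_nonneg fun x => a2_nn x
  rw [← e1]
  calc _ ≤ ∫ h in Bd, ∫ g, D * P (h, g) ∂μ ∂μ :=
        norm_integral_le_of_norm_le iP.integral_prod_left (ae_of_all _ fun h =>
          norm_integral_le_of_norm_le (iPh h) (ae_of_all _ fun g => hpt h g))
    _ = ∫ x, D * P x ∂((μ.restrict Bd).prod μ) := (integral_prod _ iP).symm
    _ = D * ∫ x, P x ∂((μ.restrict Bd).prod μ) := integral_const_mul _ _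
    _ ≤ D * ((∫ x, a1 (tt H Hc) Q V x * a1 (tt H Hc) S W x ∂((μ.restrict Bd).prod μ)) ^
          ((4 : ℝ) / 7) *
        ((∫ x, a2 (tt H Hc) Q V x ∂((μ.restrict Bd).prod μ)) ^ ((3 : ℝ) / 14) *
          (∫ x, a2 (tt H Hc) S W x ∂((μ.restrict Bd).prod μ)) ^ ((3 : ℝ) / 14))) :=
        mul_le_mul_of_nonneg_left (hold4 ((μ.restrict Bd).prod μ) mA (a2_meas hτ hQ hV)
        (a2_meas hτ hS hWc) nA a2_nn a2_nn bA (a2_bd hbV) (a2_bd hbW)) hD
    _ ≤ _ := by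
        refine mul_le_mul_of_nonneg_left ?_ hD
        refine mul_le_mul_of_nonneg_left ?_
          (Real.rpow_nonneg (integral_nonneg fun x => nA x) _)
        exact mul_le_mul (Real.rpow_le_rpow (n2 Q V) (e2 Q V hQ hV hbV hQ1) (by norm_num))
          (Real.rpow_le_rpow (n2 S W) (e2 S W hS hWc hbW hS1) (by norm_num))
          (Real.rpow_nonneg (n2 S W) _)
          (Real.rpow_nonneg ((n2 Q V).trans (e2 Q V hQ hV hbV hQ1)) _)

end

end SPH
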