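import Pool.Agent.SPH.StB
import Pool.Agent.STZ3.KOF

/-!
# The sphere S²: module KLS (helper53)

The localisation of the kernel.
-/

set_option autoImplicit false

namespace SPH

open STZ LGR STZ3 MeasureTheory Matrix Filter

open scoped ComplexConjugate Matrix Real Topology

noncomputable section

namespace KLS

/-- boxes -/
def bx (M : ℕ) : Finset (Fin 1 → ℤ) := Fintype.piFinset fun _ => Finset.Icc (-(M : ℤ)) M

theorem mem_bx {M : ℕ} {l : Fin 1 → ℤ} : l ∈ bx M ↔ |l 0| ≤ M := by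
  unfold bx
  rw [Fintype.mem_piFinset]
  constructor
  · intro h
    exact abs_le.2 (Finset.mem_Icc.1 (h 0))
  · intro h i
    rw [Subsingleton.elim i 0]
    exact Finset.mem_Icc.2 (abs_le.1 h)

theorem mem_ic {M : ℕ} {k : ℤ} : k ∈ Finset.Icc (-(M : ℤ)) M ↔ |k| ≤ M := by
  rw [Finset.mem_Icc, abs_le]

theorem sum_bx (M : ℕ) (f : ℤ → ℂ) :
    ∑ l ∈ bx M, f (l 0) = ∑ k ∈ Finset.Icc (-(M : ℤ)) M, f k := by
  refine Finset.sum_nbij' (fun l => l 0) (fun k _ => k) ?_ ?_ ?_ ?_ ?_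
  · intro l hl
    exact mem_ic.2 (mem_bx.1 hl)
  · intro k hk
    exact mem_bx.2 (mem_ic.1 hk)
  · intro l _
    funext i
    rw [Subsingleton.elim i 0]
  · intro k _
    rfl
  · intro l _
    rfl

theorem shift (f : ℤ → ℂ) (A B : Finset ℤ) (c : ℤ) (hA : ∀ l, f (l + c) ≠ 0 → l ∈ A)
    (hB : ∀ l, f l ≠ 0 → l ∈ B) : ∑ l ∈ A, f (l + c) = ∑ l ∈ B, f l := by
  rw [← finsum_eq_sum_of_support_subset (fun l => f (l + c)) (s := A) (fun l hl => hA l hl),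
    ← finsum_eq_sum_of_support_subset f (s := B) (fun l hl => hB l hl)]
  exact finsum_comp_equiv (Equiv.addRight c)

/-- the exponential -/
def ex (l : ℤ) (z : ℂ) : ℂ := Complex.exp (2 * π * Complex.I * (l * z))

theorem ex_add (a b : ℤ) (z : ℂ) : ex (a + b) z = ex a z * ex b z := by
  unfold ex
  rw [← Complex.exp_add]
  congr 1
  push_cast
  ring

theorem norm_ex (l : ℤ) (z : ℂ) : ‖ex l z‖ = Real.exp (-(2 * π * l * z.im)) := by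
  unfold ex
  rw [Complex.norm_exp]
  congr 1
  have h : (2 * (π : ℂ) * Complex.I * ((l : ℂ) * z)) =
      (((2 * π * l : ℝ) : ℂ) * z) * Complex.I := by
    push_cast
    ring
  rw [h, Complex.mul_I_re, Complex.im_ofReal_mul]

/-- the points `z_±` -/
def zz (t a : ℝ) : ℂ := (t : ℂ) - ((a / (2 * π) : ℝ) : ℂ) * Complex.I

theorem ex_zz (ν : ℤ) (t a : ℝ) :
    ex ν (zz t a) = ((Real.exp (a * ν) : ℝ) : ℂ) * eu (ν * t) := by
  unfold ex zz eu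
  rw [Complex.ofReal_exp, ← Complex.exp_add]
  congr 1
  have hπ : (π : ℂ) ≠ 0 := by exact_mod_cast Real.pi_ne_zero
  push_cast
  field_simp
  ring_nf
  rw [Complex.I_sq]
  ring

theorem zz_im (t a : ℝ) : (zz t a).im = -(a / (2 * π)) := by
  unfold zz
  rw [Complex.sub_im, Complex.ofReal_im, Complex.im_ofReal_mul, Complex.I_im]
  ring

theorem zz_re (t a : ℝ) : (zz t a).re = t := by
  unfold zz
  rw [Complex.sub_re, Complex.ofReal_re, Complex.re_ofReal_mul, Complex.I_re]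
  ring

theorem gS_norm (e X : ℕ) (t : ℝ) (l : ℤ) : ‖gS e X t l‖ ≤ 1 := by
  unfold gS qS
  split_ifs
  · rw [Complex.ofReal_one, one_mul, KOF.norm_eu]
  · simp

theorem gS_supp {e X : ℕ} {t : ℝ} {l : ℤ} (h : gS e X t l ≠ 0) : |l| ≤ X := by
  by_contra h0
  apply h
  unfold gS qS
  rw [if_neg (fun h1 => h0 h1.2.2)]
  simp

/-- the theta function -/
def Th (e J : ℕ) (τ : ℝ) (z : ℂ) : ℂ :=
  ∑ l ∈ Finset.Icc (-((2 ^ J : ℕ) : ℤ)) ((2 ^ J : ℕ) : ℤ), gS e (2 ^ J) τ l * ex l z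

theorem Th_le (e J : ℕ) (τ : ℝ) (z : ℂ) (hz : |z.im| ≤ 2 / 2 ^ J) :
    ‖Th e J τ z‖ ≤ 3 * 2 ^ J * Real.exp (4 * π) := by
  unfold Th
  have h1 : ∀ l ∈ Finset.Icc (-((2 ^ J : ℕ) : ℤ)) ((2 ^ J : ℕ) : ℤ),
      ‖gS e (2 ^ J) τ l * ex l z‖ ≤ Real.exp (4 * π) := by
    intro l hl
    have hl' := mem_ic.1 hl
    rw [norm_mul, norm_ex]
    refine (mul_le_of_le_one_left (Real.exp_pos _).le (gS_norm _ _ _ _)).trans ?_
    refine Real.exp_le_exp.2 ?_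
    have h4 : |(l : ℝ)| ≤ 2 ^ J := by
      have h5 : ((|l| : ℤ) : ℝ) ≤ (((2 ^ J : ℕ) : ℤ) : ℝ) := by exact_mod_cast hl'
      push_cast at h5
      exact h5
    have h5 : |(l : ℝ)| * |z.im| ≤ 2 := by
      calc |(l : ℝ)| * |z.im| ≤ 2 ^ J * (2 / 2 ^ J) :=
            mul_le_mul h4 hz (abs_nonneg _) (by positivity)
        _ = 2 := by field_simp
    have h3 := neg_abs_le ((l : ℝ) * z.im)
    rw [abs_mul] at h3
    have h6 : -((l : ℝ) * z.im) ≤ 2 := by linarith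
    have h7 := mul_le_mul_of_nonneg_left h6 (by positivity : (0 : ℝ) ≤ 2 * π)
    linarith
  refine (norm_sum_le_of_le _ h1).trans ?_
  rw [Finset.sum_const, nsmul_eq_mul]
  refine mul_le_mul_of_nonneg_right ?_ (Real.exp_pos _).le
  have h6 : (1 : ℝ) ≤ 2 ^ J := one_le_pow₀ (by norm_num)
  have h7 : (Finset.Icc (-((2 ^ J : ℕ) : ℤ)) ((2 ^ J : ℕ) : ℤ)).card = 2 * 2 ^ J + 1 := by
    rw [Int.card_Icc]
    obtain ⟨X, hX⟩ : ∃ X : ℕ, X = 2 ^ J := ⟨_, rfl⟩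
    rw [← hX]
    omega
  rw [h7]
  push_cast
  linarith

/-- the sum over the frequencies -/
def NN (m Y x e J : ℕ) (τ : ℝ) (M : ℕ) (z : ℂ) : ℂ :=
  ∑ ν ∈ Finset.Icc (-(M : ℤ)) M, nS m Y x e J τ ν * ex ν z

theorem NN_eq {m Y x e J : ℕ} {τ : ℝ} {C₁ : ℝ} (hC : CSF m C₁) (hx : x ≤ Y)
    (hK : 32 * KS m Y ≤ 2 ^ J) {M : ℕ} (hM : 2 * 2 ^ J ≤ M) (z : ℂ) :
    NN m Y x e J τ M z = 2 * (fS m Y x (2 * z) * Th e J τ z) := by
  unfold NN nS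
  have h1 : ∀ k ∈ Finset.Icc (-(KS m Y : ℤ)) (KS m Y),
      ∑ ν ∈ Finset.Icc (-(M : ℤ)) M, gS e (2 ^ J) τ (ν - 2 * k) * ex ν z =
        ex (2 * k) z * Th e J τ z := by
    intro k hk
    have hk' := mem_ic.1 hk
    have h2 := shift (fun l => gS e (2 ^ J) τ l * ex (l + 2 * k) z) (Finset.Icc (-(M : ℤ)) M)
      (Finset.Icc (-((2 ^ J : ℕ) : ℤ)) ((2 ^ J : ℕ) : ℤ)) (-(2 * k))
      (fun ν hν => by
        have h3 := gS_supp (left_ne_zero_of_mul hν)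
        rw [mem_ic]
        obtain ⟨X, hX⟩ : ∃ X : ℕ, X = 2 ^ J := ⟨_, rfl⟩
        rw [← hX] at h3 hK hM
        have h4 := abs_le.1 h3
        have h5 := abs_le.1 hk'
        rw [abs_le]
        constructor
        · omega
        · omega)
      (fun l hl => mem_ic.2 (gS_supp (left_ne_zero_of_mul hl)))
    calc ∑ ν ∈ Finset.Icc (-(M : ℤ)) M, gS e (2 ^ J) τ (ν - 2 * k) * ex ν z
        = ∑ ν ∈ Finset.Icc (-(M : ℤ)) M,
            gS e (2 ^ J) τ (ν + -(2 * k)) * ex (ν + -(2 * k) + 2 * k) z := by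
          refine Finset.sum_congr rfl fun ν _ => ?_
          rw [neg_add_cancel_right, sub_eq_add_neg]
      _ = ∑ l ∈ Finset.Icc (-((2 ^ J : ℕ) : ℤ)) ((2 ^ J : ℕ) : ℤ),
            gS e (2 ^ J) τ l * ex (l + 2 * k) z := h2
      _ = ex (2 * k) z * Th e J τ z := by
          unfold Th
          rw [Finset.mul_sum]
          refine Finset.sum_congr rfl fun l _ => ?_
          rw [ex_add]
          ring
  have hKx : 2 * m ^ 2 * 2 ^ x + 2 * m + 1 ≤ KS m Y := by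
    unfold KS
    have h2 : 2 ^ x ≤ 2 ^ Y := Nat.pow_le_pow_right (by norm_num) hx
    have h3 := Nat.mul_le_mul_left (2 * m ^ 2) h2
    omega
  calc ∑ ν ∈ Finset.Icc (-(M : ℤ)) M, (2 * ∑ k ∈ Finset.Icc (-(KS m Y : ℤ)) (KS m Y),
          cS m Y x k * gS e (2 ^ J) τ (ν - 2 * k)) * ex ν z
      = 2 * ∑ k ∈ Finset.Icc (-(KS m Y : ℤ)) (KS m Y), cS m Y x k *
          ∑ ν ∈ Finset.Icc (-(M : ℤ)) M, gS e (2 ^ J) τ (ν - 2 * k) * ex ν z := by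
        simp only [Finset.mul_sum, Finset.sum_mul]
        rw [Finset.sum_comm]
        refine Finset.sum_congr rfl fun k _ => Finset.sum_congr rfl fun ν _ => ?_
        ring
    _ = 2 * ∑ k ∈ Finset.Icc (-(KS m Y : ℤ)) (KS m Y), cS m Y x k *
          (ex (2 * k) z * Th e J τ z) := by
        congr 1
        exact Finset.sum_congr rfl fun k hk => by rw [h1 k hk]
    _ = 2 * ((∑ k ∈ Finset.Icc (-(KS m Y : ℤ)) (KS m Y), cS m Y x k *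
          Complex.exp (2 * π * Complex.I * k * (2 * z))) * Th e J τ z) := by
        rw [Finset.sum_mul]
        congr 1
        refine Finset.sum_congr rfl fun k _ => ?_
        have h2 : ex (2 * k) z = Complex.exp (2 * π * Complex.I * k * (2 * z)) := by
          unfold ex
          congr 1
          push_cast
          ring
        rw [h2]
        ring
    _ = _ := by rw [hC.ex Y x (KS m Y) (2 * z) hx hKx]

/-- the derivative -/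
def N1 (m Y x e J : ℕ) (τ : ℝ) (M : ℕ) (z : ℂ) : ℂ :=
  ∑ ν ∈ Finset.Icc (-(M : ℤ)) M, (ν : ℂ) * (nS m Y x e J τ ν * ex ν z)

/-- the root -/
def P0 : Finset ((Fin 1 → ℤ) × (Fin 1 → ℤ)) := {((fun _ => 0), fun _ => 1)}

theorem ES_N1 (m Y x e J : ℕ) (τ : ℝ) (M : ℕ) (z : ℂ) :
    ES (bx M) (fun ν => (∏ p ∈ P0, ((p.2 ⬝ᵥ ν : ℤ) : ℂ)) * nS m Y x e J τ (ν 0)) (fun _ => z) =
      N1 m Y x e J τ M z := by
  unfold ES N1
  rw [← sum_bx M (fun k => (k : ℂ) * (nS m Y x e J τ k * ex k z))]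
  refine Finset.sum_congr rfl fun ν _ => ?_
  have h1 : ((fun _ => 1 : Fin 1 → ℤ) ⬝ᵥ ν) = ν 0 := by
    simp [dotProduct]
  have h2 : (∑ i : Fin 1, (ν i : ℂ) * z) = (ν 0 : ℂ) * z := by
    simp
  have h3 : (∏ p ∈ P0, ((p.2 ⬝ᵥ ν : ℤ) : ℂ)) = ((ν 0 : ℤ) : ℂ) := by
    unfold P0
    rw [Finset.prod_singleton, h1]
  show (∏ p ∈ P0, ((p.2 ⬝ᵥ ν : ℤ) : ℂ)) * nS m Y x e J τ (ν 0) *
    Complex.exp (2 * π * Complex.I * ∑ i : Fin 1, (ν i : ℂ) * z) = _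
  unfold ex
  rw [h2, h3]
  ring

theorem ES_NN (m Y x e J : ℕ) (τ : ℝ) (M : ℕ) (ζ : Fin 1 → ℂ) :
    ES (bx M) (fun ν => nS m Y x e J τ (ν 0)) ζ = NN m Y x e J τ M (ζ 0) := by
  unfold ES NN
  rw [← sum_bx M (fun k => nS m Y x e J τ k * ex k (ζ 0))]
  refine Finset.sum_congr rfl fun ν _ => ?_
  unfold ex
  have h2 : (∑ i : Fin 1, (ν i : ℂ) * ζ i) = (ν 0 : ℂ) * ζ 0 := by
    simp
  rw [h2]

/-- the statement of CAUC for the root -/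
def CA (Cc : ℝ) : Prop :=
  ∀ (T : Finset (Fin 1 → ℤ)) (b : (Fin 1 → ℤ) → ℂ) (ζ₀ : Fin 1 → ℂ) (ρ B : ℝ), 0 < ρ → 0 ≤ B →
    (∀ ζ : Fin 1 → ℂ, (∀ i, ‖ζ i - ζ₀ i‖ ≤ ρ) → ‖ES T b ζ‖ ≤ B) →
    ‖ES T (fun ν => (∏ p ∈ P0, ((p.2 ⬝ᵥ ν : ℤ) : ℂ)) * b ν) ζ₀‖ ≤ (Cc / ρ) ^ P0.card * B

theorem N1_le {m Y x e J : ℕ} {τ : ℝ} {C₁ Cc F : ℝ} (hCA : CA Cc) (hC : CSF m C₁) (hx : x ≤ Y)
    (hK : 32 * KS m Y ≤ 2 ^ J) {M : ℕ} (hM : 2 * 2 ^ J ≤ M) {z : ℂ} (hz : |z.im| ≤ 1 / 2 ^ J)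
    (hF : 0 ≤ F) (h : ∀ ζ : ℂ, ‖ζ - z‖ ≤ 1 / 2 ^ J → ‖fS m Y x (2 * ζ)‖ ≤ F) :
    ‖N1 m Y x e J τ M z‖ ≤ Cc * 2 ^ J * (2 * (F * (3 * 2 ^ J * Real.exp (4 * π)))) := by
  have h1 := hCA (bx M) (fun ν => nS m Y x e J τ (ν 0)) (fun _ => z) (1 / 2 ^ J)
    (2 * (F * (3 * 2 ^ J * Real.exp (4 * π)))) (by positivity) (by positivity)
    (fun ζ hζ => by
      have h0 := hζ 0
      rw [ES_NN, NN_eq hC hx hK hM, norm_mul, norm_mul]
      have h2 : ‖(2 : ℂ)‖ = 2 := by simp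
      rw [h2]
      refine mul_le_mul_of_nonneg_left ?_ (by norm_num)
      refine mul_le_mul (h _ h0) (Th_le e J τ _ ?_) (norm_nonneg _) hF
      have h3 : |(ζ 0 - z).im| ≤ 1 / 2 ^ J := (Complex.abs_im_le_norm _).trans h0
      have h4 : (ζ 0).im = (ζ 0 - z).im + z.im := by
        rw [Complex.sub_im]
        ring
      rw [h4]
      refine (abs_add_le _ _).trans ?_
      have h5 : (2 : ℝ) / 2 ^ J = 1 / 2 ^ J + 1 / 2 ^ J := by ring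
      rw [h5]
      exact add_le_add h3 hz)
  rw [ES_N1] at h1
  refine h1.trans (le_of_eq ?_)
  have h6 : P0.card = 1 := Finset.card_singleton _
  rw [h6, pow_one]
  congr 1
  field_simp

/-- the kernel -/
theorem km_eq {Φ : RT 1} (hΦ : R1F Φ) {m Y x e J : ℕ} {T : Finset (Fin 1 → ℤ)}
    (hT : ∀ τ l, aS Φ m Y x e J τ l ≠ 0 → l ∈ T)
    (hn : ∀ τ ν, nS m Y x e J τ ν ≠ 0 → |ν| ≤ 2 * 2 ^ J) (τ : ℝ) (θ : Fin 1 → ℝ) :
    km (aS Φ m Y x e J) T (fun _ => 1) τ θ =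
      (((Real.exp (-(4 * (1 / 2 ^ (x + J)))) : ℝ) : ℂ) * eu (-θ 0) *
          N1 m Y x e J τ (2 * 2 ^ J + 2) (zz (θ 0) (4 * (1 / 2 ^ (x + J)))) -
        ((Real.exp (-(4 * (1 / 2 ^ (x + J)))) : ℝ) : ℂ) * eu (θ 0) *
          N1 m Y x e J τ (2 * 2 ^ J + 2) (zz (θ 0) (-(4 * (1 / 2 ^ (x + J)))))) / 2 := by
  classical
  obtain ⟨ϑ, hϑ⟩ : ∃ ϑ : ℝ, ϑ = 1 / 2 ^ (x + J) := ⟨_, rfl⟩
  rw [← hϑ]
  obtain ⟨M, hM⟩ : ∃ M : ℕ, M = 2 * 2 ^ J + 2 := ⟨_, rfl⟩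
  rw [← hM]
  have hMz : (M : ℤ) = 2 * 2 ^ J + 2 := by
    rw [hM]
    push_cast
    ring
  have haS : ∀ (τ : ℝ) (l : Fin 1 → ℤ), aS Φ m Y x e J τ l =
      (((Real.exp (4 * ϑ * l 0) * (l 0 + 1) : ℝ) : ℂ) * nS m Y x e J τ (l 0 + 1) -
        ((Real.exp (-(4 * ϑ * l 0)) * (l 0 - 1) : ℝ) : ℂ) * nS m Y x e J τ (l 0 - 1)) / 2 := by
    intro τ l
    unfold aS
    rw [hΦ.lm, ← hϑ]
    rfl
  have hbx : ∀ (τ : ℝ) (l : Fin 1 → ℤ), aS Φ m Y x e J τ l ≠ 0 → l ∈ bx M := by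
    intro τ l hl
    rw [mem_bx, hMz]
    by_contra h0
    apply hl
    have h1 : nS m Y x e J τ (l 0 + 1) = 0 := by
      by_contra h2
      have h3 := abs_le.1 (hn τ _ h2)
      apply h0
      rw [abs_le]
      constructor
      · linarith [h3.1]
      · linarith [h3.2]
    have h2 : nS m Y x e J τ (l 0 - 1) = 0 := by
      by_contra h2
      have h3 := abs_le.1 (hn τ _ h2)
      apply h0
      rw [abs_le]
      constructor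
      · linarith [h3.1]
      · linarith [h3.2]
    rw [haS, h1, h2]
    simp
  have e1 : km (aS Φ m Y x e J) T (fun _ => 1) τ θ =
      km (aS Φ m Y x e J) (bx M) (fun _ => 1) τ θ := by
    rw [KOF.km_mono hT (Finset.subset_union_left (s₂ := bx M)),
      KOF.km_mono hbx (Finset.subset_union_right (s₁ := T))]
  rw [e1]
  unfold km
  have e2 : ∀ l : Fin 1 → ℤ, dz l θ = (l 0 : ℝ) * θ 0 := by
    intro l
    unfold dz
    simp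
  have e3 : ∑ l ∈ bx M, aS Φ m Y x e J τ l * ((1 : ℝ) : ℂ) * eu (dz l θ) =
      ∑ l ∈ bx M, (fun k : ℤ => (((Real.exp (4 * ϑ * k) * (k + 1) : ℝ) : ℂ) *
        nS m Y x e J τ (k + 1) - ((Real.exp (-(4 * ϑ * k)) * (k - 1) : ℝ) : ℂ) *
          nS m Y x e J τ (k - 1)) / 2 * eu (k * θ 0)) (l 0) := by
    refine Finset.sum_congr rfl fun l _ => ?_
    rw [haS, e2, Complex.ofReal_one, mul_one]
  rw [e3, sum_bx M (fun k : ℤ => (((Real.exp (4 * ϑ * k) * (k + 1) : ℝ) : ℂ) *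
        nS m Y x e J τ (k + 1) - ((Real.exp (-(4 * ϑ * k)) * (k - 1) : ℝ) : ℂ) *
          nS m Y x e J τ (k - 1)) / 2 * eu (k * θ 0))]
  have s1 := shift (fun ν : ℤ => (ν : ℂ) * nS m Y x e J τ ν *
    (((Real.exp (4 * ϑ * (ν - 1)) : ℝ) : ℂ) * eu ((ν - 1) * θ 0)))
    (Finset.Icc (-(M : ℤ)) M) (Finset.Icc (-(M : ℤ)) M) 1
    (fun l hl => by
      have h2 := right_ne_zero_of_mul (left_ne_zero_of_mul hl)
      have h3 := abs_le.1 (hn τ _ h2)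
      rw [mem_ic, hMz, abs_le]
      constructor
      · linarith [h3.1]
      · linarith [h3.2])
    (fun l hl => by
      have h2 := right_ne_zero_of_mul (left_ne_zero_of_mul hl)
      have h3 := hn τ _ h2
      rw [mem_ic, hMz]
      linarith)
  have s2 := shift (fun ν : ℤ => (ν : ℂ) * nS m Y x e J τ ν *
    (((Real.exp (-(4 * ϑ * (ν + 1))) : ℝ) : ℂ) * eu ((ν + 1) * θ 0)))
    (Finset.Icc (-(M : ℤ)) M) (Finset.Icc (-(M : ℤ)) M) (-1)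
    (fun l hl => by
      have h2 := right_ne_zero_of_mul (left_ne_zero_of_mul hl)
      have h3 := abs_le.1 (hn τ _ h2)
      rw [mem_ic, hMz, abs_le]
      constructor
      · linarith [h3.1]
      · linarith [h3.2])
    (fun l hl => by
      have h2 := right_ne_zero_of_mul (left_ne_zero_of_mul hl)
      have h3 := hn τ _ h2
      rw [mem_ic, hMz]
      linarith)
  have t1 : ∑ ν ∈ Finset.Icc (-(M : ℤ)) M, (ν : ℂ) * nS m Y x e J τ ν *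
      (((Real.exp (4 * ϑ * (ν - 1)) : ℝ) : ℂ) * eu ((ν - 1) * θ 0)) =
      ((Real.exp (-(4 * ϑ)) : ℝ) : ℂ) * eu (-θ 0) * N1 m Y x e J τ M (zz (θ 0) (4 * ϑ)) := by
    unfold N1
    rw [Finset.mul_sum]
    refine Finset.sum_congr rfl fun ν _ => ?_
    have h1 : Real.exp (4 * ϑ * (ν - 1)) = Real.exp (-(4 * ϑ)) * Real.exp (4 * ϑ * ν) := by
      rw [← Real.exp_add]
      congr 1
      ring
    have h2 : eu (((ν : ℝ) - 1) * θ 0) = eu (-θ 0) * eu (ν * θ 0) := by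
      rw [← KOF.eu_add]
      congr 1
      ring
    rw [ex_zz, h1, h2, Complex.ofReal_mul]
    ring
  have t2 : ∑ ν ∈ Finset.Icc (-(M : ℤ)) M, (ν : ℂ) * nS m Y x e J τ ν *
      (((Real.exp (-(4 * ϑ * (ν + 1))) : ℝ) : ℂ) * eu ((ν + 1) * θ 0)) =
      ((Real.exp (-(4 * ϑ)) : ℝ) : ℂ) * eu (θ 0) * N1 m Y x e J τ M (zz (θ 0) (-(4 * ϑ))) := by
    unfold N1
    rw [Finset.mul_sum]
    refine Finset.sum_congr rfl fun ν _ => ?_
    have h1 : Real.exp (-(4 * ϑ * (ν + 1))) = Real.exp (-(4 * ϑ)) * Real.exp (-(4 * ϑ) * ν) := by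
      rw [← Real.exp_add]
      congr 1
      ring
    have h2 : eu (((ν : ℝ) + 1) * θ 0) = eu (θ 0) * eu (ν * θ 0) := by
      rw [← KOF.eu_add]
      congr 1
      ring
    rw [ex_zz, h1, h2, Complex.ofReal_mul]
    ring
  rw [← t1, ← t2, ← s1, ← s2, ← Finset.sum_sub_distrib, Finset.sum_div]
  refine Finset.sum_congr rfl fun k _ => ?_
  have c1 : ((k + 1 : ℤ) : ℝ) - 1 = k := by
    push_cast
    ring
  have c2 : ((k + -1 : ℤ) : ℝ) + 1 = k := by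
    push_cast
    ring
  rw [c1, c2, ← sub_eq_add_neg]
  push_cast
  ring

theorem km_le {Φ : RT 1} (hΦ : R1F Φ) {m Y x e J : ℕ} {T : Finset (Fin 1 → ℤ)} {C₁ Cc F : ℝ}
    (hCA : CA Cc) (hC : CSF m C₁) (hx : x ≤ Y) (hK : 32 * KS m Y ≤ 2 ^ J)
    (hT : ∀ τ l, aS Φ m Y x e J τ l ≠ 0 → l ∈ T)
    (hn : ∀ τ ν, nS m Y x e J τ ν ≠ 0 → |ν| ≤ 2 * 2 ^ J) (τ : ℝ) (θ : Fin 1 → ℝ) (hF : 0 ≤ F)
    (h : ∀ ζ : ℂ, |ζ.re - θ 0| ≤ 1 / 2 ^ J → |ζ.im| ≤ 2 / 2 ^ J → ‖fS m Y x (2 * ζ)‖ ≤ F) :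
    ‖km (aS Φ m Y x e J) T (fun _ => 1) τ θ‖ ≤
      Cc * 2 ^ J * (2 * (F * (3 * 2 ^ J * Real.exp (4 * π)))) := by
  rw [km_eq hΦ hT hn]
  have hϑ : (0 : ℝ) < 1 / 2 ^ (x + J) := by positivity
  have hϑ1 : (1 : ℝ) / 2 ^ (x + J) ≤ 1 / 2 ^ J :=
    one_div_le_one_div_of_le (by positivity) (pow_le_pow_right₀ (by norm_num) (by omega))
  obtain ⟨ϑ, hdef⟩ : ∃ ϑ : ℝ, ϑ = 1 / 2 ^ (x + J) := ⟨_, rfl⟩
  rw [← hdef] at hϑ hϑ1 ⊢
  have hN : ∀ a : ℝ, |a| = 4 * ϑ → ‖N1 m Y x e J τ (2 * 2 ^ J + 2) (zz (θ 0) a)‖ ≤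
      Cc * 2 ^ J * (2 * (F * (3 * 2 ^ J * Real.exp (4 * π)))) := by
    intro a ha
    have hz : |(zz (θ 0) a).im| ≤ 1 / 2 ^ J := by
      rw [zz_im, abs_neg, abs_div, ha, abs_of_pos (by positivity : (0 : ℝ) < 2 * π)]
      refine le_trans ?_ hϑ1
      rw [div_le_iff₀ (by positivity)]
      have := Real.pi_gt_three
      nlinarith
    refine N1_le hCA hC hx hK (by omega) hz hF fun ζ hζ => h ζ ?_ ?_
    · have h1 := (Complex.abs_re_le_norm (ζ - zz (θ 0) a)).trans hζ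
      rwa [Complex.sub_re, zz_re] at h1
    · have h1 := (Complex.abs_im_le_norm (ζ - zz (θ 0) a)).trans hζ
      have h2 : ζ.im = (ζ - zz (θ 0) a).im + (zz (θ 0) a).im := by
        rw [Complex.sub_im]
        ring
      rw [h2]
      refine (abs_add_le _ _).trans ?_
      have h5 : (2 : ℝ) / 2 ^ J = 1 / 2 ^ J + 1 / 2 ^ J := by ring
      rw [h5]
      exact add_le_add h1 hz
  have hE : ∀ (t : ℝ) (w : ℂ), ‖((Real.exp (-(4 * ϑ)) : ℝ) : ℂ) * eu t * w‖ ≤ ‖w‖ := by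
    intro t w
    rw [norm_mul, norm_mul, KOF.norm_eu, mul_one, Complex.norm_of_nonneg (Real.exp_pos _).le]
    refine mul_le_of_le_one_left (norm_nonneg _) ?_
    rw [Real.exp_le_one_iff]
    linarith
  have h1 := hN (4 * ϑ) (abs_of_pos (by positivity))
  have h2 := hN (-(4 * ϑ)) (by rw [abs_neg, abs_of_pos (by positivity)])
  rw [norm_div, Complex.norm_ofNat, div_le_iff₀ (by norm_num)]
  refine (norm_sub_le _ _).trans ?_
  have h3 := (hE (-θ 0) (N1 m Y x e J τ (2 * 2 ^ J + 2) (zz (θ 0) (4 * ϑ)))).trans h1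
  have h4 := (hE (θ 0) (N1 m Y x e J τ (2 * 2 ^ J + 2) (zz (θ 0) (-(4 * ϑ))))).trans h2
  linarith

/-- the cutoff outside of the shell -/
theorem fS_out {m J Y x : ℕ} {ε Cb : ℝ} (hCb : 0 ≤ Cb) (hε : 0 < ε) (hx : x ≤ Y)
    (hY : (Y : ℝ) ≤ (1 - ε) * J)
    (hB : ∀ z : ℂ, |z.im| ≤ 4 / 2 ^ J → ‖fS m Y x z‖ * (1 + 2 ^ x * nd z.re) ^ (2 * m) ≤ Cb ∧
      (x < Y → ‖fS m Y x z‖ ≤ Cb * (2 ^ x * (nd z.re + 1 / 2 ^ J)) ^ (2 * m)) ∧
      ‖fS m Y x z‖ ≤ Cb * (nd (z.re - 1 / 2) + 1 / 2 ^ J) ^ (2 * m))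
    {θ : Fin 1 → ℝ} (hθ : θ ∉ sS ε J Y x) {ζ : ℂ} (h1 : |ζ.re - θ 0| ≤ 1 / 2 ^ J)
    (h2 : |ζ.im| ≤ 2 / 2 ^ J) :
    ‖fS m Y x (2 * ζ)‖ ≤ Cb * (4 * (2 : ℝ) ^ (-(ε * J))) ^ (2 * m) := by
  have hJ0 : (0 : ℝ) ≤ J := Nat.cast_nonneg _
  have hE : (0 : ℝ) < (2 : ℝ) ^ (-(ε * J)) := Real.rpow_pos_of_pos (by norm_num) _
  have hE' : (0 : ℝ) < (2 : ℝ) ^ (ε * J) := Real.rpow_pos_of_pos (by norm_num) _
  have hEE : (2 : ℝ) ^ (-(ε * J)) * (2 : ℝ) ^ (ε * J) = 1 := by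
    rw [← Real.rpow_add (by norm_num), neg_add_cancel, Real.rpow_zero]
  have hE1 : (2 : ℝ) ^ (-(ε * J)) ≤ 1 := by
    refine Real.rpow_le_one_of_one_le_of_nonpos (by norm_num) ?_
    have := mul_nonneg hε.le hJ0
    linarith
  have h2x : (0 : ℝ) < 2 ^ x := by positivity
  have h2J : (0 : ℝ) < 2 ^ J := by positivity
  have hxJ : (2 : ℝ) ^ x * (1 / 2 ^ J) ≤ (2 : ℝ) ^ (-(ε * J)) := by
    rw [mul_one_div, div_le_iff₀ h2J, ← Real.rpow_natCast, ← Real.rpow_natCast,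
      ← Real.rpow_add (by norm_num)]
    refine Real.rpow_le_rpow_of_exponent_le (by norm_num) ?_
    have : (x : ℝ) ≤ Y := by exact_mod_cast hx
    linarith
  have h1J : (1 : ℝ) / 2 ^ J ≤ (2 : ℝ) ^ (-(ε * J)) := by
    refine le_trans ?_ hxJ
    exact le_mul_of_one_le_left (by positivity) (one_le_pow₀ (by norm_num))
  have him : |(2 * ζ).im| ≤ 4 / 2 ^ J := by
    have e : (2 * ζ).im = 2 * ζ.im := by simp
    rw [e, abs_mul, abs_two]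
    calc 2 * |ζ.im| ≤ 2 * (2 / 2 ^ J) := mul_le_mul_of_nonneg_left h2 (by norm_num)
      _ = 4 / 2 ^ J := by ring
  have hre : (2 * ζ).re = 2 * θ 0 + 2 * (ζ.re - θ 0) := by
    have e : (2 * ζ).re = 2 * ζ.re := by simp
    rw [e]
    ring
  have hd : |2 * (ζ.re - θ 0)| ≤ 2 * (1 / 2 ^ J) := by
    rw [abs_mul, abs_two]
    exact mul_le_mul_of_nonneg_left h1 (by norm_num)
  obtain ⟨b1, b2, b3⟩ := hB (2 * ζ) him
  rw [hre] at b1 b2 b3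
  have hmem : ¬ (nd (2 * θ 0) ≤ (2 : ℝ) ^ (ε * J) / 2 ^ x ∧
    (x < Y → (2 : ℝ) ^ (-(ε * J)) / 2 ^ x ≤ nd (2 * θ 0) ∧
      (2 : ℝ) ^ (-(ε * J)) ≤ nd (2 * θ 0 - 1 / 2))) := hθ
  by_cases c1 : nd (2 * θ 0) ≤ (2 : ℝ) ^ (ε * J) / 2 ^ x
  · have c2 : x < Y ∧ (nd (2 * θ 0) < (2 : ℝ) ^ (-(ε * J)) / 2 ^ x ∨
        nd (2 * θ 0 - 1 / 2) < (2 : ℝ) ^ (-(ε * J))) := by
      by_contra hcon
      apply hmem
      refine ⟨c1, fun hxY => ⟨?_, ?_⟩⟩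
      · by_contra h3
        exact hcon ⟨hxY, Or.inl (not_le.1 h3)⟩
      · by_contra h3
        exact hcon ⟨hxY, Or.inr (not_le.1 h3)⟩
    obtain ⟨hxY, c3⟩ := c2
    rcases c3 with c3 | c3
    · refine (b2 hxY).trans (mul_le_mul_of_nonneg_left (pow_le_pow_left₀ ?_ ?_ _) hCb)
      · have := KOF.nd_nn (2 * θ 0 + 2 * (ζ.re - θ 0))
        positivity
      · have h3 := KOF.nd_lip (2 * θ 0) (2 * (ζ.re - θ 0))
        rw [lt_div_iff₀ h2x] at c3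
        have h4 : (2 : ℝ) ^ x * (nd (2 * θ 0 + 2 * (ζ.re - θ 0)) + 1 / 2 ^ J) ≤
            2 ^ x * (nd (2 * θ 0) + 3 * (1 / 2 ^ J)) :=
          mul_le_mul_of_nonneg_left (by linarith) h2x.le
        have h5 : (2 : ℝ) ^ x * (nd (2 * θ 0) + 3 * (1 / 2 ^ J)) =
            nd (2 * θ 0) * 2 ^ x + 3 * (2 ^ x * (1 / 2 ^ J)) := by ring
        linarith
    · refine b3.trans (mul_le_mul_of_nonneg_left (pow_le_pow_left₀ ?_ ?_ _) hCb)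
      · have := KOF.nd_nn (2 * θ 0 + 2 * (ζ.re - θ 0) - 1 / 2)
        positivity
      · have h3 := KOF.nd_lip (2 * θ 0 - 1 / 2) (2 * (ζ.re - θ 0))
        have h4 : 2 * θ 0 + 2 * (ζ.re - θ 0) - 1 / 2 = 2 * θ 0 - 1 / 2 + 2 * (ζ.re - θ 0) := by
          ring
        rw [h4]
        linarith
  · rw [not_le, div_lt_iff₀ h2x] at c1
    have h3 := KOF.nd_lip' (2 * θ 0) (2 * (ζ.re - θ 0))
    have h4 : (2 : ℝ) ^ (ε * J) / 2 ≤ 1 + 2 ^ x * nd (2 * θ 0 + 2 * (ζ.re - θ 0)) := by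
      have h5 : (2 : ℝ) ^ x * (nd (2 * θ 0) - 2 * (1 / 2 ^ J)) ≤
          2 ^ x * nd (2 * θ 0 + 2 * (ζ.re - θ 0)) :=
        mul_le_mul_of_nonneg_left (by linarith) h2x.le
      have h6 : (2 : ℝ) ^ x * (nd (2 * θ 0) - 2 * (1 / 2 ^ J)) =
          nd (2 * θ 0) * 2 ^ x - 2 * (2 ^ x * (1 / 2 ^ J)) := by ring
      have h7 : 0 ≤ (2 : ℝ) ^ x * nd (2 * θ 0 + 2 * (ζ.re - θ 0)) :=
        mul_nonneg h2x.le (KOF.nd_nn _)
      linarith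
    have h5 : ‖fS m Y x (2 * ζ)‖ * ((2 : ℝ) ^ (ε * J) / 2) ^ (2 * m) ≤ Cb :=
      (mul_le_mul_of_nonneg_left (pow_le_pow_left₀ (by positivity) h4 _) (norm_nonneg _)).trans b1
    have h6 : ‖fS m Y x (2 * ζ)‖ = ‖fS m Y x (2 * ζ)‖ * ((2 : ℝ) ^ (ε * J) / 2) ^ (2 * m) *
        (2 * (2 : ℝ) ^ (-(ε * J))) ^ (2 * m) := by
      have h7 : (2 : ℝ) ^ (ε * J) / 2 * (2 * (2 : ℝ) ^ (-(ε * J))) = 1 := by
        calc (2 : ℝ) ^ (ε * J) / 2 * (2 * (2 : ℝ) ^ (-(ε * J))) =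
            (2 : ℝ) ^ (-(ε * J)) * (2 : ℝ) ^ (ε * J) := by ring
          _ = 1 := hEE
      rw [mul_assoc, ← mul_pow, h7, one_pow, mul_one]
    rw [h6]
    refine (mul_le_mul_of_nonneg_right h5 (by positivity)).trans ?_
    refine mul_le_mul_of_nonneg_left (pow_le_pow_left₀ (by positivity) ?_ _) hCb
    linarith

end KLS

open KLS in
theorem t_KLS : M_KLS := by
  intro hCAUC hCSB hNSX m C₁ C₂ ε A hm hCSF hC₂ hε hε8 hA hA2
  obtain ⟨Cc, hCc, hCA⟩ := hCAUC 1 P0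
  obtain ⟨Cb, hCb, hB⟩ := hCSB m 4 hm (by norm_num)
  have hNSF := hNSX m C₁ hm hCSF
  have hexp := Real.exp_pos (4 * π)
  set D : ℝ := 6 * Cc * Cb * Real.exp (4 * π) with hD
  have hD0 : 0 ≤ D := by positivity
  have h16 : (1 : ℝ) ≤ 16 ^ m := one_le_pow₀ (by norm_num)
  refine ⟨2 * C₂ * (D * 16 ^ m), by positivity, ?_⟩
  intro Φ J Y x e T Ψ ν₁ ν₂ R hΦ hJ hx hY hK he hT hFM τ θ
  have hJ0 : (0 : ℝ) ≤ J := Nat.cast_nonneg _
  have hYJ : Y ≤ J := by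
    have h1 : (Y : ℝ) ≤ J := by
      have := mul_nonneg hε.le hJ0
      linarith
    exact_mod_cast h1
  have hn : ∀ τ ν, nS m Y x e J τ ν ≠ 0 → |ν| ≤ 2 * 2 ^ J := fun τ ν h =>
    (hNSF.supp Y x e J τ ν he hK h).2.1
  have hB' : ∀ z : ℂ, |z.im| ≤ 4 / 2 ^ J →
      ‖fS m Y x z‖ * (1 + 2 ^ x * nd z.re) ^ (2 * m) ≤ Cb ∧
      (x < Y → ‖fS m Y x z‖ ≤ Cb * (2 ^ x * (nd z.re + 1 / 2 ^ J)) ^ (2 * m)) ∧
      ‖fS m Y x z‖ ≤ Cb * (nd (z.re - 1 / 2) + 1 / 2 ^ J) ^ (2 * m) := fun z hz =>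
    hB J Y x z hx hYJ hz
  have hk1 : ∀ θ : Fin 1 → ℝ, ‖km (aS Φ m Y x e J) T (fun _ => 1) τ θ‖ ≤ D * 2 ^ (2 * J) := by
    intro θ
    refine (km_le hΦ hCA hCSF hx hK hT hn τ θ hCb fun ζ _ h2 => ?_).trans (le_of_eq ?_)
    · have him : |(2 * ζ).im| ≤ 4 / 2 ^ J := by
        have e : (2 * ζ).im = 2 * ζ.im := by simp
        rw [e, abs_mul, abs_two]
        calc 2 * |ζ.im| ≤ 2 * (2 / 2 ^ J) := mul_le_mul_of_nonneg_left h2 (by norm_num)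
          _ = 4 / 2 ^ J := by ring
      refine le_trans ?_ (hB' _ him).1
      refine le_mul_of_one_le_right (norm_nonneg _) (one_le_pow₀ ?_)
      have h3 : 0 ≤ (2 : ℝ) ^ x * nd (2 * ζ).re := mul_nonneg (by positivity) (KOF.nd_nn _)
      linarith
    · rw [hD, two_mul J, pow_add]
      ring
  have hk2 : ∀ θ : Fin 1 → ℝ, θ ∉ sS ε J Y x →
      ‖km (aS Φ m Y x e J) T (fun _ => 1) τ θ‖ ≤ D * 16 ^ m * (2 : ℝ) ^ (-(A * J)) := by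
    intro θ hθ
    have hE : (0 : ℝ) < (2 : ℝ) ^ (-(ε * J)) := Real.rpow_pos_of_pos (by norm_num) _
    refine (km_le hΦ hCA hCSF hx hK hT hn τ θ
      (F := Cb * (4 * (2 : ℝ) ^ (-(ε * J))) ^ (2 * m)) (by positivity)
      fun ζ h1 h2 => fS_out hCb hε hx hY hB' hθ h1 h2).trans ?_
    have h3 : ((1 : ℕ) : ℝ) + (1 : ℕ) + A ≤ 2 * ε * m := by
      push_cast
      linarith
    have h4 := KOF.two_pow (J := J) h3
    calc Cc * 2 ^ J * (2 * (Cb * (4 * (2 : ℝ) ^ (-(ε * J))) ^ (2 * m) *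
          (3 * 2 ^ J * Real.exp (4 * π))))
        = D * 16 ^ m * ((2 : ℝ) ^ (J * (1 + 1)) * ((2 : ℝ) ^ (-(ε * J))) ^ (2 * m)) := by
          rw [mul_pow, pow_mul (4 : ℝ) 2 m, hD, mul_add, pow_add, mul_one]
          norm_num
          ring
      _ ≤ D * 16 ^ m * (2 : ℝ) ^ (-(A * J)) := mul_le_mul_of_nonneg_left h4 (by positivity)
  have hAJ : (0 : ℝ) < (2 : ℝ) ^ (-(A * J)) := Real.rpow_pos_of_pos (by norm_num) _
  constructor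
  · refine (KOF.km_int_le _ T hFM τ θ (D * 2 ^ (2 * J)) (by positivity)
      fun s _ => hk1 (θ + s)).trans ?_
    have h5 : D * 2 ^ (2 * J) ≤ D * 16 ^ m * 2 ^ (2 * J) := by
      refine mul_le_mul_of_nonneg_right ?_ (by positivity)
      exact le_mul_of_one_le_right hD0 h16
    calc 2 * C₂ * (D * 2 ^ (2 * J)) ≤ 2 * C₂ * (D * 16 ^ m * 2 ^ (2 * J)) :=
          mul_le_mul_of_nonneg_left h5 (by positivity)
      _ = 2 * C₂ * (D * 16 ^ m) * 2 ^ (2 * J) := by ring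
  · intro hs
    refine (KOF.km_int_le _ T hFM τ θ (D * 16 ^ m * (2 : ℝ) ^ (-(A * J))) (by positivity)
      fun s hs' => hk2 (θ + s) (hs s hs')).trans (le_of_eq ?_)
    ring

end

end SPH
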