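import Pool.Agent.SPH.StA

/-!
# KPR: the kernels of the sphere
-/

set_option autoImplicit false
set_option linter.unusedSectionVars false

namespace SPH

open STZ LGR STZ3 MeasureTheory Matrix Filter

open scoped ComplexConjugate Matrix Real Topology

noncomputable section

namespace KPR

/-! ### integrals over a period -/

theorem int_shift {f : ℝ → ℂ} (hf : Function.Periodic f 1) (θ : ℝ) :
    ∫ φ in (0 : ℝ)..1, f (θ + φ) = ∫ φ in (0 : ℝ)..1, f φ := by
  rw [intervalIntegral.integral_comp_add_left]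
  have h := hf.intervalIntegral_add_eq θ 0
  rw [zero_add] at h
  rw [add_zero]
  exact h

theorem int_neg {f : ℝ → ℂ} (hf : Function.Periodic f 1) :
    ∫ φ in (0 : ℝ)..1, f (-φ) = ∫ φ in (0 : ℝ)..1, f φ := by
  rw [intervalIntegral.integral_comp_neg, neg_zero]
  have h := hf.intervalIntegral_add_eq (-1) 0
  rw [zero_add] at h
  have h2 : (-1 : ℝ) + 1 = 0 := by norm_num
  rw [h2] at h
  exact h

theorem int_conj (f : ℝ → ℂ) :
    ∫ φ in (0 : ℝ)..1, conj (f φ) = conj (∫ φ in (0 : ℝ)..1, f φ) := by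
  rw [intervalIntegral.integral_of_le zero_le_one, intervalIntegral.integral_of_le zero_le_one]
  exact integral_conj

/-! ### averages of kernels over a circle -/

section

variable {G : Type} [Group G] [TopologicalSpace G] [IsTopologicalGroup G] [CompactSpace G]
  [SecondCountableTopology G] [MeasurableSpace G] [BorelSpace G]

/-- a one-parameter group of period one -/
structure Circ (t : ℝ → G) : Prop where
  cont : Continuous t
  add : ∀ a b, t (a + b) = t a * t b
  one : t 1 = 1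

theorem Circ.zero {t : ℝ → G} (ht : Circ t) : t 0 = 1 := by
  have h := ht.add 0 0
  rw [add_zero] at h
  exact (mul_eq_left.1 h.symm)

theorem Circ.neg {t : ℝ → G} (ht : Circ t) (a : ℝ) : t (-a) = (t a)⁻¹ := by
  have h := ht.add a (-a)
  rw [add_neg_cancel, ht.zero] at h
  exact (inv_eq_of_mul_eq_one_right h.symm).symm

/-- the average -/
def avg (t : ℝ → G) (K : G → G → ℂ) (x y : G) : ℂ := ∫ φ in (0 : ℝ)..1, K (x * t φ) y

variable {t : ℝ → G} {K K' R : G → G → ℂ}

theorem av_right (ht : Circ t) (hT : ∀ x s y, K (x * s) y = K x (y * s⁻¹)) (x y : G) :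
    avg t K x y = ∫ φ in (0 : ℝ)..1, K x (y * t φ) := by
  have hp : Function.Periodic (fun φ : ℝ => K x (y * t φ)) 1 := by
    intro φ
    show K x (y * t (φ + 1)) = K x (y * t φ)
    rw [ht.add, ht.one, mul_one]
  rw [← int_neg hp]
  unfold avg
  refine intervalIntegral.integral_congr fun φ _ => ?_
  show K (x * t φ) y = K x (y * t (-φ))
  rw [hT, ht.neg]

theorem av_mul_left (ht : Circ t) (x y : G) (θ : ℝ) : avg t K (x * t θ) y = avg t K x y := by
  have hp : Function.Periodic (fun φ : ℝ => K (x * t φ) y) 1 := by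
    intro φ
    show K (x * t (φ + 1)) y = K (x * t φ) y
    rw [ht.add, ht.one, mul_one]
  unfold avg
  rw [← int_shift hp θ]
  refine intervalIntegral.integral_congr fun φ _ => ?_
  show K (x * t θ * t φ) y = K (x * t (θ + φ)) y
  rw [ht.add, mul_assoc]

theorem av_cont (ht : Circ t) (hK : Continuous fun z : G × G => K z.1 z.2) :
    Continuous fun z : G × G => avg t K z.1 z.2 := by
  unfold avg
  refine intervalIntegral.continuous_parametric_intervalIntegral_of_continuous' ?_ 0 1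
  have h1 : Continuous fun p : (G × G) × ℝ => ((p.1.1 * t p.2, p.1.2) : G × G) := by
    have := ht.cont
    fun_prop
  exact hK.comp h1

theorem av_herm (ht : Circ t) (hT : ∀ x s y, K (x * s) y = K x (y * s⁻¹))
    (hh : ∀ x y, K x y = conj (K y x)) (x y : G) : avg t K x y = conj (avg t K y x) := by
  rw [av_right ht hT]
  unfold avg
  rw [← int_conj]
  refine intervalIntegral.integral_congr fun φ _ => ?_
  exact hh _ _

theorem bdd {f : G → ℂ} (hf : Continuous f) : ∃ C : ℝ, ∀ x, ‖f x‖ ≤ C := by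
  obtain ⟨C, hC⟩ := isCompact_univ.exists_bound_of_continuousOn hf.continuousOn
  exact ⟨C, fun x => hC x (Set.mem_univ x)⟩

theorem bdd2 (hK : Continuous fun z : G × G => K z.1 z.2) : ∃ C : ℝ, ∀ x y, ‖K x y‖ ≤ C := by
  obtain ⟨C, hC⟩ := isCompact_univ.exists_bound_of_continuousOn hK.continuousOn
  exact ⟨C, fun x y => hC (x, y) (Set.mem_univ _)⟩

theorem swap (μ : Measure G) [IsProbabilityMeasure μ] {F : G → ℝ → ℂ}
    (hF : Continuous (Function.uncurry F)) {C : ℝ} (hC : ∀ y φ, ‖F y φ‖ ≤ C) :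
    ∫ y, (∫ φ in (0 : ℝ)..1, F y φ) ∂μ = ∫ φ in (0 : ℝ)..1, (∫ y, F y φ ∂μ) := by
  have h1 : ∀ f : ℝ → ℂ, ∫ φ in (0 : ℝ)..1, f φ = ∫ φ in Set.Ioc (0 : ℝ) 1, f φ := fun f =>
    intervalIntegral.integral_of_le zero_le_one
  simp only [h1]
  have h2 : IsFiniteMeasure ((volume : Measure ℝ).restrict (Set.Ioc (0 : ℝ) 1)) :=
    ⟨by rw [Measure.restrict_apply_univ]; simp⟩
  refine integral_integral_swap ?_
  refine Integrable.of_bound (C := C) hF.aestronglyMeasurable ?_
  exact Filter.Eventually.of_forall fun p => hC p.1 p.2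

/-- the average acts on the invariant functions as the kernel -/
theorem av_int (μ : Measure G) [IsProbabilityMeasure μ] [μ.IsMulRightInvariant] (ht : Circ t)
    (hT : ∀ x s y, K (x * s) y = K x (y * s⁻¹)) (hK : Continuous fun z : G × G => K z.1 z.2)
    {f : G → ℂ} (hf : Continuous f) (hft : ∀ y θ, f (y * t θ) = f y) (x : G) :
    ∫ y, avg t K x y * f y ∂μ = ∫ y, K x y * f y ∂μ := by
  obtain ⟨C₁, hC₁⟩ := bdd2 hK
  obtain ⟨C₂, hC₂⟩ := bdd hf
  have h1 : ∀ y, avg t K x y * f y = ∫ φ in (0 : ℝ)..1, K x (y * t φ) * f (y * t φ) := by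
    intro y
    rw [av_right ht hT, ← intervalIntegral.integral_mul_const]
    refine intervalIntegral.integral_congr fun φ _ => ?_
    show K x (y * t φ) * f y = K x (y * t φ) * f (y * t φ)
    rw [hft]
  have hcF : Continuous (Function.uncurry fun (y : G) (φ : ℝ) => K x (y * t φ) * f (y * t φ)) := by
    have h2 : Continuous fun p : G × ℝ => p.1 * t p.2 := by
      have := ht.cont
      fun_prop
    have h3 : Continuous fun p : G × ℝ => K x (p.1 * t p.2) :=
      hK.comp ((continuous_const (y := x)).prodMk h2)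
    exact h3.mul (hf.comp h2)
  have hb : ∀ (y : G) (φ : ℝ), ‖K x (y * t φ) * f (y * t φ)‖ ≤ C₁ * C₂ := by
    intro y φ
    rw [norm_mul]
    exact mul_le_mul (hC₁ _ _) (hC₂ _) (norm_nonneg _) ((norm_nonneg _).trans (hC₁ x y))
  calc ∫ y, avg t K x y * f y ∂μ =
      ∫ y, (∫ φ in (0 : ℝ)..1, K x (y * t φ) * f (y * t φ)) ∂μ :=
        integral_congr_ae (Filter.Eventually.of_forall fun y => h1 y)
    _ = ∫ φ in (0 : ℝ)..1, (∫ y, K x (y * t φ) * f (y * t φ) ∂μ) := swap μ hcF hb
    _ = ∫ φ in (0 : ℝ)..1, (∫ y, K x y * f y ∂μ) := by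
        refine intervalIntegral.integral_congr fun φ _ => ?_
        exact integral_mul_right_eq_self (fun y => K x y * f y) (t φ)
    _ = ∫ y, K x y * f y ∂μ := by
        rw [intervalIntegral.integral_const]
        simp

/-- products of averages -/
theorem av_mul (μ : Measure G) [IsProbabilityMeasure μ] [μ.IsMulRightInvariant] (ht : Circ t)
    (hT : ∀ x s y, K (x * s) y = K x (y * s⁻¹)) (hK : Continuous fun z : G × G => K z.1 z.2)
    (hT' : ∀ x s y, K' (x * s) y = K' x (y * s⁻¹)) (hK' : Continuous fun z : G × G => K' z.1 z.2)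
    (hR : ∀ x z, ∫ y, K x y * K' y z ∂μ = R x z) (x z : G) :
    ∫ y, avg t K x y * avg t K' y z ∂μ = ∫ φ in (0 : ℝ)..1, R x (z * t φ) := by
  have hc : Continuous fun y => avg t K' y z :=
    (av_cont ht hK').comp (continuous_id.prodMk continuous_const)
  rw [av_int μ ht hT hK hc (fun y θ => av_mul_left ht y z θ) x]
  obtain ⟨C₁, hC₁⟩ := bdd2 hK
  obtain ⟨C₂, hC₂⟩ := bdd2 hK'
  have h1 : ∀ y, K x y * avg t K' y z = ∫ φ in (0 : ℝ)..1, K x y * K' y (z * t φ) := by
    intro y
    rw [av_right ht hT', ← intervalIntegral.integral_const_mul]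
  have hcF : Continuous (Function.uncurry fun (y : G) (φ : ℝ) => K x y * K' y (z * t φ)) := by
    have h3 : Continuous fun p : G × ℝ => K x p.1 :=
      hK.comp ((continuous_const (y := x)).prodMk continuous_fst)
    have h4 : Continuous fun p : G × ℝ => K' p.1 (z * t p.2) := by
      have h5 : Continuous fun p : G × ℝ => z * t p.2 := by
        have := ht.cont
        fun_prop
      exact hK'.comp (continuous_fst.prodMk h5)
    exact h3.mul h4
  have hb : ∀ (y : G) (φ : ℝ), ‖K x y * K' y (z * t φ)‖ ≤ C₁ * C₂ := by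
    intro y φ
    rw [norm_mul]
    exact mul_le_mul (hC₁ _ _) (hC₂ _ _) (norm_nonneg _) ((norm_nonneg _).trans (hC₁ x y))
  calc ∫ y, K x y * avg t K' y z ∂μ =
      ∫ y, (∫ φ in (0 : ℝ)..1, K x y * K' y (z * t φ)) ∂μ :=
        integral_congr_ae (Filter.Eventually.of_forall fun y => h1 y)
    _ = ∫ φ in (0 : ℝ)..1, (∫ y, K x y * K' y (z * t φ) ∂μ) := swap μ hcF hb
    _ = ∫ φ in (0 : ℝ)..1, R x (z * t φ) :=
        intervalIntegral.integral_congr fun φ _ => hR x (z * t φ)

end

/-! ### the characters of `H` -/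

theorem kk_trans {G ι : Type} [Group G] (χ : ι → G → ℂ) (i : ι) (x s y : G) :
    KK χ i (x * s) y = KK χ i x (y * s⁻¹) := by
  unfold KK
  rw [_root_.mul_inv_rev, inv_inv, mul_assoc]

theorem ch_cnj {G : Type} [Group G] [TopologicalSpace G] {n : ℕ} (σ : Rep G (Fin n)) (g h : G) :
    σ.ch (h * g * h⁻¹) = σ.ch g := by
  unfold Rep.ch
  rw [map_mul, Matrix.trace_mul_comm, ← map_mul, ← mul_assoc, inv_mul_cancel, one_mul]

/-- parity -/
theorem pow_par (n : ℕ) : ((-1 : ℂ)) ^ n = (-1) ^ (n % 2) := neg_one_pow_eq_pow_mod_two n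

end KPR

open KPR in
theorem t_KPR : M_KPR := by
  intro hHAAR hKERI hCHIF hWFAC hTAUF hPSF hRNK hLGB hCHT N H Φ B Hc E c k hCX cc ze w C hSPF htr χ
    hχ μ _ _
  have hcl := hCX.closed
  have hcs : CompactSpace H := isCompact_iff_compactSpace.1 hcl.isCompact
  have hsec : SecondCountableTopology H :=
    inferInstanceAs (SecondCountableTopology ((H : Set (SU N)) : Type))
  obtain ⟨X, hX⟩ := hCX.frame
  obtain ⟨hμ3, hμ4, -⟩ := hHAAR H μ
  obtain ⟨hIrr, -, -⟩ := hCHIF N H 1 Φ B Hc E c k 3 X hCX.one_le hcl hCX.conn hCX.lrd hCX.kc hX χ hχ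
  obtain ⟨hKer, -⟩ := hKERI H μ (IX Hc) χ hIrr
  obtain ⟨C', -, hP⟩ := hPSF N H 1 Φ B Hc E c k 3 hCX
  have hR1 : R1F Φ := hRNK Φ B hCX.lrd.ird (hWFAC 1 Φ B hCX.lrd.ird)
  have hL : LPF := hLGB
  have hcht := hCHT N H Φ B Hc E c k hCX cc ze w C hSPF htr χ hχ
  -- the circle
  obtain ⟨t, ht⟩ : ∃ t : ℝ → H, t = fun φ => tt H Hc fun _ => φ := ⟨_, rfl⟩
  have htφ : ∀ φ : ℝ, (tt H Hc fun _ => φ) = t φ := fun φ => by rw [ht]
  have hcirc : Circ t := by
    refine ⟨?_, ?_, ?_⟩
    · rw [ht]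
      exact hP.tcont.comp (continuous_pi fun _ => continuous_id)
    · intro a b
      rw [← htφ, ← htφ, ← htφ, ← hP.tadd]
      rfl
    · rw [← htφ]
      have h := hP.tint fun _ => 1
      simpa using h
  have hTI : ∀ {f : H → ℂ}, TI Hc f → ∀ (y : H) (θ : ℝ), f (y * t θ) = f y := by
    intro f hf y θ
    rw [← htφ]
    exact hf y _
  have hTI' : ∀ {f : H → ℂ}, (∀ (y : H) (θ : ℝ), f (y * t θ) = f y) → TI Hc f := by
    intro f hf y θ
    have h1 : θ = fun _ => θ 0 := by
      funext i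
      rw [Subsingleton.elim i 0]
    rw [h1, htφ]
    exact hf y _
  have hKPav : ∀ (i : IX Hc) (x y : H), KP χ i x y = avg t (KK χ i) x y := by
    intro i x y
    unfold KP avg
    rw [ht]
  have hKPav' : ∀ i : IX Hc, KP χ i = avg t (KK χ i) := by
    intro i
    funext x y
    exact hKPav i x y
  have htrans := kk_trans χ
  have hKc := hKer.cont
  -- the dimension
  have hdim : ∀ i : IX Hc, χ i 1 = (lw i : ℂ) := by
    intro i
    obtain ⟨n, σ, -, -, h1, h2⟩ := hχ i
    have h3 := h1.dim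
    rw [hR1.pos, Finset.prod_singleton, Finset.prod_singleton] at h3
    have h4 : ((fun _ : Fin 1 => (1 : ℤ)) ⬝ᵥ (1 : Fin 1 → ℤ)) = 1 := by
      simp [dotProduct]
    have h5 : ((fun _ : Fin 1 => (1 : ℤ)) ⬝ᵥ wG i.1) = lw i := by
      simp [dotProduct, lw]
    rw [h4, h5, Int.cast_one, mul_one] at h3
    rw [← h2 1, ← h3]
    unfold Rep.ch
    rw [map_one, Matrix.trace_one, Fintype.card_fin]
  have hcnj : ∀ (i : IX Hc) (g h : H), χ i (h * g * h⁻¹) = χ i g := by
    intro i g h
    obtain ⟨n, σ, -, -, -, h2⟩ := hχ i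
    rw [← h2, ← h2]
    exact ch_cnj σ g h
  have hge : ∀ i : IX Hc, 1 ≤ lw i := by
    intro i
    unfold lw wG
    omega
  have hval : ∀ (i : IX Hc) (x y : H), KP χ i x y =
      (lw i : ℂ) * (if lw i % 2 = 1 then LP ((lw i).toNat / 2) (cc (y⁻¹ * x)) else 0) := by
    intro i x y
    rw [← hcht i (y⁻¹ * x), ← intervalIntegral.integral_const_mul]
    unfold KP
    refine intervalIntegral.integral_congr fun φ _ => ?_
    show KK χ i (x * tt H Hc fun _ => φ) y = (lw i : ℂ) * χ i (y⁻¹ * x * tt H Hc fun _ => φ)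
    unfold KK
    rw [hdim]
    have h1 := hcnj i (y⁻¹ * x * tt H Hc fun _ => φ) y
    have h2 : y * (y⁻¹ * x * tt H Hc fun _ => φ) * y⁻¹ = (x * tt H Hc fun _ => φ) * y⁻¹ := by
      rw [← mul_assoc, ← mul_assoc, mul_inv_cancel, one_mul]
    rw [h2] at h1
    rw [h1]
  have hodd : ∀ (i : IX Hc) (x y : H), lw i % 2 = 1 →
      KP χ i x y = (lw i : ℂ) * LP ((lw i).toNat / 2) (cc (y⁻¹ * x)) := by
    intro i x y h
    rw [hval, if_pos h]
  have heven : ∀ (i : IX Hc) (x y : H), lw i % 2 = 0 → KP χ i x y = 0 := by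
    intro i x y h
    rw [hval, if_neg (by omega), mul_zero]
  have hcc : ∀ g, |cc g| ≤ 1 := by
    intro g
    have h1 := hSPF.norm g
    rw [← sq_le_one_iff_abs_le_one]
    nlinarith [sq_nonneg ‖ze g‖]
  have hti : ∀ (i : IX Hc) (f : H → ℂ), Continuous f → TI Hc f → ∀ x,
      ∫ y, KP χ i x y * f y ∂μ = ∫ y, KK χ i x y * f y ∂μ := by
    intro i f hf hft x
    rw [hKPav']
    exact av_int μ hcirc (htrans i) (hKc i) hf (hTI hft) x
  have hpar : ∀ (n : ℕ) (x : ℝ), LP n ((-x : ℝ) : ℂ) = (-1) ^ n * LP n (x : ℂ) := by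
    intro n x
    rw [Complex.ofReal_neg]
    exact hL.neg n x
  refine ⟨?_, hodd, heven, ?_, ?_, hge, hti, ?_, ?_⟩
  · -- the kernels
    intro e
    refine ⟨?_, ?_, ?_, ?_⟩
    · intro a
      have h := av_cont hcirc (hKc a.1)
      have h2 : (fun z : H × H => KQ χ e a z.1 z.2) = fun z => avg t (KK χ a.1) z.1 z.2 := by
        funext z
        exact hKPav a.1 z.1 z.2
      rw [h2]
      exact h
    · intro a x y
      show KP χ a.1 x y = conj (KP χ a.1 y x)
      rw [hKPav, hKPav]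
      exact av_herm hcirc (htrans a.1) (hKer.herm a.1) x y
    · intro a x z
      show ∫ y, KP χ a.1 x y * KP χ a.1 y z ∂μ = KP χ a.1 x z
      rw [hKPav']
      rw [av_mul μ hcirc (htrans a.1) (hKc a.1) (htrans a.1) (hKc a.1) (hKer.rep a.1) x z,
        av_right hcirc (htrans a.1)]
    · intro a b x z hab
      show ∫ y, KP χ a.1 x y * KP χ b.1 y z ∂μ = 0
      rw [hKPav', hKPav']
      have hne : a.1 ≠ b.1 := fun h => hab (Subtype.ext h)
      rw [av_mul (R := fun _ _ => 0) μ hcirc (htrans a.1) (hKc a.1) (htrans b.1) (hKc b.1)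
        (fun x z => hKer.orth a.1 b.1 x z hne) x z]
      simp
  · -- the bound
    intro i x y
    rw [hval, norm_mul]
    have h1 : ‖((lw i : ℤ) : ℂ)‖ = (lw i : ℝ) := by
      rw [Complex.norm_intCast, abs_of_nonneg]
      exact_mod_cast (hge i).trans' zero_le_one
    have h0 : (0 : ℝ) ≤ lw i := by exact_mod_cast (hge i).trans' zero_le_one
    rw [h1]
    have h2 : ‖(if lw i % 2 = 1 then LP ((lw i).toNat / 2) (cc (y⁻¹ * x)) else 0 : ℂ)‖ ≤ 1 := by
      split_ifs
      · exact hL.le _ _ (hcc _)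
      · rw [norm_zero]
        exact zero_le_one
    calc (lw i : ℝ) * _ ≤ lw i * 1 := by gcongr
      _ = lw i := mul_one _
  · -- injectivity
    intro i j h
    refine Subtype.ext ?_
    funext s
    rw [Subsingleton.elim s 0]
    unfold lw wG at h
    omega
  · -- the members
    intro e i u hu
    have hu1 : Continuous u := hu.1
    have hu2 : ∀ x, ∫ y, KP χ i.1 x y * u y ∂μ = u x := hu.2
    have hTu : TI Hc u := by
      refine hTI' fun y θ => ?_
      rw [← hu2 (y * t θ), ← hu2 y]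
      refine integral_congr_ae (Filter.Eventually.of_forall fun z => ?_)
      show KP χ i.1 (y * t θ) z * u z = KP χ i.1 y z * u z
      rw [hKPav, hKPav, av_mul_left hcirc]
    refine ⟨hTu, ⟨hu1, fun x => ?_⟩, fun g => ?_⟩
    · rw [← hti i.1 u hu1 hTu x]
      exact hu2 x
    · have hi := i.2
      have hodd2 : lw i.1 % 2 = 1 := by omega
      have hgi := hge i.1
      have he : (lw i.1).toNat / 2 % 2 = e % 2 := by omega
      rw [← hu2 (g * w), ← hu2 g, ← integral_const_mul]
      refine integral_congr_ae (Filter.Eventually.of_forall fun z => ?_)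
      show KP χ i.1 (g * w) z * u z = (-1) ^ e * (KP χ i.1 g z * u z)
      rw [hodd i.1 _ _ hodd2, hodd i.1 _ _ hodd2, ← mul_assoc z⁻¹ g w, hSPF.wcc, hpar,
        pow_par ((lw i.1).toNat / 2), he, ← pow_par]
      ring
  · -- the vanishing
    intro e i f hf hft hfw hne he x
    rw [← hti i f hf hft x]
    rcases Int.emod_two_eq_zero_or_one (lw i) with h | h
    · have h1 : (fun y => KP χ i x y * f y) = fun _ => 0 := by
        funext y
        rw [heven i x y h, zero_mul]
      rw [h1, integral_zero]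
    · have hgi := hge i
      have hp : (-1 : ℂ) ^ ((lw i).toNat / 2) * (-1) ^ e = -1 := by
        rw [← pow_add, pow_par]
        have h2 : ((lw i).toNat / 2 + e) % 2 = 1 := by omega
        rw [h2, pow_one]
      have h1 := integral_mul_right_eq_self (μ := μ) (fun y => KP χ i x y * f y) w
      have h2 : ∀ y, KP χ i x (y * w) * f (y * w) = -(KP χ i x y * f y) := by
        intro y
        have h3 : cc ((y * w)⁻¹ * x) = -cc (y⁻¹ * x) := by
          have h4 : ((y * w)⁻¹ * x)⁻¹ = x⁻¹ * y * w := by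
            rw [_root_.mul_inv_rev, inv_inv, mul_assoc]
          have h5 : (y⁻¹ * x)⁻¹ = x⁻¹ * y := by
            rw [_root_.mul_inv_rev, inv_inv]
          rw [← hSPF.inv, h4, hSPF.wcc, ← h5, hSPF.inv]
        rw [hodd i _ _ h, hodd i _ _ h, h3, hpar, hfw]
        calc (lw i : ℂ) * ((-1) ^ ((lw i).toNat / 2) * LP ((lw i).toNat / 2) (cc (y⁻¹ * x))) *
              ((-1) ^ e * f y) =
            ((-1) ^ ((lw i).toNat / 2) * (-1) ^ e) *
              ((lw i : ℂ) * LP ((lw i).toNat / 2) (cc (y⁻¹ * x)) * f y) := by ring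
          _ = _ := by
              rw [hp]
              ring
      rw [integral_congr_ae (Filter.Eventually.of_forall fun y => h2 y), integral_neg] at h1
      exact self_eq_neg.1 h1.symm

end

end SPH
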