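import Pool.Agent.SPH.StE

/-!
# The sphere S²: the supremum of the kernel
-/

namespace SPH

open STZ LGR STZ3 MeasureTheory Matrix Filter

open scoped ComplexConjugate Matrix Real Topology

noncomputable section

/-- the amplitude, as a function of the label -/
def KSBa (J : ℕ) (b : ℕ → ℂ) (l : ℤ) : ℂ := if (2 : ℤ) ^ J ≤ 16 * l then (l : ℂ) * b (l.toNat / 2) else 0

theorem KSB_norm_lc (l : ℤ) (X z : ℂ) (L B : ℝ) (h1 : |(l : ℝ)| ≤ L) (h2 : ‖z‖ ≤ B) : ‖(l : ℂ) * z‖ ≤ L * B := by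
  rw [norm_mul, Complex.norm_intCast]
  exact mul_le_mul h1 h2 (norm_nonneg _) (le_trans (abs_nonneg _) h1)

theorem KSB_adm (J : ℕ) (hJ : 256 ≤ (2 : ℤ) ^ J) (b : ℕ → ℂ) (U : ℝ) (hU : 0 ≤ U)
    (h0 : ∀ n : ℕ, (2 : ℤ) ^ J ≤ 64 * n → ‖b n‖ ≤ U)
    (h1 : ∀ n : ℕ, (2 : ℤ) ^ J ≤ 64 * n → ‖b (n + 1) - b n‖ ≤ U / 2 ^ J)
    (h2 : ∀ n : ℕ, (2 : ℤ) ^ J ≤ 64 * n → ‖b (n + 2) - 2 * b (n + 1) + b n‖ ≤ U / (2 ^ J) ^ 2) :
    (∀ l : ℤ, 1 ≤ l → l ≤ 2 * 2 ^ J → ‖KSBa J b l‖ ≤ 24 * (2 ^ J * U)) ∧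
    (∀ l : ℤ, (2 : ℤ) ^ J ≤ 16 * l → l + 4 ≤ 2 * 2 ^ J → ‖KSBa J b (l + 4) - KSBa J b l‖ ≤ 24 * (2 ^ J * U) / 2 ^ J) ∧
    (∀ l : ℤ, (2 : ℤ) ^ J ≤ 16 * l → l + 8 ≤ 2 * 2 ^ J → ‖KSBa J b (l + 8) - 2 * KSBa J b (l + 4) + KSBa J b l‖ ≤
      24 * (2 ^ J * U) / (2 ^ J) ^ 2) := by
  have hX : (0 : ℝ) < 2 ^ J := by positivity
  have hl : ∀ l : ℤ, 1 ≤ l → l ≤ 2 * 2 ^ J → |(l : ℝ)| ≤ 2 * 2 ^ J := by
    intro l l1 l2
    rw [abs_of_nonneg (by exact_mod_cast (by omega : 0 ≤ l))]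
    exact_mod_cast l2
  refine ⟨?_, ?_, ?_⟩
  · intro l l1 l2
    unfold KSBa
    split_ifs with hc
    · have hn : (2 : ℤ) ^ J ≤ 64 * ((l.toNat / 2 : ℕ) : ℤ) := by omega
      refine le_trans (KSB_norm_lc l 0 _ _ _ (hl l l1 l2) (h0 _ hn)) ?_
      nlinarith [mul_nonneg hX.le hU]
    · rw [norm_zero]; positivity
  · intro l l1 l2
    unfold KSBa
    rw [if_pos l1, if_pos (by omega)]
    have en : (l + 4).toNat / 2 = l.toNat / 2 + 2 := by omega
    rw [en]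
    generalize hn' : l.toNat / 2 = n
    have hn : (2 : ℤ) ^ J ≤ 64 * (n : ℤ) := by omega
    have e1 : (((l + 4 : ℤ) : ℂ)) * b (n + 2) - (l : ℂ) * b n =
        (l : ℂ) * ((b (n + 1 + 1) - b (n + 1)) + (b (n + 1) - b n)) + 4 * b (n + 2) := by
      push_cast; ring
    rw [e1]
    have b1 := h1 n hn
    have b2 := h1 (n + 1) (by push_cast; omega)
    have b3 := h0 (n + 2) (by push_cast; omega)
    have s1 : ‖(l : ℂ) * ((b (n + 1 + 1) - b (n + 1)) + (b (n + 1) - b n))‖ ≤ 2 * 2 ^ J * (U / 2 ^ J + U / 2 ^ J) :=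
      KSB_norm_lc l 0 _ _ _ (hl l (by omega) (by omega)) (le_trans (norm_add_le _ _) (add_le_add b2 b1))
    have s2 : ‖(4 : ℂ) * b (n + 2)‖ ≤ 4 * U := by
      rw [norm_mul]
      simp only [Complex.norm_ofNat]
      linarith
    refine le_trans (norm_add_le _ _) ?_
    have s3 : 2 * (2 : ℝ) ^ J * (U / 2 ^ J + U / 2 ^ J) = 4 * U := by field_simp; ring
    have s4 : 24 * (2 ^ J * U) / (2 : ℝ) ^ J = 24 * U := by field_simp
    rw [s4]
    linarith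
  · intro l l1 l2
    unfold KSBa
    rw [if_pos l1, if_pos (by omega), if_pos (by omega)]
    have en : (l + 4).toNat / 2 = l.toNat / 2 + 2 := by omega
    have en2 : (l + 8).toNat / 2 = l.toNat / 2 + 4 := by omega
    rw [en, en2]
    generalize hn' : l.toNat / 2 = n
    have hn : (2 : ℤ) ^ J ≤ 64 * (n : ℤ) := by omega
    have e1 : (((l + 8 : ℤ) : ℂ)) * b (n + 4) - 2 * (((l + 4 : ℤ) : ℂ) * b (n + 2)) + (l : ℂ) * b n =
        (l : ℂ) * ((b (n + 2 + 2) - 2 * b (n + 2 + 1) + b (n + 2)) + 2 * (b (n + 1 + 2) - 2 * b (n + 1 + 1) + b (n + 1)) +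
          (b (n + 2) - 2 * b (n + 1) + b n)) + 8 * ((b (n + 3 + 1) - b (n + 3)) + (b (n + 2 + 1) - b (n + 2))) := by
      push_cast; ring
    rw [e1]
    have b1 := h2 n hn
    have b2 := h2 (n + 1) (by push_cast; omega)
    have b3 := h2 (n + 2) (by push_cast; omega)
    have b4 := h1 (n + 3) (by push_cast; omega)
    have b5 := h1 (n + 2) (by push_cast; omega)
    have s1 : ‖(l : ℂ) * ((b (n + 2 + 2) - 2 * b (n + 2 + 1) + b (n + 2)) + 2 * (b (n + 1 + 2) - 2 * b (n + 1 + 1) + b (n + 1)) +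
          (b (n + 2) - 2 * b (n + 1) + b n))‖ ≤ 2 * 2 ^ J * (U / (2 ^ J) ^ 2 + 2 * (U / (2 ^ J) ^ 2) + U / (2 ^ J) ^ 2) := by
      refine KSB_norm_lc l 0 _ _ _ (hl l (by omega) (by omega)) (le_trans (norm_add_le _ _) (add_le_add (le_trans (norm_add_le _ _) (add_le_add b3 ?_)) b1))
      rw [norm_mul]
      simp only [Complex.norm_ofNat]
      linarith
    have s2 : ‖(8 : ℂ) * ((b (n + 3 + 1) - b (n + 3)) + (b (n + 2 + 1) - b (n + 2)))‖ ≤ 8 * (U / 2 ^ J + U / 2 ^ J) := by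
      rw [norm_mul]
      simp only [Complex.norm_ofNat]
      apply mul_le_mul_of_nonneg_left _ (by norm_num)
      exact le_trans (norm_add_le _ _) (add_le_add b4 b5)
    refine le_trans (norm_add_le _ _) ?_
    have s3 : 2 * (2 : ℝ) ^ J * (U / (2 ^ J) ^ 2 + 2 * (U / (2 ^ J) ^ 2) + U / (2 ^ J) ^ 2) = 8 * (U / 2 ^ J) := by field_simp; ring
    have s4 : 24 * (2 ^ J * U) / ((2 : ℝ) ^ J) ^ 2 = 24 * (U / 2 ^ J) := by field_simp
    rw [s4]
    linarith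

theorem KSB_fx (h : S_CFB) (m : ℕ) (hm : 1 ≤ m) : ∃ C : ℝ, 0 ≤ C ∧ ∀ (J Y y : ℕ) (θ d : ℝ), y ≤ Y →
    2 ^ J ≤ 1024 * m ^ 2 * 2 ^ Y → 1 / (2 : ℝ) ^ J ≤ d → |θ| ≤ d → ‖fx m Y y θ‖ ≤ C * √(2 ^ y * d) := by
  obtain ⟨C₁, hC, hh⟩ := h m 0 hm le_rfl
  refine ⟨C₁ * (1 + 1024 * m ^ 2) ^ (2 * m), by positivity, ?_⟩
  intro J Y y θ d hy hJ hd hθ
  have hX : (0 : ℝ) < 2 ^ J := by positivity
  have hY : (0 : ℝ) < 2 ^ Y := by positivity
  have hd0 : 0 < d := lt_of_lt_of_le (by positivity) hd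
  have hq0 : (0 : ℝ) ≤ 2 ^ y * d := by positivity
  have hJr : (2 : ℝ) ^ J ≤ 1024 * m ^ 2 * 2 ^ Y := by exact_mod_cast hJ
  have hYd : 1 / (2 : ℝ) ^ Y ≤ 1024 * m ^ 2 * d := by
    have h1 : 1 / (2 : ℝ) ^ Y ≤ 1024 * m ^ 2 * (1 / 2 ^ J) := by
      rw [mul_one_div, div_le_div_iff₀ hY hX]
      linarith
    refine le_trans h1 ?_
    exact mul_le_mul_of_nonneg_left hd (by positivity)
  have hnd : nd θ ≤ d := by
    unfold nd
    have := round_le θ 0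
    simp only [Int.cast_zero, sub_zero] at this
    exact le_trans this hθ
  have hnd0 : 0 ≤ nd θ := abs_nonneg _
  obtain ⟨g1, g2⟩ := hh Y y θ hy (by simp)
  rw [Complex.ofReal_re] at g1 g2
  have g3 : ‖fx m Y y θ‖ ≤ C₁ := by
    refine le_trans ?_ g1
    have : (1 : ℝ) ≤ (1 + 2 ^ y * nd θ) ^ (2 * m) := one_le_pow₀ (by nlinarith [mul_nonneg (by positivity : (0 : ℝ) ≤ 2 ^ y) hnd0])
    nlinarith [norm_nonneg (fx m Y y θ), this]
  set B : ℝ := 1 + 1024 * m ^ 2 with hB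
  have hB1 : 1 ≤ B := by rw [hB]; nlinarith [sq_nonneg (m : ℝ)]
  have hBp : 1 ≤ B ^ (2 * m) := one_le_pow₀ hB1
  have hBp' : B ≤ B ^ (2 * m) := by
    calc B = B ^ 1 := (pow_one B).symm
      _ ≤ B ^ (2 * m) := pow_le_pow_right₀ hB1 (by omega)
  rcases lt_or_eq_of_le hy with hlt | heq
  · have g4 := g2 hlt
    rcases le_total (2 ^ y * d) 1 with hq | hq
    · have g5 : 2 ^ y * (nd θ + 1 / 2 ^ Y) ≤ B * (2 ^ y * d) := by
        rw [hB]
        have : nd θ + 1 / 2 ^ Y ≤ d + 1024 * m ^ 2 * d := add_le_add hnd hYd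
        have := mul_le_mul_of_nonneg_left this (by positivity : (0 : ℝ) ≤ 2 ^ y)
        nlinarith [this]
      have g6 : (2 ^ y * (nd θ + 1 / 2 ^ Y)) ^ (2 * m) ≤ B ^ (2 * m) * √(2 ^ y * d) := by
        refine le_trans (pow_le_pow_left₀ (by positivity) g5 _) ?_
        rw [mul_pow]
        apply mul_le_mul_of_nonneg_left _ (by positivity)
        calc (2 ^ y * d) ^ (2 * m) ≤ (2 ^ y * d) ^ 1 := pow_le_pow_of_le_one hq0 hq (by omega)
          _ = √(2 ^ y * d) * √(2 ^ y * d) := by rw [pow_one, Real.mul_self_sqrt hq0]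
          _ ≤ √(2 ^ y * d) * 1 := by
            apply mul_le_mul_of_nonneg_left _ (Real.sqrt_nonneg _)
            exact Real.sqrt_le_one.2 hq
          _ = _ := mul_one _
      refine le_trans g4 ?_
      rw [mul_assoc]
      exact mul_le_mul_of_nonneg_left g6 hC
    · refine le_trans g3 ?_
      have : 1 ≤ √(2 ^ y * d) := Real.one_le_sqrt.2 hq
      have h3 : 1 ≤ B ^ (2 * m) * √(2 ^ y * d) := by nlinarith
      rw [mul_assoc]
      nlinarith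
  · subst heq
    refine le_trans g3 ?_
    have h4 : 1 / B ≤ √(2 ^ y * d) := by
      apply Real.le_sqrt_of_sq_le
      have h5 : 1 / B ≤ 2 ^ y * d := by
        rw [div_le_iff₀ (by linarith)]
        rw [div_le_iff₀ hY] at hYd
        rw [hB]
        nlinarith [hq0]
      have h6 : 1 / B ≤ 1 := by rw [div_le_one (by linarith)]; exact hB1
      have h7 : 0 ≤ 1 / B := by positivity
      nlinarith
    have h8 : 1 ≤ B ^ (2 * m) * √(2 ^ y * d) := by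
      calc 1 = B * (1 / B) := by field_simp
        _ ≤ B ^ (2 * m) * √(2 ^ y * d) := mul_le_mul hBp' h4 (by positivity) (by positivity)
    rw [mul_assoc]
    nlinarith

theorem KSB_pow (J y : ℕ) : (2 : ℝ) ^ (-(((J : ℝ) - y) / 2)) = √(2 ^ y / 2 ^ J) := by
  rw [Real.sqrt_eq_rpow, ← Real.rpow_natCast, ← Real.rpow_natCast, ← Real.rpow_sub (by norm_num), ← Real.rpow_mul (by norm_num)]
  congr 1
  ring

theorem KSB_eu (l : ℤ) (n : ℕ) (D : ℝ) (h : l = 2 * n + 1) :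
    Complex.exp (Complex.I * ((n + 1) * D)) = Complex.exp (Complex.I * (D / 2)) * eu (l * (D / π / 4)) := by
  unfold eu
  rw [← Complex.exp_add]
  congr 1
  have hp : (π : ℂ) ≠ 0 := by exact_mod_cast Real.pi_ne_zero
  subst h
  push_cast
  field_simp
  ring

theorem KSB_conj_eu (x : ℝ) : conj (eu x) = eu (-x) := by
  unfold eu
  rw [← Complex.exp_conj]
  congr 1
  simp only [map_mul, Complex.conj_I, Complex.conj_ofReal]
  have : conj (2 : ℂ) = 2 := Complex.conj_ofNat 2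
  rw [this]
  push_cast
  ring

theorem KSB_norm_half (D : ℝ) : ‖Complex.exp (Complex.I * (D / 2))‖ = 1 := by
  rw [show Complex.I * ((D : ℂ) / 2) = ((D / 2 : ℝ) : ℂ) * Complex.I by push_cast; ring]
  exact Complex.norm_exp_ofReal_mul_I _

/-- the form with the amplitude `b` -/
def KSBs (m Y y e J : ℕ) (t θ : ℝ) (b : ℕ → ℂ) : ℂ :=
  ∑ l ∈ (Finset.Icc (1 : ℤ) (2 * 2 ^ J)).filter (fun l => l % 4 = 1 + 2 * (e : ℤ)),
      nT m Y y e J t l * (eu (l * (θ / 4)) * KSBa J b l)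

theorem KSB_gen (hCFB : S_CFB) (hAVS : S_AVS) (m : ℕ) (hm : 1 ≤ m) : ∃ (c : ℕ) (C : ℝ), 1 ≤ c ∧ 0 ≤ C ∧
    ∀ (J Y y e : ℕ) (t θ d K : ℝ) (b : ℕ → ℂ), 256 * m ^ 2 * 2 ^ Y ≤ 2 ^ J → 2 ^ J ≤ 1024 * m ^ 2 * 2 ^ Y → y ≤ Y →
    e ≤ 1 → 1 / (2 : ℝ) ^ J ≤ d → |θ| ≤ d → 0 ≤ K →
    (∀ n : ℕ, (2 : ℤ) ^ J ≤ 64 * n → ‖b n‖ ≤ K * √(2 ^ J / d) / 2 ^ J) →
    (∀ n : ℕ, (2 : ℤ) ^ J ≤ 64 * n → ‖b (n + 1) - b n‖ ≤ K * √(2 ^ J / d) / 2 ^ J / 2 ^ J) →
    (∀ n : ℕ, (2 : ℤ) ^ J ≤ 64 * n → ‖b (n + 2) - 2 * b (n + 1) + b n‖ ≤ K * √(2 ^ J / d) / 2 ^ J / (2 ^ J) ^ 2) →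
    ‖KSBs m Y y e J t θ b‖ ≤ C * K * (√(WW (2 ^ J) c t) * √(2 ^ J * 2 ^ y)) := by
  obtain ⟨c, C₁, hc, hC₁, hA⟩ := hAVS m hm
  obtain ⟨C₂, hC₂, hF⟩ := KSB_fx hCFB m hm
  refine ⟨c, C₁ * (48 * C₂ + 24), hc, by positivity, ?_⟩
  intro J Y y e t θ d K b hJ hJ' hy he hd hθ hK h0 h1 h2
  have hX : (0 : ℝ) < 2 ^ J := by positivity
  have hd0 : 0 < d := lt_of_lt_of_le (by positivity) hd
  have hJ256 : 256 ≤ (2 : ℤ) ^ J := by
    have : 256 ≤ 2 ^ J := by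
      refine le_trans ?_ hJ
      have : 1 ≤ m ^ 2 * 2 ^ Y := Nat.one_le_iff_ne_zero.2 (by positivity)
      nlinarith [this]
    exact_mod_cast this
  have hU : 0 ≤ K * √(2 ^ J / d) / 2 ^ J := by positivity
  obtain ⟨a1, a2, a3⟩ := KSB_adm J hJ256 b _ hU h0 h1 h2
  have hXU : 24 * ((2 : ℝ) ^ J * (K * √(2 ^ J / d) / 2 ^ J)) = 24 * K * √(2 ^ J / d) := by field_simp
  rw [hXU] at a1 a2 a3
  have hmain := hA J Y y e t θ (24 * K * √(2 ^ J / d)) (24 * K * √(2 ^ J / d)) (KSBa J b) hJ hy he (by positivity) (by positivity)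
    a1 a2 a3
  unfold KSBs
  refine le_trans hmain ?_
  have hf := hF J Y y θ d hy hJ' hd hθ
  have q1 : √((2 : ℝ) ^ y * d) * √(2 ^ J / d) = √(2 ^ J * 2 ^ y) := by
    rw [← Real.sqrt_mul (by positivity)]
    congr 1
    field_simp
  have q2 : (2 : ℝ) ^ y / 2 ^ J * √(2 ^ J / d) ≤ √(2 ^ J * 2 ^ y) := by
    have r1 : √((2 : ℝ) ^ J / d) ≤ 2 ^ J := by
      apply Real.sqrt_le_iff.2
      refine ⟨hX.le, ?_⟩
      rw [div_le_iff₀ hd0]
      rw [div_le_iff₀ hX] at hd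
      nlinarith [mul_pos hX hX]
    have r2 : (2 : ℝ) ^ y ≤ 2 ^ J := by
      apply pow_le_pow_right₀ (by norm_num)
      have h3 : 2 ^ Y ≤ 2 ^ J := by
        refine le_trans ?_ hJ
        have : 1 ≤ 256 * m ^ 2 := by nlinarith [Nat.one_le_pow 2 m hm]
        nlinarith [(by positivity : 0 < 2 ^ Y)]
      exact le_trans hy ((Nat.pow_le_pow_iff_right (by norm_num)).1 h3)
    calc (2 : ℝ) ^ y / 2 ^ J * √(2 ^ J / d) ≤ (2 : ℝ) ^ y / 2 ^ J * 2 ^ J := mul_le_mul_of_nonneg_left r1 (by positivity)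
      _ = √(2 ^ y * 2 ^ y) := by rw [Real.sqrt_mul_self (by positivity)]; field_simp
      _ ≤ √(2 ^ J * 2 ^ y) := Real.sqrt_le_sqrt (mul_le_mul_of_nonneg_right r2 (by positivity))
  have hs : 0 ≤ √((2 : ℝ) ^ J / d) := Real.sqrt_nonneg _
  have q3 : ‖fx m Y y θ‖ * (24 * K * √(2 ^ J / d) + 24 * K * √(2 ^ J / d)) + 2 ^ y / 2 ^ J * (24 * K * √(2 ^ J / d)) ≤
      K * (48 * C₂ + 24) * √(2 ^ J * 2 ^ y) := by
    have r3 : ‖fx m Y y θ‖ * √(2 ^ J / d) ≤ C₂ * √(2 ^ J * 2 ^ y) := by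
      rw [← q1, ← mul_assoc]
      exact mul_le_mul_of_nonneg_right hf hs
    have r4 := mul_le_mul_of_nonneg_left r3 (by positivity : 0 ≤ 48 * K)
    have r5 := mul_le_mul_of_nonneg_left q2 (by positivity : 0 ≤ 24 * K)
    nlinarith [r4, r5]
  calc C₁ * √(WW (2 ^ J) c t) * _ ≤ C₁ * √(WW (2 ^ J) c t) * (K * (48 * C₂ + 24) * √(2 ^ J * 2 ^ y)) :=
        mul_le_mul_of_nonneg_left q3 (by positivity)
    _ = _ := by ring

/-- the bound for `D ≤ π / 2` -/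
theorem KSB_half (hCFB : S_CFB) (hNTX : S_NTX) (hLGB : S_LGB) (hLGC : S_LGC) (hLGD : S_LGD) (hAVS : S_AVS)
    (m : ℕ) (hm : 1 ≤ m) : ∃ (c : ℕ) (C : ℝ), 1 ≤ c ∧ 0 ≤ C ∧ ∀ (J Y y e : ℕ) (t D : ℝ),
  256 * m ^ 2 * 2 ^ Y ≤ 2 ^ J → 2 ^ J ≤ 1024 * m ^ 2 * 2 ^ Y → y ≤ Y → e ≤ 1 → 0 ≤ D → D ≤ π / 2 →
  ‖∑ l ∈ (Finset.Icc (1 : ℤ) (2 * 2 ^ J)).filter (fun l => l % 4 = 1 + 2 * (e : ℤ)),
      nT m Y y e J t l * ((l : ℂ) * LP (l.toNat / 2) ((Real.cos D : ℝ) : ℂ))‖ ≤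
    C * (√(WW (2 ^ J) c t) * √(2 ^ J * 2 ^ y)) := by
  obtain ⟨c, C₁, hc, hC₁, hG⟩ := KSB_gen hCFB hAVS m hm
  obtain ⟨C₂, hC₂, hL⟩ := hLGD
  refine ⟨c, C₁ * 1 + 2 * (C₁ * (32768 * C₂)), hc, by positivity, ?_⟩
  intro J Y y e t D hJ hJ' hy he hD0 hD1
  have hX : (0 : ℝ) < 2 ^ J := by positivity
  have hJ256 : 256 ≤ (2 : ℤ) ^ J := by
    have : 256 ≤ 2 ^ J := by
      refine le_trans ?_ hJ
      have : 1 ≤ m ^ 2 * 2 ^ Y := Nat.one_le_iff_ne_zero.2 (by positivity)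
      nlinarith [this]
    exact_mod_cast this
  have hS := (hNTX m hm).supp
  have hWs : 0 ≤ √(WW (2 ^ J) c t) * √((2 : ℝ) ^ J * 2 ^ y) := by positivity
  rcases lt_or_ge D (1 / 2 ^ J) with hDX | hDX
  · -- small distance
    have key : ∑ l ∈ (Finset.Icc (1 : ℤ) (2 * 2 ^ J)).filter (fun l => l % 4 = 1 + 2 * (e : ℤ)),
      nT m Y y e J t l * ((l : ℂ) * LP (l.toNat / 2) ((Real.cos D : ℝ) : ℂ)) =
        KSBs m Y y e J t 0 (fun n => LP n ((Real.cos D : ℝ) : ℂ)) := by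
      unfold KSBs
      apply Finset.sum_congr rfl
      intro l hl
      rw [Finset.mem_filter, Finset.mem_Icc] at hl
      by_cases hz : nT m Y y e J t l = 0
      · rw [hz]; simp
      · have h3 := (hS Y y e J t l hy hJ hl.1.1 hz).1
        unfold KSBa
        rw [if_pos h3.le]
        have : eu (l * (0 / 4)) = 1 := by unfold eu; simp
        rw [this, one_mul]
    rw [key]
    have hu : (1 : ℝ) * √(2 ^ J / (1 / 2 ^ J)) / 2 ^ J = 1 := by
      have : (2 : ℝ) ^ J / (1 / 2 ^ J) = 2 ^ J * 2 ^ J := by field_simp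
      rw [this, Real.sqrt_mul_self hX.le]
      field_simp
    have h := hG J Y y e t 0 (1 / 2 ^ J) 1 (fun n => LP n ((Real.cos D : ℝ) : ℂ)) hJ hJ' hy he le_rfl
      (by rw [abs_zero]; positivity) zero_le_one
      (by
        intro n _
        rw [hu]
        exact hLGB.le n _ (Real.abs_cos_le_one D))
      (by
        intro n _
        rw [hu]
        refine le_trans (hLGB.d1 n D) ?_
        rw [abs_of_nonneg hD0]
        exact hDX.le)
      (by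
        intro n _
        rw [hu]
        refine le_trans (hLGB.d2 n D) ?_
        have : D ^ 2 ≤ (1 / 2 ^ J) ^ 2 := pow_le_pow_left₀ hD0 hDX.le 2
        rw [div_pow, one_pow] at this
        exact this)
    refine le_trans h ?_
    apply mul_le_mul_of_nonneg_right _ hWs
    have : 0 ≤ C₁ * (32768 * C₂) := by positivity
    linarith
  · -- large distance
    have hDp : 0 < D := lt_of_lt_of_le (by positivity) hDX
    have hDpi : D < π := by have := Real.pi_pos; linarith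
    have hs0 : 0 ≤ √((2 : ℝ) ^ J / D) := Real.sqrt_nonneg _
    -- powers
    have hpw : ∀ n : ℕ, (2 : ℤ) ^ J ≤ 64 * n → (1 : ℝ) ≤ n ∧
        (n : ℝ) ^ (-(1 / 2) : ℝ) * D ^ (-(1 / 2) : ℝ) ≤ 8 * (√(2 ^ J / D) / 2 ^ J) ∧ (n : ℝ)⁻¹ ≤ 64 / 2 ^ J := by
      intro n hn
      have hnr : (2 : ℝ) ^ J ≤ 64 * n := by exact_mod_cast hn
      have hn1 : (1 : ℝ) ≤ n := by
        have : (256 : ℝ) ≤ 2 ^ J := by exact_mod_cast hJ256
        linarith
      have hn0 : (0 : ℝ) < n := by linarith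
      refine ⟨hn1, ?_, ?_⟩
      · have e1 : (n : ℝ) ^ (-(1 / 2) : ℝ) = 1 / √n := by
          rw [Real.rpow_neg hn0.le, ← Real.sqrt_eq_rpow, one_div]
        have e2 : D ^ (-(1 / 2) : ℝ) = 1 / √D := by
          rw [Real.rpow_neg hDp.le, ← Real.sqrt_eq_rpow, one_div]
        rw [e1, e2, Real.sqrt_div hX.le]
        have e3 : √((2 : ℝ) ^ J) ≤ 8 * √n := by
          have : (8 : ℝ) * √n = √(64 * n) := by
            rw [Real.sqrt_mul (by norm_num), show (64 : ℝ) = 8 ^ 2 by norm_num, Real.sqrt_sq (by norm_num)]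
          rw [this]
          exact Real.sqrt_le_sqrt hnr
        have hsn : 0 < √(n : ℝ) := Real.sqrt_pos.2 hn0
        have hsX : 0 < √((2 : ℝ) ^ J) := Real.sqrt_pos.2 hX
        have hsD : 0 < √D := Real.sqrt_pos.2 hDp
        have e4 : √((2 : ℝ) ^ J) / √D / 2 ^ J = 1 / (√(2 ^ J) * √D) := by
          rw [div_div, div_eq_div_iff (by positivity) (by positivity)]
          have := Real.mul_self_sqrt hX.le
          calc √((2 : ℝ) ^ J) * (√(2 ^ J) * √D) = (√((2 : ℝ) ^ J) * √(2 ^ J)) * √D := by ring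
            _ = 1 * (√D * 2 ^ J) := by rw [this]; ring
        rw [e4, div_mul_div_comm, one_mul, mul_one_div, div_le_div_iff₀ (by positivity) (by positivity)]
        nlinarith [mul_le_mul_of_nonneg_right e3 hsD.le]
      · rw [inv_eq_one_div, div_le_div_iff₀ hn0 hX]
        linarith
    have hb0 : ∀ n : ℕ, (2 : ℤ) ^ J ≤ 64 * n → ‖bL n D‖ ≤ 32768 * C₂ * √(2 ^ J / D) / 2 ^ J := by
      intro n hn
      obtain ⟨p1, p2, p3⟩ := hpw n hn
      refine le_trans (hL n D (by exact_mod_cast p1) hDp hD1).1 ?_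
      refine le_trans (mul_le_mul_of_nonneg_left p2 hC₂) ?_
      have : 0 ≤ C₂ * √(2 ^ J / D) / 2 ^ J := by positivity
      have e1 : 32768 * C₂ * √(2 ^ J / D) / 2 ^ J = 32768 * (C₂ * √(2 ^ J / D) / 2 ^ J) := by ring
      have e2 : C₂ * (8 * (√(2 ^ J / D) / 2 ^ J)) = 8 * (C₂ * √(2 ^ J / D) / 2 ^ J) := by ring
      rw [e1, e2]
      linarith
    have hb1 : ∀ n : ℕ, (2 : ℤ) ^ J ≤ 64 * n → ‖bL (n + 1) D - bL n D‖ ≤ 32768 * C₂ * √(2 ^ J / D) / 2 ^ J / 2 ^ J := by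
      intro n hn
      obtain ⟨p1, p2, p3⟩ := hpw n hn
      have hn0 : (0 : ℝ) < n := by linarith
      refine le_trans (hL n D (by exact_mod_cast p1) hDp hD1).2.1 ?_
      have e0 : (n : ℝ) ^ (-(3 / 2) : ℝ) = (n : ℝ) ^ (-(1 / 2) : ℝ) * (n : ℝ)⁻¹ := by
        rw [← Real.rpow_neg_one, ← Real.rpow_add hn0]
        norm_num
      rw [e0]
      have e3 : (n : ℝ) ^ (-(1 / 2) : ℝ) * (n : ℝ)⁻¹ * D ^ (-(1 / 2) : ℝ) =
          ((n : ℝ) ^ (-(1 / 2) : ℝ) * D ^ (-(1 / 2) : ℝ)) * (n : ℝ)⁻¹ := by ring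
      rw [e3]
      have h5 := mul_le_mul p2 p3 (by positivity) (by positivity)
      refine le_trans (mul_le_mul_of_nonneg_left h5 hC₂) ?_
      have : 0 ≤ C₂ * √(2 ^ J / D) / 2 ^ J / 2 ^ J := by positivity
      have e1 : 32768 * C₂ * √(2 ^ J / D) / 2 ^ J / 2 ^ J = 32768 * (C₂ * √(2 ^ J / D) / 2 ^ J / 2 ^ J) := by ring
      have e2 : C₂ * (8 * (√(2 ^ J / D) / 2 ^ J) * (64 / 2 ^ J)) = 512 * (C₂ * √(2 ^ J / D) / 2 ^ J / 2 ^ J) := by ring
      rw [e1, e2]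
      linarith
    have hb2 : ∀ n : ℕ, (2 : ℤ) ^ J ≤ 64 * n → ‖bL (n + 2) D - 2 * bL (n + 1) D + bL n D‖ ≤
        32768 * C₂ * √(2 ^ J / D) / 2 ^ J / (2 ^ J) ^ 2 := by
      intro n hn
      obtain ⟨p1, p2, p3⟩ := hpw n hn
      have hn0 : (0 : ℝ) < n := by linarith
      refine le_trans (hL n D (by exact_mod_cast p1) hDp hD1).2.2 ?_
      have e0 : (n : ℝ) ^ (-(5 / 2) : ℝ) = (n : ℝ) ^ (-(1 / 2) : ℝ) * ((n : ℝ)⁻¹ * (n : ℝ)⁻¹) := by
        rw [← Real.rpow_neg_one, ← Real.rpow_add hn0, ← Real.rpow_add hn0]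
        norm_num
      rw [e0]
      have e3 : (n : ℝ) ^ (-(1 / 2) : ℝ) * ((n : ℝ)⁻¹ * (n : ℝ)⁻¹) * D ^ (-(1 / 2) : ℝ) =
          ((n : ℝ) ^ (-(1 / 2) : ℝ) * D ^ (-(1 / 2) : ℝ)) * ((n : ℝ)⁻¹ * (n : ℝ)⁻¹) := by ring
      rw [e3]
      have h4 := mul_le_mul p3 p3 (by positivity) (by positivity)
      have h5 := mul_le_mul p2 h4 (by positivity) (by positivity)
      refine le_trans (mul_le_mul_of_nonneg_left h5 hC₂) ?_
      apply le_of_eq
      field_simp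
      ring
    have hK : (0 : ℝ) ≤ 32768 * C₂ := by positivity
    have hπ := Real.pi_pos
    have hθ : |D / π| ≤ D := by
      rw [abs_of_nonneg (by positivity), div_le_iff₀ hπ]
      have := Real.pi_gt_three
      nlinarith
    have hθ' : |-(D / π)| ≤ D := by rw [abs_neg]; exact hθ
    have hp := hG J Y y e t (D / π) D (32768 * C₂) (fun n => bL n D) hJ hJ' hy he hDX hθ hK hb0 hb1 hb2
    have hq := hG J Y y e t (-(D / π)) D (32768 * C₂) (fun n => conj (bL n D)) hJ hJ' hy he hDX hθ' hK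
      (by intro n hn; rw [RCLike.norm_conj]; exact hb0 n hn)
      (by intro n hn; rw [← map_sub, RCLike.norm_conj]; exact hb1 n hn)
      (by
        intro n hn
        have : conj (bL (n + 2) D) - 2 * conj (bL (n + 1) D) + conj (bL n D) =
            conj (bL (n + 2) D - 2 * bL (n + 1) D + bL n D) := by
          simp only [map_add, map_sub, map_mul, Complex.conj_ofNat]
        rw [this, RCLike.norm_conj]
        exact hb2 n hn)
    -- the formula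
    have key : ∑ l ∈ (Finset.Icc (1 : ℤ) (2 * 2 ^ J)).filter (fun l => l % 4 = 1 + 2 * (e : ℤ)),
      nT m Y y e J t l * ((l : ℂ) * LP (l.toNat / 2) ((Real.cos D : ℝ) : ℂ)) =
        (1 / (π * Complex.I)) * (Complex.exp (Complex.I * (D / 2)) * KSBs m Y y e J t (D / π) (fun n => bL n D) -
          Complex.exp (Complex.I * ((-D : ℝ) / 2)) * KSBs m Y y e J t (-(D / π)) (fun n => conj (bL n D))) := by
      unfold KSBs
      rw [Finset.mul_sum, Finset.mul_sum, ← Finset.sum_sub_distrib, Finset.mul_sum]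
      apply Finset.sum_congr rfl
      intro l hl
      rw [Finset.mem_filter, Finset.mem_Icc] at hl
      by_cases hz : nT m Y y e J t l = 0
      · rw [hz]; simp
      · have h3 := (hS Y y e J t l hy hJ hl.1.1 hz).1
        unfold KSBa
        rw [if_pos h3.le, if_pos h3.le]
        have hln : l = 2 * ((l.toNat / 2 : ℕ) : ℤ) + 1 := by omega
        generalize hn' : l.toNat / 2 = n at *
        rw [hLGC n D hDp hDpi]
        have e1 := KSB_eu l n D hln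
        have e2 : conj (Complex.exp (Complex.I * ((n + 1) * D)) * bL n D) =
            Complex.exp (Complex.I * ((-D : ℝ) / 2)) * eu (l * (-(D / π) / 4)) * conj (bL n D) := by
          rw [e1]
          simp only [map_mul]
          rw [KSB_conj_eu, ← Complex.exp_conj]
          have e5 : conj (Complex.I * ((D : ℂ) / 2)) = Complex.I * (((-D : ℝ) : ℂ) / 2) := by
            simp only [map_mul, map_div₀, Complex.conj_I, Complex.conj_ofReal, Complex.conj_ofNat]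
            push_cast
            ring
          rw [e5]
          have e6 : -((l : ℝ) * (D / π / 4)) = (l : ℝ) * (-(D / π) / 4) := by ring
          rw [e6]
        have e4 : (((Complex.exp (Complex.I * ((n + 1) * D)) * bL n D).im : ℝ) : ℂ) =
            (Complex.exp (Complex.I * ((n + 1) * D)) * bL n D - conj (Complex.exp (Complex.I * ((n + 1) * D)) * bL n D)) /
              (2 * Complex.I) := by
          rw [Complex.sub_conj]
          generalize (Complex.exp (Complex.I * ((n + 1) * D)) * bL n D).im = x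
          push_cast
          field_simp
        rw [Complex.ofReal_mul, e4, e2, e1]
        have hpc : (π : ℂ) ≠ 0 := by exact_mod_cast Real.pi_ne_zero
        push_cast
        field_simp
    rw [key, norm_mul]
    have hn1 : ‖(1 / (π * Complex.I) : ℂ)‖ ≤ 1 := by
      rw [norm_div, norm_mul, Complex.norm_I, norm_one, Complex.norm_real, Real.norm_of_nonneg hπ.le, mul_one,
        div_le_one hπ]
      have := Real.pi_gt_three
      linarith
    have hn2 : ‖Complex.exp (Complex.I * (D / 2)) * KSBs m Y y e J t (D / π) (fun n => bL n D) -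
          Complex.exp (Complex.I * ((-D : ℝ) / 2)) * KSBs m Y y e J t (-(D / π)) (fun n => conj (bL n D))‖ ≤
        2 * (C₁ * (32768 * C₂) * (√(WW (2 ^ J) c t) * √(2 ^ J * 2 ^ y))) := by
      refine le_trans (norm_sub_le _ _) ?_
      rw [norm_mul, norm_mul, KSB_norm_half, KSB_norm_half, one_mul, one_mul]
      linarith
    calc _ ≤ 1 * (2 * (C₁ * (32768 * C₂) * (√(WW (2 ^ J) c t) * √(2 ^ J * 2 ^ y)))) :=
          mul_le_mul hn1 hn2 (norm_nonneg _) zero_le_one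
      _ ≤ _ := by
        have : 0 ≤ C₁ * 1 * (√(WW (2 ^ J) c t) * √((2 : ℝ) ^ J * 2 ^ y)) := by positivity
        nlinarith [this]

theorem t_KSB : M_KSB := by
  intro hCFB hNTX hLGB hLGC hLGD hAVS m hm
  obtain ⟨c, C, hc, hC, h⟩ := KSB_half hCFB hNTX hLGB hLGC hLGD hAVS m hm
  refine ⟨c, C, hc, hC, ?_⟩
  intro J Y y e t D hJ hJ' hy he hD0 hD1
  have hX : (0 : ℝ) < 2 ^ J := by positivity
  have hend : √(WW (2 ^ J) c t) * √((2 : ℝ) ^ J * 2 ^ y) = 2 ^ J * √(WW (2 ^ J) c t) * (2 : ℝ) ^ (-(((J : ℝ) - y) / 2)) := by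
    rw [KSB_pow]
    have : √((2 : ℝ) ^ J * 2 ^ y) = 2 ^ J * √(2 ^ y / 2 ^ J) := by
      have e1 : (2 : ℝ) ^ J * 2 ^ y = (2 ^ J * 2 ^ J) * (2 ^ y / 2 ^ J) := by field_simp
      rw [e1, Real.sqrt_mul (by positivity), Real.sqrt_mul_self hX.le]
    rw [this]
    ring
  rw [← hend]
  rcases le_total D (π / 2) with hh | hh
  · exact h J Y y e t D hJ hJ' hy he hD0 hh
  · have h2 := h J Y y e t (π - D) hJ hJ' hy he (by linarith) (by linarith)
    have key : ∑ l ∈ (Finset.Icc (1 : ℤ) (2 * 2 ^ J)).filter (fun l => l % 4 = 1 + 2 * (e : ℤ)),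
      nT m Y y e J t l * ((l : ℂ) * LP (l.toNat / 2) ((Real.cos D : ℝ) : ℂ)) = (-1) ^ e *
        ∑ l ∈ (Finset.Icc (1 : ℤ) (2 * 2 ^ J)).filter (fun l => l % 4 = 1 + 2 * (e : ℤ)),
      nT m Y y e J t l * ((l : ℂ) * LP (l.toNat / 2) ((Real.cos (π - D) : ℝ) : ℂ)) := by
      rw [Finset.mul_sum]
      apply Finset.sum_congr rfl
      intro l hl
      rw [Finset.mem_filter, Finset.mem_Icc] at hl
      have e1 : ((Real.cos D : ℝ) : ℂ) = -((Real.cos (π - D) : ℝ) : ℂ) := by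
        rw [Real.cos_pi_sub]; push_cast; ring
      obtain ⟨j, hj⟩ : ∃ j : ℕ, l.toNat / 2 = 2 * j + e := ⟨l.toNat / 4, by omega⟩
      rw [hj, e1, hLGB.neg]
      have : (-1 : ℂ) ^ (2 * j + e) = (-1) ^ e := by rw [pow_add, pow_mul]; simp
      rw [this]
      ring
    rw [key, norm_mul, norm_pow, norm_neg, norm_one, one_pow, one_mul]
    exact h2

end

end SPH
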