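import Pool.Agent.SPH.T14

/-!
# The sphere S²: module KT1 (helper63)
-/

namespace SPH

open STZ LGR STZ3 MeasureTheory Matrix Filter

open scoped ComplexConjugate Matrix Real Topology

noncomputable section

namespace KT1

/-- jointly measurable bounded functions -/
structure Nc (F : ℝ → (Fin 1 → ℝ) → ℂ) : Prop where
  meas : Measurable (fun z : ℝ × (Fin 1 → ℝ) => F z.1 z.2)
  bd : ∃ b, ∀ t θ, ‖F t θ‖ ≤ b

theorem Nc.sec {F : ℝ → (Fin 1 → ℝ) → ℂ} (hF : Nc F) (t : ℝ) :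
    Integrable (fun θ => F t θ) ((volume : Measure (Fin 1 → ℝ)).restrict (Set.Icc 0 1)) := by
  obtain ⟨b, hb⟩ := hF.bd
  exact Integrable.of_bound (hF.meas.comp (measurable_const.prodMk measurable_id)).aestronglyMeasurable b
    (ae_of_all _ fun θ => hb t θ)

theorem Nc.tm {F : ℝ → (Fin 1 → ℝ) → ℂ} (hF : Nc F) :
    Integrable (fun z : ℝ × (Fin 1 → ℝ) => F z.1 z.2) T14.tm := by
  obtain ⟨b, hb⟩ := hF.bd
  exact Integrable.of_bound hF.meas.aestronglyMeasurable b (ae_of_all _ fun z => hb z.1 z.2)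

theorem Nc.out {F : ℝ → (Fin 1 → ℝ) → ℂ} (hF : Nc F) :
    Integrable (fun t => ∫ θ in Set.Icc (0 : Fin 1 → ℝ) 1, F t θ)
      ((volume : Measure ℝ).restrict (Set.Ioc 0 1)) := by
  have := hF.tm
  unfold T14.tm at this
  exact this.integral_prod_left

theorem conj_int {μ : Measure ℝ} {f : ℝ → ℂ} (hf : Integrable f μ) :
    Integrable (fun x => conj (f x)) μ := by
  refine ⟨Complex.continuous_conj.comp_aestronglyMeasurable hf.1, ?_⟩
  have := hf.2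
  refine this.congr' (ae_of_all _ fun x => ?_)
  simp

theorem conj_int' {μ : Measure (Fin 1 → ℝ)} {f : (Fin 1 → ℝ) → ℂ} (hf : Integrable f μ) :
    Integrable (fun x => conj (f x)) μ := by
  refine ⟨Complex.continuous_conj.comp_aestronglyMeasurable hf.1, ?_⟩
  have := hf.2
  refine this.congr' (ae_of_all _ fun x => ?_)
  simp

theorem four {ι : Type} (I : Finset ι) (c : ι → ℂ) (F G : ι → ℝ → (Fin 1 → ℝ) → ℂ) (hF : ∀ i, Nc (F i))
    (hG : ∀ i, Nc (G i)) :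
    ∫ t in (0 : ℝ)..1, ∫ s in (0 : ℝ)..1, ∫ φ in Set.Icc (0 : Fin 1 → ℝ) 1, ∫ θ in Set.Icc (0 : Fin 1 → ℝ) 1,
        ∑ i ∈ I, c i * (F i s φ * conj (G i t θ)) =
      ∑ i ∈ I, c i * ((∫ s in (0 : ℝ)..1, ∫ φ in Set.Icc (0 : Fin 1 → ℝ) 1, F i s φ) *
        conj (∫ t in (0 : ℝ)..1, ∫ θ in Set.Icc (0 : Fin 1 → ℝ) 1, G i t θ)) := by
  have h1 : ∀ t s φ, ∫ θ in Set.Icc (0 : Fin 1 → ℝ) 1, ∑ i ∈ I, c i * (F i s φ * conj (G i t θ)) =
      ∑ i ∈ I, c i * (F i s φ * conj (∫ θ in Set.Icc (0 : Fin 1 → ℝ) 1, G i t θ)) := by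
    intro t s φ
    rw [integral_finsetSum _ fun i _ => (((conj_int' ((hG i).sec t)).const_mul _).const_mul _)]
    refine Finset.sum_congr rfl fun i _ => ?_
    rw [integral_const_mul, integral_const_mul, integral_conj]
  have h2 : ∀ t s, ∫ φ in Set.Icc (0 : Fin 1 → ℝ) 1,
      ∑ i ∈ I, c i * (F i s φ * conj (∫ θ in Set.Icc (0 : Fin 1 → ℝ) 1, G i t θ)) =
      ∑ i ∈ I, c i * ((∫ φ in Set.Icc (0 : Fin 1 → ℝ) 1, F i s φ) *
        conj (∫ θ in Set.Icc (0 : Fin 1 → ℝ) 1, G i t θ)) := by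
    intro t s
    rw [integral_finsetSum _ fun i _ => ((((hF i).sec s).mul_const _).const_mul _)]
    refine Finset.sum_congr rfl fun i _ => ?_
    rw [integral_const_mul, integral_mul_const]
  simp only [h1, h2, intervalIntegral.integral_of_le zero_le_one]
  have h3 : ∀ t, ∫ s in Set.Ioc (0 : ℝ) 1,
      ∑ i ∈ I, c i * ((∫ φ in Set.Icc (0 : Fin 1 → ℝ) 1, F i s φ) *
        conj (∫ θ in Set.Icc (0 : Fin 1 → ℝ) 1, G i t θ)) =
      ∑ i ∈ I, c i * ((∫ s in Set.Ioc (0 : ℝ) 1, ∫ φ in Set.Icc (0 : Fin 1 → ℝ) 1, F i s φ) *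
        conj (∫ θ in Set.Icc (0 : Fin 1 → ℝ) 1, G i t θ)) := by
    intro t
    rw [integral_finsetSum _ fun i _ => (((hF i).out.mul_const _).const_mul _)]
    refine Finset.sum_congr rfl fun i _ => ?_
    rw [integral_const_mul, integral_mul_const]
  simp only [h3]
  rw [integral_finsetSum _ fun i _ => (((conj_int (hG i).out).const_mul _).const_mul _)]
  refine Finset.sum_congr rfl fun i _ => ?_
  rw [integral_const_mul, integral_const_mul, integral_conj]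

theorem dz1 (l : Fin 1 → ℤ) (θ : Fin 1 → ℝ) : dz l θ = l 0 * θ 0 := by
  simp [dz]

theorem kern (q : ℤ → ℝ) (aa : (Fin 1 → ℤ) → ℂ) (b : ℤ → ℂ) (T : Finset (Fin 1 → ℤ)) (K : ℕ) (κ : ℤ)
    (u w : ℝ → (Fin 1 → ℝ) → ℂ) (t s : ℝ) (φ θ : Fin 1 → ℝ) :
    tk1 q aa b T K κ (t - s) (θ - φ) * (u s φ * conj (w t θ)) =
      ∑ i ∈ T ×ˢ Finset.Icc (-(K : ℤ)) K, (aa i.1 * b i.2 * (q (i.1 0 + κ - 2 * i.2) : ℂ)) *
        ((u s φ * eu (s * ((i.1 0 + κ - 2 * i.2 : ℤ) : ℝ) ^ 2 - i.1 0 * φ 0)) *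
          conj (w t θ * eu (t * ((i.1 0 + κ - 2 * i.2 : ℤ) : ℝ) ^ 2 - i.1 0 * θ 0))) := by
  unfold tk1
  rw [Finset.sum_product, Finset.sum_mul]
  refine Finset.sum_congr rfl fun l _ => ?_
  rw [Finset.mul_sum, Finset.sum_mul, Finset.sum_mul]
  refine Finset.sum_congr rfl fun k _ => ?_
  simp only
  rw [map_mul, T14.conj_eu]
  have h1 : eu (-((t - s) * ((l 0 + κ - 2 * k : ℤ) : ℝ) ^ 2)) * eu (dz l (θ - φ)) =
      eu (s * ((l 0 + κ - 2 * k : ℤ) : ℝ) ^ 2 - l 0 * φ 0) *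
        eu (-(t * ((l 0 + κ - 2 * k : ℤ) : ℝ) ^ 2 - l 0 * θ 0)) := by
    rw [← T14.eu_add, ← T14.eu_add, dz1, Pi.sub_apply]
    congr 1
    ring
  linear_combination (aa l * b k * (q (l 0 + κ - 2 * k) : ℂ) * u s φ * conj (w t θ)) * h1

end KT1

open KT1 in
theorem t_KT1 : M_KT1 := by
  intro hT ε hε
  obtain ⟨C, hC, h⟩ := hT ε hε
  refine ⟨C, hC, fun X q aa b T K κ A hX hA hq hqX haa => ⟨?_, ?_⟩⟩
  · unfold tk1 eu dz
    fun_prop
  intro Q S u w b₁ hQm hSm hQ hS hum hub hwm hwb hu0 hw0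
  set Kt := Set.Icc (0 : Fin 1 → ℝ) 1 with hKt
  set F : (Fin 1 → ℤ) × ℤ → (ℝ → (Fin 1 → ℝ) → ℂ) → ℝ → (Fin 1 → ℝ) → ℂ :=
    fun i v s φ => v s φ * eu (s * ((i.1 0 + κ - 2 * i.2 : ℤ) : ℝ) ^ 2 - i.1 0 * φ 0) with hF
  have hNc : ∀ (v : ℝ → (Fin 1 → ℝ) → ℂ), Measurable (fun z : ℝ × (Fin 1 → ℝ) => v z.1 z.2) →
      (∀ t θ, ‖v t θ‖ ≤ b₁) → ∀ i, Nc (F i v) := by
    intro v hv hvb i
    refine ⟨?_, b₁, fun t θ => ?_⟩
    · simp only [hF]
      refine hv.mul (Continuous.measurable ?_)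
      unfold eu
      fun_prop
    · simp only [hF]
      rw [norm_mul, T14.norm_eu, mul_one]
      exact hvb t θ
  simp only [kern q aa b T K κ u w]
  have h4 := four (T ×ˢ Finset.Icc (-(K : ℤ)) K)
    (fun i => aa i.1 * b i.2 * (q (i.1 0 + κ - 2 * i.2) : ℂ))
    (fun i => F i u) (fun i => F i w) (hNc u hum hub) (hNc w hwm hwb)
  simp only [hF] at h4
  rw [h4]
  -- the coefficients
  set Y : (ℝ → (Fin 1 → ℝ) → ℂ) → (Fin 1 → ℤ) → ℤ → ℂ := fun v l k =>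
    ∫ s in (0 : ℝ)..1, ∫ φ in Kt, v s φ * eu (s * ((l 0 + κ - 2 * k : ℤ) : ℝ) ^ 2 - l 0 * φ 0) with hY
  set U : (ℝ → (Fin 1 → ℝ) → ℂ) → ℝ := fun v =>
    ∫ t in (0 : ℝ)..1, ∫ θ in Kt, ‖v t θ‖ ^ ((14 : ℝ) / 11) with hU
  have hU0 : ∀ v, 0 ≤ U v := by
    intro v
    simp only [hU]
    refine intervalIntegral.integral_nonneg zero_le_one fun t _ => ?_
    exact integral_nonneg fun θ => by positivity
  have hX0 : (0 : ℝ) < X := by exact_mod_cast hX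
  have hL2 : ∀ (v : ℝ → (Fin 1 → ℝ) → ℂ) (R : Set (Fin 1 → ℝ)), MeasurableSet R → R ⊆ Kt →
      Measurable (fun z : ℝ × (Fin 1 → ℝ) => v z.1 z.2) →
      (∀ t θ, ‖v t θ‖ ≤ b₁) → (∀ t, ∀ φ, φ ∉ R → v t φ = 0) → ∀ k,
      ∑ l ∈ T.filter (fun l => q (l 0 + κ - 2 * k) ≠ 0), ‖Y v l k‖ ^ 2 ≤
        C * (X : ℝ) ^ ε * volume.real R ^ ((2 : ℝ) / 7) * U v ^ ((11 : ℝ) / 7) := by
    intro v R hRm hR hv hvb hv0 k
    classical
    have h1 := h X (2 * k - κ)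
      ((T.filter (fun l => q (l 0 + κ - 2 * k) ≠ 0)).image fun l => l 0 + κ - 2 * k) R v b₁ hX ?_
        hRm hR hv hvb hv0
    · rw [Finset.sum_image] at h1
      · refine le_trans (le_of_eq ?_) h1
        refine Finset.sum_congr rfl fun l _ => ?_
        have e : l 0 + κ - 2 * k + (2 * k - κ) = l 0 := by ring
        rw [e]
      · intro a _ a' _ haa'
        simp only at haa'
        funext i
        fin_cases i
        simpa using haa'
    · intro l hl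
      rw [Finset.mem_image] at hl
      obtain ⟨l', hl', rfl⟩ := hl
      exact hqX _ (Finset.mem_filter.1 hl').2
  set QS : ℝ := (volume.real Q * volume.real S) ^ ((1 : ℝ) / 7) with hQS
  have hQ0 : 0 ≤ volume.real Q := measureReal_nonneg
  have hS0 : 0 ≤ volume.real S := measureReal_nonneg
  rw [Finset.sum_product_right]
  have hk : ∀ k ∈ Finset.Icc (-(K : ℤ)) K,
      ‖∑ l ∈ T, aa l * b k * (q (l 0 + κ - 2 * k) : ℂ) * (Y u l k * conj (Y w l k))‖ ≤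
      ‖b k‖ * (A * (C * (X : ℝ) ^ ε * (QS * (U u ^ ((11 : ℝ) / 14) * U w ^ ((11 : ℝ) / 14))))) := by
    intro k hkK
    have h5 : ∑ l ∈ T, aa l * b k * (q (l 0 + κ - 2 * k) : ℂ) * (Y u l k * conj (Y w l k)) =
        ∑ l ∈ T.filter (fun l => q (l 0 + κ - 2 * k) ≠ 0),
          aa l * b k * (q (l 0 + κ - 2 * k) : ℂ) * (Y u l k * conj (Y w l k)) := by
      symm
      apply Finset.sum_filter_of_ne
      intro l _ hne hq0
      apply hne
      rw [hq0]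
      simp
    rw [h5]
    calc ‖∑ l ∈ T.filter (fun l => q (l 0 + κ - 2 * k) ≠ 0),
          aa l * b k * (q (l 0 + κ - 2 * k) : ℂ) * (Y u l k * conj (Y w l k))‖
        ≤ ∑ l ∈ T.filter (fun l => q (l 0 + κ - 2 * k) ≠ 0), ‖b k‖ * A * (‖Y u l k‖ * ‖Y w l k‖) := by
          refine (norm_sum_le _ _).trans (Finset.sum_le_sum fun l hl => ?_)
          rw [Finset.mem_filter] at hl
          rw [norm_mul, norm_mul, norm_mul, norm_mul, Complex.norm_conj, Complex.norm_real,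
            Real.norm_of_nonneg (hq _).1]
          have h6 := haa l hl.1 k hkK hl.2
          have h7 : ‖aa l‖ * ‖b k‖ * q (l 0 + κ - 2 * k) ≤ ‖b k‖ * A := by
            calc ‖aa l‖ * ‖b k‖ * q (l 0 + κ - 2 * k) ≤ ‖aa l‖ * ‖b k‖ * 1 :=
                  mul_le_mul_of_nonneg_left (hq _).2 (by positivity)
              _ = ‖b k‖ * ‖aa l‖ := by ring
              _ ≤ _ := mul_le_mul_of_nonneg_left h6 (norm_nonneg _)
          exact mul_le_mul_of_nonneg_right h7 (by positivity)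
      _ = ‖b k‖ * A * ∑ l ∈ T.filter (fun l => q (l 0 + κ - 2 * k) ≠ 0), ‖Y u l k‖ * ‖Y w l k‖ := by
          rw [Finset.mul_sum]
      _ ≤ ‖b k‖ * A * (√(∑ l ∈ T.filter (fun l => q (l 0 + κ - 2 * k) ≠ 0), ‖Y u l k‖ ^ 2) *
            √(∑ l ∈ T.filter (fun l => q (l 0 + κ - 2 * k) ≠ 0), ‖Y w l k‖ ^ 2)) := by
          refine mul_le_mul_of_nonneg_left ?_ (by positivity)
          exact Real.sum_mul_le_sqrt_mul_sqrt _ _ _
      _ ≤ ‖b k‖ * A * (√(C * (X : ℝ) ^ ε * volume.real Q ^ ((2 : ℝ) / 7) * U u ^ ((11 : ℝ) / 7)) *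
            √(C * (X : ℝ) ^ ε * volume.real S ^ ((2 : ℝ) / 7) * U w ^ ((11 : ℝ) / 7))) := by
          refine mul_le_mul_of_nonneg_left ?_ (by positivity)
          exact mul_le_mul (Real.sqrt_le_sqrt (hL2 u Q hQm hQ hum hub hu0 k))
            (Real.sqrt_le_sqrt (hL2 w S hSm hS hwm hwb hw0 k))
            (Real.sqrt_nonneg _) (Real.sqrt_nonneg _)
      _ = ‖b k‖ * (A * (C * (X : ℝ) ^ ε * (QS * (U u ^ ((11 : ℝ) / 14) * U w ^ ((11 : ℝ) / 14))))) := by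
          have hs : ∀ (v : ℝ → (Fin 1 → ℝ) → ℂ) (r : ℝ), 0 ≤ r →
              √(C * (X : ℝ) ^ ε * r ^ ((2 : ℝ) / 7) * U v ^ ((11 : ℝ) / 7)) =
              √(C * (X : ℝ) ^ ε) * (r ^ ((1 : ℝ) / 7) * U v ^ ((11 : ℝ) / 14)) := by
            intro v r hr
            rw [Real.sqrt_mul (by positivity), Real.sqrt_mul (by positivity), mul_assoc]
            congr 2
            · rw [Real.sqrt_eq_rpow, ← Real.rpow_mul hr]
              norm_num
            · rw [Real.sqrt_eq_rpow, ← Real.rpow_mul (hU0 v)]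
              norm_num
          rw [hs _ _ hQ0, hs _ _ hS0, hQS, Real.mul_rpow hQ0 hS0]
          have := Real.mul_self_sqrt (show 0 ≤ C * (X : ℝ) ^ ε by positivity)
          linear_combination (‖b k‖ * A * ((volume.real Q ^ ((1 : ℝ) / 7) * U u ^ ((11 : ℝ) / 14)) *
            (volume.real S ^ ((1 : ℝ) / 7) * U w ^ ((11 : ℝ) / 14)))) * this
  refine (norm_sum_le _ _).trans ((Finset.sum_le_sum hk).trans (le_of_eq ?_))
  rw [← Finset.sum_mul]
  ring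

end

end SPH
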