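import Pool.Agent.SPH.StA

/-!
# LAW: the law of the coordinate of the sphere is uniform (module of helper5)
-/

set_option autoImplicit false

namespace SPH

open STZ LGR STZ3 MeasureTheory Matrix Filter

open scoped ComplexConjugate Matrix Real Topology

noncomputable section

namespace LAW

/-! ### Measures on `[-1, 1]` with the same moments -/

theorem int_pow (ν : Measure ℝ) [IsProbabilityMeasure ν] (h : ∀ᵐ x ∂ν, x ∈ Set.Icc (-1 : ℝ) 1)
    (n : ℕ) : Integrable (fun x : ℝ => x ^ n) ν := by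
  refine Integrable.of_bound (continuous_pow n).aestronglyMeasurable 1 ?_
  filter_upwards [h] with x hx
  rw [norm_pow, Real.norm_eq_abs]
  exact pow_le_one₀ (abs_nonneg _) (abs_le.2 hx)

theorem int_poly (ν : Measure ℝ) [IsProbabilityMeasure ν] (h : ∀ᵐ x ∂ν, x ∈ Set.Icc (-1 : ℝ) 1)
    (p : Polynomial ℝ) : Integrable (fun x : ℝ => p.eval x) ν ∧
      ∫ x, p.eval x ∂ν = ∑ i ∈ Finset.range (p.natDegree + 1), p.coeff i * ∫ x, x ^ i ∂ν := by
  have h1 : ∀ i ∈ Finset.range (p.natDegree + 1),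
      Integrable (fun x : ℝ => p.coeff i * x ^ i) ν := fun i _ => (int_pow ν h i).const_mul _
  have h2 : (fun x : ℝ => p.eval x) =
      fun x => ∑ i ∈ Finset.range (p.natDegree + 1), p.coeff i * x ^ i := by
    funext x
    exact Polynomial.eval_eq_sum_range x
  rw [h2]
  refine ⟨integrable_finsetSum _ h1, ?_⟩
  rw [integral_finsetSum _ h1]
  exact Finset.sum_congr rfl fun i _ => integral_const_mul _ _

theorem ext_moments (ν₁ ν₂ : Measure ℝ) [IsProbabilityMeasure ν₁] [IsProbabilityMeasure ν₂]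
    (h1 : ∀ᵐ x ∂ν₁, x ∈ Set.Icc (-1 : ℝ) 1) (h2 : ∀ᵐ x ∂ν₂, x ∈ Set.Icc (-1 : ℝ) 1)
    (hm : ∀ n : ℕ, ∫ x, x ^ n ∂ν₁ = ∫ x, x ^ n ∂ν₂) : ν₁ = ν₂ := by
  refine ext_of_forall_integral_eq_of_IsFiniteMeasure (fun f => ?_)
  have hcl : ∀ ε : ℝ, 0 < ε → |∫ x, f x ∂ν₁ - ∫ x, f x ∂ν₂| ≤ 2 * ε := by
    intro ε hε
    obtain ⟨p, hp⟩ := exists_polynomial_near_of_continuousOn (-1) 1 f f.continuous.continuousOn ε hε
    have hb : ∀ (ν : Measure ℝ) [IsProbabilityMeasure ν], (∀ᵐ x ∂ν, x ∈ Set.Icc (-1 : ℝ) 1) →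
        |∫ x, p.eval x ∂ν - ∫ x, f x ∂ν| ≤ ε := by
      intro ν _ hν
      have hfi : Integrable (fun x => f x) ν := f.integrable ν
      rw [← integral_sub (int_poly ν hν p).1 hfi, ← Real.norm_eq_abs]
      have h3 : ∀ᵐ x ∂ν, ‖p.eval x - f x‖ ≤ ε := by
        filter_upwards [hν] with x hx
        exact (hp x hx).le
      have h4 := norm_integral_le_of_norm_le_const h3
      simpa using h4
    have e1 := hb ν₁ h1
    have e2 := hb ν₂ h2
    have e3 : ∫ x, p.eval x ∂ν₁ = ∫ x, p.eval x ∂ν₂ := by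
      rw [(int_poly ν₁ h1 p).2, (int_poly ν₂ h2 p).2]
      exact Finset.sum_congr rfl fun i _ => by rw [hm i]
    rw [abs_le] at e1 e2 ⊢
    constructor <;> linarith [e1.1, e1.2, e2.1, e2.2]
  have h5 : |∫ x, f x ∂ν₁ - ∫ x, f x ∂ν₂| = 0 := by
    by_contra h6
    have h7 : 0 < |∫ x, f x ∂ν₁ - ∫ x, f x ∂ν₂| := lt_of_le_of_ne (abs_nonneg _) (Ne.symm h6)
    have h8 := hcl (|∫ x, f x ∂ν₁ - ∫ x, f x ∂ν₂| / 3) (by positivity)
    linarith
  exact sub_eq_zero.1 (abs_eq_zero.1 h5)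

/-- the uniform distribution on `[-1, 1]` -/
def un : Measure ℝ := ENNReal.ofReal (1 / 2) • (volume.restrict (Set.Icc (-1 : ℝ) 1))

instance : IsProbabilityMeasure un := by
  refine ⟨?_⟩
  rw [un, Measure.smul_apply, Measure.restrict_apply_univ, Real.volume_Icc, smul_eq_mul,
    ← ENNReal.ofReal_mul (by norm_num)]
  norm_num

theorem un_ae : ∀ᵐ x ∂un, x ∈ Set.Icc (-1 : ℝ) 1 := by
  have h : ∀ᵐ x ∂(volume.restrict (Set.Icc (-1 : ℝ) 1)), x ∈ Set.Icc (-1 : ℝ) 1 :=
    ae_restrict_mem measurableSet_Icc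
  exact Measure.ae_smul_measure h _

theorem un_mom (n : ℕ) : ∫ x, x ^ n ∂un = (1 - (-1) ^ (n + 1)) / (2 * (n + 1)) := by
  rw [un, integral_smul_measure, integral_Icc_eq_integral_Ioc,
    ← intervalIntegral.integral_of_le (by norm_num), integral_pow, ENNReal.toReal_ofReal
      (by norm_num), smul_eq_mul, one_pow]
  field_simp

/-! ### The moments of the coordinate -/

theorem exists_rot (z : ℂ) (s : ℝ) (h : ‖z‖ ^ 2 = s ^ 2) : ∃ θ : ℝ, eu (2 * θ) * z = s := by
  rcases eq_or_ne z 0 with rfl | hz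
  · refine ⟨0, ?_⟩
    rw [norm_zero] at h
    have h1 : s = 0 := by
      have h2 : s ^ 2 = 0 := by rw [← h]; norm_num
      exact pow_eq_zero_iff (two_ne_zero) |>.1 h2
    rw [h1, mul_zero]
    norm_num
  · have hn : ‖(s : ℂ) / z‖ = 1 := by
      rw [norm_div, Complex.norm_real, Real.norm_eq_abs]
      have h1 : ‖z‖ = |s| := by
        rw [← abs_of_nonneg (norm_nonneg z)]
        exact (sq_eq_sq_iff_abs_eq_abs _ _).1 h
      rw [← h1]
      exact div_self (norm_ne_zero_iff.2 hz)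
    refine ⟨Complex.arg ((s : ℂ) / z) / (4 * π), ?_⟩
    have h2 : eu (2 * (Complex.arg ((s : ℂ) / z) / (4 * π))) = (s : ℂ) / z := by
      have h3 := Complex.norm_mul_exp_arg_mul_I ((s : ℂ) / z)
      rw [hn, Complex.ofReal_one, one_mul] at h3
      conv_rhs => rw [← h3]
      rw [eu]
      congr 1
      push_cast
      have hpi : (π : ℂ) ≠ 0 := by exact_mod_cast Real.pi_ne_zero
      field_simp
      ring
    rw [h2, div_mul_cancel₀ _ hz]

variable {N : ℕ} {H : Subgroup (SU N)} {Hc : Fin 1 → MT N} {cc : H → ℝ} {ze : H → ℂ} {w : H}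
  {C : ℝ}

theorem exists_pt (hs : SPF H Hc cc ze w C) (hconn : IsConnected (H : Set (SU N))) (a s : ℝ)
    (h : a ^ 2 + s ^ 2 = 1) : ∃ x : H, cc x = a ∧ ze x = s := by
  have : ConnectedSpace H := isConnected_iff_connectedSpace.1 hconn
  have h1 : cc w = -1 := by
    have h2 := hs.wcc 1
    rwa [one_mul, hs.one] at h2
  have ha : |a| ≤ 1 := by
    rw [← sq_le_one_iff_abs_le_one]
    nlinarith [sq_nonneg s]
  rw [abs_le] at ha
  obtain ⟨x0, hx0⟩ := mem_range_of_exists_le_of_exists_ge hs.ccont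
    (⟨w, by rw [h1]; exact ha.1⟩ : ∃ b, cc b ≤ a) ⟨1, by rw [hs.one]; exact ha.2⟩
  have hn := hs.norm x0
  rw [hx0] at hn
  obtain ⟨θ, hθ⟩ := exists_rot (ze x0) s (by linarith)
  refine ⟨tt H Hc (fun _ => θ) * x0, ?_, ?_⟩
  · rw [hs.cleft, hx0]
  · rw [hs.zleft, hθ]

section Mom

variable (μ : Measure H) [IsProbabilityMeasure μ] [μ.IsMulLeftInvariant]

theorem ci [CompactSpace H] (f : H → ℝ) (hf : Continuous f) : Integrable f μ :=
  hf.integrable_of_hasCompactSupport (HasCompactSupport.of_compactSpace f)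

theorem odd_mom (hs : SPF H Hc cc ze w C) (hconn : IsConnected (H : Set (SU N))) (n : ℕ)
    (hn : Odd n) : ∫ g, cc g ^ n ∂μ = 0 := by
  obtain ⟨x, hx1, hx2⟩ := exists_pt hs hconn (-1) 0 (by norm_num)
  have h1 := integral_mul_left_eq_self (μ := μ) (fun g => cc g ^ n) x⁻¹
  have h2 : ∀ g, cc (x⁻¹ * g) ^ n = -(cc g ^ n) := by
    intro g
    rw [hs.inner, hx1, hx2, Complex.ofReal_zero, zero_mul, Complex.zero_re, add_zero,
      neg_one_mul, hn.neg_pow]
  simp only [h2, integral_neg] at h1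
  linarith

theorem key (hs : SPF H Hc cc ze w C) (hconn : IsConnected (H : Set (SU N))) (i : ℕ) (t : ℝ) :
    ∫ g, (t * (ze g).re + cc g) ^ (2 * i) ∂μ = (∫ g, cc g ^ (2 * i) ∂μ) * (1 + t ^ 2) ^ i := by
  have hr0 : 0 < 1 + t ^ 2 := by positivity
  set r : ℝ := √(1 + t ^ 2) with hr
  have hr1 : 0 < r := Real.sqrt_pos.2 hr0
  have hr2 : r ^ 2 = 1 + t ^ 2 := Real.sq_sqrt hr0.le
  obtain ⟨x, hx1, hx2⟩ := exists_pt hs hconn (1 / r) (t / r) (by
    rw [div_pow, div_pow, ← add_div, one_pow, hr2]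
    exact div_self hr0.ne')
  have h1 := integral_mul_left_eq_self (μ := μ) (fun g => cc g ^ (2 * i)) x⁻¹
  have h2 : ∀ g, cc (x⁻¹ * g) ^ (2 * i) = (t * (ze g).re + cc g) ^ (2 * i) / (1 + t ^ 2) ^ i := by
    intro g
    rw [hs.inner, hx1, hx2, Complex.re_ofReal_mul, Complex.conj_re]
    have h3 : 1 / r * cc g + t / r * (ze g).re = (t * (ze g).re + cc g) / r := by ring
    rw [h3, div_pow, pow_mul r 2 i, hr2]
  simp only [h2, integral_div] at h1
  rw [← h1, div_mul_cancel₀]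
  positivity

theorem half (hs : SPF H Hc cc ze w C) [CompactSpace H] (n : ℕ) :
    2 * ∫ g, (ze g).re ^ 2 * cc g ^ n ∂μ = ∫ g, cc g ^ n ∂μ - ∫ g, cc g ^ (n + 2) ∂μ := by
  have hcre : Continuous fun g => (ze g).re := Complex.continuous_re.comp hs.zcont
  have hcim : Continuous fun g => (ze g).im := Complex.continuous_im.comp hs.zcont
  have h1 := integral_mul_left_eq_self (μ := μ) (fun g => (ze g).re ^ 2 * cc g ^ n)
    (tt H Hc (fun _ => 1 / 8))
  have he : eu (2 * (1 / 8)) = Complex.I := by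
    rw [eu]
    have h2 : (2 * π * ((2 * (1 / 8) : ℝ) : ℂ) * Complex.I) = (π / 2 : ℂ) * Complex.I := by
      push_cast
      ring
    rw [h2, Complex.exp_pi_div_two_mul_I]
  have h2 : ∀ g, (ze (tt H Hc (fun _ => 1 / 8) * g)).re ^ 2 * cc (tt H Hc (fun _ => 1 / 8) * g) ^ n
      = (ze g).im ^ 2 * cc g ^ n := by
    intro g
    rw [hs.zleft, hs.cleft, he]
    simp
  simp only [h2] at h1
  have h3 : ∀ g, (ze g).im ^ 2 * cc g ^ n =
      cc g ^ n - cc g ^ (n + 2) - (ze g).re ^ 2 * cc g ^ n := by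
    intro g
    have h4 := hs.norm g
    rw [← Complex.normSq_eq_norm_sq, Complex.normSq_apply] at h4
    have h5 : (ze g).im ^ 2 = 1 - cc g ^ 2 - (ze g).re ^ 2 := by nlinarith
    rw [h5]
    ring
  have i1 : Integrable (fun g => cc g ^ n) μ := ci μ _ (hs.ccont.pow n)
  have i2 : Integrable (fun g => cc g ^ (n + 2)) μ := ci μ _ (hs.ccont.pow _)
  have i3 : Integrable (fun g => (ze g).re ^ 2 * cc g ^ n) μ :=
    ci μ _ ((hcre.pow 2).mul (hs.ccont.pow n))
  have i4 : Integrable (fun g => cc g ^ n - cc g ^ (n + 2)) μ := i1.sub i2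
  simp only [h3] at h1
  rw [integral_sub i4 i3, integral_sub i1 i2] at h1
  linarith

theorem coef (hs : SPF H Hc cc ze w C) (hconn : IsConnected (H : Set (SU N))) [CompactSpace H]
    (i : ℕ) (hi : 1 ≤ i) :
    ((2 * i).choose 2 : ℝ) * ∫ g, (ze g).re ^ 2 * cc g ^ (2 * i - 2) ∂μ =
      (∫ g, cc g ^ (2 * i) ∂μ) * i := by
  have hcre : Continuous fun g => (ze g).re := Complex.continuous_re.comp hs.zcont
  set n : ℕ := 2 * i with hn
  set q : ℝ := ∫ g, cc g ^ n ∂μ with hq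
  set P : Polynomial ℝ := ∑ m ∈ Finset.range (n + 1),
    Polynomial.C ((n.choose m : ℝ) * ∫ g, (ze g).re ^ m * cc g ^ (n - m) ∂μ) * Polynomial.X ^ m
    with hP
  have hPe : ∀ t : ℝ, P.eval t = q * (1 + t ^ 2) ^ i := by
    intro t
    rw [← key μ hs hconn i t, hP, Polynomial.eval_finsetSum]
    have h1 : ∀ g, (t * (ze g).re + cc g) ^ (2 * i) = ∑ m ∈ Finset.range (n + 1),
        (n.choose m : ℝ) * t ^ m * ((ze g).re ^ m * cc g ^ (n - m)) := by
      intro g
      rw [add_pow]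
      refine Finset.sum_congr rfl fun m _ => ?_
      rw [mul_pow]
      ring
    simp only [h1]
    rw [integral_finsetSum]
    · refine Finset.sum_congr rfl fun m _ => ?_
      rw [integral_const_mul, Polynomial.eval_mul, Polynomial.eval_C, Polynomial.eval_pow,
        Polynomial.eval_X]
      ring
    · intro m _
      exact (ci μ _ ((hcre.pow m).mul (hs.ccont.pow _))).const_mul _
  have hPP : P = Polynomial.C q * (1 + Polynomial.X ^ 2) ^ i := by
    refine Polynomial.funext fun t => ?_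
    rw [hPe, Polynomial.eval_mul, Polynomial.eval_C, Polynomial.eval_pow, Polynomial.eval_add,
      Polynomial.eval_one, Polynomial.eval_pow, Polynomial.eval_X]
  have h2 : ((1 + Polynomial.X ^ 2 : Polynomial ℝ) ^ i).coeff 2 = i := by
    have h3 : (1 + Polynomial.X ^ 2 : Polynomial ℝ) ^ i =
        Polynomial.expand ℝ 2 ((1 + Polynomial.X) ^ i) := by
      rw [map_pow, map_add, map_one, Polynomial.expand_X]
    rw [h3]
    have h4 := Polynomial.coeff_expand_mul (R := ℝ) (p := 2) (by norm_num)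
      ((1 + Polynomial.X) ^ i) 1
    rw [one_mul] at h4
    rw [h4, Polynomial.coeff_one_add_X_pow, Nat.choose_one_right]
  have h5 := congrArg (fun Q => Polynomial.coeff Q 2) hPP
  simp only [Polynomial.coeff_C_mul, h2] at h5
  rw [← h5, hP, Polynomial.finsetSum_coeff]
  simp only [Polynomial.coeff_C_mul_X_pow]
  rw [Finset.sum_ite_eq, if_pos (Finset.mem_range.2 (by omega))]

theorem even_mom (hs : SPF H Hc cc ze w C) (hconn : IsConnected (H : Set (SU N)))
    [CompactSpace H] (i : ℕ) : ∫ g, cc g ^ (2 * i) ∂μ = 1 / (2 * i + 1) := by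
  induction i with
  | zero => simp
  | succ i ih =>
    have h1 := coef μ hs hconn (i + 1) (by omega)
    have h2 := half μ hs (2 * i)
    have e1 : 2 * (i + 1) - 2 = 2 * i := by omega
    have e2 : 2 * i + 2 = 2 * (i + 1) := by ring
    rw [e1] at h1
    rw [e2, ih] at h2
    have h3 : (((2 * (i + 1)).choose 2 : ℕ) : ℝ) = (i + 1) * (2 * i + 1) := by
      rw [Nat.cast_choose_two]
      push_cast
      ring
    rw [h3] at h1
    set M : ℝ := ∫ g, (ze g).re ^ 2 * cc g ^ (2 * i) ∂μ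
    set q : ℝ := ∫ g, cc g ^ (2 * (i + 1)) ∂μ
    have hi : (0 : ℝ) < (i : ℝ) + 1 := by positivity
    have h4 : (2 * (i : ℝ) + 1) * M = q := by
      push_cast at h1
      have h5 : ((i : ℝ) + 1) * ((2 * (i : ℝ) + 1) * M) = ((i : ℝ) + 1) * q := by linarith
      exact mul_left_cancel₀ hi.ne' h5
    push_cast
    rw [eq_div_iff (by positivity)]
    have h6 : (1 : ℝ) / (2 * i + 1) * (2 * i + 1) = 1 := by
      field_simp
    nlinarith

end Mom

end LAW

open LAW

theorem t_LAW : M_LAW := by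
  intro _ _ N H Φ B Hc E c k hX cc ze w C hs μ _ _ f hf
  have : CompactSpace H := isCompact_iff_compactSpace.1 hX.closed.isCompact
  have hmeas : Measurable cc := hs.ccont.measurable
  have : IsProbabilityMeasure (μ.map cc) := Measure.isProbabilityMeasure_map hmeas.aemeasurable
  have h1 : ∀ᵐ x ∂(μ.map cc), x ∈ Set.Icc (-1 : ℝ) 1 := by
    refine (ae_map_iff (p := fun x => x ∈ Set.Icc (-1 : ℝ) 1) hmeas.aemeasurable
      measurableSet_Icc).2 (Eventually.of_forall fun g => ?_)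
    have h2 := hs.norm g
    have h3 : |cc g| ≤ 1 := by
      rw [← sq_le_one_iff_abs_le_one]
      nlinarith [sq_nonneg ‖ze g‖]
    exact abs_le.1 h3
  have h2 : μ.map cc = un := by
    refine ext_moments _ _ h1 un_ae fun n => ?_
    rw [un_mom, integral_map hmeas.aemeasurable (continuous_pow n).aestronglyMeasurable]
    rcases Nat.even_or_odd n with hn | hn
    · obtain ⟨i, rfl⟩ := hn.two_dvd
      rw [even_mom μ hs hX.conn i, pow_succ, pow_mul]
      push_cast
      norm_num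
      field_simp
    · rw [odd_mom μ hs hX.conn n hn, hn.add_one.neg_one_pow]
      simp
  rw [← lintegral_map hf hmeas, h2, un, lintegral_smul_measure, smul_eq_mul]
  simp only [div_eq_mul_inv]
  rw [lintegral_mul_const _ hf, mul_comm]
  congr 1
  rw [one_mul, ENNReal.ofReal_inv_of_pos (by norm_num)]
  norm_num

end

end SPH
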