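import Mathlib
import Pool.Agent.SPH.StA

/-!
# The average of the Chebyshev polynomials

Module LGA of the project SPH.
-/

set_option autoImplicit false
set_option linter.unusedVariables false

namespace SPH

open STZ LGR STZ3 MeasureTheory Matrix Filter

open scoped ComplexConjugate Matrix Real Topology

noncomputable section

namespace LGA

/-- the point at which the polynomials are evaluated -/
def x (a ψ : ℝ) : ℝ := √a * Real.cos (π * ψ)

/-- the values of the polynomials -/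
def u (a ψ : ℝ) (j : ℤ) : ℝ := (Polynomial.Chebyshev.U ℝ j).eval (x a ψ)

/-- the average -/
def V (a : ℝ) (k : ℤ) : ℝ := ∫ ψ in (0 : ℝ)..1, u a ψ (2 * k)

lemma u_up (a ψ : ℝ) (j : ℤ) : u a ψ (j + 2) = 2 * x a ψ * u a ψ (j + 1) - u a ψ j := by
  unfold u
  rw [Polynomial.Chebyshev.U_add_two]
  simp

lemma x_cont (a : ℝ) : Continuous (x a) := by
  unfold x
  fun_prop

lemma u_int (a : ℝ) (j : ℤ) : IntervalIntegrable (fun ψ => u a ψ j) volume 0 1 :=
  ((Polynomial.Chebyshev.U ℝ j).continuous.comp (x_cont a)).intervalIntegrable _ _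

lemma hd_x (a ψ : ℝ) : HasDerivAt (x a) (-(π * (√a * Real.sin (π * ψ)))) ψ := by
  have h1 : HasDerivAt (fun ψ : ℝ => π * ψ) π ψ := by
    simpa using (hasDerivAt_id ψ).const_mul π
  refine HasDerivAt.congr_deriv (f := x a) (h1.cos.const_mul √a) ?_
  ring

lemma hd_s (a ψ : ℝ) : HasDerivAt (fun ψ => 4 * (√a * Real.sin (π * ψ))) (4 * (π * x a ψ)) ψ := by
  have h1 : HasDerivAt (fun ψ : ℝ => π * ψ) π ψ := by
    simpa using (hasDerivAt_id ψ).const_mul π
  refine ((h1.sin.const_mul √a).const_mul 4).congr_deriv ?_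
  unfold x
  ring

lemma rec_V {a : ℝ} (ha : 0 ≤ a) (k : ℤ) :
    ((k : ℝ) + 1) * V a (k + 1) + k * V a (k - 1) - (2 * k + 1) * (2 * a - 1) * V a k = 0 := by
  have hd : ∀ ψ ∈ Set.uIcc (0 : ℝ) 1, HasDerivAt
      (fun ψ => (Polynomial.Chebyshev.T ℝ (2 * k + 1)).eval (x a ψ) * (4 * (√a * Real.sin (π * ψ))))
      (2 * π * ((k : ℝ) + 1) * u a ψ (2 * (k + 1)) + 2 * π * k * u a ψ (2 * (k - 1)) +
        2 * π * (-((2 * k + 1) * (2 * a - 1))) * u a ψ (2 * k)) ψ := by
    intro ψ _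
    have h1 := (((Polynomial.Chebyshev.T ℝ (2 * k + 1)).hasDerivAt (x a ψ)).comp ψ (hd_x a ψ)).mul
      (hd_s a ψ)
    refine h1.congr_deriv ?_
    have e1 : (Polynomial.derivative (Polynomial.Chebyshev.T ℝ (2 * k + 1))).eval (x a ψ) =
        (2 * k + 1) * u a ψ (2 * k) := by
      rw [Polynomial.Chebyshev.T_derivative_eq_U, show 2 * k + 1 - 1 = 2 * k by ring]
      simp [u]
    have e2 : (Polynomial.Chebyshev.T ℝ (2 * k + 1)).eval (x a ψ) =
        u a ψ (2 * k + 1) - x a ψ * u a ψ (2 * k) := by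
      rw [Polynomial.Chebyshev.T_eq_U_sub_X_mul_U, show 2 * k + 1 - 1 = 2 * k by ring]
      simp [u]
    have r1 := u_up a ψ (2 * k)
    have r2 := u_up a ψ (2 * k - 1)
    have r3 := u_up a ψ (2 * k - 2)
    rw [show 2 * k - 1 + 2 = 2 * k + 1 by ring, show 2 * k - 1 + 1 = 2 * k by ring] at r2
    rw [show 2 * k - 2 + 2 = 2 * k by ring, show 2 * k - 2 + 1 = 2 * k - 1 by ring] at r3
    have hx : x a ψ ^ 2 = a * (1 - Real.sin (π * ψ) ^ 2) := by
      unfold x
      rw [mul_pow, Real.sq_sqrt ha]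
      have := Real.sin_sq_add_cos_sq (π * ψ)
      have h3 : Real.cos (π * ψ) ^ 2 = 1 - Real.sin (π * ψ) ^ 2 := by linarith
      rw [h3]
    have hs : √a * √a = a := Real.mul_self_sqrt ha
    simp only [Function.comp_apply]
    rw [e1, e2, show 2 * (k + 1) = 2 * k + 2 by ring, show 2 * (k - 1) = 2 * k - 2 by ring, r1]
    have q2 : u a ψ (2 * k - 1) = 2 * x a ψ * u a ψ (2 * k) - u a ψ (2 * k + 1) := by linarith
    have q3 : u a ψ (2 * k - 2) = 2 * x a ψ * u a ψ (2 * k - 1) - u a ψ (2 * k) := by linarith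
    rw [q3, q2]
    linear_combination (-(4 * π * (2 * (k : ℝ) + 1) * u a ψ (2 * k))) * hx -
      (4 * π * (2 * (k : ℝ) + 1) * u a ψ (2 * k) * Real.sin (π * ψ) ^ 2) * hs
  have i0 := (u_int a (2 * (k + 1))).const_mul (2 * π * ((k : ℝ) + 1))
  have i1 := (u_int a (2 * (k - 1))).const_mul (2 * π * k)
  have i2 := (u_int a (2 * k)).const_mul (2 * π * (-((2 * (k : ℝ) + 1) * (2 * a - 1))))
  have h1 := intervalIntegral.integral_eq_sub_of_hasDerivAt hd ((i0.add i1).add i2)
  rw [intervalIntegral.integral_add (i0.add i1) i2, intervalIntegral.integral_add i0 i1,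
    intervalIntegral.integral_const_mul, intervalIntegral.integral_const_mul,
    intervalIntegral.integral_const_mul] at h1
  simp only [mul_one, Real.sin_pi, mul_zero, Real.sin_zero, sub_zero] at h1
  have hpi : 2 * π ≠ 0 := by positivity
  refine mul_left_cancel₀ hpi ?_
  unfold V
  linear_combination h1

lemma V_zero (a : ℝ) : V a 0 = 1 := by
  unfold V u
  simp

lemma main {a : ℝ} (ha : 0 ≤ a) (n : ℕ) : (V a n : ℂ) = LP n ((2 * a - 1 : ℝ) : ℂ) ∧
    (V a (n + 1 : ℕ) : ℂ) = LP (n + 1) ((2 * a - 1 : ℝ) : ℂ) := by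
  induction n with
  | zero =>
    constructor
    · rw [LP, Nat.cast_zero, V_zero]
      simp
    · have h := rec_V ha 0
      rw [V_zero] at h
      have h2 : V a ((0 + 1 : ℕ) : ℤ) = 2 * a - 1 := by
        push_cast at h ⊢
        linarith
      rw [h2, LP]
  | succ n ih =>
    refine ⟨ih.2, ?_⟩
    have hn : ((n : ℂ) + 2) ≠ 0 := by
      have : ((n + 2 : ℕ) : ℂ) ≠ 0 := Nat.cast_ne_zero.2 (by omega)
      simpa using this
    rw [show n + 1 + 1 = n + 2 from rfl, LP, ← ih.1, ← ih.2, eq_div_iff hn]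
    have h := rec_V ha (n + 1 : ℕ)
    rw [show (((n + 1 : ℕ) : ℤ) - 1) = (n : ℤ) by push_cast; ring,
      show (((n + 1 : ℕ) : ℤ) + 1) = ((n + 2 : ℕ) : ℤ) by push_cast; ring] at h
    have h2 : V a ((n + 2 : ℕ) : ℤ) * ((n : ℝ) + 2) =
        (2 * (n : ℝ) + 3) * (2 * a - 1) * V a ((n + 1 : ℕ) : ℤ) - ((n : ℝ) + 1) * V a (n : ℤ) := by
      push_cast at h ⊢
      linear_combination h
    exact_mod_cast h2

end LGA

theorem t_LGA : S_LGA := fun n a ha _ => (LGA.main ha n).1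

end

end SPH
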