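import Mathlib
import Pool.Agent.SPH.StA

/-!
# Laplace formula and bounds for the Legendre polynomials

Module LGB of the project SPH.
-/

set_option autoImplicit false
set_option linter.unusedVariables false

namespace SPH

open STZ LGR STZ3 MeasureTheory Matrix Filter

open scoped ComplexConjugate Matrix Real Topology

noncomputable section

namespace LGB

/-- the base of the power in Laplace's integral -/
def z (x s : ℂ) (φ : ℝ) : ℂ := x + s * ((Real.cos (2 * π * φ) : ℝ) : ℂ)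

/-- its derivative -/
def w (s : ℂ) (φ : ℝ) : ℂ := -(2 * π) * s * ((Real.sin (2 * π * φ) : ℝ) : ℂ)

/-- Laplace's integral -/
def I (x s : ℂ) (n : ℕ) : ℂ := ∫ φ in (0 : ℝ)..1, z x s φ ^ n

lemma hd_z (x s : ℂ) (φ : ℝ) : HasDerivAt (z x s) (w s φ) φ := by
  have h1 : HasDerivAt (fun φ : ℝ => 2 * π * φ) (2 * π) φ := by
    simpa using (hasDerivAt_id φ).const_mul (2 * π)
  have h2 := (h1.cos.ofReal_comp.const_mul s).const_add x
  refine HasDerivAt.congr_deriv (f := z x s) h2 ?_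
  unfold w
  push_cast
  ring

lemma hd_w (x s : ℂ) (φ : ℝ) : HasDerivAt (w s) (4 * π ^ 2 * (x - z x s φ)) φ := by
  have h1 : HasDerivAt (fun φ : ℝ => 2 * π * φ) (2 * π) φ := by
    simpa using (hasDerivAt_id φ).const_mul (2 * π)
  have h2 := h1.sin.ofReal_comp.const_mul (-(2 * (π : ℂ)) * s)
  refine HasDerivAt.congr_deriv (f := w s) h2 ?_
  unfold z
  push_cast
  ring

lemma w_sq {x s : ℂ} (h : s ^ 2 = x ^ 2 - 1) (φ : ℝ) :
    w s φ ^ 2 = 4 * π ^ 2 * (-1 + 2 * x * z x s φ - z x s φ ^ 2) := by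
  have h1 : ((Real.sin (2 * π * φ) : ℝ) : ℂ) ^ 2 = 1 - ((Real.cos (2 * π * φ) : ℝ) : ℂ) ^ 2 := by
    have : Real.sin (2 * π * φ) ^ 2 = 1 - Real.cos (2 * π * φ) ^ 2 := by
      linarith [Real.sin_sq_add_cos_sq (2 * π * φ)]
    exact_mod_cast this
  unfold w z
  linear_combination (4 * (π : ℂ) ^ 2 * s ^ 2) * h1 + 4 * (π : ℂ) ^ 2 * h

lemma z_cont (x s : ℂ) : Continuous (z x s) := by
  unfold z
  fun_prop

lemma z_int (x s : ℂ) (n : ℕ) : IntervalIntegrable (fun φ => z x s φ ^ n) volume 0 1 :=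
  ((z_cont x s).pow n).intervalIntegrable _ _

lemma w_zero (s : ℂ) : w s 0 = 0 := by simp [w]

lemma w_one (s : ℂ) : w s 1 = 0 := by
  unfold w
  rw [mul_one, Real.sin_two_pi]
  simp

lemma rec_I {x s : ℂ} (h : s ^ 2 = x ^ 2 - 1) (n : ℕ) :
    ((n : ℂ) + 2) * I x s (n + 2) = (2 * (n : ℂ) + 3) * x * I x s (n + 1) - ((n : ℂ) + 1) * I x s n := by
  have hd : ∀ φ ∈ Set.uIcc (0 : ℝ) 1, HasDerivAt (fun φ => z x s φ ^ (n + 1) * w s φ)
      (4 * π ^ 2 * (-((n : ℂ) + 1)) * z x s φ ^ n + 4 * π ^ 2 * ((2 * (n : ℂ) + 3) * x) * z x s φ ^ (n + 1) +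
        4 * π ^ 2 * (-((n : ℂ) + 2)) * z x s φ ^ (n + 2)) φ := by
    intro φ _
    refine (((hd_z x s φ).pow (n + 1)).mul (hd_w x s φ)).congr_deriv ?_
    have hw := w_sq h φ
    simp only [Pi.pow_apply]
    push_cast
    linear_combination (((n : ℂ) + 1) * z x s φ ^ n) * hw
  have i0 := (z_int x s n).const_mul (4 * π ^ 2 * (-((n : ℂ) + 1)))
  have i1 := (z_int x s (n + 1)).const_mul (4 * π ^ 2 * ((2 * (n : ℂ) + 3) * x))
  have i2 := (z_int x s (n + 2)).const_mul (4 * π ^ 2 * (-((n : ℂ) + 2)))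
  have h1 := intervalIntegral.integral_eq_sub_of_hasDerivAt hd ((i0.add i1).add i2)
  rw [intervalIntegral.integral_add (i0.add i1) i2, intervalIntegral.integral_add i0 i1,
    intervalIntegral.integral_const_mul, intervalIntegral.integral_const_mul,
    intervalIntegral.integral_const_mul, w_one, w_zero] at h1
  have hpi : (4 * (π : ℂ) ^ 2) ≠ 0 := by
    have := Real.pi_pos.ne'
    simp [this]
  have h2 : 4 * (π : ℂ) ^ 2 * (((n : ℂ) + 2) * I x s (n + 2)) =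
      4 * (π : ℂ) ^ 2 * ((2 * (n : ℂ) + 3) * x * I x s (n + 1) - ((n : ℂ) + 1) * I x s n) := by
    unfold I
    linear_combination (-1 : ℂ) * h1
  exact mul_left_cancel₀ hpi h2

lemma I_zero (x s : ℂ) : I x s 0 = 1 := by simp [I]

lemma I_one (x s : ℂ) : I x s 1 = x := by
  have hd : ∀ φ ∈ Set.uIcc (0 : ℝ) 1, HasDerivAt (w s) (4 * π ^ 2 * (x - z x s φ ^ 1)) φ := by
    intro φ _
    rw [pow_one]
    exact hd_w x s φ
  have h1 := intervalIntegral.integral_eq_sub_of_hasDerivAt hd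
    ((intervalIntegrable_const.sub (z_int x s 1)).const_mul _)
  rw [intervalIntegral.integral_const_mul, intervalIntegral.integral_sub intervalIntegrable_const
    (z_int x s 1), w_one, w_zero] at h1
  have hpi : (4 * (π : ℂ) ^ 2) ≠ 0 := by
    have := Real.pi_pos.ne'
    simp [this]
  have h2 := (mul_eq_zero.1 (h1.trans (sub_zero 0))).resolve_left hpi
  simp only [intervalIntegral.integral_const, sub_zero, one_smul] at h2
  unfold I
  linear_combination (-1 : ℂ) * h2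

lemma lap2 {x s : ℂ} (h : s ^ 2 = x ^ 2 - 1) (n : ℕ) :
    LP n x = I x s n ∧ LP (n + 1) x = I x s (n + 1) := by
  induction n with
  | zero => exact ⟨by rw [LP, I_zero], by rw [LP, I_one]⟩
  | succ n ih =>
    refine ⟨ih.2, ?_⟩
    have hn : ((n : ℂ) + 2) ≠ 0 := by
      have : ((n + 2 : ℕ) : ℂ) ≠ 0 := Nat.cast_ne_zero.2 (by omega)
      simpa using this
    rw [show n + 1 + 1 = n + 2 from rfl, LP, ih.1, ih.2, ← rec_I h n]
    field_simp

lemma lap {x s : ℂ} (h : s ^ 2 = x ^ 2 - 1) (n : ℕ) : LP n x = I x s n := (lap2 h n).1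

lemma sc (D : ℝ) : (((Real.sin D : ℝ) : ℂ) * Complex.I) ^ 2 = ((Real.cos D : ℝ) : ℂ) ^ 2 - 1 := by
  have h1 : ((Real.sin D : ℝ) : ℂ) ^ 2 = 1 - ((Real.cos D : ℝ) : ℂ) ^ 2 := by
    have : Real.sin D ^ 2 = 1 - Real.cos D ^ 2 := by
      linarith [Real.sin_sq_add_cos_sq D]
    exact_mod_cast this
  rw [mul_pow, h1, Complex.I_sq]
  ring

/-- the base for `x = cos D` -/
def zc (D φ : ℝ) : ℂ := z (Real.cos D : ℝ) (((Real.sin D : ℝ) : ℂ) * Complex.I) φ

lemma zc_eq (D φ : ℝ) : zc D φ = ((Real.cos D : ℝ) : ℂ) +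
    ((Real.sin D * Real.cos (2 * π * φ) : ℝ) : ℂ) * Complex.I := by
  unfold zc z
  push_cast
  ring

lemma zc_norm (D φ : ℝ) : ‖zc D φ‖ ≤ 1 := by
  rw [← abs_of_nonneg (norm_nonneg (zc D φ)), ← sq_le_one_iff_abs_le_one, Complex.sq_norm, zc_eq,
    Complex.normSq_add_mul_I]
  have h1 := Real.sin_sq_add_cos_sq D
  have h2 := Real.sin_sq_add_cos_sq (2 * π * φ)
  have h3 : (Real.sin D * Real.cos (2 * π * φ)) ^ 2 ≤ Real.sin D ^ 2 := by
    rw [mul_pow]
    nlinarith [sq_nonneg (Real.sin D), sq_nonneg (Real.sin (2 * π * φ)),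
      mul_nonneg (sq_nonneg (Real.sin D)) (sq_nonneg (Real.sin (2 * π * φ)))]
  linarith

lemma zc_sub (D φ : ℝ) : ‖zc D φ - 1‖ ≤ |D| := by
  rw [← abs_of_nonneg (norm_nonneg (zc D φ - 1)), ← sq_le_sq, Complex.sq_norm, zc_eq,
    show ((Real.cos D : ℝ) : ℂ) + ((Real.sin D * Real.cos (2 * π * φ) : ℝ) : ℂ) * Complex.I - 1 =
      ((Real.cos D - 1 : ℝ) : ℂ) + ((Real.sin D * Real.cos (2 * π * φ) : ℝ) : ℂ) * Complex.I by
      push_cast; ring, Complex.normSq_add_mul_I]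
  have h1 := Real.sin_sq_add_cos_sq D
  have h2 := Real.sin_sq_add_cos_sq (2 * π * φ)
  have h3 : (Real.sin D * Real.cos (2 * π * φ)) ^ 2 ≤ Real.sin D ^ 2 := by
    rw [mul_pow]
    nlinarith [sq_nonneg (Real.sin D), sq_nonneg (Real.sin (2 * π * φ)),
      mul_nonneg (sq_nonneg (Real.sin D)) (sq_nonneg (Real.sin (2 * π * φ)))]
  have h4 := Real.one_sub_sq_div_two_le_cos (x := D)
  nlinarith

lemma zc_cont (D : ℝ) : Continuous (zc D) := z_cont _ _

lemma zc_int (D : ℝ) (n : ℕ) : IntervalIntegrable (fun φ => zc D φ ^ n) volume 0 1 :=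
  ((zc_cont D).pow n).intervalIntegrable _ _

lemma LP_cos (n : ℕ) (D : ℝ) : LP n (Real.cos D) = ∫ φ in (0 : ℝ)..1, zc D φ ^ n :=
  lap (sc D) n

lemma norm_int {f : ℝ → ℂ} {C : ℝ} (h : ∀ φ, ‖f φ‖ ≤ C) : ‖∫ φ in (0 : ℝ)..1, f φ‖ ≤ C := by
  have := intervalIntegral.norm_integral_le_of_norm_le_const (a := 0) (b := 1) (f := f) (C := C)
    (fun x _ => h x)
  simpa using this

lemma LP_neg (n : ℕ) (x : ℂ) : LP n (-x) = (-1) ^ n * LP n x ∧
    LP (n + 1) (-x) = (-1) ^ (n + 1) * LP (n + 1) x := by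
  induction n with
  | zero => simp [LP]
  | succ n ih =>
    refine ⟨ih.2, ?_⟩
    rw [show n + 1 + 1 = n + 2 from rfl, LP, LP, ih.1, ih.2]
    ring

lemma LP_one (n : ℕ) : LP n 1 = 1 ∧ LP (n + 1) 1 = 1 := by
  induction n with
  | zero => simp [LP]
  | succ n ih =>
    refine ⟨ih.2, ?_⟩
    have hn : ((n : ℂ) + 2) ≠ 0 := by
      have : ((n + 2 : ℕ) : ℂ) ≠ 0 := Nat.cast_ne_zero.2 (by omega)
      simpa using this
    rw [show n + 1 + 1 = n + 2 from rfl, LP, ih.1, ih.2, div_eq_iff hn]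
    ring

lemma LP_real (n : ℕ) (x : ℝ) : (∃ y : ℝ, LP n x = y) ∧ ∃ y : ℝ, LP (n + 1) x = y := by
  induction n with
  | zero => exact ⟨⟨1, by simp [LP]⟩, ⟨x, by simp [LP]⟩⟩
  | succ n ih =>
    refine ⟨ih.2, ?_⟩
    obtain ⟨⟨a, ha⟩, b, hb⟩ := ih
    refine ⟨((2 * (n : ℝ) + 3) * x * b - ((n : ℝ) + 1) * a) / ((n : ℝ) + 2), ?_⟩
    rw [show n + 1 + 1 = n + 2 from rfl, LP, ha, hb]
    push_cast
    rfl

end LGB

theorem t_LGB : S_LGB where
  lap n x s h := LGB.lap h n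
  neg n x := (LGB.LP_neg n x).1
  one n := (LGB.LP_one n).1
  le n x hx := by
    have h : x = Real.cos (Real.arccos x) :=
      (Real.cos_arccos (abs_le.1 hx).1 (abs_le.1 hx).2).symm
    rw [h, LGB.LP_cos]
    refine LGB.norm_int fun φ => ?_
    rw [norm_pow]
    exact pow_le_one₀ (norm_nonneg _) (LGB.zc_norm _ _)
  real n x := (LGB.LP_real n x).1
  cosh n u hu := by
    have h : ((Real.sinh u : ℝ) : ℂ) ^ 2 = ((Real.cosh u : ℝ) : ℂ) ^ 2 - 1 := by
      have : Real.sinh u ^ 2 = Real.cosh u ^ 2 - 1 := by linarith [Real.cosh_sq u]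
      exact_mod_cast this
    rw [LGB.lap h n]
    refine LGB.norm_int fun φ => ?_
    rw [norm_pow, Real.exp_nat_mul]
    refine pow_le_pow_left₀ (norm_nonneg _) ?_ n
    have h1 : 0 ≤ Real.sinh u := Real.sinh_nonneg_iff.2 hu
    have h2 : 0 < Real.cosh u := Real.cosh_pos u
    unfold LGB.z
    refine (norm_add_le _ _).trans ?_
    rw [norm_mul, Complex.norm_real, Complex.norm_real, Complex.norm_real, Real.norm_eq_abs,
      Real.norm_eq_abs, Real.norm_eq_abs, abs_of_pos h2, abs_of_nonneg h1, ← Real.cosh_add_sinh]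
    have h3 := Real.abs_cos_le_one (2 * π * φ)
    nlinarith
  d1 n D := by
    rw [LGB.LP_cos, LGB.LP_cos, ← intervalIntegral.integral_sub (LGB.zc_int D _) (LGB.zc_int D _)]
    refine LGB.norm_int fun φ => ?_
    rw [show LGB.zc D φ ^ (n + 1) - LGB.zc D φ ^ n = LGB.zc D φ ^ n * (LGB.zc D φ - 1) by ring,
      norm_mul, norm_pow]
    have h1 := pow_le_one₀ (n := n) (norm_nonneg _) (LGB.zc_norm D φ)
    have h2 := LGB.zc_sub D φ
    have h3 := norm_nonneg (LGB.zc D φ - 1)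
    nlinarith [pow_nonneg (norm_nonneg (LGB.zc D φ)) n]
  d2 n D := by
    have e : ∫ φ in (0 : ℝ)..1, (LGB.zc D φ ^ n * (LGB.zc D φ - 1) ^ 2) =
        LP (n + 2) (Real.cos D) - 2 * LP (n + 1) (Real.cos D) + LP n (Real.cos D) := by
      rw [LGB.LP_cos, LGB.LP_cos, LGB.LP_cos, ← intervalIntegral.integral_const_mul,
        ← intervalIntegral.integral_sub (LGB.zc_int D _) ((LGB.zc_int D _).const_mul _),
        ← intervalIntegral.integral_add
          ((LGB.zc_int D _).sub ((LGB.zc_int D _).const_mul _)) (LGB.zc_int D _)]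
      congr 1
      ext φ
      ring
    rw [← e]
    refine LGB.norm_int fun φ => ?_
    rw [norm_mul, norm_pow, norm_pow]
    have h1 := pow_le_one₀ (n := n) (norm_nonneg _) (LGB.zc_norm D φ)
    have h2 := LGB.zc_sub D φ
    have h3 := norm_nonneg (LGB.zc D φ - 1)
    have h4 : ‖LGB.zc D φ - 1‖ ^ 2 ≤ D ^ 2 := by
      rw [← sq_abs D]
      exact pow_le_pow_left₀ h3 h2 2
    nlinarith [pow_nonneg (norm_nonneg (LGB.zc D φ)) n, sq_nonneg ‖LGB.zc D φ - 1‖]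

end

end SPH
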