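import Mathlib
import Pool.Agent.SPH.StA

/-!
# The amplitude representation of the Legendre polynomials

Module LGC of the project SPH.
-/

set_option autoImplicit false
set_option linter.unusedVariables false

namespace SPH

open STZ LGR STZ3 MeasureTheory Matrix Filter

open scoped ComplexConjugate Matrix Real Topology

noncomputable section

namespace LGC

/-- the square root of `1 - e^(-y)` -/
def fA (y : ℝ) : ℝ := √(1 - Real.exp (-y))

/-- `e^(-y)` as a complex number -/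
def ft (y : ℝ) : ℂ := ((Real.exp (-y) : ℝ) : ℂ)

/-- `e^(2iD)` -/
def fE (D : ℝ) : ℂ := Complex.exp (2 * Complex.I * D)

/-- `1 - e^(2iD-y)` -/
def fz (D y : ℝ) : ℂ := 1 - Complex.exp (2 * Complex.I * D - y)

/-- the square root of `fz` -/
def fB (D y : ℝ) : ℂ := Complex.exp (Complex.log (fz D y) / 2)

lemma fz_eq (D y : ℝ) : fz D y = 1 - fE D * ft y := by
  unfold fz fE ft
  rw [show (2 * Complex.I * D - y : ℂ) = 2 * Complex.I * D + ((-y : ℝ) : ℂ) by push_cast; ring,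
    Complex.exp_add, Complex.ofReal_exp]

lemma fE_eq (D : ℝ) : fE D = (Real.cos (2 * D) : ℂ) + (Real.sin (2 * D) : ℂ) * Complex.I := by
  unfold fE
  rw [show (2 * Complex.I * D : ℂ) = ((2 * D : ℝ) : ℂ) * Complex.I by push_cast; ring,
    Complex.exp_mul_I, Complex.ofReal_cos, Complex.ofReal_sin]

lemma fz_re (D y : ℝ) : (fz D y).re = 1 - Real.cos (2 * D) * Real.exp (-y) := by
  rw [fz_eq, fE_eq, ft]
  simp [-Complex.ofReal_exp, -Complex.ofReal_cos, -Complex.ofReal_sin]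

lemma fz_im (D y : ℝ) : (fz D y).im = - (Real.sin (2 * D) * Real.exp (-y)) := by
  rw [fz_eq, fE_eq, ft]
  simp [-Complex.ofReal_exp, -Complex.ofReal_cos, -Complex.ofReal_sin]

lemma sin_pos {D : ℝ} (h0 : 0 < D) (h1 : D < π) : 0 < Real.sin D := Real.sin_pos_of_pos_of_lt_pi h0 h1

lemma cos_lt {D : ℝ} (h0 : 0 < D) (h1 : D < π) : Real.cos (2 * D) < 1 := by
  have := sin_pos h0 h1
  rw [Real.cos_two_mul']
  nlinarith [Real.sin_sq_add_cos_sq D]

lemma fz_re_pos {D : ℝ} (h0 : 0 < D) (h1 : D < π) {y : ℝ} (hy : 0 ≤ y) : 0 < (fz D y).re := by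
  rw [fz_re]
  have h2 := cos_lt h0 h1
  have h3 : Real.exp (-y) ≤ 1 := Real.exp_le_one_iff.2 (by linarith)
  have h4 := Real.exp_pos (-y)
  nlinarith

lemma fz_slit {D : ℝ} (h0 : 0 < D) (h1 : D < π) {y : ℝ} (hy : 0 ≤ y) :
    fz D y ∈ Complex.slitPlane := Or.inl (fz_re_pos h0 h1 hy)

lemma fz_norm (D y : ℝ) :
    ‖fz D y‖ ^ 2 = (1 - Real.exp (-y)) ^ 2 + 4 * Real.exp (-y) * Real.sin D ^ 2 := by
  rw [Complex.sq_norm, Complex.normSq_apply, fz_re, fz_im]
  have h1 := Real.sin_sq_add_cos_sq (2 * D)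
  have h2 : Real.cos (2 * D) = 1 - 2 * Real.sin D ^ 2 := by
    rw [Real.cos_two_mul']
    nlinarith [Real.sin_sq_add_cos_sq D]
  have h3 : Real.sin (2 * D) ^ 2 = 1 - Real.cos (2 * D) ^ 2 := by linarith
  have h4 : (1 - Real.cos (2 * D) * Real.exp (-y)) * (1 - Real.cos (2 * D) * Real.exp (-y)) +
      -(Real.sin (2 * D) * Real.exp (-y)) * -(Real.sin (2 * D) * Real.exp (-y)) =
      1 - 2 * Real.cos (2 * D) * Real.exp (-y) + Real.cos (2 * D) ^ 2 * Real.exp (-y) ^ 2 +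
        Real.sin (2 * D) ^ 2 * Real.exp (-y) ^ 2 := by ring
  rw [h4, h3, h2]
  ring

lemma fz_ge {D : ℝ} (h0 : 0 < D) (h1 : D < π) (y : ℝ) : Real.sin D ≤ ‖fz D y‖ := by
  have h2 := sin_pos h0 h1
  have h3 := fz_norm D y
  have h4 := Real.sin_le_one D
  have h5 : Real.sin D ^ 2 ≤ ‖fz D y‖ ^ 2 := by
    rw [h3]
    have h6 := Real.exp_pos (-y)
    have h7 : Real.sin D ^ 2 ≤ 1 := by nlinarith
    have h8 : Real.sin D ^ 2 * (1 - Real.exp (-y)) ^ 2 ≤ (1 - Real.exp (-y)) ^ 2 := by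
      nlinarith [sq_nonneg (1 - Real.exp (-y))]
    nlinarith [mul_pos h6 (pow_pos h2 2), mul_pos (pow_pos h6 2) (pow_pos h2 2)]
  exact (pow_le_pow_iff_left₀ h2.le (norm_nonneg _) two_ne_zero).1 h5

lemma fz_gt {D : ℝ} (h0 : 0 < D) (h1 : D < π) {y : ℝ} (hy : 0 ≤ y) :
    1 - Real.exp (-y) < ‖fz D y‖ := by
  have h2 := sin_pos h0 h1
  have h3 := fz_norm D y
  have h6 := Real.exp_pos (-y)
  have h7 : Real.exp (-y) ≤ 1 := Real.exp_le_one_iff.2 (by linarith)
  have h5 : (1 - Real.exp (-y)) ^ 2 < ‖fz D y‖ ^ 2 := by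
    rw [h3]
    nlinarith [mul_pos h6 (pow_pos h2 2)]
  exact (pow_lt_pow_iff_left₀ (by linarith) (norm_nonneg _) two_ne_zero).1 h5

lemma fB_ne (D y : ℝ) : fB D y ≠ 0 := Complex.exp_ne_zero _

lemma fz_ne {D : ℝ} (h0 : 0 < D) (h1 : D < π) (y : ℝ) : fz D y ≠ 0 := by
  intro h
  have := fz_ge h0 h1 y
  rw [h, norm_zero] at this
  linarith [sin_pos h0 h1]

lemma fB_sq {D : ℝ} (h0 : 0 < D) (h1 : D < π) (y : ℝ) : fB D y ^ 2 = 1 - fE D * ft y := by
  unfold fB
  rw [← Complex.exp_nat_mul, show ((2 : ℕ) : ℂ) * (Complex.log (fz D y) / 2) =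
    Complex.log (fz D y) by push_cast; ring, Complex.exp_log (fz_ne h0 h1 y), fz_eq]

lemma fA_sq {y : ℝ} (hy : 0 ≤ y) : (fA y : ℂ) ^ 2 = 1 - ft y := by
  have h : fA y ^ 2 = 1 - Real.exp (-y) := by
    unfold fA
    rw [Real.sq_sqrt]
    linarith [Real.exp_le_one_iff.2 (show -y ≤ 0 by linarith)]
  unfold ft
  rw [← Complex.ofReal_pow, h]
  push_cast
  ring

lemma exp_lt {y : ℝ} (hy : 0 < y) : Real.exp (-y) < 1 := by
  rw [Real.exp_lt_one_iff]
  linarith

lemma fA_pos {y : ℝ} (hy : 0 < y) : 0 < fA y :=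
  Real.sqrt_pos.2 (by linarith [exp_lt hy])

lemma fA_zero : fA 0 = 0 := by simp [fA]

lemma fA_nonneg (y : ℝ) : 0 ≤ fA y := Real.sqrt_nonneg _

lemma hd_exp (y : ℝ) : HasDerivAt (fun y : ℝ => Real.exp (-y)) (-Real.exp (-y)) y := by
  have := (hasDerivAt_neg y).exp
  simpa using this

lemma hd_t (y : ℝ) : HasDerivAt ft (-ft y) y := by
  have := (hd_exp y).ofReal_comp
  unfold ft
  simpa using this

lemma hd_A {y : ℝ} (hy : 0 < y) : HasDerivAt fA (Real.exp (-y) / (2 * fA y)) y := by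
  have h0 : 1 - Real.exp (-y) ≠ 0 := by linarith [exp_lt hy]
  have h1 : HasDerivAt (fun y : ℝ => 1 - Real.exp (-y)) (Real.exp (-y)) y := by
    exact ((hd_exp y).const_sub 1).congr_deriv (by ring)
  exact h1.sqrt h0

lemma hd_Ac {y : ℝ} (hy : 0 < y) :
    HasDerivAt (fun y : ℝ => (fA y : ℂ)) (ft y / (2 * fA y)) y := by
  have := (hd_A hy).ofReal_comp
  unfold ft
  simpa using this

lemma hd_z (D y : ℝ) : HasDerivAt (fz D) (fE D * ft y) y := by
  have h : fz D = fun y => 1 - fE D * ft y := funext (fz_eq D)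
  rw [h]
  exact (((hd_t y).const_mul (fE D)).const_sub 1).congr_deriv (by ring)

lemma hd_B {D : ℝ} (h0 : 0 < D) (h1 : D < π) {y : ℝ} (hy : 0 ≤ y) :
    HasDerivAt (fB D) (fE D * ft y / (2 * fB D y)) y := by
  have h2 := (((hd_z D y).clog_real (fz_slit h0 h1 hy)).div_const 2).cexp
  have hz : fz D y = fB D y ^ 2 := by rw [fB_sq h0 h1, fz_eq]
  refine HasDerivAt.congr_deriv (f := fB D) h2 ?_
  have h3 : Complex.exp (Complex.log (fz D y) / 2) = fB D y := rfl
  rw [h3, hz]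
  have := fB_ne D y
  field_simp

/-- the integrand -/
def K (D : ℝ) (m : ℕ) (y : ℝ) : ℂ := ft y ^ (m + 1) / (fA y * fB D y)

lemma hd_P0 {D : ℝ} (h0 : 0 < D) (h1 : D < π) {y : ℝ} (hy : 0 < y) :
    HasDerivAt (fun y : ℝ => (fA y : ℂ) * fB D y)
      (1 / 2 * (1 + fE D) * K D 0 y - fE D * K D 1 y) y := by
  have h2 := (hd_Ac hy).mul (hd_B h0 h1 hy.le)
  refine h2.congr_deriv ?_
  have hA : (fA y : ℂ) ≠ 0 := by exact_mod_cast (fA_pos hy).ne'
  have hB := fB_ne D y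
  have hA2 := fA_sq hy.le
  have hB2 := fB_sq h0 h1 y
  unfold K
  field_simp
  linear_combination ft y * hB2 + fE D * ft y * hA2

lemma hd_P {D : ℝ} (h0 : 0 < D) (h1 : D < π) {y : ℝ} (hy : 0 < y) (m : ℕ) :
    HasDerivAt (fun y : ℝ => ft y ^ (m + 1) * ((fA y : ℂ) * fB D y))
      (-((m : ℂ) + 1) * K D m y + ((m : ℂ) + 3 / 2) * (1 + fE D) * K D (m + 1) y -
        ((m : ℂ) + 2) * fE D * K D (m + 2) y) y := by
  have h2 := ((hd_t y).pow (m + 1)).mul (hd_P0 h0 h1 hy)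
  refine h2.congr_deriv ?_
  have hA : (fA y : ℂ) ≠ 0 := by exact_mod_cast (fA_pos hy).ne'
  have hB := fB_ne D y
  have hA2 := fA_sq hy.le
  have hB2 := fB_sq h0 h1 y
  have hAB : (fA y : ℂ) * fB D y = (1 - ft y) * (1 - fE D * ft y) / (fA y * fB D y) := by
    rw [← hA2, ← hB2]
    field_simp
  simp only [Pi.pow_apply]
  rw [hAB]
  unfold K
  push_cast
  field_simp
  ring

lemma ct_B {D : ℝ} (h0 : 0 < D) (h1 : D < π) {y : ℝ} (hy : 0 ≤ y) : ContinuousAt (fB D) y :=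
  (hd_B h0 h1 hy).continuousAt

lemma ct_t : Continuous ft := by
  unfold ft
  fun_prop

lemma ct_A : Continuous fA := by
  unfold fA
  fun_prop

lemma ct_Ac : Continuous fun y : ℝ => (fA y : ℂ) := Complex.continuous_ofReal.comp ct_A

lemma tt_exp : Tendsto (fun y : ℝ => Real.exp (-y)) atTop (𝓝 0) :=
  Real.tendsto_exp_neg_atTop_nhds_zero

lemma tt_t : Tendsto ft atTop (𝓝 0) := by
  exact (Complex.continuous_ofReal.tendsto 0).comp tt_exp

lemma tt_A : Tendsto fA atTop (𝓝 1) := by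
  have h : Tendsto (fun y : ℝ => √(1 - Real.exp (-y))) atTop (𝓝 √(1 - 0)) :=
    (Real.continuous_sqrt.tendsto _).comp (tendsto_const_nhds.sub tt_exp)
  simp only [sub_zero, Real.sqrt_one] at h
  exact h

lemma tt_Ac : Tendsto (fun y : ℝ => (fA y : ℂ)) atTop (𝓝 1) := by
  exact (Complex.continuous_ofReal.tendsto 1).comp tt_A

lemma tt_B (D : ℝ) : Tendsto (fB D) atTop (𝓝 1) := by
  have h1 : Tendsto (fz D) atTop (𝓝 1) := by
    have h : fz D = fun y => 1 - fE D * ft y := funext (fz_eq D)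
    rw [h]
    have := (tendsto_const_nhds (x := (1 : ℂ))).sub (tt_t.const_mul (fE D))
    simpa using this
  have h2 : Tendsto (fun y => Complex.log (fz D y)) atTop (𝓝 (Complex.log 1)) :=
    h1.clog (by simp)
  have h3 := (Complex.continuous_exp.tendsto _).comp (h2.div_const 2)
  simp only [Complex.log_one, zero_div, Complex.exp_zero] at h3
  exact h3

lemma fB_ge {D : ℝ} (h0 : 0 < D) (h1 : D < π) (y : ℝ) : √(Real.sin D) ≤ ‖fB D y‖ := by
  apply Real.sqrt_le_iff.2 ⟨norm_nonneg _, ?_⟩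
  rw [← norm_pow, fB_sq h0 h1, ← fz_eq]
  exact fz_ge h0 h1 y

lemma int_tA : IntegrableOn (fun y : ℝ => Real.exp (-y) / fA y) (Set.Ioi 0) := by
  refine integrableOn_Ioi_deriv_of_nonneg (g := fun y => 2 * fA y) (l := 2)
    (ct_A.const_mul 2).continuousAt.continuousWithinAt (fun y hy => ?_) (fun y hy => ?_) ?_
  · refine ((hd_A hy).const_mul 2).congr_deriv ?_
    have := (fA_pos hy).ne'
    field_simp
  · exact div_nonneg (Real.exp_pos _).le (fA_nonneg _)
  · simpa using tt_A.const_mul 2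

lemma ft_norm (y : ℝ) : ‖ft y‖ = Real.exp (-y) := by
  unfold ft
  rw [Complex.norm_real, Real.norm_eq_abs, abs_of_pos (Real.exp_pos _)]

lemma K_cont {D : ℝ} (h0 : 0 < D) (h1 : D < π) (m : ℕ) : ContinuousOn (K D m) (Set.Ioi 0) := by
  intro y hy
  apply ContinuousAt.continuousWithinAt
  unfold K
  refine ContinuousAt.div (ct_t.continuousAt.pow _) (ct_Ac.continuousAt.mul (ct_B h0 h1 (le_of_lt hy))) ?_
  exact mul_ne_zero (by exact_mod_cast (fA_pos hy).ne') (fB_ne D y)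

lemma K_norm {D : ℝ} (h0 : 0 < D) (h1 : D < π) (m : ℕ) {y : ℝ} (hy : 0 < y) :
    ‖K D m y‖ ≤ (√(Real.sin D))⁻¹ * (Real.exp (-y) / fA y) := by
  unfold K
  rw [norm_div, norm_mul, norm_pow, ft_norm, Complex.norm_real, Real.norm_eq_abs,
    abs_of_pos (fA_pos hy)]
  have hA := fA_pos hy
  have hs : 0 < √(Real.sin D) := Real.sqrt_pos.2 (sin_pos h0 h1)
  have h2 : Real.exp (-y) ^ (m + 1) ≤ Real.exp (-y) := by
    rw [pow_succ]
    exact mul_le_of_le_one_left (Real.exp_pos _).le (pow_le_one₀ (Real.exp_pos _).le (exp_lt hy).le)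
  have h3 := fB_ge h0 h1 y
  calc Real.exp (-y) ^ (m + 1) / (fA y * ‖fB D y‖) ≤ Real.exp (-y) / (fA y * √(Real.sin D)) := by
        gcongr
    _ = _ := by field_simp

lemma K_int {D : ℝ} (h0 : 0 < D) (h1 : D < π) (m : ℕ) : IntegrableOn (K D m) (Set.Ioi 0) := by
  refine Integrable.mono' (int_tA.const_mul (√(Real.sin D))⁻¹)
    ((K_cont h0 h1 m).aestronglyMeasurable measurableSet_Ioi) ?_
  exact (ae_restrict_iff' measurableSet_Ioi).2 (Eventually.of_forall fun y hy => K_norm h0 h1 m hy)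

lemma bL_eq {D : ℝ} (h0 : 0 < D) (h1 : D < π) (m : ℕ) :
    bL m D = ∫ y in Set.Ioi (0 : ℝ), K D m y := by
  unfold bL
  refine setIntegral_congr_fun measurableSet_Ioi fun y hy => ?_
  have hy : 0 < y := hy
  have e1 : Real.exp (-(((m : ℝ) + 1) * y)) = Real.exp (-y) ^ (m + 1) := by
    rw [← Real.exp_nat_mul]
    congr 1
    push_cast
    ring
  have e2 : (1 - Real.exp (-y)) ^ (-(1 / 2) : ℝ) = (fA y)⁻¹ := by
    rw [Real.rpow_neg (by linarith [exp_lt hy]), fA, Real.sqrt_eq_rpow]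
  have e3 : (1 - Complex.exp (2 * Complex.I * D - y)) ^ (-(1 / 2) : ℂ) = (fB D y)⁻¹ := by
    have h := Complex.cpow_def_of_ne_zero (fz_ne h0 h1 y) (-(1 / 2))
    rw [fB, ← Complex.exp_neg]
    unfold fz at h ⊢
    rw [h]
    congr 1
    ring
  rw [e1, e2, e3]
  unfold K ft
  push_cast
  rw [div_eq_mul_inv, mul_inv]
  ring

lemma ftc_P {D : ℝ} (h0 : 0 < D) (h1 : D < π) (m : ℕ) :
    -((m : ℂ) + 1) * bL m D + ((m : ℂ) + 3 / 2) * (1 + fE D) * bL (m + 1) D -
        ((m : ℂ) + 2) * fE D * bL (m + 2) D = 0 := by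
  rw [bL_eq h0 h1, bL_eq h0 h1, bL_eq h0 h1]
  have i0 := (K_int h0 h1 m).const_mul (-((m : ℂ) + 1))
  have i1 := (K_int h0 h1 (m + 1)).const_mul (((m : ℂ) + 3 / 2) * (1 + fE D))
  have i2 := (K_int h0 h1 (m + 2)).const_mul (((m : ℂ) + 2) * fE D)
  have h := integral_Ioi_of_hasDerivAt_of_tendsto (a := 0) (m := (0 : ℂ))
    (f := fun y : ℝ => ft y ^ (m + 1) * ((fA y : ℂ) * fB D y))
    ((ct_t.continuousAt.pow _).mul (ct_Ac.continuousAt.mul (ct_B h0 h1 le_rfl))).continuousWithinAt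
    (fun y hy => hd_P h0 h1 hy m) ((i0.add i1).sub i2) (by
      have := (tt_t.pow (m + 1)).mul (tt_Ac.mul (tt_B D))
      simpa using this)
  have e := integral_sub (i0.add i1) i2
  have e' := integral_add i0 i1
  simp only [Pi.add_apply] at e e'
  rw [← integral_const_mul, ← integral_const_mul, ← integral_const_mul, ← e', ← e, h]
  simp [fA_zero]

lemma ftc_P0 {D : ℝ} (h0 : 0 < D) (h1 : D < π) :
    1 / 2 * (1 + fE D) * bL 0 D - fE D * bL 1 D = 1 := by
  rw [bL_eq h0 h1, bL_eq h0 h1]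
  have i1 := (K_int h0 h1 0).const_mul (1 / 2 * (1 + fE D))
  have i2 := (K_int h0 h1 1).const_mul (fE D)
  have h := integral_Ioi_of_hasDerivAt_of_tendsto (a := 0) (m := (1 : ℂ))
    (f := fun y : ℝ => ((fA y : ℂ) * fB D y))
    ((ct_Ac.continuousAt.mul (ct_B h0 h1 le_rfl))).continuousWithinAt
    (fun y hy => hd_P0 h0 h1 hy) (i1.sub i2) (by
      have := (tt_Ac.mul (tt_B D))
      simpa using this)
  rw [← integral_const_mul, ← integral_const_mul, ← integral_sub i1 i2, h]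
  simp [fA_zero]

/-! the value at `n = 0` -/

/-- `e^(iD)` -/
def fe (D : ℝ) : ℂ := Complex.exp (Complex.I * D)

lemma fe_sq (D : ℝ) : fe D ^ 2 = fE D := by
  unfold fe fE
  rw [← Complex.exp_nat_mul]
  congr 1
  push_cast
  ring

lemma fe_eq (D : ℝ) : fe D = (Real.cos D : ℂ) + (Real.sin D : ℂ) * Complex.I := by
  unfold fe
  rw [mul_comm, Complex.exp_mul_I, Complex.ofReal_cos, Complex.ofReal_sin]

lemma fe_norm (D : ℝ) : ‖fe D‖ = 1 := by
  unfold fe
  rw [mul_comm, Complex.norm_exp_ofReal_mul_I]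

lemma fe_re (D : ℝ) : (fe D).re = Real.cos D := by
  rw [fe_eq]
  simp [-Complex.ofReal_cos, -Complex.ofReal_sin]

/-- the argument of the logarithm -/
def fv (D y : ℝ) : ℂ := fe D * fA y / fB D y

lemma fv_lt {D : ℝ} (h0 : 0 < D) (h1 : D < π) {y : ℝ} (hy : 0 ≤ y) : ‖fv D y‖ < 1 := by
  unfold fv
  rw [norm_div, norm_mul, fe_norm, one_mul, Complex.norm_real, Real.norm_eq_abs,
    abs_of_nonneg (fA_nonneg y), div_lt_one (norm_pos_iff.2 (fB_ne D y))]
  refine (pow_lt_pow_iff_left₀ (fA_nonneg y) (norm_nonneg _) two_ne_zero).1 ?_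
  rw [← norm_pow, fB_sq h0 h1, ← fz_eq]
  refine lt_of_eq_of_lt ?_ (fz_gt h0 h1 hy)
  unfold fA
  rw [Real.sq_sqrt]
  linarith [Real.exp_le_one_iff.2 (show -y ≤ 0 by linarith)]

lemma slit_add {v : ℂ} (h : ‖v‖ < 1) : 1 + v ∈ Complex.slitPlane := by
  left
  have := (abs_le.1 (Complex.abs_re_le_norm v)).1
  simp only [Complex.add_re, Complex.one_re]
  linarith

lemma slit_sub {v : ℂ} (h : ‖v‖ < 1) : 1 - v ∈ Complex.slitPlane := by
  rw [sub_eq_add_neg]
  exact slit_add (by rwa [norm_neg])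

lemma hd_v {D : ℝ} (h0 : 0 < D) (h1 : D < π) {y : ℝ} (hy : 0 < y) :
    HasDerivAt (fv D) (fe D * ft y * (1 - fE D) / (2 * fA y * fB D y ^ 3)) y := by
  have h2 := ((hd_Ac hy).const_mul (fe D)).div (hd_B h0 h1 hy.le) (fB_ne D y)
  refine HasDerivAt.congr_deriv (f := fv D) h2 ?_
  have hA : (fA y : ℂ) ≠ 0 := by exact_mod_cast (fA_pos hy).ne'
  have hB := fB_ne D y
  have hA2 := fA_sq hy.le
  have hB2 := fB_sq h0 h1 y
  field_simp
  linear_combination fe D * ft y * hB2 - fe D * ft y * fE D * hA2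

lemma fE_ne {D : ℝ} (h0 : 0 < D) (h1 : D < π) : 1 - fE D ≠ 0 := by
  intro h
  have h2 := congrArg Complex.re h
  rw [fE_eq] at h2
  simp [-Complex.ofReal_cos, -Complex.ofReal_sin] at h2
  linarith [cos_lt h0 h1]

lemma hd_F {D : ℝ} (h0 : 0 < D) (h1 : D < π) {y : ℝ} (hy : 0 < y) :
    HasDerivAt (fun y => Complex.log (1 + fv D y) - Complex.log (1 - fv D y))
      (fe D * K D 0 y) y := by
  have hv := fv_lt h0 h1 hy.le
  have s1 := slit_add hv
  have s2 := slit_sub hv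
  have h2 := (((hd_v h0 h1 hy).const_add 1).clog_real s1).sub
    (((hd_v h0 h1 hy).const_sub 1).clog_real s2)
  refine h2.congr_deriv ?_
  have hA : (fA y : ℂ) ≠ 0 := by exact_mod_cast (fA_pos hy).ne'
  have hB := fB_ne D y
  have hA2 := fA_sq hy.le
  have hB2 := fB_sq h0 h1 y
  have n1 : 1 + fv D y ≠ 0 := Complex.slitPlane_ne_zero s1
  have n2 : 1 - fv D y ≠ 0 := Complex.slitPlane_ne_zero s2
  have n3 := fE_ne h0 h1
  have key : (1 + fv D y) * (1 - fv D y) = (1 - fE D) / fB D y ^ 2 := by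
    unfold fv
    rw [← fe_sq]
    field_simp
    rw [← fe_sq] at hB2
    linear_combination hB2 - fe D ^ 2 * hA2
  have h3 : ∀ X : ℂ, X / (1 + fv D y) - -X / (1 - fv D y) =
      2 * X / ((1 + fv D y) * (1 - fv D y)) := by
    intro X
    field_simp
    ring
  rw [h3, key]
  unfold K
  field_simp
  ring

lemma im_I0 {D : ℝ} (h0 : 0 < D) (h1 : D < π) : (fe D * bL 0 D).im = π / 2 := by
  have hp : Tendsto (fv D) atTop (𝓝 (fe D)) := by
    have := (tt_Ac.const_mul (fe D)).div (tt_B D) one_ne_zero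
    simp only [mul_one, div_one] at this
    exact this
  have hc0 : -1 < Real.cos D := by
    rw [← Real.cos_pi]
    exact Real.cos_lt_cos_of_nonneg_of_le_pi h0.le le_rfl h1
  have hc1 : Real.cos D < 1 := by
    rw [← Real.cos_zero]
    exact Real.cos_lt_cos_of_nonneg_of_le_pi le_rfl h1.le h0
  have r1 : 1 + fe D ∈ Complex.slitPlane := by
    left
    simp only [Complex.add_re, Complex.one_re, fe_re]
    linarith
  have r2 : 1 - fe D ∈ Complex.slitPlane := by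
    left
    simp only [Complex.sub_re, Complex.one_re, fe_re]
    linarith
  have hcv : ContinuousAt (fv D) 0 := by
    unfold fv
    exact (ct_Ac.continuousAt.const_mul (fe D)).div (ct_B h0 h1 le_rfl) (fB_ne D 0)
  have hv0 := fv_lt h0 h1 (le_refl (0 : ℝ))
  have h := integral_Ioi_of_hasDerivAt_of_tendsto (a := 0)
    (m := Complex.log (1 + fe D) - Complex.log (1 - fe D))
    (f := fun y => Complex.log (1 + fv D y) - Complex.log (1 - fv D y))
    (((continuousAt_const.add hcv).clog (slit_add hv0)).sub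
      ((continuousAt_const.sub hcv).clog (slit_sub hv0))).continuousWithinAt
    (fun y hy => hd_F h0 h1 hy) ((K_int h0 h1 0).const_mul (fe D))
    (((tendsto_const_nhds.add hp).clog r1).sub ((tendsto_const_nhds.sub hp).clog r2))
  rw [integral_const_mul, ← bL_eq h0 h1] at h
  rw [h]
  have hv00 : fv D 0 = 0 := by simp [fv, fA_zero]
  rw [hv00]
  simp only [add_zero, sub_zero, Complex.log_one, Complex.sub_im, Complex.log_im]
  -- the arguments
  have hs2 : 0 < Real.sin (D / 2) := Real.sin_pos_of_pos_of_lt_pi (by linarith) (by linarith)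
  have hc2 : 0 < Real.cos (D / 2) := Real.cos_pos_of_mem_Ioo ⟨by linarith, by linarith⟩
  have ec : Real.cos D = 2 * Real.cos (D / 2) ^ 2 - 1 := by
    rw [← Real.cos_two_mul]; congr 1; ring
  have es : Real.sin D = 2 * Real.sin (D / 2) * Real.cos (D / 2) := by
    rw [← Real.sin_two_mul]; congr 1; ring
  have e1 : 1 + fe D = ((2 * Real.cos (D / 2) : ℝ) : ℂ) *
      (Complex.cos ((D / 2 : ℝ) : ℂ) + Complex.sin ((D / 2 : ℝ) : ℂ) * Complex.I) := by
    rw [fe_eq, ec, es, ← Complex.ofReal_cos, ← Complex.ofReal_sin]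
    push_cast
    ring
  have e2 : 1 - fe D = ((2 * Real.sin (D / 2) : ℝ) : ℂ) *
      (Complex.cos ((D / 2 - π / 2 : ℝ) : ℂ) + Complex.sin ((D / 2 - π / 2 : ℝ) : ℂ) * Complex.I) := by
    rw [fe_eq, ec, es, ← Complex.ofReal_cos, ← Complex.ofReal_sin, Real.cos_sub_pi_div_two,
      Real.sin_sub_pi_div_two]
    have h3 : Real.sin (D / 2) ^ 2 = 1 - Real.cos (D / 2) ^ 2 := by
      linarith [Real.sin_sq_add_cos_sq (D / 2)]
    have h4 : ((Real.sin (D / 2) : ℝ) : ℂ) ^ 2 = 1 - ((Real.cos (D / 2) : ℝ) : ℂ) ^ 2 := by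
      exact_mod_cast h3
    push_cast at h4 ⊢
    linear_combination (-2 : ℂ) * h4
  rw [e1, e2, Complex.arg_mul_cos_add_sin_mul_I (by positivity) ⟨by linarith, by linarith⟩,
    Complex.arg_mul_cos_add_sin_mul_I (by positivity) ⟨by linarith [Real.pi_pos], by linarith⟩]
  simp

/-- `e^(i(n+1)D) bL n D` -/
def fI (D : ℝ) (n : ℕ) : ℂ := Complex.exp (Complex.I * ((n + 1) * D)) * bL n D

lemma fI_eq (D : ℝ) (n : ℕ) : fI D n = fe D ^ (n + 1) * bL n D := by
  unfold fI fe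
  rw [← Complex.exp_nat_mul]
  congr 2
  push_cast
  ring

lemma two_cos (D : ℝ) : 2 * (Real.cos D : ℂ) * fe D = 1 + fE D := by
  rw [← fe_sq, fe_eq]
  have h3 : ((Real.sin D : ℝ) : ℂ) ^ 2 = 1 - ((Real.cos D : ℝ) : ℂ) ^ 2 := by
    have : Real.sin D ^ 2 = 1 - Real.cos D ^ 2 := by linarith [Real.sin_sq_add_cos_sq D]
    exact_mod_cast this
  linear_combination h3 - (Real.sin D : ℂ) ^ 2 * Complex.I_sq

lemma rec_I {D : ℝ} (h0 : 0 < D) (h1 : D < π) (m : ℕ) :
    ((m : ℂ) + 2) * fI D (m + 2) =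
      (2 * (m : ℂ) + 3) * (Real.cos D : ℂ) * fI D (m + 1) - ((m : ℂ) + 1) * fI D m := by
  have h := ftc_P h0 h1 m
  rw [fI_eq, fI_eq, fI_eq]
  rw [← two_cos, ← fe_sq] at h
  linear_combination (-(fe D) ^ (m + 1)) * h

lemma rec_I0 {D : ℝ} (h0 : 0 < D) (h1 : D < π) :
    fI D 1 = (Real.cos D : ℂ) * fI D 0 - 1 := by
  have h := ftc_P0 h0 h1
  rw [fI_eq, fI_eq]
  rw [← two_cos, ← fe_sq] at h
  linear_combination (-1 : ℂ) * h

lemma main {D : ℝ} (h0 : 0 < D) (h1 : D < π) (n : ℕ) :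
    LP n (Real.cos D) = ((2 / π * (fI D n).im : ℝ) : ℂ) ∧
    LP (n + 1) (Real.cos D) = ((2 / π * (fI D (n + 1)).im : ℝ) : ℂ) := by
  induction n with
  | zero =>
    have e0 : (fI D 0).im = π / 2 := by
      rw [fI_eq]
      simpa using im_I0 h0 h1
    have hpi := Real.pi_pos.ne'
    constructor
    · rw [e0, LP]
      rw [show 2 / π * (π / 2) = 1 by field_simp]
      simp
    · have e1 : (fI D (0 + 1)).im = Real.cos D * (π / 2) := by
        rw [zero_add, rec_I0 h0 h1, Complex.sub_im, Complex.one_im, Complex.im_ofReal_mul, e0]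
        ring
      rw [e1]
      rw [show 2 / π * (Real.cos D * (π / 2)) = Real.cos D by field_simp]
      simp [LP]
  | succ n ih =>
    refine ⟨ih.2, ?_⟩
    rw [show n + 1 + 1 = n + 2 from rfl, LP, ih.1, ih.2]
    have hn : ((n : ℝ) + 2) ≠ 0 := by positivity
    have h := congrArg Complex.im (rec_I h0 h1 n)
    have h2 : ((n : ℝ) + 2) * (fI D (n + 2)).im =
        (2 * (n : ℝ) + 3) * Real.cos D * (fI D (n + 1)).im - ((n : ℝ) + 1) * (fI D n).im := by
      have e1 : (((n : ℂ) + 2) * fI D (n + 2)).im = ((n : ℝ) + 2) * (fI D (n + 2)).im := by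
        rw [show ((n : ℂ) + 2) = (((n : ℝ) + 2 : ℝ) : ℂ) by push_cast; ring, Complex.im_ofReal_mul]
      have e2 : ((2 * (n : ℂ) + 3) * (Real.cos D : ℂ) * fI D (n + 1)).im =
          (2 * (n : ℝ) + 3) * Real.cos D * (fI D (n + 1)).im := by
        rw [show ((2 * (n : ℂ) + 3) * (Real.cos D : ℂ)) =
          (((2 * (n : ℝ) + 3) * Real.cos D : ℝ) : ℂ) by push_cast; ring, Complex.im_ofReal_mul]
      have e3 : (((n : ℂ) + 1) * fI D n).im = ((n : ℝ) + 1) * (fI D n).im := by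
        rw [show ((n : ℂ) + 1) = (((n : ℝ) + 1 : ℝ) : ℂ) by push_cast; ring, Complex.im_ofReal_mul]
      rw [e1, Complex.sub_im, e2, e3] at h
      exact h
    have h3 : (fI D (n + 2)).im = ((2 * (n : ℝ) + 3) * Real.cos D * (fI D (n + 1)).im -
        ((n : ℝ) + 1) * (fI D n).im) / ((n : ℝ) + 2) := by
      rw [eq_div_iff hn, ← h2]
      ring
    rw [h3]
    push_cast
    ring

end LGC

theorem t_LGC : S_LGC := fun n D h0 h1 => (LGC.main h0 h1 n).1

end

end SPH
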