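import Mathlib
import Pool.Agent.SPH.StA
import Pool.Agent.SPH.LGC

/-!
# Bounds of the amplitude of the Legendre functions

Module LGD of the project SPH.
-/

set_option autoImplicit false
set_option linter.unusedVariables false

namespace SPH

open STZ LGR STZ3 MeasureTheory Matrix Filter

open scoped ComplexConjugate Matrix Real Topology

noncomputable section

namespace LGD

open SPH.LGC

lemma bound_A {y : ℝ} (hy : 0 < y) : (fA y)⁻¹ ≤ y ^ (-(1 / 2) : ℝ) * Real.exp (y / 2) := by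
  have h1 : y * Real.exp (-y) ≤ 1 - Real.exp (-y) := by
    have h2 := Real.add_one_le_exp y
    have h3 : Real.exp y * Real.exp (-y) = 1 := by rw [← Real.exp_add]; simp
    have h4 := Real.exp_pos (-y)
    nlinarith
  have h2 : √(y * Real.exp (-y)) ≤ fA y := Real.sqrt_le_sqrt h1
  have h3 : √(y * Real.exp (-y)) = y ^ (1 / 2 : ℝ) * Real.exp (-(y / 2)) := by
    rw [Real.sqrt_mul hy.le, Real.sqrt_eq_rpow y, Real.sqrt_eq_rpow (Real.exp (-y)),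
      ← Real.exp_mul]
    congr 2
    ring
  have h4 : 0 < y ^ (1 / 2 : ℝ) * Real.exp (-(y / 2)) :=
    mul_pos (Real.rpow_pos_of_pos hy _) (Real.exp_pos _)
  rw [h3] at h2
  calc (fA y)⁻¹ ≤ (y ^ (1 / 2 : ℝ) * Real.exp (-(y / 2)))⁻¹ := inv_anti₀ h4 h2
    _ = y ^ (-(1 / 2) : ℝ) * Real.exp (y / 2) := by
        rw [mul_inv, Real.rpow_neg hy.le, Real.exp_neg, inv_inv]

lemma bound_B {D : ℝ} (h0 : 0 < D) (h1 : D ≤ π / 2) (y : ℝ) :
    ‖fB D y‖⁻¹ ≤ √(π / 2) * D ^ (-(1 / 2) : ℝ) := by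
  have h2 : 2 / π * D ≤ Real.sin D := Real.mul_le_sin h0.le h1
  have hp : 0 < 2 / π * D := by positivity
  have h3 : √(2 / π * D) ≤ ‖fB D y‖ :=
    (Real.sqrt_le_sqrt h2).trans (fB_ge h0 (by linarith [Real.pi_pos]) y)
  calc ‖fB D y‖⁻¹ ≤ (√(2 / π * D))⁻¹ := inv_anti₀ (Real.sqrt_pos.2 hp) h3
    _ = √(π / 2) * D ^ (-(1 / 2) : ℝ) := by
        rw [Real.sqrt_mul (by positivity), mul_inv, ← Real.sqrt_inv, inv_div,
          Real.rpow_neg h0.le, Real.sqrt_eq_rpow D]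

lemma bound_K {D : ℝ} (h0 : 0 < D) (h1 : D ≤ π / 2) (n j : ℕ) {y : ℝ} (hy : 0 < y) :
    ‖K D n y * (ft y - 1) ^ j‖ ≤ √(π / 2) * D ^ (-(1 / 2) : ℝ) *
      (y ^ ((j : ℝ) + 1 / 2 - 1) * Real.exp (-((n : ℝ) * y))) := by
  have hA := fA_pos hy
  have e1 : ‖ft y - 1‖ = 1 - Real.exp (-y) := by
    have : ft y - 1 = ((Real.exp (-y) - 1 : ℝ) : ℂ) := by unfold ft; push_cast; ring
    rw [this, Complex.norm_real, Real.norm_eq_abs, abs_of_neg (by linarith [exp_lt hy])]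
    ring
  have h2 : 1 - Real.exp (-y) ≤ y := by linarith [Real.add_one_le_exp (-y)]
  have h3 : 0 ≤ 1 - Real.exp (-y) := by linarith [exp_lt hy]
  unfold K
  rw [norm_mul, norm_div, norm_mul, norm_pow, norm_pow, ft_norm, e1, Complex.norm_real,
    Real.norm_eq_abs, abs_of_pos hA]
  have hB := bound_B h0 h1 y
  have hAi := bound_A hy
  have hBp : 0 < ‖fB D y‖ := norm_pos_iff.2 (fB_ne D y)
  have e2 : Real.exp (-y) ^ (n + 1) = Real.exp (-((n : ℝ) * y)) * Real.exp (-y) := by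
    rw [pow_succ, ← Real.exp_nat_mul]
    congr 2
    ring
  have e3 : y ^ ((j : ℝ) + 1 / 2 - 1) = y ^ j * y ^ (-(1 / 2) : ℝ) := by
    rw [← Real.rpow_natCast y j, ← Real.rpow_add hy]
    congr 1
    ring
  have e4 : Real.exp (-y) * Real.exp (y / 2) ≤ 1 := by
    rw [← Real.exp_add]
    exact Real.exp_le_one_iff.2 (by linarith)
  have p1 : 0 < y ^ (-(1 / 2) : ℝ) := Real.rpow_pos_of_pos hy _
  have p2 := Real.exp_pos (-((n : ℝ) * y))
  have p3 := Real.exp_pos (-y)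
  calc Real.exp (-y) ^ (n + 1) / (fA y * ‖fB D y‖) * (1 - Real.exp (-y)) ^ j
      = ‖fB D y‖⁻¹ * (Real.exp (-y) ^ (n + 1) * (fA y)⁻¹ * (1 - Real.exp (-y)) ^ j) := by
        field_simp
    _ ≤ (√(π / 2) * D ^ (-(1 / 2) : ℝ)) * (Real.exp (-y) ^ (n + 1) *
        (y ^ (-(1 / 2) : ℝ) * Real.exp (y / 2)) * y ^ j) := by
        gcongr
    _ = (√(π / 2) * D ^ (-(1 / 2) : ℝ)) * ((y ^ ((j : ℝ) + 1 / 2 - 1) *
        Real.exp (-((n : ℝ) * y))) * (Real.exp (-y) * Real.exp (y / 2))) := by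
        rw [e2, e3]
        ring
    _ ≤ (√(π / 2) * D ^ (-(1 / 2) : ℝ)) * ((y ^ ((j : ℝ) + 1 / 2 - 1) *
        Real.exp (-((n : ℝ) * y))) * 1) := by
        gcongr
    _ = _ := by rw [mul_one]

lemma gam_int {n j : ℕ} (hn : 1 ≤ n) :
    IntegrableOn (fun y : ℝ => y ^ ((j : ℝ) + 1 / 2 - 1) * Real.exp (-((n : ℝ) * y))) (Set.Ioi 0) := by
  have hn' : (0 : ℝ) < n := by exact_mod_cast hn
  have h := integrableOn_rpow_mul_exp_neg_mul_rpow (p := 1) (s := (j : ℝ) + 1 / 2 - 1) (b := n)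
    (by have : (0 : ℝ) ≤ j := Nat.cast_nonneg j
        linarith) one_pos hn'
  refine h.congr_fun (fun y _ => ?_) measurableSet_Ioi
  simp only [Real.rpow_one, neg_mul]

lemma gam_val {n j : ℕ} (hn : 1 ≤ n) :
    ∫ y in Set.Ioi (0 : ℝ), y ^ ((j : ℝ) + 1 / 2 - 1) * Real.exp (-((n : ℝ) * y)) =
      (n : ℝ) ^ (-((j : ℝ) + 1 / 2)) * Real.Gamma ((j : ℝ) + 1 / 2) := by
  have hn' : (0 : ℝ) < n := by exact_mod_cast hn
  rw [Real.integral_rpow_mul_exp_neg_mul_Ioi (by positivity) hn', one_div,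
    Real.inv_rpow hn'.le, Real.rpow_neg hn'.le]

lemma diff_le {n : ℕ} (hn : 1 ≤ n) {D : ℝ} (h0 : 0 < D) (h1 : D ≤ π / 2) (j : ℕ) :
    ‖∫ y in Set.Ioi (0 : ℝ), K D n y * (ft y - 1) ^ j‖ ≤ √(π / 2) * Real.Gamma ((j : ℝ) + 1 / 2) *
      ((n : ℝ) ^ (-((j : ℝ) + 1 / 2)) * D ^ (-(1 / 2) : ℝ)) := by
  have h := norm_integral_le_of_norm_le (μ := volume.restrict (Set.Ioi (0 : ℝ)))
    ((gam_int (j := j) hn).const_mul (√(π / 2) * D ^ (-(1 / 2) : ℝ)))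
    ((ae_restrict_iff' measurableSet_Ioi).2 (Eventually.of_forall fun y hy => bound_K h0 h1 n j hy))
  rw [integral_const_mul, gam_val hn] at h
  linarith

lemma K_succ (D : ℝ) (n : ℕ) (y : ℝ) : K D (n + 1) y = K D n y * ft y := by
  unfold K
  ring

lemma d1 {D : ℝ} (h0 : 0 < D) (h1 : D < π) (n : ℕ) :
    bL (n + 1) D - bL n D = ∫ y in Set.Ioi (0 : ℝ), K D n y * (ft y - 1) ^ 1 := by
  rw [bL_eq h0 h1, bL_eq h0 h1, ← integral_sub (K_int h0 h1 _) (K_int h0 h1 _)]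
  congr 1
  ext y
  rw [K_succ]
  ring

lemma d2 {D : ℝ} (h0 : 0 < D) (h1 : D < π) (n : ℕ) :
    bL (n + 2) D - 2 * bL (n + 1) D + bL n D =
      ∫ y in Set.Ioi (0 : ℝ), K D n y * (ft y - 1) ^ 2 := by
  have i2 := (K_int h0 h1 (n + 1)).const_mul 2
  rw [bL_eq h0 h1, bL_eq h0 h1, bL_eq h0 h1, ← integral_const_mul,
    ← integral_sub (K_int h0 h1 _) i2]
  have e := integral_add ((K_int h0 h1 (n + 2)).sub i2) (K_int h0 h1 n)
  simp only [Pi.sub_apply] at e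
  rw [← e]
  congr 1
  ext y
  rw [K_succ, K_succ]
  ring

end LGD

theorem t_LGD : S_LGD := by
  refine ⟨√(π / 2) * (Real.Gamma (1 / 2) + Real.Gamma (3 / 2) + Real.Gamma (5 / 2)), ?_, ?_⟩
  · have g1 := Real.Gamma_pos_of_pos (show (0 : ℝ) < 1 / 2 by norm_num)
    have g2 := Real.Gamma_pos_of_pos (show (0 : ℝ) < 3 / 2 by norm_num)
    have g3 := Real.Gamma_pos_of_pos (show (0 : ℝ) < 5 / 2 by norm_num)
    positivity
  · intro n D hn h0 h1
    have g1 := Real.Gamma_pos_of_pos (show (0 : ℝ) < 1 / 2 by norm_num)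
    have g2 := Real.Gamma_pos_of_pos (show (0 : ℝ) < 3 / 2 by norm_num)
    have g3 := Real.Gamma_pos_of_pos (show (0 : ℝ) < 5 / 2 by norm_num)
    have hD := Real.rpow_nonneg h0.le (-(1 / 2) : ℝ)
    have hpi : D < π := by linarith [Real.pi_pos]
    have hn0 : (0 : ℝ) ≤ n := Nat.cast_nonneg n
    have f0 := LGD.diff_le hn h0 h1 0
    have f1 := LGD.diff_le hn h0 h1 1
    have f2 := LGD.diff_le hn h0 h1 2
    rw [show ((0 : ℕ) : ℝ) + 1 / 2 = 1 / 2 by norm_num] at f0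
    rw [show ((1 : ℕ) : ℝ) + 1 / 2 = 3 / 2 by norm_num, ← LGD.d1 h0 hpi] at f1
    rw [show ((2 : ℕ) : ℝ) + 1 / 2 = 5 / 2 by norm_num, ← LGD.d2 h0 hpi] at f2
    simp only [pow_zero, mul_one] at f0
    rw [← LGC.bL_eq h0 hpi] at f0
    refine ⟨f0.trans ?_, f1.trans ?_, f2.trans ?_⟩
    · have := Real.rpow_nonneg hn0 (-(1 / 2) : ℝ)
      gcongr
      linarith
    · have := Real.rpow_nonneg hn0 (-(3 / 2) : ℝ)
      gcongr
      linarith
    · have := Real.rpow_nonneg hn0 (-(5 / 2) : ℝ)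
      gcongr
      linarith

end

end SPH
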