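import Pool.Agent.SPH.StE
import Pool.Agent.STZ3.LOT

/-!
# Module LTS: low levels and top levels together (helper92), copy of STZ3/LOT.lean
-/

set_option autoImplicit false

namespace SPH

open STZ LGR STZ3 MeasureTheory Matrix Filter

open scoped ComplexConjugate Matrix Real Topology

noncomputable section

open STZ3.LOT in
theorem t_LTS : M_LTS := by
  intro hLEW M _ _ _ _ _ _ μ _ ι K r e w Q p₀ α he hp₀ hMXB hTLV hLLV p hp
  obtain ⟨p₂, hp₂, hp₂'⟩ := exists_between (lt_min hp (lt_add_one p₀))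
  have hp₂p : p₂ < p := lt_of_lt_of_le hp₂' (min_le_left _ _)
  have hp₂3 : p₂ < p₀ + 1 := lt_of_lt_of_le hp₂' (min_le_right _ _)
  have hp0 : 0 < p := by linarith
  have hp₀0 : 0 < p₀ := by linarith
  obtain ⟨κ, C₁, hκ, hC₁, htop⟩ := hTLV p₂ hp₂ hp₂3
  set ε : ℝ := min 1 (2 * κ * (p - p₀) / p₀) with hε
  have hpp : 0 < p - p₀ := by linarith
  have hε0 : 0 < ε := lt_min one_pos (by positivity)
  have hε1 : ε ≤ 1 := min_le_left _ _
  have hε2 : ε * p₀ / 2 ≤ κ * (p - p₀) := by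
    have h1 : ε ≤ 2 * κ * (p - p₀) / p₀ := min_le_right _ _
    rw [le_div_iff₀ hp₀0] at h1
    linarith
  obtain ⟨C₂, hC₂, hlow⟩ := hLLV ε hε0
  obtain ⟨C₃, hC₃, hmax⟩ := hMXB
  obtain ⟨C₄, hC₄, hlew⟩ := hLEW M μ p₀ p₂ p hp₀ hp (by linarith) hp₂p
  set d : ℝ := (r : ℝ) + e with hd
  obtain ⟨D₀, hD₀⟩ : ∃ D₀ : ℝ, D₀ = C₄ * (2 * C₂ + (2 * C₂) ^ (p₀ / 2) + C₁ * C₃ ^ (p - p₂)) :=
    ⟨_, rfl⟩
  have hD0 : 0 ≤ D₀ := by
    rw [hD₀]
    positivity
  refine ⟨D₀ ^ (1 / p), by positivity, fun F u hu N hN hF => ?_⟩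
  have hF2 : ∀ a ∈ F, sz (w a) ≤ N := fun a ha => (hF a ha).2
  have hN0 : 0 < N := by linarith
  set S : ℝ := ∑ a ∈ F, nsq μ (u a) with hS
  have hS0 : 0 ≤ S := Finset.sum_nonneg fun a _ => integral_nonneg fun _ => by positivity
  have hmx := hmax F u hu N hN hF2
  rcases hS0.eq_or_lt with hS1 | hS1
  · have h1 : ∀ t x, ‖uw w Q F u t x‖ = 0 := by
      intro t x
      have h2 := hmx t x
      rw [← hS, ← hS1, Real.sqrt_zero, mul_zero] at h2
      exact le_antisymm h2 (norm_nonneg _)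
    have h3 : nq μ p (uw w Q F u) = 0 := by
      unfold nq
      simp only [h1, Real.zero_rpow hp0.ne', integral_zero, intervalIntegral.integral_zero]
      exact Real.zero_rpow (by positivity)
    rw [h3]
    positivity
  have hJC : JC (uw w Q F u) := by
    refine continuous_finsetSum _ fun a ha => ?_
    refine Continuous.mul ?_ ((hu a ha).1.comp continuous_snd)
    unfold eu
    fun_prop
  have hΛ₁ : 0 < N ^ (d / 2 - κ) * √S := mul_pos (by positivity) (Real.sqrt_pos.2 hS1)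
  have hm0 : ∀ G : ℝ → M → ℂ, 0 ≤ ∫ t in (0 : ℝ)..1, ∫ x, ‖G t x‖ ∂μ := fun G =>
    intervalIntegral.integral_nonneg zero_le_one fun t _ => integral_nonneg fun _ => norm_nonneg _
  have hA0 : 0 ≤ C₂ * N ^ ε * S * N ^ (d * (1 - 2 / p₀) - 4 / p₀) := by positivity
  have hB0 : 0 ≤ C₂ * N ^ ε * S * N ^ (-3 : ℝ) := by positivity
  have hmain := hlew (uw w Q F u) (N ^ (d / 2 - κ) * √S) (C₃ * N ^ (d / 2) * √S)
    (2 * (C₂ * N ^ ε * S * N ^ (-3 : ℝ)))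
    ((2 * (C₂ * N ^ ε * S * N ^ (d * (1 - 2 / p₀) - 4 / p₀))) ^ (p₀ / 2))
    (C₁ * N ^ (p₂ * d / 2 - (d + 2)) * S ^ (p₂ / 2)) hJC hΛ₁ (by positivity) (by positivity)
    (by positivity) hmx ?_
  · have h1 := terms N S d κ ε p p₀ p₂ C₁ C₂ C₃ hN hS1 hκ hC₁ hC₂ hC₃ hp₀ hp hp₂p hε1 hε2
    have h2 : ∫ t in (0 : ℝ)..1, ∫ x, ‖uw w Q F u t x‖ ^ p ∂μ ≤
        D₀ * (N ^ (p * d / 2 - d - 2) * S ^ (p / 2)) := by
      refine hmain.trans ((mul_le_mul_of_nonneg_left h1 hC₄).trans (le_of_eq ?_))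
      rw [hD₀]
      ring
    have h0 : 0 ≤ ∫ t in (0 : ℝ)..1, ∫ x, ‖uw w Q F u t x‖ ^ p ∂μ :=
      intervalIntegral.integral_nonneg zero_le_one fun t _ => integral_nonneg fun _ => by positivity
    unfold nq
    refine (Real.rpow_le_rpow h0 h2 (by positivity)).trans (le_of_eq ?_)
    rw [Real.mul_rpow hD0 (by positivity), Real.mul_rpow (by positivity) (by positivity),
      ← Real.rpow_mul hN0.le, ← Real.rpow_mul hS0, Real.sqrt_eq_rpow]
    have e1 : (p * d / 2 - d - 2) * (1 / p) = d / 2 - (d + 2) / p := by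
      field_simp
      ring
    have e2 : p / 2 * (1 / p) = 1 / 2 := by field_simp
    rw [e1, e2, hd]
    ring
  · intro ℓ G hℓ hG hG1 hℓm
    refine ⟨fun _ => ?_, fun hℓ1 => ?_⟩
    · refine low _ ℓ _ _ p₀ hp₀ (hm0 G) hℓ hA0 hB0 ?_
      have h1 := hlow F u hu N hN hF G hG hG1
      have h2 : (ℓ * ∫ t in (0 : ℝ)..1, ∫ x, ‖G t x‖ ∂μ) ^ 2 ≤
          ‖∫ t in (0 : ℝ)..1, ∫ x, conj (G t x) * uw w Q F u t x ∂μ‖ ^ 2 :=
        pow_le_pow_left₀ (mul_nonneg hℓ.le (hm0 G)) hℓm 2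
      refine (h2.trans h1).trans (le_of_eq ?_)
      ring
    · exact htop F u hu N hN hF G hG hG1 ℓ hℓ hℓ1 hℓm

end

end SPH
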