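import Pool.Agent.SPH.StD
import Pool.Agent.STZ.TTX

/-!
# The sphere: module LWS, the low levels (adapted from `Pool/Agent/STZ3/LWC.lean`)
-/

namespace SPH

open STZ LGR STZ3 MeasureTheory Matrix Filter

open scoped ComplexConjugate Matrix Real Topology

noncomputable section

namespace LWS

open TTX

section

variable {M : Type} [TopologicalSpace M] [CompactSpace M] [T2Space M]
  [SecondCountableTopology M] [MeasurableSpace M] [BorelSpace M] (μ : Measure M)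
  [IsProbabilityMeasure μ] {ι : Type} {K : ι → M → M → ℂ}

theorem BFe (hK : ∀ i, Continuous fun z : M × M => K i z.1 z.2) (F : Finset ι) (mu : ℝ → ι → ℂ)
    {G : ℝ → M → ℂ} (hG : JC G) :
    ∫ t in (0 : ℝ)..1, ∫ s in (0 : ℝ)..1, ∫ x, conj (G t x) *
      ∫ y, (∑ i ∈ F, mu (t - s) i * K i x y) * G s y ∂μ ∂μ =
    ∫ t in (0 : ℝ)..1, ∫ s in (0 : ℝ)..1, ∑ i ∈ F, mu (t - s) i * bf μ (K i) (G s) (G t) := by
  have h : ∀ t s : ℝ, ∫ x, conj (G t x) * ∫ y, (∑ i ∈ F, mu (t - s) i * K i x y) * G s y ∂μ ∂μ =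
      ∑ i ∈ F, mu (t - s) i * bf μ (K i) (G s) (G t) := by
    intro t s
    exact bf_sum μ F (fun i => mu (t - s) i) K (fun i _ => hK i) (sec' hG s) (sec' hG t)
  simp only [h]

theorem bfc (hK : ∀ i, Continuous fun z : M × M => K i z.1 z.2) (i : ι) {G : ℝ → M → ℂ} (hG : JC G) :
    Continuous fun z : ℝ × ℝ => bf μ (K i) (G z.2) (G z.1) := by
  refine bf_cont μ (X := ℝ × ℝ) (k := fun _ => K i) (u := fun z => G z.2) (v := fun z => G z.1) ?_ ?_ ?_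
  · exact (hK i).comp (f := fun z : (ℝ × ℝ) × M × M => z.2) (by fun_prop)
  · exact Continuous.comp (g := fun z : ℝ × M => G z.1 z.2) hG
      (f := fun z : (ℝ × ℝ) × M => (z.1.2, z.2)) (by fun_prop)
  · exact Continuous.comp (g := fun z : ℝ × M => G z.1 z.2) hG
      (f := fun z : (ℝ × ℝ) × M => (z.1.1, z.2)) (by fun_prop)

theorem BFsum (hK : ∀ i, Continuous fun z : M × M => K i z.1 z.2) (F : Finset ι) {κ : Type} (S : Finset κ)
    (mu : κ → ℝ → ι → ℂ) (hmu : ∀ x i, Continuous fun t => mu x t i) {G : ℝ → M → ℂ} (hG : JC G) :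
    ∫ t in (0 : ℝ)..1, ∫ s in (0 : ℝ)..1, ∑ i ∈ F, (∑ x ∈ S, mu x (t - s) i) * bf μ (K i) (G s) (G t) =
    ∑ x ∈ S, ∫ t in (0 : ℝ)..1, ∫ s in (0 : ℝ)..1, ∑ i ∈ F, mu x (t - s) i * bf μ (K i) (G s) (G t) := by
  have hc : ∀ x, Continuous fun z : ℝ × ℝ => ∑ i ∈ F, mu x (z.1 - z.2) i * bf μ (K i) (G z.2) (G z.1) := by
    intro x
    refine continuous_finsetSum _ fun i _ => Continuous.mul ?_ (bfc μ hK i hG)
    exact (hmu x i).comp (continuous_fst.sub continuous_snd)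
  have h1 : ∀ t s : ℝ, ∑ i ∈ F, (∑ x ∈ S, mu x (t - s) i) * bf μ (K i) (G s) (G t) =
      ∑ x ∈ S, ∑ i ∈ F, mu x (t - s) i * bf μ (K i) (G s) (G t) := by
    intro t s
    rw [Finset.sum_comm]
    refine Finset.sum_congr rfl fun i _ => ?_
    rw [Finset.sum_mul]
  have h2 : ∀ t : ℝ, ∫ s in (0 : ℝ)..1, ∑ x ∈ S, ∑ i ∈ F, mu x (t - s) i * bf μ (K i) (G s) (G t) =
      ∑ x ∈ S, ∫ s in (0 : ℝ)..1, ∑ i ∈ F, mu x (t - s) i * bf μ (K i) (G s) (G t) := by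
    intro t
    rw [intervalIntegral.integral_finsetSum]
    intro x _
    refine Continuous.intervalIntegrable ?_ _ _
    exact (hc x).comp (f := fun s : ℝ => (t, s)) (by fun_prop)
  simp only [h1, h2]
  rw [intervalIntegral.integral_finsetSum]
  intro x _
  refine Continuous.intervalIntegrable ?_ _ _
  exact intervalIntegral.continuous_parametric_intervalIntegral_of_continuous'
    (f := fun (t s : ℝ) => ∑ i ∈ F, mu x (t - s) i * bf μ (K i) (G s) (G t)) (hc x) 0 1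

/-- the mass is monotone -/
theorem mass_mono {G G' : ℝ → M → ℂ} (hG : JC G) (hG' : JC G')
    (h : ∀ t, ∫ x, ‖G' t x‖ ∂μ ≤ ∫ x, ‖G t x‖ ∂μ) :
    ∫ t in (0 : ℝ)..1, ∫ x, ‖G' t x‖ ∂μ ≤ ∫ t in (0 : ℝ)..1, ∫ x, ‖G t x‖ ∂μ := by
  have c1 : Continuous fun t => ∫ x, ‖G t x‖ ∂μ := par μ (f := fun t x => ‖G t x‖) (Continuous.norm hG)
  have c2 : Continuous fun t => ∫ x, ‖G' t x‖ ∂μ := par μ (f := fun t x => ‖G' t x‖) (Continuous.norm hG')
  exact intervalIntegral.integral_mono_on zero_le_one (c2.intervalIntegrable _ _)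
    (c1.intervalIntegrable _ _) fun t _ => h t

/-- the trivial bound of the pairing -/
theorem pair_le {G W : ℝ → M → ℂ} (hG : JC G) {A : ℝ} (_hA : 0 ≤ A) (hW : ∀ t x, ‖W t x‖ ≤ A) :
    ‖∫ t in (0 : ℝ)..1, ∫ x, conj (G t x) * W t x ∂μ‖ ≤ A * ∫ t in (0 : ℝ)..1, ∫ x, ‖G t x‖ ∂μ := by
  have c1 : Continuous fun t => ∫ x, ‖G t x‖ ∂μ := par μ (f := fun t x => ‖G t x‖) (Continuous.norm hG)
  rw [← intervalIntegral.integral_const_mul]
  refine intervalIntegral.norm_integral_le_of_norm_le zero_le_one ?_ ((c1.const_mul A).intervalIntegrable _ _)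
  refine Eventually.of_forall fun t _ => ?_
  rw [← integral_const_mul]
  refine norm_integral_le_of_norm_le ?_ (Eventually.of_forall fun x => ?_)
  · exact (integ μ ((sec' hG t).norm)).const_mul A
  · rw [norm_mul, RCLike.norm_conj, mul_comm]
    exact mul_le_mul_of_nonneg_right (hW t x) (norm_nonneg _)

/-- the mass is at most one -/
theorem mass_le {G : ℝ → M → ℂ} (hG : JC G) (h1 : ∀ t x, ‖G t x‖ ≤ 1) :
    ∫ t in (0 : ℝ)..1, ∫ x, ‖G t x‖ ∂μ ≤ 1 := by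
  have c1 : Continuous fun t => ∫ x, ‖G t x‖ ∂μ := par μ (f := fun t x => ‖G t x‖) (Continuous.norm hG)
  have h : ∫ t in (0 : ℝ)..1, ∫ x, ‖G t x‖ ∂μ ≤ ∫ t in (0 : ℝ)..1, (1 : ℝ) := by
    refine intervalIntegral.integral_mono_on zero_le_one (c1.intervalIntegrable _ _)
      intervalIntegrable_const fun t _ => ?_
    have h2 : ∫ x, ‖G t x‖ ∂μ ≤ ∫ _x, (1 : ℝ) ∂μ :=
      integral_mono (integ μ ((sec' hG t).norm)) (integrable_const _) (h1 t)
    simpa using h2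
  simpa using h

end

/-- the powers of `J + 1` -/
theorem powJ (n : ℕ) {ε : ℝ} (hε : 0 < ε) : ∃ C : ℝ, 0 ≤ C ∧ ∀ J : ℕ, ((J : ℝ) + 1) ^ n ≤ C * (2 : ℝ) ^ (ε * J) := by
  set δ : ℝ := ε * Real.log 2 / (n + 1) with hδ
  have hl : 0 < Real.log 2 := Real.log_pos one_lt_two
  have hδ0 : 0 < δ := by positivity
  refine ⟨(1 + 1 / δ) ^ n, by positivity, fun J => ?_⟩
  have h1 : (J : ℝ) + 1 ≤ (1 + 1 / δ) * Real.exp (δ * J) := by
    have h2 := Real.add_one_le_exp (δ * J)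
    have h3 : (J : ℝ) + 1 ≤ (1 + 1 / δ) * (δ * J + 1) := by
      have h4 : (1 + 1 / δ) * (δ * J + 1) = δ * J + 1 + J + 1 / δ := by
        field_simp
        ring
      rw [h4]
      have : 0 ≤ δ * J := by positivity
      have : 0 ≤ 1 / δ := by positivity
      linarith
    exact h3.trans (mul_le_mul_of_nonneg_left h2 (by positivity))
  calc ((J : ℝ) + 1) ^ n ≤ ((1 + 1 / δ) * Real.exp (δ * J)) ^ n := pow_le_pow_left₀ (by positivity) h1 n
    _ = (1 + 1 / δ) ^ n * Real.exp (n * (δ * J)) := by rw [mul_pow, ← Real.exp_nat_mul]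
    _ ≤ (1 + 1 / δ) ^ n * (2 : ℝ) ^ (ε * J) := by
        refine mul_le_mul_of_nonneg_left ?_ (by positivity)
        rw [Real.rpow_def_of_pos two_pos]
        refine Real.exp_le_exp.2 ?_
        have h5 : (n : ℝ) * δ ≤ ε * Real.log 2 := by
          rw [hδ, ← mul_div_assoc, div_le_iff₀ (by positivity)]
          have : 0 < ε * Real.log 2 := by positivity
          nlinarith
        calc (n : ℝ) * (δ * J) = (n * δ) * J := by ring
          _ ≤ (ε * Real.log 2) * J := mul_le_mul_of_nonneg_right h5 (by positivity)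
          _ = _ := by ring

/-- the choice of the scale -/
theorem scale {R : ℝ} (hR : 1 ≤ R) : ∃ J : ℕ, R ≤ 2 ^ J ∧ (2 : ℝ) ^ J ≤ 2 * R := by
  classical
  have hex : ∃ j : ℕ, R ≤ 2 ^ j := by
    obtain ⟨j, hj⟩ := pow_unbounded_of_one_lt R (one_lt_two : (1 : ℝ) < 2)
    exact ⟨j, hj.le⟩
  set j := Nat.find hex with hj
  have h1 : R ≤ 2 ^ j := Nat.find_spec hex
  have h2 : (2 : ℝ) ^ j ≤ 2 * R := by
    rcases Nat.eq_zero_or_pos j with h0 | h0
    · rw [h0]; norm_num; linarith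
    · have h3 : ¬ R ≤ 2 ^ (j - 1) := Nat.find_min hex (by omega)
      push Not at h3
      have h4 : (2 : ℝ) ^ j = 2 * 2 ^ (j - 1) := by
        rw [← pow_succ']; congr 1; omega
      rw [h4]
      linarith
  exact ⟨j, h1, h2⟩

/-- the characters are continuous -/
theorem chi_cont {N : ℕ} {H : Subgroup (SU N)} {r : ℕ} {Φ : RT r} {Hc : Fin r → MT N} {c k : ℝ} {d : ℕ}
    {χ : IX Hc → H → ℂ} (hχ : CHI Φ Hc c k d χ) (i : IX Hc) : Continuous (χ i) := by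
  obtain ⟨n, σ, -, -, -, h⟩ := hχ i
  have e : χ i = σ.ch := (funext h).symm
  rw [e]
  unfold Rep.ch
  exact Continuous.matrix_trace σ.cont

theorem KK_cont {N : ℕ} {H : Subgroup (SU N)} {r : ℕ} {Φ : RT r} {Hc : Fin r → MT N} {c k : ℝ} {d : ℕ}
    {χ : IX Hc → H → ℂ} (hχ : CHI Φ Hc c k d χ) (i : IX Hc) :
    Continuous fun z : H × H => KK χ i z.1 z.2 := by
  unfold KK
  refine continuous_const.mul ((chi_cont hχ i).comp ?_)
  exact continuous_fst.mul continuous_snd.inv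

/-- the size of a label -/
theorem sz_wG {N : ℕ} {Hc : Fin 1 → MT N} (i : IX Hc) : sz (wG i.1) = 1 + (lw i : ℝ) := by
  unfold sz lw
  rw [Fin.sum_univ_one]
  have h : (0 : ℝ) ≤ ((wG i.1 0 : ℤ) : ℝ) := by
    have : (0 : ℤ) ≤ wG i.1 0 := by
      show (0 : ℤ) ≤ (i.1 0 : ℤ) + 1
      omega
    exact_mod_cast this
  rw [abs_of_nonneg h]

theorem lw_pos {N : ℕ} {Hc : Fin 1 → MT N} (i : IX Hc) : 1 ≤ lw i := by
  show (1 : ℤ) ≤ (i.1 0 : ℤ) + 1
  omega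

end LWS

open LWS TTX in
theorem t_LWS : M_LWS := by
  intro hWF hRN hPR hNX hTT hSR hMX hBX N H Φ B Hc E c k hCX cc ze w C₀ hSP htr μ _ _ χ hχ hK e he ε hε
  have hcomp : CompactSpace H := isCompact_iff_compactSpace.1 hCX.closed.isCompact
  have hsc : SecondCountableTopology H :=
    TopologicalSpace.Subtype.secondCountableTopology (H : Set (SU N))
  have hI := hCX.lrd.ird
  have hW := hWF 1 Φ B hI
  have hR1 := hRN Φ B hI hW
  obtain ⟨m, C₁, C, Y, J₀, hm, hCS, hC, hJ0, hB⟩ :=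
    hBX N H Φ B Hc E c k hCX cc ze w C₀ hSP htr μ χ hχ (ε / 2) (by positivity)
  have hN := hNX m C₁ hm hCS
  obtain ⟨-, hfin⟩ := hSR N H Φ B Hc E c k hCX
  obtain ⟨Cm, hCm, hM⟩ := hMX N H Φ B Hc E c k hCX cc w χ μ hK e
  obtain ⟨Cp, hCp, hpow⟩ := powJ 1 (show 0 < ε / 2 by positivity)
  have hker := hK.ker e
  have hKc : ∀ i : IX Hc, Continuous fun z : H × H => KK χ i z.1 z.2 := KK_cont hχ
  have hex2 : (((1 : ℕ) : ℝ) + 1) * (1 - 2 / (14 / 3)) - 4 / (14 / 3) = 2 / 7 := by norm_num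
  have hex3 : (2 : ℝ) - 2 / (14 / 3) = 11 / 7 := by norm_num
  set J₁ : ℕ := max J₀ 4 with hJ₁
  refine ⟨Cp * C * 2 ^ ε * 2 ^ ((2 : ℝ) / 7) + Cm ^ 2 * ((2 : ℝ) ^ J₁) ^ 5, by positivity, ?_⟩
  intro F u hu R hR hF G hG hG1
  rw [hex2, hex3]
  have hS0 : 0 ≤ ∑ a ∈ F, nsq μ (u a) := Finset.sum_nonneg fun a _ => integral_nonneg fun x => by positivity
  set M₁ : ℝ := ∫ t in (0 : ℝ)..1, ∫ x, ‖G t x‖ ∂μ with hM₁
  have hM0 : 0 ≤ M₁ := by
    rw [hM₁]
    refine intervalIntegral.integral_nonneg zero_le_one fun t _ => ?_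
    exact integral_nonneg fun x => norm_nonneg _
  have hM1 : M₁ ≤ 1 := mass_le μ hG hG1
  have hR0 : (0 : ℝ) < R := by linarith
  have hRε : 1 ≤ R ^ ε := Real.one_le_rpow hR hε.le
  have hMp : (0 : ℝ) ≤ M₁ ^ ((11 : ℝ) / 7) := Real.rpow_nonneg hM0 _
  have hR3 : (0 : ℝ) < R ^ (-3 : ℝ) := Real.rpow_pos_of_pos hR0 _
  have hRn : 0 ≤ R ^ ((2 : ℝ) / 7) * M₁ ^ ((11 : ℝ) / 7) + R ^ (-3 : ℝ) * M₁ := by positivity
  -- the scale
  obtain ⟨J, hJ2, hJ3⟩ := scale hR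
  have hX0 : (0 : ℝ) < 2 ^ J := by positivity
  by_cases hJ : J < J₁
  · -- the small scales
    have hRJ : R ≤ 2 ^ J₁ := hJ2.trans (pow_le_pow_right₀ (by norm_num) hJ.le)
    have h1 : ∀ t x, ‖uw (fun i : PX Hc e => wG i.1.1) (fun l => -(rd Φ).Q l) F u t x‖ ≤
        Cm * R * √(∑ a ∈ F, nsq μ (u a)) := by
      intro t x
      have := hM F u hu R hR (fun a ha => (hF a ha).2) t x
      refine this.trans (le_of_eq ?_)
      have e1 : R ^ ((((1 : ℕ) : ℝ) + 1) / 2) = R := by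
        norm_num
      rw [e1]
    have h2 := pair_le μ hG (W := uw (fun i : PX Hc e => wG i.1.1) (fun l => -(rd Φ).Q l) F u)
      (A := Cm * R * √(∑ a ∈ F, nsq μ (u a))) (by positivity) h1
    rw [← hM₁] at h2
    have h3 : ‖∫ t in (0 : ℝ)..1, ∫ x, conj (G t x) *
        uw (fun i : PX Hc e => wG i.1.1) (fun l => -(rd Φ).Q l) F u t x ∂μ‖ ^ 2 ≤
        (Cm * R * √(∑ a ∈ F, nsq μ (u a)) * M₁) ^ 2 := pow_le_pow_left₀ (norm_nonneg _) h2 2
    refine h3.trans ?_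
    have h4 : (Cm * R * √(∑ a ∈ F, nsq μ (u a)) * M₁) ^ 2 =
        Cm ^ 2 * R ^ 2 * (∑ a ∈ F, nsq μ (u a)) * M₁ ^ 2 := by
      rw [mul_pow, mul_pow, mul_pow, Real.sq_sqrt hS0]
    rw [h4]
    have h5 : R ^ 2 = R ^ 5 * R ^ (-3 : ℝ) := by
      rw [← Real.rpow_natCast R 5, ← Real.rpow_add hR0, ← Real.rpow_natCast R 2]
      norm_num
    have h6 : R ^ 5 ≤ ((2 : ℝ) ^ J₁) ^ 5 := pow_le_pow_left₀ hR0.le hRJ 5
    have h7 : M₁ ^ 2 ≤ M₁ := by nlinarith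
    calc Cm ^ 2 * R ^ 2 * (∑ a ∈ F, nsq μ (u a)) * M₁ ^ 2
        = (Cm ^ 2 * R ^ 5) * (∑ a ∈ F, nsq μ (u a)) * (R ^ (-3 : ℝ) * M₁ ^ 2) := by rw [h5]; ring
      _ ≤ (Cm ^ 2 * ((2 : ℝ) ^ J₁) ^ 5) * (∑ a ∈ F, nsq μ (u a)) * (R ^ (-3 : ℝ) * M₁) := by
          refine mul_le_mul (mul_le_mul_of_nonneg_right (mul_le_mul_of_nonneg_left h6 (by positivity)) hS0)
            (mul_le_mul_of_nonneg_left h7 hR3.le) (by positivity) (by positivity)
      _ ≤ ((Cp * C * 2 ^ ε * 2 ^ ((2 : ℝ) / 7) + Cm ^ 2 * ((2 : ℝ) ^ J₁) ^ 5) * R ^ ε) *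
          (∑ a ∈ F, nsq μ (u a)) * (R ^ ((2 : ℝ) / 7) * M₁ ^ ((11 : ℝ) / 7) + R ^ (-3 : ℝ) * M₁) := by
          refine mul_le_mul (mul_le_mul_of_nonneg_right ?_ hS0) ?_ (by positivity) (by positivity)
          · have a1 : 0 ≤ Cp * C * 2 ^ ε * 2 ^ ((2 : ℝ) / 7) := by positivity
            have a2 : 0 ≤ Cm ^ 2 * ((2 : ℝ) ^ J₁) ^ 5 := by positivity
            nlinarith
          · have : 0 ≤ R ^ ((2 : ℝ) / 7) * M₁ ^ ((11 : ℝ) / 7) := by positivity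
            linarith
  · -- the large scales
    push Not at hJ
    have hJJ0 : J₀ ≤ J := (le_max_left _ _).trans hJ
    have hJ4 : 4 ≤ J := (le_max_right _ _).trans hJ
    obtain ⟨hYJ, hKS, hB'⟩ := hB J hJJ0
    have hR8 : 8 ≤ R := by
      have : (2 : ℝ) ^ 4 ≤ 2 ^ J := pow_le_pow_right₀ (by norm_num) hJ4
      norm_num at this
      linarith
    -- the labels
    have hlw : ∀ a ∈ F, (lw a.1 : ℝ) ≤ 2 ^ J ∧ (2 : ℝ) ^ J < 8 * (lw a.1 : ℝ) := by
      intro a ha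
      obtain ⟨h1, h2⟩ := hF a ha
      have e1 := sz_wG a.1
      have h1' : 1 / 2 * R ≤ 1 + (lw a.1 : ℝ) := by
        have : 1 / 2 * R ≤ sz (wG a.1.1) := h1
        linarith
      have h2' : 1 + (lw a.1 : ℝ) ≤ R := by
        have : sz (wG a.1.1) ≤ R := h2
        linarith
      constructor
      · linarith
      · linarith
    have hq1 : ∀ a ∈ F, qS e (2 ^ J) (lw a.1) = 1 := by
      intro a ha
      unfold qS
      have hp := lw_pos a.1
      rw [abs_of_nonneg (by linarith : (0 : ℤ) ≤ lw a.1)]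
      obtain ⟨h1, h2⟩ := hlw a ha
      rw [if_pos]
      refine ⟨a.2, ?_, ?_⟩
      · push_cast
        exact_mod_cast h2
      · push_cast
        exact_mod_cast h1
    -- the projection
    obtain ⟨G', hGc, hGb, hGt, hGw, hGle, hGeq⟩ := hPR N H Φ B Hc E c k hCX cc ze w C₀ hSP μ e G hG hG1
    have hleft : ∫ t in (0 : ℝ)..1, ∫ x, conj (G t x) *
        uw (fun i : PX Hc e => wG i.1.1) (fun l => -(rd Φ).Q l) F u t x ∂μ =
        ∫ t in (0 : ℝ)..1, ∫ x, conj (G' t x) * ∑ a ∈ F, eu (t * ((-(lw a.1) ^ 2 : ℤ) : ℝ)) * u a x ∂μ := by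
      refine intervalIntegral.integral_congr fun t _ => ?_
      have hu' := fun a (ha : a ∈ F) => hK.mem e a (u a) (hu a ha)
      have e1 : ∀ x, uw (fun i : PX Hc e => wG i.1.1) (fun l => -(rd Φ).Q l) F u t x =
          ∑ a ∈ F, eu (t * ((-(lw a.1) ^ 2 : ℤ) : ℝ)) * u a x := by
        intro x
        unfold uw
        refine Finset.sum_congr rfl fun a _ => ?_
        show eu (t * ((-(rd Φ).Q (wG a.1.1) : ℤ) : ℝ)) * u a x = _
        rw [hR1.q]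
        rfl
      show ∫ x, conj (G t x) * uw (fun i : PX Hc e => wG i.1.1) (fun l => -(rd Φ).Q l) F u t x ∂μ = _
      simp only [e1]
      symm
      refine hGeq t (fun x => ∑ a ∈ F, eu (t * ((-(lw a.1) ^ 2 : ℤ) : ℝ)) * u a x) ?_ ?_ ?_
      · exact continuous_finsetSum _ fun a ha => continuous_const.mul (hu a ha).1
      · intro g θ
        refine Finset.sum_congr rfl fun a ha => ?_
        rw [(hu' a ha).1 g θ]
      · intro g
        rw [Finset.mul_sum]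
        refine Finset.sum_congr rfl fun a ha => ?_
        rw [(hu' a ha).2.2 g]
        ring
    -- the finite sets of the labels
    classical
    have hfin' := hfin (2 * 2 ^ J)
    set T' : Finset (IX Hc) := hfin'.toFinset with hT'
    have hmT : ∀ i : IX Hc, i ∈ T' ↔ lw i ≤ ((2 * 2 ^ J : ℕ) : ℤ) := by
      intro i
      rw [hT', Set.Finite.mem_toFinset]
      rfl
    set T : Finset (PX Hc e) := T'.subtype (fun i => lw i % 4 = 1 + 2 * (e : ℤ)) with hT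
    have hFT : F ⊆ T := by
      intro a ha
      refine Finset.mem_subtype.2 ((hmT a.1).2 ?_)
      have h1 := (hlw a ha).1
      have h2 : lw a.1 ≤ (2 : ℤ) ^ J := by exact_mod_cast h1
      push_cast
      have h3 : (0 : ℤ) < 2 ^ J := by positivity
      linarith
    have hTm : ∀ (x : ℕ) τ (i : IX Hc), nS m (Y J) x e J τ (lw i) ≠ 0 → i ∈ T' := by
      intro x τ i hi
      refine (hmT i).2 ?_
      have h1 := (hN.supp (Y J) x e J τ (lw i) he hKS hi).2.1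
      rw [abs_of_nonneg (by linarith [lw_pos i] : (0 : ℤ) ≤ lw i)] at h1
      push_cast
      exact h1
    -- TTB
    have h5 := hTT H μ (PX Hc e) (KQ χ e) hker (fun i : PX Hc e => -(lw i.1) ^ 2) F T
      (fun i => qS e (2 ^ J) (lw i.1)) hFT (fun a _ => by unfold qS; split_ifs <;> norm_num)
      (fun a ha => by rw [hq1 a ha]) u hu G' hGc
    have h6 : ∫ t in (0 : ℝ)..1, ∫ s in (0 : ℝ)..1, ∫ x, conj (G' t x) *
        ∫ y, (∑ a ∈ T, ((qS e (2 ^ J) (lw a.1) : ℝ) : ℂ) * eu ((t - s) * ((-(lw a.1) ^ 2 : ℤ) : ℝ)) *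
          KQ χ e a x y) * G' s y ∂μ ∂μ =
        ∑ x ∈ Finset.range (Y J + 1), BF μ χ T' (fun t i => nS m (Y J) x e J t (lw i)) G' := by
      rw [BFe μ hker.cont T (fun τ a => ((qS e (2 ^ J) (lw a.1) : ℝ) : ℂ) *
        eu (τ * ((-(lw a.1) ^ 2 : ℤ) : ℝ))) hGc]
      have e1 : ∀ t s : ℝ, ∑ a ∈ T, ((qS e (2 ^ J) (lw a.1) : ℝ) : ℂ) *
          eu ((t - s) * ((-(lw a.1) ^ 2 : ℤ) : ℝ)) * bf μ (KQ χ e a) (G' s) (G' t) =
          ∑ i ∈ T', (∑ x ∈ Finset.range (Y J + 1), nS m (Y J) x e J (t - s) (lw i)) *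
            bf μ (KK χ i) (G' s) (G' t) := by
        intro t s
        have a1 : ∀ a : PX Hc e, ((qS e (2 ^ J) (lw a.1) : ℝ) : ℂ) *
            eu ((t - s) * ((-(lw a.1) ^ 2 : ℤ) : ℝ)) * bf μ (KQ χ e a) (G' s) (G' t) =
            (fun i : IX Hc => (∑ x ∈ Finset.range (Y J + 1), nS m (Y J) x e J (t - s) (lw i)) *
              bf μ (KK χ i) (G' s) (G' t)) a.1 := by
          intro a
          have b1 : bf μ (KQ χ e a) (G' s) (G' t) = bf μ (KK χ a.1) (G' s) (G' t) := by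
            unfold bf
            refine integral_congr_ae (Eventually.of_forall fun x => ?_)
            show conj (G' t x) * _ = conj (G' t x) * _
            congr 1
            exact hK.ti a.1 (G' s) (sec' hGc s) (hGt s) x
          have b2 : ∑ x ∈ Finset.range (Y J + 1), nS m (Y J) x e J (t - s) (lw a.1) =
              gS e (2 ^ J) (t - s) (lw a.1) := by
            refine hN.sum (Y J) e J (t - s) (lw a.1) he hKS ?_
            rw [abs_of_nonneg (by linarith [lw_pos a.1] : (0 : ℤ) ≤ lw a.1)]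
            exact a.2
          show _ = (∑ x ∈ Finset.range (Y J + 1), nS m (Y J) x e J (t - s) (lw a.1)) *
              bf μ (KK χ a.1) (G' s) (G' t)
          rw [b1, b2]
          unfold gS
          congr 3
          push_cast
          ring
        rw [Finset.sum_congr rfl fun a _ => a1 a]
        have a2 : ∑ a ∈ T, (fun i : IX Hc => (∑ x ∈ Finset.range (Y J + 1),
            nS m (Y J) x e J (t - s) (lw i)) * bf μ (KK χ i) (G' s) (G' t)) a.1 =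
            ∑ i ∈ T' with lw i % 4 = 1 + 2 * (e : ℤ), (∑ x ∈ Finset.range (Y J + 1),
            nS m (Y J) x e J (t - s) (lw i)) * bf μ (KK χ i) (G' s) (G' t) :=
          Finset.sum_subtype_eq_sum_filter (s := T') (p := fun i => lw i % 4 = 1 + 2 * (e : ℤ))
            (fun i : IX Hc => (∑ x ∈ Finset.range (Y J + 1),
              nS m (Y J) x e J (t - s) (lw i)) * bf μ (KK χ i) (G' s) (G' t))
        rw [a2]
        refine Finset.sum_subset (Finset.filter_subset _ _) fun i hi hn => ?_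
        have b3 : ¬ lw i % 4 = 1 + 2 * (e : ℤ) := fun h => hn (Finset.mem_filter.2 ⟨hi, h⟩)
        have b4 : bf μ (KK χ i) (G' s) (G' t) = 0 := by
          unfold bf
          have b5 : ∀ x, conj (G' t x) * ∫ y, KK χ i x y * G' s y ∂μ = 0 := by
            intro x
            rw [hK.van e i (G' s) (sec' hGc s) (hGt s) (hGw s) b3 he x, mul_zero]
          simp only [b5, integral_zero]
        rw [b4, mul_zero]
      simp only [e1]
      rw [BFsum μ hKc T' (Finset.range (Y J + 1)) (fun x τ i => nS m (Y J) x e J τ (lw i))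
        (fun x i => hN.cont (Y J) x e J (lw i)) hGc]
      refine Finset.sum_congr rfl fun x _ => ?_
      unfold BF
      rw [BFe μ hKc T' (fun τ i => nS m (Y J) x e J τ (lw i)) hGc]
    -- the bound
    have hMG : mG μ G' ≤ M₁ := mass_mono μ hG hGc hGle
    have hMG0 : 0 ≤ mG μ G' := by
      unfold mG
      refine intervalIntegral.integral_nonneg zero_le_one fun t _ => ?_
      exact integral_nonneg fun x => norm_nonneg _
    have h7 : ‖∑ x ∈ Finset.range (Y J + 1), BF μ χ T' (fun t i => nS m (Y J) x e J t (lw i)) G'‖ ≤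
        ((J : ℝ) + 1) ^ 1 * (C * (2 : ℝ) ^ (ε / 2 * J) *
          ((2 : ℝ) ^ ((2 : ℝ) / 7 * J) * M₁ ^ ((11 : ℝ) / 7) + (2 : ℝ) ^ (-(4 * J : ℝ)) * M₁)) := by
      refine (norm_sum_le _ _).trans ?_
      have h8 : ∀ x ∈ Finset.range (Y J + 1),
          ‖BF μ χ T' (fun t i => nS m (Y J) x e J t (lw i)) G'‖ ≤ C * (2 : ℝ) ^ (ε / 2 * J) *
          ((2 : ℝ) ^ ((2 : ℝ) / 7 * J) * M₁ ^ ((11 : ℝ) / 7) + (2 : ℝ) ^ (-(4 * J : ℝ)) * M₁) := by
        intro x hx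
        have hx' : x ≤ Y J := Nat.lt_succ_iff.1 (Finset.mem_range.1 hx)
        refine (hB' x e T' G' hx' he (hTm x) hGc hGb hGt).trans ?_
        refine mul_le_mul_of_nonneg_left ?_ (by positivity)
        refine add_le_add (mul_le_mul_of_nonneg_left ?_ (by positivity))
          (mul_le_mul_of_nonneg_left hMG (by positivity))
        exact Real.rpow_le_rpow hMG0 hMG (by norm_num)
      refine (Finset.sum_le_sum h8).trans ?_
      rw [Finset.sum_const, nsmul_eq_mul, Finset.card_range, pow_one]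
      refine mul_le_mul_of_nonneg_right ?_ (by positivity)
      push_cast
      have : ((Y J : ℕ) : ℝ) ≤ J := by exact_mod_cast hYJ
      linarith
    have hpJ : ∀ a : ℝ, (2 : ℝ) ^ (a * J) = ((2 : ℝ) ^ J) ^ a := by
      intro a
      rw [← Real.rpow_natCast, ← Real.rpow_mul (by norm_num)]
      congr 1
      ring
    have h9 : ((J : ℝ) + 1) ^ 1 * (C * (2 : ℝ) ^ (ε / 2 * J)) ≤ Cp * C * 2 ^ ε * R ^ ε := by
      have h10 : (2 : ℝ) ^ (ε / 2 * J) * (2 : ℝ) ^ (ε / 2 * J) = ((2 : ℝ) ^ J) ^ ε := by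
        rw [← Real.rpow_add two_pos, ← hpJ]
        congr 1
        ring
      have h11 : ((2 : ℝ) ^ J) ^ ε ≤ 2 ^ ε * R ^ ε := by
        rw [← Real.mul_rpow (by norm_num) hR0.le]
        exact Real.rpow_le_rpow hX0.le hJ3 hε.le
      calc ((J : ℝ) + 1) ^ 1 * (C * (2 : ℝ) ^ (ε / 2 * J))
          ≤ (Cp * (2 : ℝ) ^ (ε / 2 * J)) * (C * (2 : ℝ) ^ (ε / 2 * J)) :=
            mul_le_mul_of_nonneg_right (hpow J) (by positivity)
        _ = Cp * C * ((2 : ℝ) ^ (ε / 2 * J) * (2 : ℝ) ^ (ε / 2 * J)) := by ring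
        _ = Cp * C * ((2 : ℝ) ^ J) ^ ε := by rw [h10]
        _ ≤ Cp * C * (2 ^ ε * R ^ ε) := mul_le_mul_of_nonneg_left h11 (by positivity)
        _ = _ := by ring
    have hK1 : (1 : ℝ) ≤ 2 ^ ((2 : ℝ) / 7) := Real.one_le_rpow (by norm_num) (by norm_num)
    have h12 : (2 : ℝ) ^ ((2 : ℝ) / 7 * J) * M₁ ^ ((11 : ℝ) / 7) + (2 : ℝ) ^ (-(4 * J : ℝ)) * M₁ ≤
        2 ^ ((2 : ℝ) / 7) * (R ^ ((2 : ℝ) / 7) * M₁ ^ ((11 : ℝ) / 7) + R ^ (-3 : ℝ) * M₁) := by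
      have h13 : (2 : ℝ) ^ ((2 : ℝ) / 7 * J) ≤ 2 ^ ((2 : ℝ) / 7) * R ^ ((2 : ℝ) / 7) := by
        rw [hpJ, ← Real.mul_rpow (by norm_num) hR0.le]
        exact Real.rpow_le_rpow hX0.le hJ3 (by norm_num)
      have h14 : (2 : ℝ) ^ (-(4 * J : ℝ)) ≤ R ^ (-3 : ℝ) := by
        have e : (2 : ℝ) ^ (-(4 * J : ℝ)) = ((2 : ℝ) ^ J) ^ (-4 : ℝ) := by
          rw [← hpJ]; congr 1; ring
        rw [e]
        calc ((2 : ℝ) ^ J) ^ (-4 : ℝ) ≤ R ^ (-4 : ℝ) :=
              Real.rpow_le_rpow_of_nonpos hR0 hJ2 (by norm_num)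
          _ ≤ R ^ (-3 : ℝ) := Real.rpow_le_rpow_of_exponent_le hR (by norm_num)
      calc (2 : ℝ) ^ ((2 : ℝ) / 7 * J) * M₁ ^ ((11 : ℝ) / 7) + (2 : ℝ) ^ (-(4 * J : ℝ)) * M₁
          ≤ (2 ^ ((2 : ℝ) / 7) * R ^ ((2 : ℝ) / 7)) * M₁ ^ ((11 : ℝ) / 7) +
            (2 ^ ((2 : ℝ) / 7) * R ^ (-3 : ℝ)) * M₁ := by
            refine add_le_add (mul_le_mul_of_nonneg_right h13 hMp) (mul_le_mul_of_nonneg_right ?_ hM0)
            refine h14.trans ?_
            nlinarith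
        _ = _ := by ring
    have h2n : 0 ≤ (2 : ℝ) ^ ((2 : ℝ) / 7 * J) * M₁ ^ ((11 : ℝ) / 7) + (2 : ℝ) ^ (-(4 * J : ℝ)) * M₁ := by
      positivity
    rw [hleft]
    refine h5.trans ?_
    rw [h6]
    calc (∑ a ∈ F, nsq μ (u a)) * ‖∑ x ∈ Finset.range (Y J + 1),
          BF μ χ T' (fun t i => nS m (Y J) x e J t (lw i)) G'‖
        ≤ (∑ a ∈ F, nsq μ (u a)) * (((J : ℝ) + 1) ^ 1 * (C * (2 : ℝ) ^ (ε / 2 * J) *
          ((2 : ℝ) ^ ((2 : ℝ) / 7 * J) * M₁ ^ ((11 : ℝ) / 7) + (2 : ℝ) ^ (-(4 * J : ℝ)) * M₁))) :=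
          mul_le_mul_of_nonneg_left h7 hS0
      _ = (∑ a ∈ F, nsq μ (u a)) * ((((J : ℝ) + 1) ^ 1 * (C * (2 : ℝ) ^ (ε / 2 * J))) *
          ((2 : ℝ) ^ ((2 : ℝ) / 7 * J) * M₁ ^ ((11 : ℝ) / 7) + (2 : ℝ) ^ (-(4 * J : ℝ)) * M₁)) := by ring
      _ ≤ (∑ a ∈ F, nsq μ (u a)) * ((Cp * C * 2 ^ ε * R ^ ε) *
          (2 ^ ((2 : ℝ) / 7) * (R ^ ((2 : ℝ) / 7) * M₁ ^ ((11 : ℝ) / 7) + R ^ (-3 : ℝ) * M₁))) := by
          refine mul_le_mul_of_nonneg_left ?_ hS0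
          exact mul_le_mul h9 h12 h2n (by positivity)
      _ = (Cp * C * 2 ^ ε * 2 ^ ((2 : ℝ) / 7)) * (R ^ ε * (∑ a ∈ F, nsq μ (u a)) *
          (R ^ ((2 : ℝ) / 7) * M₁ ^ ((11 : ℝ) / 7) + R ^ (-3 : ℝ) * M₁)) := by ring
      _ ≤ (Cp * C * 2 ^ ε * 2 ^ ((2 : ℝ) / 7) + Cm ^ 2 * ((2 : ℝ) ^ J₁) ^ 5) *
          (R ^ ε * (∑ a ∈ F, nsq μ (u a)) *
          (R ^ ((2 : ℝ) / 7) * M₁ ^ ((11 : ℝ) / 7) + R ^ (-3 : ℝ) * M₁)) := by
          refine mul_le_mul_of_nonneg_right ?_ (by positivity)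
          have : 0 ≤ Cm ^ 2 * ((2 : ℝ) ^ J₁) ^ 5 := by positivity
          linarith
      _ = _ := by ring

end

end SPH
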