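import Pool.Agent.SPH.StE

/-!
# Module MUT: the operator norm
-/

namespace SPH

open STZ LGR STZ3 MeasureTheory Matrix Filter

open scoped ComplexConjugate Matrix Real Topology

noncomputable section

namespace MUT

theorem tele (a : ℤ → ℂ) (u k : ℤ) (hk : u - 1 ≤ k) :
    ∑ j ∈ Finset.Icc u k, (a j - a (j - 1)) = a k - a (u - 1) := by
  induction k, hk using Int.leInduction with
  | base =>
    rw [Finset.Icc_eq_empty (by omega), Finset.sum_empty, sub_self]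
  | succ k hk ih =>
    have h1 : Finset.Icc u (k + 1) = insert (k + 1) (Finset.Icc u k) := by
      ext j
      rw [Finset.mem_insert, Finset.mem_Icc, Finset.mem_Icc]
      omega
    rw [h1, Finset.sum_insert (by rw [Finset.mem_Icc]; omega), ih, add_sub_cancel_right]
    ring

/-- Abel summation. -/
theorem abel (a g : ℤ → ℂ) (u v : ℤ) (ha : a (u - 1) = 0) :
    ∑ k ∈ Finset.Icc u v, a k * g k =
      ∑ j ∈ Finset.Icc u v, (a j - a (j - 1)) * ∑ k ∈ Finset.Icc j v, g k := by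
  have h1 : ∀ k ∈ Finset.Icc u v, a k * g k =
      ∑ j ∈ Finset.Icc u k, (a j - a (j - 1)) * g k := by
    intro k hk
    rw [Finset.mem_Icc] at hk
    rw [← Finset.sum_mul, tele a u k (by omega), ha, sub_zero]
  rw [Finset.sum_congr rfl h1, Finset.sum_comm' (t' := Finset.Icc u v)
    (s' := fun j => Finset.Icc j v)]
  · exact Finset.sum_congr rfl fun j _ => (Finset.mul_sum _ _ _).symm
  · intro k j
    rw [Finset.mem_Icc, Finset.mem_Icc, Finset.mem_Icc, Finset.mem_Icc]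
    omega

theorem int1 (l X u v : ℤ) :
    (Finset.Icc u v).filter (fun k => X < 8 * (l - 4 * k) ∧ l - 4 * k ≤ X) =
      Finset.Ico (max u ((l - X + 3) / 4)) (min (v + 1) ((8 * l - X - 1) / 32 + 1)) := by
  ext k
  rw [Finset.mem_filter, Finset.mem_Icc, Finset.mem_Ico]
  omega

theorem int2 (l X u v : ℤ) :
    (Finset.Icc u v).filter (fun k => X < 8 * (-(l - 4 * k)) ∧ -(l - 4 * k) ≤ X) =
      Finset.Ico (max u ((X + 8 * l) / 32 + 1)) (min (v + 1) ((X + l) / 4 + 1)) := by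
  ext k
  rw [Finset.mem_filter, Finset.mem_Icc, Finset.mem_Ico]
  omega

theorem qS_eq (e X : ℕ) (l k : ℤ) : qS e X (l - 4 * k) =
    (if l % 4 = 1 + 2 * (e : ℤ) ∧ ((X : ℤ) < 8 * (l - 4 * k) ∧ l - 4 * k ≤ X) then 1 else 0) +
    (if (-l) % 4 = 1 + 2 * (e : ℤ) ∧ ((X : ℤ) < 8 * (-(l - 4 * k)) ∧ -(l - 4 * k) ≤ X)
      then 1 else 0) := by
  unfold qS
  rcases lt_trichotomy (l - 4 * k) 0 with h | h | h
  · rw [abs_of_neg h]
    have h1 : ¬ (l % 4 = 1 + 2 * (e : ℤ) ∧ ((X : ℤ) < 8 * (l - 4 * k) ∧ l - 4 * k ≤ X)) := by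
      omega
    rw [if_neg h1, zero_add]
    have h2 : (-(l - 4 * k)) % 4 = (-l) % 4 := by omega
    rw [h2]
  · rw [h, abs_zero]
    rw [if_neg (by omega), if_neg (by omega), if_neg (by omega), zero_add]
  · rw [abs_of_pos h]
    have h1 : ¬ ((-l) % 4 = 1 + 2 * (e : ℤ) ∧
        ((X : ℤ) < 8 * (-(l - 4 * k)) ∧ -(l - 4 * k) ≤ X)) := by
      omega
    rw [if_neg h1, add_zero]
    have h2 : (l - 4 * k) % 4 = l % 4 := by omega
    rw [h2]

theorem gS_sum (e X : ℕ) (t : ℝ) (l u v : ℤ) :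
    ∑ k ∈ Finset.Icc u v, gS e X t (l - 4 * k) =
      (if l % 4 = 1 + 2 * (e : ℤ) then
        ∑ k ∈ (Finset.Icc u v).filter (fun k => (X : ℤ) < 8 * (l - 4 * k) ∧ l - 4 * k ≤ X),
          eu (-(t * ((l - 4 * k : ℤ) : ℝ) ^ 2)) else 0) +
      (if (-l) % 4 = 1 + 2 * (e : ℤ) then
        ∑ k ∈ (Finset.Icc u v).filter (fun k => (X : ℤ) < 8 * (-(l - 4 * k)) ∧ -(l - 4 * k) ≤ X),
          eu (-(t * ((l - 4 * k : ℤ) : ℝ) ^ 2)) else 0) := by
  have h1 : ∀ k ∈ Finset.Icc u v, gS e X t (l - 4 * k) =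
      (if l % 4 = 1 + 2 * (e : ℤ) then
        (if (X : ℤ) < 8 * (l - 4 * k) ∧ l - 4 * k ≤ X then
          eu (-(t * ((l - 4 * k : ℤ) : ℝ) ^ 2)) else 0) else 0) +
      (if (-l) % 4 = 1 + 2 * (e : ℤ) then
        (if (X : ℤ) < 8 * (-(l - 4 * k)) ∧ -(l - 4 * k) ≤ X then
          eu (-(t * ((l - 4 * k : ℤ) : ℝ) ^ 2)) else 0) else 0) := by
    intro k _
    rw [gS, qS_eq]
    push_cast
    rw [add_mul]
    congr 1
    · split_ifs <;> first | (simp; done) | (exfalso; omega)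
    · split_ifs <;> first | (simp; done) | (exfalso; omega)
  rw [Finset.sum_congr rfl h1, Finset.sum_add_distrib]
  congr 1
  · split_ifs
    · rw [Finset.sum_filter]
    · exact Finset.sum_const_zero
  · split_ifs
    · rw [Finset.sum_filter]
    · exact Finset.sum_const_zero

end MUT

open MUT in
theorem t_MUT : M_MUT := by
  intro hCFA hWSS m hm
  obtain ⟨C₁, hC₁, hF⟩ := hCFA m hm
  obtain ⟨c, hc, hW⟩ := hWSS (4 * m ^ 2 + 1) (by omega)
  refine ⟨c, C₁ * (2 * c), hc, by positivity, ?_⟩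
  intro J Y y e t l hy
  set L : ℕ := 2 * m ^ 2 * 2 ^ y with hL
  have hLc : (2 * m ^ 2 * 2 ^ y : ℤ) = (L : ℤ) := by
    rw [hL]
    push_cast
    ring
  have hpow : (1 : ℤ) ≤ 2 ^ y := one_le_pow₀ (by norm_num)
  have hKL : ((4 * m ^ 2 + 1 : ℕ) : ℤ) * 2 ^ y = 2 * L + 2 ^ y := by
    rw [hL]
    push_cast
    ring
  have hint : ∀ a z : ℤ, z ≤ a + (2 * L + 1) →
      ‖∑ k ∈ Finset.Ico a z, eu (-(t * ((l - 4 * k : ℤ) : ℝ) ^ 2))‖ ≤ c * √(WW (2 ^ y) c t) := by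
    intro a z haz
    have h1 := hW y a (-l) z t 0 (by rw [hKL]; omega)
    refine le_trans (le_of_eq ?_) h1
    congr 1
    refine Finset.sum_congr rfl fun k _ => ?_
    congr 1
    push_cast
    ring
  have hsum : ∀ j : ℤ, -(L : ℤ) ≤ j →
      ‖∑ k ∈ Finset.Icc j (L : ℤ), gS e (2 ^ J) t (l - 4 * k)‖ ≤ 2 * c * √(WW (2 ^ y) c t) := by
    intro j hj
    have hnn : (0 : ℝ) ≤ c * √(WW (2 ^ y) c t) := by positivity
    rw [gS_sum]
    refine (norm_add_le _ _).trans ?_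
    have h2 : 2 * (c : ℝ) * √(WW (2 ^ y) c t) =
      c * √(WW (2 ^ y) c t) + c * √(WW (2 ^ y) c t) := by ring
    rw [h2]
    refine add_le_add ?_ ?_
    · split_ifs
      · rw [int1]
        apply hint
        omega
      · rw [norm_zero]
        exact hnn
    · split_ifs
      · rw [int2]
        apply hint
        omega
      · rw [norm_zero]
        exact hnn
  rw [nT, hLc, abel (cf m Y y) (fun k => gS e (2 ^ J) t (l - 4 * k)) (-(L : ℤ)) L
    (hF.supp Y y _ hy (by rw [hLc, abs_of_neg (by omega)]; omega))]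
  calc ‖∑ j ∈ Finset.Icc (-(L : ℤ)) L, (cf m Y y j - cf m Y y (j - 1)) *
          ∑ k ∈ Finset.Icc j (L : ℤ), gS e (2 ^ J) t (l - 4 * k)‖
      ≤ ∑ j ∈ Finset.Icc (-(L : ℤ)) L, ‖cf m Y y j - cf m Y y (j - 1)‖ *
          (2 * c * √(WW (2 ^ y) c t)) := by
        refine (norm_sum_le _ _).trans (Finset.sum_le_sum fun j hj => ?_)
        rw [norm_mul]
        exact mul_le_mul_of_nonneg_left (hsum j (Finset.mem_Icc.1 hj).1) (norm_nonneg _)
    _ = (∑ j ∈ Finset.Icc (-(L : ℤ)) L, ‖cf m Y y j - cf m Y y (j - 1)‖) *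
          (2 * c * √(WW (2 ^ y) c t)) := by rw [Finset.sum_mul]
    _ ≤ C₁ / 2 ^ y * (2 * c * √(WW (2 ^ y) c t)) :=
        mul_le_mul_of_nonneg_right (hF.var Y y L hy) (by positivity)
    _ = C₁ * (2 * c) * (√(WW (2 ^ y) c t) / 2 ^ y) := by ring

end

end SPH
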