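import Pool.Agent.SPH.StD

/-!
# Module MXS: the bound of the maximum
-/

set_option linter.unusedSectionVars false

namespace SPH

open STZ LGR STZ3 MeasureTheory Matrix Filter

open scoped ComplexConjugate Matrix Real Topology

noncomputable section

namespace MXS

section

variable {M : Type} [TopologicalSpace M] [CompactSpace M] [T2Space M]
  [SecondCountableTopology M] [MeasurableSpace M] [BorelSpace M] (μ : Measure M)
  [IsProbabilityMeasure μ]

theorem int_K {ι : Type} {K : ι → M → M → ℂ} (hK : Ker μ K) (a : ι) (x : M) {f : M → ℂ}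
    (hf : Continuous f) : Integrable (fun y => K a x y * f y) μ := by
  have hc : Continuous (fun y => K a x y * f y) :=
    ((hK.cont a).comp (Continuous.prodMk continuous_const continuous_id)).mul hf
  exact hc.integrable_of_hasCompactSupport (HasCompactSupport.of_compactSpace _)

theorem Pr_sum {ι κ : Type} {K : ι → M → M → ℂ} (hK : Ker μ K) (S : Finset ι) (s : Finset κ)
    (c : κ → ℂ) (f : κ → M → ℂ) (hf : ∀ i ∈ s, Continuous (f i)) (x : M) :
    Pr μ K S (fun y => ∑ i ∈ s, c i * f i y) x = ∑ i ∈ s, c i * Pr μ K S (f i) x := by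
  unfold Pr
  have h : ∀ a ∈ S, ∫ y, K a x y * ∑ i ∈ s, c i * f i y ∂μ =
      ∑ i ∈ s, c i * ∫ y, K a x y * f i y ∂μ := by
    intro a _
    have h1 : (fun y => K a x y * ∑ i ∈ s, c i * f i y) =
        fun y => ∑ i ∈ s, c i * (K a x y * f i y) := by
      funext y
      rw [Finset.mul_sum]
      exact Finset.sum_congr rfl fun i _ => by ring
    rw [h1, integral_finsetSum _ (fun i hi => (int_K μ hK a x (hf i hi)).const_mul (c i))]
    exact Finset.sum_congr rfl fun i _ => integral_const_mul _ _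
  rw [Finset.sum_congr rfl h, Finset.sum_comm]
  exact Finset.sum_congr rfl fun i _ => (Finset.mul_sum _ _ _).symm

theorem nsq_eu {u : M → ℂ} (t : ℝ) : nsq μ (fun x => eu t * u x) = nsq μ u := by
  unfold nsq
  congr 1
  funext x
  rw [norm_mul]
  have : ‖eu t‖ = 1 := by
    rw [eu, Complex.norm_exp]
    simp
  rw [this, one_mul]

theorem mem_smul {ι : Type} {K : ι → M → M → ℂ} (a : ι) {u : M → ℂ} (h : Mem μ (K a) u) (c : ℂ) :
    Mem μ (K a) (fun x => c * u x) := by
  refine ⟨continuous_const.mul h.1, fun x => ?_⟩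
  have h1 : (fun y => K a x y * (c * u y)) = fun y => c * (K a x y * u y) := by
    funext y
    ring
  rw [h1, integral_const_mul, h.2]

end

end MXS

open MXS in
theorem t_MXS : M_MXS := by
  classical
  intro hKB hBERN N H Φ B Hc E c k hX cc w χ μ _ _ hP e
  have hcs : CompactSpace H := isCompact_iff_compactSpace.1 hX.closed.isCompact
  have hsc : SecondCountableTopology H :=
    TopologicalSpace.Subtype.secondCountableTopology (H : Set (SU N))
  have hker := hP.ker e
  have hkb := hKB H μ (PX Hc e) (KQ χ e) hker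
  refine ⟨1, zero_le_one, ?_⟩
  intro F u hu R hR hF t x
  have hexp : (((1 : ℕ) : ℝ) + 1) / 2 = 1 := by norm_num
  rw [hexp, Real.rpow_one, one_mul]
  -- the function is in the sum of the spaces
  have hcont : Continuous (uw (fun i : PX Hc e => wG i.1.1) (fun l => -(rd Φ).Q l) F u t) :=
    continuous_finsetSum F fun a ha => continuous_const.mul (hu a ha).1
  have hPr : Pr μ (KQ χ e) F (uw (fun i : PX Hc e => wG i.1.1) (fun l => -(rd Φ).Q l) F u t) =
      uw (fun i : PX Hc e => wG i.1.1) (fun l => -(rd Φ).Q l) F u t := by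
    funext y
    unfold uw
    rw [Pr_sum μ hker F F _ u (fun i hi => (hu i hi).1)]
    refine Finset.sum_congr rfl fun a ha => ?_
    rw [hkb.fix F a (u a) ha (hu a ha)]
  have hb := hBERN H μ (PX Hc e) (KQ χ e) hker F _ x hcont
  rw [hPr] at hb
  have hn : nsq μ (uw (fun i : PX Hc e => wG i.1.1) (fun l => -(rd Φ).Q l) F u t) =
      ∑ a ∈ F, nsq μ (u a) := by
    unfold uw
    rw [hkb.orth F (fun a x => eu (t * ((-(rd Φ).Q (wG a.1.1) : ℤ) : ℝ)) * u a x)
      (fun a ha => mem_smul μ a (hu a ha) _)]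
    exact Finset.sum_congr rfl fun a _ => nsq_eu μ _
  rw [hn] at hb
  have hlw : ∀ i ∈ F, 1 + (lw i.1 : ℝ) ≤ R := by
    intro i hi
    have h1 := hF i hi
    have h2 : sz (wG i.1.1) = 1 + |(lw i.1 : ℝ)| := by
      unfold sz lw
      rw [Fin.sum_univ_one]
    rw [h2] at h1
    exact (add_le_add_right (le_abs_self _) 1).trans h1
  have hR0 : 0 ≤ R := by linarith
  have hcard : (F.card : ℝ) ≤ R := by
    have h1 : F.card ≤ (Finset.Icc (1 : ℤ) ⌊R⌋).card := by
      refine Finset.card_le_card_of_injOn (fun i => lw i.1) ?_ ?_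
      · intro i hi
        rw [Finset.coe_Icc, Set.mem_Icc]
        refine ⟨hP.ge i.1, ?_⟩
        rw [Int.le_floor]
        have := hlw i hi
        linarith
      · intro i _ j _ hij
        exact Subtype.ext (hP.inj i.1 j.1 hij)
    rw [Int.card_Icc] at h1
    have h2 : (0 : ℤ) ≤ ⌊R⌋ := Int.floor_nonneg.2 hR0
    have h3 : ((⌊R⌋ + 1 - 1).toNat : ℝ) = (⌊R⌋ : ℝ) := by
      rw [add_sub_cancel_right]
      exact_mod_cast Int.toNat_of_nonneg h2
    calc (F.card : ℝ) ≤ ((⌊R⌋ + 1 - 1).toNat : ℝ) := by exact_mod_cast h1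
      _ = (⌊R⌋ : ℝ) := h3
      _ ≤ R := Int.floor_le R
  have hsum : ∑ i ∈ F, ‖KQ χ e i x x‖ ≤ R ^ 2 := by
    calc ∑ i ∈ F, ‖KQ χ e i x x‖ ≤ ∑ i ∈ F, R := by
          refine Finset.sum_le_sum fun i hi => ?_
          have h1 := hP.le i.1 x x
          have h2 := hlw i hi
          exact h1.trans (by linarith)
      _ = F.card * R := by rw [Finset.sum_const, nsmul_eq_mul]
      _ ≤ R * R := by gcongr
      _ = R ^ 2 := by ring
  have hS0 : 0 ≤ ∑ a ∈ F, nsq μ (u a) :=
    Finset.sum_nonneg fun a _ => integral_nonneg fun x => by positivity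
  have h1 : ‖uw (fun i : PX Hc e => wG i.1.1) (fun l => -(rd Φ).Q l) F u t x‖ ^ 2 ≤
      R ^ 2 * ∑ a ∈ F, nsq μ (u a) := hb.trans (by gcongr)
  have h2 := Real.sqrt_le_sqrt h1
  rw [Real.sqrt_sq (norm_nonneg _), Real.sqrt_mul (by positivity), Real.sqrt_sq hR0] at h2
  exact h2

end

end SPH
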