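import Pool.Agent.SPH.StC

/-!
# The sphere S²: module NRS (helper55)
-/

namespace SPH

open STZ LGR STZ3 MeasureTheory Matrix Filter

open scoped ComplexConjugate Matrix Real Topology

noncomputable section

theorem t_NRS : M_NRS := by
  intro hwf _ hrnk hnsx hbrp N H Φ B Hc E c k hCX μ _ _ χ hχ m C₁ hm hC₁ J Y x e T F κ G _ hT hF
    hκ hG
  have hw : WFF Φ B := hwf 1 Φ B hCX.lrd.ird
  have hR : R1F Φ := hrnk Φ B hCX.lrd.ird hw
  have hN := hnsx m C₁ hm hC₁
  have hwa : ∀ τ (i : IX Hc), wa Φ (fun ν => nS m Y x e J τ (ν 0)) (wG i.1) =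
      nS m Y x e J τ (lw i) := by
    intro τ i
    rw [hR.wa]
    change (nS m Y x e J τ (wG i.1 0) + nS m Y x e J τ (-(wG i.1 0))) / 2 =
      nS m Y x e J τ (wG i.1 0)
    rw [hN.even]
    ring
  have hGc : ∀ t, Continuous (G t) := fun t =>
    hG.comp (by fun_prop : Continuous fun y : H => (t, y))
  unfold BF TX
  congr 1
  funext t
  congr 1
  funext s
  have h1 := hbrp N H 1 Φ B Hc E c k 3 hCX μ χ hχ (1 / 2 ^ (x + J)) κ (by positivity) hκ
    (fun ν => nS m Y x e J (t - s) (ν 0)) T F (hT (t - s))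
    (fun i hi => hF (t - s) i (by rwa [hwa] at hi)) (G s) (G t) (hGc s) (hGc t)
  simp only [hwa] at h1
  rw [h1]
  simp only [km, aS, Complex.ofReal_one, mul_one]

end

end SPH
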