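import Mathlib
import Pool.Agent.SPH.StA
import Pool.Agent.SPH.StB

/-!
# The coefficients with the cutoffs

Module NSX of the project SPH.
-/

set_option autoImplicit false
set_option linter.unusedVariables false

namespace SPH

open STZ LGR STZ3 MeasureTheory Matrix Filter

open scoped ComplexConjugate Matrix Real Topology

noncomputable section

namespace NSX

lemma gS_even (e X : ℕ) (t : ℝ) (l : ℤ) : gS e X t (-l) = gS e X t l := by
  unfold gS qS
  rw [abs_neg]
  congr 3
  push_cast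
  ring

lemma eu_norm (θ : ℝ) : ‖eu θ‖ = 1 := by
  unfold eu
  rw [show (2 * π * θ * Complex.I : ℂ) = ((2 * π * θ : ℝ) : ℂ) * Complex.I by push_cast; ring,
    Complex.norm_exp_ofReal_mul_I]

lemma gS_norm (e X : ℕ) (t : ℝ) (l : ℤ) : ‖gS e X t l‖ ≤ 1 := by
  unfold gS qS
  rw [norm_mul, eu_norm, mul_one]
  split_ifs <;> simp

lemma gS_ne {e X : ℕ} {t : ℝ} {l : ℤ} (h : gS e X t l ≠ 0) :
    |l| % 4 = 1 + 2 * (e : ℤ) ∧ (X : ℤ) < 8 * |l| ∧ |l| ≤ (X : ℤ) := by
  unfold gS qS at h
  by_contra h2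
  rw [if_neg h2] at h
  simp at h

lemma gS_cont (e X : ℕ) (l : ℤ) : Continuous fun t => gS e X t l := by
  unfold gS eu
  fun_prop

lemma KS_ge (m Y : ℕ) : 2 * m + 1 ≤ KS m Y := by
  unfold KS
  omega

lemma nS_even (m Y x e J : ℕ) (t : ℝ) (ν : ℤ) (C : ℝ) (h : CSF m C) :
    nS m Y x e J t (-ν) = nS m Y x e J t ν := by
  unfold nS
  congr 1
  refine Finset.sum_nbij' (fun k => -k) (fun k => -k) ?_ ?_ ?_ ?_ ?_
  · intro k hk
    rw [Finset.mem_Icc] at hk ⊢
    omega
  · intro k hk
    rw [Finset.mem_Icc] at hk ⊢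
    omega
  · intro k _
    simp
  · intro k _
    simp
  · intro k _
    rw [h.symm, ← gS_even]
    congr 2
    ring

end NSX

open NSX in
theorem t_NSX : S_NSX := by
  intro m C hm h
  refine ⟨fun Y x e J t ν => nS_even m Y x e J t ν C h, ?_, ?_, ?_, ?_⟩
  · intro Y x e J t ν he hK hν
    have h1 : ∃ k ∈ Finset.Icc (-(KS m Y : ℤ)) (KS m Y), gS e (2 ^ J) t (ν - 2 * k) ≠ 0 := by
      by_contra h2
      push Not at h2
      apply hν
      unfold nS
      rw [Finset.sum_eq_zero (fun k hk => by rw [h2 k hk, mul_zero]), mul_zero]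
    obtain ⟨k, hk, hg⟩ := h1
    obtain ⟨g1, g2, g3⟩ := gS_ne hg
    rw [Finset.mem_Icc] at hk
    have hK' : 32 * (KS m Y : ℤ) ≤ 2 ^ J := by exact_mod_cast hK
    push_cast at g2 g3
    generalize (2 : ℤ) ^ J = P at *
    rw [Int.abs_eq_natAbs] at g1 g2 g3
    rw [Int.abs_eq_natAbs]
    omega
  · intro Y e J t l he hK hl
    unfold nS
    rw [← Finset.mul_sum, Finset.sum_comm]
    have h1 : ∀ k ∈ Finset.Icc (-(KS m Y : ℤ)) (KS m Y),
        ∑ x ∈ Finset.range (Y + 1), cS m Y x k * gS e (2 ^ J) t (l - 2 * k) =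
          if k = 0 then 1 / 2 * gS e (2 ^ J) t l else 0 := by
      intro k hk
      rw [← Finset.sum_mul]
      split_ifs with h0
      · rw [h0, h.zero, mul_zero, sub_zero]
      · by_cases hk2 : k % 2 = 0
        · rw [h.ev Y k h0 hk2, zero_mul]
        · by_cases hk3 : (2 * m + 1 : ℤ) < |k|
          · rw [h.far Y k hk3, zero_mul]
          · have : gS e (2 ^ J) t (l - 2 * k) = 0 := by
              by_contra hg
              obtain ⟨g1, g2, g3⟩ := gS_ne hg
              have hK' : 32 * (KS m Y : ℤ) ≤ 2 ^ J := by exact_mod_cast hK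
              have hK2 := KS_ge m Y
              push_cast at g2 g3
              generalize (2 : ℤ) ^ J = P at *
              rw [Int.abs_eq_natAbs] at g1 g2 g3 hl hk3
              omega
            rw [this, mul_zero]
    rw [Finset.sum_congr rfl h1, Finset.sum_ite_eq']
    rw [if_pos (by rw [Finset.mem_Icc]; omega)]
    ring
  · intro Y x e J ν
    unfold nS
    exact continuous_const.mul (continuous_finsetSum _ fun k _ => continuous_const.mul
      (gS_cont _ _ _))
  · intro Y x e J t ν hx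
    unfold nS
    rw [norm_mul]
    have h2 : ‖(2 : ℂ)‖ = 2 := by simp
    rw [h2]
    refine mul_le_mul_of_nonneg_left ?_ (by norm_num)
    refine (norm_sum_le _ _).trans (le_trans (Finset.sum_le_sum fun k _ => ?_) (h.abs Y x (KS m Y) hx))
    rw [norm_mul]
    exact mul_le_of_le_one_right (norm_nonneg _) (gS_norm _ _ _ _)

end

end SPH
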