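import Pool.Agent.SPH.StE

/-!
# The sphere, module NTX (helper9): the coefficients with the cutoffs
-/

set_option autoImplicit false

namespace SPH

open STZ LGR STZ3 MeasureTheory Matrix Filter

open scoped ComplexConjugate Matrix Real Topology

noncomputable section

namespace NTX

lemma gS_ne {e X : ℕ} {t : ℝ} {l : ℤ} (h : gS e X t l ≠ 0) :
    (X : ℤ) < 8 * |l| ∧ |l| ≤ (X : ℤ) := by
  unfold gS qS at h
  by_contra h2
  rw [if_neg (fun h3 => h2 h3.2)] at h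
  simp at h

lemma gS_cont (e X : ℕ) (l : ℤ) : Continuous fun t => gS e X t l := by
  unfold gS eu
  fun_prop

/-- the sum over `k` may be extended -/
lemma ext {m : ℕ} {C : ℝ} (hC : CFF m C) (Y y e J : ℕ) (t : ℝ) (l : ℤ) (hy : y ≤ Y) :
    nT m Y y e J t l = ∑ k ∈ Finset.Icc (-(2 * m ^ 2 * 2 ^ Y : ℤ)) (2 * m ^ 2 * 2 ^ Y),
      cf m Y y k * gS e (2 ^ J) t (l - 4 * k) := by
  unfold nT
  have h0 : (2 * m ^ 2 * 2 ^ y : ℤ) ≤ 2 * m ^ 2 * 2 ^ Y := by
    have h1 : (2 : ℤ) ^ y ≤ 2 ^ Y := pow_le_pow_right₀ (by norm_num) hy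
    exact mul_le_mul_of_nonneg_left h1 (by positivity)
  refine Finset.sum_subset (Finset.Icc_subset_Icc (by linarith) h0) ?_
  intro k _ hk2
  rw [hC.supp Y y k hy, zero_mul]
  by_contra h3
  apply hk2
  rw [Finset.mem_Icc]
  exact abs_le.1 (not_lt.1 h3)

end NTX

open NTX in
theorem t_NTX : M_NTX := by
  intro hCFA m hm
  obtain ⟨C, -, hC⟩ := hCFA m hm
  refine ⟨?_, ?_, ?_⟩
  · intro Y e J t l
    have h1 : ∀ y ∈ Finset.range (Y + 1), nT m Y y e J t l =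
        ∑ k ∈ Finset.Icc (-(2 * m ^ 2 * 2 ^ Y : ℤ)) (2 * m ^ 2 * 2 ^ Y),
          cf m Y y k * gS e (2 ^ J) t (l - 4 * k) := fun y hy =>
      ext hC Y y e J t l (by rw [Finset.mem_range] at hy; omega)
    rw [Finset.sum_congr rfl h1, Finset.sum_comm]
    have h2 : ∀ k ∈ Finset.Icc (-(2 * m ^ 2 * 2 ^ Y : ℤ)) (2 * m ^ 2 * 2 ^ Y),
        ∑ y ∈ Finset.range (Y + 1), cf m Y y k * gS e (2 ^ J) t (l - 4 * k) =
          if k = 0 then gS e (2 ^ J) t l else 0 := by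
      intro k _
      rw [← Finset.sum_mul, hC.sum]
      split_ifs with h0
      · rw [h0, one_mul, mul_zero, sub_zero]
      · rw [zero_mul]
    rw [Finset.sum_congr rfl h2, Finset.sum_ite_eq', if_pos]
    rw [Finset.mem_Icc]
    have h3 : (0 : ℤ) ≤ 2 * m ^ 2 * 2 ^ Y := by positivity
    exact ⟨by linarith, h3⟩
  · intro Y y e J t l hy hK hl hne
    have h1 : ∃ k ∈ Finset.Icc (-(2 * m ^ 2 * 2 ^ y : ℤ)) (2 * m ^ 2 * 2 ^ y),
        gS e (2 ^ J) t (l - 4 * k) ≠ 0 := by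
      by_contra h2
      push Not at h2
      apply hne
      unfold nT
      exact Finset.sum_eq_zero (fun k hk => by rw [h2 k hk, mul_zero])
    obtain ⟨k, hk, hg⟩ := h1
    obtain ⟨g2, g3⟩ := gS_ne hg
    rw [Finset.mem_Icc] at hk
    have h0 : (2 * m ^ 2 * 2 ^ y : ℤ) ≤ 2 * m ^ 2 * 2 ^ Y := by
      have h1 : (2 : ℤ) ^ y ≤ 2 ^ Y := pow_le_pow_right₀ (by norm_num) hy
      exact mul_le_mul_of_nonneg_left h1 (by positivity)
    have hK' : (256 * m ^ 2 * 2 ^ Y : ℤ) ≤ 2 ^ J := by exact_mod_cast hK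
    push_cast at g2 g3
    have hk1 : |k| ≤ (2 * m ^ 2 * 2 ^ Y : ℤ) := abs_le.2 ⟨by linarith [hk.1], by linarith [hk.2]⟩
    have hk2 : 128 * |k| ≤ (2 : ℤ) ^ J := by linarith
    generalize (2 : ℤ) ^ J = P at *
    rw [Int.abs_eq_natAbs] at g2 g3 hk2
    omega
  · intro Y y e J l
    unfold nT
    exact continuous_finsetSum _ fun k _ => continuous_const.mul (gS_cont _ _ _)

end

end SPH
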