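import Pool.Agent.SPH.StA

/-!
# PRJ: the projection on the functions on the sphere of a given parity (module of helper5)
-/

set_option autoImplicit false

namespace SPH

open STZ LGR STZ3 MeasureTheory Matrix Filter

open scoped ComplexConjugate Matrix Real Topology

noncomputable section

namespace PRJ

variable {N : ℕ} {H : Subgroup (SU N)}

theorem avg {E : Type*} [NormedAddCommGroup E] [NormedSpace ℝ E] [CompleteSpace E] [CompactSpace H]
    [SecondCountableTopology H] (μ : Measure H) [IsProbabilityMeasure μ] [μ.IsMulRightInvariant]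
    (T : ℝ → H) (hT : Continuous T) (F : H → E) (hF : Continuous F) :
    ∫ x, (∫ φ in (0 : ℝ)..1, F (x * T φ)) ∂μ = ∫ x, F x ∂μ := by
  have h1 : ∀ x, ∫ φ in (0 : ℝ)..1, F (x * T φ) = ∫ φ in Set.Ioc (0 : ℝ) 1, F (x * T φ) :=
    fun x => intervalIntegral.integral_of_le zero_le_one
  simp only [h1]
  obtain ⟨C, hC⟩ := isCompact_univ.exists_bound_of_continuousOn (f := F) hF.continuousOn
  have hi : Integrable (Function.uncurry fun (x : H) (φ : ℝ) => F (x * T φ))
      (μ.prod (volume.restrict (Set.Ioc (0 : ℝ) 1))) := by
    refine Integrable.of_bound (Continuous.aestronglyMeasurable ?_) C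
      (Eventually.of_forall fun z => hC _ (Set.mem_univ _))
    exact hF.comp (continuous_fst.mul (hT.comp continuous_snd))
  rw [integral_integral_swap hi]
  have h2 : ∀ φ, ∫ x, F (x * T φ) ∂μ = ∫ x, F x ∂μ := fun φ => integral_mul_right_eq_self F (T φ)
  simp only [h2]
  rw [integral_const]
  simp

end PRJ

open PRJ

theorem t_PRJ : M_PRJ := by
  intro hHAAR hPSF N H Φ B Hc E c k hX cc ze w C hs μ _ _ e G hG hb
  have hcs : CompactSpace H := isCompact_iff_compactSpace.1 hX.closed.isCompact
  have hsec : SecondCountableTopology H :=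
    inferInstanceAs (SecondCountableTopology ((H : Set (SU N)) : Type))
  obtain ⟨CP, hCP, P⟩ := hPSF N H 1 Φ B Hc E c k 3 hX
  have hright : μ.IsMulRightInvariant := (hHAAR H μ).1
  set T : ℝ → H := fun φ => tt H Hc (fun _ => φ) with hTdef
  have hT : Continuous T := P.tcont.comp (continuous_pi fun _ => continuous_id)
  have hTadd : ∀ a b : ℝ, T (a + b) = T a * T b := fun a b => P.tadd _ _
  have hT1 : T 1 = 1 := by
    have h := P.tint (fun _ => 1)
    simpa [hTdef] using h
  have hTθ : ∀ θ : Fin 1 → ℝ, tt H Hc θ = T (θ 0) := by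
    intro θ
    have h : θ = fun _ => θ 0 := by
      funext i
      rw [Subsingleton.elim i 0]
    rw [hTdef]
    exact congrArg (tt H Hc) h
  set A : ℝ → H → ℂ := fun t g => ∫ φ in (0 : ℝ)..1, G t (g * T φ) with hA
  have hGc : Continuous fun z : ℝ × H => G z.1 z.2 := hG
  have hGt : ∀ t, Continuous (G t) := fun t => hGc.comp (by fun_prop : Continuous fun x : H => (t, x))
  have hAc : Continuous fun z : ℝ × H => A z.1 z.2 := by
    refine intervalIntegral.continuous_parametric_intervalIntegral_of_continuous'
      (f := fun (z : ℝ × H) (φ : ℝ) => G z.1 (z.2 * T φ)) ?_ 0 1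
    exact hGc.comp ((continuous_fst.comp continuous_fst).prodMk
      ((continuous_snd.comp continuous_fst).mul (hT.comp continuous_snd)))
  have hAt : ∀ t, Continuous (A t) := fun t => hAc.comp (by fun_prop : Continuous fun x : H => (t, x))
  have hAb : ∀ t g, ‖A t g‖ ≤ 1 := by
    intro t g
    have h := intervalIntegral.norm_integral_le_of_norm_le_const (a := (0 : ℝ)) (b := 1)
      (f := fun φ => G t (g * T φ)) (C := 1) (fun φ _ => hb t _)
    simpa using h
  have hAT : ∀ t g (θ : ℝ), A t (g * T θ) = A t g := by
    intro t g θ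
    have hper : Function.Periodic (fun φ : ℝ => G t (g * T φ)) 1 := by
      intro φ
      simp only
      rw [hTadd, hT1, mul_one]
    have h1 : A t (g * T θ) = ∫ φ in (0 : ℝ)..1, (fun φ : ℝ => G t (g * T φ)) (φ + θ) := by
      rw [hA]
      refine intervalIntegral.integral_congr fun φ _ => ?_
      simp only
      rw [mul_assoc, ← hTadd, add_comm θ φ]
    have h2 := intervalIntegral.integral_comp_add_right (a := (0 : ℝ)) (b := 1)
      (fun φ : ℝ => G t (g * T φ)) θ
    rw [h1, h2, zero_add, add_comm (1 : ℝ) θ, hper.intervalIntegral_add_eq θ 0, zero_add]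
  have hww : ∀ t g, A t (g * w * w) = A t g := by
    intro t g
    obtain ⟨θ, hθ⟩ := hs.wsq
    rw [mul_assoc, hθ, hTθ, hAT]
  have hsq : ((-1 : ℂ) ^ e) * (-1) ^ e = 1 := by
    rw [← mul_pow]
    norm_num
  have hcj : conj ((-1 : ℂ) ^ e) = (-1) ^ e := by
    rw [map_pow, map_neg, map_one]
  have hn1 : ‖((-1 : ℂ) ^ e)‖ = 1 := by
    rw [norm_pow, norm_neg, norm_one, one_pow]
  refine ⟨fun t g => (1 / 2) * (A t g + (-1) ^ e * A t (g * w)), ?_, ?_, ?_, ?_, ?_, ?_⟩
  · have h1 : Continuous fun z : ℝ × H => A z.1 (z.2 * w) :=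
      hAc.comp (continuous_fst.prodMk (continuous_snd.mul continuous_const))
    exact continuous_const.mul (hAc.add (continuous_const.mul h1))
  · intro t x
    have h1 := hAb t x
    have h2 := hAb t (x * w)
    calc ‖(1 / 2 : ℂ) * (A t x + (-1) ^ e * A t (x * w))‖
        = 1 / 2 * ‖A t x + (-1) ^ e * A t (x * w)‖ := by
          rw [norm_mul]
          norm_num
      _ ≤ 1 / 2 * (‖A t x‖ + ‖(-1 : ℂ) ^ e * A t (x * w)‖) := by
          have := norm_add_le (A t x) ((-1) ^ e * A t (x * w))
          linarith
      _ ≤ 1 := by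
          rw [norm_mul, hn1, one_mul]
          linarith
  · intro t g θ
    simp only
    rw [hTθ, hAT]
    have h1 : g * T (θ 0) * w = g * w * T (-θ 0) := by
      have h2 := hs.wtt (fun _ => θ 0)
      have h3 : tt H Hc (-fun _ => θ 0) = T (-θ 0) := by
        rw [hTθ]
        rfl
      rw [h3] at h2
      rw [mul_assoc, mul_assoc]
      exact congrArg (fun z => g * z) h2
    rw [h1, hAT]
  · intro t g
    simp only
    rw [hww]
    linear_combination (-(1 / 2) * A t (g * w)) * hsq
  · intro t
    have i1 : Integrable (fun x => ‖A t x‖) μ :=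
      (hAt t).norm.integrable_of_hasCompactSupport (HasCompactSupport.of_compactSpace _)
    have hAw : Continuous fun x : H => A t (x * w) :=
      (hAt t).comp (continuous_id.mul continuous_const)
    have i2 : Integrable (fun x => ‖A t (x * w)‖) μ :=
      hAw.norm.integrable_of_hasCompactSupport (HasCompactSupport.of_compactSpace _)
    have h1 : ∫ x, ‖(1 / 2 : ℂ) * (A t x + (-1) ^ e * A t (x * w))‖ ∂μ ≤
        ∫ x, (1 / 2) * (‖A t x‖ + ‖A t (x * w)‖) ∂μ := by
      refine integral_mono_of_nonneg (Eventually.of_forall fun x => norm_nonneg _)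
        ((i1.add i2).const_mul _) (Eventually.of_forall fun x => ?_)
      simp only
      rw [norm_mul]
      have h2 := norm_add_le (A t x) ((-1) ^ e * A t (x * w))
      rw [norm_mul, hn1, one_mul] at h2
      have h3 : ‖(1 / 2 : ℂ)‖ = 1 / 2 := by norm_num
      rw [h3]
      linarith
    rw [integral_const_mul, integral_add i1 i2,
      integral_mul_right_eq_self (μ := μ) (fun x => ‖A t x‖) w] at h1
    have h4 : ∫ x, ‖A t x‖ ∂μ ≤ ∫ x, (∫ φ in (0 : ℝ)..1, ‖G t (x * T φ)‖) ∂μ := by
      refine integral_mono_of_nonneg (Eventually.of_forall fun x => norm_nonneg _) ?_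
        (Eventually.of_forall fun x => ?_)
      · refine Continuous.integrable_of_hasCompactSupport ?_ (HasCompactSupport.of_compactSpace _)
        refine intervalIntegral.continuous_parametric_intervalIntegral_of_continuous'
          (f := fun (x : H) (φ : ℝ) => ‖G t (x * T φ)‖) ?_ 0 1
        exact (((hGt t).comp (continuous_fst.mul (hT.comp continuous_snd)))).norm
      · exact intervalIntegral.norm_integral_le_integral_norm zero_le_one
    rw [avg μ T hT (fun x => ‖G t x‖) (hGt t).norm] at h4
    linarith
  · intro t u hu huT hup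
    have hAw : Continuous fun x : H => A t (x * w) :=
      (hAt t).comp (continuous_id.mul continuous_const)
    have hcc : ∀ f : H → ℂ, Continuous f → Integrable f μ := fun f hf =>
      hf.integrable_of_hasCompactSupport (HasCompactSupport.of_compactSpace _)
    have h1 : ∀ x, conj ((1 / 2 : ℂ) * (A t x + (-1) ^ e * A t (x * w))) * u x =
        (1 / 2) * (conj (A t x) * u x + conj (A t (x * w)) * u (x * w)) := by
      intro x
      rw [hup x, map_mul, map_add, map_mul, hcj]
      have h2 : conj (1 / 2 : ℂ) = 1 / 2 := by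
        rw [map_div₀, map_one, map_ofNat]
      rw [h2]
      ring
    have c1 : Continuous fun x => conj (A t x) * u x := (Complex.continuous_conj.comp (hAt t)).mul hu
    have c2 : Continuous fun x => conj (A t (x * w)) * u (x * w) :=
      (Complex.continuous_conj.comp hAw).mul (hu.comp (continuous_id.mul continuous_const))
    simp only [h1]
    rw [integral_const_mul, integral_add (hcc _ c1) (hcc _ c2),
      integral_mul_right_eq_self (μ := μ) (fun x => conj (A t x) * u x) w]
    have h3 : ∀ x, conj (A t x) * u x = ∫ φ in (0 : ℝ)..1, conj (G t (x * T φ)) * u (x * T φ) := by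
      intro x
      have h4 : ∀ φ, conj (G t (x * T φ)) * u (x * T φ) = conj (G t (x * T φ)) * u x := by
        intro φ
        rw [huT x]
      simp only [h4]
      rw [intervalIntegral.integral_mul_const]
      congr 1
      rw [hA]
      simp only
      rw [intervalIntegral.integral_of_le zero_le_one, intervalIntegral.integral_of_le zero_le_one]
      exact (integral_conj (f := fun φ => G t (x * T φ))).symm
    simp only [h3]
    rw [avg μ T hT (fun x => conj (G t x) * u x) ((Complex.continuous_conj.comp (hGt t)).mul hu)]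
    ring

end

end SPH
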