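import Pool.Agent.SPH.StD

/-!
# The sphere S²: the top levels (section 9 of `PAPER.md`)

Module `X` proves `theorem t_X : M_X` (or `t_X : S_X` if there is no `M_X`) in the file `Pool/Agent/SPH/X.lean`, namespace `SPH`. The scale of the frequencies is `X = 2 ^ J`. `WW`, `mn`, `nd` are in `Pool/Agent/STZ/StmtsT.lean`, `nr`, `cM`, `S_CNT`, `S_CEL`, `S_ENT`, `S_GTA` in `Pool/Agent/STZ3/StmtsT3.lean`, `cf`, `fx`, `CFF` in `Pool/Agent/STZ3/StS.lean`.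
-/

namespace SPH

open STZ LGR STZ3 MeasureTheory Matrix Filter

open scoped ComplexConjugate Matrix Real Topology

noncomputable section

/-! ### the pieces of the kernel -/

/-- the coefficients with the cutoff at the distance `2 ^ (-y)`, in the variable `D / π` -/
def nT (m Y y e J : ℕ) (t : ℝ) (l : ℤ) : ℂ :=
  ∑ k ∈ Finset.Icc (-(2 * m ^ 2 * 2 ^ y : ℤ)) (2 * m ^ 2 * 2 ^ y), cf m Y y k * gS e (2 ^ J) t (l - 4 * k)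

/-- facts about `nT` -/
structure NTF (m : ℕ) : Prop where
  sum : ∀ (Y e J : ℕ) (t : ℝ) (l : ℤ), ∑ y ∈ Finset.range (Y + 1), nT m Y y e J t l = gS e (2 ^ J) t l
  supp : ∀ (Y y e J : ℕ) (t : ℝ) (l : ℤ), y ≤ Y → 256 * m ^ 2 * 2 ^ Y ≤ 2 ^ J → 1 ≤ l → nT m Y y e J t l ≠ 0 →
    (2 : ℤ) ^ J < 16 * l ∧ l ≤ 2 * 2 ^ J
  cont : ∀ (Y y e J : ℕ) (l : ℤ), Continuous fun t => nT m Y y e J t l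

/-- NTX. `sum`: by `CFF.supp` all the sums over `k` may be taken over `|k| ≤ 2 m² 2^Y`; `CFF.sum`. `supp`: `2^J/8 < |l - 4k| ≤ 2^J` and `|4k| ≤ 8 m² 2^Y ≤ 2^J/32` for some `k`. -/
def S_NTX : Prop := ∀ m : ℕ, 1 ≤ m → NTF m

def M_NTX : Prop := S_CFA → S_NTX

/-- WSS. Weyl sums in one variable: intervals in the residue class `l = b` modulo `4`. `φ j = -t (b + 4 j)² + (b + 4 j) α` satisfies `φ (j + h) = φ j + ψ h + (-t) (32 j h)`: WEYY for `r = 1`, `G = !![32]`, all `R i = R`, and `WW R c (-t) = WW R c t`. `R ≤ K 2^y`: `WWF.mono`, `scale` (`c` becomes `K c`). -/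
def S_WSS : Prop := ∀ K : ℕ, 1 ≤ K → ∃ c : ℕ, 1 ≤ c ∧ ∀ (y : ℕ) (a b z : ℤ) (t α : ℝ), z ≤ a + K * 2 ^ y →
  ‖∑ j ∈ Finset.Ico a z, eu (-(t * ((b + 4 * j : ℤ) : ℝ) ^ 2) + ((b + 4 * j : ℤ) : ℝ) * α)‖ ≤ c * √(WW (2 ^ y) c t)

def M_WSS : Prop := S_WWF → S_WEYY → S_WSS

/-- MUT. The operator norm. Abel summation in `k` (`cf` is `0` outside the interval `[-K', K']`, `K' = 2 m² 2^y`; `CFF.sup`, `CFF.var`): `‖nT‖ ≤ (C/2^y) max ‖∑_(k in an interval in [-K', K']) gS (l - 4k)‖`. The `k` with `qS e X (l - 4k) ≠ 0` form the union of two intervals (`l - 4k > 0` and `< 0`; the residue class of `|l - 4k|` is constant on each of the two parts), so the inner sum is at most twice the bound of WSS (`K = 4 m² + 1`). -/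
def S_MUT : Prop := ∀ m : ℕ, 1 ≤ m → ∃ (c : ℕ) (C : ℝ), 1 ≤ c ∧ 0 ≤ C ∧ ∀ (J Y y e : ℕ) (t : ℝ) (l : ℤ), y ≤ Y →
  ‖nT m Y y e J t l‖ ≤ C * (√(WW (2 ^ y) c t) / 2 ^ y)

def M_MUT : Prop := S_CFA → S_WSS → S_MUT

/-- AVS. Averages of slowly varying functions. Let `a : ℤ → ℂ` be a function with `‖a ν‖ ≤ A`, `‖a (ν + 4) - a ν‖ ≤ A'/X`, `‖a (ν + 8) - 2 a (ν + 4) + a ν‖ ≤ A'/X²` for `1 ≤ ν` and `ν + 8 ≤ 4X`, and `F ν = ∑ k, cf m Y y k eu (k θ) a (ν + 4k)`. Then `F ν = fx m Y y θ a ν + ∑ k, cf(k) eu (k θ) (a (ν + 4k) - a ν)`, `‖a (ν + 4k) - a ν‖ ≤ |k| A'/X`, so `‖F ν‖ ≤ ‖fx θ‖ A + C 2^y A'/X`, and the same for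
`F (ν + 4) - F ν` with `a (ν + 4) - a ν`. Then Abel summation: `∑ l, nT(l) a(l) = ∑ ν, gS ν F ν eu (..)` (substitute `l = ν + 4k`; `X/8 < ν ≤ X`, `ν ≡ 1 + 2e` modulo `4`: as `l ≥ 1` and the support of `nT` the `ν` are positive), with the Weyl sum WSS. The factor `eu (k θ)` comes from `eu (l θ/4) = eu (ν θ/4) eu (k θ)`. -/
def S_AVS : Prop := ∀ m : ℕ, 1 ≤ m → ∃ (c : ℕ) (C : ℝ), 1 ≤ c ∧ 0 ≤ C ∧ ∀ (J Y y e : ℕ) (t θ A A' : ℝ) (a : ℤ → ℂ),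
  256 * m ^ 2 * 2 ^ Y ≤ 2 ^ J → y ≤ Y → e ≤ 1 → 0 ≤ A → 0 ≤ A' → (∀ l : ℤ, 1 ≤ l → l ≤ 2 * 2 ^ J → ‖a l‖ ≤ A) →
  (∀ l : ℤ, (2 : ℤ) ^ J ≤ 16 * l → l + 4 ≤ 2 * 2 ^ J → ‖a (l + 4) - a l‖ ≤ A' / 2 ^ J) →
  (∀ l : ℤ, (2 : ℤ) ^ J ≤ 16 * l → l + 8 ≤ 2 * 2 ^ J → ‖a (l + 8) - 2 * a (l + 4) + a l‖ ≤ A' / (2 ^ J) ^ 2) →
  ‖∑ l ∈ (Finset.Icc (1 : ℤ) (2 * 2 ^ J)).filter (fun l => l % 4 = 1 + 2 * (e : ℤ)),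
      nT m Y y e J t l * (eu (l * (θ / 4)) * a l)‖ ≤
    C * √(WW (2 ^ J) c t) * (‖fx m Y y θ‖ * (A + A') + 2 ^ y / 2 ^ J * A')

def M_AVS : Prop := S_CFA → S_CFB → S_WSS → S_NTX → S_AVS

/-- KSB. The supremum of the kernel. `X = 2^J`; `2^Y ≥ X/(1024 m²)`. We may assume `D ≤ π/2` (`LPF.neg`: `l.toNat/2 = e` modulo `2`, `cos (π - D) = -cos D`). (1) `D ≥ 1/X`. By LGC, LGD `l LP (l/2) (cos D) = (2/π) l Im (e^(i(n+1)D) bL n D)`, `n = (l-1)/2`, `e^(i(n+1)D) = e^(iD/2) e^(i l D/2) = e^(iD/2) eu (l (θ/4))` with `θ = D/π`; the imaginary part is `(z - z̄)/(2i)`,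
so two sums of AVS with `θ = ± D/π`, `a l = l bL ((l-1)/2) D` (or its conjugate), `A = A' = C (X/D)^(1/2)` (LGD; for the differences `l ≥ X/16`, product rule; for `A` also small `l`: `l bL ≤ C l^(1/2) D^(-1/2)`, `l = 1` separately or by LGC for `n = 0`: put `a l = 0` for `l < X/16`, where `nT = 0`). By CFB (`κ = 0`) `‖fx m Y y θ‖ (1 + 2^y θ)^(2m) ≤ C` and if `y < Y` `‖fx‖ ≤ C (2^y (θ + 1/2^Y))^(2m) ≤ C (2^y D)^(2m)`, so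
`‖fx‖ (X/D)^(1/2) ≤ C X^(1/2) 2^(y/2)` (`2m ≥ 1/2`; for `y = Y`: `D ≥ 1/X`, `X ≤ C 2^Y`), and `2^y/X (X/D)^(1/2) ≤ 2^y ≤ X^(1/2) 2^(y/2)`. `X^(1/2) 2^(y/2) = X 2^(-(J-y)/2)`. (2) `D < 1/X`: AVS with `θ = 0`, `a l = l LP (l/2) (cos D)` for odd `l`: `A = C X`, `A' = C X` (`LPF.le`, `d1`, `d2`: `X ‖a (l+4) - a l‖ ≤ C X (1 + X D)`, `X² ‖..‖ ≤ C X² (D + X D²)`)
and `‖fx m Y y 0‖ ≤ C (2^y/2^Y)^(2m) ≤ C 2^(-(J-y)/2)` (CFB; for `y = Y` `‖fx‖ ≤ C`), `2^y/X X = 2^y ≤ X 2^(-(J-y)/2)`. -/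
def S_KSB : Prop := ∀ m : ℕ, 1 ≤ m → ∃ (c : ℕ) (C : ℝ), 1 ≤ c ∧ 0 ≤ C ∧ ∀ (J Y y e : ℕ) (t D : ℝ),
  256 * m ^ 2 * 2 ^ Y ≤ 2 ^ J → 2 ^ J ≤ 1024 * m ^ 2 * 2 ^ Y → y ≤ Y → e ≤ 1 → 0 ≤ D → D ≤ π →
  ‖∑ l ∈ (Finset.Icc (1 : ℤ) (2 * 2 ^ J)).filter (fun l => l % 4 = 1 + 2 * (e : ℤ)),
      nT m Y y e J t l * ((l : ℂ) * LP (l.toNat / 2) ((Real.cos D : ℝ) : ℂ))‖ ≤
    C * (2 ^ J * √(WW (2 ^ J) c t) * (2 : ℝ) ^ (-(((J : ℝ) - y) / 2)))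

def M_KSB : Prop := S_CFB → S_NTX → S_LGB → S_LGC → S_LGD → S_AVS → S_KSB

/-! ### the bilinear form -/

/-- the bound of the kernel of the piece `y` -/
def A1 (C₀ : ℝ) (c J y : ℕ) (t : ℝ) : ℝ := C₀ * (2 ^ J * √(WW (2 ^ J) c t) * (2 : ℝ) ^ (-(((J : ℝ) - y) / 2)))

/-- the bound of the operator norm of the piece `y` -/
def E1 (C₀ : ℝ) (c y : ℕ) (t : ℝ) : ℝ := C₀ * (√(WW (2 ^ y) c t) / 2 ^ y)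

/-- the bound of the bilinear form, `e t = ∫ ‖G t‖` -/
def MB1 (C₀ : ℝ) (c J : ℕ) (e : ℝ → ℝ) : ℝ :=
  ∑ y : Fin (J + 1), ∫ t in (0 : ℝ)..1, ∫ s in (0 : ℝ)..1,
    min (A1 C₀ c J y.val (t - s) * (e t * e s)) (E1 C₀ c y.val (t - s) * √(e t * e s))

/-- XIS. Let `κ = p/2 - 1 ∈ (4/3, 2)`. Take `σ < 1` near `1` and `η > 0` small with (a) `1 - σκ/2 - σ + η < 0`... precisely: for `j ≥ 2z` the slope in `j` of the left side plus `η (z + j)` is `1 - σκ/2 - σ/2 + η < 0` (as `κ > 1`), for `j ≤ 2z` it is `1 - σκ/2 + η > 0` (as `κ < 2`), and at `j = 2z` the value is `z (-κ/2 + 2 (1 - σκ/2) + 3η) = z (2 - κ/2 - σκ + 3η) ≤ 0` as `3κ/2 > 2`. -/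
def S_XIS : Prop := ∀ p : ℝ, 14 / 3 < p → p < 6 → ∃ σ η : ℝ, 0 < σ ∧ σ < 1 ∧ 0 < η ∧ ∀ z j : ℝ, 0 ≤ z → 0 ≤ j →
  -((p / 2 - 1) / 2) * z + (1 - σ * ((p / 2 - 1) / 2)) * j - σ / 2 * max 0 (j - 2 * z) ≤ -η * (z + j)

/-- PTS. The pointwise bound. Let `X = 2^J`, `z = J - y`, `ω = WW X c τ/X² ≤ 3 c`; `A1 = C₀ X² √ω 2^(-z/2)`. We may assume `C₀ ≥ 1`. If `C₀ √ω 2^(-z/4) ≤ a Λ⁻²` the first alternative holds. Otherwise `ω ≥ (a/C₀)² (Λ²)⁻²` and `2^z ≤ K (Λ²)⁴`: GTA for `Λ²` (with `(a/C₀)²` and `K`) gives `ρ'`, `q = ρ'.den`, `β = τ - ρ'`. Let `2^ρ ≤ q < 2^(ρ+1)` and let `j` be the least natural number with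
`X² |β| ≤ 2^j`; `2^(σ j) ≤ 2 (1 + X² |β|)^σ ≤ C Λ⁴` and `nr (2^ρ) (2^j/X²) τ`. `A1 ≤ C X² 2^(-ρ/2) 2^(-σ j/2) 2^(-z/2)`, `E1 ≤ C q^(-1/2) (1 + X² 2^(-2z) |β|)^(-σ/2) ≤ C 2^(-ρ/2) 2^(-(σ/2)(j - 2z)₊)`; `min (A v) (E √v) ≤ (A v)^(1-2/p) (E √v)^(2/p)`, and `1 - 2/p = (2/p) (p/2 - 1)`. (As PTW, `Pool/Agent/STZ3/PTW.lean`.) -/
def S_PTS : Prop := ∀ (c : ℕ) (σ p C₀ a : ℝ), 1 ≤ c → 0 < σ → σ < 1 → 2 < p → 0 ≤ C₀ → 0 < a →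
  ∃ (C : ℝ) (J₀ : ℕ), 1 ≤ C ∧ ∀ (J : ℕ) (Λ τ v : ℝ) (y : ℕ), y ≤ J → J₀ ≤ J → 1 ≤ Λ → Λ ^ 20 ≤ 2 ^ J → 0 ≤ v →
    min (A1 C₀ c J y τ * v) (E1 C₀ c y τ * √v) ≤
        a * (((2 : ℝ) ^ J) ^ 2 / Λ ^ 2) * (2 : ℝ) ^ (-(((J : ℝ) - y) / 4)) * v ∨
    ∃ ρ j : ℕ, (2 : ℝ) ^ ρ ≤ C * Λ ^ 4 ∧ (2 : ℝ) ^ (σ * j) ≤ C * Λ ^ 4 ∧ nr (2 ^ ρ) (2 ^ j / (2 ^ J) ^ 2) τ ∧
      min (A1 C₀ c J y τ * v) (E1 C₀ c y τ * √v) ≤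
        C * ((2 : ℝ) ^ J) ^ (2 * (1 - 2 / p)) * (2 : ℝ) ^ (-((ρ : ℝ) / 2)) *
          (2 : ℝ) ^ (2 / p * (-((p / 2 - 1) / 2) * ((J : ℝ) - y) - σ * ((p / 2 - 1) / 2) * j -
            σ / 2 * max 0 (j - 2 * ((J : ℝ) - y)))) * v ^ (1 - 1 / p)

def M_PTS : Prop := S_WWF → S_GTA → S_PTS

/-! ### counting -/

/-- SPS. The spectral inequality, interpolated. As SPE (`Pool/Agent/STZ3/SPE.lean`): let `λ_l`, `v_l` be the eigenvalues and an orthonormal basis of eigenvectors of `M`, `N(F)² = ∑ |λ_l| ⟨F, v_l⟩²`; `|⟨M F, F'⟩| ≤ N(F) N(F')` and `N(F)² ≤ ⟨M^(2k) F, F⟩^(1/2k) ‖F‖₂^(2-1/k)`. We may assume `∑ F^s = 1`; `S_i = {2^(-i-1) < F ≤ 2^(-i)}` (`i ≥ 0`), `F_i = F 1_(S_i)`, `|S_i| ≤ 2^(s(i+1))`: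
`N(F_i)² ≤ C B^(1/2k) 2^(-2 δ i)` with `δ = 1 - s/2 - s/(4k)`, so `|⟨M F_i, F_i'⟩| ≤ C B^(1/2k) 2^(-δ (i + i'))`. Also (entries in `[0, 1]`) `|⟨M F_i, F_i'⟩| ≤ ‖F_i‖₁ ‖F_i'‖₁ ≤ C 2^((s-1)(i + i'))`. The first to the power `θ` times the second to the power `1 - θ`; the sum over `i`, `i'` converges as `(s-1)(1-θ) < θ δ`. -/
def S_SPS : Prop := ∀ (k : ℕ) (s θ : ℝ), 1 ≤ k → 1 ≤ s → 0 < θ → θ ≤ 1 →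
  (s - 1) * (1 - θ) < θ * (1 - s / 2 - s / (4 * k)) → ∃ C : ℝ, 0 ≤ C ∧
  ∀ (n : ℕ) (M : Matrix (Fin n) (Fin n) ℝ) (B : ℝ), M.IsSymm → (∀ i j, 0 ≤ M i j ∧ M i j ≤ 1) → 0 ≤ B →
    (∀ i j, |(M ^ (2 * k)) i j| ≤ B) → ∀ F : Fin n → ℝ, (∀ i, 0 ≤ F i) →
    |∑ i, ∑ j, M i j * (F i * F j)| ≤ C * (B ^ (1 / (2 * (k : ℝ)))) ^ θ * (∑ i, F i ^ s) ^ (2 / s)

/-- CNS. As CNT (`Pool/Agent/STZ3/CNT.lean`). At `θ = 1/2` `(s - 1)/2 < (1 - s/2)/2` as `s < 4/3`; so choose `θ < 1/2` near `1/2` with `(s-1)(1-θ) < θ (1 - s/2)`, then `k` large (SPS), and `ε > 0` with `θ (1 + ε/(2k)) ≤ 1/2`; ENT with `n = 2k`: `B = C R^(2k + ε)`. -/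
def S_CNS : Prop := ∀ s : ℝ, 1 ≤ s → s < 4 / 3 → ∃ (K : ℕ) (C : ℝ), 1 ≤ K ∧ 0 ≤ C ∧ ∀ R L : ℕ, 1 ≤ R →
  K * R ^ K ≤ L → ∀ F : Fin L → ℝ, (∀ i, 0 ≤ F i) →
    ∑ i, ∑ j, cM R L i j * (F i * F j) ≤ C * (R : ℝ) ^ ((1 : ℝ) / 2) * (∑ i, F i ^ s) ^ (2 / s)

def M_CNS : Prop := S_ENT → S_SPS → S_CNS

open Classical in
/-- CES. As CEL (`Pool/Agent/STZ3/CEL.lean`), with CNS instead of CNT (`s = p/(p-1) < 4/3` as `p > 4`). -/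
def S_CES : Prop := ∀ p : ℝ, 4 < p → ∃ (K : ℕ) (C : ℝ), 1 ≤ K ∧ 0 ≤ C ∧ ∀ (R : ℕ) (δ : ℝ) (e : ℝ → ℝ),
  1 ≤ R → 0 < δ → K * (R : ℝ) ^ K * δ ≤ 1 → Continuous e → (∀ t, 0 ≤ e t) →
    ∫ t in (0 : ℝ)..1, ∫ s in (0 : ℝ)..1, (if nr R δ (t - s) then (e t * e s) ^ (1 - 1 / p) else 0) ≤
      C * (R : ℝ) ^ ((1 : ℝ) / 2) * δ ^ (2 / p) * (∫ t in (0 : ℝ)..1, e t) ^ (2 - 2 / p)

def M_CES : Prop := S_CNS → S_CES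

/-- TOS. As TOJ (`Pool/Agent/STZ3/TOJ.lean`). Let `X = 2^J`, `m = ∫ e`, `ℓ = X/Λ`. `σ`, `η` from XIS; PTS with a small `a`; `κ` so small (depending on `K` of CES for `p`, and on `σ`) and `J₀` so large that `Λ ≤ X^κ` implies `Λ^20 ≤ X` and `K (2^ρ)^K 2^j/X² ≤ 1` for all `2^ρ ≤ C Λ⁴`, `2^(σ j) ≤ C Λ⁴`. For every `y`, `t`, `s` the `min` is at most the first bound plus the sum of the second ones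
over all the `(ρ, j)` in the range with `nr (2^ρ) (2^j/X²) (t - s)`. First bound: its integral is `a ℓ² 2^(-z/4) m²`, and `∑_z 2^(-z/4) ≤ (1 - 2^(-1/4))⁻¹`, so with `a` small this is at most `ℓ² m²/2`. Second: CES with `R = 2^ρ`, `δ = 2^j/X²`: `C 2^(ρ/2) 2^(2j/p) X^(-4/p) m^(2-2/p)`; with XIS the total is at most
`C X^(2(1-2/p) - 4/p) m^(2-2/p) ∑_y ∑_ρ ∑_j 2^(-(2/p) η (z + j)) ≤ C X^(2 - 8/p) m^(2-2/p) (1 + log Λ)` (geometric series; the number of the `ρ` is at most `C (1 + log Λ) ≤ C Λ^(2ε/p)`). So `ℓ² m²/2 ≤ C X^(2-8/p) Λ^(2ε/p) m^(2-2/p)`, `m^(2/p) ≤ C ℓ⁻² X^(2-8/p) Λ^(2ε/p)`, and the power `p/2` of this is the claim. -/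
def S_TOS : Prop := ∀ (c : ℕ) (p C₀ ε : ℝ), 1 ≤ c → 14 / 3 < p → p < 6 → 0 ≤ C₀ → 0 < ε →
  ∃ (κ C : ℝ) (J₀ : ℕ), 0 < κ ∧ 0 ≤ C ∧ ∀ (J : ℕ) (e : ℝ → ℝ) (Λ : ℝ), J₀ ≤ J →
    Continuous e → (∀ t, 0 ≤ e t) → 1 ≤ Λ → Λ ≤ ((2 : ℝ) ^ J) ^ κ →
    ((2 : ℝ) ^ J / Λ * ∫ t in (0 : ℝ)..1, e t) ^ 2 ≤ MB1 C₀ c J e →
    ∫ t in (0 : ℝ)..1, e t ≤ C * Λ ^ (p + ε) * ((2 : ℝ) ^ J) ^ (-(4 : ℝ))

def M_TOS : Prop := S_WWF → S_CES → S_XIS → S_PTS → S_TOS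

/-- TIS. As TOI (`Pool/Agent/STZ3/TOI.lean`). Let `X = 2^J`, `m = ∫ e ≤ 1`. Trivial bound: `WW X ≤ 3 c X²` and `∑_y 2^(-z/2) ≤ C` give `MB1 ≤ C X² m²`; so if `m > 0` then `ℓ ≤ C₁ X`. Choose `p₀ < p` with `14/3 < p₀`, `ε = p - p₀`, TOS gives `κ₀`, `C`, `J₀`; `κ = κ₀/2`. Case `J < J₀`: `ℓ ≤ C`, `m ≤ 1` and `X^(p-4) ≥ 1`. Case `J ≥ J₀` and `ℓ ≤ X`: `Λ = X/ℓ ≥ 1`, `Λ ≤ X^κ/a ≤ X^κ₀` if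
`X^(κ₀/2) ≥ 1/a` (enlarge `J₀`), TOS: `m ≤ C Λ^p X^(-4) = C X^(p-4) ℓ^(-p)`. Case `ℓ > X`: TOS with `Λ = 1` (the hypothesis is weaker for the smaller `ℓ' = X`), `m ℓ^p ≤ m (C₁ ℓ')^p`. -/
def S_TIS : Prop := ∀ (c : ℕ) (p C₀ a : ℝ), 1 ≤ c → 14 / 3 < p → p < 6 → 0 ≤ C₀ → 0 < a → ∃ κ C : ℝ, 0 < κ ∧ 0 ≤ C ∧
  ∀ (J : ℕ) (e : ℝ → ℝ) (ℓ : ℝ), Continuous e → (∀ t, 0 ≤ e t) → (∀ t, e t ≤ 1) →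
    a * ((2 : ℝ) ^ J) ^ (1 - κ) ≤ ℓ → (ℓ * ∫ t in (0 : ℝ)..1, e t) ^ 2 ≤ MB1 C₀ c J e →
    (∫ t in (0 : ℝ)..1, e t) * ℓ ^ p ≤ C * ((2 : ℝ) ^ J) ^ (p - 4)

def M_TIS : Prop := S_WWF → S_TOS → S_TIS

/-! ### the top levels on the sphere -/

/-- the estimate for the top levels, for the frequencies in `[α N, N]` -/
def TLA {M : Type} [TopologicalSpace M] [MeasurableSpace M] (μ : Measure M) {ι : Type} (K : ι → M → M → ℂ)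
    {r : ℕ} (e : ℝ) (w : ι → Fin r → ℤ) (Q : (Fin r → ℤ) → ℤ) (p₀ α : ℝ) : Prop :=
  ∀ p : ℝ, p₀ < p → p < p₀ + 1 → ∃ κ C : ℝ, 0 < κ ∧ 0 ≤ C ∧ ∀ (F : Finset ι) (u : ι → M → ℂ),
    (∀ a ∈ F, Mem μ (K a) (u a)) → ∀ N : ℝ, 1 ≤ N → (∀ a ∈ F, α * N ≤ sz (w a) ∧ sz (w a) ≤ N) →
    ∀ G : ℝ → M → ℂ, JC G → (∀ t x, ‖G t x‖ ≤ 1) → ∀ ℓ : ℝ, 0 < ℓ → N ^ ((r + e) / 2 - κ) * √(∑ a ∈ F, nsq μ (u a)) ≤ ℓ →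
    ℓ * (∫ t in (0 : ℝ)..1, ∫ x, ‖G t x‖ ∂μ) ≤ ‖∫ t in (0 : ℝ)..1, ∫ x, conj (G t x) * uw w Q F u t x ∂μ‖ →
    (∫ t in (0 : ℝ)..1, ∫ x, ‖G t x‖ ∂μ) * ℓ ^ p ≤
      C * N ^ (p * (r + e) / 2 - (r + e + 2)) * (∑ a ∈ F, nsq μ (u a)) ^ (p / 2)

/-- TPS. The top levels. If `F` is empty then the right side of the last hypothesis is `0`, so `m = 0`. `S = ∑ nsq (u a)`, `m = ∫∫ ‖G‖ ≤ 1`; if `S = 0` then `uw = 0` (MXS) and `m = 0`. `m₀ = 1` (the parameter `m` of the cutoffs). MXS: `ℓ ≤ C N √S` if `m > 0`, so for `N ≤ N₀` the claim is trivial. `J` with `N ≤ 2^J ≤ 2N`, `J ≥ 12`, `Y = J - 9` (`256 · 2^Y ≤ 2^J ≤ 1024 · 2^Y`).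
For `i ∈ F` `lw i ≤ 2^J`, `lw i ≥ N/2 - 1 > 2^J/8`, so `qS e (2^J) (lw i) = 1`. TTM for `KQ χ e` (`KPF.ker`), `T` the set of all `i : PX Hc e` with `lw i ≤ 2 · 2^J` (SRJ: finite), `η i = qS e (2^J) (lw i)`, `κ = Fin (J + 1)`, `k y t x x' = ∑ i ∈ T, nT 1 Y y e J t (lw i) KQ χ e i x x'` for `y ≤ Y`, `0` for `y > Y`; the identity: `NTF.sum` (`(rd Φ).Q l = l 0 ^ 2`: RNK).
The supremum: KSB (`KPF.odd`, `cc ∈ [-1, 1]`, `cc = cos D`; `i ↦ lw i` is a bijection of `T` on the set of the `l` in the sum: `KPF.inj`, SRJ), so `A = A1 C₀ c J y`; the operator norm: KOP and MUT, `E = E1 C₀ c y` (take the maximum of the constants; `WWF.mono` in `c`). `Nice`: `WWF`. So `(ℓ m)² ≤ S MB1 C₀ c J (fun t => ∫ ‖G t x‖)`. TIS with `ℓ/√S`, `a = 1/4`, `κ ≤ 1`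
(`N^(1-κ) ≥ (1/2) (2^J)^(1-κ)`), `2^J ≤ 2N`. -/
def S_TPS : Prop := ∀ (N : ℕ) (H : Subgroup (SU N)) (Φ : RT 1) (B : Matrix (Fin 1) (Fin 1) ℤ)
  (Hc : Fin 1 → MT N) (E : (Fin 1 → ℤ) × (Fin 1 → ℤ) → MT N) (c k : ℝ), CX H Φ B Hc E c k 3 →
  ∀ (cc : H → ℝ) (ze : H → ℂ) (w : H) (C₀ : ℝ), SPF H Hc cc ze w C₀ →
  ∀ (μ : Measure H) [IsProbabilityMeasure μ] [μ.IsMulLeftInvariant] (χ : IX Hc → H → ℂ), KPF χ cc w μ → ∀ e : ℕ, e ≤ 1 →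
    TLA μ (KQ χ e) (1 : ℝ) (fun i : PX Hc e => wG i.1.1) (fun l => -(rd Φ).Q l) (14 / 3) (1 / 2)

def M_TPS : Prop := S_WFAC → S_WWF → S_RNK → S_SRJ → S_MXS → S_KOP → S_TTM → S_NTX → S_MUT → S_KSB → S_TIS → S_TPS

/-- LTS. As LOT (`Pool/Agent/STZ3/LOT.lean`), without `p₀ < 3` and with `TLA`: `p₂ ∈ (p₀, min p' (p₀ + 1))`. -/
def S_LTS : Prop := ∀ (M : Type) [TopologicalSpace M] [CompactSpace M] [T2Space M]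
  [SecondCountableTopology M] [MeasurableSpace M] [BorelSpace M] (μ : Measure M)
  [IsProbabilityMeasure μ] (ι : Type) (K : ι → M → M → ℂ) (r : ℕ) (e : ℝ)
  (w : ι → Fin r → ℤ) (Q : (Fin r → ℤ) → ℤ) (p₀ α : ℝ), 0 ≤ e → 2 < p₀ → MXB μ K e w Q →
  TLA μ K e w Q p₀ α → LLV μ K e w Q p₀ α → LOCA μ K e w Q p₀ α

def M_LTS : Prop := S_LEW → S_LTS

end

end SPH
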