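import Mathlib
import Pool.Agent.SPH.StA
import Pool.Agent.SPH.StE
import Pool.Agent.STZ3.PTW

/-!
# The pointwise bound at the top levels

Module PTS of the project SPH.
-/

set_option autoImplicit false
set_option linter.unusedVariables false

namespace SPH

open STZ LGR STZ3 MeasureTheory Matrix Filter

open scoped ComplexConjugate Matrix Real Topology

noncomputable section

namespace PTS

theorem pw (B X z ρ σ t M p : ℝ) (hB : 0 < B) (hX : 0 < X) (hp : 0 < p) :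
    (B * X ^ (2 : ℝ) * (2 : ℝ) ^ (-(z / 2)) * (2 : ℝ) ^ (-(ρ / 2)) * (2 : ℝ) ^ (-(σ * t / 2))) ^
        (1 - 2 / p) * (B * (2 : ℝ) ^ (-(ρ / 2)) * (2 : ℝ) ^ (-(σ / 2 * M))) ^ (2 / p) =
    B * X ^ (2 * (1 - 2 / p)) * (2 : ℝ) ^ (-(ρ / 2)) *
      (2 : ℝ) ^ (2 / p * (-((p / 2 - 1) / 2) * z - σ * ((p / 2 - 1) / 2) * t - σ / 2 * M)) := by
  have f1 : B ^ (1 - 2 / p) * B ^ (2 / p) = B := by
    rw [← Real.rpow_add hB]
    simp
  have f2 : (2 : ℝ) ^ (-(ρ / 2)) * (2 : ℝ) ^ (2 / p * (-((p / 2 - 1) / 2) * z -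
      σ * ((p / 2 - 1) / 2) * t - σ / 2 * M)) = (2 : ℝ) ^ (-(z / 2) * (1 - 2 / p)) *
      (2 : ℝ) ^ (-(ρ / 2) * (1 - 2 / p)) *
      (2 : ℝ) ^ (-(σ * t / 2) * (1 - 2 / p)) * ((2 : ℝ) ^ (-(ρ / 2) * (2 / p)) *
      (2 : ℝ) ^ (-(σ / 2 * M) * (2 / p))) := by
    rw [← Real.rpow_add two_pos, ← Real.rpow_add two_pos, ← Real.rpow_add two_pos,
      ← Real.rpow_add two_pos, ← Real.rpow_add two_pos]
    congr 1
    field_simp
    ring
  rw [Real.mul_rpow (by positivity) (by positivity),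
    Real.mul_rpow (by positivity) (by positivity), Real.mul_rpow (by positivity) (by positivity),
    Real.mul_rpow hB.le (by positivity), Real.mul_rpow (by positivity) (by positivity),
    Real.mul_rpow hB.le (by positivity), ← Real.rpow_mul hX.le, ← Real.rpow_mul two_pos.le,
    ← Real.rpow_mul two_pos.le, ← Real.rpow_mul two_pos.le, ← Real.rpow_mul two_pos.le,
    ← Real.rpow_mul two_pos.le]
  calc _ = (B ^ (1 - 2 / p) * B ^ (2 / p)) *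
        X ^ (2 * (1 - 2 / p)) * ((2 : ℝ) ^ (-(z / 2) * (1 - 2 / p)) *
        (2 : ℝ) ^ (-(ρ / 2) * (1 - 2 / p)) *
        (2 : ℝ) ^ (-(σ * t / 2) * (1 - 2 / p)) *
        ((2 : ℝ) ^ (-(ρ / 2) * (2 / p)) * (2 : ℝ) ^ (-(σ / 2 * M) * (2 / p)))) := by ring
    _ = _ := by
      rw [f1, ← f2]
      ring

end PTS

open SPH.PTS STZ3.PTW in
theorem t_PTS : M_PTS := by
  intro hWF hGTA c σ p C₀ a hc hσ0 hσ1 hp hC₀ ha
  have hW : WWF := hWF
  have hp0 : 0 < p := by linarith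
  have hc' : (1 : ℝ) ≤ c := by exact_mod_cast hc
  set A₀ : ℝ := max C₀ 1 with hA₀
  have hA1 : 1 ≤ A₀ := le_max_right _ _
  have hCA : C₀ ≤ A₀ := le_max_left _ _
  have hA0 : 0 < A₀ := by linarith
  obtain ⟨C', J₀, hC', hgta⟩ := hGTA c σ ((a / A₀) ^ 2) ((3 * c) ^ 2 * (A₀ / a) ^ 4) hc hσ0 hσ1
    (by positivity) (by positivity)
  have hC'0 : 0 < C' := by linarith
  refine ⟨2 * A₀ * C', J₀, by nlinarith, ?_⟩
  intro J Λ τ v y hyJ hJ hΛ hΛ20 hv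
  have hΛ0 : 0 < Λ := by linarith
  have hΛ2 : 0 < Λ ^ 2 := by positivity
  have hΛ21 : 1 ≤ Λ ^ 2 := one_le_pow₀ hΛ
  set X : ℝ := (2 : ℝ) ^ J with hX
  have hX0 : 0 < X := by positivity
  have hX1 : 1 ≤ X := one_le_pow₀ one_le_two
  set z : ℝ := (J : ℝ) - y with hz
  have hz0 : 0 ≤ z := by
    have : (y : ℝ) ≤ J := by exact_mod_cast hyJ
    linarith
  have hWge : ∀ R : ℕ, (R : ℝ) ≤ WW R c τ := fun R => hW.ge R c τ
  have hW0 : 0 ≤ WW (2 ^ J) c τ := (Nat.cast_nonneg _).trans (hWge _)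
  set om : ℝ := WW (2 ^ J) c τ / X ^ 2 with hom
  have hom0 : 0 ≤ om := by positivity
  have hom3 : om ≤ 3 * c := by
    rw [hom, div_le_iff₀ (by positivity)]
    have h1 := WW_le (2 ^ J) c τ Nat.one_le_two_pow hc
    push_cast at h1
    exact h1
  have hWom : WW (2 ^ J) c τ = om * X ^ 2 := by
    rw [hom]
    field_simp
  have hsom0 : 0 ≤ √om := Real.sqrt_nonneg _
  have hAy : A1 C₀ c J y τ = C₀ * √om * X ^ 2 * (2 : ℝ) ^ (-(z / 2)) := by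
    unfold A1
    rw [hWom, Real.sqrt_mul' _ (by positivity), Real.sqrt_sq hX0.le, ← hX, ← hz]
    ring
  have hAy0 : 0 ≤ A1 C₀ c J y τ := by
    rw [hAy]
    positivity
  have hhalf : (2 : ℝ) ^ (-(z / 2)) = (2 : ℝ) ^ (-(z / 4)) * (2 : ℝ) ^ (-(z / 4)) := by
    rw [← Real.rpow_add two_pos]
    congr 1
    ring
  by_cases hbad : C₀ * √om * (2 : ℝ) ^ (-(z / 4)) ≤ a / Λ ^ 2
  · left
    refine (min_le_left _ _).trans (mul_le_mul_of_nonneg_right ?_ hv)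
    rw [hAy, hhalf]
    calc C₀ * √om * X ^ 2 * ((2 : ℝ) ^ (-(z / 4)) * (2 : ℝ) ^ (-(z / 4)))
        = (C₀ * √om * (2 : ℝ) ^ (-(z / 4))) * (X ^ 2 * (2 : ℝ) ^ (-(z / 4))) := by ring
      _ ≤ (a / Λ ^ 2) * (X ^ 2 * (2 : ℝ) ^ (-(z / 4))) :=
        mul_le_mul_of_nonneg_right hbad (by positivity)
      _ = _ := by ring
  · right
    have hgood := not_le.1 hbad
    have hS1 : (2 : ℝ) ^ (-(z / 4)) ≤ 1 :=
      Real.rpow_le_one_of_one_le_of_nonpos one_le_two (by linarith)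
    have h1 : a / Λ ^ 2 < A₀ * √om * (2 : ℝ) ^ (-(z / 4)) :=
      hgood.trans_le (by gcongr)
    have h2 : (a / A₀) ^ 2 / (Λ ^ 2) ^ 2 ≤ om := by
      have h3 : A₀ * √om * (2 : ℝ) ^ (-(z / 4)) ≤ A₀ * √om :=
        mul_le_of_le_one_right (by positivity) hS1
      have h4 : a / Λ ^ 2 ≤ A₀ * √om := h1.le.trans h3
      have h5 : a / A₀ / Λ ^ 2 ≤ √om := by
        rw [div_div, mul_comm A₀, ← div_div, div_le_iff₀ hA0]
        linarith
      have h6 : (a / A₀ / Λ ^ 2) ^ 2 ≤ √om ^ 2 := pow_le_pow_left₀ (by positivity) h5 2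
      rw [Real.sq_sqrt hom0, div_pow] at h6
      exact h6
    have h5 : (2 : ℝ) ^ (z / 4) ≤ √(3 * c) * (A₀ / a) * Λ ^ 2 := by
      have e1 : (2 : ℝ) ^ (-(z / 4)) * (2 : ℝ) ^ (z / 4) = 1 := by
        rw [← Real.rpow_add two_pos]
        have : -(z / 4) + z / 4 = 0 := by ring
        rw [this, Real.rpow_zero]
      have h6 : a / Λ ^ 2 * (2 : ℝ) ^ (z / 4) ≤ A₀ * √om := by
        calc a / Λ ^ 2 * (2 : ℝ) ^ (z / 4) ≤ A₀ * √om * (2 : ℝ) ^ (-(z / 4)) * (2 : ℝ) ^ (z / 4) :=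
              mul_le_mul_of_nonneg_right h1.le (by positivity)
          _ = A₀ * √om * ((2 : ℝ) ^ (-(z / 4)) * (2 : ℝ) ^ (z / 4)) := by ring
          _ = A₀ * √om := by rw [e1, mul_one]
      have h7 : a / Λ ^ 2 * (2 : ℝ) ^ (z / 4) ≤ A₀ * √(3 * c) :=
        h6.trans (mul_le_mul_of_nonneg_left (Real.sqrt_le_sqrt hom3) hA0.le)
      have h8 : a * (2 : ℝ) ^ (z / 4) ≤ A₀ * √(3 * c) * Λ ^ 2 := by
        have h9 := mul_le_mul_of_nonneg_right h7 hΛ2.le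
        calc a * (2 : ℝ) ^ (z / 4) = a / Λ ^ 2 * (2 : ℝ) ^ (z / 4) * Λ ^ 2 := by field_simp
          _ ≤ _ := h9
      have e2 : √(3 * c) * (A₀ / a) * Λ ^ 2 = A₀ * √(3 * c) * Λ ^ 2 / a := by ring
      rw [e2, le_div_iff₀ ha]
      linarith
    have h10 : (2 : ℝ) ^ z ≤ (3 * c) ^ 2 * (A₀ / a) ^ 4 * (Λ ^ 2) ^ 4 := by
      have e1 : (2 : ℝ) ^ z = ((2 : ℝ) ^ (z / 4)) ^ 4 := by
        rw [← Real.rpow_natCast, ← Real.rpow_mul two_pos.le]
        congr 1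
        push_cast
        ring
      have e2 : √(3 * c : ℝ) ^ 4 = (3 * c) ^ 2 := by
        rw [show √(3 * c : ℝ) ^ 4 = (√(3 * c : ℝ) ^ 2) ^ 2 by ring, Real.sq_sqrt (by positivity)]
      rw [e1]
      calc ((2 : ℝ) ^ (z / 4)) ^ 4 ≤ (√(3 * c) * (A₀ / a) * Λ ^ 2) ^ 4 :=
            pow_le_pow_left₀ (by positivity) h5 4
        _ = √(3 * c : ℝ) ^ 4 * (A₀ / a) ^ 4 * (Λ ^ 2) ^ 4 := by ring
        _ = _ := by rw [e2]
    have h11 : (2 : ℝ) ^ (J - y) ≤ (3 * c) ^ 2 * (A₀ / a) ^ 4 * (Λ ^ 2) ^ 4 := by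
      refine le_trans (le_of_eq ?_) h10
      rw [← Real.rpow_natCast, Nat.cast_sub hyJ]
    obtain ⟨ρ', hr1, hr2, hr3, hr4⟩ := hgta J (Λ ^ 2) τ hJ hΛ21 (by
      rw [← pow_mul]
      exact hΛ20) h2
    have e4 : (Λ ^ 2) ^ 2 = Λ ^ 4 := by ring
    rw [e4] at hr1 hr2
    set q : ℝ := (ρ'.den : ℝ) with hq
    have hq1 : 1 ≤ q := by
      rw [hq]
      exact_mod_cast ρ'.den_pos
    have hq0 : 0 < q := by linarith
    set β : ℝ := |τ - ρ'| with hβ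
    have hβ0 : 0 ≤ β := abs_nonneg _
    set w : ℝ := 1 + X ^ 2 * β with hw
    have hw1 : 1 ≤ w := by
      have : 0 ≤ X ^ 2 * β := by positivity
      linarith
    have hw0 : 0 < w := by linarith
    obtain ⟨j, hj1, hj2⟩ := exists_nat_pow_near hw1 (one_lt_two : (1 : ℝ) < 2)
    set ρ : ℕ := Nat.log 2 ρ'.den with hρ
    have hρ1 : 2 ^ ρ ≤ ρ'.den := Nat.pow_log_le_self 2 ρ'.den_ne_zero
    have hρ2 : ρ'.den < 2 ^ (ρ + 1) := Nat.lt_pow_succ_log_self one_lt_two _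
    have hρ1' : (2 : ℝ) ^ ρ ≤ q := by
      rw [hq]
      exact_mod_cast hρ1
    have hqρ : 1 / q ≤ (2 : ℝ) ^ (-(ρ : ℝ)) := by
      rw [Real.rpow_neg two_pos.le, Real.rpow_natCast, one_div]
      exact inv_anti₀ (by positivity) hρ1'
    have h2s : (2 : ℝ) ^ σ ≤ 2 := by
      calc (2 : ℝ) ^ σ ≤ 2 ^ (1 : ℝ) := Real.rpow_le_rpow_of_exponent_le one_le_two hσ1.le
        _ = 2 := Real.rpow_one _
    have hj1' : (2 : ℝ) ^ (((j + 1 : ℕ) : ℝ) - 1) ≤ w := by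
      have : ((j + 1 : ℕ) : ℝ) - 1 = (j : ℕ) := by
        push_cast
        ring
      rw [this, Real.rpow_natCast]
      exact hj1
    have hjs : (2 : ℝ) ^ (σ * ((j + 1 : ℕ) : ℝ)) ≤ 2 * w ^ σ := by
      have e1 : σ * ((j + 1 : ℕ) : ℝ) = σ + (j : ℝ) * σ := by
        push_cast
        ring
      rw [e1, Real.rpow_add two_pos, Real.rpow_mul two_pos.le, Real.rpow_natCast]
      exact mul_le_mul h2s (Real.rpow_le_rpow (by positivity) hj1 hσ0.le) (by positivity) two_pos.le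
    have hwinv : w ^ (-σ) ≤ 2 * (2 : ℝ) ^ (-(σ * ((j + 1 : ℕ) : ℝ))) := by
      rw [Real.rpow_neg hw0.le, Real.rpow_neg two_pos.le, ← div_eq_mul_inv,
        le_div_iff₀ (by positivity), inv_mul_le_iff₀ (by positivity)]
      linarith
    refine ⟨ρ, j + 1, ?_, ?_, ?_, ?_⟩
    · calc (2 : ℝ) ^ ρ ≤ q := hρ1'
        _ ≤ C' * Λ ^ 4 := hr1
        _ ≤ 2 * A₀ * C' * Λ ^ 4 := by
          have : 0 < C' * Λ ^ 4 := by positivity
          nlinarith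
    · have h12 : w ^ σ ≤ C' * Λ ^ 4 := by
        have h13 : w ^ σ ≤ q * w ^ σ := le_mul_of_one_le_left (by positivity) hq1
        exact h13.trans hr2
      calc (2 : ℝ) ^ (σ * ((j + 1 : ℕ) : ℝ)) ≤ 2 * w ^ σ := hjs
        _ ≤ 2 * (C' * Λ ^ 4) := by linarith
        _ ≤ 2 * A₀ * C' * Λ ^ 4 := by
          have : 0 < C' * Λ ^ 4 := by positivity
          nlinarith
    · refine ⟨ρ'.den, ρ'.num, hρ1, by rw [pow_succ] at hρ2; omega, ?_⟩
      have e1 : ((ρ'.num : ℝ) / (ρ'.den : ℝ)) = (ρ' : ℝ) := by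
        rw [Rat.cast_def]
      rw [e1, le_div_iff₀ (by positivity)]
      have : β * X ^ 2 ≤ w := by
        rw [hw]
        nlinarith
      exact this.trans hj2.le
    · have hE := fac σ C' q ((2 : ℝ) ^ (-(ρ : ℝ))) w ((j + 1 : ℕ) : ℝ) J y _ hσ0 hσ1 hC'0.le hq0
        hqρ hyJ β hβ0 hw hj1' (hr4 _ hyJ h11)
      set t : ℝ := ((j + 1 : ℕ) : ℝ) with ht
      rw [← hz] at hE
      set M : ℝ := max 0 (t - 2 * z) with hM
      have hsq : √(2 * C') ≤ 2 * C' := by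
        rw [Real.sqrt_le_iff]
        constructor
        · linarith
        · nlinarith
      have hB0 : C₀ * √(2 * C') ≤ 2 * A₀ * C' := by
        calc C₀ * √(2 * C') ≤ A₀ * (2 * C') := mul_le_mul hCA hsq (Real.sqrt_nonneg _) hA0.le
          _ = _ := by ring
      have hρh : √((2 : ℝ) ^ (-(ρ : ℝ))) = (2 : ℝ) ^ (-((ρ : ℝ) / 2)) := by
        rw [Real.sqrt_eq_rpow, ← Real.rpow_mul two_pos.le]
        congr 1
        ring
      have hEy : E1 C₀ c y τ ≤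
          2 * A₀ * C' * (2 : ℝ) ^ (-((ρ : ℝ) / 2)) * (2 : ℝ) ^ (-(σ / 2 * M)) := by
        unfold E1
        have e1 : √(2 * C' * (2 : ℝ) ^ (-(ρ : ℝ)) * (2 : ℝ) ^ (-(σ * M))) =
            √(2 * C') * (2 : ℝ) ^ (-((ρ : ℝ) / 2)) * (2 : ℝ) ^ (-(σ / 2 * M)) := by
          rw [Real.sqrt_mul' _ (by positivity), Real.sqrt_mul' _ (by positivity), hρh]
          congr 1
          rw [Real.sqrt_eq_rpow, ← Real.rpow_mul two_pos.le]
          congr 1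
          ring
        rw [e1] at hE
        calc C₀ * (√(WW (2 ^ y) c τ) / 2 ^ y)
            ≤ C₀ * (√(2 * C') * (2 : ℝ) ^ (-((ρ : ℝ) / 2)) * (2 : ℝ) ^ (-(σ / 2 * M))) :=
              mul_le_mul_of_nonneg_left hE hC₀
          _ = (C₀ * √(2 * C')) * ((2 : ℝ) ^ (-((ρ : ℝ) / 2)) * (2 : ℝ) ^ (-(σ / 2 * M))) := by ring
          _ ≤ (2 * A₀ * C') * ((2 : ℝ) ^ (-((ρ : ℝ) / 2)) * (2 : ℝ) ^ (-(σ / 2 * M))) :=
              mul_le_mul_of_nonneg_right hB0 (by positivity)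
          _ = _ := by ring
      have hAy' : A1 C₀ c J y τ ≤ 2 * A₀ * C' * X ^ (2 : ℝ) * (2 : ℝ) ^ (-(z / 2)) *
          (2 : ℝ) ^ (-((ρ : ℝ) / 2)) * (2 : ℝ) ^ (-(σ * t / 2)) := by
        have h12 : om ≤ 2 * C' * (2 : ℝ) ^ (-(ρ : ℝ)) * (2 : ℝ) ^ (-(σ * t)) := by
          rw [hom, div_le_iff₀ (by positivity)]
          refine hr3.trans ?_
          have h13 : 1 / q * w ^ (-σ) ≤ (2 : ℝ) ^ (-(ρ : ℝ)) * (2 * (2 : ℝ) ^ (-(σ * t))) :=
            mul_le_mul hqρ hwinv (by positivity) (by positivity)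
          calc C' * (X ^ 2 / q * w ^ (-σ)) = C' * X ^ 2 * (1 / q * w ^ (-σ)) := by ring
            _ ≤ C' * X ^ 2 * ((2 : ℝ) ^ (-(ρ : ℝ)) * (2 * (2 : ℝ) ^ (-(σ * t)))) :=
              mul_le_mul_of_nonneg_left h13 (by positivity)
            _ = _ := by ring
        have h13 : √om ≤ √(2 * C') * (2 : ℝ) ^ (-((ρ : ℝ) / 2)) * (2 : ℝ) ^ (-(σ * t / 2)) := by
          refine (Real.sqrt_le_sqrt h12).trans (le_of_eq ?_)
          rw [Real.sqrt_mul' _ (by positivity), Real.sqrt_mul' _ (by positivity), hρh]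
          congr 1
          rw [Real.sqrt_eq_rpow, ← Real.rpow_mul two_pos.le]
          congr 1
          ring
        have e1 : X ^ (2 : ℝ) = X ^ 2 := by
          exact_mod_cast Real.rpow_natCast X 2
        rw [hAy, e1]
        calc C₀ * √om * X ^ 2 * (2 : ℝ) ^ (-(z / 2))
            ≤ C₀ * (√(2 * C') * (2 : ℝ) ^ (-((ρ : ℝ) / 2)) * (2 : ℝ) ^ (-(σ * t / 2))) * X ^ 2 *
              (2 : ℝ) ^ (-(z / 2)) := by gcongr
          _ = (C₀ * √(2 * C')) * (X ^ 2 * (2 : ℝ) ^ (-(z / 2)) *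
              (2 : ℝ) ^ (-((ρ : ℝ) / 2)) * (2 : ℝ) ^ (-(σ * t / 2))) := by ring
          _ ≤ (2 * A₀ * C') * (X ^ 2 * (2 : ℝ) ^ (-(z / 2)) *
              (2 : ℝ) ^ (-((ρ : ℝ) / 2)) * (2 : ℝ) ^ (-(σ * t / 2))) :=
              mul_le_mul_of_nonneg_right hB0 (by positivity)
          _ = _ := by ring
      have hθ0 : 0 ≤ 2 / p := by positivity
      have hθ1 : 2 / p ≤ 1 := by
        rw [div_le_one hp0]
        exact hp.le
      set A' : ℝ := 2 * A₀ * C' * X ^ (2 : ℝ) * (2 : ℝ) ^ (-(z / 2)) *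
          (2 : ℝ) ^ (-((ρ : ℝ) / 2)) * (2 : ℝ) ^ (-(σ * t / 2)) with hA'
      set E' : ℝ := 2 * A₀ * C' * (2 : ℝ) ^ (-((ρ : ℝ) / 2)) * (2 : ℝ) ^ (-(σ / 2 * M)) with hE'
      have hA'0 : 0 < A' := by positivity
      have hE'0 : 0 < E' := by positivity
      refine (min_le_min (mul_le_mul_of_nonneg_right hAy' hv)
        (mul_le_mul_of_nonneg_right hEy (Real.sqrt_nonneg v))).trans ?_
      refine (min_le_rpow (mul_nonneg hA'0.le hv) (mul_nonneg hE'0.le (Real.sqrt_nonneg v)) hθ0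
        hθ1).trans (le_of_eq ?_)
      rw [Real.mul_rpow hA'0.le hv, Real.mul_rpow hE'0.le (Real.sqrt_nonneg v), Real.sqrt_eq_rpow,
        ← Real.rpow_mul hv]
      have e2 : v ^ (1 - 2 / p) * v ^ (1 / 2 * (2 / p)) = v ^ (1 - 1 / p) := by
        rw [← Real.rpow_add_of_nonneg hv (by linarith) (by positivity)]
        congr 1
        field_simp
        ring
      have e3 : A' ^ (1 - 2 / p) * E' ^ (2 / p) = 2 * A₀ * C' * X ^ (2 * (1 - 2 / p)) *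
          (2 : ℝ) ^ (-((ρ : ℝ) / 2)) * (2 : ℝ) ^ (2 / p * (-((p / 2 - 1) / 2) * z -
            σ * ((p / 2 - 1) / 2) * t - σ / 2 * M)) := by
        have hB : 0 < 2 * A₀ * C' := by positivity
        rw [hA', hE']
        exact pw (2 * A₀ * C') X z ρ σ t M p hB hX0 hp0
      calc A' ^ (1 - 2 / p) * v ^ (1 - 2 / p) * (E' ^ (2 / p) * v ^ (1 / 2 * (2 / p)))
          = (A' ^ (1 - 2 / p) * E' ^ (2 / p)) * (v ^ (1 - 2 / p) * v ^ (1 / 2 * (2 / p))) := by ring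
        _ = _ := by rw [e2, e3]

end

end SPH
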