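import Pool.Agent.SPH.StC
import Pool.Agent.STZ3.OFD

/-!
# The sphere S²: module RED (MP_bea16e_an)
-/

namespace SPH

open STZ LGR STZ3 MeasureTheory Matrix Filter

open scoped ComplexConjugate Matrix Real Topology

noncomputable section

open STZ3.CLL (BM)

open STZ3.OFD (ct ct_eq)

namespace RED

/-! ### iterated integrals -/

section ints

variable {X Y Z : Type*} [MeasurableSpace X] [MeasurableSpace Y] [MeasurableSpace Z]

theorem bm_sub {f g : X → ℂ} (hf : BM f) (hg : BM g) : BM fun x => f x - g x := by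
  obtain ⟨h1, C1, hC1⟩ := hf
  obtain ⟨h2, C2, hC2⟩ := hg
  exact ⟨h1.sub h2, C1 + C2, fun x => (norm_sub_le _ _).trans (add_le_add (hC1 x) (hC2 x))⟩

theorem bm_add {f g : X → ℂ} (hf : BM f) (hg : BM g) : BM fun x => f x + g x := by
  obtain ⟨h1, C1, hC1⟩ := hf
  obtain ⟨h2, C2, hC2⟩ := hg
  exact ⟨h1.add h2, C1 + C2, fun x => (norm_add_le _ _).trans (add_le_add (hC1 x) (hC2 x))⟩

theorem bm_ind {f : X → ℂ} (hf : BM f) {A : Set X} (hA : MeasurableSet A) : BM (A.indicator f) := by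
  obtain ⟨h1, C1, hC1⟩ := hf
  refine ⟨h1.indicator hA, |C1|, fun x => ?_⟩
  by_cases h : x ∈ A
  · rw [Set.indicator_of_mem h]
    exact (hC1 x).trans (le_abs_self _)
  · rw [Set.indicator_of_notMem h, norm_zero]
    exact abs_nonneg _

theorem int_sub2 (μ : Measure X) (ν : Measure Y) [IsFiniteMeasure μ] [IsFiniteMeasure ν]
    {f g : X × Y → ℂ} (hf : BM f) (hg : BM g) :
    (∫ x, ∫ y, f (x, y) ∂ν ∂μ) - (∫ x, ∫ y, g (x, y) ∂ν ∂μ) =
      ∫ x, ∫ y, (f (x, y) - g (x, y)) ∂ν ∂μ := by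
  rw [← integral_sub ((hf.int ν).integrable μ) ((hg.int ν).integrable μ)]
  refine integral_congr_ae (Eventually.of_forall fun x => ?_)
  exact (integral_sub ((hf.comp (g := fun y => (x, y)) (by fun_prop)).integrable ν)
    ((hg.comp (g := fun y => (x, y)) (by fun_prop)).integrable ν)).symm

theorem int3 (m1 : Measure X) (m2 : Measure Y) (m3 : Measure Z) [IsFiniteMeasure m1]
    [IsFiniteMeasure m2] [IsFiniteMeasure m3] {f : X × Y × Z → ℂ} (hf : BM f) :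
    ∫ x, ∫ y, ∫ z, f (x, y, z) ∂m3 ∂m2 ∂m1 = ∫ p, f p ∂(m1.prod (m2.prod m3)) := by
  rw [integral_prod _ (hf.integrable _)]
  refine integral_congr_ae (Eventually.of_forall fun x => ?_)
  have h1 : BM fun z => f (x, z) := hf.comp (g := fun z => (x, z)) (by fun_prop)
  simp only
  rw [integral_prod _ (h1.integrable _)]

end ints

/-! ### the kernel -/

theorem eu_cont : Continuous eu := by
  unfold eu
  fun_prop

theorem eu_norm (x : ℝ) : ‖eu x‖ = 1 := by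
  unfold eu
  rw [show (2 : ℂ) * π * x * Complex.I = ((2 * π * x : ℝ) : ℂ) * Complex.I by push_cast; ring,
    Complex.norm_exp_ofReal_mul_I]

theorem dz_cont {r : ℕ} (l : Fin r → ℤ) : Continuous fun θ : Fin r → ℝ => dz l θ := by
  unfold dz
  fun_prop

theorem km_cont {r : ℕ} {a : ℝ → (Fin r → ℤ) → ℂ} (ha : ∀ l, Continuous fun τ => a τ l)
    (T : Finset (Fin r → ℤ)) (Ψ : (Fin r → ℤ) → ℝ) :
    Continuous fun z : ℝ × (Fin r → ℝ) => km a T Ψ z.1 z.2 := by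
  unfold km
  refine continuous_finsetSum _ fun l _ => ?_
  exact (((ha l).comp continuous_fst).mul continuous_const).mul
    (eu_cont.comp ((dz_cont l).comp continuous_snd))

theorem km_bd {r : ℕ} {a : ℝ → (Fin r → ℤ) → ℂ} {T : Finset (Fin r → ℤ)} {A₀ : ℝ} (hA₀ : 0 ≤ A₀)
    (ha : ∀ τ, ∀ l ∈ T, ‖a τ l‖ ≤ A₀) {Ψ : (Fin r → ℤ) → ℝ} {C : ℝ} (hΨ : ∀ l, |Ψ l| ≤ C) (τ : ℝ)
    (θ : Fin r → ℝ) : ‖km a T Ψ τ θ‖ ≤ T.card * (A₀ * C) := by
  unfold km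
  refine (norm_sum_le_of_le _ (fun l hl => ?_)).trans (le_of_eq (by rw [Finset.sum_const, nsmul_eq_mul]))
  rw [norm_mul, norm_mul, eu_norm, mul_one, Complex.norm_real, Real.norm_eq_abs]
  exact mul_le_mul (ha τ l hl) (hΨ l) (abs_nonneg _) hA₀

/-! ### the inner form -/

/-- the inner form -/
def I2 {N : ℕ} {H : Subgroup (SU N)} (Hc : Fin 1 → MT N) (μ : Measure H) (k : (Fin 1 → ℝ) → ℂ)
    (F₁ F₂ : H → ℂ) : ℂ :=
  ∫ g, (∫ θ in Set.Icc (0 : Fin 1 → ℝ) 1, k θ * (F₁ g * conj (F₂ (g * tt H Hc θ)))) ∂μ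

section form

variable {N : ℕ} {H : Subgroup (SU N)} [CompactSpace H] [SecondCountableTopology H]
  {Hc : Fin 1 → MT N}

omit [SecondCountableTopology H] in
theorem bd1 {F : H → ℂ} (hF : Continuous F) : ∃ C : ℝ, ∀ g, ‖F g‖ ≤ C := by
  obtain ⟨C, hC⟩ := (isCompact_univ (X := H)).exists_bound_of_continuousOn hF.continuousOn
  exact ⟨C, fun g => hC g (Set.mem_univ _)⟩

omit [SecondCountableTopology H] in
theorem bmI (htt : Continuous (tt H Hc)) {k : (Fin 1 → ℝ) → ℂ} (hk : Continuous k)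
    (kb : ∃ C : ℝ, ∀ θ, ‖k θ‖ ≤ C) {F₁ F₂ : H → ℂ} (h1 : Continuous F₁) (h2 : Continuous F₂) :
    BM fun p : H × (Fin 1 → ℝ) => k p.2 * (F₁ p.1 * conj (F₂ (p.1 * tt H Hc p.2))) := by
  obtain ⟨Ck, hCk⟩ := kb
  obtain ⟨C1, hC1⟩ := bd1 h1
  obtain ⟨C2, hC2⟩ := bd1 h2
  refine ⟨Continuous.stronglyMeasurable ?_, |Ck| * (|C1| * |C2|), fun p => ?_⟩
  · exact (hk.comp continuous_snd).mul ((h1.comp continuous_fst).mul
      (Complex.continuous_conj.comp (h2.comp (continuous_fst.mul (htt.comp continuous_snd)))))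
  · rw [norm_mul, norm_mul, RCLike.norm_conj]
    exact mul_le_mul ((hCk _).trans (le_abs_self _))
      (mul_le_mul ((hC1 _).trans (le_abs_self _)) ((hC2 _).trans (le_abs_self _))
        (norm_nonneg _) (abs_nonneg _)) (by positivity) (abs_nonneg _)

theorem finI : IsFiniteMeasure (volume.restrict (Set.Icc (0 : Fin 1 → ℝ) 1)) :=
  isFiniteMeasure_restrict.2 isCompact_Icc.measure_lt_top.ne

omit [SecondCountableTopology H] in
theorem I2_sub (μ : Measure H) [IsProbabilityMeasure μ] (htt : Continuous (tt H Hc))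
    {k k' : (Fin 1 → ℝ) → ℂ} (hk : Continuous k) (kb : ∃ C : ℝ, ∀ θ, ‖k θ‖ ≤ C)
    (hk' : Continuous k') (kb' : ∃ C : ℝ, ∀ θ, ‖k' θ‖ ≤ C) {F₁ F₂ F₁' F₂' : H → ℂ}
    (h1 : Continuous F₁) (h2 : Continuous F₂) (h1' : Continuous F₁') (h2' : Continuous F₂') :
    I2 Hc μ k F₁ F₂ - I2 Hc μ k' F₁' F₂' = ∫ g, (∫ θ in Set.Icc (0 : Fin 1 → ℝ) 1,
      (k θ * (F₁ g * conj (F₂ (g * tt H Hc θ))) -
        k' θ * (F₁' g * conj (F₂' (g * tt H Hc θ))))) ∂μ := by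
  have hν := finI
  exact int_sub2 μ (volume.restrict (Set.Icc (0 : Fin 1 → ℝ) 1)) (bmI htt hk kb h1 h2)
    (bmI htt hk' kb' h1' h2')

theorem bmI3 (μ : Measure H) [IsProbabilityMeasure μ] (htt : Continuous (tt H Hc))
    {K : ℝ → (Fin 1 → ℝ) → ℂ} (hK : Continuous fun z : ℝ × (Fin 1 → ℝ) => K z.1 z.2)
    (Kb : ∃ C : ℝ, ∀ τ θ, ‖K τ θ‖ ≤ C) {V W : ℝ → H → H → ℂ} (hV : J3 V) (hW : J3 W) :
    BM fun z : ℝ × ℝ × H => I2 Hc μ (K (z.1 - z.2.1)) (V (ct z.2.1) z.2.2) (W (ct z.1) z.2.2) := by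
  have hν := finI
  obtain ⟨Ck, hCk⟩ := Kb
  obtain ⟨C1, hC1⟩ := CLL.bdV V hV
  obtain ⟨C2, hC2⟩ := CLL.bdV W hW
  have hct : Continuous ct := by
    unfold STZ3.OFD.ct
    fun_prop
  have c1 : Continuous fun z : ((ℝ × ℝ × H) × H) × (Fin 1 → ℝ) =>
      K (z.1.1.1 - z.1.1.2.1) z.2 :=
    hK.comp (f := fun z : ((ℝ × ℝ × H) × H) × (Fin 1 → ℝ) => (z.1.1.1 - z.1.1.2.1, z.2))
      (by fun_prop)
  have c2 : Continuous fun z : ((ℝ × ℝ × H) × H) × (Fin 1 → ℝ) =>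
      V (ct z.1.1.2.1) z.1.1.2.2 z.1.2 :=
    Continuous.comp hV (f := fun z : ((ℝ × ℝ × H) × H) × (Fin 1 → ℝ) =>
      (ct z.1.1.2.1, z.1.1.2.2, z.1.2)) (by fun_prop)
  have c3 : Continuous fun z : ((ℝ × ℝ × H) × H) × (Fin 1 → ℝ) =>
      W (ct z.1.1.1) z.1.1.2.2 (z.1.2 * tt H Hc z.2) :=
    Continuous.comp hW (f := fun z : ((ℝ × ℝ × H) × H) × (Fin 1 → ℝ) =>
      (ct z.1.1.1, z.1.1.2.2, z.1.2 * tt H Hc z.2)) (by fun_prop)
  have h5 : BM fun z : ((ℝ × ℝ × H) × H) × (Fin 1 → ℝ) => K (z.1.1.1 - z.1.1.2.1) z.2 *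
      (V (ct z.1.1.2.1) z.1.1.2.2 z.1.2 *
        conj (W (ct z.1.1.1) z.1.1.2.2 (z.1.2 * tt H Hc z.2))) := by
    refine ⟨(c1.mul (c2.mul (Complex.continuous_conj.comp c3))).stronglyMeasurable,
      |Ck| * (|C1| * |C2|), fun z => ?_⟩
    rw [norm_mul, norm_mul, RCLike.norm_conj]
    exact mul_le_mul ((hCk _ _).trans (le_abs_self _))
      (mul_le_mul ((hC1 _ _ _).trans (le_abs_self _)) ((hC2 _ _ _).trans (le_abs_self _))
        (norm_nonneg _) (abs_nonneg _)) (by positivity) (abs_nonneg _)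
  exact (h5.int (volume.restrict (Set.Icc (0 : Fin 1 → ℝ) 1))).int μ

theorem kmf_cont (a : ℝ → (Fin 1 → ℤ) → ℂ) (T : Finset (Fin 1 → ℤ)) (Ψ : (Fin 1 → ℤ) → ℝ) (τ : ℝ) :
    Continuous (km a T Ψ τ) := by
  unfold km
  refine continuous_finsetSum _ fun l _ => ?_
  exact continuous_const.mul (eu_cont.comp (dz_cont l))

theorem kmf_bd (a : ℝ → (Fin 1 → ℤ) → ℂ) (T : Finset (Fin 1 → ℤ)) (Ψ : (Fin 1 → ℤ) → ℝ) (τ : ℝ) :
    ∃ C : ℝ, ∀ θ, ‖km a T Ψ τ θ‖ ≤ C := by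
  refine ⟨∑ l ∈ T, ‖a τ l‖ * |Ψ l|, fun θ => ?_⟩
  unfold km
  refine norm_sum_le_of_le _ fun l _ => ?_
  rw [norm_mul, norm_mul, eu_norm, mul_one, Complex.norm_real, Real.norm_eq_abs]

omit [SecondCountableTopology H] in
theorem I2_km_sub (μ : Measure H) [IsProbabilityMeasure μ] (htt : Continuous (tt H Hc))
    (a : ℝ → (Fin 1 → ℤ) → ℂ) (T : Finset (Fin 1 → ℤ)) (Ψ Ψ' : (Fin 1 → ℤ) → ℝ) (τ : ℝ)
    {F₁ F₂ : H → ℂ} (h1 : Continuous F₁) (h2 : Continuous F₂) :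
    I2 Hc μ (km a T Ψ τ) F₁ F₂ - I2 Hc μ (km a T Ψ' τ) F₁ F₂ =
      I2 Hc μ (km a T (fun l => Ψ l - Ψ' l) τ) F₁ F₂ := by
  rw [I2_sub μ htt (kmf_cont a T Ψ τ) (kmf_bd a T Ψ τ) (kmf_cont a T Ψ' τ) (kmf_bd a T Ψ' τ) h1 h2
    h1 h2]
  unfold I2
  refine integral_congr_ae (Eventually.of_forall fun g => ?_)
  refine integral_congr_ae (Eventually.of_forall fun θ => ?_)
  simp only
  rw [← sub_mul]
  congr 1
  unfold km
  rw [← Finset.sum_sub_distrib]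
  refine Finset.sum_congr rfl fun l _ => ?_
  push_cast
  ring

omit [SecondCountableTopology H] in
theorem I2_left (μ : Measure H) [IsProbabilityMeasure μ] (htt : Continuous (tt H Hc))
    {k : (Fin 1 → ℝ) → ℂ} (hk : Continuous k) (kb : ∃ C : ℝ, ∀ θ, ‖k θ‖ ≤ C)
    {F₁ F₁' F₂ : H → ℂ} (h1 : Continuous F₁) (h1' : Continuous F₁') (h2 : Continuous F₂) :
    I2 Hc μ k F₁ F₂ - I2 Hc μ k F₁' F₂ = I2 Hc μ k (fun g => F₁ g - F₁' g) F₂ := by
  rw [I2_sub μ htt hk kb hk kb h1 h2 h1' h2]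
  unfold I2
  refine integral_congr_ae (Eventually.of_forall fun g => ?_)
  refine integral_congr_ae (Eventually.of_forall fun θ => ?_)
  simp only
  ring

omit [SecondCountableTopology H] in
theorem I2_right (μ : Measure H) [IsProbabilityMeasure μ] (htt : Continuous (tt H Hc))
    {k : (Fin 1 → ℝ) → ℂ} (hk : Continuous k) (kb : ∃ C : ℝ, ∀ θ, ‖k θ‖ ≤ C)
    {F₁ F₂ F₂' : H → ℂ} (h1 : Continuous F₁) (h2 : Continuous F₂) (h2' : Continuous F₂') :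
    I2 Hc μ k F₁ F₂ - I2 Hc μ k F₁ F₂' = I2 Hc μ k F₁ (fun g => F₂ g - F₂' g) := by
  rw [I2_sub μ htt hk kb hk kb h1 h2 h1 h2']
  unfold I2
  refine integral_congr_ae (Eventually.of_forall fun g => ?_)
  refine integral_congr_ae (Eventually.of_forall fun θ => ?_)
  simp only [map_sub]
  ring

omit [SecondCountableTopology H] in
theorem PO_sub (htt : Continuous (tt H Hc)) (ν₁ ν₂ : Measure (Fin 1 → ℝ)) [IsFiniteMeasure ν₁]
    [IsFiniteMeasure ν₂] {F F' : H → ℂ} (h : Continuous F) (h' : Continuous F') (g : H) :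
    PO Hc ν₁ ν₂ (fun g => F g - F' g) g = PO Hc ν₁ ν₂ F g - PO Hc ν₁ ν₂ F' g := by
  have hi : ∀ (ν : Measure (Fin 1 → ℝ)) [IsFiniteMeasure ν] {F : H → ℂ}, Continuous F →
      Integrable (fun s => F (g * tt H Hc s)) ν := by
    intro ν _ F hF
    obtain ⟨C, hC⟩ := bd1 hF
    exact Integrable.of_bound (hF.comp (continuous_const.mul htt)).aestronglyMeasurable C
      (Eventually.of_forall fun s => hC _)
  unfold PO
  rw [integral_sub (hi ν₁ h) (hi ν₁ h'), integral_sub (hi ν₂ h) (hi ν₂ h')]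
  ring

omit [CompactSpace H] in
theorem bm_G (μ : Measure H) [IsProbabilityMeasure μ] {G : ℝ → H → ℂ} (hG : JC G)
    (hG1 : ∀ t y, ‖G t y‖ ≤ 1) : BM fun s : ℝ => ∫ y, ‖G (ct s) y‖ ∂μ := by
  have hct : Continuous ct := by
    unfold STZ3.OFD.ct
    fun_prop
  have h1 : Continuous fun z : ℝ × H => G (ct z.1) z.2 :=
    Continuous.comp hG (f := fun z : ℝ × H => (ct z.1, z.2)) (by fun_prop)
  have h2 : BM fun z : ℝ × H => ‖G (ct z.1) z.2‖ :=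
    ⟨h1.norm.stronglyMeasurable, 1, fun z => by rw [norm_norm]; exact hG1 _ _⟩
  exact h2.int μ

theorem N2_le (μ : Measure H) [IsProbabilityMeasure μ] (ℓ : Measure ℝ) [IsProbabilityMeasure ℓ]
    {F : ℝ → H → H → ℂ} (hF : J3 F) {G : ℝ → H → ℂ} (hG : JC G) (hG1 : ∀ t y, ‖G t y‖ ≤ 1) {c : ℝ}
    (h : ∀ s, ∫ h, ∫ g, ‖F (ct s) h g‖ ^ 2 ∂μ ∂μ ≤ c * ∫ y, ‖G (ct s) y‖ ∂μ) :
    ∫ s, ∫ h, ∫ g, ‖F (ct s) h g‖ ^ 2 ∂μ ∂μ ∂ℓ ≤ c * ∫ s, ∫ y, ‖G (ct s) y‖ ∂μ ∂ℓ := by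
  have h1 := STZ3.OFD.bm_nsq F hF
  have h2 : BM fun s : ℝ => ∫ h, ∫ g, ‖F (ct s) h g‖ ^ 2 ∂μ ∂μ := by
    have h3 : BM fun z : ℝ × H => ∫ g, ‖F (ct z.1) z.2 g‖ ^ 2 ∂μ :=
      (h1.comp (g := fun p : (ℝ × H) × H => (p.1.1, p.1.2, p.2)) (by fun_prop)).int μ
    exact h3.int μ
  rw [← integral_const_mul]
  exact integral_mono (h2.integrable ℓ) (((bm_G μ hG hG1).integrable ℓ).const_mul c) h

omit [CompactSpace H] in
theorem sq_le (μ : Measure H) [IsProbabilityMeasure μ] {F : ℝ → H → H → ℂ} (hF : J3 F)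
    (h1 : ∀ t h g, ‖F t h g‖ ≤ 1) (t : ℝ) :
    ∫ h, ∫ g, ‖F t h g‖ ^ 2 ∂μ ∂μ ≤ ∫ h, ∫ g, ‖F t h g‖ ∂μ ∂μ := by
  have c1 : Continuous fun z : H × H => F t z.1 z.2 :=
    Continuous.comp hF (f := fun z : H × H => (t, z.1, z.2)) (by fun_prop)
  have b1 : BM fun z : H × H => ‖F t z.1 z.2‖ :=
    ⟨c1.norm.stronglyMeasurable, 1, fun z => by rw [norm_norm]; exact h1 _ _ _⟩
  have b2 : BM fun z : H × H => ‖F t z.1 z.2‖ ^ 2 :=
    ⟨(c1.norm.pow 2).stronglyMeasurable, 1, fun z => by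
      rw [norm_pow, norm_norm]; exact pow_le_one₀ (norm_nonneg _) (h1 _ _ _)⟩
  refine integral_mono ((b2.int μ).integrable μ) ((b1.int μ).integrable μ) fun h => ?_
  refine integral_mono ((b2.comp (g := fun g => (h, g)) (by fun_prop)).integrable μ)
    ((b1.comp (g := fun g => (h, g)) (by fun_prop)).integrable μ) fun g => ?_
  exact pow_le_of_le_one (norm_nonneg _) (h1 _ _ _) two_ne_zero

end form

theorem sqrt_mul_le {x y a b M : ℝ} (ha : 0 ≤ a) (hb : 0 ≤ b) (hM : 0 ≤ M) (hx : x ≤ a ^ 2 * M)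
    (hy : y ≤ b ^ 2 * M) : √x * √y ≤ a * b * M := by
  have h1 : √x ≤ a * √M := by
    refine (Real.sqrt_le_sqrt hx).trans (le_of_eq ?_)
    rw [Real.sqrt_mul (by positivity), Real.sqrt_sq ha]
  have h2 : √y ≤ b * √M := by
    refine (Real.sqrt_le_sqrt hy).trans (le_of_eq ?_)
    rw [Real.sqrt_mul (by positivity), Real.sqrt_sq hb]
  calc √x * √y ≤ (a * √M) * (b * √M) := mul_le_mul h1 h2 (Real.sqrt_nonneg _) (by positivity)
    _ = a * b * (√M * √M) := by ring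
    _ = a * b * M := by rw [Real.mul_self_sqrt hM]

end RED

open RED in
theorem t_RED : M_RED := by
  intro _ hPSF hVCN hPLA N H Φ B Hc E c k hCX μ _ _ C₂ hC₂
  have hcs : CompactSpace H := isCompact_iff_compactSpace.1 hCX.closed.isCompact
  have hsec : SecondCountableTopology H :=
    inferInstanceAs (SecondCountableTopology ((H : Set (SU N)) : Type))
  obtain ⟨CP, hCP, P⟩ := hPSF N H 1 Φ B Hc E c k 3 hCX
  have htt := P.tcont
  refine ⟨1 + C₂ + 8 * C₂ ^ 3, by positivity, ?_⟩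
  intro a T Ψ ν₁ ν₂ R κ ρ Bd G A₀ η hac hA₀ ha haΨ hFM hΨ hκ hη0 hη1 hκη hBd hG hG1 hbd
  have hfin₁ := hFM.fin₁
  have hfin₂ := hFM.fin₂
  have hℓ : IsProbabilityMeasure (volume.restrict (Set.Ioc (0 : ℝ) 1)) := by
    refine ⟨?_⟩
    rw [Measure.restrict_apply_univ, Real.volume_Ioc]
    simp
  set ℓ : Measure ℝ := volume.restrict (Set.Ioc (0 : ℝ) 1) with hℓd
  -- the functions
  obtain ⟨hV1, hV2⟩ := hVCN N H 1 Φ B Hc E c k 3 hCX μ
  obtain ⟨jP, jV, hb1, hb2⟩ := hV1 κ ρ G hκ hG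
  have hbP : ∀ t h g, ‖vn κ ρ G t h g‖ ≤ 1 := fun t h g => (hb1 1 hG1 t h g).1
  have hbV : ∀ t h g, ‖VV κ h (G t) g‖ ≤ 1 := fun t h g => (hb1 1 hG1 t h g).2
  set V : ℝ → H → H → ℂ := fun t h g => VV κ h (G t) g with hVd
  set Pn : ℝ → H → H → ℂ := vn κ ρ G with hPd
  set U : ℝ → H → H → ℂ := fun t h g => V t h g - Pn t h g with hUd
  have jU : J3 U := Continuous.sub jV jP
  have jpV : J3 (po Hc ν₁ ν₂ V) := (hV2 ν₁ ν₂ V hfin₁ hfin₂ jV).1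
  have jpP : J3 (po Hc ν₁ ν₂ Pn) := (hV2 ν₁ ν₂ Pn hfin₁ hfin₂ jP).1
  have jpU : J3 (po Hc ν₁ ν₂ U) := (hV2 ν₁ ν₂ U hfin₁ hfin₂ jU).1
  have sec : ∀ {F : ℝ → H → H → ℂ}, J3 F → ∀ t h, Continuous (F t h) := fun {F} hF t h =>
    Continuous.comp hF (f := fun g : H => (t, h, g)) (by fun_prop)
  have epo : ∀ t h, (fun g => po Hc ν₁ ν₂ V t h g - po Hc ν₁ ν₂ Pn t h g) =
      po Hc ν₁ ν₂ U t h := fun t h =>
    funext fun g => (PO_sub htt ν₁ ν₂ (sec jV t h) (sec jP t h) g).symm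
  -- Plancherel
  have pl2 : ∀ (Ψ' : (Fin 1 → ℤ) → ℝ) (τ A : ℝ), 0 ≤ A → (∀ l ∈ T, ‖a τ l‖ * |Ψ' l| ≤ A) →
      ∀ F₁ F₂ : H → ℂ, Continuous F₁ → Continuous F₂ → ‖I2 Hc μ (km a T Ψ' τ) F₁ F₂‖ ≤
        A * (√(∫ g, ‖F₁ g‖ ^ 2 ∂μ) * √(∫ g, ‖F₂ g‖ ^ 2 ∂μ)) := by
    intro Ψ' τ A hA h F₁ F₂ h1 h2
    exact (hPLA N H 1 Φ B Hc E c k 3 hCX μ T (fun l => a τ l * ((Ψ' l : ℝ) : ℂ)) F₁ F₂ h1 h2).2 A hA
      (fun l hl => by
        rw [norm_mul, Complex.norm_real, Real.norm_eq_abs]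
        exact h l hl)
  have pl1 : ∀ (τ : ℝ) (F₁ F₂ : H → ℂ), Continuous F₁ → Continuous F₂ →
      I2 Hc μ (km a T Ψ τ) (PO Hc ν₁ ν₂ F₁) (PO Hc ν₁ ν₂ F₂) =
        I2 Hc μ (km a T (fun l => Ψ l ^ 3) τ) F₁ F₂ := by
    intro τ F₁ F₂ h1 h2
    have h3 := (hPLA N H 1 Φ B Hc E c k 3 hCX μ T (fun l => a τ l * ((Ψ l : ℝ) : ℂ)) F₁ F₂ h1
      h2).1 ν₁ ν₂ ν₁ ν₂ Ψ Ψ hfin₁ hfin₂ hfin₁ hfin₂ hFM.tr hFM.tr
    refine h3.trans ?_
    unfold I2 km
    refine integral_congr_ae (Eventually.of_forall fun g => ?_)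
    refine integral_congr_ae (Eventually.of_forall fun θ => ?_)
    simp only
    congr 1
    refine Finset.sum_congr rfl fun l _ => ?_
    push_cast
    ring
  -- the kernels
  have kΨc := km_cont hac T Ψ
  have kΨb : ∃ C : ℝ, ∀ τ θ, ‖km a T Ψ τ θ‖ ≤ C := ⟨_, km_bd hA₀ ha hΨ⟩
  have k1c := km_cont hac T (fun _ => (1 : ℝ))
  have k1b : ∃ C : ℝ, ∀ τ θ, ‖km a T (fun _ => 1) τ θ‖ ≤ C :=
    ⟨_, km_bd hA₀ ha (Ψ := fun _ => 1) (C := 1) (fun _ => by simp)⟩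
  have haΨ2 : ∀ τ, ∀ l ∈ T, ‖a τ l‖ * |Ψ l| ≤ A₀ * C₂ := fun τ l hl =>
    mul_le_mul (ha τ l hl) (hΨ l) (abs_nonneg _) hA₀
  -- the integrands
  set I1 : ℝ × ℝ × H → ℂ := fun z => I2 Hc μ (km a T (fun _ => 1) (z.1 - z.2.1))
    (V (ct z.2.1) z.2.2) (V (ct z.1) z.2.2) with hI1
  set IVV : ℝ × ℝ × H → ℂ := fun z => I2 Hc μ (km a T Ψ (z.1 - z.2.1))
    (po Hc ν₁ ν₂ V (ct z.2.1) z.2.2) (po Hc ν₁ ν₂ V (ct z.1) z.2.2) with hIVV
  set IPV : ℝ × ℝ × H → ℂ := fun z => I2 Hc μ (km a T Ψ (z.1 - z.2.1))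
    (po Hc ν₁ ν₂ Pn (ct z.2.1) z.2.2) (po Hc ν₁ ν₂ V (ct z.1) z.2.2) with hIPV
  set IPP : ℝ × ℝ × H → ℂ := fun z => I2 Hc μ (km a T Ψ (z.1 - z.2.1))
    (po Hc ν₁ ν₂ Pn (ct z.2.1) z.2.2) (po Hc ν₁ ν₂ Pn (ct z.1) z.2.2) with hIPP
  have b1 : BM I1 := bmI3 μ htt k1c k1b jV jV
  have bVV : BM IVV := bmI3 μ htt kΨc kΨb jpV jpV
  have bPV : BM IPV := bmI3 μ htt kΨc kΨb jpP jpV
  have bPP : BM IPP := bmI3 μ htt kΨc kΨb jpP jpP
  set B3 : Set (ℝ × ℝ × H) := {z | z.2.2 ∈ Bd} with hB3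
  have mB3 : MeasurableSet B3 := (measurable_snd.comp measurable_snd) hBd
  set D1 : ℝ × ℝ × H → ℂ := fun z => I1 z - IVV z with hD1
  set D2 : ℝ × ℝ × H → ℂ := B3ᶜ.indicator IVV with hD2
  set D3 : ℝ × ℝ × H → ℂ := B3.indicator (fun z => IVV z - IPV z) with hD3
  set D4 : ℝ × ℝ × H → ℂ := B3.indicator (fun z => IPV z - IPP z) with hD4
  have bD1 : BM D1 := bm_sub b1 bVV
  have bD2 : BM D2 := bm_ind bVV mB3.compl
  have bD3 : BM D3 := bm_ind (bm_sub bVV bPV) mB3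
  have bD4 : BM D4 := bm_ind (bm_sub bPV bPP) mB3
  -- the forms
  have f1 : TX Hc μ (km a T fun _ => 1) V V = ∫ p, I1 p ∂(ℓ.prod (ℓ.prod μ)) := by
    rw [← int3 ℓ ℓ μ b1]
    unfold TX
    simp only [intervalIntegral.integral_of_le zero_le_one]
    refine setIntegral_congr_fun measurableSet_Ioc fun t ht => ?_
    refine setIntegral_congr_fun measurableSet_Ioc fun s hs => ?_
    simp only [hI1, ct_eq ht, ct_eq hs]
    rfl
  have f2 : TB Hc μ (km a T Ψ) Bd (po Hc ν₁ ν₂ Pn) (po Hc ν₁ ν₂ Pn) =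
      ∫ p, B3.indicator IPP p ∂(ℓ.prod (ℓ.prod μ)) := by
    rw [← int3 ℓ ℓ μ (bm_ind bPP mB3)]
    unfold TB
    simp only [intervalIntegral.integral_of_le zero_le_one]
    refine setIntegral_congr_fun measurableSet_Ioc fun t ht => ?_
    refine setIntegral_congr_fun measurableSet_Ioc fun s hs => ?_
    refine (integral_indicator hBd).symm.trans ?_
    refine integral_congr_ae (Eventually.of_forall fun h => ?_)
    simp only
    by_cases hh : h ∈ Bd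
    · rw [Set.indicator_of_mem hh, Set.indicator_of_mem (show (t, s, h) ∈ B3 from hh)]
      simp only [hIPP, ct_eq ht, ct_eq hs]
      rfl
    · rw [Set.indicator_of_notMem hh, Set.indicator_of_notMem (show (t, s, h) ∉ B3 from hh)]
  have f3 : (∫ p, I1 p ∂(ℓ.prod (ℓ.prod μ))) - ∫ p, B3.indicator IPP p ∂(ℓ.prod (ℓ.prod μ)) =
      (∫ p, D1 p ∂(ℓ.prod (ℓ.prod μ))) + (∫ p, D2 p ∂(ℓ.prod (ℓ.prod μ))) +
        (∫ p, D3 p ∂(ℓ.prod (ℓ.prod μ))) + ∫ p, D4 p ∂(ℓ.prod (ℓ.prod μ)) := by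
    rw [← integral_sub (b1.integrable _) ((bm_ind bPP mB3).integrable _),
      ← integral_add (bD1.integrable _) (bD2.integrable _),
      ← integral_add ((bm_add bD1 bD2).integrable _) (bD3.integrable _),
      ← integral_add ((bm_add (bm_add bD1 bD2) bD3).integrable _) (bD4.integrable _)]
    refine integral_congr_ae (Eventually.of_forall fun z => ?_)
    simp only [hD1, hD2, hD3, hD4]
    by_cases hz : z ∈ B3
    · rw [Set.indicator_of_mem hz, Set.indicator_of_mem hz, Set.indicator_of_mem hz,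
        Set.indicator_of_notMem (show z ∉ B3ᶜ from fun h => h hz)]
      ring
    · rw [Set.indicator_of_notMem hz, Set.indicator_of_notMem hz, Set.indicator_of_notMem hz,
        Set.indicator_of_mem (show z ∈ B3ᶜ from hz)]
      ring
  -- the masses
  set M : ℝ := ∫ s, ∫ y, ‖G (ct s) y‖ ∂μ ∂ℓ with hM
  have hM0 : 0 ≤ M := integral_nonneg fun s => integral_nonneg fun y => norm_nonneg _
  have hMG : M = mG μ G := by
    rw [hM, hℓd]
    unfold mG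
    rw [intervalIntegral.integral_of_le zero_le_one]
    refine setIntegral_congr_fun measurableSet_Ioc fun t ht => ?_
    simp only [ct_eq ht]
  have nG : ∀ t, ∫ y, ‖G t y‖ ^ 2 ∂μ ≤ ∫ y, ‖G t y‖ ∂μ := by
    intro t
    have c1 : Continuous fun y => G t y := Continuous.comp hG (f := fun y : H => (t, y)) (by fun_prop)
    refine integral_mono
      (Integrable.of_bound (c1.norm.pow 2).aestronglyMeasurable 1 (Eventually.of_forall fun y => ?_))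
      (Integrable.of_bound c1.norm.aestronglyMeasurable 1 (Eventually.of_forall fun y => ?_))
      fun y => ?_
    · rw [norm_pow, norm_norm]
      exact pow_le_one₀ (norm_nonneg _) (hG1 _ _)
    · rw [norm_norm]
      exact hG1 _ _
    · exact pow_le_of_le_one (norm_nonneg _) (hG1 _ _) two_ne_zero
  have nV : ∀ t, ∫ h, ∫ g, ‖V t h g‖ ^ 2 ∂μ ∂μ ≤ ∫ y, ‖G t y‖ ∂μ := fun t =>
    (sq_le μ jV hbV t).trans (hb2 t).2.1
  have nP : ∀ t, ∫ h, ∫ g, ‖Pn t h g‖ ^ 2 ∂μ ∂μ ≤ ∫ y, ‖G t y‖ ∂μ := fun t =>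
    (sq_le μ jP hbP t).trans (hb2 t).1
  have hκ0 : 0 ≤ κ.real {z | ρ ^ 2 ≤ ps z} := measureReal_nonneg
  have nU : ∀ t, ∫ h, ∫ g, ‖U t h g‖ ^ 2 ∂μ ∂μ ≤ η ^ 2 * ∫ y, ‖G t y‖ ∂μ := fun t =>
    (hb2 t).2.2.2.trans (mul_le_mul (pow_le_pow_left₀ hκ0 hκη 2) (nG t)
      (integral_nonneg fun y => by positivity) (by positivity))
  have hmass : ν₁.real Set.univ + ν₂.real Set.univ ≤ 2 * C₂ := by
    have := hFM.mass₁
    have := hFM.mass₂
    linarith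
  have hmass0 : 0 ≤ ν₁.real Set.univ + ν₂.real Set.univ := add_nonneg measureReal_nonneg
    measureReal_nonneg
  have nPO : ∀ {F : ℝ → H → H → ℂ}, J3 F → ∀ (cF : ℝ), (∀ t, ∫ h, ∫ g, ‖F t h g‖ ^ 2 ∂μ ∂μ ≤
      cF ^ 2 * ∫ y, ‖G t y‖ ∂μ) → ∀ t, ∫ h, ∫ g, ‖po Hc ν₁ ν₂ F t h g‖ ^ 2 ∂μ ∂μ ≤
      (2 * C₂ * cF) ^ 2 * ∫ y, ‖G t y‖ ∂μ := by
    intro F hF cF h t
    refine ((hV2 ν₁ ν₂ F hfin₁ hfin₂ hF).2.2 t).2.trans ?_
    calc (ν₁.real Set.univ + ν₂.real Set.univ) ^ 2 * ∫ h, ∫ g, ‖F t h g‖ ^ 2 ∂μ ∂μ ≤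
        (2 * C₂) ^ 2 * (cF ^ 2 * ∫ y, ‖G t y‖ ∂μ) :=
          mul_le_mul (pow_le_pow_left₀ hmass0 hmass 2) (h t)
            (integral_nonneg fun h => integral_nonneg fun g => by positivity) (by positivity)
      _ = _ := by ring
  have NV := N2_le μ ℓ jV hG hG1 (c := 1 ^ 2) (fun s => by rw [one_pow, one_mul]; exact nV _)
  have NpV := N2_le μ ℓ jpV hG hG1 (c := (2 * C₂ * 1) ^ 2)
    (fun s => nPO jV 1 (fun t => by rw [one_pow, one_mul]; exact nV t) _)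
  have NpP := N2_le μ ℓ jpP hG hG1 (c := (2 * C₂ * 1) ^ 2)
    (fun s => nPO jP 1 (fun t => by rw [one_pow, one_mul]; exact nP t) _)
  have NpU := N2_le μ ℓ jpU hG hG1 (c := (2 * C₂ * η) ^ 2) (fun s => nPO jU η nU _)
  -- the four bounds
  have e1 : ‖∫ p, D1 p ∂(ℓ.prod (ℓ.prod μ))‖ ≤ (A₀ * η) * (1 * 1 * M) := by
    rw [← int3 ℓ ℓ μ bD1]
    refine (STZ3.OFD.core μ ℓ (fun t s h => D1 (t, s, h)) (fun s h g => ‖V (ct s) h g‖ ^ 2)
      (fun t h g => ‖V (ct t) h g‖ ^ 2) (STZ3.OFD.bm_nsq V jV) (STZ3.OFD.bm_nsq V jV)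
      (fun s h g => by positivity) (fun s h g => by positivity) (A₀ * η) (by positivity)
      ?_).trans ?_
    · intro t s h
      have h1 : D1 (t, s, h) = I2 Hc μ (km a T (fun l => 1 - Ψ l ^ 3) (t - s)) (V (ct s) h)
          (V (ct t) h) := by
        have h2 : IVV (t, s, h) = I2 Hc μ (km a T (fun l => Ψ l ^ 3) (t - s)) (V (ct s) h)
            (V (ct t) h) := pl1 (t - s) _ _ (sec jV _ _) (sec jV _ _)
        simp only [hD1]
        rw [h2]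
        exact I2_km_sub μ htt a T (fun _ => 1) (fun l => Ψ l ^ 3) (t - s) (sec jV _ _)
          (sec jV _ _)
      rw [h1]
      exact pl2 _ _ _ (by positivity) (fun l hl => haΨ _ l hl) _ _ (sec jV _ _) (sec jV _ _)
    · exact mul_le_mul_of_nonneg_left (sqrt_mul_le zero_le_one zero_le_one hM0 NV NV)
        (by positivity)
  have e2 : ‖∫ p, D2 p ∂(ℓ.prod (ℓ.prod μ))‖ ≤ (A₀ * C₂) * (η * η * M) := by
    have bG2 : BM fun z : ℝ × H × H => η ^ 2 * ‖G (ct z.1) z.2.2‖ ^ 2 := by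
      have hct : Continuous ct := by
        unfold STZ3.OFD.ct
        fun_prop
      have h1 : Continuous fun z : ℝ × H × H => G (ct z.1) z.2.2 :=
        Continuous.comp hG (f := fun z : ℝ × H × H => (ct z.1, z.2.2)) (by fun_prop)
      refine ⟨(continuous_const.mul (h1.norm.pow 2)).stronglyMeasurable, η ^ 2 * 1, fun z => ?_⟩
      rw [Real.norm_of_nonneg (by positivity)]
      exact mul_le_mul_of_nonneg_left (pow_le_one₀ (norm_nonneg _) (hG1 _ _)) (by positivity)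
    have NG : ∫ s, ∫ _h : H, ∫ g : H, η ^ 2 * ‖G (ct s) g‖ ^ 2 ∂μ ∂μ ∂ℓ ≤ η ^ 2 * M := by
      rw [hM, ← integral_const_mul]
      have h3 : BM fun s : ℝ => ∫ _h : H, ∫ g : H, η ^ 2 * ‖G (ct s) g‖ ^ 2 ∂μ ∂μ := by
        have h4 : BM fun z : ℝ × H => ∫ g, η ^ 2 * ‖G (ct z.1) g‖ ^ 2 ∂μ :=
          (bG2.comp (g := fun p : (ℝ × H) × H => (p.1.1, p.1.2, p.2)) (by fun_prop)).int μ
        exact h4.int μ
      refine integral_mono (h3.integrable ℓ) (((bm_G μ hG hG1).integrable ℓ).const_mul _)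
        fun s => ?_
      simp only [integral_const_mul, integral_const, probReal_univ, one_smul]
      exact mul_le_mul_of_nonneg_left (nG _) (by positivity)
    rw [← int3 ℓ ℓ μ bD2]
    refine (STZ3.OFD.core μ ℓ (fun t s h => D2 (t, s, h)) (fun s _ g => η ^ 2 * ‖G (ct s) g‖ ^ 2)
      (fun t _ g => η ^ 2 * ‖G (ct t) g‖ ^ 2) bG2 bG2
      (fun s h g => by positivity) (fun s h g => by positivity) (A₀ * C₂) (by positivity)
      ?_).trans ?_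
    · intro t s h
      by_cases hh : h ∈ Bd
      · have h1 : D2 (t, s, h) = 0 := by
          simp only [hD2]
          exact Set.indicator_of_notMem (show (t, s, h) ∉ B3ᶜ from fun h' => h' hh) _
        rw [h1, norm_zero]
        positivity
      · have h1 : D2 (t, s, h) = IVV (t, s, h) := by
          simp only [hD2]
          exact Set.indicator_of_mem (show (t, s, h) ∈ B3ᶜ from hh) _
        rw [h1]
        refine (pl2 _ _ _ (by positivity) (fun l hl => haΨ2 _ l hl) _ _ (sec jpV _ _)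
          (sec jpV _ _)).trans ?_
        refine mul_le_mul_of_nonneg_left ?_ (by positivity)
        have h2 : ∀ t, ∫ g, ‖po Hc ν₁ ν₂ V t h g‖ ^ 2 ∂μ ≤ ∫ g, η ^ 2 * ‖G t g‖ ^ 2 ∂μ :=
          fun t => by
            rw [integral_const_mul]
            exact hbd t h hh
        exact mul_le_mul (Real.sqrt_le_sqrt (h2 _)) (Real.sqrt_le_sqrt (h2 _))
          (Real.sqrt_nonneg _) (Real.sqrt_nonneg _)
    · exact mul_le_mul_of_nonneg_left (sqrt_mul_le hη0 hη0 hM0 NG NG) (by positivity)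
  have e3 : ‖∫ p, D3 p ∂(ℓ.prod (ℓ.prod μ))‖ ≤
      (A₀ * C₂) * ((2 * C₂ * η) * (2 * C₂ * 1) * M) := by
    rw [← int3 ℓ ℓ μ bD3]
    refine (STZ3.OFD.core μ ℓ (fun t s h => D3 (t, s, h))
      (fun s h g => ‖po Hc ν₁ ν₂ U (ct s) h g‖ ^ 2)
      (fun t h g => ‖po Hc ν₁ ν₂ V (ct t) h g‖ ^ 2) (STZ3.OFD.bm_nsq _ jpU)
      (STZ3.OFD.bm_nsq _ jpV)
      (fun s h g => by positivity) (fun s h g => by positivity) (A₀ * C₂) (by positivity)
      ?_).trans ?_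
    · intro t s h
      by_cases hh : h ∈ Bd
      · have h1 : D3 (t, s, h) = I2 Hc μ (km a T Ψ (t - s)) (po Hc ν₁ ν₂ U (ct s) h)
            (po Hc ν₁ ν₂ V (ct t) h) := by
          simp only [hD3]
          rw [Set.indicator_of_mem (show (t, s, h) ∈ B3 from hh)]
          simp only [hIVV, hIPV]
          rw [I2_left μ htt (kmf_cont a T Ψ _) (kmf_bd a T Ψ _) (sec jpV _ _) (sec jpP _ _)
            (sec jpV _ _), epo]
        rw [h1]
        exact pl2 _ _ _ (by positivity) (fun l hl => haΨ2 _ l hl) _ _ (sec jpU _ _) (sec jpV _ _)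
      · have h1 : D3 (t, s, h) = 0 := by
          simp only [hD3]
          exact Set.indicator_of_notMem (show (t, s, h) ∉ B3 from hh) _
        rw [h1, norm_zero]
        positivity
    · exact mul_le_mul_of_nonneg_left (sqrt_mul_le (by positivity) (by positivity) hM0 NpU NpV)
        (by positivity)
  have e4 : ‖∫ p, D4 p ∂(ℓ.prod (ℓ.prod μ))‖ ≤
      (A₀ * C₂) * ((2 * C₂ * 1) * (2 * C₂ * η) * M) := by
    rw [← int3 ℓ ℓ μ bD4]
    refine (STZ3.OFD.core μ ℓ (fun t s h => D4 (t, s, h))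
      (fun s h g => ‖po Hc ν₁ ν₂ Pn (ct s) h g‖ ^ 2)
      (fun t h g => ‖po Hc ν₁ ν₂ U (ct t) h g‖ ^ 2) (STZ3.OFD.bm_nsq _ jpP)
      (STZ3.OFD.bm_nsq _ jpU)
      (fun s h g => by positivity) (fun s h g => by positivity) (A₀ * C₂) (by positivity)
      ?_).trans ?_
    · intro t s h
      by_cases hh : h ∈ Bd
      · have h1 : D4 (t, s, h) = I2 Hc μ (km a T Ψ (t - s)) (po Hc ν₁ ν₂ Pn (ct s) h)
            (po Hc ν₁ ν₂ U (ct t) h) := by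
          simp only [hD4]
          rw [Set.indicator_of_mem (show (t, s, h) ∈ B3 from hh)]
          simp only [hIPV, hIPP]
          rw [I2_right μ htt (kmf_cont a T Ψ _) (kmf_bd a T Ψ _) (sec jpP _ _) (sec jpV _ _)
            (sec jpP _ _), epo]
        rw [h1]
        exact pl2 _ _ _ (by positivity) (fun l hl => haΨ2 _ l hl) _ _ (sec jpP _ _) (sec jpU _ _)
      · have h1 : D4 (t, s, h) = 0 := by
          simp only [hD4]
          exact Set.indicator_of_notMem (show (t, s, h) ∉ B3 from hh) _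
        rw [h1, norm_zero]
        positivity
    · exact mul_le_mul_of_nonneg_left (sqrt_mul_le (by positivity) (by positivity) hM0 NpP NpU)
        (by positivity)
  rw [f1, f2, f3, ← hMG]
  have h5 : η * η * M ≤ η * M := mul_le_mul_of_nonneg_right
    (mul_le_of_le_one_right hη0 hη1) hM0
  have h6 : (A₀ * C₂) * (η * η * M) ≤ (A₀ * C₂) * (η * M) :=
    mul_le_mul_of_nonneg_left h5 (by positivity)
  calc ‖(∫ p, D1 p ∂(ℓ.prod (ℓ.prod μ))) + (∫ p, D2 p ∂(ℓ.prod (ℓ.prod μ))) +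
        (∫ p, D3 p ∂(ℓ.prod (ℓ.prod μ))) + ∫ p, D4 p ∂(ℓ.prod (ℓ.prod μ))‖ ≤
      ‖∫ p, D1 p ∂(ℓ.prod (ℓ.prod μ))‖ + ‖∫ p, D2 p ∂(ℓ.prod (ℓ.prod μ))‖ +
        ‖∫ p, D3 p ∂(ℓ.prod (ℓ.prod μ))‖ + ‖∫ p, D4 p ∂(ℓ.prod (ℓ.prod μ))‖ :=
        (norm_add_le _ _).trans (add_le_add ((norm_add_le _ _).trans
          (add_le_add (norm_add_le _ _) le_rfl)) le_rfl)
    _ ≤ (A₀ * η) * (1 * 1 * M) + (A₀ * C₂) * (η * M) +
        (A₀ * C₂) * ((2 * C₂ * η) * (2 * C₂ * 1) * M) +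
        (A₀ * C₂) * ((2 * C₂ * 1) * (2 * C₂ * η) * M) :=
        add_le_add (add_le_add (add_le_add e1 (e2.trans h6)) e3) e4
    _ = (1 + C₂ + 8 * C₂ ^ 3) * A₀ * η * M := by ring

end

end SPH
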