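import Pool.Agent.SPH.StA

/-!
# RNK: root data of rank one
-/

namespace SPH

open STZ LGR STZ3 MeasureTheory Matrix Filter

open scoped ComplexConjugate Matrix Real Topology

noncomputable section

namespace RNK

/-- the simple root -/
def al : (Fin 1 → ℤ) × (Fin 1 → ℤ) := ((fun _ => 2), fun _ => 1)

theorem b00 {Φ : RT 1} {B : Matrix (Fin 1) (Fin 1) ℤ} (h : IRD Φ B) : B 0 0 = 2 := by
  have h1 := h.two _ (h.base 0)
  simpa [dotProduct] using h1

theorem base_eq {Φ : RT 1} {B : Matrix (Fin 1) (Fin 1) ℤ} (h : IRD Φ B) :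
    ((B 0, Pi.single 0 1) : (Fin 1 → ℤ) × (Fin 1 → ℤ)) = al := by
  unfold al
  refine Prod.ext ?_ ?_
  · funext i
    rw [Subsingleton.elim i 0]
    exact b00 h
  · funext i
    rw [Subsingleton.elim i 0]
    simp

theorem al_mem {Φ : RT 1} {B : Matrix (Fin 1) (Fin 1) ℤ} (h : IRD Φ B) : al ∈ Φ := by
  rw [← base_eq h]
  exact h.base 0

theorem two_roots {Φ : RT 1} {B : Matrix (Fin 1) (Fin 1) ℤ} (h : IRD Φ B)
    (p : (Fin 1 → ℤ) × (Fin 1 → ℤ)) (hp : p ∈ Φ) : p = al ∨ p = (-al.1, -al.2) := by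
  have h1 := h.two p hp
  have h2 : p.2 0 * p.1 0 = 2 := by simpa [dotProduct] using h1
  have h3 : p.2 0 ≠ 0 := by
    intro h4
    rw [h4, zero_mul] at h2
    omega
  refine h.red al (al_mem h) p hp (p.2 0) 1 h3 (Or.inr ?_)
  funext i
  rw [Subsingleton.elim i 0]
  simp [al]

theorem pos_eq {Φ : RT 1} {B : Matrix (Fin 1) (Fin 1) ℤ} (h : IRD Φ B) : pos Φ = {al} := by
  ext p
  unfold pos
  rw [Finset.mem_filter, Finset.mem_singleton]
  constructor
  · rintro ⟨h1, h2⟩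
    rcases two_roots h p h1 with h3 | h3
    · exact h3
    · exfalso
      have h4 := h2 0
      rw [h3] at h4
      simp [al] at h4
  · rintro rfl
    refine ⟨al_mem h, fun i => ?_⟩
    simp [al]

theorem rf_al : rf al = (-1 : Matrix (Fin 1) (Fin 1) ℤ) := by
  ext i j
  rw [Subsingleton.elim i 0, Subsingleton.elim j 0]
  simp [rf, al]

theorem rf_neg_al : rf (-al.1, -al.2) = (-1 : Matrix (Fin 1) (Fin 1) ℤ) := by
  ext i j
  rw [Subsingleton.elim i 0, Subsingleton.elim j 0]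
  simp [rf, al]

theorem ne_neg : (1 : Matrix (Fin 1) (Fin 1) ℤ) ≠ -1 := by
  intro h
  have h1 := congrFun (congrFun h 0) 0
  simp at h1

theorem wf_eq {Φ : RT 1} {B : Matrix (Fin 1) (Fin 1) ℤ} (h : IRD Φ B) (hW : WFF Φ B) :
    WF Φ = {1, -1} := by
  ext w
  rw [hW.mem, Finset.mem_insert, Finset.mem_singleton]
  constructor
  · intro hw
    unfold WM at hw
    induction hw using Submonoid.closure_induction with
    | mem x hx =>
      obtain ⟨p, hp, rfl⟩ := hx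
      rcases two_roots h p hp with h3 | h3
      · rw [h3]
        exact Or.inr rf_al
      · rw [h3]
        exact Or.inr rf_neg_al
    | one => exact Or.inl rfl
    | mul x y _ _ hx hy =>
      rcases hx with rfl | rfl <;> rcases hy with rfl | rfl <;> simp
  · rintro (rfl | rfl)
    · exact Submonoid.one_mem _
    · unfold WM
      refine Submonoid.subset_closure ⟨al, al_mem h, rf_al.symm⟩

theorem sum_wf {α : Type*} [AddCommMonoid α] {Φ : RT 1} {B : Matrix (Fin 1) (Fin 1) ℤ}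
    (h : IRD Φ B) (hW : WFF Φ B) (f : Matrix (Fin 1) (Fin 1) ℤ → α) :
    ∑ w ∈ WF Φ, f w = f 1 + f (-1) := by
  rw [wf_eq h hW, Finset.sum_pair ne_neg]

theorem card_wf {Φ : RT 1} {B : Matrix (Fin 1) (Fin 1) ℤ}
    (h : IRD Φ B) (hW : WFF Φ B) : (WF Φ).card = 2 := by
  rw [wf_eq h hW, Finset.card_pair ne_neg]

theorem det_neg : (-1 : Matrix (Fin 1) (Fin 1) ℤ).det = -1 := by
  rw [Matrix.det_fin_one]
  simp

theorem al_dot (l : Fin 1 → ℤ) : al.2 ⬝ᵥ l = l 0 := by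
  simp [al, dotProduct]

theorem dR_eq {Φ : RT 1} {B : Matrix (Fin 1) (Fin 1) ℤ} (h : IRD Φ B) (l : Fin 1 → ℤ) :
    dR Φ l = l 0 := by
  unfold dR
  rw [pos_eq h, Finset.prod_singleton, Finset.prod_singleton, al_dot, al_dot]
  simp

theorem ip_eq {Φ : RT 1} {B : Matrix (Fin 1) (Fin 1) ℤ} (h : IRD Φ B) (l m : Fin 1 → ℤ) :
    ip Φ l m = 2 * l 0 * m 0 := by
  unfold ip
  have h1 : (rd Φ).A 0 0 = 2 := by
    change ∑ p ∈ pos Φ, 2 * p.2 0 * p.2 0 = 2
    rw [pos_eq h, Finset.sum_singleton]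
    simp [al]
  simp only [dotProduct, mulVec, Finset.univ_unique, Finset.sum_singleton,
    Fin.default_eq_zero, h1]
  push_cast
  ring

theorem q_eq {Φ : RT 1} {B : Matrix (Fin 1) (Fin 1) ℤ} (h : IRD Φ B) (l : Fin 1 → ℤ) :
    (rd Φ).Q l = l 0 ^ 2 := by
  change ∑ p ∈ pos Φ, (p.2 ⬝ᵥ l) ^ 2 = l 0 ^ 2
  rw [pos_eq h, Finset.sum_singleton, al_dot]

end RNK

open RNK in
theorem t_RNK : S_RNK := by
  intro Φ B h hW
  refine ⟨pos_eq h, q_eq h, ?_, ?_, ?_, ?_, ?_⟩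
  · change 2 * (pos Φ).card = 2
    rw [pos_eq h, Finset.card_singleton]
  · intro l θ
    unfold AT
    change ∑ w ∈ WF Φ, (w.det : ℂ) * eu (dz (w *ᵥ l) θ) = _
    rw [sum_wf h hW, det_neg, Matrix.det_one, Matrix.one_mulVec, Matrix.neg_mulVec,
      Matrix.one_mulVec]
    have h1 : dz l θ = l 0 * θ 0 := by simp [dz]
    have h2 : dz (-l) θ = -(l 0 * θ 0) := by simp [dz]
    rw [h1, h2]
    push_cast
    ring
  · intro nf l
    unfold wa
    rw [sum_wf h hW, card_wf h hW, Matrix.one_mulVec, Matrix.neg_mulVec, Matrix.one_mulVec]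
    push_cast
    ring
  · intro ϑ nf l
    unfold lm
    rw [sum_wf h hW, card_wf h hW, det_neg, Matrix.det_one, Matrix.one_mulVec, Matrix.neg_mulVec,
      Matrix.one_mulVec, ip_eq h, ip_eq h, dR_eq h, dR_eq h]
    have h1 : 2 * ϑ * (2 * (l 0 : ℝ) * ((1 : Fin 1 → ℤ) 0 : ℝ)) = 4 * ϑ * l 0 := by
      simp
      ring
    have h2 : 2 * ϑ * (2 * (l 0 : ℝ) * (((-1 : Fin 1 → ℤ) 0 : ℤ) : ℝ)) = -(4 * ϑ * l 0) := by
      simp
      ring
    rw [h1, h2]
    have h3 : (((l + 1) 0 : ℤ) : ℝ) = (l 0 : ℝ) + 1 := by simp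
    have h4 : (((l + -1) 0 : ℤ) : ℝ) = (l 0 : ℝ) - 1 := by
      simp
      ring
    rw [h3, h4, ← sub_eq_add_neg l 1]
    push_cast
    ring
  · intro l m
    unfold cq
    rw [q_eq h, q_eq h, q_eq h]
    push_cast
    simp

end

end SPH
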