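import Pool.Agent.SPH.StC

/-!
# Module RON: the piece `x = Y`
-/

namespace SPH

set_option linter.unusedSectionVars false

open STZ LGR STZ3 MeasureTheory Matrix Filter

open scoped ComplexConjugate Matrix Real Topology

noncomputable section

namespace RON

/-! ### `nd` and the two sets -/

theorem nd_eq (θ : ℝ) : nd θ = ‖(θ : UnitAddCircle)‖ := by
  rw [UnitAddCircle.norm_eq]
  rfl

theorem nd_cont : Continuous nd := by
  have h : nd = fun θ : ℝ => ‖(θ : UnitAddCircle)‖ := funext nd_eq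
  rw [h]
  exact continuous_norm.comp (AddCircle.continuous_mk' 1)

theorem nd_sub (x y : ℝ) : nd (x - y) ≤ nd x + nd y := by
  rw [nd_eq, nd_eq, nd_eq, AddCircle.coe_sub]
  exact norm_sub_le _ _

theorem nd_add (x y : ℝ) : nd (x + y) ≤ nd x + nd y := by
  rw [nd_eq, nd_eq, nd_eq, AddCircle.coe_add]
  exact norm_add_le _ _

theorem nd_le_abs (x : ℝ) : nd x ≤ |x| := by
  have h := round_le x 0
  simpa [nd] using h

/-- the small interval -/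
def qq (a : ℝ) : Set (Fin 1 → ℝ) := Set.Icc 0 fun _ => a

/-- the points near the multiples of one half -/
def ss (b : ℝ) : Set (Fin 1 → ℝ) := {θ | θ ∈ Set.Icc (0 : Fin 1 → ℝ) 1 ∧ nd (2 * θ 0) ≤ b}

theorem qq_meas (a : ℝ) : MeasurableSet (qq a) := measurableSet_Icc

theorem ss_meas (b : ℝ) : MeasurableSet (ss b) := by
  refine MeasurableSet.inter measurableSet_Icc ?_
  have h : Continuous fun θ : Fin 1 → ℝ => nd (2 * θ 0) := nd_cont.comp (by fun_prop)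
  exact measurableSet_le h.measurable measurable_const

theorem qq_sub {a : ℝ} (ha : a ≤ 1) : qq a ⊆ Set.Icc 0 1 := fun _ h =>
  ⟨h.1, fun i => (h.2 i).trans ha⟩

theorem ss_sub (b : ℝ) : ss b ⊆ Set.Icc 0 1 := fun _ h => h.1

theorem qq_vol {a : ℝ} (ha : 0 ≤ a) : volume.real (qq a) = a := by
  rw [qq, Measure.real, Real.volume_Icc_pi]
  simp [ENNReal.toReal_ofReal ha]

theorem ivol (x b : ℝ) :
    volume (Set.Icc (fun _ => x - b / 2 : Fin 1 → ℝ) fun _ => x + b / 2) = ENNReal.ofReal b := by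
  rw [Real.volume_Icc_pi]
  simp

theorem ss_vol {b : ℝ} (hb : 0 ≤ b) : volume.real (ss b) ≤ 3 * b := by
  have h1 : ss b ⊆ (Set.Icc (fun _ => 0 - b / 2 : Fin 1 → ℝ) fun _ => 0 + b / 2) ∪
      ((Set.Icc (fun _ => 1 / 2 - b / 2 : Fin 1 → ℝ) fun _ => 1 / 2 + b / 2) ∪
      (Set.Icc (fun _ => 1 - b / 2 : Fin 1 → ℝ) fun _ => 1 + b / 2)) := by
    rintro θ ⟨h0, h⟩
    have e0 : 0 ≤ θ 0 := h0.1 0
    have e1 : θ 0 ≤ 1 := h0.2 0
    unfold nd at h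
    rw [abs_le] at h
    have hr := abs_le.1 (abs_sub_round (2 * θ 0))
    have hr0 : (-1 : ℝ) < round (2 * θ 0) := by linarith
    have hr1 : (round (2 * θ 0) : ℝ) < 3 := by linarith
    have hr0' : (-1 : ℤ) < round (2 * θ 0) := by exact_mod_cast hr0
    have hr1' : round (2 * θ 0) < (3 : ℤ) := by exact_mod_cast hr1
    have key : ∀ x : ℝ, 2 * x = round (2 * θ 0) →
        θ ∈ Set.Icc (fun _ => x - b / 2 : Fin 1 → ℝ) fun _ => x + b / 2 := by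
      intro x hx
      constructor
      · intro i
        rw [Subsingleton.elim i 0]
        linarith
      · intro i
        rw [Subsingleton.elim i 0]
        linarith
    have h3 : round (2 * θ 0) = 0 ∨ round (2 * θ 0) = 1 ∨ round (2 * θ 0) = 2 := by omega
    rcases h3 with h3 | h3 | h3
    · exact Or.inl (key 0 (by rw [h3]; norm_num))
    · exact Or.inr (Or.inl (key (1 / 2) (by rw [h3]; norm_num)))
    · exact Or.inr (Or.inr (key 1 (by rw [h3]; norm_num)))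
  have h2 : volume (ss b) ≤ ENNReal.ofReal (3 * b) := by
    refine (measure_mono h1).trans ((measure_union_le _ _).trans ?_)
    refine (add_le_add le_rfl (measure_union_le _ _)).trans ?_
    rw [ivol 0, ivol (1 / 2), ivol 1, ← ENNReal.ofReal_add hb hb,
      ← ENNReal.ofReal_add hb (by positivity)]
    exact ENNReal.ofReal_le_ofReal (by linarith)
  rw [Measure.real]
  exact ENNReal.toReal_le_of_le_ofReal (by positivity) h2

/-! ### the kernel -/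

section

variable {r : ℕ}

theorem km_cont {a : ℝ → (Fin r → ℤ) → ℂ} (T : Finset (Fin r → ℤ)) (Ψ : (Fin r → ℤ) → ℝ)
    (ha : ∀ l, Continuous fun τ => a τ l) : Continuous fun z : ℝ × (Fin r → ℝ) => km a T Ψ z.1 z.2 := by
  unfold km
  refine continuous_finsetSum _ fun l _ => ?_
  refine ((((ha l).comp continuous_fst).mul continuous_const).mul ?_)
  unfold eu dz
  fun_prop

theorem eu_int (x : ℝ) (n : ℤ) : eu (x + n) = eu x := by
  unfold eu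
  have : (2 * π * ((x + n : ℝ) : ℂ) * Complex.I : ℂ) = 2 * π * (x : ℂ) * Complex.I + n * (2 * π * Complex.I) := by
    push_cast
    ring
  rw [this, Complex.exp_add, Complex.exp_int_mul_two_pi_mul_I, mul_one]

theorem km_per {a : ℝ → (Fin r → ℤ) → ℂ} (T : Finset (Fin r → ℤ)) (Ψ : (Fin r → ℤ) → ℝ) (τ : ℝ)
    (θ : Fin r → ℝ) (n : Fin r → ℤ) : km a T Ψ τ (θ + fun i => (n i : ℝ)) = km a T Ψ τ θ := by
  unfold km
  refine Finset.sum_congr rfl fun l _ => ?_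
  congr 1
  have : dz l (θ + fun i => (n i : ℝ)) = dz l θ + ((∑ i, l i * n i : ℤ) : ℝ) := by
    unfold dz
    push_cast
    rw [← Finset.sum_add_distrib]
    refine Finset.sum_congr rfl fun i _ => ?_
    simp only [Pi.add_apply]
    ring
  rw [this, eu_int]

end

/-- the box -/
def bx (J : ℕ) : Finset (Fin 1 → ℤ) := Fintype.piFinset fun _ => Finset.Icc (-(3 * 2 ^ J : ℤ)) (3 * 2 ^ J)

theorem bx_mem {J : ℕ} {l : Fin 1 → ℤ} : l ∈ bx J ↔ |l 0| ≤ 3 * 2 ^ J := by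
  rw [bx, Fintype.mem_piFinset, abs_le]
  constructor
  · intro h
    exact Finset.mem_Icc.1 (h 0)
  · intro h a
    rw [Subsingleton.elim a 0]
    exact Finset.mem_Icc.2 h

theorem aS_lm {Φ : RT 1} (hR : R1F Φ) (m Y x e J : ℕ) (τ : ℝ) (l : Fin 1 → ℤ) : aS Φ m Y x e J τ l =
    (((Real.exp (4 * (1 / 2 ^ (x + J)) * l 0) * (l 0 + 1) : ℝ) : ℂ) * nS m Y x e J τ (l 0 + 1) -
      ((Real.exp (-(4 * (1 / 2 ^ (x + J)) * l 0)) * (l 0 - 1) : ℝ) : ℂ) * nS m Y x e J τ (l 0 - 1)) / 2 := by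
  rw [aS, hR.lm]
  rfl

theorem aS_supp {Φ : RT 1} (hR : R1F Φ) {m : ℕ} {C : ℝ} (hN : NSF m C) {Y x e J : ℕ} (he : e ≤ 1)
    (hK : 32 * KS m Y ≤ 2 ^ J) (τ : ℝ) (l : Fin 1 → ℤ) (h : aS Φ m Y x e J τ l ≠ 0) : l ∈ bx J := by
  rw [bx_mem]
  have hJ : (1 : ℤ) ≤ 2 ^ J := one_le_pow₀ (by norm_num)
  rw [aS_lm hR] at h
  by_cases h1 : nS m Y x e J τ (l 0 + 1) = 0
  · by_cases h2 : nS m Y x e J τ (l 0 - 1) = 0
    · exact absurd (by rw [h1, h2]; simp) h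
    · have h3 := (hN.supp Y x e J τ _ he hK h2).2.1
      rw [abs_le] at h3 ⊢
      omega
  · have h3 := (hN.supp Y x e J τ _ he hK h1).2.1
    rw [abs_le] at h3 ⊢
    omega

theorem aS_cont {Φ : RT 1} (hR : R1F Φ) {m : ℕ} {C : ℝ} (hN : NSF m C) (Y x e J : ℕ) (l : Fin 1 → ℤ) :
    Continuous fun τ => aS Φ m Y x e J τ l := by
  have h : (fun τ => aS Φ m Y x e J τ l) = fun τ =>
      (((Real.exp (4 * (1 / 2 ^ (x + J)) * l 0) * (l 0 + 1) : ℝ) : ℂ) * nS m Y x e J τ (l 0 + 1) -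
      ((Real.exp (-(4 * (1 / 2 ^ (x + J)) * l 0)) * (l 0 - 1) : ℝ) : ℂ) * nS m Y x e J τ (l 0 - 1)) / 2 :=
    funext fun τ => aS_lm hR m Y x e J τ l
  rw [h]
  exact ((continuous_const.mul (hN.cont Y x e J _)).sub (continuous_const.mul (hN.cont Y x e J _))).div_const _

theorem aS_bd {Φ : RT 1} (hR : R1F Φ) {m : ℕ} {C : ℝ} (hN : NSF m C) {Y x e J : ℕ} (hx : x ≤ Y)
    (τ : ℝ) (l : Fin 1 → ℤ) (hl : l ∈ bx J) : ‖aS Φ m Y x e J τ l‖ ≤ 4 * Real.exp 12 * C * 2 ^ J := by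
  rw [bx_mem] at hl
  have hJ : (1 : ℝ) ≤ 2 ^ J := one_le_pow₀ (by norm_num)
  have hl' : |(l 0 : ℝ)| ≤ 3 * 2 ^ J := by
    have h := (Int.cast_le (R := ℝ)).2 hl
    push_cast at h
    exact h
  have hC : 0 ≤ C := (norm_nonneg _).trans (hN.bd Y x e J τ 0 hx)
  have hθ : |4 * (1 / 2 ^ (x + J)) * (l 0 : ℝ)| ≤ 12 := by
    rw [abs_mul, abs_of_nonneg (by positivity)]
    have h1 : (1 : ℝ) / 2 ^ (x + J) ≤ 1 / 2 ^ J := by
      apply one_div_le_one_div_of_le (by positivity)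
      exact pow_le_pow_right₀ (by norm_num) (by omega)
    calc 4 * (1 / 2 ^ (x + J)) * |(l 0 : ℝ)| ≤ 4 * (1 / 2 ^ J) * (3 * 2 ^ J) := by gcongr
      _ = 12 := by
        field_simp
        norm_num
  rw [abs_le] at hθ
  have hab := abs_le.1 hl'
  have e1 : ‖(((Real.exp (4 * (1 / 2 ^ (x + J)) * l 0) * (l 0 + 1) : ℝ) : ℂ) * nS m Y x e J τ (l 0 + 1))‖ ≤
      Real.exp 12 * (4 * 2 ^ J) * C := by
    rw [norm_mul, Complex.norm_real, norm_mul, Real.norm_eq_abs, Real.norm_eq_abs, abs_of_pos (Real.exp_pos _)]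
    have h1 : |(l 0 : ℝ) + 1| ≤ 4 * 2 ^ J := by
      rw [abs_le]
      constructor <;> linarith
    have h2 : Real.exp (4 * (1 / 2 ^ (x + J)) * (l 0 : ℝ)) ≤ Real.exp 12 := Real.exp_le_exp.2 hθ.2
    exact mul_le_mul (mul_le_mul h2 h1 (abs_nonneg _) (Real.exp_pos _).le) (hN.bd Y x e J τ _ hx)
      (norm_nonneg _) (by positivity)
  have e2 : ‖(((Real.exp (-(4 * (1 / 2 ^ (x + J)) * l 0)) * (l 0 - 1) : ℝ) : ℂ) * nS m Y x e J τ (l 0 - 1))‖ ≤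
      Real.exp 12 * (4 * 2 ^ J) * C := by
    rw [norm_mul, Complex.norm_real, norm_mul, Real.norm_eq_abs, Real.norm_eq_abs, abs_of_pos (Real.exp_pos _)]
    have h1 : |(l 0 : ℝ) - 1| ≤ 4 * 2 ^ J := by
      rw [abs_le]
      constructor <;> linarith
    have h2 : Real.exp (-(4 * (1 / 2 ^ (x + J)) * (l 0 : ℝ))) ≤ Real.exp 12 :=
      Real.exp_le_exp.2 (by linarith [hθ.1])
    exact mul_le_mul (mul_le_mul h2 h1 (abs_nonneg _) (Real.exp_pos _).le) (hN.bd Y x e J τ _ hx)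
      (norm_nonneg _) (by positivity)
  rw [aS_lm hR, norm_div, Complex.norm_ofNat]
  rw [div_le_iff₀ (by norm_num)]
  refine (norm_sub_le _ _).trans ?_
  linarith

/-- the trivial measures -/
theorem fm_one : FM (r := 1) 1 0 (fun _ => 1) (Measure.dirac 0) 0 := by
  refine ⟨inferInstance, inferInstance, ?_, ?_, ?_, ?_, ?_⟩
  · simp
  · simp
  · have hm : MeasurableSet {s : Fin 1 → ℝ | ∃ i, 1 * 0 < |s i|} := by
      have : {s : Fin 1 → ℝ | ∃ i, 1 * 0 < |s i|} = ⋃ i, {s : Fin 1 → ℝ | 1 * 0 < |s i|} := by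
        ext s
        simp
      rw [this]
      refine MeasurableSet.iUnion fun i => measurableSet_lt measurable_const ?_
      exact (continuous_abs.comp (continuous_apply i)).measurable
    rw [Measure.dirac_apply' _ hm]
    simp
  · simp
  · intro l
    simp [dz, eu]

/-! ### the form -/

section form2

variable {N : ℕ} {H : Subgroup (SU N)} [CompactSpace H] [SecondCountableTopology H]
  (μ : Measure H) [IsProbabilityMeasure μ]

theorem integ {f : H → ℝ} (hf : Continuous f) : Integrable f μ :=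
  hf.integrable_of_hasCompactSupport (HasCompactSupport.of_compactSpace f)

theorem par {X : Type} [TopologicalSpace X] [FirstCountableTopology X] [LocallyCompactSpace X]
    {f : X → H → ℝ} (hf : Continuous fun z : X × H => f z.1 z.2) : Continuous fun t => ∫ x, f t x ∂μ := by
  have h1 : Continuous (Function.uncurry f) := hf
  have h3 := continuous_parametric_integral_of_continuous (μ := μ) h1 (s := Set.univ) isCompact_univ
  simpa only [Measure.restrict_univ] using h3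

theorem c2 {f : ℝ → H → H → ℝ} (hf : Continuous fun z : ℝ × H × H => f z.1 z.2.1 z.2.2) :
    Continuous fun z : ℝ × H => ∫ g, f z.1 z.2 g ∂μ := by
  refine par μ (f := fun (w : ℝ × H) (g : H) => f w.1 w.2 g) ?_
  exact hf.comp (f := fun z : (ℝ × H) × H => (z.1.1, z.1.2, z.2)) (by fun_prop)

theorem c3 {f : ℝ → H → H → ℝ} (hf : Continuous fun z : ℝ × H × H => f z.1 z.2.1 z.2.2) :
    Continuous fun t : ℝ => ∫ h, ∫ g, f t h g ∂μ ∂μ :=
  par μ (f := fun (t : ℝ) (h : H) => ∫ g, f t h g ∂μ) (c2 μ hf)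

theorem cube : (volume : Measure (Fin 1 → ℝ)).real (Set.Icc 0 1) = 1 := by
  rw [Measure.real, Real.volume_Icc_pi]
  simp

/-- the trivial bound of the form -/
theorem tx_small {Hc : Fin 1 → MT N} {ker : ℝ → (Fin 1 → ℝ) → ℂ} {V W : ℝ → H → H → ℂ} {η : ℝ}
    (hη : 0 ≤ η) (hk : ∀ τ θ, ‖ker τ θ‖ ≤ η) (hV : J3 V) (hW : ∀ t h g, ‖W t h g‖ ≤ 1) :
    ‖TX Hc μ ker V W‖ ≤ η * ∫ s in (0 : ℝ)..1, ∫ h, ∫ g, ‖V s h g‖ ∂μ ∂μ := by
  have hVn : Continuous fun z : ℝ × H × H => ‖V z.1 z.2.1 z.2.2‖ := hV.norm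
  have hVη : Continuous fun z : ℝ × H × H => η * ‖V z.1 z.2.1 z.2.2‖ := continuous_const.mul hVn
  have e1 : ∀ t s h g, ‖∫ θ in Set.Icc (0 : Fin 1 → ℝ) 1,
      ker (t - s) θ * (V s h g * conj (W t h (g * tt H Hc θ)))‖ ≤ η * ‖V s h g‖ := by
    intro t s h g
    have h1 := norm_setIntegral_le_of_norm_le_const (μ := (volume : Measure (Fin 1 → ℝ)))
      (s := Set.Icc (0 : Fin 1 → ℝ) 1) (C := η * ‖V s h g‖)
      (f := fun θ => ker (t - s) θ * (V s h g * conj (W t h (g * tt H Hc θ))))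
      (isCompact_Icc.measure_lt_top) (fun θ _ => by
        rw [norm_mul, norm_mul, RCLike.norm_conj]
        have h2 := hk (t - s) θ
        have h3 := hW t h (g * tt H Hc θ)
        have h4 : ‖V s h g‖ * ‖W t h (g * tt H Hc θ)‖ ≤ ‖V s h g‖ :=
          mul_le_of_le_one_right (norm_nonneg _) h3
        exact mul_le_mul h2 h4 (by positivity) hη)
    rw [cube, mul_one] at h1
    exact h1
  have e2 : ∀ t s, ‖∫ h, ∫ g, (∫ θ in Set.Icc (0 : Fin 1 → ℝ) 1,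
      ker (t - s) θ * (V s h g * conj (W t h (g * tt H Hc θ)))) ∂μ ∂μ‖ ≤
      ∫ h, ∫ g, η * ‖V s h g‖ ∂μ ∂μ := by
    intro t s
    refine norm_integral_le_of_norm_le (integ μ ?_) (Filter.Eventually.of_forall fun h => ?_)
    · exact (c2 μ (f := fun s h g => η * ‖V s h g‖) hVη).comp (f := fun x : H => (s, x))
        (by fun_prop)
    · refine norm_integral_le_of_norm_le (integ μ ?_) (Filter.Eventually.of_forall fun g => ?_)
      · exact hVη.comp (f := fun y : H => (s, h, y)) (by fun_prop)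
      · exact e1 t s h g
  have e3 : ∀ t, ‖∫ s in (0 : ℝ)..1, ∫ h, ∫ g, (∫ θ in Set.Icc (0 : Fin 1 → ℝ) 1,
      ker (t - s) θ * (V s h g * conj (W t h (g * tt H Hc θ)))) ∂μ ∂μ‖ ≤
      ∫ s in (0 : ℝ)..1, ∫ h, ∫ g, η * ‖V s h g‖ ∂μ ∂μ := by
    intro t
    refine intervalIntegral.norm_integral_le_of_norm_le zero_le_one
      (Filter.Eventually.of_forall fun s _ => e2 t s) ?_
    exact (c3 μ (f := fun s h g => η * ‖V s h g‖) hVη).intervalIntegrable _ _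
  unfold TX
  have h4 := intervalIntegral.norm_integral_le_of_norm_le_const (a := (0 : ℝ)) (b := 1)
    (C := ∫ s in (0 : ℝ)..1, ∫ h, ∫ g, η * ‖V s h g‖ ∂μ ∂μ)
    (f := fun t => ∫ s in (0 : ℝ)..1, ∫ h, ∫ g, (∫ θ in Set.Icc (0 : Fin 1 → ℝ) 1,
      ker (t - s) θ * (V s h g * conj (W t h (g * tt H Hc θ)))) ∂μ ∂μ) (fun t _ => e3 t)
  rw [sub_zero, abs_one, mul_one] at h4
  refine h4.trans (le_of_eq ?_)
  rw [← intervalIntegral.integral_const_mul]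
  refine intervalIntegral.integral_congr fun s _ => ?_
  simp only [integral_const_mul]

instance : IsProbabilityMeasure ((volume : Measure (Fin 1 → ℝ)).restrict (Set.Icc 0 1)) :=
  ⟨by
    rw [Measure.restrict_apply_univ, Real.volume_Icc_pi]
    simp⟩

instance : IsProbabilityMeasure ((volume : Measure ℝ).restrict (Set.Ioc 0 1)) :=
  ⟨by
    rw [Measure.restrict_apply_univ, Real.volume_Ioc]
    simp⟩

/-- the error term -/
theorem err (τ : (Fin 1 → ℝ) → H) {V W : ℝ → H → H → ℂ} (hV : J3 V) {b B : ℝ}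
    (hVb : ∀ t h g, ‖V t h g‖ ≤ b) (hWb : ∀ t h g, ‖W t h g‖ ≤ B) (L : ℝ → ℝ)
    (hL : Integrable L ((volume : Measure ℝ).restrict (Set.Ioc 0 1)))
    (hVL : ∀ s, ∫ h, ∫ g, ‖V s h g‖ ∂μ ∂μ ≤ L s) :
    ∫ t in (0 : ℝ)..1, ∫ s in (0 : ℝ)..1, ∫ h, ∫ g, (∫ θ in Set.Icc (0 : Fin 1 → ℝ) 1,
        ‖V s h g‖ * ‖W t h (g * τ θ)‖) ∂μ ∂μ ≤ B * ∫ s in (0 : ℝ)..1, L s := by
  have hB : 0 ≤ B := (norm_nonneg _).trans (hWb 0 1 1)
  have hVc : ∀ s, Continuous fun z : H × H => ‖V s z.1 z.2‖ := fun s =>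
    (hV.comp (continuous_const.prodMk continuous_id)).norm
  have hVi : ∀ s, Integrable (fun z : H × H => ‖V s z.1 z.2‖) (μ.prod μ) := fun s =>
    Integrable.of_bound (hVc s).measurable.aestronglyMeasurable b (ae_of_all _ fun z => by
      rw [norm_norm]
      exact hVb _ _ _)
  have h1 : ∀ t s h g, ∫ θ in Set.Icc (0 : Fin 1 → ℝ) 1, ‖V s h g‖ * ‖W t h (g * τ θ)‖ ≤ ‖V s h g‖ * B := by
    intro t s h g
    calc ∫ θ in Set.Icc (0 : Fin 1 → ℝ) 1, ‖V s h g‖ * ‖W t h (g * τ θ)‖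
        ≤ ∫ _ in Set.Icc (0 : Fin 1 → ℝ) 1, ‖V s h g‖ * B := by
          refine integral_mono_of_nonneg (ae_of_all _ fun _ => by positivity) (integrable_const _)
            (ae_of_all _ fun θ => ?_)
          exact mul_le_mul_of_nonneg_left (hWb _ _ _) (norm_nonneg _)
      _ = ‖V s h g‖ * B := by
          rw [integral_const]
          simp
  have h2 : ∀ t s h, ∫ g, (∫ θ in Set.Icc (0 : Fin 1 → ℝ) 1, ‖V s h g‖ * ‖W t h (g * τ θ)‖) ∂μ ≤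
      (∫ g, ‖V s h g‖ ∂μ) * B := by
    intro t s h
    rw [← integral_mul_const]
    refine integral_mono_of_nonneg (ae_of_all _ fun _ => integral_nonneg fun _ => by positivity) ?_
      (ae_of_all _ fun g => h1 t s h g)
    have hc : Continuous fun g : H => ‖V s h g‖ := (hVc s).comp (continuous_const.prodMk continuous_id)
    exact (Integrable.of_bound hc.measurable.aestronglyMeasurable b (ae_of_all _ fun z => by
      rw [norm_norm]
      exact hVb _ _ _)).mul_const _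
  have h3 : ∀ t s, ∫ h, ∫ g, (∫ θ in Set.Icc (0 : Fin 1 → ℝ) 1, ‖V s h g‖ * ‖W t h (g * τ θ)‖) ∂μ ∂μ ≤
      L s * B := by
    intro t s
    refine le_trans ?_ (mul_le_mul_of_nonneg_right (hVL s) hB)
    rw [← integral_mul_const]
    refine integral_mono_of_nonneg (ae_of_all _ fun _ => integral_nonneg fun _ =>
      integral_nonneg fun _ => by positivity) ?_ (ae_of_all _ fun h => h2 t s h)
    exact (hVi s).integral_prod_left.mul_const _
  have h4 : ∀ t, ∫ s in (0 : ℝ)..1, ∫ h, ∫ g, (∫ θ in Set.Icc (0 : Fin 1 → ℝ) 1,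
      ‖V s h g‖ * ‖W t h (g * τ θ)‖) ∂μ ∂μ ≤ B * ∫ s in (0 : ℝ)..1, L s := by
    intro t
    rw [intervalIntegral.integral_of_le zero_le_one, intervalIntegral.integral_of_le zero_le_one,
      ← integral_const_mul]
    refine integral_mono_of_nonneg (ae_of_all _ fun _ => integral_nonneg fun _ =>
      integral_nonneg fun _ => integral_nonneg fun _ => by positivity) (hL.const_mul _)
      (ae_of_all _ fun s => ?_)
    have := h3 t s
    rw [mul_comm] at this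
    exact this
  rw [intervalIntegral.integral_of_le zero_le_one]
  calc _ ≤ ∫ _ in Set.Ioc (0 : ℝ) 1, B * ∫ s in (0 : ℝ)..1, L s := by
        refine integral_mono_of_nonneg (ae_of_all _ fun t => ?_) (integrable_const _)
          (ae_of_all _ fun t => h4 t)
        exact intervalIntegral.integral_nonneg zero_le_one fun _ _ => integral_nonneg fun _ =>
          integral_nonneg fun _ => integral_nonneg fun _ => by positivity
    _ = _ := by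
        rw [integral_const]
        simp

end form2

theorem yr_mem {N : ℕ} {H : Subgroup (SU N)} {r : ℕ} {Φ : RT r} {B : Matrix (Fin r) (Fin r) ℤ}
    {Hc : Fin r → MT N} {E : (Fin r → ℤ) × (Fin r → ℤ) → MT N} (hl : LIF H)
    (hL : LRD H Φ B Hc E) (c : ℝ) (a : {p // p ∈ pos Φ} × Bool) : yr Φ E c a ∈ lie H := by
  unfold yr
  have hp : a.1.1 ∈ Φ := by
    have := a.1.2
    unfold pos at this
    exact (Finset.mem_filter.1 this).1
  have h1 := hL.emem _ hp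
  refine hl.smul _ _ ?_
  split_ifs
  · exact h1.1
  · exact h1.2

/-! ### numbers -/

/-- the powers with the denominator `14` -/
theorem p14 {x : ℝ} (hx : 0 ≤ x) (k : ℕ) : x ^ ((k : ℝ) / 14) = (x ^ ((1 : ℝ) / 14)) ^ k := by
  rw [← Real.rpow_natCast (x ^ ((1 : ℝ) / 14)) k, ← Real.rpow_mul hx]
  congr 1
  ring

/-- the numbers -/
theorem num {q Sv Jv LV s₀ jj L D m : ℝ} (hq : 0 < q) (hS0 : 0 ≤ Sv) (hs0 : 0 ≤ s₀) (hj0 : 0 ≤ jj)
    (hL0 : 0 ≤ L) (hD : 0 ≤ D) (hm : 0 ≤ m) (hJ0 : 0 ≤ Jv) (hLV0 : 0 ≤ LV) (hS : Sv ≤ s₀ * q)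
    (hJ : Jv ≤ jj * q * m ^ 2) (hLV : LV ≤ L * m) :
    1 / q * (D * (q * Sv) ^ ((1 : ℝ) / 7) * (Jv ^ ((4 : ℝ) / 7) * ((q * LV) ^ ((3 : ℝ) / 14) *
      (Sv * LV) ^ ((3 : ℝ) / 14)))) ≤
      D * s₀ ^ ((5 : ℝ) / 14) * jj ^ ((4 : ℝ) / 7) * L ^ ((3 : ℝ) / 7) * q ^ ((2 : ℝ) / 7) *
        m ^ ((11 : ℝ) / 7) := by
  have e1 : (q * Sv) ^ ((1 : ℝ) / 7) ≤ (q * (s₀ * q)) ^ ((1 : ℝ) / 7) :=
    Real.rpow_le_rpow (by positivity) (mul_le_mul_of_nonneg_left hS hq.le) (by norm_num)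
  have e2 : Jv ^ ((4 : ℝ) / 7) ≤ (jj * q * m ^ 2) ^ ((4 : ℝ) / 7) := Real.rpow_le_rpow hJ0 hJ (by norm_num)
  have e3 : (q * LV) ^ ((3 : ℝ) / 14) ≤ (q * (L * m)) ^ ((3 : ℝ) / 14) :=
    Real.rpow_le_rpow (by positivity) (mul_le_mul_of_nonneg_left hLV hq.le) (by norm_num)
  have e4 : (Sv * LV) ^ ((3 : ℝ) / 14) ≤ (s₀ * q * (L * m)) ^ ((3 : ℝ) / 14) :=
    Real.rpow_le_rpow (by positivity) (mul_le_mul hS hLV hLV0 (by positivity)) (by norm_num)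
  have n1 : (1 : ℝ) / 7 = ((2 : ℕ) : ℝ) / 14 := by norm_num
  have n2 : (4 : ℝ) / 7 = ((8 : ℕ) : ℝ) / 14 := by norm_num
  have n3 : (3 : ℝ) / 14 = ((3 : ℕ) : ℝ) / 14 := by norm_num
  have n4 : (5 : ℝ) / 14 = ((5 : ℕ) : ℝ) / 14 := by norm_num
  have n5 : (3 : ℝ) / 7 = ((6 : ℕ) : ℝ) / 14 := by norm_num
  have n6 : (2 : ℝ) / 7 = ((4 : ℕ) : ℝ) / 14 := by norm_num
  have n7 : (11 : ℝ) / 7 = ((22 : ℕ) : ℝ) / 14 := by norm_num
  refine le_trans (mul_le_mul_of_nonneg_left (mul_le_mul (mul_le_mul_of_nonneg_left e1 hD)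
    (mul_le_mul e2 (mul_le_mul e3 e4 (by positivity) (by positivity)) (by positivity) (by positivity))
    (by positivity) (by positivity)) (by positivity : 0 ≤ 1 / q)) (le_of_eq ?_)
  rw [n1, n2, n3, n4, n5, n6, n7]
  rw [Real.mul_rpow hq.le (by positivity), Real.mul_rpow hs0 hq.le, Real.mul_rpow (by positivity) (by positivity),
    Real.mul_rpow hj0 hq.le, Real.mul_rpow hq.le (by positivity), Real.mul_rpow hL0 hm,
    Real.mul_rpow (by positivity) (by positivity), Real.mul_rpow hs0 hq.le, Real.mul_rpow hL0 hm]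
  rw [p14 hq.le, p14 hq.le, p14 hq.le, p14 hq.le, p14 hs0, p14 hs0, p14 hs0, p14 hj0, p14 hL0, p14 hL0,
    p14 hm, p14 hm, p14 (by positivity : 0 ≤ m ^ 2)]
  have hm2 : (m ^ 2) ^ ((1 : ℝ) / 14) = (m ^ ((1 : ℝ) / 14)) ^ 2 := by
    rw [← Real.rpow_natCast (m ^ ((1 : ℝ) / 14)) 2, ← Real.rpow_mul hm, ← Real.rpow_natCast m 2,
      ← Real.rpow_mul hm]
    congr 1
    norm_num
  have hq2 : 1 / q = 1 / (q ^ ((1 : ℝ) / 14)) ^ 14 := by
    rw [← Real.rpow_natCast (q ^ ((1 : ℝ) / 14)) 14, ← Real.rpow_mul hq.le]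
    norm_num
  rw [hm2, hq2]
  have hq3 : q ^ ((1 : ℝ) / 14) ≠ 0 := (Real.rpow_pos_of_pos hq _).ne'
  field_simp

/-! ### the scales -/

theorem two_one {x : ℝ} (hx : 0 ≤ x) : (1 : ℝ) ≤ (2 : ℝ) ^ x := Real.one_le_rpow (by norm_num) hx

theorem two_mono {x y : ℝ} (h : x ≤ y) : (2 : ℝ) ^ x ≤ (2 : ℝ) ^ y :=
  Real.rpow_le_rpow_of_exponent_le (by norm_num) h

theorem two_add (x y : ℝ) : (2 : ℝ) ^ x * (2 : ℝ) ^ y = (2 : ℝ) ^ (x + y) :=
  (Real.rpow_add (by norm_num) x y).symm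

theorem two_nat (n : ℕ) : (2 : ℝ) ^ n = (2 : ℝ) ^ (n : ℝ) := (Real.rpow_natCast 2 n).symm

theorem two_neg (x : ℝ) : (2 : ℝ) ^ (-x) = 1 / (2 : ℝ) ^ x := by
  rw [Real.rpow_neg (by norm_num), one_div]

theorem two_rr (x y : ℝ) : ((2 : ℝ) ^ x) ^ y = (2 : ℝ) ^ (x * y) := (Real.rpow_mul (by norm_num) x y).symm

variable {J Y : ℕ} {ε : ℝ}

/-- the scale -/
theorem F1 (h : (Y : ℝ) ≤ (1 - 12 * ε) * J) : (2 : ℝ) ^ (12 * ε * J) * 2 ^ Y ≤ 2 ^ J := by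
  rw [two_nat, two_nat, two_add]
  exact two_mono (by linarith)

theorem F2 (h : (1 - 12 * ε) * J ≤ Y + 1) : (2 : ℝ) ^ J ≤ 2 * (2 : ℝ) ^ (12 * ε * J) * 2 ^ Y := by
  have h1 : (2 : ℝ) * (2 : ℝ) ^ (12 * ε * J) * 2 ^ Y = (2 : ℝ) ^ (1 + 12 * ε * J + Y) := by
    rw [two_nat, mul_assoc, two_add]
    nth_rewrite 1 [← Real.rpow_one 2]
    rw [two_add]
    congr 1
    ring
  rw [h1, two_nat]
  exact two_mono (by linarith)

/-- the time of the packets -/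
def vt (J Y : ℕ) : ℝ := 1 / 2 ^ (Y + J)

/-- the radius -/
def ra (ε : ℝ) (J Y : ℕ) : ℝ := (2 : ℝ) ^ (2 * ε * J) * √(vt J Y)

theorem vt_pos (J Y : ℕ) : 0 < vt J Y := by
  unfold vt
  positivity

theorem vt_half (hJ : 1 ≤ J) : vt J Y ≤ 1 / 2 := by
  unfold vt
  apply one_div_le_one_div_of_le (by norm_num)
  calc (2 : ℝ) = 2 ^ 1 := by norm_num
    _ ≤ 2 ^ (Y + J) := pow_le_pow_right₀ (by norm_num) (by omega)

theorem ra_pos (ε : ℝ) (J Y : ℕ) : 0 < ra ε J Y := by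
  unfold ra
  have := Real.sqrt_pos.2 (vt_pos J Y)
  positivity

theorem ra_sq (ε : ℝ) (J Y : ℕ) : ra ε J Y ^ 2 = (2 : ℝ) ^ (4 * ε * J) * vt J Y := by
  unfold ra
  rw [mul_pow, Real.sq_sqrt (vt_pos J Y).le, ← Real.rpow_natCast, two_rr]
  congr 2
  push_cast
  ring

theorem ra_div (ε : ℝ) (J Y : ℕ) : vt J Y / ra ε J Y ^ 2 = (2 : ℝ) ^ (-(4 * ε * J)) := by
  rw [ra_sq, two_neg]
  have := (vt_pos J Y).ne'
  field_simp

theorem ra_dvi (ε : ℝ) (J Y : ℕ) : ra ε J Y ^ 2 / vt J Y = (2 : ℝ) ^ (4 * ε * J) := by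
  rw [ra_sq]
  have := (vt_pos J Y).ne'
  field_simp

theorem ra_le (hε : 0 ≤ ε) (h : (Y : ℝ) ≤ (1 - 12 * ε) * J) : ra ε J Y ≤ 5 * (2 : ℝ) ^ (ε * J) / 2 ^ Y := by
  have h0 : (0 : ℝ) ≤ 5 * (2 : ℝ) ^ (ε * J) / 2 ^ Y := by positivity
  refine le_of_sq_le_sq ?_ h0
  rw [ra_sq, vt, div_pow, mul_pow, mul_one_div, div_le_div_iff₀ (by positivity) (by positivity)]
  have h1 := F1 h
  have h2 : (2 : ℝ) ^ (4 * ε * J) = ((2 : ℝ) ^ (ε * J)) ^ 2 * ((2 : ℝ) ^ (ε * J)) ^ 2 := by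
    rw [← Real.rpow_natCast ((2 : ℝ) ^ (ε * J)) 2, two_rr, two_add]
    congr 1
    push_cast
    ring
  have h3 : ((2 : ℝ) ^ (ε * J)) ^ 2 ≤ (2 : ℝ) ^ (12 * ε * J) := by
    rw [← Real.rpow_natCast, two_rr]
    refine two_mono ?_
    push_cast
    have : 0 ≤ ε * J := by positivity
    linarith
  rw [h2, pow_add]
  have h4 : ((2 : ℝ) ^ (ε * J)) ^ 2 * 2 ^ Y ≤ 2 ^ J :=
    (mul_le_mul_of_nonneg_right h3 (by positivity)).trans h1
  calc ((2 : ℝ) ^ (ε * J)) ^ 2 * ((2 : ℝ) ^ (ε * J)) ^ 2 * (2 ^ Y) ^ 2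
      = ((2 : ℝ) ^ (ε * J)) ^ 2 * 2 ^ Y * (((2 : ℝ) ^ (ε * J)) ^ 2 * 2 ^ Y) := by ring
    _ ≤ ((2 : ℝ) ^ (ε * J)) ^ 2 * 2 ^ Y * 2 ^ J := mul_le_mul_of_nonneg_left h4 (by positivity)
    _ ≤ 5 ^ 2 * (((2 : ℝ) ^ (ε * J)) ^ 2 * 2 ^ Y * 2 ^ J) := by
        have : 0 ≤ ((2 : ℝ) ^ (ε * J)) ^ 2 * 2 ^ Y * 2 ^ J := by positivity
        nlinarith
    _ = _ := by ring

theorem rho1_le (hε : ε ≤ 1 / 64) (hJ : 6 ≤ J) (h : (1 - 12 * ε) * J ≤ Y + 1) :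
    5 * (2 : ℝ) ^ (ε * J) / 2 ^ Y ≤ 1 := by
  have hJ' : (6 : ℝ) ≤ J := by exact_mod_cast hJ
  rw [div_le_one (by positivity), two_nat]
  have h1 : (5 : ℝ) ≤ (2 : ℝ) ^ (3 : ℝ) := by
    have : (3 : ℝ) = ((3 : ℕ) : ℝ) := by norm_num
    rw [this, Real.rpow_natCast]
    norm_num
  calc 5 * (2 : ℝ) ^ (ε * J) ≤ (2 : ℝ) ^ (3 : ℝ) * (2 : ℝ) ^ (ε * J) := by gcongr
    _ = (2 : ℝ) ^ (3 + ε * J) := two_add _ _
    _ ≤ _ := two_mono (by nlinarith)

theorem u_le {A : ℝ} {j : ℕ} (hA : 0 ≤ A) (hj : 10 + A ≤ ε * j) :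
    (vt J Y / ra ε J Y ^ 2) ^ j ≤ (2 : ℝ) ^ (-((A + 3) * J)) := by
  rw [ra_div, ← Real.rpow_natCast, two_rr]
  refine two_mono ?_
  have h0 : (0 : ℝ) ≤ J := Nat.cast_nonneg J
  nlinarith [mul_le_mul_of_nonneg_right hj h0]

theorem jr_le {A : ℝ} {j : ℕ} (hA : 0 ≤ A) (hj : 10 + A ≤ ε * j) (hε : 0 ≤ ε)
    (h : (Y : ℝ) ≤ (1 - 12 * ε) * J) :
    (ra ε J Y ^ 2 / vt J Y) ^ ((3 : ℝ) / 2) / ra ε J Y ^ 2 +
      vt J Y ^ (-((3 : ℝ) / 2)) * (vt J Y / ra ε J Y ^ 2) ^ j ≤ 2 * (2 : ℝ) ^ (2 * ε * J) * 2 ^ (Y + J) := by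
  have h0 : (0 : ℝ) ≤ J := Nat.cast_nonneg J
  have e1 : (ra ε J Y ^ 2 / vt J Y) ^ ((3 : ℝ) / 2) / ra ε J Y ^ 2 = (2 : ℝ) ^ (2 * ε * J) * 2 ^ (Y + J) := by
    rw [ra_dvi, ra_sq, two_rr, vt]
    have h1 : (2 : ℝ) ^ (4 * ε * J * (3 / 2)) = (2 : ℝ) ^ (2 * ε * J) * (2 : ℝ) ^ (4 * ε * J) := by
      rw [two_add]
      congr 1
      ring
    rw [h1]
    have h2 : (2 : ℝ) ^ (4 * ε * J) ≠ 0 := by positivity
    field_simp
  have e2 : vt J Y ^ (-((3 : ℝ) / 2)) * (vt J Y / ra ε J Y ^ 2) ^ j ≤ (2 : ℝ) ^ (2 * ε * J) * 2 ^ (Y + J) := by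
    have h1 : vt J Y = (2 : ℝ) ^ (-((Y : ℝ) + J)) := by
      rw [vt, two_neg, two_nat]
      push_cast
      rfl
    have h2 := u_le (J := J) (Y := Y) hA hj
    calc vt J Y ^ (-((3 : ℝ) / 2)) * (vt J Y / ra ε J Y ^ 2) ^ j
        ≤ vt J Y ^ (-((3 : ℝ) / 2)) * (2 : ℝ) ^ (-((A + 3) * J)) :=
          mul_le_mul_of_nonneg_left h2 (Real.rpow_nonneg (vt_pos J Y).le _)
      _ = (2 : ℝ) ^ (((Y : ℝ) + J) * (3 / 2) - (A + 3) * J) := by
          rw [h1, two_rr, two_add]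
          congr 1
          ring
      _ ≤ (2 : ℝ) ^ ((2 * ε * J) + ((Y : ℝ) + J)) := by
          refine two_mono ?_
          nlinarith [mul_nonneg hA h0, mul_nonneg hε h0]
      _ = _ := by
          rw [← two_add, two_nat (Y + J)]
          push_cast
          rfl
  linarith

/-- the powers of the scale -/
theorem expo {CK CS CL : ℝ} (hK : 0 ≤ CK) (hS : 0 ≤ CS) (hL : 0 ≤ CL) (hε : 0 ≤ ε)
    (h : (1 - 12 * ε) * J ≤ Y + 1) :
    CK * (2 : ℝ) ^ (ε * J) * (2 ^ J / 2 ^ Y) * (9 * (2 : ℝ) ^ (4 * ε * J)) ^ ((5 : ℝ) / 14) *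
      (CS * ((2 : ℝ) ^ (3 * ε * J) * 2 ^ J)) ^ ((4 : ℝ) / 7) * CL ^ ((3 : ℝ) / 7) *
      ((2 : ℝ) ^ (-(3 * ε * J)) / 2 ^ Y) ^ ((2 : ℝ) / 7) ≤
    CK * 2 * (9 : ℝ) ^ ((5 : ℝ) / 14) * CS ^ ((4 : ℝ) / 7) * CL ^ ((3 : ℝ) / 7) * (2 : ℝ) ^ ((2 : ℝ) / 7) *
      ((2 : ℝ) ^ (20 * ε * J) * (2 : ℝ) ^ ((2 : ℝ) / 7 * J)) := by
  have h0 : (0 : ℝ) ≤ J := Nat.cast_nonneg J
  have hεJ : 0 ≤ ε * J := mul_nonneg hε h0
  have h2 := F2 h
  have e1 : (2 : ℝ) ^ J / 2 ^ Y ≤ 2 * (2 : ℝ) ^ (12 * ε * J) := by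
    rw [div_le_iff₀ (by positivity)]
    exact h2
  have e2 : (2 : ℝ) ^ (-(3 * ε * J)) / 2 ^ Y ≤ 2 * (2 : ℝ) ^ (12 * ε * J - J) := by
    have e3 : (2 : ℝ) ^ (-(3 * ε * J)) ≤ 1 := by
      rw [two_neg, div_le_one (by positivity)]
      exact two_one (by nlinarith)
    have e4 : 2 * (2 : ℝ) ^ (12 * ε * J - J) = 2 * (2 : ℝ) ^ (12 * ε * J) / 2 ^ J := by
      rw [sub_eq_add_neg, ← two_add, two_neg, two_nat J]
      ring
    rw [e4, div_le_div_iff₀ (by positivity) (by positivity)]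
    calc (2 : ℝ) ^ (-(3 * ε * J)) * 2 ^ J ≤ 1 * 2 ^ J := by gcongr
      _ ≤ _ := by rw [one_mul]; exact h2
  have f1 : (9 * (2 : ℝ) ^ (4 * ε * J)) ^ ((5 : ℝ) / 14) =
      (9 : ℝ) ^ ((5 : ℝ) / 14) * (2 : ℝ) ^ (4 * ε * J * (5 / 14)) := by
    rw [Real.mul_rpow (by norm_num) (by positivity), two_rr]
  have f2 : (CS * ((2 : ℝ) ^ (3 * ε * J) * 2 ^ J)) ^ ((4 : ℝ) / 7) =
      CS ^ ((4 : ℝ) / 7) * (2 : ℝ) ^ ((3 * ε * J + J) * (4 / 7)) := by
    rw [Real.mul_rpow hS (by positivity), two_nat J, two_add, two_rr]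
  have f3 : ((2 : ℝ) ^ (-(3 * ε * J)) / 2 ^ Y) ^ ((2 : ℝ) / 7) ≤
      (2 : ℝ) ^ ((2 : ℝ) / 7) * (2 : ℝ) ^ ((12 * ε * J - J) * (2 / 7)) := by
    refine (Real.rpow_le_rpow (by positivity) e2 (by norm_num)).trans (le_of_eq ?_)
    rw [Real.mul_rpow (by norm_num) (by positivity), two_rr]
  have f4 : CK * (2 : ℝ) ^ (ε * J) * (2 ^ J / 2 ^ Y) ≤ CK * 2 * (2 : ℝ) ^ (13 * ε * J) := by
    calc CK * (2 : ℝ) ^ (ε * J) * (2 ^ J / 2 ^ Y) ≤ CK * (2 : ℝ) ^ (ε * J) * (2 * (2 : ℝ) ^ (12 * ε * J)) :=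
          mul_le_mul_of_nonneg_left e1 (by positivity)
      _ = CK * 2 * ((2 : ℝ) ^ (ε * J) * (2 : ℝ) ^ (12 * ε * J)) := by ring
      _ = _ := by
          rw [two_add]
          congr 2
          ring
  rw [f1, f2]
  have g0 : 0 ≤ CS ^ ((4 : ℝ) / 7) := Real.rpow_nonneg hS _
  have g1 : 0 ≤ CL ^ ((3 : ℝ) / 7) := Real.rpow_nonneg hL _
  calc CK * (2 : ℝ) ^ (ε * J) * (2 ^ J / 2 ^ Y) * ((9 : ℝ) ^ ((5 : ℝ) / 14) * (2 : ℝ) ^ (4 * ε * J * (5 / 14))) *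
        (CS ^ ((4 : ℝ) / 7) * (2 : ℝ) ^ ((3 * ε * J + J) * (4 / 7))) * CL ^ ((3 : ℝ) / 7) *
        ((2 : ℝ) ^ (-(3 * ε * J)) / 2 ^ Y) ^ ((2 : ℝ) / 7)
      ≤ CK * 2 * (2 : ℝ) ^ (13 * ε * J) * ((9 : ℝ) ^ ((5 : ℝ) / 14) * (2 : ℝ) ^ (4 * ε * J * (5 / 14))) *
        (CS ^ ((4 : ℝ) / 7) * (2 : ℝ) ^ ((3 * ε * J + J) * (4 / 7))) * CL ^ ((3 : ℝ) / 7) *
        ((2 : ℝ) ^ ((2 : ℝ) / 7) * (2 : ℝ) ^ ((12 * ε * J - J) * (2 / 7))) := by
        gcongr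
    _ = CK * 2 * (9 : ℝ) ^ ((5 : ℝ) / 14) * CS ^ ((4 : ℝ) / 7) * CL ^ ((3 : ℝ) / 7) * (2 : ℝ) ^ ((2 : ℝ) / 7) *
        ((2 : ℝ) ^ (13 * ε * J) * (2 : ℝ) ^ (4 * ε * J * (5 / 14)) * (2 : ℝ) ^ ((3 * ε * J + J) * (4 / 7)) *
          (2 : ℝ) ^ ((12 * ε * J - J) * (2 / 7))) := by ring
    _ ≤ _ := by
        refine mul_le_mul_of_nonneg_left ?_ (by positivity)
        rw [two_add, two_add, two_add, two_add]
        exact two_mono (by nlinarith)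

end RON

theorem t_RON : M_RON := by
  intro hLIE hWF hTAU hPSF hEXI hTAI hVCN hL2N hRNK hNSX hKLS hKBS hNRS hRED hCLB hKHB hJSS hJR1
  intro N H Φ B Hc E c k hX μ _ _ χ hχ
  have hI := hX.lrd.ird
  have hW := hWF 1 Φ B hI
  have hR := hRNK Φ B hI hW
  have hcs : CompactSpace H := isCompact_iff_compactSpace.1 hX.closed.isCompact
  have hsc : SecondCountableTopology H :=
    TopologicalSpace.Subtype.secondCountableTopology (H : Set (SU N))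
  refine ⟨20, by norm_num, ?_⟩
  intro m C₁ ε A hm hC hε hε8 hA hmA
  -- the constants
  obtain ⟨j, hj⟩ : ∃ j : ℕ, 10 + A ≤ ε * j := by
    obtain ⟨j, hj⟩ := exists_nat_ge ((10 + A) / ε)
    exact ⟨j, by rwa [div_le_iff₀' hε] at hj⟩
  obtain ⟨CT, hCT, hTA⟩ := hTAI N H 1 Φ B Hc E c k 3 hX j
  obtain ⟨CR, hCR, hRE⟩ := hRED N H Φ B Hc E c k hX μ 1 zero_le_one
  obtain ⟨CL, hCL, hL2⟩ := hL2N N H 1 Φ B Hc E c k 3 hX μ j 1 zero_le_one
  obtain ⟨CK, hCK, hKL⟩ := hKLS m C₁ 1 ε A hm hC zero_le_one hε (by linarith) hA (by linarith)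
  obtain ⟨CB, hCB, hKB⟩ := hKBS m C₁ 1 ε hm hC zero_le_one hε
  obtain ⟨CS, hCS, hJS⟩ := hJSS N H Φ B Hc E c k hX μ 1 zero_le_one
  obtain ⟨C4, hC4, hJR⟩ := hJR1 N H Φ B Hc E c k hX μ j
  have hN := hNSX m C₁ hm hC
  obtain ⟨hVC, hPO⟩ := hVCN N H 1 Φ B Hc E c k 3 hX μ
  obtain ⟨J₀, hJ₀⟩ := exists_nat_ge (CT + 6)
  have hC₁ : 0 ≤ 2 * C₁ := (norm_nonneg _).trans (hN.bd 0 0 0 0 0 0 le_rfl)
  set Ca : ℝ := 4 * Real.exp 12 * (2 * C₁) with hCa
  have hCa0 : 0 ≤ Ca := by positivity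
  set Cf : ℝ := CB * 2 * (9 : ℝ) ^ ((5 : ℝ) / 14) * (CS * (C4 * 10)) ^ ((4 : ℝ) / 7) * (2 * CL) ^ ((3 : ℝ) / 7) *
    (2 : ℝ) ^ ((2 : ℝ) / 7) with hCf
  have hCf0 : 0 ≤ Cf := by positivity
  set C0 : ℝ := CK * 2 ^ (2 * J₀) * (2 : ℝ) ^ (A * J₀) with hC0
  have hC00 : 0 ≤ C0 := by positivity
  refine ⟨C0 + CR * Ca * CT + CK + Cf, by positivity, ?_⟩
  intro J Y e F G hJ hY hY2 hKS he hF hG hG1 hTI
  have hJr : (0 : ℝ) ≤ J := Nat.cast_nonneg J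
  have hYJ : Y ≤ J := by
    have h1 : (Y : ℝ) ≤ J := hY.trans (by nlinarith)
    exact_mod_cast h1
  have hmG0 : 0 ≤ mG μ G := by
    unfold mG
    exact intervalIntegral.integral_nonneg zero_le_one fun t _ => integral_nonneg fun y => norm_nonneg _
  have hAJ : 0 ≤ (2 : ℝ) ^ (-(A * J)) * mG μ G := by positivity
  have hsec : 0 ≤ (2 : ℝ) ^ (20 * ε * J) * ((2 : ℝ) ^ ((2 : ℝ) / 7 * J) * mG μ G ^ ((11 : ℝ) / 7)) := by
    positivity
  -- the packet measure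
  obtain ⟨κ, hκ⟩ := hEXI N H hX.closed _ (fun a => ((√(RON.vt J Y / k) : ℝ) : ℂ) • yr Φ E c a)
    (fun a => (hLIE N H hX.closed).smul _ _ (RON.yr_mem (hLIE N H hX.closed) hX.lrd c a))
  have hPM : PM H Φ E c k (RON.vt J Y) κ := hκ
  have hκp := hκ.prob
  have hvt0 := RON.vt_pos J Y
  have hvt1 := RON.vt_half (J := J) (Y := Y) hJ
  have hra0 := RON.ra_pos ε J Y
  obtain ⟨hVJ, hUJ, hVb, hVi⟩ := hVC κ (RON.ra ε J Y) G hκp hG
  set T : Finset (Fin 1 → ℤ) := RON.bx J with hT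
  have haT : ∀ τ l, aS Φ m Y Y e J τ l ≠ 0 → l ∈ T := fun τ l h => RON.aS_supp hR hN he hKS τ l h
  have haC : ∀ l, Continuous fun τ => aS Φ m Y Y e J τ l := RON.aS_cont hR hN Y Y e J
  have hNR := hNRS N H Φ B Hc E c k hX μ χ hχ m C₁ hm hC J Y Y e T F κ G le_rfl haT hF hPM hG
  set ker := km (aS Φ m Y Y e J) T fun _ => 1 with hker
  have hkl : ∀ (τ : ℝ) (θ : Fin 1 → ℝ), ‖ker τ θ‖ ≤ CK * 2 ^ (2 * J) ∧
      ((∀ s : Fin 1 → ℝ, (∀ i, |s i| ≤ 1 * 0) → θ + s ∉ sS ε J Y Y) → ‖ker τ θ‖ ≤ CK * (2 : ℝ) ^ (-(A * J))) :=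
    hKL Φ J Y Y e T (fun _ => 1) (Measure.dirac 0) 0 0 hR hJ le_rfl (hY.trans (by nlinarith)) hKS he haT
      RON.fm_one
  rw [hNR]
  rcases lt_or_ge J J₀ with hJJ | hJJ
  · -- small scales
    have h1 := RON.tx_small μ (Hc := Hc) (ker := ker) (η := CK * 2 ^ (2 * J)) (by positivity)
      (fun τ θ => (hkl τ θ).1) hUJ fun t h g => (hVb 1 hG1 t h g).2
    have h2 : ∫ s in (0 : ℝ)..1, ∫ h, ∫ g, ‖VV κ h (G s) g‖ ∂μ ∂μ ≤ mG μ G := by
      unfold mG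
      refine intervalIntegral.integral_mono_on zero_le_one ?_ ?_ fun t _ => (hVi t).2.1
      · exact (RON.c3 μ (f := fun t h g => ‖VV κ h (G t) g‖) hUJ.norm).intervalIntegrable _ _
      · refine (RON.par μ (f := fun t x => ‖G t x‖) ?_).intervalIntegrable _ _
        have h5 : Continuous fun z : ℝ × H => G z.1 z.2 := hG
        exact h5.norm
    have h4 : (2 : ℝ) ^ (2 * J) ≤ 2 ^ (2 * J₀) := pow_le_pow_right₀ (by norm_num) (by omega)
    have h5 : (1 : ℝ) ≤ (2 : ℝ) ^ (A * J₀) * (2 : ℝ) ^ (-(A * J)) := by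
      rw [RON.two_add]
      refine RON.two_one ?_
      have : (J : ℝ) ≤ J₀ := by exact_mod_cast hJJ.le
      nlinarith
    have h6 : CK * 2 ^ (2 * J) * mG μ G ≤ C0 * ((2 : ℝ) ^ (-(A * J)) * mG μ G) := by
      calc CK * 2 ^ (2 * J) * mG μ G ≤ CK * 2 ^ (2 * J₀) * mG μ G := by gcongr
        _ ≤ CK * 2 ^ (2 * J₀) * mG μ G * ((2 : ℝ) ^ (A * J₀) * (2 : ℝ) ^ (-(A * J))) :=
            le_mul_of_one_le_right (by positivity) h5
        _ = _ := by rw [hC0]; ring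
    calc _ ≤ CK * 2 ^ (2 * J) * mG μ G := h1.trans (mul_le_mul_of_nonneg_left h2 (by positivity))
      _ ≤ C0 * ((2 : ℝ) ^ (-(A * J)) * mG μ G) := h6
      _ ≤ _ := by
          have g1 : 0 ≤ CR * Ca * CT := by positivity
          nlinarith [mul_nonneg g1 hAJ, mul_nonneg hCK hAJ, mul_nonneg hCf0 hAJ,
            mul_nonneg (add_nonneg (add_nonneg (add_nonneg hC00 g1) hCK) hCf0) hsec]
  · -- large scales
    have hJ6 : 6 ≤ J := by
      have h1 : (6 : ℝ) ≤ J := by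
        have : (J₀ : ℝ) ≤ J := by exact_mod_cast hJJ
        linarith
      exact_mod_cast h1
    set η : ℝ := CT * (2 : ℝ) ^ (-((A + 3) * J)) with hη
    have hη0 : 0 ≤ η := by positivity
    have hη1 : η ≤ 1 := by
      have h1 : CT ≤ J := by
        have : (J₀ : ℝ) ≤ J := by exact_mod_cast hJJ
        linarith
      have h2 : (J : ℝ) ≤ 2 ^ J := by exact_mod_cast (Nat.lt_two_pow_self (n := J)).le
      have h3 : (2 : ℝ) ^ (-((A + 3) * J)) ≤ (2 : ℝ) ^ (-(J : ℝ)) := RON.two_mono (by nlinarith)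
      calc η ≤ 2 ^ J * (2 : ℝ) ^ (-(J : ℝ)) := mul_le_mul (h1.trans h2) h3 (by positivity) (by positivity)
        _ = 1 := by
            rw [RON.two_nat, RON.two_add, add_neg_cancel, Real.rpow_zero]
    have hκη : κ.real {z | RON.ra ε J Y ^ 2 ≤ ps z} ≤ η :=
      (hTA (RON.vt J Y) κ hvt0 (by linarith) (Or.inl hPM) (RON.ra ε J Y) hra0).trans
        (mul_le_mul_of_nonneg_left (RON.u_le hA hj) hCT)
    set V := po Hc (Measure.dirac 0) 0 (vn κ (RON.ra ε J Y) G) with hV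
    have hfm := RON.fm_one
    have hred := hRE (aS Φ m Y Y e J) T (fun _ => 1) (Measure.dirac 0) 0 0 κ (RON.ra ε J Y) Set.univ G
      (Ca * 2 ^ J) η haC (by positivity) (fun τ l hl => RON.aS_bd hR hN le_rfl τ l hl)
      (fun τ l hl => by
        simp only [one_pow, sub_self, abs_zero, mul_zero]
        positivity) hfm (fun l => by simp) hκp hη0 hη1 hκη MeasurableSet.univ hG hG1
      (fun t h hh => absurd (Set.mem_univ h) hh)
    rw [← hV] at hred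
    -- continuity and bounds of `V`
    obtain ⟨hVJ', hVb', hVi'⟩ := hPO (Measure.dirac 0) 0 (vn κ (RON.ra ε J Y) G) hfm.fin₁ hfm.fin₂ hVJ
    rw [← hV] at hVJ' hVb' hVi'
    have hmass : (Measure.dirac (0 : Fin 1 → ℝ)).real Set.univ + (0 : Measure (Fin 1 → ℝ)).real Set.univ = 1 := by
      simp
    have hV1 : ∀ t h g, ‖V t h g‖ ≤ 1 := fun t h g => by
      have h1 := hVb' 1 (fun t h g => (hVb 1 hG1 t h g).1) t h g
      rwa [hmass, one_mul] at h1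
    have hVL : ∀ s, ∫ h, ∫ g, ‖V s h g‖ ∂μ ∂μ ≤ ∫ y, ‖G s y‖ ∂μ := fun s => by
      have h1 := (hVi' s).1
      rw [hmass, one_mul] at h1
      exact h1.trans (hVi s).1
    have hLi : Integrable (fun s => ∫ y, ‖G s y‖ ∂μ) ((volume : Measure ℝ).restrict (Set.Ioc 0 1)) := by
      have hi : Integrable (fun z : ℝ × H => ‖G z.1 z.2‖) (((volume : Measure ℝ).restrict (Set.Ioc 0 1)).prod μ) :=
        Integrable.of_bound (Continuous.norm hG).measurable.aestronglyMeasurable 1 (ae_of_all _ fun z => by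
          rw [norm_norm]
          exact hG1 _ _)
      exact hi.integral_prod_left
    have hE : ∫ t in (0 : ℝ)..1, ∫ s in (0 : ℝ)..1, ∫ h, ∫ g, (∫ θ in Set.Icc (0 : Fin 1 → ℝ) 1,
        ‖V s h g‖ * ‖V t h (g * tt H Hc θ)‖) ∂μ ∂μ ≤ mG μ G := by
      refine (RON.err μ (tt H Hc) hVJ' hV1 hV1 (fun s => ∫ y, ‖G s y‖ ∂μ) hLi hVL).trans (le_of_eq ?_)
      rw [one_mul]
      rfl
    -- the cells
    set a : ℝ := (2 : ℝ) ^ (-(3 * ε * J)) / 2 ^ Y with ha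
    set b : ℝ := 3 * (2 : ℝ) ^ (ε * J) / 2 ^ Y with hb
    have hεJ : 0 ≤ ε * J := by positivity
    have ha0 : 0 < a := by positivity
    have hb0 : 0 ≤ b := by positivity
    have hY1 : (1 : ℝ) ≤ 2 ^ Y := one_le_pow₀ (by norm_num)
    have haY : a ≤ 1 / 2 ^ Y := by
      rw [ha, RON.two_neg]
      have h1 : (1 : ℝ) / (2 : ℝ) ^ (3 * ε * J) ≤ 1 := by
        rw [div_le_one (by positivity)]
        exact RON.two_one (by nlinarith)
      exact div_le_div_of_nonneg_right h1 (by positivity)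
    have ha1 : a ≤ 1 := haY.trans (by rw [div_le_one (by positivity)]; exact hY1)
    have hεJ1 : (1 : ℝ) ≤ (2 : ℝ) ^ (ε * J) := RON.two_one hεJ
    have haε : a ≤ (2 : ℝ) ^ (ε * J) / 2 ^ Y := haY.trans (div_le_div_of_nonneg_right hεJ1 (by positivity))
    set Q := RON.qq a with hQ
    set S := RON.ss b with hS
    have hQv : volume.real Q = a := RON.qq_vol ha0.le
    have hQ0 : 0 < volume.real Q := by rw [hQv]; exact ha0
    have hnd : ∀ φ ∈ Q, nd (2 * φ 0) ≤ 2 * a := by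
      intro φ hφ
      have e0 : 0 ≤ φ 0 := hφ.1 0
      have e1 : φ 0 ≤ a := hφ.2 0
      refine (RON.nd_le_abs _).trans ?_
      rw [abs_of_nonneg (by positivity)]
      linarith
    have hcl := hCLB N H Φ B Hc E c k hX μ ker V V Set.univ Q S (CK * (2 : ℝ) ^ (-(A * J)))
      (RON.km_cont T _ haC) (fun τ θ n => RON.km_per T _ τ θ n) hVJ' hVJ' MeasurableSet.univ (RON.qq_meas a)
      (RON.ss_meas b) (RON.qq_sub ha1) (RON.ss_sub b) hQ0 (by positivity)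
      (fun φ hφ θ hθ hθS τ => by
        refine (hkl τ (θ - φ)).2 fun s hs hmem => hθS ⟨hθ, ?_⟩
        have hs0 : s 0 = 0 := by
          have h1 := hs 0
          rw [mul_zero] at h1
          exact abs_eq_zero.1 (le_antisymm h1 (abs_nonneg _))
        have h1 := hmem.1
        have h2 : nd (2 * θ 0) ≤ nd (2 * ((θ - φ + s) 0)) + nd (2 * φ 0) := by
          have h3 := RON.nd_add (2 * ((θ - φ + s) 0)) (2 * φ 0)
          have h4 : 2 * ((θ - φ + s) 0) + 2 * φ 0 = 2 * θ 0 := by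
            simp only [Pi.add_apply, Pi.sub_apply, hs0]
            ring
          rwa [h4] at h3
        have h3 := hnd φ hφ
        rw [hb]
        calc nd (2 * θ 0) ≤ (2 : ℝ) ^ (ε * J) / 2 ^ Y + 2 * a := by linarith
          _ ≤ (2 : ℝ) ^ (ε * J) / 2 ^ Y + 2 * ((2 : ℝ) ^ (ε * J) / 2 ^ Y) := by linarith
          _ = _ := by ring)
    set I := ∫ h in Set.univ, ∫ g, (∫ t in (0 : ℝ)..1, ∫ s in (0 : ℝ)..1,
        ∫ φ in Set.Icc (0 : Fin 1 → ℝ) 1, ∫ θ in Set.Icc (0 : Fin 1 → ℝ) 1,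
          ker (t - s) (θ - φ) * (uq Hc Q V h g s φ * conj (uq Hc S V h g t θ))) ∂μ ∂μ with hIdef
    -- Hölder
    have hkb := hKB Φ J Y Y e T (fun _ => 1) hR hJ le_rfl hYJ hKS he (fun l => by simp)
    set D : ℝ := CB * (2 : ℝ) ^ (ε * J) * (2 ^ J / 2 ^ Y) with hD
    have hD0 : 0 ≤ D := by positivity
    have hkh := hKHB N H Φ B Hc E c k hX μ ker D 1 V V Set.univ Q S hkb hD0 hVJ' hVJ' hV1 hV1 MeasurableSet.univ
      (RON.qq_meas a) (RON.ss_meas b) (RON.qq_sub ha1) (RON.ss_sub b)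
    rw [← hIdef] at hkh
    set JV : ℝ := ∫ h in Set.univ, ∫ g, (∫ t in (0 : ℝ)..1, ∫ φ in Q, ‖V t h (g * tt H Hc φ)‖) *
      (∫ t in (0 : ℝ)..1, ∫ θ in S, ‖V t h (g * tt H Hc θ)‖) ∂μ ∂μ with hJV
    set LV : ℝ := ∫ t in (0 : ℝ)..1, ∫ h, ∫ g, ‖V t h g‖ ^ 2 ∂μ ∂μ with hLV
    have hLV0 : 0 ≤ LV := intervalIntegral.integral_nonneg zero_le_one fun _ _ =>
      integral_nonneg fun _ => integral_nonneg fun _ => by positivity
    have hJV0 : 0 ≤ JV := integral_nonneg fun _ => integral_nonneg fun _ => mul_nonneg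
      (intervalIntegral.integral_nonneg zero_le_one fun _ _ => integral_nonneg fun _ => norm_nonneg _)
      (intervalIntegral.integral_nonneg zero_le_one fun _ _ => integral_nonneg fun _ => norm_nonneg _)
    -- the `L¹` norm
    set ρ₁ : ℝ := 5 * (2 : ℝ) ^ (ε * J) / 2 ^ Y with hρ₁
    have hjr := hJR (RON.vt J Y) (RON.ra ε J Y) ρ₁ κ hvt0 hvt1 hra0 (RON.ra_le hε.le hY)
      (RON.rho1_le hε8 hJ6 hY2) hPM
    set DJ : ℝ := C4 * ρ₁ * ((RON.ra ε J Y ^ 2 / RON.vt J Y) ^ ((3 : ℝ) / 2) / RON.ra ε J Y ^ 2 +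
      RON.vt J Y ^ (-((3 : ℝ) / 2)) * (RON.vt J Y / RON.ra ε J Y ^ 2) ^ j) with hDJ
    have hDJ0 : 0 ≤ DJ := by
      have h1 : 0 ≤ RON.vt J Y ^ (-((3 : ℝ) / 2)) := Real.rpow_nonneg hvt0.le _
      have h2 : 0 ≤ (RON.ra ε J Y ^ 2 / RON.vt J Y) ^ ((3 : ℝ) / 2) := Real.rpow_nonneg (by positivity) _
      positivity
    have hJV1 := hJS κ (RON.ra ε J Y) 0 DJ Set.univ {θ | nd (2 * θ 0) ≤ ρ₁} (Measure.dirac 0) 0 (fun _ => 1) Q S G
      hκp hDJ0 le_rfl hjr hfm MeasurableSet.univ (RON.qq_meas a) (RON.ss_meas b) (RON.qq_sub ha1) (RON.ss_sub b)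
      (fun φ hφ θ hθ s hs => by
        have hs0 : s 0 = 0 := by
          have h1 := hs 0
          rw [mul_zero] at h1
          exact abs_eq_zero.1 (le_antisymm h1 (abs_nonneg _))
        have h1 := RON.nd_sub (2 * θ 0) (2 * φ 0)
        have h2 := hnd φ hφ
        have h3 : nd (2 * θ 0) ≤ b := hθ.2
        have h4 : 2 * ((θ - φ + s) 0) = 2 * θ 0 - 2 * φ 0 := by
          simp only [Pi.add_apply, Pi.sub_apply, hs0]
          ring
        change nd (2 * ((θ - φ + s) 0)) ≤ ρ₁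
        rw [h4, hρ₁]
        calc nd (2 * θ 0 - 2 * φ 0) ≤ b + 2 * a := by linarith
          _ ≤ 3 * (2 : ℝ) ^ (ε * J) / 2 ^ Y + 2 * ((2 : ℝ) ^ (ε * J) / 2 ^ Y) := by rw [hb]; linarith
          _ = _ := by ring) hG hG1 hTI
    rw [← hV, ← hJV] at hJV1
    have hDJ1 : DJ ≤ C4 * 10 * ((2 : ℝ) ^ (3 * ε * J) * 2 ^ J) := by
      have h1 := RON.jr_le (J := J) (Y := Y) hA hj hε.le hY
      calc DJ ≤ C4 * ρ₁ * (2 * (2 : ℝ) ^ (2 * ε * J) * 2 ^ (Y + J)) :=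
            mul_le_mul_of_nonneg_left h1 (by positivity)
        _ = C4 * 10 * (((2 : ℝ) ^ (ε * J) * (2 : ℝ) ^ (2 * ε * J)) * 2 ^ J) := by
            rw [hρ₁, pow_add]
            field_simp
            ring
        _ = _ := by
            rw [RON.two_add]
            congr 3
            ring
    have hJV2 : JV ≤ CS * (C4 * 10) * ((2 : ℝ) ^ (3 * ε * J) * 2 ^ J) * a * mG μ G ^ 2 := by
      refine hJV1.trans ?_
      rw [hQv]
      calc CS * a * DJ * mG μ G ^ 2 ≤ CS * a * (C4 * 10 * ((2 : ℝ) ^ (3 * ε * J) * 2 ^ J)) * mG μ G ^ 2 := by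
            gcongr
        _ = _ := by ring
    -- the `L²` norm
    have hLV1 : LV ≤ 2 * CL * mG μ G := by
      have h1 := hL2 (RON.vt J Y) (RON.ra ε J Y) 0 1 κ (Measure.dirac 0) 0 (fun _ => 1) G hvt0 hvt1 hra0 hPM hfm
        (fun l => by
          rw [one_pow, one_mul]
          refine Finset.prod_induction _ (fun x : ℝ => 1 ≤ x) (fun x y hx hy => one_le_mul_of_one_le_of_one_le hx hy)
            le_rfl fun p _ => ?_
          have : 0 ≤ RON.vt J Y * ((p.2 ⬝ᵥ l : ℤ) : ℝ) ^ 2 := by positivity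
          linarith) hG hG1
      rw [← hV, ← hLV] at h1
      refine h1.trans ?_
      have h2 : (RON.vt J Y / RON.ra ε J Y ^ 2) ^ j ≤ 1 := by
        refine (RON.u_le (J := J) (Y := Y) hA hj).trans ?_
        rw [← Real.rpow_zero 2]
        refine RON.two_mono ?_
        nlinarith
      calc CL * (1 + (RON.vt J Y / RON.ra ε J Y ^ 2) ^ j) * mG μ G ≤ CL * (1 + 1) * mG μ G := by gcongr
        _ = _ := by ring
    -- the sets
    have hSv : volume.real S ≤ 9 * (2 : ℝ) ^ (4 * ε * J) * a := by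
      refine (RON.ss_vol hb0).trans (le_of_eq ?_)
      have h1 : (2 : ℝ) ^ (ε * J) = (2 : ℝ) ^ (4 * ε * J) * (2 : ℝ) ^ (-(3 * ε * J)) := by
        rw [RON.two_add]
        congr 1
        ring
      rw [hb, ha, h1]
      ring
    have hnum := RON.num (q := a) (Sv := volume.real S) (Jv := JV) (LV := LV) (s₀ := 9 * (2 : ℝ) ^ (4 * ε * J))
      (jj := CS * (C4 * 10) * ((2 : ℝ) ^ (3 * ε * J) * 2 ^ J)) (L := 2 * CL) (D := D) (m := mG μ G) ha0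
      measureReal_nonneg (by positivity) (by positivity) (by positivity) hD0 hmG0 hJV0 hLV0 hSv hJV2 hLV1
    have hexpo := RON.expo (J := J) (Y := Y) (ε := ε) (CK := CB) (CS := CS * (C4 * 10)) (CL := 2 * CL) hCB
      (by positivity) (by positivity) hε.le hY2
    rw [← hD, ← ha, ← hCf] at hexpo
    have hmain : 1 / volume.real Q * ‖I‖ ≤
        Cf * ((2 : ℝ) ^ (20 * ε * J) * (2 : ℝ) ^ ((2 : ℝ) / 7 * J)) * mG μ G ^ ((11 : ℝ) / 7) := by
      rw [hQv] at hkh ⊢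
      calc 1 / a * ‖I‖ ≤ 1 / a * (D * (a * volume.real S) ^ ((1 : ℝ) / 7) *
            (JV ^ ((4 : ℝ) / 7) * ((a * LV) ^ ((3 : ℝ) / 14) * (volume.real S * LV) ^ ((3 : ℝ) / 14)))) :=
            mul_le_mul_of_nonneg_left hkh (by positivity)
        _ ≤ _ := hnum
        _ ≤ _ := mul_le_mul_of_nonneg_right hexpo (by positivity)
    have herr1 : CR * (Ca * 2 ^ J) * η * mG μ G ≤ CR * Ca * CT * ((2 : ℝ) ^ (-(A * J)) * mG μ G) := by
      have h1 : (2 : ℝ) ^ J * (2 : ℝ) ^ (-((A + 3) * J)) ≤ (2 : ℝ) ^ (-(A * J)) := by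
        rw [RON.two_nat, RON.two_add]
        exact RON.two_mono (by nlinarith)
      calc CR * (Ca * 2 ^ J) * η * mG μ G = CR * Ca * CT * mG μ G * ((2 : ℝ) ^ J * (2 : ℝ) ^ (-((A + 3) * J))) := by
            rw [hη]
            ring
        _ ≤ CR * Ca * CT * mG μ G * (2 : ℝ) ^ (-(A * J)) := mul_le_mul_of_nonneg_left h1 (by positivity)
        _ = _ := by ring
    have herr2 : CK * (2 : ℝ) ^ (-(A * J)) * ∫ t in (0 : ℝ)..1, ∫ s in (0 : ℝ)..1, ∫ h, ∫ g,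
        (∫ θ in Set.Icc (0 : Fin 1 → ℝ) 1, ‖V s h g‖ * ‖V t h (g * tt H Hc θ)‖) ∂μ ∂μ ≤
        CK * ((2 : ℝ) ^ (-(A * J)) * mG μ G) := by
      refine (mul_le_mul_of_nonneg_left hE (by positivity)).trans (le_of_eq ?_)
      ring
    have htri : ∀ x y : ℂ, ‖x‖ ≤ ‖x - y‖ + ‖y‖ := fun x y => by
      have h1 := norm_add_le (x - y) y
      rwa [sub_add_cancel] at h1
    refine (htri _ (TB Hc μ ker Set.univ V V)).trans ?_
    have h9 := hcl.trans (add_le_add hmain herr2)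
    have g1 : 0 ≤ CR * Ca * CT := by positivity
    have g2 := mul_nonneg hC00 hAJ
    have g3 := mul_nonneg hCf0 hAJ
    have g4 := mul_nonneg (add_nonneg (add_nonneg hC00 g1) hCK) hsec
    nlinarith [hred, h9, herr1]

end

end SPH
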