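import Pool.Agent.SPH.StC
import Pool.Agent.STZ.TTX

/-!
# Module RTW: the pieces with `x < Y` (helper37)
-/

set_option autoImplicit false
set_option linter.unusedSectionVars false
set_option linter.unusedVariables false

namespace SPH

open STZ LGR STZ3 MeasureTheory Matrix Filter

open scoped ComplexConjugate Matrix Real Topology

noncomputable section

namespace RTW

/-! ### the distance to the integers -/

theorem nd_eq (θ : ℝ) : nd θ = ‖(θ : UnitAddCircle)‖ := by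
  rw [UnitAddCircle.norm_eq]
  rfl

theorem nd_cont : Continuous nd := by
  have h : nd = fun θ : ℝ => ‖(θ : UnitAddCircle)‖ := funext nd_eq
  rw [h]
  exact continuous_norm.comp (AddCircle.continuous_mk' 1)

theorem nd_nn (x : ℝ) : 0 ≤ nd x := abs_nonneg _

theorem nd_le_abs (x : ℝ) : nd x ≤ |x| := by
  have h := round_le x 0
  simpa [nd] using h

theorem nd_lip (x y : ℝ) : |nd x - nd y| ≤ |x - y| := by
  have h1 : |nd x - nd y| ≤ nd (x - y) := by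
    rw [nd_eq, nd_eq, nd_eq, AddCircle.coe_sub]
    exact abs_norm_sub_norm_le _ _
  exact h1.trans (nd_le_abs _)

theorem nd_move {x y c : ℝ} (h : |x - y| ≤ c) : nd x ≤ nd y + c ∧ nd y ≤ nd x + c := by
  have h1 := abs_le.1 ((nd_lip x y).trans h)
  constructor <;> linarith [h1.1, h1.2]

theorem nd_half (u c : ℝ) (h1 : c ≤ nd u) (h2 : c ≤ nd (u - 1 / 2)) : c ≤ nd (2 * u) := by
  have h0 : nd (2 * u) = |2 * u - round (2 * u)| := rfl
  rcases Int.even_or_odd' (round (2 * u)) with ⟨k, hk | hk⟩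
  · have h3 : nd u ≤ |u - k| := round_le u k
    have h4 : |2 * u - round (2 * u)| = 2 * |u - k| := by
      rw [hk, ← abs_two (α := ℝ), ← abs_mul, abs_two]
      congr 1
      push_cast
      ring
    rw [h0, h4]
    have := abs_nonneg (u - k)
    linarith
  · have h3 : nd (u - 1 / 2) ≤ |u - 1 / 2 - k| := round_le (u - 1 / 2) k
    have h4 : |2 * u - round (2 * u)| = 2 * |u - 1 / 2 - k| := by
      rw [hk, ← abs_two (α := ℝ), ← abs_mul, abs_two]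
      congr 1
      push_cast
      ring
    rw [h0, h4]
    have := abs_nonneg (u - 1 / 2 - k)
    linarith

/-! ### powers of two -/

theorem two_rpow_le {a b : ℝ} (h : a ≤ b) : (2 : ℝ) ^ a ≤ (2 : ℝ) ^ b :=
  Real.rpow_le_rpow_of_exponent_le (by norm_num) h

theorem pos2 (a : ℝ) : (0 : ℝ) < (2 : ℝ) ^ a := Real.rpow_pos_of_pos (by norm_num) a

theorem add2 (a b : ℝ) : (2 : ℝ) ^ a * (2 : ℝ) ^ b = (2 : ℝ) ^ (a + b) :=
  (Real.rpow_add (by norm_num) a b).symm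

theorem pw2 (a b : ℝ) : ((2 : ℝ) ^ a) ^ b = (2 : ℝ) ^ (a * b) := (Real.rpow_mul (by norm_num) a b).symm

theorem pn2 (a : ℝ) (n : ℕ) : ((2 : ℝ) ^ a) ^ n = (2 : ℝ) ^ (a * n) := by
  rw [← Real.rpow_natCast, pw2]

theorem nat2 (n : ℕ) : (2 : ℝ) ^ n = (2 : ℝ) ^ (n : ℝ) := (Real.rpow_natCast 2 n).symm

/-! ### the kernel -/

theorem km_cont {r : ℕ} {a : ℝ → (Fin r → ℤ) → ℂ} (T : Finset (Fin r → ℤ)) (Ψ : (Fin r → ℤ) → ℝ)
    (ha : ∀ l, Continuous fun τ => a τ l) : Continuous fun z : ℝ × (Fin r → ℝ) => km a T Ψ z.1 z.2 := by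
  unfold km
  refine continuous_finsetSum _ fun l _ => ?_
  refine ((((ha l).comp continuous_fst).mul continuous_const).mul ?_)
  unfold eu dz
  fun_prop

theorem eu_int (x : ℝ) (n : ℤ) : eu (x + n) = eu x := by
  unfold eu
  have : (2 * π * ((x + n : ℝ) : ℂ) * Complex.I : ℂ) = 2 * π * (x : ℂ) * Complex.I + n * (2 * π * Complex.I) := by
    push_cast
    ring
  rw [this, Complex.exp_add, Complex.exp_int_mul_two_pi_mul_I, mul_one]

theorem km_per {r : ℕ} {a : ℝ → (Fin r → ℤ) → ℂ} (T : Finset (Fin r → ℤ)) (Ψ : (Fin r → ℤ) → ℝ) (τ : ℝ)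
    (θ : Fin r → ℝ) (n : Fin r → ℤ) : km a T Ψ τ (θ + fun i => (n i : ℝ)) = km a T Ψ τ θ := by
  unfold km
  refine Finset.sum_congr rfl fun l _ => ?_
  congr 1
  have : dz l (θ + fun i => (n i : ℝ)) = dz l θ + ((∑ i, l i * n i : ℤ) : ℝ) := by
    unfold dz
    push_cast
    rw [← Finset.sum_add_distrib]
    refine Finset.sum_congr rfl fun i _ => ?_
    simp only [Pi.add_apply]
    ring
  rw [this, eu_int]

theorem norm_eu (x : ℝ) : ‖eu x‖ = 1 := by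
  unfold eu
  rw [Complex.norm_exp]
  simp

theorem km_triv {r : ℕ} {a : ℝ → (Fin r → ℤ) → ℂ} (T : Finset (Fin r → ℤ)) {A₀ : ℝ} (τ : ℝ) (θ : Fin r → ℝ)
    (h : ∀ l ∈ T, ‖a τ l‖ ≤ A₀) : ‖km a T (fun _ => 1) τ θ‖ ≤ T.card * A₀ := by
  unfold km
  refine (norm_sum_le _ _).trans ?_
  refine (Finset.sum_le_card_nsmul _ _ A₀ fun l hl => ?_).trans (le_of_eq (by rw [nsmul_eq_mul]))
  rw [norm_mul, norm_eu, mul_one, Complex.ofReal_one, mul_one]
  exact h l hl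

/-- the frequencies -/
def TT (J : ℕ) : Finset (Fin 1 → ℤ) :=
  Fintype.piFinset fun _ : Fin 1 => Finset.Icc (-(2 * 2 ^ J + 1 : ℤ)) (2 * 2 ^ J + 1)

theorem mem_TT {J : ℕ} {l : Fin 1 → ℤ} : l ∈ TT J ↔ |l 0| ≤ 2 * 2 ^ J + 1 := by
  unfold TT
  rw [Fintype.mem_piFinset]
  constructor
  · intro h
    have := Finset.mem_Icc.1 (h 0)
    exact abs_le.2 this
  · intro h i
    rw [Subsingleton.elim i 0]
    exact Finset.mem_Icc.2 (abs_le.1 h)

theorem card_TT (J : ℕ) : ((TT J).card : ℝ) ≤ 7 * 2 ^ J := by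
  unfold TT
  rw [Fintype.card_piFinset]
  simp only [Finset.univ_unique, Fin.default_eq_zero, Fin.isValue, Int.card_Icc, Finset.prod_const,
    Finset.card_singleton, pow_one]
  have h1 : ((2 * 2 ^ J + 1 + 1 - -(2 * 2 ^ J + 1) : ℤ)).toNat = 4 * 2 ^ J + 3 := by
    have : (2 * 2 ^ J + 1 + 1 - -(2 * 2 ^ J + 1) : ℤ) = ((4 * 2 ^ J + 3 : ℕ) : ℤ) := by
      push_cast
      ring
    rw [this, Int.toNat_natCast]
  rw [h1]
  push_cast
  have : (1 : ℝ) ≤ 2 ^ J := one_le_pow₀ (by norm_num)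
  linarith

theorem KS_big {m Y J : ℕ} (hm : 1 ≤ m) (h : 32 * KS m Y ≤ 2 ^ J) : (32 : ℤ) * 3 ≤ 2 ^ J := by
  have h1 : 3 ≤ KS m Y := by
    unfold KS
    omega
  have h2 : 32 * 3 ≤ 2 ^ J := (Nat.mul_le_mul_left 32 h1).trans h
  exact_mod_cast h2

section as

variable {Φ : RT 1} (hR : R1F Φ) {m : ℕ} {C₁ : ℝ} (hm : 1 ≤ m) (hN : NSF m C₁) {J Y x e : ℕ} (hxY : x ≤ Y)
  (hK : 32 * KS m Y ≤ 2 ^ J) (he : e ≤ 1)

include hR

theorem as_eq (τ : ℝ) (l : Fin 1 → ℤ) : aS Φ m Y x e J τ l =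
    (((Real.exp (4 * (1 / 2 ^ (x + J)) * l 0) * (l 0 + 1) : ℝ) : ℂ) * nS m Y x e J τ (l 0 + 1) -
      ((Real.exp (-(4 * (1 / 2 ^ (x + J)) * l 0)) * (l 0 - 1) : ℝ) : ℂ) * nS m Y x e J τ (l 0 - 1)) / 2 := by
  unfold aS
  rw [hR.lm]
  rfl

include hm hN hK he

theorem as_supp (τ : ℝ) (l : Fin 1 → ℤ) (h : aS Φ m Y x e J τ l ≠ 0) : l ∈ TT J ∧ (2 : ℤ) ^ J ≤ 32 * |l 0| := by
  have h1 : nS m Y x e J τ (l 0 + 1) ≠ 0 ∨ nS m Y x e J τ (l 0 - 1) ≠ 0 := by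
    by_contra h2
    push Not at h2
    apply h
    rw [as_eq hR, h2.1, h2.2]
    simp
  have hb := KS_big hm hK
  rw [mem_TT]
  rcases h1 with h1 | h1
  · obtain ⟨a1, a2, -⟩ := hN.supp Y x e J τ _ he hK h1
    have b1 := abs_le.1 a2
    constructor
    · rw [abs_le]
      constructor <;> linarith [b1.1, b1.2]
    · have : |l 0 + 1| ≤ |l 0| + 1 := (abs_add_le _ _).trans (by simp)
      linarith
  · obtain ⟨a1, a2, -⟩ := hN.supp Y x e J τ _ he hK h1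
    have b1 := abs_le.1 a2
    constructor
    · rw [abs_le]
      constructor <;> linarith [b1.1, b1.2]
    · have : |l 0 - 1| ≤ |l 0| + 1 := (abs_sub _ _).trans (by simp)
      linarith

omit hm hK he in
theorem as_cont (l : Fin 1 → ℤ) : Continuous fun τ => aS Φ m Y x e J τ l := by
  have : (fun τ => aS Φ m Y x e J τ l) = fun τ =>
      (((Real.exp (4 * (1 / 2 ^ (x + J)) * l 0) * (l 0 + 1) : ℝ) : ℂ) * nS m Y x e J τ (l 0 + 1) -
      ((Real.exp (-(4 * (1 / 2 ^ (x + J)) * l 0)) * (l 0 - 1) : ℝ) : ℂ) * nS m Y x e J τ (l 0 - 1)) / 2 :=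
    funext fun τ => as_eq hR τ l
  rw [this]
  have h1 := hN.cont Y x e J (l 0 + 1)
  have h2 := hN.cont Y x e J (l 0 - 1)
  exact ((continuous_const.mul h1).sub (continuous_const.mul h2)).div_const _

omit hm hK he in
theorem as_bd (hC : 0 ≤ C₁) (hxY : x ≤ Y) (τ : ℝ) (l : Fin 1 → ℤ) (hl : l ∈ TT J) :
    ‖aS Φ m Y x e J τ l‖ ≤ 4 * Real.exp 12 * C₁ * 2 ^ J := by
  rw [mem_TT] at hl
  have hl' : |(l 0 : ℝ)| ≤ 2 * 2 ^ J + 1 := by
    have := (Int.cast_le (R := ℝ)).2 hl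
    push_cast at this
    exact this
  have hJ1 : (1 : ℝ) ≤ 2 ^ J := one_le_pow₀ (by norm_num)
  have hb := abs_le.1 hl'
  set y : ℝ := 4 * (1 / 2 ^ (x + J)) * l 0 with hy
  have hy1 : |y| ≤ 12 := by
    rw [hy, abs_mul, abs_of_nonneg (by positivity)]
    have h1 : (2 : ℝ) ^ J ≤ 2 ^ (x + J) := pow_le_pow_right₀ (by norm_num) (by omega)
    have h2 : |(l 0 : ℝ)| ≤ 3 * 2 ^ (x + J) := by linarith
    have h3 : (0 : ℝ) < 2 ^ (x + J) := by positivity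
    calc 4 * (1 / 2 ^ (x + J)) * |(l 0 : ℝ)| ≤ 4 * (1 / 2 ^ (x + J)) * (3 * 2 ^ (x + J)) :=
          mul_le_mul_of_nonneg_left h2 (by positivity)
      _ = 12 := by
          field_simp
          norm_num
  have hy2 := abs_le.1 hy1
  have e1 : Real.exp y ≤ Real.exp 12 := Real.exp_le_exp.2 hy2.2
  have e2 : Real.exp (-y) ≤ Real.exp 12 := Real.exp_le_exp.2 (by linarith [hy2.1])
  have n1 := hN.bd Y x e J τ (l 0 + 1) hxY
  have n2 := hN.bd Y x e J τ (l 0 - 1) hxY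
  have l1 : |(l 0 : ℝ) + 1| ≤ 4 * 2 ^ J := by
    rw [abs_le]
    constructor <;> linarith [hb.1, hb.2]
  have l2 : |(l 0 : ℝ) - 1| ≤ 4 * 2 ^ J := by
    rw [abs_le]
    constructor <;> linarith [hb.1, hb.2]
  rw [as_eq hR, norm_div, Complex.norm_ofNat, div_le_iff₀ (by norm_num)]
  refine (norm_sub_le _ _).trans ?_
  rw [norm_mul, norm_mul, Complex.norm_real, Complex.norm_real, norm_mul, norm_mul, Real.norm_eq_abs, Real.norm_eq_abs,
    Real.norm_eq_abs, Real.norm_eq_abs, Real.abs_exp, Real.abs_exp]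
  have f1 : Real.exp y * |(l 0 : ℝ) + 1| * ‖nS m Y x e J τ (l 0 + 1)‖ ≤ Real.exp 12 * (4 * 2 ^ J) * C₁ :=
    mul_le_mul (mul_le_mul e1 l1 (abs_nonneg _) (Real.exp_pos _).le) n1 (norm_nonneg _) (by positivity)
  have f2 : Real.exp (-y) * |(l 0 : ℝ) - 1| * ‖nS m Y x e J τ (l 0 - 1)‖ ≤ Real.exp 12 * (4 * 2 ^ J) * C₁ :=
    mul_le_mul (mul_le_mul e2 l2 (abs_nonneg _) (Real.exp_pos _).le) n2 (norm_nonneg _) (by positivity)
  linarith

end as

/-! ### the sets -/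

/-- the set `S` -/
def sT (E x : ℝ) : Set (Fin 1 → ℝ) :=
  {θ | θ ∈ Set.Icc (0 : Fin 1 → ℝ) 1 ∧ nd (2 * θ 0) ≤ 3 * (2 : ℝ) ^ (E - x) ∧
    (2 : ℝ) ^ (-E - x) / 2 ≤ nd (2 * θ 0) ∧ (2 : ℝ) ^ (-E) / 2 ≤ nd (2 * θ 0 - 1 / 2)}

theorem sT_meas (E x : ℝ) : MeasurableSet (sT E x) := by
  have h0 : Continuous fun θ : Fin 1 → ℝ => nd (2 * θ 0) := nd_cont.comp (by fun_prop)
  have h1 : Continuous fun θ : Fin 1 → ℝ => nd (2 * θ 0 - 1 / 2) := nd_cont.comp (by fun_prop)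
  unfold sT
  refine MeasurableSet.inter (s₁ := Set.Icc 0 1) measurableSet_Icc ?_
  refine MeasurableSet.inter (measurableSet_le h0.measurable measurable_const) ?_
  exact MeasurableSet.inter (measurableSet_le measurable_const h0.measurable)
    (measurableSet_le measurable_const h1.measurable)

theorem vol_Icc (a b : ℝ) (h : a ≤ b) :
    (volume : Measure (Fin 1 → ℝ)).real (Set.Icc (fun _ => a) fun _ => b) = b - a := by
  rw [Measure.real, Real.volume_Icc_pi]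
  simp [h]

theorem sT_vol (E x : ℝ) : (volume : Measure (Fin 1 → ℝ)).real (sT E x) ≤ 9 * (2 : ℝ) ^ (E - x) := by
  set w : ℝ := 3 * (2 : ℝ) ^ (E - x) with hw
  have hw0 : 0 < w := by
    have := pos2 (E - x)
    positivity
  have h1 : sT E x ⊆ (Set.Icc (fun _ => (0 - w) / 2) (fun _ => (0 + w) / 2) ∪
      Set.Icc (fun _ => (1 - w) / 2) (fun _ => (1 + w) / 2)) ∪
      Set.Icc (fun _ => (2 - w) / 2) (fun _ => (2 + w) / 2) := by
    intro θ hθ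
    obtain ⟨⟨h0, h1⟩, h2, -, -⟩ := hθ
    have h00 : 0 ≤ θ 0 := h0 0
    have h11 : θ 0 ≤ 1 := h1 0
    have h3 : |2 * θ 0 - round (2 * θ 0)| ≤ w := h2
    have h4 := abs_le.1 h3
    have h5 : |2 * θ 0 - round (2 * θ 0)| ≤ 1 / 2 := abs_sub_round _
    have h6 := abs_le.1 h5
    have h7 : (0 : ℤ) ≤ round (2 * θ 0) := by
      by_contra h
      push Not at h
      have : (round (2 * θ 0) : ℝ) ≤ -1 := by exact_mod_cast (by omega : round (2 * θ 0) ≤ -1)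
      linarith [h6.1, h6.2]
    have h8 : round (2 * θ 0) ≤ 2 := by
      by_contra h
      push Not at h
      have : (3 : ℝ) ≤ (round (2 * θ 0) : ℝ) := by exact_mod_cast (by omega : 3 ≤ round (2 * θ 0))
      linarith [h6.1, h6.2]
    have key : ∀ n : ℝ, (round (2 * θ 0) : ℝ) = n → θ ∈ Set.Icc (fun _ : Fin 1 => (n - w) / 2) (fun _ => (n + w) / 2) := by
      intro n hn
      rw [hn] at h4
      constructor
      · intro i
        rw [Subsingleton.elim i 0]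
        change (n - w) / 2 ≤ θ 0
        linarith [h4.1]
      · intro i
        rw [Subsingleton.elim i 0]
        change θ 0 ≤ (n + w) / 2
        linarith [h4.2]
    have h9 : round (2 * θ 0) = 0 ∨ round (2 * θ 0) = 1 ∨ round (2 * θ 0) = 2 := by omega
    rcases h9 with h9 | h9 | h9
    · exact Or.inl (Or.inl (key 0 (by rw [h9]; norm_num)))
    · exact Or.inl (Or.inr (key 1 (by rw [h9]; norm_num)))
    · exact Or.inr (key 2 (by rw [h9]; norm_num))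
  have hfin : ∀ n : ℝ, (volume : Measure (Fin 1 → ℝ)) (Set.Icc (fun _ => (n - w) / 2) fun _ => (n + w) / 2) ≠ ⊤ :=
    fun n => isCompact_Icc.measure_lt_top.ne
  have h2 := measureReal_mono (μ := (volume : Measure (Fin 1 → ℝ))) h1
    (measure_union_ne_top (measure_union_ne_top (hfin 0) (hfin 1)) (hfin 2))
  refine h2.trans ?_
  refine (measureReal_union_le _ _).trans ?_
  refine (add_le_add (measureReal_union_le _ _) le_rfl).trans ?_
  rw [vol_Icc _ _ (by linarith), vol_Icc _ _ (by linarith), vol_Icc _ _ (by linarith)]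
  linarith

/-- the geometry of the sets: `X ^ (-3 ε) δ` and `c = 2 ^ (E - J)` are small -/
theorem geo {E x J C₂ : ℝ} (hE : 0 < E) (hx : 0 ≤ x) (hJ : x + 12 * E + 1 ≤ J) (h8 : 8 ≤ (2 : ℝ) ^ E)
    (hC : 0 ≤ C₂) (hC2 : 2 * C₂ ≤ (2 : ℝ) ^ E) {y s : ℝ} (hy : 0 ≤ y) (hy' : y ≤ (2 : ℝ) ^ (-(3 * E) - x))
    (hs : |s| ≤ 2 * C₂ * (2 : ℝ) ^ (E - J)) : |2 * (s - y)| ≤ (2 : ℝ) ^ (-E - x) / 8 := by
  have h1 : |s| ≤ (2 : ℝ) ^ (-(3 * E) - x) := by
    refine hs.trans ?_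
    refine (mul_le_mul_of_nonneg_right hC2 (pos2 _).le).trans ?_
    rw [add2]
    exact two_rpow_le (by linarith)
  have h2 : |s - y| ≤ 2 * (2 : ℝ) ^ (-(3 * E) - x) := by
    refine (abs_sub _ _).trans ?_
    rw [abs_of_nonneg hy]
    linarith
  have h3 : (2 : ℝ) ^ (-(3 * E) - x) = (2 : ℝ) ^ (-E - x) * ((2 : ℝ) ^ (-E)) ^ 2 := by
    rw [pn2, add2]
    congr 1
    push_cast
    ring
  have h4 : (2 : ℝ) ^ (-E) ≤ 1 / 8 := by
    rw [Real.rpow_neg (by norm_num), ← one_div]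
    exact one_div_le_one_div_of_le (by norm_num) h8
  have h5 : ((2 : ℝ) ^ (-E)) ^ 2 ≤ 1 / 64 := by
    calc ((2 : ℝ) ^ (-E)) ^ 2 ≤ (1 / 8) ^ 2 := pow_le_pow_left₀ (pos2 _).le h4 2
      _ = 1 / 64 := by norm_num
  have h6 := mul_le_mul_of_nonneg_left h5 (pos2 (-E - x)).le
  rw [abs_mul, abs_two]
  rw [h3] at h2
  have := pos2 (-E - x)
  linarith
/-! ### the error term -/

section Err

variable {G : Type} [Group G] [TopologicalSpace G] [IsTopologicalGroup G] [CompactSpace G]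
  [SecondCountableTopology G] [MeasurableSpace G] [BorelSpace G] (μ : Measure G)
  [IsProbabilityMeasure μ]

instance : IsProbabilityMeasure ((volume : Measure (Fin 1 → ℝ)).restrict (Set.Icc 0 1)) :=
  ⟨by
    rw [Measure.restrict_apply_univ, Real.volume_Icc_pi]
    simp⟩

instance : IsProbabilityMeasure ((volume : Measure ℝ).restrict (Set.Ioc 0 1)) :=
  ⟨by
    rw [Measure.restrict_apply_univ, Real.volume_Ioc]
    simp⟩

/-- the error term -/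
theorem err (τ : (Fin 1 → ℝ) → G) {V W : ℝ → G → G → ℂ} (hV : J3 V) {b B : ℝ}
    (hVb : ∀ t h g, ‖V t h g‖ ≤ b) (hWb : ∀ t h g, ‖W t h g‖ ≤ B) (L : ℝ → ℝ)
    (hL : Integrable L ((volume : Measure ℝ).restrict (Set.Ioc 0 1)))
    (hVL : ∀ s, ∫ h, ∫ g, ‖V s h g‖ ∂μ ∂μ ≤ L s) :
    ∫ t in (0 : ℝ)..1, ∫ s in (0 : ℝ)..1, ∫ h, ∫ g, (∫ θ in Set.Icc (0 : Fin 1 → ℝ) 1,
        ‖V s h g‖ * ‖W t h (g * τ θ)‖) ∂μ ∂μ ≤ B * ∫ s in (0 : ℝ)..1, L s := by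
  have hB : 0 ≤ B := (norm_nonneg _).trans (hWb 0 1 1)
  have hVc : ∀ s, Continuous fun z : G × G => ‖V s z.1 z.2‖ := fun s =>
    (hV.comp (continuous_const.prodMk continuous_id)).norm
  have hVi : ∀ s, Integrable (fun z : G × G => ‖V s z.1 z.2‖) (μ.prod μ) := fun s =>
    Integrable.of_bound (hVc s).measurable.aestronglyMeasurable b (ae_of_all _ fun z => by
      rw [norm_norm]
      exact hVb _ _ _)
  have h1 : ∀ t s h g, ∫ θ in Set.Icc (0 : Fin 1 → ℝ) 1, ‖V s h g‖ * ‖W t h (g * τ θ)‖ ≤ ‖V s h g‖ * B := by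
    intro t s h g
    calc ∫ θ in Set.Icc (0 : Fin 1 → ℝ) 1, ‖V s h g‖ * ‖W t h (g * τ θ)‖
        ≤ ∫ _ in Set.Icc (0 : Fin 1 → ℝ) 1, ‖V s h g‖ * B := by
          refine integral_mono_of_nonneg (ae_of_all _ fun _ => by positivity) (integrable_const _)
            (ae_of_all _ fun θ => ?_)
          exact mul_le_mul_of_nonneg_left (hWb _ _ _) (norm_nonneg _)
      _ = ‖V s h g‖ * B := by
          rw [integral_const]
          simp
  have h2 : ∀ t s h, ∫ g, (∫ θ in Set.Icc (0 : Fin 1 → ℝ) 1, ‖V s h g‖ * ‖W t h (g * τ θ)‖) ∂μ ≤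
      (∫ g, ‖V s h g‖ ∂μ) * B := by
    intro t s h
    rw [← integral_mul_const]
    refine integral_mono_of_nonneg (ae_of_all _ fun _ => integral_nonneg fun _ => by positivity) ?_
      (ae_of_all _ fun g => h1 t s h g)
    have hc : Continuous fun g : G => ‖V s h g‖ := (hVc s).comp (continuous_const.prodMk continuous_id)
    exact (Integrable.of_bound hc.measurable.aestronglyMeasurable b (ae_of_all _ fun z => by
      rw [norm_norm]
      exact hVb _ _ _)).mul_const _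
  have h3 : ∀ t s, ∫ h, ∫ g, (∫ θ in Set.Icc (0 : Fin 1 → ℝ) 1, ‖V s h g‖ * ‖W t h (g * τ θ)‖) ∂μ ∂μ ≤
      L s * B := by
    intro t s
    refine le_trans ?_ (mul_le_mul_of_nonneg_right (hVL s) hB)
    rw [← integral_mul_const]
    refine integral_mono_of_nonneg (ae_of_all _ fun _ => integral_nonneg fun _ =>
      integral_nonneg fun _ => by positivity) ?_ (ae_of_all _ fun h => h2 t s h)
    exact (hVi s).integral_prod_left.mul_const _
  have h4 : ∀ t, ∫ s in (0 : ℝ)..1, ∫ h, ∫ g, (∫ θ in Set.Icc (0 : Fin 1 → ℝ) 1,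
      ‖V s h g‖ * ‖W t h (g * τ θ)‖) ∂μ ∂μ ≤ B * ∫ s in (0 : ℝ)..1, L s := by
    intro t
    rw [intervalIntegral.integral_of_le zero_le_one, intervalIntegral.integral_of_le zero_le_one,
      ← integral_const_mul]
    refine integral_mono_of_nonneg (ae_of_all _ fun _ => integral_nonneg fun _ =>
      integral_nonneg fun _ => integral_nonneg fun _ => by positivity) (hL.const_mul _)
      (ae_of_all _ fun s => ?_)
    have := h3 t s
    rw [mul_comm] at this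
    exact this
  rw [intervalIntegral.integral_of_le zero_le_one]
  calc _ ≤ ∫ _ in Set.Ioc (0 : ℝ) 1, B * ∫ s in (0 : ℝ)..1, L s := by
        refine integral_mono_of_nonneg (ae_of_all _ fun t => ?_) (integrable_const _)
          (ae_of_all _ fun t => h4 t)
        exact intervalIntegral.integral_nonneg zero_le_one fun _ _ => integral_nonneg fun _ =>
          integral_nonneg fun _ => integral_nonneg fun _ => by positivity
    _ = _ := by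
        rw [integral_const]
        simp

end Err

section

open TTX

variable {N : ℕ} {H : Subgroup (SU N)} [CompactSpace H] [SecondCountableTopology H]
  (μ : Measure H) [IsProbabilityMeasure μ]

/-- continuity of the inner integrals -/
theorem c2 {f : ℝ → H → H → ℝ} (hf : Continuous fun z : ℝ × H × H => f z.1 z.2.1 z.2.2) :
    Continuous fun z : ℝ × H => ∫ g, f z.1 z.2 g ∂μ := by
  refine par μ (f := fun (w : ℝ × H) (g : H) => f w.1 w.2 g) ?_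
  exact hf.comp (f := fun z : (ℝ × H) × H => (z.1.1, z.1.2, z.2)) (by fun_prop)

theorem c3 {f : ℝ → H → H → ℝ} (hf : Continuous fun z : ℝ × H × H => f z.1 z.2.1 z.2.2) :
    Continuous fun t : ℝ => ∫ h, ∫ g, f t h g ∂μ ∂μ :=
  par μ (f := fun (t : ℝ) (h : H) => ∫ g, f t h g ∂μ) (c2 μ hf)

/-- the trivial bound of the form -/
theorem tx_small {Hc : Fin 1 → MT N} {ker : ℝ → (Fin 1 → ℝ) → ℂ} {V W : ℝ → H → H → ℂ} {η : ℝ}
    (hη : 0 ≤ η) (hk : ∀ τ θ, ‖ker τ θ‖ ≤ η) (hV : J3 V) (hW : ∀ t h g, ‖W t h g‖ ≤ 1) :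
    ‖TX Hc μ ker V W‖ ≤ η * ∫ s in (0 : ℝ)..1, ∫ h, ∫ g, ‖V s h g‖ ∂μ ∂μ := by
  have hVn : Continuous fun z : ℝ × H × H => ‖V z.1 z.2.1 z.2.2‖ := hV.norm
  have hVη : Continuous fun z : ℝ × H × H => η * ‖V z.1 z.2.1 z.2.2‖ := continuous_const.mul hVn
  have e1 : ∀ t s h g, ‖∫ θ in Set.Icc (0 : Fin 1 → ℝ) 1,
      ker (t - s) θ * (V s h g * conj (W t h (g * tt H Hc θ)))‖ ≤ η * ‖V s h g‖ := by
    intro t s h g
    have hvol : (volume : Measure (Fin 1 → ℝ)).real (Set.Icc 0 1) = 1 := by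
      rw [Measure.real, Real.volume_Icc_pi]
      simp
    have h1 := norm_setIntegral_le_of_norm_le_const (μ := (volume : Measure (Fin 1 → ℝ)))
      (s := Set.Icc (0 : Fin 1 → ℝ) 1) (C := η * ‖V s h g‖)
      (f := fun θ => ker (t - s) θ * (V s h g * conj (W t h (g * tt H Hc θ))))
      (isCompact_Icc.measure_lt_top) (fun θ _ => by
        rw [norm_mul, norm_mul, RCLike.norm_conj]
        have h2 := hk (t - s) θ
        have h3 := hW t h (g * tt H Hc θ)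
        have h4 : ‖V s h g‖ * ‖W t h (g * tt H Hc θ)‖ ≤ ‖V s h g‖ :=
          mul_le_of_le_one_right (norm_nonneg _) h3
        exact mul_le_mul h2 h4 (by positivity) hη)
    rw [hvol, mul_one] at h1
    exact h1
  have e2 : ∀ t s, ‖∫ h, ∫ g, (∫ θ in Set.Icc (0 : Fin 1 → ℝ) 1,
      ker (t - s) θ * (V s h g * conj (W t h (g * tt H Hc θ)))) ∂μ ∂μ‖ ≤
      ∫ h, ∫ g, η * ‖V s h g‖ ∂μ ∂μ := by
    intro t s
    refine norm_integral_le_of_norm_le (integ μ ?_) (Filter.Eventually.of_forall fun h => ?_)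
    · exact (c2 μ (f := fun s h g => η * ‖V s h g‖) hVη).comp (f := fun x : H => (s, x))
        (by fun_prop)
    · refine norm_integral_le_of_norm_le (integ μ ?_) (Filter.Eventually.of_forall fun g => ?_)
      · exact hVη.comp (f := fun y : H => (s, h, y)) (by fun_prop)
      · exact e1 t s h g
  have e3 : ∀ t, ‖∫ s in (0 : ℝ)..1, ∫ h, ∫ g, (∫ θ in Set.Icc (0 : Fin 1 → ℝ) 1,
      ker (t - s) θ * (V s h g * conj (W t h (g * tt H Hc θ)))) ∂μ ∂μ‖ ≤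
      ∫ s in (0 : ℝ)..1, ∫ h, ∫ g, η * ‖V s h g‖ ∂μ ∂μ := by
    intro t
    refine intervalIntegral.norm_integral_le_of_norm_le zero_le_one
      (Filter.Eventually.of_forall fun s _ => e2 t s) ?_
    exact (c3 μ (f := fun s h g => η * ‖V s h g‖) hVη).intervalIntegrable _ _
  unfold TX
  have h4 := intervalIntegral.norm_integral_le_of_norm_le_const (a := (0 : ℝ)) (b := 1)
    (C := ∫ s in (0 : ℝ)..1, ∫ h, ∫ g, η * ‖V s h g‖ ∂μ ∂μ)
    (f := fun t => ∫ s in (0 : ℝ)..1, ∫ h, ∫ g, (∫ θ in Set.Icc (0 : Fin 1 → ℝ) 1,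
      ker (t - s) θ * (V s h g * conj (W t h (g * tt H Hc θ)))) ∂μ ∂μ) (fun t _ => e3 t)
  rw [sub_zero, abs_one, mul_one] at h4
  refine h4.trans (le_of_eq ?_)
  rw [← intervalIntegral.integral_const_mul]
  refine intervalIntegral.integral_congr fun s _ => ?_
  simp only [integral_const_mul]

theorem yr_mem {N : ℕ} {H : Subgroup (SU N)} {r : ℕ} {Φ : RT r} {B : Matrix (Fin r) (Fin r) ℤ}
    {Hc : Fin r → MT N} {E : (Fin r → ℤ) × (Fin r → ℤ) → MT N} (hl : LIF H)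
    (hL : LRD H Φ B Hc E) (c : ℝ) (a : {p // p ∈ pos Φ} × Bool) : yr Φ E c a ∈ lie H := by
  unfold yr
  have hp : a.1.1 ∈ Φ := by
    have := a.1.2
    unfold pos at this
    exact (Finset.mem_filter.1 this).1
  have h1 := hL.emem _ hp
  refine hl.smul _ _ ?_
  split_ifs
  · exact h1.1
  · exact h1.2

end

/-! ### the numbers -/

theorem num {q s s₀ D jj l₀ m JV LV : ℝ} (hq : 0 < q) (hs : 0 ≤ s) (hs0 : 0 ≤ s₀) (hss : s ≤ s₀ * q)
    (hD : 0 ≤ D) (hjj : 0 ≤ jj) (hl : 0 ≤ l₀) (hm : 0 ≤ m) (hJV : 0 ≤ JV) (hJ : JV ≤ jj * q * m ^ 2)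
    (hLV : 0 ≤ LV) (hL : LV ≤ l₀ * m) :
    1 / q * (D * (q * s) ^ ((1 : ℝ) / 7) * (JV ^ ((4 : ℝ) / 7) *
      ((q * LV) ^ ((3 : ℝ) / 14) * (s * LV) ^ ((3 : ℝ) / 14)))) ≤
    D * s₀ ^ ((5 : ℝ) / 14) * jj ^ ((4 : ℝ) / 7) * l₀ ^ ((3 : ℝ) / 7) * q ^ ((2 : ℝ) / 7) * m ^ ((11 : ℝ) / 7) := by
  rw [← mul_assoc (D * (q * s) ^ ((1 : ℝ) / 7))]
  have e1 : (q * s) ^ ((1 : ℝ) / 7) ≤ s₀ ^ ((1 : ℝ) / 7) * q ^ ((2 : ℝ) / 7) := by
    calc (q * s) ^ ((1 : ℝ) / 7) ≤ (s₀ * (q ^ (2 : ℝ))) ^ ((1 : ℝ) / 7) := by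
          refine Real.rpow_le_rpow (by positivity) ?_ (by norm_num)
          rw [Real.rpow_two]
          nlinarith
      _ = _ := by
          rw [Real.mul_rpow hs0 (by positivity), ← Real.rpow_mul hq.le]
          norm_num
  have e2 : JV ^ ((4 : ℝ) / 7) ≤ jj ^ ((4 : ℝ) / 7) * q ^ ((4 : ℝ) / 7) * m ^ ((8 : ℝ) / 7) := by
    calc JV ^ ((4 : ℝ) / 7) ≤ (jj * q * m ^ (2 : ℝ)) ^ ((4 : ℝ) / 7) := by
          refine Real.rpow_le_rpow hJV ?_ (by norm_num)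
          rw [Real.rpow_two]
          exact hJ
      _ = _ := by
          rw [Real.mul_rpow (by positivity) (by positivity), Real.mul_rpow hjj hq.le, ← Real.rpow_mul hm]
          norm_num
  have e3 : (q * LV) ^ ((3 : ℝ) / 14) ≤ q ^ ((3 : ℝ) / 14) * l₀ ^ ((3 : ℝ) / 14) * m ^ ((3 : ℝ) / 14) := by
    calc (q * LV) ^ ((3 : ℝ) / 14) ≤ (q * l₀ * m) ^ ((3 : ℝ) / 14) := by
          refine Real.rpow_le_rpow (by positivity) ?_ (by norm_num)
          rw [mul_assoc]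
          exact mul_le_mul_of_nonneg_left hL hq.le
      _ = _ := by
          rw [Real.mul_rpow (by positivity) hm, Real.mul_rpow hq.le hl]
  have e4 : (s * LV) ^ ((3 : ℝ) / 14) ≤ s₀ ^ ((3 : ℝ) / 14) * (q ^ ((3 : ℝ) / 14) * l₀ ^ ((3 : ℝ) / 14) *
      m ^ ((3 : ℝ) / 14)) := by
    calc (s * LV) ^ ((3 : ℝ) / 14) ≤ (s₀ * (q * l₀ * m)) ^ ((3 : ℝ) / 14) := by
          refine Real.rpow_le_rpow (by positivity) ?_ (by norm_num)
          calc s * LV ≤ s₀ * q * (l₀ * m) := mul_le_mul hss hL hLV (by positivity)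
            _ = _ := by ring
      _ = _ := by
          rw [Real.mul_rpow hs0 (by positivity), Real.mul_rpow (by positivity) hm, Real.mul_rpow hq.le hl]
  have hq' : 1 / q = q ^ (-(1 : ℝ)) := by
    rw [Real.rpow_neg_one, one_div]
  have qq : q ^ (-(1 : ℝ)) * q ^ ((2 : ℝ) / 7) * q ^ ((4 : ℝ) / 7) * (q ^ ((3 : ℝ) / 14) * q ^ ((3 : ℝ) / 14)) =
      q ^ ((2 : ℝ) / 7) := by
    rw [← Real.rpow_add hq, ← Real.rpow_add hq, ← Real.rpow_add hq, ← Real.rpow_add hq]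
    norm_num
  have ss : s₀ ^ ((1 : ℝ) / 7) * s₀ ^ ((3 : ℝ) / 14) = s₀ ^ ((5 : ℝ) / 14) := by
    rw [← Real.rpow_add_of_nonneg hs0 (by norm_num) (by norm_num)]
    norm_num
  have ll : l₀ ^ ((3 : ℝ) / 14) * l₀ ^ ((3 : ℝ) / 14) = l₀ ^ ((3 : ℝ) / 7) := by
    rw [← Real.rpow_add_of_nonneg hl (by norm_num) (by norm_num)]
    norm_num
  have mm : m ^ ((8 : ℝ) / 7) * (m ^ ((3 : ℝ) / 14) * m ^ ((3 : ℝ) / 14)) = m ^ ((11 : ℝ) / 7) := by
    rw [← Real.rpow_add_of_nonneg hm (by norm_num) (by norm_num), ← Real.rpow_add_of_nonneg hm (by norm_num) (by norm_num)]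
    norm_num
  calc _ ≤ 1 / q * (D * (s₀ ^ ((1 : ℝ) / 7) * q ^ ((2 : ℝ) / 7)) *
        (jj ^ ((4 : ℝ) / 7) * q ^ ((4 : ℝ) / 7) * m ^ ((8 : ℝ) / 7)) *
        ((q ^ ((3 : ℝ) / 14) * l₀ ^ ((3 : ℝ) / 14) * m ^ ((3 : ℝ) / 14)) *
          (s₀ ^ ((3 : ℝ) / 14) * (q ^ ((3 : ℝ) / 14) * l₀ ^ ((3 : ℝ) / 14) * m ^ ((3 : ℝ) / 14))))) := by
        refine mul_le_mul_of_nonneg_left ?_ (by positivity)
        refine mul_le_mul ?_ (mul_le_mul e3 e4 (by positivity) (by positivity)) (by positivity) (by positivity)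
        refine mul_le_mul (mul_le_mul_of_nonneg_left e1 hD) e2 (by positivity) (by positivity)
    _ = D * (s₀ ^ ((1 : ℝ) / 7) * s₀ ^ ((3 : ℝ) / 14)) * jj ^ ((4 : ℝ) / 7) *
        (l₀ ^ ((3 : ℝ) / 14) * l₀ ^ ((3 : ℝ) / 14)) *
        (q ^ (-(1 : ℝ)) * q ^ ((2 : ℝ) / 7) * q ^ ((4 : ℝ) / 7) * (q ^ ((3 : ℝ) / 14) * q ^ ((3 : ℝ) / 14))) *
        (m ^ ((8 : ℝ) / 7) * (m ^ ((3 : ℝ) / 14) * m ^ ((3 : ℝ) / 14))) := by
        rw [hq']
        ring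
    _ = _ := by rw [qq, ss, ll, mm]

/-- the exponents -/
theorem expo {E x J CK CJ CR CL : ℝ} (hE : 0 ≤ E) (hK : 0 ≤ CK) (hCJ : 0 ≤ CJ) (hCR : 0 ≤ CR) (hCL : 0 ≤ CL) :
    CK * (2 : ℝ) ^ E * (2 : ℝ) ^ (J - x) * (9 * (2 : ℝ) ^ (4 * E)) ^ ((5 : ℝ) / 14) *
      (CJ * (CR * (2 : ℝ) ^ (3 * E - (J - x) / 2) / ((2 : ℝ) ^ (-E - x) / 8))) ^ ((4 : ℝ) / 7) *
      (CL * (2 : ℝ) ^ (x - J + 2 * E)) ^ ((3 : ℝ) / 7) * ((2 : ℝ) ^ (-(3 * E) - x)) ^ ((2 : ℝ) / 7) ≤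
    CK * 9 ^ ((5 : ℝ) / 14) * (CJ * (CR * 8)) ^ ((4 : ℝ) / 7) * CL ^ ((3 : ℝ) / 7) *
      ((2 : ℝ) ^ (5 * E) * (2 : ℝ) ^ (2 / 7 * J)) := by
  have h1 : CJ * (CR * (2 : ℝ) ^ (3 * E - (J - x) / 2) / ((2 : ℝ) ^ (-E - x) / 8)) =
      CJ * (CR * 8) * (2 : ℝ) ^ (4 * E - J / 2 + 3 * x / 2) := by
    have h2 : (2 : ℝ) ^ (3 * E - (J - x) / 2) = (2 : ℝ) ^ (4 * E - J / 2 + 3 * x / 2) * (2 : ℝ) ^ (-E - x) := by
      rw [add2]
      congr 1
      ring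
    have h3 := (pos2 (-E - x)).ne'
    rw [h2]
    field_simp
  rw [h1, Real.mul_rpow (by norm_num) (pos2 _).le, Real.mul_rpow (by positivity) (pos2 _).le,
    Real.mul_rpow hCL (pos2 _).le, pw2, pw2, pw2, pw2]
  have h4 : (2 : ℝ) ^ E * (2 : ℝ) ^ (J - x) * (2 : ℝ) ^ (4 * E * (5 / 14)) *
      (2 : ℝ) ^ ((4 * E - J / 2 + 3 * x / 2) * (4 / 7)) * (2 : ℝ) ^ ((x - J + 2 * E) * (3 / 7)) *
      (2 : ℝ) ^ ((-(3 * E) - x) * (2 / 7)) ≤ (2 : ℝ) ^ (5 * E) * (2 : ℝ) ^ (2 / 7 * J) := by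
    rw [add2, add2, add2, add2, add2, add2]
    exact two_rpow_le (by linarith)
  calc _ = CK * 9 ^ ((5 : ℝ) / 14) * (CJ * (CR * 8)) ^ ((4 : ℝ) / 7) * CL ^ ((3 : ℝ) / 7) *
      ((2 : ℝ) ^ E * (2 : ℝ) ^ (J - x) * (2 : ℝ) ^ (4 * E * (5 / 14)) *
      (2 : ℝ) ^ ((4 * E - J / 2 + 3 * x / 2) * (4 / 7)) * (2 : ℝ) ^ ((x - J + 2 * E) * (3 / 7)) *
      (2 : ℝ) ^ ((-(3 * E) - x) * (2 / 7))) := by ring
    _ ≤ _ := mul_le_mul_of_nonneg_left h4 (by positivity)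

/-- the exponential -/
theorem exp_small {c₀ y : ℝ} (hc : 0 < c₀) (hy : 0 < y) (n : ℕ) :
    Real.exp (-(c₀ * y)) ≤ n.factorial / c₀ ^ n / y ^ n := by
  have h1 := Real.pow_div_factorial_le_exp (x := c₀ * y) (by positivity) n
  rw [Real.exp_neg]
  have h2 : (n.factorial : ℝ) / c₀ ^ n / y ^ n = ((c₀ * y) ^ n / n.factorial)⁻¹ := by
    rw [mul_pow, inv_div]
    field_simp
  rw [h2]
  exact inv_anti₀ (by positivity) h1

end RTW

open RTW in
theorem t_RTW : M_RTW := by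
  intro hLIE hWF hTAU hPSF hEXI hTAI hVCN hL2N hRNK hNSX hKLS hKBS hNRS hRED hCLB hKHB hJSS hJR2 hBND hFRS
  intro N H Φ B Hc E c k hX cc ze w C₀ hSP htr μ _ _ χ hχ
  have hI := hX.lrd.ird
  have hW := hWF 1 Φ B hI
  have hR := hRNK Φ B hI hW
  have hcs : CompactSpace H := isCompact_iff_compactSpace.1 hX.closed.isCompact
  have hsc : SecondCountableTopology H :=
    TopologicalSpace.Subtype.secondCountableTopology (H : Set (SU N))
  refine ⟨5, by norm_num, ?_⟩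
  intro m C₁ ε A hm hCSF hε hε64 hA hmA
  have hC₁ : 0 ≤ C₁ := by
    have h1 := hCSF.sup 0 0 0 le_rfl
    rw [pow_zero, div_one] at h1
    exact (norm_nonneg _).trans h1
  have hN := hNSX m C₁ hm hCSF
  obtain ⟨CF, hCF, hFR⟩ := hFRS m hm
  have hCF0 : 0 ≤ CF := by linarith
  obtain ⟨CK, hCK, hKL⟩ := hKLS m C₁ CF ε A hm hCSF hCF0 hε (by linarith) hA (by linarith)
  obtain ⟨CB, hCB, hKB⟩ := hKBS m C₁ CF ε hm hCSF hCF0 hε
  obtain ⟨CR, hCR, hRE⟩ := hRED N H Φ B Hc E c k hX μ CF hCF0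
  obtain ⟨Cj, hCj, hJS⟩ := hJSS N H Φ B Hc E c k hX μ CF hCF0
  obtain ⟨C2, hC2, hJR⟩ := hJR2 N H Φ B Hc E c k hX cc ze w C₀ hSP μ
  obtain ⟨Cb, c₀, hCb, hc₀, hBN⟩ := hBND N H Φ B Hc E c k hX cc ze w C₀ hSP htr μ χ hχ
  obtain ⟨j, hj⟩ := exists_nat_ge ((A + 2) / (4 * ε))
  obtain ⟨n, hn⟩ := exists_nat_ge ((2 * A + 4) / (2 * ε))
  obtain ⟨CT, hCT, hTA⟩ := hTAI N H 1 Φ B Hc E c k 3 hX j
  obtain ⟨CL, hCL, hL2⟩ := hL2N N H 1 Φ B Hc E c k 3 hX μ j CF hCF0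
  obtain ⟨hVC, hPO⟩ := hVCN N H 1 Φ B Hc E c k 3 hX μ
  have hj' : A + 2 ≤ 4 * ε * j := by
    rw [div_le_iff₀ (by positivity)] at hj
    linarith
  have hn' : 2 * A + 4 ≤ 2 * ε * n := by
    rw [div_le_iff₀ (by positivity)] at hn
    linarith
  set K₀ : ℝ := 8 + 2 * CF + C2 + 3 * CF ^ 3 * 32 ^ (2 * m) + CT + 4 * Cb * CF ^ 2 * (n.factorial / c₀ ^ n) with hK₀
  obtain ⟨J₀, hJ₀⟩ : ∃ J₀ : ℕ, ∀ J : ℕ, J₀ ≤ J → K₀ ≤ (2 : ℝ) ^ (ε * J) := by
    have h1 : (1 : ℝ) < (2 : ℝ) ^ ε := Real.one_lt_rpow (by norm_num) hε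
    obtain ⟨n₀, hn₀⟩ := pow_unbounded_of_one_lt K₀ h1
    refine ⟨n₀, fun J hJ => hn₀.le.trans ?_⟩
    rw [Real.rpow_mul (by norm_num), Real.rpow_natCast]
    exact pow_le_pow_right₀ h1.le hJ
  set Ca : ℝ := 4 * Real.exp 12 * (2 * C₁) with hCa
  have hCa0 : 0 ≤ Ca := by positivity
  set Cf : ℝ := CB * 9 ^ ((5 : ℝ) / 14) * (Cj * (C2 * 8)) ^ ((4 : ℝ) / 7) * (CL * (2 * CF ^ 2)) ^ ((3 : ℝ) / 7) with hCf
  have hC20 : 0 ≤ C2 := by linarith
  have hCf0 : 0 ≤ Cf := by positivity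
  set C0 : ℝ := 7 * Ca * (2 ^ (2 * J₀) * (2 : ℝ) ^ (A * J₀)) with hC0
  have hC00 : 0 ≤ C0 := by positivity
  refine ⟨CR * Ca + CK * (2 * CF) ^ 2 + C0 + Cf, by positivity, ?_⟩
  intro J Y x e F G hJ hYJ hxY hKS he hF hG hG1 hGT
  have hJ1 : (1 : ℝ) ≤ J := by exact_mod_cast hJ
  -- the measure
  obtain ⟨κ, hκ⟩ := hEXI N H hX.closed _ (fun a => ((√((1 / 2 ^ (x + J) : ℝ) / k) : ℝ) : ℂ) • yr Φ E c a)
    (fun a => (hLIE N H hX.closed).smul _ _ (yr_mem (hLIE N H hX.closed) hX.lrd c a))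
  have hPM : PM H Φ E c k (1 / 2 ^ (x + J)) κ := hκ
  have hκp := hκ.prob
  have hsT : ∀ τ l, aS Φ m Y x e J τ l ≠ 0 → l ∈ TT J := fun τ l h => (as_supp hR hm hN hKS he τ l h).1
  have hNR := hNRS N H Φ B Hc E c k hX μ χ hχ m C₁ hm hCSF J Y x e (TT J) F κ G hxY.le hsT hF hPM hG
  have hbd : ∀ τ, ∀ l ∈ TT J, ‖aS Φ m Y x e J τ l‖ ≤ Ca * 2 ^ J := fun τ l hl =>
    as_bd hR hN (by positivity) hxY.le τ l hl
  have hcont : ∀ l, Continuous fun τ => aS Φ m Y x e J τ l := fun l => as_cont hR hN l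
  have hmG0 : 0 ≤ mG μ G := by
    unfold mG
    exact intervalIntegral.integral_nonneg zero_le_one fun t _ => integral_nonneg fun y => norm_nonneg _
  have hX1 : (1 : ℝ) ≤ 2 ^ J := one_le_pow₀ (by norm_num)
  have hAJ : 0 ≤ (2 : ℝ) ^ (-(A * J)) * mG μ G := by positivity
  have hsec : 0 ≤ (2 : ℝ) ^ (5 * ε * J) * ((2 : ℝ) ^ ((2 : ℝ) / 7 * J) * mG μ G ^ ((11 : ℝ) / 7)) := by positivity
  rw [hNR]
  rcases lt_or_ge J J₀ with hJJ | hJJ
  · -- small scales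
    obtain ⟨-, hVJ, hVb, hVL⟩ := hVC κ 1 G hκp hG
    have h1 := tx_small μ (Hc := Hc) (ker := km (aS Φ m Y x e J) (TT J) fun _ => 1) (W := fun t h g => VV κ h (G t) g)
      (η := 7 * 2 ^ J * (Ca * 2 ^ J)) (by positivity) (fun τ θ => (km_triv (TT J) τ θ (hbd τ)).trans
        (mul_le_mul_of_nonneg_right (card_TT J) (by positivity))) hVJ (fun t h g => (hVb 1 hG1 t h g).2)
    have hVn : Continuous fun z : ℝ × H × H => ‖VV κ z.2.1 (G z.1) z.2.2‖ := hVJ.norm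
    have h2 : ∫ t in (0 : ℝ)..1, ∫ h, ∫ g, ‖VV κ h (G t) g‖ ∂μ ∂μ ≤ mG μ G := by
      unfold mG
      refine intervalIntegral.integral_mono_on zero_le_one ?_ ?_ fun t _ => (hVL t).2.1
      · exact (c3 μ (f := fun t h g => ‖VV κ h (G t) g‖) hVn).intervalIntegrable _ _
      · refine (TTX.par μ (f := fun t x => ‖G t x‖) ?_).intervalIntegrable _ _
        have h5 : Continuous fun z : ℝ × H => G z.1 z.2 := hG
        exact h5.norm
    refine (h1.trans (mul_le_mul_of_nonneg_left h2 (by positivity))).trans ?_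
    have h3 : 7 * 2 ^ J * (Ca * 2 ^ J) * mG μ G ≤ C0 * ((2 : ℝ) ^ (-(A * J)) * mG μ G) := by
      have h4 : (2 : ℝ) ^ (2 * J) ≤ 2 ^ (2 * J₀) := pow_le_pow_right₀ (by norm_num) (by omega)
      have h5 : (1 : ℝ) ≤ (2 : ℝ) ^ (A * J₀) * (2 : ℝ) ^ (-(A * J)) := by
        rw [add2]
        refine Real.one_le_rpow (by norm_num) ?_
        have : (J : ℝ) ≤ J₀ := by exact_mod_cast hJJ.le
        nlinarith
      calc 7 * 2 ^ J * (Ca * 2 ^ J) * mG μ G = 7 * Ca * 2 ^ (2 * J) * mG μ G := by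
            rw [two_mul, pow_add]
            ring
        _ ≤ 7 * Ca * 2 ^ (2 * J₀) * mG μ G := by gcongr
        _ ≤ 7 * Ca * 2 ^ (2 * J₀) * mG μ G * ((2 : ℝ) ^ (A * J₀) * (2 : ℝ) ^ (-(A * J))) :=
            le_mul_of_one_le_right (by positivity) h5
        _ = _ := by rw [hC0]; ring
    refine h3.trans ?_
    have g1 := mul_nonneg (mul_nonneg hCR hCa0) hAJ
    have g2 := mul_nonneg (mul_nonneg hCK (sq_nonneg (2 * CF))) hAJ
    have g3 := mul_nonneg hCf0 hAJ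
    have g4 : 0 ≤ (CR * Ca + CK * (2 * CF) ^ 2 + C0 + Cf) * ((2 : ℝ) ^ (5 * ε * J) *
      ((2 : ℝ) ^ ((2 : ℝ) / 7 * J) * mG μ G ^ ((11 : ℝ) / 7))) := by positivity
    linarith
  · -- large scales
    have hP := hJ₀ J hJJ
    set Ex : ℝ := ε * J with hEx
    set xr : ℝ := (x : ℝ) with hxr
    set Jr : ℝ := (J : ℝ) with hJr
    have hE0 : 0 < Ex := by positivity
    have hJr0 : 0 ≤ Jr := Nat.cast_nonneg J
    have hAJr : 0 ≤ A * Jr := mul_nonneg hA hJr0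
    have hEJ : Ex ≤ Jr := mul_le_of_le_one_left hJr0 (by linarith)
    have hx0 : 0 ≤ xr := Nat.cast_nonneg x
    have hJx : xr + 12 * Ex + 1 ≤ Jr := by
      have h1 : (x : ℝ) + 1 ≤ Y := by exact_mod_cast hxY
      have h2 : (Y : ℝ) ≤ (1 - 12 * ε) * J := hYJ
      rw [hEx]
      linarith
    have q1 : 0 ≤ 3 * CF ^ 3 * 32 ^ (2 * m) := by positivity
    have q2 : 0 ≤ 4 * Cb * CF ^ 2 * (n.factorial / c₀ ^ n) := by positivity
    have k8 : 8 ≤ (2 : ℝ) ^ Ex := by linarith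
    have kF : 2 * CF ≤ (2 : ℝ) ^ Ex := by linarith
    have k2 : C2 ≤ (2 : ℝ) ^ Ex := by linarith
    have k3 : 3 * CF ^ 3 * 32 ^ (2 * m) ≤ (2 : ℝ) ^ Ex := by linarith
    have kT : CT ≤ (2 : ℝ) ^ Ex := by linarith
    have kb : 4 * Cb * CF ^ 2 * (n.factorial / c₀ ^ n) ≤ (2 : ℝ) ^ Ex := by linarith
    have hmE : 20 + 2 * A ≤ 2 * m * ε := by linarith
    have hmE' : (20 + 2 * A) * Jr ≤ 2 * m * Ex :=
      (mul_le_mul_of_nonneg_right hmE hJr0).trans (le_of_eq (by rw [hEx]; ring))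
    have hϑ : (1 / 2 ^ (x + J) : ℝ) = (2 : ℝ) ^ (-(xr + Jr)) := by
      rw [Real.rpow_neg (by norm_num), one_div, nat2]
      push_cast
      rfl
    -- the cutoff
    have hM1 : 1 ≤ (2 : ℝ) ^ (Jr - Ex) := Real.one_le_rpow (by norm_num) (by linarith)
    obtain ⟨Ψ, ν₁, ν₂, hFM, hΨ, hΨlo, hΨhi⟩ := hFR ((2 : ℝ) ^ (Jr - Ex)) hM1
    have hMinv : 1 / (2 : ℝ) ^ (Jr - Ex) = (2 : ℝ) ^ (Ex - Jr) := by
      rw [one_div, ← Real.rpow_neg (by norm_num)]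
      congr 1
      ring
    rw [hMinv] at hFM
    set ρ : ℝ := (2 : ℝ) ^ (2 * Ex - (xr + Jr) / 2) with hρ
    have hρ0 : 0 < ρ := pos2 _
    have hρ2 : ρ ^ 2 = (2 : ℝ) ^ (4 * Ex - (xr + Jr)) := by
      rw [hρ, pn2]
      congr 1
      push_cast
      ring
    have hrat : (1 / 2 ^ (x + J) : ℝ) / ρ ^ 2 = (2 : ℝ) ^ (-(4 * Ex)) := by
      rw [hϑ, hρ2, ← Real.rpow_sub (by norm_num)]
      congr 1
      ring
    set ηR : ℝ := (2 : ℝ) ^ (-((A + 1) * Jr)) with hηR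
    have hηR0 : 0 < ηR := pos2 _
    have hηR1 : ηR ≤ 1 := Real.rpow_le_one_of_one_le_of_nonpos (by norm_num) (by linarith)
    set η : ℝ := (2 : ℝ) ^ (3 * Ex - (Jr - xr) / 2) with hη
    have hη0 : 0 < η := pos2 _
    set Bd : Set H := {h | |cc h| ≤ η} with hBd
    have hBdm : MeasurableSet Bd := measurableSet_le (hSP.ccont.abs.measurable) measurable_const
    have hj2 : ((2 : ℝ) ^ (-(4 * Ex))) ^ j = (2 : ℝ) ^ (-(4 * Ex * j)) := by
      rw [pn2]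
      congr 1
      ring
    have hj3 : (A + 2) * Jr ≤ 4 * Ex * j := by
      have h1 := mul_le_mul_of_nonneg_right hj' (by linarith : (0 : ℝ) ≤ Jr)
      calc (A + 2) * Jr ≤ 4 * ε * j * Jr := h1
        _ = 4 * Ex * j := by rw [hEx]; ring
    have hn3 : (2 * A + 4) * Jr ≤ 2 * Ex * n := by
      have h1 := mul_le_mul_of_nonneg_right hn' (by linarith : (0 : ℝ) ≤ Jr)
      calc (2 * A + 4) * Jr ≤ 2 * ε * n * Jr := h1
        _ = 2 * Ex * n := by rw [hEx]; ring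
    have hϑ0 : (0 : ℝ) < 1 / 2 ^ (x + J) := by positivity
    have hϑh : (1 / 2 ^ (x + J) : ℝ) ≤ 1 / 2 := by
      refine one_div_le_one_div_of_le (by norm_num) ?_
      calc (2 : ℝ) = 2 ^ 1 := (pow_one 2).symm
        _ ≤ 2 ^ (x + J) := pow_le_pow_right₀ (by norm_num) (by omega)
    have htail : κ.real {z | ρ ^ 2 ≤ ps z} ≤ ηR := by
      have h1 := hTA (1 / 2 ^ (x + J)) κ hϑ0 (by linarith) (Or.inl hPM) ρ hρ0
      rw [hrat, hj2] at h1
      refine h1.trans ((mul_le_mul_of_nonneg_right kT (pos2 _).le).trans ?_)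
      rw [add2, hηR]
      exact two_rpow_le (by linarith)
    have h1Ψ : ∀ τ, ∀ l ∈ TT J, ‖aS Φ m Y x e J τ l‖ * |1 - Ψ l ^ 3| ≤ Ca * 2 ^ J * ηR := by
      intro τ l hl
      by_cases ha : aS Φ m Y x e J τ l = 0
      · rw [ha, norm_zero, zero_mul]
        positivity
      · refine mul_le_mul (hbd τ l hl) ?_ (abs_nonneg _) (by positivity)
        have h1 := (as_supp hR hm hN hKS he τ l ha).2
        have h2 : (2 : ℝ) ^ Jr / 32 ≤ |(l 0 : ℝ)| := by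
          have h3 := (Int.cast_le (R := ℝ)).2 h1
          push_cast at h3
          rw [hJr, Real.rpow_natCast]
          linarith
        have h3 : |1 - Ψ l| ≤ CF * 32 ^ (2 * m) * (2 : ℝ) ^ (-(2 * m * Ex)) := by
          have h4 := hΨhi l
          have h5 : |1 - Ψ l| * ((2 : ℝ) ^ Jr / 32) ^ (2 * m) ≤ CF * ((2 : ℝ) ^ (Jr - Ex)) ^ (2 * m) :=
            (mul_le_mul_of_nonneg_left (pow_le_pow_left₀ (by positivity) h2 _) (abs_nonneg _)).trans h4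
          have h6 : (0 : ℝ) < ((2 : ℝ) ^ Jr / 32) ^ (2 * m) := by positivity
          have h7 : CF * ((2 : ℝ) ^ (Jr - Ex)) ^ (2 * m) =
              CF * 32 ^ (2 * m) * (2 : ℝ) ^ (-(2 * m * Ex)) * ((2 : ℝ) ^ Jr / 32) ^ (2 * m) := by
            have h8 : ((2 : ℝ) ^ (Jr - Ex)) ^ (2 * m) = (2 : ℝ) ^ (-(2 * m * Ex)) * ((2 : ℝ) ^ Jr) ^ (2 * m) := by
              rw [pn2, pn2, add2]
              congr 1
              push_cast
              ring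
            rw [h8, div_pow]
            field_simp
          rw [h7] at h5
          exact le_of_mul_le_mul_right h5 h6
        have h9 : |1 - Ψ l ^ 3| ≤ 3 * CF ^ 2 * |1 - Ψ l| := by
          have h10 : 1 - Ψ l ^ 3 = (1 + Ψ l + Ψ l ^ 2) * (1 - Ψ l) := by ring
          rw [h10, abs_mul]
          refine mul_le_mul_of_nonneg_right ?_ (abs_nonneg _)
          have h11 := hΨ l
          have h12 : |1 + Ψ l + Ψ l ^ 2| ≤ 1 + |Ψ l| + |Ψ l| ^ 2 := by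
            refine (abs_add_le _ _).trans ?_
            rw [abs_pow]
            have := abs_add_le 1 (Ψ l)
            rw [abs_one] at this
            linarith
          have h13 := abs_nonneg (Ψ l)
          have h14 : |Ψ l| ^ 2 ≤ CF ^ 2 := pow_le_pow_left₀ h13 h11 2
          have h15 : CF ≤ CF ^ 2 := le_self_pow₀ hCF (by norm_num)
          linarith
        refine h9.trans ?_
        calc 3 * CF ^ 2 * |1 - Ψ l| ≤ 3 * CF ^ 2 * (CF * 32 ^ (2 * m) * (2 : ℝ) ^ (-(2 * m * Ex))) :=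
              mul_le_mul_of_nonneg_left h3 (by positivity)
          _ = 3 * CF ^ 3 * 32 ^ (2 * m) * (2 : ℝ) ^ (-(2 * m * Ex)) := by ring
          _ ≤ (2 : ℝ) ^ Ex * (2 : ℝ) ^ (-(2 * m * Ex)) := mul_le_mul_of_nonneg_right k3 (pos2 _).le
          _ ≤ ηR := by
              rw [add2, hηR]
              exact two_rpow_le (by linarith)
    have hband : ∀ t, ∀ h ∉ Bd, ∫ g, ‖po Hc ν₁ ν₂ (fun t h g => VV κ h (G t) g) t h g‖ ^ 2 ∂μ ≤
        ηR ^ 2 * ∫ g, ‖G t g‖ ^ 2 ∂μ := by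
      intro t h hh
      have hcch : η < |cc h| := not_le.1 hh
      have hGt : Continuous (G t) := by
        have h5 : Continuous fun z : ℝ × H => G z.1 z.2 := hG
        exact h5.comp (continuous_const.prodMk continuous_id)
      have h1 := hBN (1 / 2 ^ (x + J)) κ hϑ0 (by linarith) hPM ν₁ ν₂ Ψ _ CF (CF * (2 : ℝ) ^ (-(2 * m * Ex)))
        ((2 : ℝ) ^ (Jr - 2 * Ex)) hFM hΨ (Real.one_le_rpow (by norm_num) (by linarith)) (fun l hl => by
          have h4 := hΨlo l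
          have h5 : |Ψ l| * ((2 : ℝ) ^ (Jr - Ex)) ^ (2 * m) ≤ CF * ((2 : ℝ) ^ (Jr - 2 * Ex)) ^ (2 * m) :=
            h4.trans (mul_le_mul_of_nonneg_left (pow_le_pow_left₀ (abs_nonneg _) hl.le _) hCF0)
          have h6 : (0 : ℝ) < ((2 : ℝ) ^ (Jr - Ex)) ^ (2 * m) := by positivity
          have h7 : CF * ((2 : ℝ) ^ (Jr - 2 * Ex)) ^ (2 * m) =
              CF * (2 : ℝ) ^ (-(2 * m * Ex)) * ((2 : ℝ) ^ (Jr - Ex)) ^ (2 * m) := by
            rw [pn2, pn2, mul_assoc, add2]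
            congr 2
            push_cast
            ring
          rw [h7] at h5
          exact le_of_mul_le_mul_right h5 h6) (G t) hGt (hGT t) h
      refine h1.trans (mul_le_mul_of_nonneg_right ?_ (integral_nonneg fun _ => by positivity))
      have hcc2 : (2 : ℝ) ^ (6 * Ex - (Jr - xr)) ≤ cc h ^ 2 := by
        have h2 : (2 : ℝ) ^ (6 * Ex - (Jr - xr)) = η ^ 2 := by
          rw [hη, pn2]
          congr 1
          push_cast
          ring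
        rw [h2, ← sq_abs (cc h)]
        exact pow_le_pow_left₀ hη0.le hcch.le 2
      have e1 : (2 : ℝ) ^ (2 * Ex) ≤ (2 : ℝ) ^ (Jr - 2 * Ex) * cc h ^ 2 := by
        refine le_trans ?_ (mul_le_mul_of_nonneg_left hcc2 (pos2 _).le)
        rw [add2]
        exact two_rpow_le (by linarith)
      have e2 : (2 : ℝ) ^ (2 * Ex) ≤ 1 / 2 ^ (x + J) * ((2 : ℝ) ^ (Jr - 2 * Ex)) ^ 2 * cc h ^ 2 := by
        refine le_trans ?_ (mul_le_mul_of_nonneg_left hcc2 (by positivity))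
        rw [hϑ, pn2, add2, add2]
        refine two_rpow_le ?_
        push_cast
        linarith
      have e3 : Real.exp (-(c₀ * (2 : ℝ) ^ (Jr - 2 * Ex) * cc h ^ 2)) ≤ Real.exp (-(c₀ * (2 : ℝ) ^ (2 * Ex))) := by
        refine Real.exp_le_exp.2 ?_
        have := mul_le_mul_of_nonneg_left e1 hc₀.le
        linarith
      have e4 : Real.exp (-(c₀ * (1 / 2 ^ (x + J)) * ((2 : ℝ) ^ (Jr - 2 * Ex)) ^ 2 * cc h ^ 2)) ≤
          Real.exp (-(c₀ * (2 : ℝ) ^ (2 * Ex))) := by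
        refine Real.exp_le_exp.2 ?_
        have := mul_le_mul_of_nonneg_left e2 hc₀.le
        linarith
      have e5 := exp_small hc₀ (pos2 (2 * Ex)) n
      have e6 : ((2 : ℝ) ^ (2 * Ex)) ^ n = (2 : ℝ) ^ (2 * Ex * n) := pn2 _ _
      rw [e6] at e5
      have e7 : CF * (2 : ℝ) ^ (-(2 * m * Ex)) ≤ 1 / 2 * ηR := by
        have h2 : CF ≤ 1 / 2 * (2 : ℝ) ^ Ex := by linarith
        refine (mul_le_mul_of_nonneg_right h2 (pos2 _).le).trans ?_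
        rw [mul_assoc, add2, hηR]
        exact mul_le_mul_of_nonneg_left (two_rpow_le (by linarith)) (by norm_num)
      have e8 : (CF * (2 : ℝ) ^ (-(2 * m * Ex))) ^ 2 ≤ 1 / 4 * ηR ^ 2 := by
        calc (CF * (2 : ℝ) ^ (-(2 * m * Ex))) ^ 2 ≤ (1 / 2 * ηR) ^ 2 :=
              pow_le_pow_left₀ (by positivity) e7 2
          _ = _ := by ring
      have e9 : Cb * CF ^ 2 * (Real.exp (-(c₀ * (2 : ℝ) ^ (2 * Ex))) + Real.exp (-(c₀ * (2 : ℝ) ^ (2 * Ex)))) ≤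
          1 / 2 * ηR ^ 2 := by
        calc Cb * CF ^ 2 * (Real.exp (-(c₀ * (2 : ℝ) ^ (2 * Ex))) + Real.exp (-(c₀ * (2 : ℝ) ^ (2 * Ex))))
            ≤ Cb * CF ^ 2 * (n.factorial / c₀ ^ n / (2 : ℝ) ^ (2 * Ex * n) +
              n.factorial / c₀ ^ n / (2 : ℝ) ^ (2 * Ex * n)) :=
              mul_le_mul_of_nonneg_left (add_le_add e5 e5) (by positivity)
          _ = 1 / 2 * (4 * Cb * CF ^ 2 * (n.factorial / c₀ ^ n)) * (2 : ℝ) ^ (-(2 * Ex * n)) := by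
              rw [Real.rpow_neg (by norm_num)]
              ring
          _ ≤ 1 / 2 * (2 : ℝ) ^ Ex * (2 : ℝ) ^ (-(2 * Ex * n)) :=
              mul_le_mul_of_nonneg_right (mul_le_mul_of_nonneg_left kb (by norm_num)) (pos2 _).le
          _ ≤ 1 / 2 * ηR ^ 2 := by
              rw [mul_assoc, add2, hηR, pn2]
              refine mul_le_mul_of_nonneg_left (two_rpow_le ?_) (by norm_num)
              push_cast
              linarith
      have e10 : Cb * CF ^ 2 * (Real.exp (-(c₀ * (2 : ℝ) ^ (Jr - 2 * Ex) * cc h ^ 2)) +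
          Real.exp (-(c₀ * (1 / 2 ^ (x + J)) * ((2 : ℝ) ^ (Jr - 2 * Ex)) ^ 2 * cc h ^ 2))) ≤
          Cb * CF ^ 2 * (Real.exp (-(c₀ * (2 : ℝ) ^ (2 * Ex))) + Real.exp (-(c₀ * (2 : ℝ) ^ (2 * Ex)))) :=
        mul_le_mul_of_nonneg_left (add_le_add e3 e4) (by positivity)
      have e11 : 0 ≤ ηR ^ 2 := sq_nonneg _
      linarith
    have hred := hRE (aS Φ m Y x e J) (TT J) Ψ ν₁ ν₂ _ κ ρ Bd G (Ca * 2 ^ J) ηR hcont (by positivity) hbd h1Ψ hFM hΨ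
      hκp hηR0.le hηR1 htail hBdm hG hG1 hband
    -- the packets
    obtain ⟨hvJ, -, hvb, hvL⟩ := hVC κ ρ G hκp hG
    have hv1 : ∀ t h g, ‖vn κ ρ G t h g‖ ≤ 1 := fun t h g => (hvb 1 hG1 t h g).1
    obtain ⟨hVJ, hVb', hVL'⟩ := hPO ν₁ ν₂ _ hFM.fin₁ hFM.fin₂ hvJ
    have hmass : ν₁.real Set.univ + ν₂.real Set.univ ≤ 2 * CF := by
      linarith [hFM.mass₁, hFM.mass₂]
    have hmass0 : 0 ≤ ν₁.real Set.univ + ν₂.real Set.univ := add_nonneg measureReal_nonneg measureReal_nonneg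
    have hVb : ∀ t h g, ‖po Hc ν₁ ν₂ (vn κ ρ G) t h g‖ ≤ 2 * CF := fun t h g => (hVb' 1 hv1 t h g).trans (by linarith)
    have hVL : ∀ t, ∫ h, ∫ g, ‖po Hc ν₁ ν₂ (vn κ ρ G) t h g‖ ∂μ ∂μ ≤ 2 * CF * ∫ y, ‖G t y‖ ∂μ := by
      intro t
      refine (hVL' t).1.trans ?_
      refine mul_le_mul hmass ((hvL t).1) ?_ (by linarith)
      exact integral_nonneg fun _ => integral_nonneg fun _ => norm_nonneg _
    have hLi : Integrable (fun s => 2 * CF * ∫ y, ‖G s y‖ ∂μ) ((volume : Measure ℝ).restrict (Set.Ioc 0 1)) := by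
      refine Integrable.const_mul ?_ _
      have hi : Integrable (fun z : ℝ × H => ‖G z.1 z.2‖) (((volume : Measure ℝ).restrict (Set.Ioc 0 1)).prod μ) :=
        Integrable.of_bound (Continuous.norm hG).measurable.aestronglyMeasurable 1 (ae_of_all _ fun z => by
          rw [norm_norm]
          exact hG1 _ _)
      exact hi.integral_prod_left
    have hEr : ∫ t in (0 : ℝ)..1, ∫ s in (0 : ℝ)..1, ∫ h, ∫ g, (∫ θ in Set.Icc (0 : Fin 1 → ℝ) 1,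
        ‖po Hc ν₁ ν₂ (vn κ ρ G) s h g‖ * ‖po Hc ν₁ ν₂ (vn κ ρ G) t h (g * tt H Hc θ)‖) ∂μ ∂μ ≤
        (2 * CF) ^ 2 * mG μ G := by
      refine (err μ (tt H Hc) hVJ hVb hVb (fun s => 2 * CF * ∫ y, ‖G s y‖ ∂μ) hLi hVL).trans (le_of_eq ?_)
      rw [intervalIntegral.integral_const_mul]
      unfold mG
      ring
    -- the sets
    set y : ℝ := (2 : ℝ) ^ (-(3 * Ex) - xr) with hy
    have hy0 : 0 < y := pos2 _
    have hy1 : y ≤ 1 := Real.rpow_le_one_of_one_le_of_nonpos (by norm_num) (by linarith)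
    set Q : Set (Fin 1 → ℝ) := Set.Icc (fun _ => 0) (fun _ => y) with hQ
    set S : Set (Fin 1 → ℝ) := sT Ex xr with hS
    have hQm : MeasurableSet Q := measurableSet_Icc
    have hSm : MeasurableSet S := sT_meas _ _
    have hQs : Q ⊆ Set.Icc 0 1 := fun θ h => ⟨h.1, fun i => (h.2 i).trans hy1⟩
    have hSs : S ⊆ Set.Icc 0 1 := fun θ h => h.1
    have hQv : (volume : Measure (Fin 1 → ℝ)).real Q = y := by
      rw [hQ, vol_Icc _ _ hy0.le, sub_zero]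
    have hSv : (volume : Measure (Fin 1 → ℝ)).real S ≤ 9 * (2 : ℝ) ^ (4 * Ex) * y := by
      refine (sT_vol Ex xr).trans (le_of_eq ?_)
      rw [hy, mul_assoc, add2]
      congr 2
      ring
    have p1 := pos2 (-Ex - xr)
    have p2 := pos2 (-Ex)
    have p3 : (2 : ℝ) ^ (-Ex - xr) ≤ (2 : ℝ) ^ (-Ex) := two_rpow_le (by linarith)
    have p4 : (2 : ℝ) ^ (-Ex - xr) ≤ (2 : ℝ) ^ (Ex - xr) := two_rpow_le (by linarith)
    have hx2 : (2 : ℝ) ^ x = (2 : ℝ) ^ xr := nat2 x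
    have hgeo : ∀ φ ∈ Q, ∀ s : Fin 1 → ℝ, |s 0| ≤ 2 * CF * (2 : ℝ) ^ (Ex - Jr) →
        |2 * (s 0 - φ 0)| ≤ (2 : ℝ) ^ (-Ex - xr) / 8 := fun φ hφ s hs =>
      geo hE0 hx0 hJx k8 hCF0 kF (hφ.1 0) (hφ.2 0) hs
    have hkout : ∀ φ ∈ Q, ∀ θ ∈ Set.Icc (0 : Fin 1 → ℝ) 1, θ ∉ S → ∀ τ,
        ‖km (aS Φ m Y x e J) (TT J) Ψ τ (θ - φ)‖ ≤ CK * (2 : ℝ) ^ (-(A * J)) := by
      intro φ hφ θ hθ hθS τ
      refine (hKL Φ J Y x e (TT J) Ψ ν₁ ν₂ _ hR hJ hxY.le ?_ hKS he hsT hFM τ (θ - φ)).2 ?_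
      · have h1 : (1 - 12 * ε) * (J : ℝ) ≤ (1 - ε) * J := mul_le_mul_of_nonneg_right (by linarith) hJr0
        exact hYJ.trans h1
      · intro s hs hmem
        apply hθS
        have h2 := hgeo φ hφ s (by
          have h3 := hs 0
          have h4 := mul_nonneg hCF0 (pos2 (Ex - Jr)).le
          linarith)
        obtain ⟨a1, a2⟩ := hmem
        obtain ⟨a2, a3⟩ := a2 hxY
        have b0 : (θ - φ + s) 0 = θ 0 + (s 0 - φ 0) := by
          simp only [Pi.add_apply, Pi.sub_apply]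
          ring
        rw [b0] at a1 a2 a3
        have b1 := nd_move (x := 2 * (θ 0 + (s 0 - φ 0))) (y := 2 * θ 0) (c := (2 : ℝ) ^ (-Ex - xr) / 8) (by
          have : 2 * (θ 0 + (s 0 - φ 0)) - 2 * θ 0 = 2 * (s 0 - φ 0) := by ring
          rw [this]
          exact h2)
        have b2 := nd_move (x := 2 * (θ 0 + (s 0 - φ 0)) - 1 / 2) (y := 2 * θ 0 - 1 / 2)
          (c := (2 : ℝ) ^ (-Ex - xr) / 8) (by
          have : 2 * (θ 0 + (s 0 - φ 0)) - 1 / 2 - (2 * θ 0 - 1 / 2) = 2 * (s 0 - φ 0) := by ring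
          rw [this]
          exact h2)
        have c1 : (2 : ℝ) ^ (ε * (J : ℝ)) / 2 ^ x = (2 : ℝ) ^ (Ex - xr) := by
          rw [hx2, ← Real.rpow_sub (by norm_num)]
        have c2 : (2 : ℝ) ^ (-(ε * (J : ℝ))) / 2 ^ x = (2 : ℝ) ^ (-Ex - xr) := by
          rw [hx2, ← Real.rpow_sub (by norm_num)]
        rw [c1] at a1
        rw [c2] at a2
        have a3' : (2 : ℝ) ^ (-Ex) ≤ nd (2 * (θ 0 + (s 0 - φ 0)) - 1 / 2) := a3
        refine ⟨hθ, ?_, ?_, ?_⟩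
        · linarith [b1.2]
        · linarith [b1.1]
        · linarith [b2.1]
    -- the cells
    have hclb := hCLB N H Φ B Hc E c k hX μ (km (aS Φ m Y x e J) (TT J) Ψ) (po Hc ν₁ ν₂ (vn κ ρ G))
      (po Hc ν₁ ν₂ (vn κ ρ G)) Bd Q S (CK * (2 : ℝ) ^ (-(A * J))) (km_cont _ _ hcont)
      (fun τ θ n => km_per _ _ τ θ n) hVJ hVJ hBdm hQm hSm hQs hSs (by rw [hQv]; exact hy0) (by positivity) hkout
    have hkbd := hKB Φ J Y x e (TT J) Ψ hR hJ hxY.le (by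
      have h1 : (1 - 12 * ε) * (J : ℝ) ≤ 1 * J := mul_le_mul_of_nonneg_right (by linarith) hJr0
      have h2 : (Y : ℝ) ≤ J := by linarith
      exact_mod_cast h2) hKS he hΨ
    have hkhb := hKHB N H Φ B Hc E c k hX μ _ _ (2 * CF) (po Hc ν₁ ν₂ (vn κ ρ G))
      (po Hc ν₁ ν₂ (vn κ ρ G)) Bd Q S hkbd (by positivity) hVJ hVJ hVb hVb hBdm hQm hSm hQs hSs
    -- the L1 bound
    have hlam : 0 < (2 : ℝ) ^ (-Ex - xr) / 8 := by positivity
    have hη4 : η ≤ 1 / 4 := by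
      have h1 : η ≤ (2 : ℝ) ^ (-Ex) := two_rpow_le (by linarith)
      have h2 : (2 : ℝ) ^ (-Ex) ≤ 1 / 8 := by
        rw [Real.rpow_neg (by norm_num), ← one_div]
        exact one_div_le_one_div_of_le (by norm_num) k8
      linarith
    have hCρ : C2 * ρ ≤ (2 : ℝ) ^ (-Ex - xr) / 8 := by
      have h1 : C2 * ρ ≤ (2 : ℝ) ^ (Ex + (2 * Ex - (xr + Jr) / 2)) := by
        rw [← add2]
        exact mul_le_mul_of_nonneg_right k2 hρ0.le
      have h2 : (2 : ℝ) ^ (Ex + (2 * Ex - (xr + Jr) / 2)) ≤ (2 : ℝ) ^ (-Ex) * (2 : ℝ) ^ (-Ex - xr) := by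
        rw [add2]
        exact two_rpow_le (by linarith)
      have h3 : (2 : ℝ) ^ (-Ex) ≤ 1 / 8 := by
        rw [Real.rpow_neg (by norm_num), ← one_div]
        exact one_div_le_one_div_of_le (by norm_num) k8
      have h4 := mul_le_mul_of_nonneg_right h3 p1.le
      linarith
    have hjbd := hJR κ ρ η ((2 : ℝ) ^ (-Ex - xr) / 8) hκp hρ0.le hη0.le hη4 hlam hCρ
    have hjs := hJS κ ρ _ (C2 * η / ((2 : ℝ) ^ (-Ex - xr) / 8)) Bd {θ | (2 : ℝ) ^ (-Ex - xr) / 8 ≤ nd (4 * θ 0)} ν₁ ν₂ Ψ Q S G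
      hκp (by positivity) (pos2 _).le hjbd hFM hBdm hQm hSm hQs hSs (by
        intro φ hφ θ hθ s hs
        have h2 := hgeo φ hφ s (hs 0)
        obtain ⟨-, -, a2, a3⟩ := hθ
        have b0 : (θ - φ + s) 0 = θ 0 + (s 0 - φ 0) := by
          simp only [Pi.add_apply, Pi.sub_apply]
          ring
        have b1 := nd_move (x := 2 * (θ 0 + (s 0 - φ 0))) (y := 2 * θ 0) (c := (2 : ℝ) ^ (-Ex - xr) / 8) (by
          have : 2 * (θ 0 + (s 0 - φ 0)) - 2 * θ 0 = 2 * (s 0 - φ 0) := by ring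
          rw [this]
          exact h2)
        have b2 := nd_move (x := 2 * (θ 0 + (s 0 - φ 0)) - 1 / 2) (y := 2 * θ 0 - 1 / 2)
          (c := (2 : ℝ) ^ (-Ex - xr) / 8) (by
          have : 2 * (θ 0 + (s 0 - φ 0)) - 1 / 2 - (2 * θ 0 - 1 / 2) = 2 * (s 0 - φ 0) := by ring
          rw [this]
          exact h2)
        change (2 : ℝ) ^ (-Ex - xr) / 8 ≤ nd (4 * (θ - φ + s) 0)
        rw [b0]
        have h3 : 4 * (θ 0 + (s 0 - φ 0)) = 2 * (2 * (θ 0 + (s 0 - φ 0))) := by ring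
        rw [h3]
        refine nd_half _ _ ?_ ?_
        · linarith [b1.2]
        · linarith [b2.2]) hG hG1 hGT
    -- the L2 bound
    have hl2 := hL2 (1 / 2 ^ (x + J)) ρ _ (CF ^ 2 * (2 : ℝ) ^ (xr - Jr + 2 * Ex)) κ ν₁ ν₂ Ψ G hϑ0 hϑh hρ0 hPM hFM (by
      intro l
      rw [hR.pos, Finset.prod_singleton]
      have hl : (((fun _ => 1 : Fin 1 → ℤ) ⬝ᵥ l : ℤ) : ℝ) = (l 0 : ℝ) := by
        simp [dotProduct]
      rw [hl]
      have hM0 := pos2 (Jr - Ex)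
      set M₀ : ℝ := (2 : ℝ) ^ (Jr - Ex) with hM₀
      have e1 : (2 : ℝ) ^ (xr - Jr + 2 * Ex) * (1 / 2 ^ (x + J)) * M₀ ^ 2 = 1 := by
        rw [hϑ, hM₀, pn2, add2, add2]
        have : xr - Jr + 2 * Ex + -(xr + Jr) + (Jr - Ex) * ((2 : ℕ) : ℝ) = 0 := by
          push_cast
          ring
        rw [this, Real.rpow_zero]
      have e2 : 0 ≤ CF ^ 2 * (2 : ℝ) ^ (xr - Jr + 2 * Ex) := by positivity
      have e3 : ∀ v v' : ℝ, v * M₀ ^ 2 = v' → CF ^ 2 * v * 1 =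
          CF ^ 2 * (2 : ℝ) ^ (xr - Jr + 2 * Ex) * (1 / 2 ^ (x + J) * v') := by
        intro v v' hv
        rw [← hv]
        calc CF ^ 2 * v * 1 = CF ^ 2 * v * ((2 : ℝ) ^ (xr - Jr + 2 * Ex) * (1 / 2 ^ (x + J)) * M₀ ^ 2) := by rw [e1]
          _ = _ := by ring
      rcases le_or_gt M₀ |(l 0 : ℝ)| with h1 | h1
      · have h2 : Ψ l ^ 2 ≤ CF ^ 2 := by
          rw [← sq_abs]
          exact pow_le_pow_left₀ (abs_nonneg _) (hΨ l) 2
        have h3 : M₀ ^ 2 ≤ (l 0 : ℝ) ^ 2 := by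
          rw [← sq_abs (l 0 : ℝ)]
          exact pow_le_pow_left₀ hM0.le h1 2
        calc Ψ l ^ 2 ≤ CF ^ 2 * 1 * 1 := by rw [mul_one, mul_one]; exact h2
          _ = CF ^ 2 * (2 : ℝ) ^ (xr - Jr + 2 * Ex) * (1 / 2 ^ (x + J) * M₀ ^ 2) := e3 _ _ (by ring)
          _ ≤ CF ^ 2 * (2 : ℝ) ^ (xr - Jr + 2 * Ex) * (1 + 1 / 2 ^ (x + J) * (l 0 : ℝ) ^ 2) := by
              refine mul_le_mul_of_nonneg_left ?_ e2
              have := mul_le_mul_of_nonneg_left h3 hϑ0.le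
              linarith
      · set z : ℝ := |(l 0 : ℝ)| / M₀ with hz
        have hz0 : 0 ≤ z := by positivity
        have hz1 : z ≤ 1 := (div_le_one hM0).2 h1.le
        have h2 : |Ψ l| ≤ CF * z ^ (2 * m) := by
          have h3 := hΨlo l
          rw [hz, div_pow, mul_div_assoc', le_div_iff₀ (by positivity)]
          exact h3
        have h4 : z ^ (2 * m) ≤ z := pow_le_of_le_one hz0 hz1 (by omega)
        have h5 : |Ψ l| ≤ CF * z := h2.trans (mul_le_mul_of_nonneg_left h4 hCF0)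
        have h6 : z ^ 2 * M₀ ^ 2 = (l 0 : ℝ) ^ 2 := by
          rw [hz, div_pow, sq_abs]
          field_simp
        calc Ψ l ^ 2 ≤ (CF * z) ^ 2 := by
              rw [← sq_abs]
              exact pow_le_pow_left₀ (abs_nonneg _) h5 2
          _ = CF ^ 2 * z ^ 2 * 1 := by ring
          _ = CF ^ 2 * (2 : ℝ) ^ (xr - Jr + 2 * Ex) * (1 / 2 ^ (x + J) * (z ^ 2 * M₀ ^ 2)) := e3 _ _ (by ring)
          _ ≤ CF ^ 2 * (2 : ℝ) ^ (xr - Jr + 2 * Ex) * (1 + 1 / 2 ^ (x + J) * (l 0 : ℝ) ^ 2) := by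
              refine mul_le_mul_of_nonneg_left ?_ e2
              rw [h6]
              linarith) hG hG1
    have hl2' : ∫ t in (0 : ℝ)..1, ∫ h, ∫ g, ‖po Hc ν₁ ν₂ (vn κ ρ G) t h g‖ ^ 2 ∂μ ∂μ ≤
        CL * (2 * CF ^ 2) * (2 : ℝ) ^ (xr - Jr + 2 * Ex) * mG μ G := by
      refine hl2.trans (mul_le_mul_of_nonneg_right ?_ hmG0)
      rw [hrat, hj2]
      have h1 : (2 : ℝ) ^ (-(4 * Ex * j)) ≤ (2 : ℝ) ^ (xr - Jr + 2 * Ex) := two_rpow_le (by linarith)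
      have h2 : (1 : ℝ) ≤ CF ^ 2 := one_le_pow₀ hCF
      have h3 := mul_le_mul_of_nonneg_right h2 (pos2 (xr - Jr + 2 * Ex)).le
      calc CL * (CF ^ 2 * (2 : ℝ) ^ (xr - Jr + 2 * Ex) + (2 : ℝ) ^ (-(4 * Ex * j)))
          ≤ CL * (CF ^ 2 * (2 : ℝ) ^ (xr - Jr + 2 * Ex) + CF ^ 2 * (2 : ℝ) ^ (xr - Jr + 2 * Ex)) := by
            refine mul_le_mul_of_nonneg_left ?_ hCL
            linarith
        _ = _ := by ring
    set LV : ℝ := ∫ t in (0 : ℝ)..1, ∫ h, ∫ g, ‖po Hc ν₁ ν₂ (vn κ ρ G) t h g‖ ^ 2 ∂μ ∂μ with hLV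
    set JV : ℝ := ∫ h in Bd, ∫ g, (∫ t in (0 : ℝ)..1, ∫ φ in Q, ‖po Hc ν₁ ν₂ (vn κ ρ G) t h (g * tt H Hc φ)‖) *
      (∫ t in (0 : ℝ)..1, ∫ θ in S, ‖po Hc ν₁ ν₂ (vn κ ρ G) t h (g * tt H Hc θ)‖) ∂μ ∂μ with hJV
    have hLV0 : 0 ≤ LV := intervalIntegral.integral_nonneg zero_le_one fun _ _ =>
      integral_nonneg fun _ => integral_nonneg fun _ => by positivity
    have hJV0 : 0 ≤ JV := by
      refine integral_nonneg fun _ => integral_nonneg fun _ => mul_nonneg ?_ ?_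
      · exact intervalIntegral.integral_nonneg zero_le_one fun _ _ => integral_nonneg fun _ => norm_nonneg _
      · exact intervalIntegral.integral_nonneg zero_le_one fun _ _ => integral_nonneg fun _ => norm_nonneg _
    rw [hQv] at hjs hkhb hclb
    have hnum := num (q := y) (s := (volume : Measure (Fin 1 → ℝ)).real S) (s₀ := 9 * (2 : ℝ) ^ (4 * Ex))
      (D := CB * (2 : ℝ) ^ (ε * J) * (2 ^ J / 2 ^ x)) (jj := Cj * (C2 * η / ((2 : ℝ) ^ (-Ex - xr) / 8)))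
      (l₀ := CL * (2 * CF ^ 2) * (2 : ℝ) ^ (xr - Jr + 2 * Ex)) (m := mG μ G) (JV := JV) (LV := LV) hy0
      measureReal_nonneg (by positivity) hSv (by positivity) (by positivity) (by positivity) hmG0 hJV0
      (hjs.trans (le_of_eq (by ring))) hLV0 hl2'
    have hexp := expo (E := Ex) (x := xr) (J := Jr) (CK := CB) (CJ := Cj) (CR := C2) (CL := CL * (2 * CF ^ 2)) hE0.le hCB
      hCj hC20 (by positivity)
    have hDD : CB * (2 : ℝ) ^ (ε * (J : ℝ)) * (2 ^ J / 2 ^ x) = CB * (2 : ℝ) ^ Ex * (2 : ℝ) ^ (Jr - xr) := by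
      rw [nat2 J, nat2 x, ← Real.rpow_sub (by norm_num)]
    have hm0 : 0 ≤ mG μ G ^ ((11 : ℝ) / 7) := Real.rpow_nonneg hmG0 _
    have hmain := (mul_le_mul_of_nonneg_left hkhb (by positivity : (0 : ℝ) ≤ 1 / y)).trans hnum
    rw [hDD] at hmain
    have hmain2 := hmain.trans (mul_le_mul_of_nonneg_right hexp hm0)
    have h5E : (2 : ℝ) ^ (5 * ε * (J : ℝ)) = (2 : ℝ) ^ (5 * Ex) := by
      congr 1
      rw [hEx]
      ring
    have hηX : 2 ^ J * ηR = (2 : ℝ) ^ (-(A * J)) := by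
      rw [nat2 J, hηR, add2]
      congr 1
      ring
    have hTBb : ‖TB Hc μ (km (aS Φ m Y x e J) (TT J) Ψ) Bd (po Hc ν₁ ν₂ (vn κ ρ G)) (po Hc ν₁ ν₂ (vn κ ρ G))‖ ≤
        Cf * ((2 : ℝ) ^ (5 * ε * J) * ((2 : ℝ) ^ ((2 : ℝ) / 7 * J) * mG μ G ^ ((11 : ℝ) / 7))) +
        CK * (2 * CF) ^ 2 * ((2 : ℝ) ^ (-(A * J)) * mG μ G) := by
      refine hclb.trans (add_le_add ?_ ?_)
      · refine hmain2.trans (le_of_eq ?_)
        rw [h5E, hCf]
        ring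
      · refine (mul_le_mul_of_nonneg_left hEr (by positivity)).trans (le_of_eq ?_)
        ring
    have hredb : CR * (Ca * 2 ^ J) * ηR * mG μ G = CR * Ca * ((2 : ℝ) ^ (-(A * J)) * mG μ G) := by
      rw [← hηX]
      ring
    rw [hredb] at hred
    have htri := norm_add_le (TX Hc μ (km (aS Φ m Y x e J) (TT J) fun _ => 1) (fun t h g => VV κ h (G t) g)
        (fun t h g => VV κ h (G t) g) -
        TB Hc μ (km (aS Φ m Y x e J) (TT J) Ψ) Bd (po Hc ν₁ ν₂ (vn κ ρ G)) (po Hc ν₁ ν₂ (vn κ ρ G)))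
      (TB Hc μ (km (aS Φ m Y x e J) (TT J) Ψ) Bd (po Hc ν₁ ν₂ (vn κ ρ G)) (po Hc ν₁ ν₂ (vn κ ρ G)))
    rw [sub_add_cancel] at htri
    have g1 := mul_nonneg hC00 hAJ
    have g2 := mul_nonneg hCf0 hAJ
    have g3 : 0 ≤ (CR * Ca + CK * (2 * CF) ^ 2 + C0) * ((2 : ℝ) ^ (5 * ε * J) *
      ((2 : ℝ) ^ ((2 : ℝ) / 7 * J) * mG μ G ^ ((11 : ℝ) / 7))) := by positivity
    linarith

end

end SPH
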