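import Pool.Agent.SPH.StE
import Pool.Agent.STZ3.SPE

/-!
# SPS: the spectral inequality with an interpolation parameter

Each pair of levels satisfies two bounds; the geometric mean with weights `θ`, `1 - θ` is
summable.
-/

namespace SPH

open STZ LGR STZ3 MeasureTheory Matrix Filter

open scoped ComplexConjugate Matrix Real Topology

noncomputable section

namespace SPS

/-- a number below two bounds is below their geometric mean -/
lemma interp {x a b θ : ℝ} (hx : 0 ≤ x) (ha : x ≤ a) (hb : x ≤ b) (hθ0 : 0 < θ) (hθ1 : θ ≤ 1) :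
    x ≤ a ^ θ * b ^ (1 - θ) := by
  rcases hx.eq_or_lt with h | h
  · rw [← h] at ha hb ⊢
    exact mul_nonneg (Real.rpow_nonneg ha _) (Real.rpow_nonneg hb _)
  · have e : x = x ^ θ * x ^ (1 - θ) := by
      rw [← Real.rpow_add h]
      rw [show θ + (1 - θ) = 1 by ring, Real.rpow_one]
    rw [e]
    refine mul_le_mul (Real.rpow_le_rpow hx ha hθ0.le) (Real.rpow_le_rpow hx hb (by linarith))
      (Real.rpow_nonneg hx _) (Real.rpow_nonneg (hx.trans ha) _)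

/-- the trivial bound for a matrix with entries in `[0, 1]` -/
lemma triv {n : ℕ} {M : Matrix (Fin n) (Fin n) ℝ} (hM : ∀ i j, 0 ≤ M i j ∧ M i j ≤ 1)
    {F G : Fin n → ℝ} (hF : ∀ i, 0 ≤ F i) (hG : ∀ i, 0 ≤ G i) :
    |F ⬝ᵥ (M *ᵥ G)| ≤ (∑ i, F i) * (∑ i, G i) := by
  have h0 : 0 ≤ F ⬝ᵥ (M *ᵥ G) := by
    unfold dotProduct Matrix.mulVec dotProduct
    exact Finset.sum_nonneg fun i _ => mul_nonneg (hF i)
      (Finset.sum_nonneg fun j _ => mul_nonneg (hM i j).1 (hG j))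
  rw [abs_of_nonneg h0]
  unfold dotProduct Matrix.mulVec dotProduct
  rw [Finset.sum_mul]
  refine Finset.sum_le_sum fun i _ => mul_le_mul_of_nonneg_left ?_ (hF i)
  refine Finset.sum_le_sum fun j _ => ?_
  calc M i j * G j ≤ 1 * G j := mul_le_mul_of_nonneg_right (hM i j).2 (hG j)
    _ = G j := one_mul _

end SPS

open STZ3.SPE SPS in
theorem t_SPS : S_SPS := by
  classical
  intro k s θ hk hs1 hθ0 hθ1 hsk
  have hkR : (1 : ℝ) ≤ k := by exact_mod_cast hk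
  set τ : ℝ := s * (1 + 1 / (2 * (k : ℝ))) / 2 with hτ
  have hτe : 1 - s / 2 - s / (4 * k) = 1 - τ := by
    rw [hτ]; field_simp; ring
  rw [hτe] at hsk
  set γ : ℝ := (2 : ℝ) ^ (τ - 1) with hγ
  have hγ0 : 0 < γ := by positivity
  set β : ℝ := (2 : ℝ) ^ (s - 1) with hβ
  have hβ0 : 0 < β := by positivity
  set ρ : ℝ := γ ^ θ * β ^ (1 - θ) with hρ
  have hρ0 : 0 < ρ := by positivity
  have hρ1 : ρ < 1 := by
    rw [hρ, hγ, hβ, ← Real.rpow_mul (by norm_num), ← Real.rpow_mul (by norm_num),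
      ← Real.rpow_add (by norm_num)]
    exact Real.rpow_lt_one_of_one_lt_of_neg (by norm_num) (by nlinarith)
  refine ⟨(((2 : ℝ) ^ τ) ^ θ * ((2 : ℝ) ^ s) ^ (1 - θ) * (1 - ρ)⁻¹) ^ 2, sq_nonneg _, ?_⟩
  intro n M B hM hM1 hB0 hB F hF
  have hs0 : 0 < s := by linarith
  have hform : ∑ i, ∑ j, M i j * (F i * F j) = F ⬝ᵥ (M *ᵥ F) := by
    unfold dotProduct Matrix.mulVec dotProduct
    refine Finset.sum_congr rfl fun i _ => ?_
    rw [Finset.mul_sum]
    exact Finset.sum_congr rfl fun j _ => by ring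
  rw [hform]
  have hS0 : 0 ≤ ∑ i, F i ^ s := Finset.sum_nonneg fun i _ => Real.rpow_nonneg (hF i) _
  rcases hS0.eq_or_lt with hS | hS
  · have hz : F = 0 := by
      funext x
      have h1 := (Finset.sum_eq_zero_iff_of_nonneg
        (fun i _ => Real.rpow_nonneg (hF i) s)).1 hS.symm x (Finset.mem_univ _)
      exact (Real.rpow_eq_zero (hF x) hs0.ne').1 h1
    rw [hz]
    simp only [zero_dotProduct, abs_zero]
    have h1 : (0 : ℝ) ≤ (∑ i : Fin n, (0 : Fin n → ℝ) i ^ s) ^ (2 / s) :=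
      Real.rpow_nonneg (Finset.sum_nonneg fun i _ => Real.rpow_nonneg le_rfl _) _
    have h2 : 0 ≤ (B ^ (1 / (2 * (k : ℝ)))) ^ θ := Real.rpow_nonneg (Real.rpow_nonneg hB0 _) _
    exact mul_nonneg (mul_nonneg (sq_nonneg _) h2) h1
  set T : ℝ := (∑ i, F i ^ s) ^ (1 / s) with hT
  have hT0 : 0 < T := by positivity
  have hTs : T ^ s = ∑ i, F i ^ s := by
    rw [hT, ← Real.rpow_mul hS.le, one_div, inv_mul_cancel₀ hs0.ne', Real.rpow_one]
  have hFT : ∀ x, F x ≤ T := by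
    intro x
    have h1 : F x ^ s ≤ T ^ s := by
      rw [hTs]
      exact Finset.single_le_sum (f := fun i => F i ^ s)
        (fun i _ => Real.rpow_nonneg (hF i) s) (Finset.mem_univ x)
    exact (Real.rpow_le_rpow_iff (hF x) hT0.le hs0).1 h1
  set G : ℕ → Fin n → ℝ := fun i x => if lev T F x = i then F x else 0 with hG
  set N : ℕ := Finset.univ.sup (lev T F) + 1 with hN
  have hsum : F = ∑ i ∈ Finset.range N, G i := by
    funext x
    rw [Finset.sum_apply]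
    simp only [hG]
    rw [Finset.sum_ite_eq, if_pos]
    rw [Finset.mem_range, hN]
    exact Nat.lt_succ_of_le (Finset.le_sup (f := lev T F) (Finset.mem_univ x))
  set S : ℕ → Finset (Fin n) := fun i => Finset.univ.filter fun x => lev T F x = i ∧ 0 < F x with hSdef
  have hmem : ∀ i x, x ∈ S i ↔ lev T F x = i ∧ 0 < F x := by
    intro i x; simp [hSdef]
  have hcard : ∀ i, ((S i).card : ℝ) ≤ (2 : ℝ) ^ (((i : ℝ) + 1) * s) := by
    intro i
    have h1 : ((S i).card : ℝ) * (T * (1 / 2) ^ (i + 1)) ^ s ≤ T ^ s := by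
      rw [hTs]
      calc ((S i).card : ℝ) * (T * (1 / 2) ^ (i + 1)) ^ s
          = ∑ x ∈ S i, (T * (1 / 2) ^ (i + 1)) ^ s := by rw [Finset.sum_const, nsmul_eq_mul]
        _ ≤ ∑ x ∈ S i, F x ^ s := by
          refine Finset.sum_le_sum fun x hx => ?_
          obtain ⟨hl, hpos⟩ := (hmem i x).1 hx
          have := (STZ3.SPE.lev_spec hpos (hFT x)).2
          rw [hl] at this
          exact Real.rpow_le_rpow (by positivity) this hs0.le
        _ ≤ ∑ x, F x ^ s := Finset.sum_le_sum_of_subset_of_nonneg (Finset.subset_univ _)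
          (fun x _ _ => Real.rpow_nonneg (hF x) s)
    rw [Real.mul_rpow hT0.le (by positivity)] at h1
    have hTs0 : 0 < T ^ s := by positivity
    have h2 : ((S i).card : ℝ) * ((1 / 2 : ℝ) ^ (i + 1)) ^ s ≤ 1 := by
      have h3 : T ^ s * (((S i).card : ℝ) * ((1 / 2 : ℝ) ^ (i + 1)) ^ s) ≤ T ^ s * 1 := by
        rw [mul_one]; linarith
      exact le_of_mul_le_mul_left h3 hTs0
    have h4 : ((1 / 2 : ℝ) ^ (i + 1)) ^ s = ((2 : ℝ) ^ (((i : ℝ) + 1) * s))⁻¹ := by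
      rw [one_div, inv_pow, Real.inv_rpow (by positivity), Real.rpow_mul (by norm_num)]
      congr 2
      rw [← Real.rpow_natCast]
      push_cast
      rfl
    rw [h4, ← div_eq_mul_inv, div_le_one (by positivity)] at h2
    exact h2
  have hG0 : ∀ i x, 0 ≤ G i x := by
    intro i x
    simp only [hG]
    split_ifs
    · exact hF x
    · exact le_rfl
  have hGS : ∀ i (r : ℕ), r ≠ 0 → ∑ x, G i x ^ r = ∑ x ∈ S i, F x ^ r := by
    intro i r hr
    rw [hSdef, Finset.sum_filter]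
    refine Finset.sum_congr rfl fun x _ => ?_
    simp only [hG]
    by_cases h1 : lev T F x = i
    · by_cases h2 : 0 < F x
      · rw [if_pos h1, if_pos ⟨h1, h2⟩]
      · have h3 : F x = 0 := le_antisymm (not_lt.1 h2) (hF x)
        rw [if_pos h1, if_neg (by tauto), h3, zero_pow hr]
    · rw [if_neg h1, if_neg (by tauto), zero_pow hr]
  have hGr : ∀ i (r : ℕ), r ≠ 0 → ∑ x, G i x ^ r ≤
      (T * (1 / 2) ^ i) ^ r * (2 : ℝ) ^ (((i : ℝ) + 1) * s) := by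
    intro i r hr
    rw [hGS i r hr]
    calc ∑ x ∈ S i, F x ^ r ≤ ∑ x ∈ S i, (T * (1 / 2) ^ i) ^ r := by
          refine Finset.sum_le_sum fun x hx => ?_
          obtain ⟨hl, hpos⟩ := (hmem i x).1 hx
          have := (STZ3.SPE.lev_spec hpos (hFT x)).1
          rw [hl] at this
          exact pow_le_pow_left₀ (hF x) this r
      _ = ((S i).card : ℝ) * (T * (1 / 2) ^ i) ^ r := by rw [Finset.sum_const, nsmul_eq_mul]
      _ ≤ (2 : ℝ) ^ (((i : ℝ) + 1) * s) * (T * (1 / 2) ^ i) ^ r :=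
          mul_le_mul_of_nonneg_right (hcard i) (by positivity)
      _ = (T * (1 / 2) ^ i) ^ r * (2 : ℝ) ^ (((i : ℝ) + 1) * s) := by ring
  set B' : ℝ := B ^ (1 / (2 * (k : ℝ))) with hB'
  have hB'0 : 0 ≤ B' := Real.rpow_nonneg hB0 _
  have hsq : ∀ i, Real.sqrt (N2 M (G i)) ≤ (T * Real.sqrt B' * (2 : ℝ) ^ τ) * γ ^ i := by
    intro i
    have h1 := N2_le hM hk hB0 hB (hG0 i) (u := T * (1 / 2) ^ i)
      (p := (2 : ℝ) ^ (((i : ℝ) + 1) * s)) (by positivity) (by positivity)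
      (by simpa using hGr i 1 one_ne_zero) (hGr i 2 two_ne_zero)
    apply Real.sqrt_le_iff.2
    refine ⟨by positivity, h1.trans (le_of_eq ?_)⟩
    have e1 : ((T * Real.sqrt B' * (2 : ℝ) ^ τ) * γ ^ i) ^ 2 =
        T ^ 2 * B' * (((2 : ℝ) ^ τ) ^ 2 * (γ ^ i) ^ 2) := by
      rw [mul_pow, mul_pow, mul_pow, Real.sq_sqrt hB'0]; ring
    rw [e1, mul_pow, ← hB']
    have e2 : ((2 : ℝ) ^ (((i : ℝ) + 1) * s)) ^ (1 + 1 / (2 * (k : ℝ))) =
        (2 : ℝ) ^ (2 * ((i : ℝ) + 1) * τ) := by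
      rw [← Real.rpow_mul (by norm_num)]
      congr 1
      rw [hτ]; ring
    have e3 : (((1 / 2 : ℝ)) ^ i) ^ 2 = (2 : ℝ) ^ (-(2 * (i : ℝ))) := by
      rw [Real.rpow_neg (by norm_num), one_div, inv_pow, inv_pow, ← pow_mul, ← Real.rpow_natCast]
      congr 2
      push_cast; ring
    have e4 : ((2 : ℝ) ^ τ) ^ 2 = (2 : ℝ) ^ (2 * τ) := by
      rw [← Real.rpow_natCast, ← Real.rpow_mul (by norm_num)]
      congr 1
      push_cast; ring
    have e5 : (γ ^ i) ^ 2 = (2 : ℝ) ^ (2 * (i : ℝ) * (τ - 1)) := by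
      rw [hγ, ← pow_mul, ← Real.rpow_natCast, ← Real.rpow_mul (by norm_num)]
      congr 1
      push_cast; ring
    rw [e2, e3, e4, e5, ← Real.rpow_add (by norm_num)]
    have e6 : T ^ 2 * (2 : ℝ) ^ (-(2 * (i : ℝ))) * (2 : ℝ) ^ (2 * ((i : ℝ) + 1) * τ) * B' =
        T ^ 2 * B' * ((2 : ℝ) ^ (-(2 * (i : ℝ))) * (2 : ℝ) ^ (2 * ((i : ℝ) + 1) * τ)) := by ring
    rw [e6, ← Real.rpow_add (by norm_num)]
    congr 2
    ring
  have hsm : ∀ i, ∑ x, G i x ≤ (T * (2 : ℝ) ^ s) * β ^ i := by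
    intro i
    have h1 := hGr i 1 one_ne_zero
    simp only [pow_one] at h1
    refine h1.trans (le_of_eq ?_)
    have e1 : (2 : ℝ) ^ (((i : ℝ) + 1) * s) = (2 : ℝ) ^ s * ((2 : ℝ) ^ i * β ^ i) := by
      rw [hβ, ← Real.rpow_natCast, ← Real.rpow_natCast, ← Real.rpow_mul (by norm_num),
        ← Real.rpow_add (by norm_num), ← Real.rpow_add (by norm_num)]
      congr 1
      ring
    rw [e1]
    have e2 : ((1 : ℝ) / 2) ^ i * (2 : ℝ) ^ i = 1 := by
      rw [← mul_pow]; norm_num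
    calc T * (1 / 2) ^ i * ((2 : ℝ) ^ s * ((2 : ℝ) ^ i * β ^ i))
        = (T * (2 : ℝ) ^ s * β ^ i) * ((1 / 2) ^ i * (2 : ℝ) ^ i) := by ring
      _ = _ := by rw [e2, mul_one]
  set c : ℕ → ℝ := fun i => ((T * Real.sqrt B' * (2 : ℝ) ^ τ) * γ ^ i) ^ θ *
    ((T * (2 : ℝ) ^ s) * β ^ i) ^ (1 - θ) with hc
  have hsqB : 0 ≤ Real.sqrt B' := Real.sqrt_nonneg _
  set K : ℝ := T * (Real.sqrt B') ^ θ * (((2 : ℝ) ^ τ) ^ θ * ((2 : ℝ) ^ s) ^ (1 - θ)) with hK
  have hK0 : 0 ≤ K := by positivity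
  have hce : ∀ i, c i = K * ρ ^ i := by
    intro i
    have e0 : ρ ^ i = (γ ^ i) ^ θ * (β ^ i) ^ (1 - θ) := by
      rw [hρ, mul_pow, ← Real.rpow_natCast, ← Real.rpow_natCast, ← Real.rpow_natCast,
        ← Real.rpow_natCast, ← Real.rpow_mul hγ0.le, ← Real.rpow_mul hγ0.le,
        ← Real.rpow_mul hβ0.le, ← Real.rpow_mul hβ0.le, mul_comm θ, mul_comm (1 - θ)]
    have e1 : T ^ θ * T ^ (1 - θ) = T := by
      rw [← Real.rpow_add hT0, show θ + (1 - θ) = 1 by ring, Real.rpow_one]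
    simp only [hc]
    rw [e0, hK, Real.mul_rpow (by positivity) (by positivity),
      Real.mul_rpow (by positivity) (by positivity), Real.mul_rpow hT0.le hsqB,
      Real.mul_rpow (by positivity) (by positivity), Real.mul_rpow hT0.le (by positivity)]
    calc T ^ θ * Real.sqrt B' ^ θ * ((2 : ℝ) ^ τ) ^ θ * (γ ^ i) ^ θ *
          (T ^ (1 - θ) * ((2 : ℝ) ^ s) ^ (1 - θ) * (β ^ i) ^ (1 - θ))
        = (T ^ θ * T ^ (1 - θ)) * Real.sqrt B' ^ θ * (((2 : ℝ) ^ τ) ^ θ *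
          ((2 : ℝ) ^ s) ^ (1 - θ)) * ((γ ^ i) ^ θ * (β ^ i) ^ (1 - θ)) := by ring
      _ = _ := by rw [e1]
  have hpair : ∀ i j, |(G i) ⬝ᵥ (M *ᵥ (G j))| ≤ c i * c j := by
    intro i j
    have hA : |(G i) ⬝ᵥ (M *ᵥ (G j))| ≤ ((T * Real.sqrt B' * (2 : ℝ) ^ τ) * γ ^ i) *
        ((T * Real.sqrt B' * (2 : ℝ) ^ τ) * γ ^ j) :=
      (form_le hM _ _).trans (mul_le_mul (hsq i) (hsq j) (Real.sqrt_nonneg _) (by positivity))
    have hD : |(G i) ⬝ᵥ (M *ᵥ (G j))| ≤ ((T * (2 : ℝ) ^ s) * β ^ i) *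
        ((T * (2 : ℝ) ^ s) * β ^ j) :=
      (triv hM1 (hG0 i) (hG0 j)).trans (mul_le_mul (hsm i) (hsm j)
        (Finset.sum_nonneg fun x _ => hG0 j x) (by positivity))
    refine (interp (abs_nonneg _) hA hD hθ0 hθ1).trans (le_of_eq ?_)
    simp only [hc]
    rw [Real.mul_rpow (by positivity) (by positivity),
      Real.mul_rpow (x := T * (2 : ℝ) ^ s * β ^ i) (by positivity) (by positivity)]
    ring
  have hmain : |F ⬝ᵥ (M *ᵥ F)| ≤ (∑ i ∈ Finset.range N, c i) ^ 2 := by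
    have e1 : F ⬝ᵥ (M *ᵥ F) = ∑ i ∈ Finset.range N, ∑ j ∈ Finset.range N,
        (G i) ⬝ᵥ (M *ᵥ (G j)) := by
      conv_lhs => rw [hsum]
      rw [sum_dotProduct]
      refine Finset.sum_congr rfl fun i _ => ?_
      have e2 : M *ᵥ (∑ j ∈ Finset.range N, G j) = ∑ j ∈ Finset.range N, M *ᵥ (G j) :=
        map_sum (Matrix.mulVecLin M) _ _
      rw [e2, dotProduct_sum]
    rw [e1, sq, Finset.sum_mul_sum]
    refine (Finset.abs_sum_le_sum_abs _ _).trans (Finset.sum_le_sum fun i _ => ?_)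
    refine (Finset.abs_sum_le_sum_abs _ _).trans (Finset.sum_le_sum fun j _ => ?_)
    exact hpair i j
  have hgeo : ∑ i ∈ Finset.range N, ρ ^ i ≤ (1 - ρ)⁻¹ := by
    rw [← tsum_geometric_of_lt_one hρ0.le hρ1]
    exact (summable_geometric_of_lt_one hρ0.le hρ1).sum_le_tsum _
      (fun i _ => pow_nonneg hρ0.le i)
  have hle : ∑ i ∈ Finset.range N, c i ≤ K * (1 - ρ)⁻¹ := by
    calc ∑ i ∈ Finset.range N, c i
        = ∑ i ∈ Finset.range N, K * ρ ^ i := Finset.sum_congr rfl fun i _ => hce i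
      _ = K * ∑ i ∈ Finset.range N, ρ ^ i := by rw [Finset.mul_sum]
      _ ≤ _ := mul_le_mul_of_nonneg_left hgeo hK0
  have hc0 : ∀ i, 0 ≤ c i := by
    intro i
    rw [hce]
    exact mul_nonneg hK0 (pow_nonneg hρ0.le _)
  have hT2 : T ^ 2 = (∑ i, F i ^ s) ^ (2 / s) := by
    rw [hT, ← Real.rpow_natCast, ← Real.rpow_mul hS.le]
    congr 1
    push_cast
    field_simp
  calc |F ⬝ᵥ (M *ᵥ F)| ≤ (∑ i ∈ Finset.range N, c i) ^ 2 := hmain
    _ ≤ (K * (1 - ρ)⁻¹) ^ 2 :=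
        pow_le_pow_left₀ (Finset.sum_nonneg fun i _ => hc0 i) hle 2
    _ = (((2 : ℝ) ^ τ) ^ θ * ((2 : ℝ) ^ s) ^ (1 - θ) * (1 - ρ)⁻¹) ^ 2 * B' ^ θ *
          (∑ i, F i ^ s) ^ (2 / s) := by
        rw [← hT2]
        have e7 : ((Real.sqrt B') ^ θ) ^ 2 = B' ^ θ := by
          rw [← Real.rpow_natCast, ← Real.rpow_mul hsqB, mul_comm, Real.rpow_mul hsqB,
            Real.rpow_natCast, Real.sq_sqrt hB'0]
        rw [hK, ← e7]
        ring

end

end SPH
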