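import Pool.Agent.SPH.StC
import Pool.Agent.LGR.TPOL
import Mathlib.Analysis.Analytic.IsolatedZeros
import Mathlib.Analysis.Complex.CauchyIntegral

/-!
# Module SPW: the weights of the vector of weight zero
-/

namespace SPH

open STZ LGR STZ3 MeasureTheory Matrix Filter

open scoped ComplexConjugate Matrix Real Topology

noncomputable section

namespace SPW

/-- the constant function -/
def cst (N : ℤ) : Fin 1 → ℤ := fun _ => N

theorem cst_inj {a b : ℤ} : cst a = cst b ↔ a = b :=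
  ⟨fun h => congrFun h 0, fun h => by rw [h]⟩

theorem cst_zero (ν : Fin 1 → ℤ) : cst (ν 0) = ν := by
  funext i
  rw [Subsingleton.elim i 0]
  rfl

theorem dz_cst (N : ℤ) (θ : Fin 1 → ℝ) : dz (cst N) θ = N * θ 0 := by
  simp [dz, cst]

theorem eu_add (a b : ℝ) : eu (a + b) = eu a * eu b := by
  simp only [eu]
  rw [← Complex.exp_add]
  congr 1
  push_cast
  ring

/-- the number of the weights which are equal to `M` -/
def cn {n : ℕ} (m : Fin n → ℤ) (M : ℤ) : ℤ := ∑ j, if m j = M then 1 else 0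

/-- the expected number -/
def dn (l M : ℤ) : ℤ := if |M| ≤ l - 1 ∧ (M - (l - 1)) % 2 = 0 then 1 else 0

theorem dn_rel (l N : ℤ) (hl : 1 ≤ l) :
    dn l (N - 1) - dn l (N + 1) = (if N = l then 1 else 0) - (if N = -l then 1 else 0) := by
  unfold dn
  have h1 : ∀ x y : ℤ, (|x| ≤ y) = (-y ≤ x ∧ x ≤ y) := fun x y => propext abs_le
  simp only [h1]
  split_ifs <;> omega

theorem cn_rel (hT : S_TPOL) {n : ℕ} (m : Fin n → ℤ) (l : ℤ)
    (h : ∀ θ : ℝ, (eu θ - eu (-θ)) * ∑ j, eu (m j * θ) = eu (l * θ) - eu (-(l * θ))) (N : ℤ) :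
    cn m (N - 1) - cn m (N + 1) = (if N = l then 1 else 0) - (if N = -l then 1 else 0) := by
  classical
  set a : (Fin 1 → ℤ) → ℂ := fun ν => ∑ j, ((if ν = cst (m j + 1) then (1 : ℂ) else 0) - (if ν = cst (m j - 1) then 1 else 0)) -
    (if ν = cst l then 1 else 0) + (if ν = cst (-l) then 1 else 0) with ha
  set S : Finset (Fin 1 → ℤ) := (Finset.univ.image fun j => cst (m j + 1)) ∪ (Finset.univ.image fun j => cst (m j - 1)) ∪
    {cst l, cst (-l)} with hS
  have hS1 : ∀ j, cst (m j + 1) ∈ S := fun j => by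
    rw [hS, Finset.mem_union, Finset.mem_union]
    exact Or.inl (Or.inl (Finset.mem_image_of_mem _ (Finset.mem_univ j)))
  have hS2 : ∀ j, cst (m j - 1) ∈ S := fun j => by
    rw [hS, Finset.mem_union, Finset.mem_union]
    exact Or.inl (Or.inr (Finset.mem_image_of_mem (fun j => cst (m j - 1)) (Finset.mem_univ j)))
  have hS3 : cst l ∈ S := by
    rw [hS, Finset.mem_union]
    right
    simp
  have hS4 : cst (-l) ∈ S := by
    rw [hS, Finset.mem_union]
    right
    simp
  have hz : ∀ θ : Fin 1 → ℝ, ∑ ν ∈ S, a ν * eu (dz ν θ) = 0 := by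
    intro θ
    have e1 : ∀ ν₀ ∈ S, ∑ ν ∈ S, (if ν = ν₀ then (1 : ℂ) else 0) * eu (dz ν θ) = eu (dz ν₀ θ) := by
      intro ν₀ h0
      rw [Finset.sum_eq_single ν₀]
      · simp
      · intro b _ hb
        rw [if_neg hb, zero_mul]
      · intro hb
        exact absurd h0 hb
    have e2 : ∑ ν ∈ S, a ν * eu (dz ν θ) = ∑ j, (eu (dz (cst (m j + 1)) θ) - eu (dz (cst (m j - 1)) θ)) -
        eu (dz (cst l) θ) + eu (dz (cst (-l)) θ) := by
      have e3 : ∀ ν ∈ S, a ν * eu (dz ν θ) = ∑ j, ((if ν = cst (m j + 1) then (1 : ℂ) else 0) * eu (dz ν θ) -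
          (if ν = cst (m j - 1) then 1 else 0) * eu (dz ν θ)) - (if ν = cst l then 1 else 0) * eu (dz ν θ) +
          (if ν = cst (-l) then 1 else 0) * eu (dz ν θ) := by
        intro ν _
        rw [ha]
        simp only
        rw [add_mul, sub_mul, Finset.sum_mul]
        congr 2
        exact Finset.sum_congr rfl fun j _ => by ring
      rw [Finset.sum_congr rfl e3, Finset.sum_add_distrib, Finset.sum_sub_distrib, Finset.sum_comm, e1 _ hS3, e1 _ hS4]
      congr 2
      refine Finset.sum_congr rfl fun j _ => ?_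
      rw [Finset.sum_sub_distrib, e1 _ (hS1 j), e1 _ (hS2 j)]
    rw [e2]
    have h1 := h (θ 0)
    have h2 : ∀ j, eu (dz (cst (m j + 1)) θ) - eu (dz (cst (m j - 1)) θ) = (eu (θ 0) - eu (-(θ 0))) * eu (m j * θ 0) := by
      intro j
      rw [dz_cst, dz_cst, sub_mul, ← eu_add, ← eu_add]
      congr 2 <;> · push_cast; ring_nf
    rw [Finset.sum_congr rfl fun j _ => h2 j, ← Finset.mul_sum, h1, dz_cst, dz_cst]
    push_cast
    rw [neg_mul]
    ring
  have h0 : a (cst N) = 0 := by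
    by_cases hN : cst N ∈ S
    · exact (hT 1).2 S a hz _ hN
    · rw [ha]
      simp only
      rw [if_neg (fun hh : cst N = cst l => hN (hh ▸ hS3)), if_neg (fun hh : cst N = cst (-l) => hN (hh ▸ hS4)),
        Finset.sum_eq_zero]
      · ring
      · intro j _
        rw [if_neg (fun hh : cst N = cst (m j + 1) => hN (hh ▸ hS1 j)),
          if_neg (fun hh : cst N = cst (m j - 1) => hN (hh ▸ hS2 j)), sub_zero]
  have h3 : ((cn m (N - 1) - cn m (N + 1) - ((if N = l then 1 else 0) - (if N = -l then 1 else 0)) : ℤ) : ℂ) = 0 := by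
    rw [← h0, ha]
    simp only [cn]
    push_cast
    simp only [cst_inj]
    rw [Finset.sum_sub_distrib]
    have q1 : ∀ j, (if m j = N - 1 then (1 : ℂ) else 0) = if N = m j + 1 then 1 else 0 := by
      intro j
      by_cases h : N = m j + 1
      · rw [if_pos h, if_pos (by omega)]
      · rw [if_neg h, if_neg (by omega)]
    have q2 : ∀ j, (if m j = N + 1 then (1 : ℂ) else 0) = if N = m j - 1 then 1 else 0 := by
      intro j
      by_cases h : N = m j - 1
      · rw [if_pos h, if_pos (by omega)]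
      · rw [if_neg h, if_neg (by omega)]
    simp only [q1, q2]
    ring
  have h4 : (cn m (N - 1) - cn m (N + 1) - ((if N = l then 1 else 0) - (if N = -l then 1 else 0)) : ℤ) = 0 := by
    exact_mod_cast h3
  linarith

theorem cn_eq (hT : S_TPOL) {n : ℕ} (m : Fin n → ℤ) (l : ℤ) (hl : 1 ≤ l)
    (h : ∀ θ : ℝ, (eu θ - eu (-θ)) * ∑ j, eu (m j * θ) = eu (l * θ) - eu (-(l * θ))) (M : ℤ) :
    cn m M = dn l M := by
  have h1 : ∀ N : ℤ, cn m (N - 1) - dn l (N - 1) = cn m (N + 1) - dn l (N + 1) := by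
    intro N
    have h2 := cn_rel hT m l h N
    have h3 := dn_rel l N hl
    linarith
  have h2 : ∀ k : ℕ, cn m M - dn l M = cn m (M + 2 * k) - dn l (M + 2 * k) := by
    intro k
    induction k with
    | zero => simp
    | succ k ih =>
      rw [ih]
      have h3 := h1 (M + 2 * k + 1)
      rw [show M + 2 * (k : ℤ) + 1 - 1 = M + 2 * k by ring, show M + 2 * (k : ℤ) + 1 + 1 = M + 2 * ((k + 1 : ℕ) : ℤ) by push_cast; ring] at h3
      exact h3
  obtain ⟨B, hB⟩ : ∃ B : ℤ, ∀ j, m j ≤ B := by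
    refine ⟨∑ j, |m j|, fun j => ?_⟩
    exact le_trans (le_abs_self _) (Finset.single_le_sum (f := fun j => |m j|) (fun _ _ => abs_nonneg _) (Finset.mem_univ j))
  set k : ℕ := (|M| + |B| + |l| + 1).toNat with hk
  have hkv : (k : ℤ) = |M| + |B| + |l| + 1 := by
    rw [hk, Int.toNat_of_nonneg]
    positivity
  have h3 := h2 k
  have e1 : M + 2 * (k : ℤ) > |B| ∧ M + 2 * (k : ℤ) > |l| := by
    have := neg_abs_le M
    have := abs_nonneg B
    have := abs_nonneg l
    have := abs_nonneg M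
    constructor <;> linarith
  have h4 : cn m (M + 2 * k) = 0 := by
    unfold cn
    refine Finset.sum_eq_zero fun j _ => ?_
    rw [if_neg]
    intro h
    have := hB j
    have := le_abs_self B
    linarith [e1.1]
  have h5 : dn l (M + 2 * k) = 0 := by
    unfold dn
    rw [if_neg]
    rintro ⟨h, -⟩
    have := le_abs_self (M + 2 * (k : ℤ))
    have := le_abs_self l
    linarith [e1.2]
  rw [h4, h5] at h3
  linarith

/-- the Legendre polynomials are differentiable -/
theorem lp_diff : ∀ n : ℕ, Differentiable ℂ (LP n)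
  | 0 => by
    have : LP 0 = fun _ => 1 := by funext x; rfl
    rw [this]
    exact differentiable_const _
  | 1 => by
    have : LP 1 = fun x => x := by funext x; rfl
    rw [this]
    exact differentiable_id
  | (n + 2) => by
    have : LP (n + 2) = fun x => ((2 * (n : ℂ) + 3) * x * LP (n + 1) x - ((n : ℂ) + 1) * LP n x) / ((n : ℂ) + 2) := by
      funext x
      rfl
    rw [this]
    have h1 := lp_diff (n + 1)
    have h2 := lp_diff n
    fun_prop

/-- analytic continuation from the real line -/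
theorem cont {F : ℂ → ℂ} (hF : Differentiable ℂ F) (h : ∀ θ : ℝ, F θ = 0) (z : ℂ) : F z = 0 := by
  have h1 : AnalyticOnNhd ℂ F Set.univ := hF.differentiableOn.analyticOnNhd isOpen_univ
  have h2 : ∃ᶠ w in 𝓝[≠] (0 : ℂ), F w = 0 := by
    rw [Filter.frequently_iff]
    intro U hU
    rw [mem_nhdsWithin_iff_exists_mem_nhds_inter] at hU
    obtain ⟨V, hV, hVU⟩ := hU
    obtain ⟨ε, hε, hb⟩ := Metric.mem_nhds_iff.1 hV
    refine ⟨((ε / 2 : ℝ) : ℂ), hVU ⟨hb ?_, ?_⟩, h _⟩
    · rw [Metric.mem_ball, dist_zero_right, Complex.norm_real, Real.norm_eq_abs, abs_of_pos (by positivity)]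
      linarith
    · rw [Set.mem_compl_iff, Set.mem_singleton_iff, Complex.ofReal_eq_zero]
      positivity
  exact h1.eqOn_zero_of_preconnected_of_frequently_eq_zero isPreconnected_univ (Set.mem_univ _) h2 (Set.mem_univ z)

/-- the weights are different -/
theorem weights (hT : S_TPOL) {n : ℕ} (m : Fin n → ℤ) (l : ℤ) (hl : 1 ≤ l)
    (h : ∀ θ : ℝ, (eu θ - eu (-θ)) * ∑ j, eu (m j * θ) = eu (l * θ) - eu (-(l * θ))) :
    (∀ i j, m i = m j → i = j) ∧ ∀ j, |m j| ≤ l - 1 ∧ (m j - (l - 1)) % 2 = 0 := by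
  have h1 := cn_eq hT m l hl h
  have h2 : ∀ j, |m j| ≤ l - 1 ∧ (m j - (l - 1)) % 2 = 0 := by
    intro j
    by_contra hc
    have h3 := h1 (m j)
    unfold dn at h3
    rw [if_neg hc] at h3
    have h4 : (1 : ℤ) ≤ cn m (m j) := by
      unfold cn
      have h5 := Finset.single_le_sum (f := fun i => if m i = m j then (1 : ℤ) else 0)
        (fun i _ => by split_ifs <;> norm_num) (Finset.mem_univ j)
      simp only [if_true] at h5
      exact h5
    omega
  refine ⟨fun i j hij => ?_, h2⟩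
  by_contra hne
  have h3 := h1 (m j)
  unfold dn at h3
  rw [if_pos (h2 j)] at h3
  have h4 : (2 : ℤ) ≤ cn m (m j) := by
    unfold cn
    have h5 : ∑ i' ∈ ({i, j} : Finset (Fin n)), (if m i' = m j then (1 : ℤ) else 0) ≤
        ∑ i', if m i' = m j then (1 : ℤ) else 0 :=
      Finset.sum_le_sum_of_subset_of_nonneg (Finset.subset_univ _) fun i' _ _ => by split_ifs <;> norm_num
    rw [Finset.sum_pair hne, if_pos hij, if_pos rfl] at h5
    linarith
  omega

/-- continuous functions of a real variable which agree where `eu x ≠ eu (-x)` are equal -/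
theorem ext_dense {f g : ℝ → ℂ} (hf : Continuous f) (hg : Continuous g)
    (h : ∀ x, (eu x - eu (-x)) * f x = (eu x - eu (-x)) * g x) : f = g := by
  have hc : {x : ℝ | eu x = eu (-x)}.Countable := by
    refine (Set.countable_range fun n : ℤ => (n : ℝ) / 2).mono ?_
    intro x hx
    change eu x = eu (-x) at hx
    unfold eu at hx
    rw [Complex.exp_eq_exp_iff_exists_int] at hx
    obtain ⟨n, hn⟩ := hx
    refine ⟨n, ?_⟩
    have h2 : (2 * π * Complex.I : ℂ) ≠ 0 := Complex.two_pi_I_ne_zero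
    have h3 : ((2 * x : ℝ) : ℂ) * (2 * π * Complex.I) = ((n : ℝ) : ℂ) * (2 * π * Complex.I) := by
      push_cast at hn ⊢
      linear_combination hn
    have h4 := mul_right_cancel₀ h2 h3
    have h5 : 2 * x = n := by exact_mod_cast h4
    simp only
    linarith
  refine Continuous.ext_on (hc.dense_compl ℝ) hf hg fun x hx => ?_
  have h1 : eu x - eu (-x) ≠ 0 := sub_ne_zero.2 hx
  exact mul_left_cancel₀ h1 (h x)

/-- the trace in a basis of weight vectors -/
theorem trace_eq {n : ℕ} (U S : Matrix (Fin n) (Fin n) ℂ) (d : Fin n → ℂ) :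
    (S * (U * Matrix.diagonal d * Uᴴ)).trace = ∑ j, (Uᴴ * S * U) j j * d j := by
  rw [show S * (U * Matrix.diagonal d * Uᴴ) = (S * U * Matrix.diagonal d) * Uᴴ by simp only [Matrix.mul_assoc],
    Matrix.trace_mul_comm, show Uᴴ * (S * U * Matrix.diagonal d) = (Uᴴ * S * U) * Matrix.diagonal d by
      simp only [Matrix.mul_assoc]]
  unfold Matrix.trace
  refine Finset.sum_congr rfl fun j _ => ?_
  rw [Matrix.diag_apply, Matrix.mul_diagonal]

/-- the exponential function -/
theorem eu_re (x : ℝ) : (eu x).re = Real.cos (2 * π * x) := by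
  unfold eu
  rw [show (2 * (π : ℂ) * (x : ℂ) * Complex.I) = ((2 * π * x : ℝ) : ℂ) * Complex.I by push_cast; ring,
    Complex.exp_ofReal_mul_I_re]

end SPW

open SPW in
theorem t_SPW : M_SPW := by
  intro hWFAC hTAUF hCONJ hTPOL hPSF hRNK hCHT N H Φ B Hc E c k hCX cc ze w C₀ hSP htr χ hχ n σ l U μ hirr hP hHWR hWT
  have hw := hWFAC 1 Φ B hCX.lrd.ird
  have R := hRNK Φ B hCX.lrd.ird hw
  obtain ⟨C, hC0, P⟩ := hPSF N H 1 Φ B Hc E c k 3 hCX
  have T := hTAUF N H 1 Φ B Hc E hCX.closed hCX.lrd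
  have hl1 : 1 ≤ l 0 := by
    have := hHWR.reg 0
    omega
  -- the representation on the torus
  have htor : ∀ θ : Fin 1 → ℝ, σ.ρ (tt H Hc θ) = U * Matrix.diagonal (fun k => eu (dz (μ k) θ)) * Uᴴ := fun θ =>
    hWT.tor (tt H Hc θ) θ (P.tcoe θ)
  have hch : ∀ θ : Fin 1 → ℝ, σ.ch (tt H Hc θ) = ∑ j, eu (dz (μ j) θ) := by
    intro θ
    unfold Rep.ch
    rw [htor, ← Matrix.one_mul (U * Matrix.diagonal (fun k => eu (dz (μ k) θ)) * Uᴴ), trace_eq, Matrix.mul_one, hWT.ru]
    simp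
  have hdz : ∀ (m : Fin 1 → ℤ) (θ : Fin 1 → ℝ), dz m θ = m 0 * θ 0 := by
    intro m θ
    rw [← cst_zero m, dz_cst]
    rfl
  have hrel : ∀ x : ℝ, (eu x - eu (-x)) * ∑ j, eu ((μ j 0 : ℤ) * x) = eu ((l 0 : ℤ) * x) - eu (-((l 0 : ℤ) * x)) := by
    intro x
    have h1 := hHWR.wcf (tt H Hc fun _ => x) (fun _ => x) (P.tcoe _)
    rw [hch, R.at', R.at'] at h1
    simp only [hdz, Pi.one_apply, Int.cast_one, one_mul] at h1
    exact h1
  obtain ⟨hdis, hwt⟩ := weights hTPOL (fun j => μ j 0) (l 0) hl1 hrel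
  have hinj : ∀ i j, μ i = μ j → i = j := fun i j h => hdis i j (congrFun h 0)
  refine ⟨hinj, hwt, ?_⟩
  intro j₀ hj₀
  have hodd : l 0 % 2 = 1 := by
    have h1 := (hwt j₀).2
    simp only [hj₀, Pi.zero_apply] at h1
    omega
  refine ⟨hodd, ?_⟩
  -- the index of the representation
  have hwG : wG (fun _ : Fin 1 => (l 0 - 1).toNat) = l := by
    funext i
    rw [Subsingleton.elim i 0]
    change ((l 0 - 1).toNat : ℤ) + 1 = l 0
    omega
  obtain ⟨i, hi⟩ : ∃ i : IX Hc, wG i.1 = l := by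
    refine ⟨⟨fun _ => (l 0 - 1).toNat, fun z hz => ?_⟩, hwG⟩
    rw [hwG]
    exact hHWR.triv z hz
  obtain ⟨n', σ', -, -, hHWR', hch'⟩ := hχ i
  rw [hi] at hHWR'
  have hcont : ∀ {m : ℕ} (τ : Rep H (Fin m)), Continuous fun x : ℝ => τ.ch (tt H Hc fun _ => x) := by
    intro m τ
    unfold Rep.ch
    have h1 : Continuous fun x : ℝ => tt H Hc fun _ => x := P.tcont.comp (continuous_pi fun _ => continuous_id)
    exact (τ.cont.comp h1).matrix_trace
  have heq : (fun x : ℝ => σ.ch (tt H Hc fun _ => x)) = fun x : ℝ => σ'.ch (tt H Hc fun _ => x) := by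
    refine ext_dense (hcont σ) (hcont σ') fun x => ?_
    have h1 := hHWR.wcf (tt H Hc fun _ => x) (fun _ => x) (P.tcoe _)
    have h2 := hHWR'.wcf (tt H Hc fun _ => x) (fun _ => x) (P.tcoe _)
    have h3 : AT (rd Φ) 1 (fun _ => x) = eu x - eu (-x) := by
      rw [R.at']
      simp
    rw [h3] at h1 h2
    rw [h1, h2]
  have hcl : ∀ {m : ℕ} (τ : Rep H (Fin m)) (h g : H), τ.ch (h * g * h⁻¹) = τ.ch g := by
    intro m τ h g
    unfold Rep.ch
    rw [map_mul, map_mul, Matrix.trace_mul_cycle, ← map_mul, inv_mul_cancel, map_one, Matrix.one_mul]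
  have hall : ∀ g : H, σ.ch g = χ i g := by
    intro g
    rw [← hch' g]
    obtain ⟨h, hh, θ, hg⟩ := hCONJ N H 1 Φ B Hc E hCX.closed hCX.conn hCX.lrd g.1 g.2
    have h1 : g = ⟨h, hh⟩ * tt H Hc θ * (⟨h, hh⟩ : H)⁻¹ := by
      apply Subtype.ext
      rw [Subgroup.coe_mul, Subgroup.coe_mul, Subgroup.coe_inv, P.tcoe]
      exact hg
    rw [h1, hcl, hcl]
    have h2 : θ = fun _ => θ 0 := by
      funext i
      rw [Subsingleton.elim i 0]
    rw [h2]
    exact congrFun heq (θ 0)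
  -- the diagonal entry
  have hlw : lw i = l 0 := by
    unfold lw
    rw [hi]
  have hS : ∀ g : H, (Uᴴ * σ.ρ g * U) j₀ j₀ = LP ((l 0).toNat / 2) (cc g) := by
    intro g
    have h1 := hCHT N H Φ B Hc E c k hCX cc ze w C₀ hSP htr χ hχ i g
    rw [hlw, if_pos hodd] at h1
    rw [← h1]
    have h2 : ∀ φ : ℝ, χ i (g * tt H Hc fun _ => φ) = ∑ j, (Uᴴ * σ.ρ g * U) j j * eu ((μ j 0 : ℤ) * φ) := by
      intro φ
      rw [← hall]
      unfold Rep.ch
      rw [map_mul, htor, trace_eq]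
      refine Finset.sum_congr rfl fun j _ => ?_
      rw [hdz]
    simp only [h2]
    have h3 : ∀ j, IntervalIntegrable (fun φ : ℝ => (Uᴴ * σ.ρ g * U) j j * eu ((μ j 0 : ℤ) * φ)) volume 0 1 := fun j =>
      (continuous_const.mul (LGR.TPOL.continuous_eu.comp (continuous_const.mul continuous_id))).intervalIntegrable _ _
    rw [intervalIntegral.integral_finsetSum fun j _ => h3 j]
    have h4 : ∀ j, ∫ φ in (0 : ℝ)..1, (Uᴴ * σ.ρ g * U) j j * eu ((μ j 0 : ℤ) * φ) =
        (Uᴴ * σ.ρ g * U) j j * if μ j 0 = 0 then 1 else 0 := by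
      intro j
      rw [intervalIntegral.integral_const_mul]
      congr 1
      rw [← LGR.TPOL.int1 (μ j 0), integral_Icc_eq_integral_Ioc, ← intervalIntegral.integral_of_le zero_le_one]
    simp only [h4]
    rw [Finset.sum_eq_single j₀]
    · rw [hj₀]
      simp
    · intro j _ hj
      rw [if_neg, mul_zero]
      intro h5
      exact hj (hdis j j₀ (by simp only [hj₀, Pi.zero_apply]; exact h5))
    · intro h5
      exact absurd (Finset.mem_univ _) h5
  intro h y
  -- the identity for real angles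
  set a : Fin n → ℝ := fun j => ‖(Uᴴ * σ.ρ h * U) j j₀‖ ^ 2 with ha
  have hreal : ∀ x : ℝ, ∑ j, (a j : ℂ) * eu ((μ j 0 : ℤ) * x) =
      LP ((l 0).toNat / 2) (((cc h ^ 2 + (1 - cc h ^ 2) * Real.cos (4 * π * x) : ℝ)) : ℂ) := by
    intro x
    have h1 := hS (h⁻¹ * (tt H Hc (fun _ => x) * h))
    have h2 : cc (h⁻¹ * (tt H Hc (fun _ => x) * h)) = cc h ^ 2 + (1 - cc h ^ 2) * Real.cos (4 * π * x) := by
      rw [hSP.inner, hSP.cleft, hSP.zleft]
      have h3 : (ze h * conj (eu (2 * x) * ze h)).re = ‖ze h‖ ^ 2 * Real.cos (4 * π * x) := by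
        rw [map_mul, show ze h * (conj (eu (2 * x)) * conj (ze h)) = (ze h * conj (ze h)) * conj (eu (2 * x)) by ring,
          Complex.mul_conj, Complex.re_ofReal_mul, Complex.conj_re, eu_re, Complex.normSq_eq_norm_sq]
        congr 2
        ring
      rw [h3]
      have h4 := hSP.norm h
      have h5 : ‖ze h‖ ^ 2 = 1 - cc h ^ 2 := by linarith
      rw [h5]
      ring
    rw [h2] at h1
    rw [← h1]
    have h6 : Uᴴ * σ.ρ (h⁻¹ * (tt H Hc (fun _ => x) * h)) * U =
        (Uᴴ * σ.ρ h * U)ᴴ * Matrix.diagonal (fun k => eu (dz (μ k) fun _ => x)) * (Uᴴ * σ.ρ h * U) := by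
      rw [map_mul, map_mul, σ.unit, htor, Matrix.conjTranspose_mul, Matrix.conjTranspose_mul,
        Matrix.conjTranspose_conjTranspose]
      simp only [Matrix.mul_assoc]
    rw [h6, Matrix.mul_apply]
    refine Finset.sum_congr rfl fun j _ => ?_
    rw [Matrix.mul_diagonal, Matrix.conjTranspose_apply, hdz, ha]
    simp only
    have h7 : star ((Uᴴ * σ.ρ h * U) j j₀) * eu ((μ j 0 : ℤ) * x) * (Uᴴ * σ.ρ h * U) j j₀ =
        ((Uᴴ * σ.ρ h * U) j j₀ * conj ((Uᴴ * σ.ρ h * U) j j₀)) * eu ((μ j 0 : ℤ) * x) := by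
      rw [show star ((Uᴴ * σ.ρ h * U) j j₀) = conj ((Uᴴ * σ.ρ h * U) j j₀) from rfl]
      ring
    rw [h7, Complex.mul_conj, Complex.normSq_eq_norm_sq]
  -- analytic continuation
  set F : ℂ → ℂ := fun z => ∑ j, (a j : ℂ) * Complex.exp (2 * π * Complex.I * (μ j 0 : ℤ) * z) -
    LP ((l 0).toNat / 2) ((cc h : ℂ) ^ 2 + (1 - (cc h : ℂ) ^ 2) * Complex.cos (4 * π * z)) with hF
  have hFd : Differentiable ℂ F := by
    rw [hF]
    refine Differentiable.sub ?_ ((lp_diff _).comp ?_)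
    · refine Differentiable.fun_sum fun j _ => ?_
      fun_prop
    · have : Differentiable ℂ fun z : ℂ => Complex.cos (4 * π * z) := Complex.differentiable_cos.comp (by fun_prop)
      exact (differentiable_const _).add ((differentiable_const _).mul this)
  have hF0 : ∀ x : ℝ, F x = 0 := by
    intro x
    rw [hF]
    simp only
    rw [sub_eq_zero]
    have h1 := hreal x
    have e1 : (((cc h ^ 2 + (1 - cc h ^ 2) * Real.cos (4 * π * x) : ℝ)) : ℂ) =
        (cc h : ℂ) ^ 2 + (1 - (cc h : ℂ) ^ 2) * Complex.cos (4 * π * x) := by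
      push_cast
      ring
    rw [e1] at h1
    rw [← h1]
    refine Finset.sum_congr rfl fun j _ => ?_
    unfold eu
    congr 2
    push_cast
    ring
  have h1 := cont hFd hF0 (-(Complex.I * y) / (2 * π))
  rw [hF] at h1
  simp only at h1
  rw [sub_eq_zero] at h1
  have hpi : (π : ℂ) ≠ 0 := by exact_mod_cast Real.pi_ne_zero
  have e2 : Complex.cos (4 * π * (-(Complex.I * y) / (2 * π))) = ((Real.cosh (2 * y) : ℝ) : ℂ) := by
    rw [show 4 * (π : ℂ) * (-(Complex.I * y) / (2 * π)) = -((2 * y : ℂ) * Complex.I) by field_simp; ring, Complex.cos_neg,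
      Complex.cos_mul_I]
    push_cast
    rfl
  rw [e2] at h1
  have e3 : ((∑ j, ‖(Uᴴ * σ.ρ h * U) j j₀‖ ^ 2 * Real.exp (y * μ j 0) : ℝ) : ℂ) =
      ∑ j, (a j : ℂ) * Complex.exp (2 * π * Complex.I * (μ j 0 : ℤ) * (-(Complex.I * y) / (2 * π))) := by
    rw [Complex.ofReal_sum]
    refine Finset.sum_congr rfl fun j _ => ?_
    rw [Complex.ofReal_mul, Complex.ofReal_exp]
    congr 2
    have h2 : 2 * (π : ℂ) * Complex.I * (μ j 0 : ℤ) * (-(Complex.I * y) / (2 * π)) = -(Complex.I * Complex.I) * (y * (μ j 0 : ℤ)) := by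
      field_simp
    rw [h2, Complex.I_mul_I]
    push_cast
    ring
  rw [e3, h1]
  congr 1
  push_cast
  ring

end

end SPH
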