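import Pool.Agent.SPH.StA

/-!
# Module SPX: the sphere of a closed connected group of rank one
-/

set_option autoImplicit false

namespace SPH

open STZ LGR STZ3 MeasureTheory Matrix Filter

open scoped ComplexConjugate Matrix Real Topology

noncomputable section

namespace SPX

variable {N : ℕ}

/-- the triple `h`, `E`, `Eᴴ` -/
structure TRP (h E : MT N) (τ : ℝ) : Prop where
  pos : 0 < τ
  herm : hᴴ = h
  br : h * E - E * h = (2 : ℂ) • E
  hh : (h * h).trace = 2 * τ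
  ee : (E * Eᴴ).trace = τ
  eh : (E * h).trace = 0
  e2 : (E * E).trace = 0

/-- a combination of the triple -/
def cmb (h E : MT N) (x ζ ξ : ℂ) : MT N := x • h + ζ • E + ξ • Eᴴ

variable {h E : MT N} {τ : ℝ}

lemma cmb_add (x ζ ξ x' ζ' ξ' : ℂ) :
    cmb h E x ζ ξ + cmb h E x' ζ' ξ' = cmb h E (x + x') (ζ + ζ') (ξ + ξ') := by
  unfold cmb
  rw [add_smul, add_smul, add_smul]
  abel

lemma cmb_smul (a x ζ ξ : ℂ) : a • cmb h E x ζ ξ = cmb h E (a * x) (a * ζ) (a * ξ) := by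
  unfold cmb
  rw [smul_add, smul_add, smul_smul, smul_smul, smul_smul]

lemma cmb_h : cmb h E 1 0 0 = h := by
  unfold cmb
  rw [one_smul, zero_smul, zero_smul, add_zero, add_zero]

lemma cmb_E : cmb h E 0 1 0 = E := by
  unfold cmb
  rw [one_smul, zero_smul, zero_smul, add_zero, zero_add]

lemma cmb_E' : cmb h E 0 0 1 = Eᴴ := by
  unfold cmb
  rw [one_smul, zero_smul, zero_smul, zero_add, zero_add]

lemma TRP.he (T : TRP h E τ) : (h * E).trace = 0 := by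
  rw [Matrix.trace_mul_comm]
  exact T.eh

lemma TRP.he' (T : TRP h E τ) : (h * Eᴴ).trace = 0 := by
  have h1 : h * Eᴴ = (E * h)ᴴ := by
    rw [Matrix.conjTranspose_mul, T.herm]
  rw [h1, Matrix.trace_conjTranspose, T.eh, star_zero]

lemma TRP.eh' (T : TRP h E τ) : (Eᴴ * h).trace = 0 := by
  rw [Matrix.trace_mul_comm]
  exact T.he'

lemma TRP.e2' (T : TRP h E τ) : (Eᴴ * Eᴴ).trace = 0 := by
  have h1 : Eᴴ * Eᴴ = (E * E)ᴴ := by
    rw [Matrix.conjTranspose_mul]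
  rw [h1, Matrix.trace_conjTranspose, T.e2, star_zero]

lemma TRP.ee' (T : TRP h E τ) : (Eᴴ * E).trace = τ := by
  rw [Matrix.trace_mul_comm]
  exact T.ee

lemma TRP.tr (T : TRP h E τ) (x ζ ξ x' ζ' ξ' : ℂ) :
    (cmb h E x ζ ξ * cmb h E x' ζ' ξ').trace = 2 * τ * (x * x') + τ * (ζ * ξ' + ξ * ζ') := by
  unfold cmb
  simp only [add_mul, mul_add, smul_mul_assoc, mul_smul_comm, Matrix.trace_add,
    Matrix.trace_smul, T.he, T.he', T.eh, T.eh', T.e2, T.e2', T.ee, T.ee', T.hh, smul_eq_mul]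
  ring

lemma TRP.tr_h (T : TRP h E τ) (x ζ ξ : ℂ) : (h * cmb h E x ζ ξ).trace = 2 * τ * x := by
  have h1 := T.tr 1 0 0 x ζ ξ
  rw [cmb_h] at h1
  rw [h1]
  ring

lemma TRP.tr_e (T : TRP h E τ) (x ζ ξ : ℂ) : (cmb h E x ζ ξ * Eᴴ).trace = τ * ζ := by
  have h1 := T.tr x ζ ξ 0 0 1
  rw [cmb_E'] at h1
  rw [h1]
  ring

lemma TRP.tr_e' (T : TRP h E τ) (x ζ ξ : ℂ) : (cmb h E x ζ ξ * E).trace = τ * ξ := by
  have h1 := T.tr x ζ ξ 0 1 0
  rw [cmb_E] at h1
  rw [h1]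
  ring

lemma TRP.ne (T : TRP h E τ) : (τ : ℂ) ≠ 0 := by
  exact_mod_cast T.pos.ne'

lemma TRP.inj (T : TRP h E τ) {x ζ ξ x' ζ' ξ' : ℂ} (hx : cmb h E x ζ ξ = cmb h E x' ζ' ξ') :
    x = x' ∧ ζ = ζ' ∧ ξ = ξ' := by
  have h0 := T.ne
  refine ⟨?_, ?_, ?_⟩
  · have h1 := T.tr_h x ζ ξ
    rw [hx, T.tr_h] at h1
    exact (mul_left_cancel₀ (mul_ne_zero two_ne_zero h0) h1).symm
  · have h1 := T.tr_e x ζ ξ
    rw [hx, T.tr_e] at h1
    exact (mul_left_cancel₀ h0 h1).symm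
  · have h1 := T.tr_e' x ζ ξ
    rw [hx, T.tr_e'] at h1
    exact (mul_left_cancel₀ h0 h1).symm

/-- the adjoint of the bracket -/
lemma TRP.br' (T : TRP h E τ) : h * Eᴴ - Eᴴ * h = -((2 : ℂ) • Eᴴ) := by
  have h1 := congrArg Matrix.conjTranspose T.br
  rw [Matrix.conjTranspose_sub, Matrix.conjTranspose_mul, Matrix.conjTranspose_mul, T.herm,
    Matrix.conjTranspose_smul] at h1
  have h2 : star (2 : ℂ) = 2 := by simp
  rw [h2] at h1
  rw [← h1]
  abel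

lemma TRP.brc (T : TRP h E τ) (x ζ ξ : ℂ) :
    h * cmb h E x ζ ξ - cmb h E x ζ ξ * h = cmb h E 0 (2 * ζ) (-(2 * ξ)) := by
  have h1 : h * cmb h E x ζ ξ - cmb h E x ζ ξ * h =
      ζ • (h * E - E * h) + ξ • (h * Eᴴ - Eᴴ * h) := by
    unfold cmb
    rw [mul_add, mul_add, add_mul, add_mul, mul_smul_comm, mul_smul_comm, mul_smul_comm,
      smul_mul_assoc, smul_mul_assoc, smul_mul_assoc, smul_sub, smul_sub]
    abel
  rw [h1, T.br, T.br']
  unfold cmb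
  rw [zero_smul, zero_add, smul_smul, smul_neg, smul_smul, neg_smul, mul_comm ζ 2, mul_comm ξ 2]

/-! ### unitary matrices -/

lemma mul_ct (g : SU N) : g.1 * g.1ᴴ = 1 := congrArg Subtype.val (mul_inv_cancel g)

lemma ct_mul (g : SU N) : g.1ᴴ * g.1 = 1 := congrArg Subtype.val (inv_mul_cancel g)

/-- the conjugate -/
def cj (g A : MT N) : MT N := g * A * gᴴ

lemma cj_mul (g k A : MT N) : cj (g * k) A = cj g (cj k A) := by
  unfold cj
  rw [Matrix.conjTranspose_mul]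
  simp only [Matrix.mul_assoc]

lemma cj_add (g A B : MT N) : cj g (A + B) = cj g A + cj g B := by
  unfold cj
  rw [mul_add, add_mul]

lemma cj_sub (g A B : MT N) : cj g (A - B) = cj g A - cj g B := by
  unfold cj
  rw [mul_sub, sub_mul]

lemma cj_smul (g A : MT N) (a : ℂ) : cj g (a • A) = a • cj g A := by
  unfold cj
  rw [mul_smul_comm, smul_mul_assoc]

lemma cj_ct (g A : MT N) : cj g Aᴴ = (cj g A)ᴴ := by
  unfold cj
  rw [Matrix.conjTranspose_mul, Matrix.conjTranspose_mul, Matrix.conjTranspose_conjTranspose,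
    Matrix.mul_assoc]

lemma cj_prod (g : SU N) (A B : MT N) : cj g.1 (A * B) = cj g.1 A * cj g.1 B := by
  unfold cj
  have h1 : g.1 * A * g.1ᴴ * (g.1 * B * g.1ᴴ) = g.1 * A * (g.1ᴴ * g.1) * B * g.1ᴴ := by
    simp only [Matrix.mul_assoc]
  rw [h1, ct_mul, Matrix.mul_one]
  simp only [Matrix.mul_assoc]

lemma cj_trace (g : SU N) (A : MT N) : (cj g.1 A).trace = A.trace := by
  unfold cj
  rw [Matrix.trace_mul_comm, ← Matrix.mul_assoc, ct_mul, Matrix.one_mul]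

lemma cj_one (A : MT N) : cj 1 A = A := by
  unfold cj
  rw [Matrix.conjTranspose_one, Matrix.one_mul, Matrix.mul_one]

lemma cj_comm (g : SU N) (A : MT N) : cj g.1 A = A ↔ g.1 * A = A * g.1 := by
  unfold cj
  constructor
  · intro h1
    have h2 : g.1 * A * g.1ᴴ * g.1 = A * g.1 := by rw [h1]
    rw [Matrix.mul_assoc, ct_mul, Matrix.mul_one] at h2
    exact h2
  · intro h1
    rw [h1, Matrix.mul_assoc, mul_ct, Matrix.mul_one]

/-! ### exponentials -/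

set_option backward.isDefEq.respectTransparency false in
open scoped Matrix.Norms.Operator in
theorem semiconj_exp {Z A B : MT N} (h : Z * B = A * Z) :
    Z * NormedSpace.exp B = NormedSpace.exp A * Z :=
  (SemiconjBy.exp_right (x := Z) (a := B) (b := A) h)

lemma cj_exp (g : SU N) (A : MT N) : cj g.1 (NormedSpace.exp A) = NormedSpace.exp (cj g.1 A) := by
  have h1 : g.1 * A = cj g.1 A * g.1 := by
    unfold cj
    rw [Matrix.mul_assoc, ct_mul, Matrix.mul_one]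
  have h2 := semiconj_exp h1
  unfold cj at h2 ⊢
  rw [h2, Matrix.mul_assoc, mul_ct, Matrix.mul_one]

/-! ### bounds for the entries -/

lemma ent_mul {A B : MT N} {a b : ℝ} (hA : ∀ i j, ‖A i j‖ ≤ a) (hB : ∀ i j, ‖B i j‖ ≤ b) (i j : Fin N) :
    ‖(A * B) i j‖ ≤ N * (a * b) := by
  rw [Matrix.mul_apply]
  refine (norm_sum_le _ _).trans ?_
  calc ∑ k, ‖A i k * B k j‖ ≤ ∑ _k : Fin N, a * b := by
        refine Finset.sum_le_sum fun k _ => ?_
        rw [norm_mul]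
        exact mul_le_mul (hA i k) (hB k j) (norm_nonneg _) ((norm_nonneg _).trans (hA i k))
    _ = N * (a * b) := by
        rw [Finset.sum_const, Finset.card_univ, Fintype.card_fin, nsmul_eq_mul]

lemma ent_ct {A : MT N} {a : ℝ} (hA : ∀ i j, ‖A i j‖ ≤ a) (i j : Fin N) : ‖Aᴴ i j‖ ≤ a := by
  rw [Matrix.conjTranspose_apply, norm_star]
  exact hA j i

lemma ent_trace {A : MT N} {a : ℝ} (hA : ∀ i j, ‖A i j‖ ≤ a) : ‖A.trace‖ ≤ N * a := by
  unfold Matrix.trace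
  refine (norm_sum_le _ _).trans ?_
  calc ∑ k, ‖A.diag k‖ ≤ ∑ _k : Fin N, a := Finset.sum_le_sum fun k _ => hA k k
    _ = N * a := by
        rw [Finset.sum_const, Finset.card_univ, Fintype.card_fin, nsmul_eq_mul]

lemma ent_sum (A : MT N) (i j : Fin N) : ‖A i j‖ ≤ ∑ i, ∑ j, ‖A i j‖ := by
  have h1 : ‖A i j‖ ≤ ∑ j, ‖A i j‖ :=
    Finset.single_le_sum (f := fun j => ‖A i j‖) (fun _ _ => norm_nonneg _) (Finset.mem_univ j)
  exact h1.trans (Finset.single_le_sum (f := fun i => ∑ j, ‖A i j‖)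
    (fun _ _ => Finset.sum_nonneg fun _ _ => norm_nonneg _) (Finset.mem_univ i))

lemma ent_sqrt (A : MT N) (i j : Fin N) : ‖A i j‖ ≤ √(∑ i, ∑ j, ‖A i j‖ ^ 2) := by
  have h1 : ‖A i j‖ ^ 2 ≤ ∑ j, ‖A i j‖ ^ 2 :=
    Finset.single_le_sum (f := fun j => ‖A i j‖ ^ 2) (fun _ _ => by positivity) (Finset.mem_univ j)
  have h2 : ‖A i j‖ ^ 2 ≤ ∑ i, ∑ j, ‖A i j‖ ^ 2 := h1.trans
    (Finset.single_le_sum (f := fun i => ∑ j, ‖A i j‖ ^ 2)
      (fun _ _ => Finset.sum_nonneg fun _ _ => by positivity) (Finset.mem_univ i))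
  exact (le_abs_self _).trans (Real.abs_le_sqrt h2)

lemma ent_one (z : MT N) (i j : Fin N) :
    ‖z i j‖ ≤ 1 + √(∑ i, ∑ j, ‖z i j - (1 : MT N) i j‖ ^ 2) := by
  have h0 : ‖(z - 1) i j‖ ≤ √(∑ i, ∑ j, ‖z i j - (1 : MT N) i j‖ ^ 2) := ent_sqrt (z - 1) i j
  have h1 := norm_add_le ((z - 1) i j) ((1 : MT N) i j)
  have h2 : ‖(1 : MT N) i j‖ ≤ 1 := by
    rw [Matrix.one_apply]
    split_ifs
    · rw [norm_one]
    · rw [norm_zero]
      exact zero_le_one
  have h3 : (z - 1) i j + (1 : MT N) i j = z i j := by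
    rw [Matrix.sub_apply]
    ring
  rw [h3] at h1
  linarith

lemma lip (B : MT N) (K : ℝ) (hK : 0 ≤ K) : ∃ C : ℝ, 0 ≤ C ∧ ∀ z A : MT N,
    √(∑ i, ∑ j, ‖z i j - (1 : MT N) i j‖ ^ 2) ≤ K → (∀ i j, ‖A i j‖ ≤ K) →
    ‖(B * (cj z A - A)).trace‖ ≤ C * √(∑ i, ∑ j, ‖z i j - (1 : MT N) i j‖ ^ 2) := by
  set b : ℝ := ∑ i, ∑ j, ‖B i j‖ with hb
  have hb0 : 0 ≤ b := Finset.sum_nonneg fun _ _ => Finset.sum_nonneg fun _ _ => norm_nonneg _
  refine ⟨N * (N * (b * (N * (N * K * (1 + K)) + N * K))), by positivity, fun z A hz hA => ?_⟩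
  set D : MT N := z - 1 with hD
  have hs : ∀ i j, ‖D i j‖ ≤ √(∑ i, ∑ j, ‖z i j - (1 : MT N) i j‖ ^ 2) := ent_sqrt D
  set s : ℝ := √(∑ i, ∑ j, ‖z i j - (1 : MT N) i j‖ ^ 2) with hsd
  have hs0 : 0 ≤ s := Real.sqrt_nonneg _
  have hz1 : ∀ i j, ‖z i j‖ ≤ 1 + K := fun i j =>
    (ent_one z i j).trans (add_le_add le_rfl hz)
  have e1 : cj z A - A = D * A * zᴴ + A * Dᴴ := by
    unfold cj
    rw [hD, Matrix.conjTranspose_sub, Matrix.conjTranspose_one, Matrix.sub_mul, Matrix.sub_mul,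
      Matrix.one_mul, Matrix.mul_sub, Matrix.mul_one]
    abel
  have h1 := ent_mul hs hA
  have h2 := ent_mul h1 (ent_ct hz1)
  have h3 := ent_mul hA (ent_ct hs)
  have h4 : ∀ i j, ‖(cj z A - A) i j‖ ≤ (N * (N * K * (1 + K)) + N * K) * s := by
    intro i j
    rw [e1, Matrix.add_apply]
    refine (norm_add_le _ _).trans ((add_le_add (h2 i j) (h3 i j)).trans (le_of_eq ?_))
    ring
  have h5 := ent_mul (ent_sum B) h4
  rw [← hb] at h5
  refine (ent_trace h5).trans (le_of_eq ?_)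
  ring

/-! ### the group of rank one -/

/-- the data of a group of rank one -/
structure DT (H : Subgroup (SU N)) (h E : MT N) (τ : ℝ) : Prop where
  trp : TRP h E τ
  lif : LIF H
  hm : Complex.I • h ∈ lie H
  e1 : E - Eᴴ ∈ lie H
  e2 : Complex.I • (E + Eᴴ) ∈ lie H
  span : ∀ X ∈ lie H, ∃ (x : ℝ) (z : ℂ), X = cmb h E (x * Complex.I) z (-conj z)

/-- the first coordinate -/
def cfx (h : MT N) (τ : ℝ) (A : MT N) : ℝ := ((h * A).trace).re / (2 * τ)

/-- the second coordinate -/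
def zfx (E : MT N) (τ : ℝ) (A : MT N) : ℂ := (A * Eᴴ).trace / τ

lemma TRP.cf_cmb (T : TRP h E τ) (x : ℝ) (ζ ξ : ℂ) : cfx h τ (cmb h E x ζ ξ) = x := by
  unfold cfx
  rw [T.tr_h]
  have h1 : (2 * (τ : ℂ) * x) = ((2 * τ * x : ℝ) : ℂ) := by push_cast; ring
  rw [h1, Complex.ofReal_re]
  have h2 := T.pos.ne'
  field_simp

lemma TRP.zf_cmb (T : TRP h E τ) (x ζ ξ : ℂ) : zfx E τ (cmb h E x ζ ξ) = ζ := by
  unfold zfx
  rw [T.tr_e]
  exact mul_div_cancel_left₀ _ T.ne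

variable {H : Subgroup (SU N)}

lemma DT.dec0 (D : DT H h E τ) (g : SU N) (hg : g ∈ H) :
    ∃ (x : ℝ) (ζ : ℂ), cj g.1 h = cmb h E x ζ (conj ζ) := by
  obtain ⟨x, z, hx⟩ := D.span _ (D.lif.ad g hg _ D.hm)
  have h1 : Complex.I • cj g.1 h = cmb h E (x * Complex.I) z (-conj z) := by
    rw [← cj_smul]
    exact hx
  have h2 : cj g.1 h = (-Complex.I) • (Complex.I • cj g.1 h) := by
    rw [smul_smul, neg_mul, Complex.I_mul_I, neg_neg, one_smul]
  have e1 : -Complex.I * (x * Complex.I) = x := by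
    linear_combination -(x : ℂ) * Complex.I_mul_I
  have e3 : -Complex.I * -conj z = conj (-Complex.I * z) := by
    rw [map_mul, map_neg, Complex.conj_I]
    ring
  refine ⟨x, -Complex.I * z, ?_⟩
  rw [h2, h1, cmb_smul, e1, e3]

lemma DT.dec (D : DT H h E τ) (g : SU N) (hg : g ∈ H) :
    cj g.1 h = cmb h E (cfx h τ (cj g.1 h)) (zfx E τ (cj g.1 h)) (conj (zfx E τ (cj g.1 h))) := by
  obtain ⟨x, ζ, h1⟩ := D.dec0 g hg
  rw [h1, D.trp.cf_cmb, D.trp.zf_cmb]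

lemma DT.inner (D : DT H h E τ) (g k : SU N) (hg : g ∈ H) (hk : k ∈ H) :
    cfx h τ (cj (g⁻¹ * k).1 h) = cfx h τ (cj g.1 h) * cfx h τ (cj k.1 h) +
      (zfx E τ (cj g.1 h) * conj (zfx E τ (cj k.1 h))).re := by
  have h1 : (h * cj (g⁻¹ * k).1 h).trace = (cj g.1 h * cj k.1 h).trace := by
    rw [← cj_trace g, cj_prod, ← cj_mul]
    have h2 : g.1 * (g⁻¹ * k).1 = k.1 := congrArg Subtype.val (mul_inv_cancel_left g k)
    rw [h2]
  obtain ⟨x, ζ, hx⟩ := D.dec0 g hg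
  obtain ⟨y, ξ, hy⟩ := D.dec0 k hk
  have h3 : (cj g.1 h * cj k.1 h).trace = ((2 * τ * (x * y + (ζ * conj ξ).re) : ℝ) : ℂ) := by
    rw [hx, hy, D.trp.tr]
    have h4 : ζ * conj ξ + conj ζ * ξ = ((2 * (ζ * conj ξ).re : ℝ) : ℂ) := by
      have h5 := Complex.add_conj (ζ * conj ξ)
      rw [map_mul, Complex.conj_conj] at h5
      rw [h5]
    rw [h4]
    push_cast
    ring
  have h4 := D.trp.pos.ne'
  have h5 : cfx h τ (cj (g⁻¹ * k).1 h) = x * y + (ζ * conj ξ).re := by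
    unfold cfx
    rw [h1, h3, Complex.ofReal_re]
    field_simp
  rw [h5, hx, hy, D.trp.cf_cmb, D.trp.cf_cmb, D.trp.zf_cmb, D.trp.zf_cmb]

lemma DT.cf_one (D : DT H h E τ) : cfx h τ (cj (1 : MT N) h) = 1 := by
  rw [cj_one]
  have h1 := D.trp.cf_cmb 1 0 0
  rw [Complex.ofReal_one, cmb_h] at h1
  exact h1

lemma DT.zf_one (D : DT H h E τ) : zfx E τ (cj (1 : MT N) h) = 0 := by
  rw [cj_one]
  have h1 := D.trp.zf_cmb 1 0 0
  rw [cmb_h] at h1
  exact h1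

lemma DT.norm (D : DT H h E τ) (g : SU N) (hg : g ∈ H) :
    cfx h τ (cj g.1 h) ^ 2 + ‖zfx E τ (cj g.1 h)‖ ^ 2 = 1 := by
  have h1 := D.inner g g hg hg
  have h2 : (g⁻¹ * g).1 = (1 : MT N) := congrArg Subtype.val (inv_mul_cancel g)
  rw [h2, D.cf_one] at h1
  have h3 : (zfx E τ (cj g.1 h) * conj (zfx E τ (cj g.1 h))).re = ‖zfx E τ (cj g.1 h)‖ ^ 2 := by
    rw [Complex.mul_conj, Complex.ofReal_re, Complex.normSq_eq_norm_sq]
  rw [h3] at h1
  rw [h1]
  ring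

/-- unit vectors are values of `eu` -/
lemma ex_eu (β : ℂ) (hβ : ‖β‖ = 1) : ∃ t : ℝ, eu (2 * t) = β := by
  refine ⟨Complex.arg β / (4 * π), ?_⟩
  unfold eu
  have h1 := Complex.norm_mul_exp_arg_mul_I β
  rw [hβ, Complex.ofReal_one, one_mul] at h1
  have h2 : 2 * (π : ℂ) * ((2 * (Complex.arg β / (4 * π)) : ℝ) : ℂ) * Complex.I =
      Complex.arg β * Complex.I := by
    have h3 : (π : ℂ) ≠ 0 := by exact_mod_cast Real.pi_ne_zero
    push_cast
    field_simp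
    ring
  rw [h2, h1]

lemma DT.decE (D : DT H h E τ) (g : SU N) (hg : g ∈ H) : ∃ α β γ : ℂ, cj g.1 E = cmb h E α β γ := by
  obtain ⟨x, z, hx⟩ := D.span _ (D.lif.ad g hg _ D.e1)
  obtain ⟨y, u, hy⟩ := D.span _ (D.lif.ad g hg _ D.e2)
  have h1 : cj g.1 (E - Eᴴ) = cmb h E (x * Complex.I) z (-conj z) := hx
  have h2 : cj g.1 (Complex.I • (E + Eᴴ)) = cmb h E (y * Complex.I) u (-conj u) := hy
  have h3 : E = (1 / 2 : ℂ) • (E - Eᴴ) + (-Complex.I / 2) • (Complex.I • (E + Eᴴ)) := by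
    have h4 : -Complex.I / 2 * Complex.I = 1 / 2 := by
      linear_combination -(1 / 2 : ℂ) * Complex.I_mul_I
    rw [smul_smul, h4, ← smul_add]
    have h5 : E - Eᴴ + (E + Eᴴ) = (2 : ℂ) • E := by
      rw [two_smul]
      abel
    rw [h5, smul_smul]
    norm_num
  refine ⟨1 / 2 * (x * Complex.I) + -Complex.I / 2 * (y * Complex.I),
    1 / 2 * z + -Complex.I / 2 * u, 1 / 2 * -conj z + -Complex.I / 2 * -conj u, ?_⟩
  rw [← cmb_add, ← cmb_smul, ← cmb_smul, ← h1, ← h2, ← cj_smul, ← cj_smul, ← cj_add, ← h3]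

/-- the elements which commute with `h` -/
lemma DT.fixE (D : DT H h E τ) (g : SU N) (hg : g ∈ H) (hc : cj g.1 h = h) :
    ∃ β : ℂ, ‖β‖ = 1 ∧ cj g.1 E = β • E := by
  obtain ⟨α, β, γ, h1⟩ := D.decE g hg
  have h2 : h * cj g.1 E - cj g.1 E * h = (2 : ℂ) • cj g.1 E := by
    have h3 := congrArg (cj g.1) D.trp.br
    rw [cj_sub, cj_prod, cj_prod, hc, cj_smul] at h3
    exact h3
  rw [h1, D.trp.brc, cmb_smul] at h2
  obtain ⟨e1, -, e3⟩ := D.trp.inj h2
  have hα : α = 0 := by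
    have h4 : (2 : ℂ) * α = 0 := e1.symm
    exact (mul_eq_zero.1 h4).resolve_left two_ne_zero
  have hγ : γ = 0 := by
    have h4 : (4 : ℂ) * γ = 0 := by linear_combination -e3
    exact (mul_eq_zero.1 h4).resolve_left (by norm_num)
  rw [hα, hγ] at h1
  have h5 : cj g.1 E = β • E := by
    rw [h1]
    unfold cmb
    rw [zero_smul, zero_smul, zero_add, add_zero]
  refine ⟨β, ?_, h5⟩
  have h6 : (cj g.1 E * (cj g.1 E)ᴴ).trace = τ := by
    rw [← cj_ct, ← cj_prod, cj_trace]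
    exact D.trp.ee
  rw [h5, Matrix.conjTranspose_smul, smul_mul_assoc, mul_smul_comm, smul_smul, Matrix.trace_smul,
    D.trp.ee, smul_eq_mul] at h6
  have h7 : β * star β = 1 := by
    have h8 : β * star β * τ = 1 * τ := by rw [h6, one_mul]
    exact mul_right_cancel₀ D.trp.ne h8
  have h8 : β * conj β = 1 := h7
  rw [Complex.mul_conj, Complex.normSq_eq_norm_sq] at h8
  have h9 : ‖β‖ ^ 2 = 1 := by exact_mod_cast h8
  have h10 := norm_nonneg β
  nlinarith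

/-- the centraliser of the triple -/
lemma DT.fixL (D : DT H h E τ) (g : SU N) (hc : cj g.1 h = h) (he : cj g.1 E = E) (X : MT N)
    (hX : X ∈ lie H) : cj g.1 X = X := by
  obtain ⟨x, z, hx⟩ := D.span X hX
  rw [hx]
  unfold cmb
  rw [cj_add, cj_add, cj_smul, cj_smul, cj_smul, cj_ct, hc, he]

end SPX

open SPX in
theorem t_SPX : M_SPX := by
  intro hLIEB hWFAC hTAUF hCONJ hREFH hPSF hRNK N H Φ B Hc E c k hCX
  have hcl := hCX.closed
  have L := hCX.lrd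
  have LI := hLIEB N H hcl
  have W := hWFAC 1 Φ B L.ird
  have T := hTAUF N H 1 Φ B Hc E hcl L
  have CJ := hCONJ N H 1 Φ B Hc E hcl hCX.conn L
  have RH := hREFH N H 1 Φ B Hc E hcl L
  obtain ⟨C₀, hC₀, P⟩ := hPSF N H 1 Φ B Hc E c k 3 hCX
  have R := hRNK Φ B L.ird W
  set p : (Fin 1 → ℤ) × (Fin 1 → ℤ) := ((fun _ => 2), fun _ => 1) with hp
  have hpp : p ∈ pos Φ := by
    rw [R.pos]
    exact Finset.mem_singleton_self _
  have hpΦ : p ∈ Φ := (W.ppos p hpp).1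
  set e : MT N := E p with he
  set h : MT N := Hc 0 with hh
  set τ : ℝ := (e * eᴴ).trace.re with hτ
  have hτ0 : 0 < τ := (T.pos p hpΦ).1
  have hee : (e * eᴴ).trace = τ := by
    apply Complex.ext
    · rw [Complex.ofReal_re]
    · rw [Complex.ofReal_im]
      exact (T.pos p hpΦ).2
  have hbr : h * e - e * h = (2 : ℂ) • e := by
    have h1 := L.ead p hpΦ 0
    have h2 : ((p.1 0 : ℤ) : ℂ) = 2 := by
      rw [hp]
      norm_num
    rw [h2] at h1
    exact h1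
  have hT : TRP h e τ := by
    refine ⟨hτ0, L.herm 0, hbr, ?_, hee, T.orh p hpΦ 0, ?_⟩
    · have h1 := T.tp p hpΦ 0
      rw [Fin.sum_univ_one] at h1
      have h2 : ((p.1 0 : ℤ) : ℂ) = 2 := by
        rw [hp]
        norm_num
      have h3 : ((p.2 0 : ℤ) : ℂ) = 1 := by
        rw [hp]
        norm_num
      rw [h2, h3, one_smul, ← he, hee] at h1
      exact h1
    · have h1 := T.orth p hpΦ (-p.1, -p.2) (W.neg p hpΦ) (by
        intro h2
        have h3 := congrFun (congrArg Prod.fst h2) 0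
        rw [hp] at h3
        norm_num at h3)
      rw [L.star p hpΦ, Matrix.conjTranspose_conjTranspose] at h1
      exact h1
  have hhx : ∀ x : Fin 1 → ℝ, hx Hc x = ((x 0 : ℂ) * Complex.I) • h := by
    intro x
    unfold hx
    rw [Fin.sum_univ_one]
  have D : DT H h e τ := by
    refine ⟨hT, LI, L.mem 0, (L.emem p hpΦ).1, (L.emem p hpΦ).2, fun X hX => ?_⟩
    obtain ⟨x, z, h1⟩ := L.span X hX
    refine ⟨x 0, z p, ?_⟩
    rw [R.pos, Finset.sum_singleton, Fin.sum_univ_one] at h1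
    rw [h1]
    unfold cmb
    rw [neg_smul]
    abel
  -- the torus
  have htc : ∀ θ : Fin 1 → ℝ, (tt H Hc θ).1.1 = NormedSpace.exp (hx Hc fun j => 2 * π * θ j) := by
    intro θ
    rw [P.tcoe]
    exact T.coe θ
  have hth : ∀ θ : Fin 1 → ℝ, cj (tt H Hc θ).1.1 h = h := by
    intro θ
    rw [cj_comm, htc]
    refine (semiconj_exp ?_).symm
    rw [hhx, mul_smul_comm, smul_mul_assoc]
  have htE : ∀ θ : Fin 1 → ℝ, cj (tt H Hc θ).1.1 e = eu (2 * θ 0) • e := by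
    intro θ
    have h1 := T.Ade p hpΦ θ
    have h2 : dz p.1 θ = 2 * θ 0 := by
      unfold dz
      rw [Fin.sum_univ_one, hp]
      norm_num
    rw [h2] at h1
    rw [P.tcoe]
    exact h1
  have htm : ∀ (θ : Fin 1 → ℝ) (x ζ ξ : ℂ), cj (tt H Hc θ).1.1 (cmb h e x ζ ξ) =
      cmb h e x (eu (2 * θ 0) * ζ) (conj (eu (2 * θ 0)) * ξ) := by
    intro θ x ζ ξ
    unfold cmb
    rw [cj_add, cj_add, cj_smul, cj_smul, cj_smul, cj_ct, hth, htE, Matrix.conjTranspose_smul,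
      smul_smul, smul_smul, mul_comm ζ, mul_comm ξ]
    rfl
  have hleft : ∀ (g : H) (θ : Fin 1 → ℝ), cj (tt H Hc θ * g).1.1 h =
      cmb h e (cfx h τ (cj g.1.1 h)) (eu (2 * θ 0) * zfx e τ (cj g.1.1 h))
        (conj (eu (2 * θ 0)) * conj (zfx e τ (cj g.1.1 h))) := by
    intro g θ
    have h1 : (tt H Hc θ * g).1.1 = (tt H Hc θ).1.1 * g.1.1 := rfl
    rw [h1, cj_mul, D.dec g.1 g.2, htm]
    rw [D.trp.cf_cmb, D.trp.zf_cmb]
  have hright : ∀ (g : H) (θ : Fin 1 → ℝ), cj (g * tt H Hc θ).1.1 h = cj g.1.1 h := by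
    intro g θ
    have h1 : (g * tt H Hc θ).1.1 = g.1.1 * (tt H Hc θ).1.1 := rfl
    rw [h1, cj_mul, hth]
  -- the fibre over the pole
  have hfib1 : ∀ g : H, cfx h τ (cj g.1.1 h) = 1 → ∃ θ : Fin 1 → ℝ, g = tt H Hc θ := by
    intro g hg
    have h1 := D.norm g.1 g.2
    rw [hg] at h1
    have h2 : zfx e τ (cj g.1.1 h) = 0 := by
      have h3 : ‖zfx e τ (cj g.1.1 h)‖ ^ 2 = 0 := by linarith
      exact norm_eq_zero.1 ((pow_eq_zero_iff two_ne_zero).1 h3)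
    have h3 : cj g.1.1 h = h := by
      rw [D.dec g.1 g.2, hg, h2, map_zero, Complex.ofReal_one, cmb_h]
    obtain ⟨β, hβ, h4⟩ := D.fixE g.1 g.2 h3
    obtain ⟨t, ht⟩ := ex_eu β hβ
    set θ : Fin 1 → ℝ := fun _ => t with hθ
    set g' : H := g * tt H Hc (-θ) with hg'
    have h5 : g'.1.1 = g.1.1 * (tt H Hc (-θ)).1.1 := rfl
    have h6 : cj g'.1.1 h = h := by rw [h5, cj_mul, hth, h3]
    have h7 : cj g'.1.1 e = e := by
      rw [h5, cj_mul, htE, cj_smul, h4, smul_smul, ← ht]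
      have h8 : eu (2 * (-θ) 0) * eu (2 * t) = 1 := by
        unfold eu
        rw [← Complex.exp_add]
        have h9 : 2 * (π : ℂ) * ((2 * (-θ) 0 : ℝ) : ℂ) * Complex.I +
            2 * (π : ℂ) * ((2 * t : ℝ) : ℂ) * Complex.I = 0 := by
          rw [hθ, Pi.neg_apply]
          push_cast
          ring
        rw [h9, Complex.exp_zero]
      rw [h8, one_smul]
    have h8 : ∀ k ∈ H, g'.1 * k = k * g'.1 := by
      intro k hk
      obtain ⟨h₂, hh₂, φ, hφ⟩ := CJ k hk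
      apply Subtype.ext
      have h9 : k.1 = cj h₂.1 (NormedSpace.exp (hx Hc fun j => 2 * π * φ j)) := by
        rw [← T.coe φ, hφ]
        rfl
      have h10 : g'.1.1 * k.1 = k.1 * g'.1.1 := by
        rw [h9, cj_exp]
        refine semiconj_exp ?_
        exact (cj_comm g'.1 _).1 (D.fixL g'.1 h6 h7 _ (LI.ad h₂ hh₂ _ (T.hmem _)))
      exact h10
    obtain ⟨h₁, hh₁, φ, hφ⟩ := CJ g'.1 g'.2
    have h9 : g'.1 = ta Hc φ := by
      have h10 := h8 h₁ hh₁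
      have h11 : h₁ * ta Hc φ = h₁ * g'.1 := by
        rw [← h10, hφ, inv_mul_cancel_right]
      exact (mul_left_cancel h11).symm
    have h12 : g' = tt H Hc φ := Subtype.ext (h9.trans (P.tcoe φ).symm)
    refine ⟨φ + θ, ?_⟩
    rw [P.tadd, ← h12, hg', P.tneg, inv_mul_cancel_right]
  -- the coordinates
  have hzl : ∀ (g : H) (θ : Fin 1 → ℝ), zfx e τ (cj (tt H Hc θ * g).1.1 h) =
      eu (2 * θ 0) * zfx e τ (cj g.1.1 h) := by
    intro g θ
    rw [hleft, D.trp.zf_cmb]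
  have hcl' : ∀ (g : H) (θ : Fin 1 → ℝ), cfx h τ (cj (tt H Hc θ * g).1.1 h) =
      cfx h τ (cj g.1.1 h) := by
    intro g θ
    rw [hleft, D.trp.cf_cmb]
  have hinner : ∀ x y : H, cfx h τ (cj (x⁻¹ * y).1.1 h) = cfx h τ (cj x.1.1 h) * cfx h τ (cj y.1.1 h) +
      (zfx e τ (cj x.1.1 h) * conj (zfx e τ (cj y.1.1 h))).re := fun x y =>
    D.inner x.1 y.1 x.2 y.2
  have hc1 : cfx h τ (cj (1 : H).1.1 h) = 1 := D.cf_one
  have hz1 : zfx e τ (cj (1 : H).1.1 h) = 0 := D.zf_one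
  -- the reflection
  obtain ⟨n, hn, hnx⟩ := RH p hpΦ
  have hnx' : ∀ x : Fin 1 → ℝ, cj n.1 (hx Hc x) = hx Hc (-x) := by
    intro x
    have h1 : cj n.1 (hx Hc x) = hx Hc (fun j => x j - (∑ i, (p.1 i : ℝ) * x i) * p.2 j) := hnx x
    rw [h1]
    congr 1
    funext j
    have hj : j = 0 := Subsingleton.elim _ _
    rw [Fin.sum_univ_one, hj, hp, Pi.neg_apply]
    push_cast
    ring
  have hnh : cj n.1 h = -h := by
    have h1 := hnx' (fun _ => 1)
    rw [hhx, hhx, cj_smul, Complex.ofReal_one, one_mul, Pi.neg_apply] at h1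
    have h2 := congrArg (fun M => (-Complex.I) • M) h1
    simp only [smul_smul] at h2
    have h3 : -Complex.I * Complex.I = 1 := by
      rw [neg_mul, Complex.I_mul_I, neg_neg]
    have h4 : -Complex.I * (((-1 : ℝ) : ℂ) * Complex.I) = -1 := by
      push_cast
      linear_combination Complex.I_mul_I
    rw [h3, h4, one_smul, neg_one_smul] at h2
    exact h2
  set w : H := ⟨n, hn⟩ with hw
  have hwc : ∀ g : H, cfx h τ (cj (g * w).1.1 h) = -cfx h τ (cj g.1.1 h) := by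
    intro g
    have h1 : (g * w).1.1 = g.1.1 * n.1 := rfl
    have h2 : cj g.1.1 (-h) = -cj g.1.1 h := by
      rw [← neg_one_smul ℂ h, cj_smul, neg_one_smul]
    rw [h1, cj_mul, hnh, h2]
    unfold cfx
    rw [mul_neg, Matrix.trace_neg, Complex.neg_re, neg_div]
  -- continuity
  have hvc : Continuous fun g : H => g.1.1 := continuous_subtype_val.comp continuous_subtype_val
  have hcjc : Continuous fun g : H => cj g.1.1 h :=
    (hvc.matrix_mul continuous_const).matrix_mul hvc.matrix_conjTranspose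
  have hcc : Continuous fun g : H => cfx h τ (cj g.1.1 h) :=
    (Complex.continuous_re.comp (continuous_const.matrix_mul hcjc).matrix_trace).div_const _
  have hzc : Continuous fun g : H => zfx e τ (cj g.1.1 h) :=
    ((hcjc.matrix_mul continuous_const).matrix_trace).div_const _
  -- Lipschitz bounds
  set a : ℝ := 1 + √C₀ with ha
  set b : ℝ := ∑ i, ∑ j, ‖h i j‖ with hb
  have hb0 : 0 ≤ b := Finset.sum_nonneg fun _ _ => Finset.sum_nonneg fun _ _ => norm_nonneg _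
  have ha0 : 0 ≤ a := by positivity
  have hps : ∀ g : H, √(∑ i, ∑ j, ‖g.1.1 i j - (1 : MT N) i j‖ ^ 2) ≤ √C₀ := fun g =>
    Real.sqrt_le_sqrt (P.le g)
  have hga : ∀ (g : H) i j, ‖g.1.1 i j‖ ≤ a := fun g i j =>
    (ent_one g.1.1 i j).trans (add_le_add le_rfl (hps g))
  set K : ℝ := √C₀ + N * (N * (a * b) * a) with hK
  have hK0 : 0 ≤ K := by positivity
  have hKs : √C₀ ≤ K := by
    have : 0 ≤ N * (N * (a * b) * a) := by positivity
    linarith
  have hA : ∀ (g : H) i j, ‖cj g.1.1 h i j‖ ≤ K := by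
    intro g i j
    have h1 := ent_mul (ent_mul (hga g) (ent_sum h)) (ent_ct (hga g)) i j
    have h2 : 0 ≤ √C₀ := Real.sqrt_nonneg _
    exact h1.trans (by linarith)
  obtain ⟨C₁, hC₁, l1⟩ := lip h K hK0
  obtain ⟨C₂, hC₂, l2⟩ := lip eᴴ K hK0
  refine ⟨fun g => cfx h τ (cj g.1.1 h), fun g => zfx e τ (cj g.1.1 h), w,
    C₁ / (2 * τ) + C₂ / τ, ⟨by positivity, hcc, hzc, fun g => D.norm g.1 g.2, hc1, hcl', hzl,
      fun g θ => by simp only [hright], fun g θ => by simp only [hright], hinner, ?_, ?_, ?_, hwc,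
      ?_, ?_, ?_⟩, ?_⟩
  · intro g
    have h1 := hinner g 1
    rw [hc1, hz1, map_zero, mul_zero, Complex.zero_re, mul_one, mul_one, add_zero] at h1
    exact h1
  · intro z g
    have h1 : (z * g).1.1 = z.1.1 * g.1.1 := rfl
    have h2 := l1 z.1.1 (cj g.1.1 h) ((hps z).trans hKs) (hA g)
    have h3 : cfx h τ (cj (z * g).1.1 h) - cfx h τ (cj g.1.1 h) =
        ((h * (cj z.1.1 (cj g.1.1 h) - cj g.1.1 h)).trace).re / (2 * τ) := by
      unfold cfx
      rw [h1, cj_mul, mul_sub, Matrix.trace_sub, Complex.sub_re, sub_div]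
    rw [h3, abs_div, abs_of_pos (by positivity : 0 < 2 * τ), div_le_iff₀ (by positivity)]
    refine ((Complex.abs_re_le_norm _).trans h2).trans ?_
    have h4 : 0 ≤ √(ps z) := Real.sqrt_nonneg _
    have h5 : (C₁ / (2 * τ) + C₂ / τ) * √(ps z) * (2 * τ) = C₁ * √(ps z) + 2 * C₂ * √(ps z) := by
      field_simp
    rw [h5]
    have h6 : √(∑ i, ∑ j, ‖z.1.1 i j - (1 : MT N) i j‖ ^ 2) = √(ps z) := rfl
    rw [h6]
    have h7 : 0 ≤ 2 * C₂ * √(ps z) := by positivity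
    linarith
  · intro z g
    have h1 : (z * g).1.1 = z.1.1 * g.1.1 := rfl
    have h2 := l2 z.1.1 (cj g.1.1 h) ((hps z).trans hKs) (hA g)
    have h3 : zfx e τ (cj (z * g).1.1 h) - zfx e τ (cj g.1.1 h) =
        (eᴴ * (cj z.1.1 (cj g.1.1 h) - cj g.1.1 h)).trace / τ := by
      unfold zfx
      rw [h1, cj_mul, mul_sub, Matrix.trace_sub, Matrix.trace_mul_comm eᴴ, Matrix.trace_mul_comm eᴴ,
        sub_div]
    rw [h3, norm_div, Complex.norm_real, Real.norm_of_nonneg hτ0.le, div_le_iff₀ hτ0]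
    refine h2.trans ?_
    have h4 : 0 ≤ √(ps z) := Real.sqrt_nonneg _
    have h5 : (C₁ / (2 * τ) + C₂ / τ) * √(ps z) * τ = C₁ / 2 * √(ps z) + C₂ * √(ps z) := by
      field_simp
    rw [h5]
    have h6 : √(∑ i, ∑ j, ‖z.1.1 i j - (1 : MT N) i j‖ ^ 2) = √(ps z) := rfl
    rw [h6]
    have h7 : 0 ≤ C₁ / 2 * √(ps z) := by positivity
    linarith
  · intro θ
    apply Subtype.ext
    apply Subtype.ext
    have h1 : cj n.1 (tt H Hc (-θ)).1.1 = (tt H Hc θ).1.1 := by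
      rw [htc, htc, cj_exp, hnx']
      congr 2
      funext j
      rw [Pi.neg_apply, Pi.neg_apply]
      ring
    have h2 : (tt H Hc θ).1.1 * n.1 = n.1 * (tt H Hc (-θ)).1.1 := by
      rw [← h1]
      unfold cj
      rw [Matrix.mul_assoc, ct_mul, Matrix.mul_one]
    exact h2
  · have h1 : cfx h τ (cj (w * w).1.1 h) = 1 := by
      rw [hwc]
      have h2 := hwc 1
      rw [one_mul, hc1] at h2
      rw [h2, neg_neg]
    exact hfib1 _ h1
  · intro u v huv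
    have h1 := D.norm u.1 u.2
    have h2 := D.norm v.1 v.2
    have h3 : ‖zfx e τ (cj u.1.1 h)‖ = ‖zfx e τ (cj v.1.1 h)‖ := by
      rw [huv] at h1
      have h4 : ‖zfx e τ (cj u.1.1 h)‖ ^ 2 = ‖zfx e τ (cj v.1.1 h)‖ ^ 2 := by linarith
      exact (pow_left_inj₀ (norm_nonneg _) (norm_nonneg _) two_ne_zero).1 h4
    obtain ⟨t, ht⟩ : ∃ t : ℝ, eu (2 * t) * zfx e τ (cj u.1.1 h) = zfx e τ (cj v.1.1 h) := by
      by_cases h0 : zfx e τ (cj u.1.1 h) = 0
      · refine ⟨0, ?_⟩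
        rw [h0, norm_zero] at h3
        rw [h0, mul_zero, norm_eq_zero.1 h3.symm]
      · have h4 : ‖zfx e τ (cj v.1.1 h) / zfx e τ (cj u.1.1 h)‖ = 1 := by
          rw [norm_div, ← h3, div_self (norm_ne_zero_iff.2 h0)]
        obtain ⟨t, ht⟩ := ex_eu _ h4
        exact ⟨t, by rw [ht, div_mul_cancel₀ _ h0]⟩
    set θ : Fin 1 → ℝ := fun _ => t with hθ
    have h5 : cfx h τ (cj ((tt H Hc θ * u)⁻¹ * v).1.1 h) = 1 := by
      rw [hinner, hcl', hzl, huv]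
      have h6 : eu (2 * θ 0) * zfx e τ (cj u.1.1 h) = zfx e τ (cj v.1.1 h) := ht
      rw [h6, Complex.mul_conj, Complex.ofReal_re, Complex.normSq_eq_norm_sq, ← h2]
      ring
    obtain ⟨θ', hθ'⟩ := hfib1 _ h5
    refine ⟨θ, θ', ?_⟩
    rw [← hθ', mul_inv_cancel_left]
  · intro g
    have h1 := D.dec g.1 g.2
    have h2 : (h * (g.1.1 * h * g.1.1ᴴ)).trace = 2 * τ * (cfx h τ (cj g.1.1 h) : ℂ) := by
      have h3 : g.1.1 * h * g.1.1ᴴ = cj g.1.1 h := rfl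
      rw [h3]
      conv_lhs => rw [h1]
      rw [hT.tr_h]
    rw [h2, hT.hh]
    ring

end

end SPH
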