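import Pool.Agent.SPH.StD

/-!
# SRJ: all odd numbers are labels
-/

namespace SPH

open STZ LGR STZ3 MeasureTheory Matrix Filter

open scoped ComplexConjugate Matrix Real Topology

noncomputable section

namespace SRJ

theorem eu_nat_mul (n : ℕ) (x : ℝ) : eu (n * x) = eu x ^ n := by
  unfold eu
  rw [← Complex.exp_nat_mul]
  congr 1
  push_cast
  ring

end SRJ

open SRJ in
theorem t_SRJ : M_SRJ := by
  intro hWFA hTAU hRNK N H Φ B Hc E c k hX
  have hL := hX.lrd
  have hW := hWFA 1 Φ B hL.ird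
  have hR := hRNK Φ B hL.ird hW
  have hT := hTAU N H 1 Φ B Hc E hX.closed hL
  obtain ⟨al, hal⟩ : ∃ al : (Fin 1 → ℤ) × (Fin 1 → ℤ), al = ((fun _ => 2), fun _ => 1) :=
    ⟨_, rfl⟩
  have hm : al ∈ Φ := by
    have h1 : al ∈ pos Φ := by
      rw [hR.pos, hal]
      exact Finset.mem_singleton_self _
    exact (Finset.mem_filter.1 h1).1
  have key : ∀ z : Fin 1 → ℝ, ta Hc z = 1 → eu (2 * z 0) = 1 := by
    intro z hz
    have h1 := hT.Ade al hm z
    have h2 : dz al.1 z = 2 * z 0 := by
      rw [hal]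
      simp [dz]
    rw [hz, h2] at h1
    have h3 : ((1 : SU N) : Matrix (Fin N) (Fin N) ℂ) = 1 := rfl
    rw [h3, Matrix.conjTranspose_one, Matrix.one_mul, Matrix.mul_one] at h1
    have h4 : E al ≠ 0 := by
      intro h5
      have h6 := (hT.pos al hm).1
      rw [h5] at h6
      simp at h6
    have h5 : (1 - eu (2 * z 0)) • E al = 0 := by
      rw [sub_smul, one_smul, ← h1, sub_self]
    rcases smul_eq_zero.1 h5 with h6 | h6
    · exact (sub_eq_zero.1 h6).symm
    · exact absurd h6 h4
  constructor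
  · intro n
    refine ⟨⟨fun _ => 2 * n, ?_⟩, ?_⟩
    · intro z hz
      have h1 : dz (wG (fun _ : Fin 1 => 2 * n) - 1) z = n * (2 * z 0) := by
        simp [dz, wG]
        ring
      rw [h1, eu_nat_mul, key z hz, one_pow]
    · change (((2 * n : ℕ) : ℤ) + 1) = 2 * n + 1
      push_cast
      ring
  · intro K
    have h1 : Set.InjOn (fun i : IX Hc => i.1 0)
        ((fun i : IX Hc => i.1 0) ⁻¹' (Set.Iio K)) := by
      intro i _ j _ h
      apply Subtype.ext
      funext x
      rw [Subsingleton.elim x 0]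
      exact h
    refine ((Set.finite_Iio K).preimage h1).subset ?_
    intro i hi
    have h2 : ((i.1 0 : ℕ) : ℤ) + 1 ≤ K := hi
    change i.1 0 < K
    omega

end

end SPH
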