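import Pool.Agent.SPH.StF
import Pool.Agent.STZ.STRX

/-!
# Module STS: the upper bound for the sphere and the projective plane from the local estimates
-/

namespace SPH

open STZ LGR STZ3 MeasureTheory Matrix Filter

open scoped ComplexConjugate Matrix Real Topology

noncomputable section

namespace STS

/-- the odd labels as labels -/
def vl {N : ℕ} {Hc : Fin 1 → MT N} (a : OX Hc) : IX Hc := a.1

theorem vl_inj {N : ℕ} {Hc : Fin 1 → MT N} : Function.Injective (vl (Hc := Hc)) := by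
  intro a b h
  exact Subtype.ext h

/-- the projection with the kernels of the sphere -/
theorem proj {N : ℕ} {H : Subgroup (SU N)} {Hc : Fin 1 → MT N} {χ : IX Hc → H → ℂ} {cc : H → ℝ}
    {w : H} {μ : Measure H} (hK : KPF χ cc w μ) (S : Finset (IX Hc)) (f : H → ℂ)
    (hf : Continuous f) (hT : TI Hc f) (hS : Pr μ (KK χ) S f = f) :
    Pr μ (KO χ) (S.preimage vl vl_inj.injOn) f = f := by
  funext x
  have h1 : Pr μ (KO χ) (S.preimage vl vl_inj.injOn) f x =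
      ∑ i ∈ S, ∫ y, KP χ i x y * f y ∂μ := by
    refine (Finset.sum_preimage vl S vl_inj.injOn (fun i => ∫ y, KP χ i x y * f y ∂μ) ?_)
    intro i _ hi
    have h2 : lw i % 2 = 0 := by
      have h3 : lw i % 2 ≠ 1 := fun h4 => hi ⟨⟨i, h4⟩, rfl⟩
      omega
    have h3 : (fun y => KP χ i x y * f y) = fun _ => 0 := by
      funext y
      rw [hK.even i x y h2, zero_mul]
    rw [h3, integral_zero]
  have h2 : Pr μ (KK χ) S f x = ∑ i ∈ S, ∫ y, KK χ i x y * f y ∂μ := rfl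
  rw [h1, ← congrFun hS x, h2]
  exact Finset.sum_congr rfl fun i _ => hK.ti i f hf hT x

end STS

open STS

open STZ.STRX in
theorem t_STS : M_STS := by
  intro hNQ hKB hWF hRV hEIGW hGXOC hRNK hJOI N H K Φ B Hc E c k hCX hfr hTK cc ze w C₀ hS μ _ _ χ
    hCHI hKPF hloc p hp a b hab
  have hcpt : CompactSpace H := isCompact_iff_compactSpace.1 hCX.closed.isCompact
  have h2c : SecondCountableTopology H := TopologicalSpace.Subtype.secondCountableTopology _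
  have hird := hCX.lrd.ird
  have hR1 := hRNK Φ B hird (hWF 1 Φ B hird)
  obtain ⟨hker, hest⟩ := hJOI N H Φ B Hc E c k hCX cc ze w C₀ hS μ χ hKPF hloc
  have hAX := hest p hp
  have hp0 : 0 < p := by linarith
  have hkpos := hCX.kc.kpos
  have hse : 0 ≤ (((1 : ℕ) : ℝ) + 1) / 2 - (((1 : ℕ) : ℝ) + 1 + 2) / p := by
    rw [sub_nonneg, div_le_div_iff₀ hp0 (by norm_num : (0 : ℝ) < 2)]
    push_cast
    linarith
  have hQ1 : ((rd Φ).Q 1 : ℝ) = 1 := by
    rw [hR1.q 1]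
    norm_num
  have hQa : ∀ m : Fin 1 → ℕ, (((rd Φ).Q (wG m) : ℤ) : ℝ) = ((m 0 : ℝ) + 1) ^ 2 := by
    intro m
    rw [hR1.q (wG m)]
    unfold wG
    push_cast
    ring
  have hk1 : ∀ m : Fin 1 → ℕ, 0 ≤ k * (((rd Φ).Q (wG m) : ℝ) - ((rd Φ).Q 1 : ℝ)) := by
    intro m
    refine mul_nonneg hkpos.le ?_
    rw [hQ1, hQa]
    have h1 : (0 : ℝ) ≤ m 0 := Nat.cast_nonneg _
    nlinarith
  set C1 : ℝ := 4 + 4 / k with hC1def
  have hC10 : 0 ≤ C1 := by positivity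
  have hC1 : ∀ m : Fin 1 → ℕ,
      sz (wG m) ^ 2 ≤ C1 * (1 + k * (((rd Φ).Q (wG m) : ℝ) - ((rd Φ).Q 1 : ℝ))) := by
    intro m
    rw [hQ1, hQa]
    have h1 : (0 : ℝ) ≤ m 0 := Nat.cast_nonneg _
    have h2 : sz (wG m) = 2 + (m 0 : ℝ) := by
      unfold sz wG
      rw [Fin.sum_univ_one]
      push_cast
      rw [abs_of_nonneg (by positivity)]
      ring
    rw [h2, hC1def]
    have h3 : (4 + 4 / k) * (1 + k * (((m 0 : ℝ) + 1) ^ 2 - 1)) =
        4 + 4 / k + 4 * (k * (((m 0 : ℝ) + 1) ^ 2 - 1)) + 4 * (((m 0 : ℝ) + 1) ^ 2 - 1) := by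
      field_simp
      ring
    rw [h3]
    have h4 : 0 ≤ 4 / k := by positivity
    have h5 : 0 ≤ k * (((m 0 : ℝ) + 1) ^ 2 - 1) := mul_nonneg hkpos.le (by nlinarith)
    nlinarith
  obtain ⟨C0, hC0⟩ := core hNQ hKB H μ (OX Hc) (KO χ) 1 1 (fun i => wG i.1.1) hker (rd Φ).Q k hkpos
    ((rd Φ).Q 1 : ℝ) C1 (fun i => hk1 i.1.1) (fun i => hC1 i.1.1) hC10 p hp0 hse a b hab hAX
  refine ⟨max C0 0, ?_⟩
  intro X hX κ f hκ hf hfK hs u hu hlim
  have hXF := hfr X hX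
  obtain ⟨-, hGX⟩ := hGXOC N H 1 Φ B Hc E c k 3 X le_rfl hCX.closed hCX.conn hCX.lrd hCX.kc hXF
  obtain ⟨Z, hG⟩ := hGX χ hCHI
  choose S hS1 hS2 using fun j => hEIGW N H c 3 1 (rd Φ) (pos Φ) (IX Hc) (fun i => i.1) χ Z k
    (hRV 1 Φ B le_rfl hird) hG μ X hXF (κ j) (f j) (hf j)
  have hfc : ∀ j, Continuous (f j) := fun j => (hf j).1.1.cont
  have hfT : ∀ j, TI Hc (f j) := fun j g θ => hfK j g _ (hTK θ)
  have hS2' := fun j => proj hKPF (S j) (f j) (hfc j) (hfT j) (hS2 j)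
  have hS1' : ∀ j, ∀ i ∈ (S j).preimage vl vl_inj.injOn,
      κ j = k * (((rd Φ).Q (wG i.1.1) : ℝ) - ((rd Φ).Q 1 : ℝ)) := by
    intro j i hi
    exact hS1 j _ (Finset.mem_preimage.1 hi)
  have hexp : (((1 : ℕ) : ℝ) + 1) / 2 - (((1 : ℕ) : ℝ) + 1 + 2) / p =
      ((2 : ℕ) : ℝ) / 2 - (((2 : ℕ) : ℝ) + 2) / p := by
    push_cast
    norm_num
  have hwt : ∀ j, 0 ≤ (1 + κ j) ^ (((2 : ℕ) : ℝ) / 2 - (((2 : ℕ) : ℝ) + 2) / p) *
      ∫ g, ‖f j g‖ ^ 2 ∂μ := by
    intro j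
    by_cases h : (S j).Nonempty
    · obtain ⟨i, hi⟩ := h
      refine mul_nonneg (Real.rpow_nonneg ?_ _) (integral_nonneg fun _ => by positivity)
      have h1 := hS1 j i hi
      have h2 := hk1 i.1
      rw [h1]
      linarith
    · rw [Finset.not_nonempty_iff_eq_empty] at h
      have h1 : f j = 0 := by
        rw [← hS2 j, h]
        funext y
        simp [Pr]
      rw [h1]
      simp
  refine FING.all_data μ _ p hp0 a b hab (max C0 0) (le_max_right _ _) κ f hfc hwt hs ?_ u hu hlim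
  intro M
  have h1 := hC0 M (fun j => κ j) (fun j => f j) (fun j => (S j).preimage vl vl_inj.injOn)
    (fun i j hij => Fin.ext (hκ hij)) (fun j => hfc j) (fun j => hS1' j) (fun j => hS2' j)
  rw [hexp] at h1
  refine h1.trans ?_
  refine mul_le_mul_of_nonneg_right (le_max_left _ _) (Real.rpow_nonneg ?_ _)
  exact Finset.sum_nonneg fun j _ => hwt j

end

end SPH
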