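import Pool.Agent.SPH.StC

/-!
# The sphere S²: the low levels (section 8 of `PAPER.md`)

Module `X` proves `theorem t_X : M_X` (or `t_X : S_X` if there is no `M_X`) in the file `Pool/Agent/SPH/X.lean`, namespace `SPH`.
-/

namespace SPH

open STZ LGR STZ3 MeasureTheory Matrix Filter

open scoped ComplexConjugate Matrix Real Topology

noncomputable section

/-- SRJ. All odd numbers are labels. Let `a = fun _ => 2n`. If `ta Hc z = 1` then (`TAF.Ade` for the root `p = (2, 1)` of RNK, `E p ≠ 0` by `TAF.pos`) `eu (2 z 0) = 1`, so `eu (dz (wG a - 1) z) = eu (2 n z 0) = 1`. -/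
def S_SRJ : Prop := ∀ (N : ℕ) (H : Subgroup (SU N)) (Φ : RT 1) (B : Matrix (Fin 1) (Fin 1) ℤ)
  (Hc : Fin 1 → MT N) (E : (Fin 1 → ℤ) × (Fin 1 → ℤ) → MT N) (c k : ℝ), CX H Φ B Hc E c k 3 →
  (∀ n : ℕ, ∃ i : IX Hc, lw i = 2 * n + 1) ∧ ∀ K : ℕ, {i : IX Hc | lw i ≤ K}.Finite

def M_SRJ : Prop := S_WFAC → S_TAUF → S_RNK → S_SRJ

/-- MXS. The bound of the maximum. `uw t = Pr F (uw t)` (`KBF`), BERN: `‖uw t x‖² ≤ (∑ i ∈ F, ‖KQ χ e i x x‖) nsq (uw t)`, `‖KQ i x x‖ ≤ lw i ≤ N` (`KPF.le`), `i ↦ lw i` is injective (`KPF.inj`) with values in `[1, N]`, so the sum is at most `N²`; `nsq (uw t) = ∑ nsq (u a)` (`KBF.orth`, `|eu| = 1`). `sz (wG i.1.1) = 1 + lw i`. -/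
def S_MXS : Prop := ∀ (N : ℕ) (H : Subgroup (SU N)) (Φ : RT 1) (B : Matrix (Fin 1) (Fin 1) ℤ)
  (Hc : Fin 1 → MT N) (E : (Fin 1 → ℤ) × (Fin 1 → ℤ) → MT N) (c k : ℝ), CX H Φ B Hc E c k 3 →
  ∀ (cc : H → ℝ) (w : H) (χ : IX Hc → H → ℂ) (μ : Measure H) [IsProbabilityMeasure μ] [μ.IsMulLeftInvariant],
  KPF χ cc w μ → ∀ e : ℕ, MXB μ (KQ χ e) (1 : ℝ) (fun i : PX Hc e => wG i.1.1) (fun l => -(rd Φ).Q l)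

def M_MXS : Prop := S_KB → S_BERN → S_MXS

/-- BXS. The pieces of the kernel. Let `K` be the maximum of the constants `K` of RTW and RON, `ε₁ ≤ 1/64` with `K ε₁ ≤ ε`, `A = 4`, `m` with `10 + A ≤ ε₁ m`, `C₁` from CSA, `Y J = ⌊(1 - 12 ε₁) J⌋`. `32 KS m Y ≤ 2^J` for `J ≥ J₀`: `KS m Y ≤ 5 m² 2^Y`, `2^Y ≤ 2^((1 - 12 ε₁) J)`. RTW for `x < Y J`, RON for `x = Y J`. -/
def S_BXS : Prop := ∀ (N : ℕ) (H : Subgroup (SU N)) (Φ : RT 1) (B : Matrix (Fin 1) (Fin 1) ℤ)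
  (Hc : Fin 1 → MT N) (E : (Fin 1 → ℤ) × (Fin 1 → ℤ) → MT N) (c k : ℝ), CX H Φ B Hc E c k 3 →
  ∀ (cc : H → ℝ) (ze : H → ℂ) (w : H) (C₀ : ℝ), SPF H Hc cc ze w C₀ →
  (∀ g : H, (cc g : ℂ) * (Hc 0 * Hc 0).trace = (Hc 0 * (g.1.1 * Hc 0 * g.1.1ᴴ)).trace) →
  ∀ (μ : Measure H) [IsProbabilityMeasure μ] [μ.IsMulLeftInvariant] (χ : IX Hc → H → ℂ), CHI Φ Hc c k 3 χ →
  ∀ ε : ℝ, 0 < ε → ∃ (m : ℕ) (C₁ C : ℝ) (Y : ℕ → ℕ) (J₀ : ℕ), 1 ≤ m ∧ CSF m C₁ ∧ 0 ≤ C ∧ 1 ≤ J₀ ∧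
    ∀ J : ℕ, J₀ ≤ J → Y J ≤ J ∧ 32 * KS m (Y J) ≤ 2 ^ J ∧
      ∀ (x e : ℕ) (F : Finset (IX Hc)) (G : ℝ → H → ℂ), x ≤ Y J → e ≤ 1 →
      (∀ τ (i : IX Hc), nS m (Y J) x e J τ (lw i) ≠ 0 → i ∈ F) → JC G → (∀ t y, ‖G t y‖ ≤ 1) → (∀ t, TI Hc (G t)) →
      ‖BF μ χ F (fun t i => nS m (Y J) x e J t (lw i)) G‖ ≤ C * (2 : ℝ) ^ (ε * J) *
        ((2 : ℝ) ^ ((2 : ℝ) / 7 * J) * mG μ G ^ ((11 : ℝ) / 7) + (2 : ℝ) ^ (-(4 * J : ℝ)) * mG μ G)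

def M_BXS : Prop := S_CSA → S_RTW → S_RON → S_BXS

/-- LWS. The low levels. `sz (wG i.1.1) = 1 + lw i`; if `F` is empty then the left side is `0`. We may assume `ε ≤ 1`. `S = ∑ nsq (u a)`, `m = ∫∫ ‖G‖ ≤ 1`. Choose `J` with `N ≤ 2^J ≤ 2 N`. If `J < J₀'` (`J₀' ≥ J₀`, `J₀' ≥ 4`, see BXS for `ε/2`): MXS: the left side is at most `C N² S m² ≤ C' N^(-3) S m`. Let `J ≥ J₀'`.
`lw i ≤ 2^J`, `lw i ≥ N/2 - 1 ≥ 2^J/4 - 1 > 2^J/8`, so `qS e (2^J) (lw i) = 1` for `i ∈ F` (`PX`). `G'` from PRJ for `G`: the left side does not change if `G` is replaced by `G'` (`KPF.mem`: `uw t` is continuous, `TI`, of the parity `e`), and `mG μ G' ≤ m`. TTB for `KQ χ e` (`KPF.ker`), `G'`, `T ⊇ F` the set of all `i : PX Hc e` with `lw i ≤ 2 · 2^J` (SRJ: finite), `q i = qS e (2^J) (lw i)`: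
the square of the left side is at most `S ‖∫∫ ∫ conj (G' t x) ∫ (∑ i ∈ T, gS e (2^J) (t - s) (lw i) KQ χ e i x y) G' s y‖` (`(rd Φ).Q l = l 0 ^ 2`, RNK). By `KPF.ti` `KQ χ e i` may be replaced by `KK χ i.1`, by `NSF.sum` (`C₁` from BXS, NSX) `gS = ∑ x ∈ range (Y + 1), nS m Y x e J`, and the `i : IX Hc` with `lw i % 4 ≠ 1 + 2 e` may be added (`KPF.van`): it is
`‖∑ x ∈ range (Y + 1), BF μ χ T' (fun t i => nS m Y x e J t (lw i)) G'‖`, `T'` the set of all `i : IX Hc` with `lw i ≤ 2 · 2^J` (`NSF.supp`). BXS for `ε/2`; `Y + 1 ≤ J + 1 ≤ C 2^(ε J/2)`, `2^J ≤ 2 N`, `2^(-4J) ≤ N^(-4)`. `(1 + 1)(1 - 2/p₀) - 4/p₀ = 2/7`, `2 - 2/p₀ = 11/7` for `p₀ = 14/3`. -/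
def S_LWS : Prop := ∀ (N : ℕ) (H : Subgroup (SU N)) (Φ : RT 1) (B : Matrix (Fin 1) (Fin 1) ℤ)
  (Hc : Fin 1 → MT N) (E : (Fin 1 → ℤ) × (Fin 1 → ℤ) → MT N) (c k : ℝ), CX H Φ B Hc E c k 3 →
  ∀ (cc : H → ℝ) (ze : H → ℂ) (w : H) (C₀ : ℝ), SPF H Hc cc ze w C₀ →
  (∀ g : H, (cc g : ℂ) * (Hc 0 * Hc 0).trace = (Hc 0 * (g.1.1 * Hc 0 * g.1.1ᴴ)).trace) →
  ∀ (μ : Measure H) [IsProbabilityMeasure μ] [μ.IsMulLeftInvariant] (χ : IX Hc → H → ℂ), CHI Φ Hc c k 3 χ →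
  KPF χ cc w μ → ∀ e : ℕ, e ≤ 1 →
    LLV μ (KQ χ e) (1 : ℝ) (fun i : PX Hc e => wG i.1.1) (fun l => -(rd Φ).Q l) (14 / 3) (1 / 2)

def M_LWS : Prop := S_WFAC → S_RNK → S_PRJ → S_NSX → S_TTB → S_SRJ → S_MXS → S_BXS → S_LWS

end

end SPH
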