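import Pool.Agent.SPH.StE
import Pool.Agent.LGR.StV

/-!
# The sphere S²: the assembly (section 10 of `PAPER.md`)

Module `X` proves `theorem t_X : M_X` (or `t_X : S_X` if there is no `M_X`) in the file `Pool/Agent/SPH/X.lean`, namespace `SPH`. `SymP`, `MaxAbP`, `StrIneqM`, `S_TAUS` are in `Pool/Agent/LGR/StV.lean`.
-/

namespace SPH

open STZ LGR STZ3 MeasureTheory Matrix Filter

open scoped ComplexConjugate Matrix Real Topology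

noncomputable section

/-- DIM. Let `𝔨`, `𝔭` be the eigenspaces of `τ` on `lie H` for `1`, `-1` (`TSF.inv`), `dim 𝔭 = 2` with the basis `X₁`, `X₂`. `𝔭 + [𝔭, 𝔭]` is an ideal (`[𝔨, 𝔭] ⊆ 𝔭`, `[𝔭, [𝔭, 𝔭]] ⊆ 𝔭`, `[𝔨, [𝔭, 𝔭]] ⊆ [𝔭, 𝔭]`: `TSF.br`, Jacobi), so it is `lie H`, and `𝔨 = [𝔭, 𝔭]` is spanned by `Z = [X₁, X₂]`. `Z ≠ 0` (otherwise `lie H = 𝔭` is abelian). So `D = 3`, `T = 𝔨 = ℝ Z`.
Maximal: let `Y = a Z + P`, `P ∈ 𝔭`, commute with `Z`, so `[Z, P] = 0`. If `P ≠ 0` then `ad Z`, which is skew-symmetric on the plane `𝔭` for `-tr (X Y)` (LIEB: `lie H` consists of skew-Hermitian matrices), is `0` on `𝔭`, so `Z` is central in `lie H` and `ℝ Z` is an ideal, a contradiction. `T ⊆ lie K`: `SymP.big`. -/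
def S_DIM : Prop := ∀ (N : ℕ) (H K : Subgroup (SU N)) (σ : H →* H)
  (τ : Matrix (Fin N) (Fin N) ℂ →ₗ[ℝ] Matrix (Fin N) (Fin N) ℂ) (D : ℕ),
  IsClosed (H : Set (SU N)) → SimpleH H → SymP H K σ τ → Module.finrank ℝ (Submodule.span ℝ (lie H)) = D →
  Module.finrank ℝ (Submodule.span ℝ {X | X ∈ lie H ∧ τ X = -X}) = 2 →
  D = 3 ∧ ∃ T : Submodule ℝ (Matrix (Fin N) (Fin N) ℂ), MaxAb H T ∧ Module.finrank ℝ T = 1 ∧ ∀ X ∈ T, X ∈ lie K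

def M_DIM : Prop := S_LIEB → S_TAUS → S_DIM

/-- the representations with an odd label -/
def OX {N : ℕ} (Hc : Fin 1 → MT N) : Type := {i : IX Hc // lw i % 2 = 1}

/-- the kernels of the sphere -/
def KO {N : ℕ} {H : Subgroup (SU N)} {Hc : Fin 1 → MT N} (χ : IX Hc → H → ℂ) (i : OX Hc) (x y : H) : ℂ := KP χ i.1 x y

/-- JOI. `Ker`: for two labels in the same class `KPF.ker`; in different classes: `f y = KP χ b y z = lw LP (..) (cc (z⁻¹ y))` (`KPF.odd`) is continuous, `TI` (`SPF.cright`) and of the parity of `b` (`SPF.wcc`, `LPF.neg`), so `∫ KP χ a x y f y = ∫ KK χ a x y f y = 0` (`KPF.ti`, `KPF.van`). The estimate: split `F` into the two classes, `uw F u` is the sum of the two functions (`NQF.tri`), and ALA for both. -/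
def S_JOI : Prop := ∀ (N : ℕ) (H : Subgroup (SU N)) (Φ : RT 1) (B : Matrix (Fin 1) (Fin 1) ℤ)
  (Hc : Fin 1 → MT N) (E : (Fin 1 → ℤ) × (Fin 1 → ℤ) → MT N) (c k : ℝ), CX H Φ B Hc E c k 3 →
  ∀ (cc : H → ℝ) (ze : H → ℂ) (w : H) (C₀ : ℝ), SPF H Hc cc ze w C₀ →
  ∀ (μ : Measure H) [IsProbabilityMeasure μ] [μ.IsMulLeftInvariant] (χ : IX Hc → H → ℂ), KPF χ cc w μ →
  (∀ e : ℕ, e ≤ 1 → LOCA μ (KQ χ e) (1 : ℝ) (fun i : PX Hc e => wG i.1.1) (fun l => -(rd Φ).Q l) (14 / 3) (1 / 2)) →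
  Ker μ (KO χ) ∧ ∀ p : ℝ, 14 / 3 < p → ∃ D : ℝ, 0 ≤ D ∧ ∀ (F : Finset (OX Hc)) (u : OX Hc → H → ℂ),
    (∀ a ∈ F, Mem μ (KO χ a) (u a)) →
    nq μ p (uw (fun i : OX Hc => wG i.1.1) (fun l => -(rd Φ).Q l) F u) ≤
      D * √(∑ a ∈ F, sz (wG a.1.1) ^ ((((1 : ℕ) : ℝ) + 1) - 2 * (((1 : ℕ) : ℝ) + 1 + 2) / p) * nsq μ (u a))

def M_JOI : Prop := S_NQ → S_LGB → S_ALA → S_JOI

/-- STS. As STU (`Pool/Agent/STZ3/STU.lean`) and STRS (`Pool/Agent/SYM/STRS.lean`): `STRX.core` for `KO χ`, `r = 1`, `e = 1`, with the estimate of JOI. Let `f k` be the eigenfunctions, right invariant under `K`, hence `TI` (hypothesis). `GX` for `χ`: GXOC; RVOF; EIGW: `Pr μ (KK χ) S f = f` with `κ = k (Q (wG i.1) - Q 1)` for `i ∈ S`; by `KPF.ti` `KK χ i` may be replaced by `KP χ i`, which is `0` for even labels (`KPF.even`), so `Pr μ (KO χ) S' f = f`,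
`S'` the set of the odd labels in `S`. `(rd Φ).Q l = l 0 ^ 2` (RNK); `d/2 - (d + 2)/p = 1 - 4/p ≥ 0`. `FrameH` from KFRM-type hypothesis `hfr`. -/
def S_STS : Prop := ∀ (N : ℕ) (H K : Subgroup (SU N)) (Φ : RT 1) (B : Matrix (Fin 1) (Fin 1) ℤ)
  (Hc : Fin 1 → MT N) (E : (Fin 1 → ℤ) × (Fin 1 → ℤ) → MT N) (c k : ℝ), CX H Φ B Hc E c k 3 →
  (∀ X : Fin 3 → MT N, KFrame H X → FrameH H c X) → (∀ θ : Fin 1 → ℝ, (tt H Hc θ).1 ∈ K) →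
  ∀ (cc : H → ℝ) (ze : H → ℂ) (w : H) (C₀ : ℝ), SPF H Hc cc ze w C₀ →
  ∀ (μ : Measure H) [IsProbabilityMeasure μ] [μ.IsMulLeftInvariant] (χ : IX Hc → H → ℂ), CHI Φ Hc c k 3 χ → KPF χ cc w μ →
  (∀ e : ℕ, e ≤ 1 → LOCA μ (KQ χ e) (1 : ℝ) (fun i : PX Hc e => wG i.1.1) (fun l => -(rd Φ).Q l) (14 / 3) (1 / 2)) →
  ∀ p : ℝ, 14 / 3 < p → ∀ a b : ℝ, a ≤ b → ∃ C : ℝ, StrIneqM H K 3 2 μ p a b C

def M_STS : Prop := S_NQ → S_KB → S_WFAC → S_RVOF → S_EIGW → S_GXOC → S_RNK → S_JOI → S_STS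

/-- the upper bound for the sphere and the projective plane -/
def MainUpS : Prop := ∀ (N : ℕ) (H K : Subgroup (SU N)) (σ : H →* H)
  (τ : Matrix (Fin N) (Fin N) ℂ →ₗ[ℝ] Matrix (Fin N) (Fin N) ℂ) (D : ℕ),
  IsClosed (H : Set (SU N)) → IsConnected (H : Set (SU N)) → SimpleH H → SymP H K σ τ →
  Module.finrank ℝ (Submodule.span ℝ (lie H)) = D →
  Module.finrank ℝ (Submodule.span ℝ {X | X ∈ lie H ∧ τ X = -X}) = 2 →
  ∀ p : ℝ, 14 / 3 < p → ∀ μ : Measure H, IsProbabilityMeasure μ → μ.IsMulLeftInvariant →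
  ∀ a b : ℝ, a ≤ b → ∃ C : ℝ, StrIneqM H K D 2 μ p a b C

/-- FIN. DIM: `D = 3`, `T`. LRDX for `T` (`r = 1`): `Φ`, `B`, `Hc`, `E`, `X ∈ T ↔ ∃ x, X = hx Hc x`. KFRM: `c`, a frame, `KFrame → FrameH`; FORM: `k`; so `CX H Φ B Hc E c k 3`. `tt H Hc θ ∈ K`: `ta Hc θ = exp (hx Hc (2π θ))` (`TAF.coe`), `hx Hc (2π θ) ∈ T ⊆ lie K` (`lie K` is the set of the `X` with `ex X t ∈ K` for all `t`). GXOC: `χ` with `CHI`. SPX: `cc`, `ze`, `w`; KPR: `KPF`. LTS with MXS, TPS, LWS: `LOCA` for `e = 0, 1` (`p₀ = 14/3 > 2`). STS. -/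
def M_FIN : Prop := S_LIEB → S_TAUF → S_LRDX → S_KFRM → S_FORM → S_GXOC → S_DIM → S_SPX → S_KPR → S_LWS → S_TPS → S_MXS →
  S_LTS → S_STS → MainUpS

end

end SPH
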