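import Pool.Agent.SPH.StB

/-!
# The sphere S²: module T14 (helper63)
-/

namespace SPH

open STZ LGR STZ3 MeasureTheory Matrix Filter

open scoped ComplexConjugate Matrix Real Topology

noncomputable section

namespace T14

/-- the measure of the torus -/
def tm : Measure (ℝ × (Fin 1 → ℝ)) :=
  ((volume : Measure ℝ).restrict (Set.Ioc 0 1)).prod
    ((volume : Measure (Fin 1 → ℝ)).restrict (Set.Icc 0 1))

instance : IsFiniteMeasure ((volume : Measure (Fin 1 → ℝ)).restrict (Set.Icc 0 1)) :=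
  ⟨by rw [Measure.restrict_apply_univ]; exact isCompact_Icc.measure_lt_top⟩

instance : IsFiniteMeasure tm := by
  unfold tm
  infer_instance

theorem int_eq {E : Type} [NormedAddCommGroup E] [NormedSpace ℝ E]
    (F : ℝ → (Fin 1 → ℝ) → E) (hF : Integrable (fun z : ℝ × (Fin 1 → ℝ) => F z.1 z.2) tm) :
    ∫ t in (0 : ℝ)..1, ∫ θ in Set.Icc (0 : Fin 1 → ℝ) 1, F t θ = ∫ z, F z.1 z.2 ∂tm := by
  rw [intervalIntegral.integral_of_le zero_le_one]
  unfold tm at hF ⊢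
  rw [integral_prod _ hF]

theorem norm_eu (x : ℝ) : ‖eu x‖ = 1 := by
  unfold eu
  rw [Complex.norm_exp]
  simp

theorem conj_eu (x : ℝ) : conj (eu x) = eu (-x) := by
  unfold eu
  rw [← Complex.exp_conj]
  congr 1
  rw [map_mul, map_mul, map_mul, Complex.conj_ofReal, Complex.conj_ofReal, Complex.conj_I,
    map_ofNat]
  push_cast
  ring

theorem eu_add (x y : ℝ) : eu (x + y) = eu x * eu y := by
  unfold eu
  rw [← Complex.exp_add]
  congr 1
  push_cast
  ring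

/-- integrals over the one dimensional cube -/
theorem cube_one (f : ℝ → ℝ) :
    ∫ θ in Set.Icc (0 : Fin 1 → ℝ) 1, f (θ 0) = ∫ θ in (0 : ℝ)..1, f θ := by
  have h1 := (volume_preserving_funUnique (Fin 1) ℝ).setIntegral_preimage_emb
    (MeasurableEquiv.funUnique (Fin 1) ℝ).measurableEmbedding f (Set.Icc 0 1)
  rw [intervalIntegral.integral_of_le zero_le_one, ← integral_Icc_eq_integral_Ioc, ← h1]
  have h2 : (MeasurableEquiv.funUnique (Fin 1) ℝ) ⁻¹' Set.Icc (0 : ℝ) 1 =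
      Set.Icc (0 : Fin 1 → ℝ) 1 := by
    ext θ
    simp only [Set.mem_preimage, Set.mem_Icc, MeasurableEquiv.funUnique_apply, Pi.le_def,
      Fin.forall_fin_one, Pi.zero_apply, Pi.one_apply]
    rfl
  rw [h2]
  rfl

end T14

open T14 in
theorem t_T14 : M_T14 := by
  intro h46 ε hε
  obtain ⟨C, hC, h⟩ := h46 ε hε
  refine ⟨C + 1, by linarith, fun X k S Q u b hX hS hQm hQ hm hb hu0 => ?_⟩
  obtain ⟨h4, h6⟩ := h X (fun l => ∫ t in (0 : ℝ)..1, ∫ φ in Set.Icc (0 : Fin 1 → ℝ) 1,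
    u t φ * eu (t * (l : ℝ) ^ 2 - ((l + k : ℤ) : ℝ) * φ 0)) S hX hS
  set a : ℤ → ℂ := fun l => ∫ t in (0 : ℝ)..1, ∫ φ in Set.Icc (0 : Fin 1 → ℝ) 1,
    u t φ * eu (t * (l : ℝ) ^ 2 - ((l + k : ℤ) : ℝ) * φ 0) with ha
  set e : ℤ → ℝ × (Fin 1 → ℝ) → ℂ :=
    fun l z => eu (z.1 * (l : ℝ) ^ 2 - ((l + k : ℤ) : ℝ) * z.2 0) with he
  set K : ℝ := C * (X : ℝ) ^ ε with hK
  have hX1 : (1 : ℝ) ≤ X := by exact_mod_cast hX
  have hX0 : (0 : ℝ) < X := by linarith
  have hK0 : 0 ≤ K := by positivity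
  have hec : ∀ l, Continuous (e l) := by
    intro l
    simp only [he]
    unfold eu
    fun_prop
  have hui : MemLp (fun z : ℝ × (Fin 1 → ℝ) => u z.1 z.2) (ENNReal.ofReal (14 / 11)) tm :=
    MemLp.of_bound hm.aestronglyMeasurable b (ae_of_all _ fun z => hb z.1 z.2)
  have hue : ∀ l, Integrable (fun z : ℝ × (Fin 1 → ℝ) => u z.1 z.2 * e l z) tm := by
    intro l
    refine Integrable.of_bound (hm.mul (hec l).measurable).aestronglyMeasurable b
      (ae_of_all _ fun z => ?_)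
    rw [norm_mul, norm_eu, mul_one]
    exact hb z.1 z.2
  have hae : ∀ l, a l = ∫ z, u z.1 z.2 * e l z ∂tm := by
    intro l
    simp only [ha]
    exact int_eq (fun t θ => u t θ * eu (t * (l : ℝ) ^ 2 - ((l + k : ℤ) : ℝ) * θ 0)) (hue l)
  set W : ℝ × (Fin 1 → ℝ) → ℂ := fun z => ∑ l ∈ S, conj (a l) * e l z with hWdef
  have hWc : Continuous W := by
    simp only [hWdef]
    exact continuous_finsetSum _ fun l _ => continuous_const.mul (hec l)
  have hWn : ∀ z : ℝ × (Fin 1 → ℝ),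
      ‖W z‖ = ‖∑ l ∈ S, a l * eu (-(z.1 * (l : ℝ) ^ 2) + l * z.2 0)‖ := by
    intro z
    have h1 : conj (W z) = eu (k * z.2 0) *
        ∑ l ∈ S, a l * eu (-(z.1 * (l : ℝ) ^ 2) + l * z.2 0) := by
      simp only [hWdef, he]
      rw [map_sum, Finset.mul_sum]
      refine Finset.sum_congr rfl fun l _ => ?_
      rw [map_mul, Complex.conj_conj, conj_eu, mul_left_comm, ← eu_add]
      congr 2
      push_cast
      ring
    rw [← Complex.norm_conj, h1, norm_mul, norm_eu, one_mul]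
  have hWb : ∀ z, ‖W z‖ ≤ ∑ l ∈ S, ‖a l‖ := by
    intro z
    refine (norm_sum_le _ _).trans (Finset.sum_le_sum fun l _ => ?_)
    rw [norm_mul, norm_eu, mul_one, Complex.norm_conj]
  set A : ℝ := ∑ l ∈ S, ‖a l‖ ^ 2 with hAdef
  have hA0 : 0 ≤ A := Finset.sum_nonneg fun l _ => by positivity
  set b' : ℝ := ∑ l ∈ S, ‖a l‖ with hb'
  have hb'0 : 0 ≤ b' := Finset.sum_nonneg fun l _ => norm_nonneg _
  -- the restriction to `Q`
  set QQ : Set (ℝ × (Fin 1 → ℝ)) := Set.univ ×ˢ Q with hQQ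
  have hQQm : MeasurableSet QQ := MeasurableSet.univ.prod hQm
  set V : ℝ × (Fin 1 → ℝ) → ℝ := QQ.indicator (fun z => ‖W z‖) with hVdef
  have hV0 : ∀ z, 0 ≤ V z := fun z => Set.indicator_nonneg (fun _ _ => norm_nonneg _) z
  have hVm : Measurable V := (hWc.norm.measurable).indicator hQQm
  have hVb : ∀ z, V z ≤ b' := by
    intro z
    simp only [hVdef]
    by_cases hz : z ∈ QQ
    · rw [Set.indicator_of_mem hz]
      exact hWb z
    · rw [Set.indicator_of_notMem hz]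
      exact hb'0
  have hVle : ∀ z, V z ≤ ‖W z‖ := by
    intro z
    simp only [hVdef]
    exact Set.indicator_le_self' (fun _ _ => norm_nonneg _) z
  have hVr : ∀ r : ℝ, 0 ≤ r → ∀ z, V z ^ r ≤ b' ^ r := fun r hr z =>
    Real.rpow_le_rpow (hV0 z) (hVb z) hr
  have hVmem : ∀ (r : ℝ) (q : ENNReal), 0 ≤ r → MemLp (fun z => V z ^ r) q tm := by
    intro r q hr
    refine MemLp.of_bound (hVm.pow_const r).aestronglyMeasurable (b' ^ r)
      (ae_of_all _ fun z => ?_)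
    rw [Real.norm_of_nonneg (Real.rpow_nonneg (hV0 z) r)]
    exact hVr r hr z
  -- the duality
  have hA : ((A : ℝ) : ℂ) = ∫ z, u z.1 z.2 * W z ∂tm := by
    have h1 : ∀ z : ℝ × (Fin 1 → ℝ), u z.1 z.2 * W z =
        ∑ l ∈ S, conj (a l) * (u z.1 z.2 * e l z) := by
      intro z
      simp only [hWdef]
      rw [Finset.mul_sum]
      refine Finset.sum_congr rfl fun l _ => ?_
      ring
    simp only [h1]
    rw [integral_finsetSum _ fun l _ => (hue l).const_mul _]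
    simp only [hAdef]
    push_cast
    refine Finset.sum_congr rfl fun l _ => ?_
    rw [integral_const_mul, ← hae l, mul_comm, Complex.mul_conj, Complex.normSq_eq_norm_sq]
    push_cast
    rfl
  set U : ℝ := ∫ t in (0 : ℝ)..1, ∫ φ in Set.Icc (0 : Fin 1 → ℝ) 1, ‖u t φ‖ ^ ((14 : ℝ) / 11) with hU
  have hUe : U = ∫ z, ‖u z.1 z.2‖ ^ ((14 : ℝ) / 11) ∂tm := by
    refine int_eq (fun t θ => ‖u t θ‖ ^ ((14 : ℝ) / 11)) ?_
    refine Integrable.of_bound (hm.norm.pow_const _).aestronglyMeasurable (b ^ ((14 : ℝ) / 11))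
      (ae_of_all _ fun z => ?_)
    rw [Real.norm_of_nonneg (by positivity)]
    exact Real.rpow_le_rpow (norm_nonneg _) (hb z.1 z.2) (by norm_num)
  have hU0 : 0 ≤ U := by
    rw [hUe]
    exact integral_nonneg fun z => by positivity
  have hle : A ≤ U ^ ((11 : ℝ) / 14) * (∫ z, V z ^ ((14 : ℝ) / 3) ∂tm) ^ ((3 : ℝ) / 14) := by
    have h1 : A ≤ ∫ z, ‖u z.1 z.2‖ * V z ∂tm := by
      calc A = ‖((A : ℝ) : ℂ)‖ := by rw [Complex.norm_real, Real.norm_of_nonneg hA0]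
        _ = ‖∫ z, u z.1 z.2 * W z ∂tm‖ := by rw [hA]
        _ ≤ ∫ z, ‖u z.1 z.2 * W z‖ ∂tm := norm_integral_le_integral_norm _
        _ = _ := by
          refine integral_congr_ae (ae_of_all _ fun z => ?_)
          simp only [norm_mul]
          by_cases hz : z ∈ QQ
          · simp only [hVdef, Set.indicator_of_mem hz]
          · have hz2 : z.2 ∉ Q := by
              intro h0
              exact hz ⟨Set.mem_univ _, h0⟩
            rw [hu0 z.1 z.2 hz2]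
            simp
    have hpq : (14 / 11 : ℝ).HolderConjugate (14 / 3) := by
      rw [Real.holderConjugate_iff]
      norm_num
    have h2 := integral_mul_le_Lp_mul_Lq_of_nonneg (μ := tm) hpq
      (f := fun z : ℝ × (Fin 1 → ℝ) => ‖u z.1 z.2‖) (g := V)
      (ae_of_all _ fun z => norm_nonneg _) (ae_of_all _ hV0) hui.norm
      (MemLp.of_bound hVm.aestronglyMeasurable b' (ae_of_all _ fun z => by
        rw [Real.norm_of_nonneg (hV0 z)]
        exact hVb z))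
    rw [← hUe] at h2
    refine (h1.trans h2).trans (le_of_eq ?_)
    norm_num
  -- interpolation between the fourth and the sixth moment
  have hint : ∫ z, V z ^ ((14 : ℝ) / 3) ∂tm ≤
      (∫ z, V z ^ (4 : ℝ) ∂tm) ^ ((2 : ℝ) / 3) * (∫ z, V z ^ (6 : ℝ) ∂tm) ^ ((1 : ℝ) / 3) := by
    have hpq : (3 / 2 : ℝ).HolderConjugate 3 := by
      rw [Real.holderConjugate_iff]
      norm_num
    have h2 := integral_mul_le_Lp_mul_Lq_of_nonneg (μ := tm) hpq
      (f := fun z => V z ^ ((8 : ℝ) / 3)) (g := fun z => V z ^ (2 : ℝ))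
      (ae_of_all _ fun z => Real.rpow_nonneg (hV0 z) _)
      (ae_of_all _ fun z => Real.rpow_nonneg (hV0 z) _) (hVmem _ _ (by norm_num))
      (hVmem _ _ (by norm_num))
    have e1 : ∀ z, V z ^ ((8 : ℝ) / 3) * V z ^ (2 : ℝ) = V z ^ ((14 : ℝ) / 3) := by
      intro z
      rw [← Real.rpow_add_of_nonneg (hV0 z) (by norm_num) (by norm_num)]
      norm_num
    have e2 : ∀ z, (V z ^ ((8 : ℝ) / 3)) ^ (3 / 2 : ℝ) = V z ^ (4 : ℝ) := by
      intro z
      rw [← Real.rpow_mul (hV0 z)]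
      norm_num
    have e3 : ∀ z, (V z ^ (2 : ℝ)) ^ (3 : ℝ) = V z ^ (6 : ℝ) := by
      intro z
      rw [← Real.rpow_mul (hV0 z)]
      norm_num
    simp only [e1, e2, e3] at h2
    refine h2.trans (le_of_eq ?_)
    norm_num
  set q : ℝ := volume.real Q with hq
  have hq0 : 0 ≤ q := measureReal_nonneg
  -- fourth moment
  have hV4 : ∫ z, V z ^ (4 : ℝ) ∂tm ≤ q * (K * A ^ 2) := by
    have hi : Integrable (fun z => V z ^ (4 : ℝ)) tm := (hVmem 4 1 (by norm_num)).integrable le_rfl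
    have h1 : ∫ z, V z ^ (4 : ℝ) ∂tm = ∫ θ in Set.Icc (0 : Fin 1 → ℝ) 1,
        ∫ t in Set.Ioc (0 : ℝ) 1, V (t, θ) ^ (4 : ℝ) := by
      unfold tm at hi ⊢
      rw [integral_prod_symm _ hi]
    rw [h1]
    have h2 : ∀ θ : Fin 1 → ℝ, ∫ t in Set.Ioc (0 : ℝ) 1, V (t, θ) ^ (4 : ℝ) ≤
        Q.indicator (fun _ => K * A ^ 2) θ := by
      intro θ
      by_cases hθ : θ ∈ Q
      · rw [Set.indicator_of_mem hθ]
        refine le_trans (le_of_eq ?_) (h4 (θ 0))
        rw [intervalIntegral.integral_of_le zero_le_one]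
        refine integral_congr_ae (ae_of_all _ fun t => ?_)
        have hz : ((t, θ) : ℝ × (Fin 1 → ℝ)) ∈ QQ := ⟨Set.mem_univ _, hθ⟩
        simp only [hVdef, Set.indicator_of_mem hz]
        rw [hWn, show (4 : ℝ) = ((4 : ℕ) : ℝ) by norm_num, Real.rpow_natCast]
      · rw [Set.indicator_of_notMem hθ]
        refine le_of_eq ?_
        have : ∀ t : ℝ, V (t, θ) ^ (4 : ℝ) = 0 := by
          intro t
          have hz : ((t, θ) : ℝ × (Fin 1 → ℝ)) ∉ QQ := fun h0 => hθ h0.2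
          simp only [hVdef, Set.indicator_of_notMem hz]
          norm_num
        simp [this]
    have h3 : ∫ θ in Set.Icc (0 : Fin 1 → ℝ) 1, Q.indicator (fun _ => K * A ^ 2) θ =
        q * (K * A ^ 2) := by
      rw [integral_indicator hQm, setIntegral_const, Measure.real, Measure.restrict_apply hQm,
        Set.inter_eq_self_of_subset_left hQ]
      rfl
    rw [← h3]
    refine integral_mono_of_nonneg (ae_of_all _ fun θ => integral_nonneg fun t =>
      Real.rpow_nonneg (hV0 _) _) ?_ (ae_of_all _ h2)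
    exact (integrable_const (K * A ^ 2)).indicator hQm
  -- sixth moment
  have hV6 : ∫ z, V z ^ (6 : ℝ) ∂tm ≤ K * A ^ 3 := by
    have h1 : ∫ z, V z ^ (6 : ℝ) ∂tm ≤ ∫ z, ‖W z‖ ^ 6 ∂tm := by
      refine integral_mono ((hVmem 6 1 (by norm_num)).integrable le_rfl) ?_ fun z => ?_
      · refine Integrable.of_bound (hWc.norm.pow 6).aestronglyMeasurable (b' ^ 6)
          (ae_of_all _ fun z => ?_)
        rw [norm_pow, norm_norm]
        exact pow_le_pow_left₀ (norm_nonneg _) (hWb z) 6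
      · simp only
        rw [show (6 : ℝ) = ((6 : ℕ) : ℝ) by norm_num, Real.rpow_natCast]
        exact pow_le_pow_left₀ (hV0 z) (hVle z) 6
    refine h1.trans ?_
    refine le_trans (le_of_eq ?_) h6
    have h2 := int_eq (fun t θ => ‖∑ l ∈ S, a l * eu (-(t * (l : ℝ) ^ 2) + l * θ 0)‖ ^ 6) (by
      refine Integrable.of_bound (Continuous.aestronglyMeasurable ?_) (b' ^ 6)
        (ae_of_all _ fun z => ?_)
      · unfold eu
        fun_prop
      · rw [← hWn z, norm_pow, norm_norm]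
        exact pow_le_pow_left₀ (norm_nonneg _) (hWb z) 6)
    have h3 : ∫ z, ‖W z‖ ^ 6 ∂tm =
        ∫ z : ℝ × (Fin 1 → ℝ), ‖∑ l ∈ S, a l * eu (-(z.1 * (l : ℝ) ^ 2) + l * z.2 0)‖ ^ 6 ∂tm := by
      refine integral_congr_ae (ae_of_all _ fun z => ?_)
      simp only
      rw [hWn z]
    rw [h3, ← h2]
    refine intervalIntegral.integral_congr fun t _ => ?_
    exact cube_one fun θ => ‖∑ l ∈ S, a l * eu (-(t * (l : ℝ) ^ 2) + l * θ)‖ ^ 6
  have hI4 : 0 ≤ ∫ z, V z ^ (4 : ℝ) ∂tm := integral_nonneg fun z => Real.rpow_nonneg (hV0 z) _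
  have hI6 : 0 ≤ ∫ z, V z ^ (6 : ℝ) ∂tm := integral_nonneg fun z => Real.rpow_nonneg (hV0 z) _
  have hI14 : 0 ≤ ∫ z, V z ^ ((14 : ℝ) / 3) ∂tm :=
    integral_nonneg fun z => Real.rpow_nonneg (hV0 z) _
  rcases hA0.eq_or_lt with h0 | h0
  · rw [← h0]
    positivity
  have hV14 : ∫ z, V z ^ ((14 : ℝ) / 3) ∂tm ≤ q ^ ((2 : ℝ) / 3) * K * A ^ ((7 : ℝ) / 3) := by
    refine hint.trans ?_
    calc (∫ z, V z ^ (4 : ℝ) ∂tm) ^ ((2 : ℝ) / 3) * (∫ z, V z ^ (6 : ℝ) ∂tm) ^ ((1 : ℝ) / 3)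
        ≤ (q * (K * A ^ 2)) ^ ((2 : ℝ) / 3) * (K * A ^ 3) ^ ((1 : ℝ) / 3) := by
          exact mul_le_mul (Real.rpow_le_rpow hI4 hV4 (by norm_num))
            (Real.rpow_le_rpow hI6 hV6 (by norm_num)) (by positivity) (by positivity)
      _ = q ^ ((2 : ℝ) / 3) * K * A ^ ((7 : ℝ) / 3) := by
          rw [Real.mul_rpow hq0 (by positivity), Real.mul_rpow hK0 (by positivity),
            Real.mul_rpow hK0 (by positivity), ← Real.rpow_natCast, ← Real.rpow_natCast,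
            ← Real.rpow_mul hA0, ← Real.rpow_mul hA0]
          have e1 : K ^ ((2 : ℝ) / 3) * K ^ ((1 : ℝ) / 3) = K := by
            rw [← Real.rpow_add_of_nonneg hK0 (by norm_num) (by norm_num)]
            norm_num
          have e2 : A ^ (((2 : ℕ) : ℝ) * (2 / 3)) * A ^ (((3 : ℕ) : ℝ) * (1 / 3)) =
              A ^ ((7 : ℝ) / 3) := by
            rw [← Real.rpow_add h0]
            norm_num
          calc q ^ ((2 : ℝ) / 3) * (K ^ ((2 : ℝ) / 3) * A ^ (((2 : ℕ) : ℝ) * (2 / 3))) *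
                (K ^ ((1 : ℝ) / 3) * A ^ (((3 : ℕ) : ℝ) * (1 / 3)))
              = q ^ ((2 : ℝ) / 3) * (K ^ ((2 : ℝ) / 3) * K ^ ((1 : ℝ) / 3)) *
                (A ^ (((2 : ℕ) : ℝ) * (2 / 3)) * A ^ (((3 : ℕ) : ℝ) * (1 / 3))) := by ring
            _ = _ := by rw [e1, e2]
  have hle2 : A ≤ U ^ ((11 : ℝ) / 14) * (q ^ ((1 : ℝ) / 7) * K ^ ((3 : ℝ) / 14) *
      A ^ ((1 : ℝ) / 2)) := by
    refine hle.trans (mul_le_mul_of_nonneg_left ?_ (Real.rpow_nonneg hU0 _))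
    refine (Real.rpow_le_rpow hI14 hV14 (by norm_num)).trans (le_of_eq ?_)
    rw [Real.mul_rpow (by positivity) (by positivity), Real.mul_rpow (by positivity) hK0,
      ← Real.rpow_mul hq0, ← Real.rpow_mul hA0]
    norm_num
  have hle3 : A ^ ((1 : ℝ) / 2) ≤ U ^ ((11 : ℝ) / 14) * (q ^ ((1 : ℝ) / 7) * K ^ ((3 : ℝ) / 14)) := by
    have hAh : 0 < A ^ ((1 : ℝ) / 2) := Real.rpow_pos_of_pos h0 _
    have e1 : A ^ ((1 : ℝ) / 2) * A ^ ((1 : ℝ) / 2) = A := by
      rw [← Real.rpow_add h0]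
      norm_num
    have : A ^ ((1 : ℝ) / 2) * A ^ ((1 : ℝ) / 2) ≤
        (U ^ ((11 : ℝ) / 14) * (q ^ ((1 : ℝ) / 7) * K ^ ((3 : ℝ) / 14))) * A ^ ((1 : ℝ) / 2) := by
      rw [e1]
      refine hle2.trans (le_of_eq (by ring))
    exact le_of_mul_le_mul_right this hAh
  have hfin : A ≤ U ^ ((11 : ℝ) / 7) * (q ^ ((2 : ℝ) / 7) * K ^ ((3 : ℝ) / 7)) := by
    have h7 := Real.rpow_le_rpow (z := 2) (by positivity) hle3 (by norm_num)
    rw [← Real.rpow_mul hA0, Real.mul_rpow (by positivity) (by positivity),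
      Real.mul_rpow (by positivity) (by positivity), ← Real.rpow_mul hU0, ← Real.rpow_mul hq0,
      ← Real.rpow_mul hK0] at h7
    norm_num at h7
    exact h7
  have hK7 : K ^ ((3 : ℝ) / 7) ≤ (C + 1) * (X : ℝ) ^ ε := by
    rw [hK, Real.mul_rpow hC (by positivity)]
    have e1 : C ^ ((3 : ℝ) / 7) ≤ C + 1 := by
      calc C ^ ((3 : ℝ) / 7) ≤ (C + 1) ^ ((3 : ℝ) / 7) :=
            Real.rpow_le_rpow hC (by linarith) (by norm_num)
        _ ≤ (C + 1) ^ (1 : ℝ) := Real.rpow_le_rpow_of_exponent_le (by linarith) (by norm_num)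
        _ = C + 1 := Real.rpow_one _
    have e2 : ((X : ℝ) ^ ε) ^ ((3 : ℝ) / 7) ≤ (X : ℝ) ^ ε := by
      calc ((X : ℝ) ^ ε) ^ ((3 : ℝ) / 7) ≤ ((X : ℝ) ^ ε) ^ (1 : ℝ) :=
            Real.rpow_le_rpow_of_exponent_le (Real.one_le_rpow hX1 hε.le) (by norm_num)
        _ = (X : ℝ) ^ ε := Real.rpow_one _
    exact mul_le_mul e1 e2 (by positivity) (by linarith)
  calc A ≤ U ^ ((11 : ℝ) / 7) * (q ^ ((2 : ℝ) / 7) * K ^ ((3 : ℝ) / 7)) := hfin
    _ ≤ U ^ ((11 : ℝ) / 7) * (q ^ ((2 : ℝ) / 7) * ((C + 1) * (X : ℝ) ^ ε)) := by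
        refine mul_le_mul_of_nonneg_left ?_ (Real.rpow_nonneg hU0 _)
        exact mul_le_mul_of_nonneg_left hK7 (Real.rpow_nonneg hq0 _)
    _ = (C + 1) * (X : ℝ) ^ ε * q ^ ((2 : ℝ) / 7) * U ^ ((11 : ℝ) / 7) := by ring

end

end SPH
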