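import Pool.Agent.SPH.StB
import Pool.Agent.STZ3.RQN

/-!
# The sphere S²: module T46 (helper55)
-/

namespace SPH

open STZ LGR STZ3 MeasureTheory Matrix Filter

open scoped ComplexConjugate Matrix Real Topology

noncomputable section

namespace T46

theorem eu_zero : eu 0 = 1 := by
  unfold eu
  simp

theorem eu_add (a b : ℝ) : eu (a + b) = eu a * eu b := by
  unfold eu
  rw [← Complex.exp_add]
  congr 1
  push_cast
  ring

theorem norm_eu (a : ℝ) : ‖eu a‖ = 1 := by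
  have h : eu a = Complex.exp ((2 * π * a : ℝ) * Complex.I) := by
    unfold eu
    congr 1
    push_cast
    ring
  rw [h, Complex.norm_exp_ofReal_mul_I]

theorem conj_eu (a : ℝ) : conj (eu a) = eu (-a) := by
  unfold eu
  rw [← Complex.exp_conj]
  congr 1
  simp only [map_mul, Complex.conj_ofReal, Complex.conj_I, map_ofNat]
  push_cast
  ring

/-- the integral over the time -/
theorem int_eu (n : ℤ) : ∫ t in (0 : ℝ)..1, eu (-(t * (n : ℝ))) = if n = 0 then 1 else 0 := by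
  split_ifs with h
  · subst h
    simp [eu_zero]
  · have hc : (-(2 * π * n * Complex.I) : ℂ) ≠ 0 := by
      refine neg_ne_zero.2 (mul_ne_zero (mul_ne_zero (mul_ne_zero two_ne_zero ?_) ?_)
        Complex.I_ne_zero)
      · exact_mod_cast Real.pi_ne_zero
      · exact_mod_cast h
    have h1 : ∀ t : ℝ, eu (-(t * (n : ℝ))) = Complex.exp (-(2 * π * n * Complex.I) * t) := by
      intro t
      unfold eu
      congr 1
      push_cast
      ring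
    simp only [h1]
    rw [integral_exp_mul_complex hc]
    have h2 : Complex.exp (-(2 * π * n * Complex.I) * ((1 : ℝ) : ℂ)) = 1 := by
      rw [Complex.exp_eq_one_iff]
      exact ⟨-n, by push_cast; ring⟩
    rw [h2]
    simp

section Abs

variable {Γ Z α : Type*} [AddCommGroup Γ] [DecidableEq Γ] [MeasurableSpace Z]

/-- Parseval's formula for trigonometric polynomials -/
theorem parseval (μ : Measure Z) (ch : Γ → Z → ℂ) (hi : ∀ τ, Integrable (ch τ) μ)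
    (hm : ∀ τ σ z, ch τ z * ch σ z = ch (τ + σ) z) (hc : ∀ τ z, conj (ch τ z) = ch (-τ) z)
    (ho : ∀ τ, ∫ z, ch τ z ∂μ = if τ = 0 then 1 else 0) (T : Finset Γ) (b : Γ → ℂ) :
    ∫ z, ‖∑ τ ∈ T, b τ * ch τ z‖ ^ 2 ∂μ = ∑ τ ∈ T, ‖b τ‖ ^ 2 := by
  have h1 : ((∫ z, ‖∑ τ ∈ T, b τ * ch τ z‖ ^ 2 ∂μ : ℝ) : ℂ) =
      ((∑ τ ∈ T, ‖b τ‖ ^ 2 : ℝ) : ℂ) := by
    rw [← integral_complex_ofReal]
    have h2 : ∀ z, ((‖∑ τ ∈ T, b τ * ch τ z‖ ^ 2 : ℝ) : ℂ) =
        ∑ τ ∈ T, ∑ σ ∈ T, (b τ * conj (b σ)) * ch (τ + -σ) z := by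
      intro z
      have : ((‖∑ τ ∈ T, b τ * ch τ z‖ ^ 2 : ℝ) : ℂ) =
          (∑ τ ∈ T, b τ * ch τ z) * conj (∑ τ ∈ T, b τ * ch τ z) := by
        rw [Complex.mul_conj, Complex.normSq_eq_norm_sq]
      rw [this, map_sum, Finset.sum_mul_sum]
      refine Finset.sum_congr rfl fun τ _ => Finset.sum_congr rfl fun σ _ => ?_
      rw [map_mul, hc, ← hm]
      ring
    simp only [h2]
    rw [integral_finsetSum _ fun τ _ => integrable_finsetSum _ fun σ _ =>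
      (hi _).const_mul _]
    push_cast
    refine Finset.sum_congr rfl fun τ hτ => ?_
    rw [integral_finsetSum _ fun σ _ => (hi _).const_mul _]
    rw [Finset.sum_eq_single τ]
    · rw [integral_const_mul, ho, if_pos (add_neg_cancel τ), mul_one, Complex.mul_conj,
        Complex.normSq_eq_norm_sq]
      push_cast
      rfl
    · intro σ _ hσ
      rw [integral_const_mul, ho, if_neg, mul_zero]
      exact fun h => hσ (add_neg_eq_zero.1 h).symm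
    · exact fun h => absurd hτ h
  exact_mod_cast h1

/-- the second moment of a sum of characters with few coincidences -/
theorem mom (μ : Measure Z) (ch : Γ → Z → ℂ) (hi : ∀ τ, Integrable (ch τ) μ)
    (hm : ∀ τ σ z, ch τ z * ch σ z = ch (τ + σ) z) (hc : ∀ τ z, conj (ch τ z) = ch (-τ) z)
    (ho : ∀ τ, ∫ z, ch τ z ∂μ = if τ = 0 then 1 else 0)
    (P : Finset α) (f : α → Γ) (w : α → ℂ) (D : ℝ)
    (hD : ∀ τ, ((P.filter fun p => f p = τ).card : ℝ) ≤ D) :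
    ∫ z, ‖∑ p ∈ P, w p * ch (f p) z‖ ^ 2 ∂μ ≤ D * ∑ p ∈ P, ‖w p‖ ^ 2 := by
  set T := P.image f with hTd
  set b : Γ → ℂ := fun τ => ∑ p ∈ P with f p = τ, w p with hb
  have hsq : ∀ z, ∑ p ∈ P, w p * ch (f p) z = ∑ τ ∈ T, b τ * ch τ z := by
    intro z
    rw [← Finset.sum_fiberwise_of_maps_to (s := P) (t := T) (g := f)
      (fun p hp => Finset.mem_image_of_mem f hp)]
    refine Finset.sum_congr rfl fun τ _ => ?_
    rw [hb, Finset.sum_mul]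
    refine Finset.sum_congr rfl fun p hp => ?_
    rw [(Finset.mem_filter.1 hp).2]
  simp only [hsq]
  rw [parseval μ ch hi hm hc ho]
  have hbb : ∀ τ, ‖b τ‖ ^ 2 ≤ D * ∑ p ∈ P with f p = τ, ‖w p‖ ^ 2 := by
    intro τ
    have h1 : ‖b τ‖ ≤ ∑ p ∈ P with f p = τ, ‖w p‖ := norm_sum_le _ _
    have h2 := sq_sum_le_card_mul_sum_sq (s := P.filter fun p => f p = τ)
      (f := fun p => ‖w p‖)
    calc ‖b τ‖ ^ 2 ≤ (∑ p ∈ P with f p = τ, ‖w p‖) ^ 2 :=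
          pow_le_pow_left₀ (norm_nonneg _) h1 2
      _ ≤ _ := h2
      _ ≤ D * ∑ p ∈ P with f p = τ, ‖w p‖ ^ 2 :=
          mul_le_mul_of_nonneg_right (hD τ) (Finset.sum_nonneg fun p _ => by positivity)
  calc ∑ τ ∈ T, ‖b τ‖ ^ 2 ≤ ∑ τ ∈ T, D * ∑ p ∈ P with f p = τ, ‖w p‖ ^ 2 :=
        Finset.sum_le_sum fun τ _ => hbb τ
    _ = D * ∑ p ∈ P, ‖w p‖ ^ 2 := by
        rw [← Finset.mul_sum, Finset.sum_fiberwise_of_maps_to
          (fun p hp => Finset.mem_image_of_mem f hp)]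

end Abs

/-- the measure on the unit interval -/
def m1 : Measure ℝ := volume.restrict (Set.Ioc 0 1)

instance : IsFiniteMeasure m1 := by
  unfold m1
  infer_instance

theorem int_m1 {E : Type*} [NormedAddCommGroup E] [NormedSpace ℝ E] (F : ℝ → E) :
    ∫ t in (0 : ℝ)..1, F t = ∫ t, F t ∂m1 := by
  rw [intervalIntegral.integral_of_le zero_le_one, m1]

/-- the characters in the time -/
def ch1 (N : ℤ) (t : ℝ) : ℂ := eu (-(t * (N : ℝ)))

theorem ch1_cont (N : ℤ) : Continuous (ch1 N) := by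
  unfold ch1 eu
  fun_prop

theorem ch1_int (N : ℤ) : Integrable (ch1 N) m1 := by
  refine Integrable.of_bound (ch1_cont N).aestronglyMeasurable 1 (ae_of_all _ fun z => ?_)
  unfold ch1
  rw [norm_eu]

theorem ch1_mul (N N' : ℤ) (t : ℝ) : ch1 N t * ch1 N' t = ch1 (N + N') t := by
  unfold ch1
  rw [← eu_add]
  congr 1
  push_cast
  ring

theorem ch1_conj (N : ℤ) (t : ℝ) : conj (ch1 N t) = ch1 (-N) t := by
  unfold ch1
  rw [conj_eu]
  congr 1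
  push_cast
  ring

theorem ch1_orth (N : ℤ) : ∫ t, ch1 N t ∂m1 = if N = 0 then 1 else 0 := by
  rw [← int_m1]
  exact int_eu N

/-- the characters of the torus -/
def ch2 (τ : ℤ × ℤ) (z : ℝ × ℝ) : ℂ := eu (-(z.1 * (τ.2 : ℝ)) + τ.1 * z.2)

theorem ch2_cont (τ : ℤ × ℤ) : Continuous (ch2 τ) := by
  unfold ch2 eu
  fun_prop

theorem ch2_int (τ : ℤ × ℤ) : Integrable (ch2 τ) (m1.prod m1) := by
  refine Integrable.of_bound (ch2_cont τ).aestronglyMeasurable 1 (ae_of_all _ fun z => ?_)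
  unfold ch2
  rw [norm_eu]

theorem ch2_mul (τ σ : ℤ × ℤ) (z : ℝ × ℝ) : ch2 τ z * ch2 σ z = ch2 (τ + σ) z := by
  unfold ch2
  rw [← eu_add, Prod.fst_add, Prod.snd_add]
  congr 1
  push_cast
  ring

theorem ch2_conj (τ : ℤ × ℤ) (z : ℝ × ℝ) : conj (ch2 τ z) = ch2 (-τ) z := by
  unfold ch2
  rw [conj_eu, Prod.fst_neg, Prod.snd_neg]
  congr 1
  push_cast
  ring

theorem ch2_orth (τ : ℤ × ℤ) : ∫ z, ch2 τ z ∂(m1.prod m1) = if τ = 0 then 1 else 0 := by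
  rw [integral_prod _ (ch2_int τ)]
  have h2 : ∀ t : ℝ, ∫ θ, ch2 τ (t, θ) ∂m1 = ch1 τ.2 t * (if τ.1 = 0 then 1 else 0) := by
    intro t
    have h3 := ch1_orth (-τ.1)
    have h4 : (if τ.1 = 0 then (1 : ℂ) else 0) = if -τ.1 = 0 then 1 else 0 := by
      simp only [neg_eq_zero]
    rw [h4, ← h3, ← integral_const_mul]
    refine integral_congr_ae (ae_of_all _ fun θ => ?_)
    simp only [ch2, ch1]
    rw [← eu_add]
    congr 1
    push_cast
    ring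
  simp only [h2]
  rw [integral_mul_const, ch1_orth]
  by_cases ha : τ.2 = 0
  · by_cases hb : τ.1 = 0
    · rw [if_pos ha, if_pos hb, if_pos (Prod.ext hb ha), one_mul]
    · have hn : ¬ τ = 0 := fun h => hb (by rw [h]; rfl)
      rw [if_pos ha, if_neg hb, if_neg hn, mul_zero]
  · have hn : ¬ τ = 0 := fun h => ha (by rw [h]; rfl)
    rw [if_neg ha, if_neg hn, zero_mul]

/-- pairs with a given sum of squares -/
theorem pairs (ε : ℝ) (hε : 0 < ε) : ∃ C : ℝ, 0 ≤ C ∧ ∀ (X : ℕ) (S : Finset ℤ), 1 ≤ X →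
    (∀ l ∈ S, |l| ≤ X) → ∀ N : ℤ,
    (((S ×ˢ S).filter fun p => p.1 ^ 2 + p.2 ^ 2 = N).card : ℝ) ≤ C * (X : ℝ) ^ ε := by
  obtain ⟨C, hC, h⟩ := RQN.form_bound 1 0 1 (by intro x y; linarith) ε hε
  refine ⟨C, hC, fun X S hX hS N => ?_⟩
  apply h X N _ hX
  intro l hl
  obtain ⟨h1, h2⟩ := Finset.mem_filter.1 hl
  obtain ⟨h3, h4⟩ := Finset.mem_product.1 h1
  refine ⟨?_, hS _ h3, hS _ h4⟩
  rw [← h2]
  ring

/-- triples with a given sum and a given sum of squares -/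
theorem triples (ε : ℝ) (hε : 0 < ε) : ∃ C : ℝ, 0 ≤ C ∧ ∀ (X : ℕ) (S : Finset ℤ), 1 ≤ X →
    (∀ l ∈ S, |l| ≤ X) → ∀ τ : ℤ × ℤ,
    (((S ×ˢ S ×ˢ S).filter fun p => (p.1 + p.2.1 + p.2.2, p.1 ^ 2 + p.2.1 ^ 2 + p.2.2 ^ 2) =
      τ).card : ℝ) ≤ C * (X : ℝ) ^ ε := by
  classical
  obtain ⟨C, hC, h⟩ := RQN.form_bound 2 2 2 (by intro x y; nlinarith [sq_nonneg (x + y)]) ε hε
  refine ⟨C * 6 ^ ε, by positivity, fun X S hX hS τ => ?_⟩
  have h1 := h (6 * X) (9 * τ.2 - 3 * τ.1 ^ 2)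
    (((S ×ˢ S ×ˢ S).filter fun p => (p.1 + p.2.1 + p.2.2, p.1 ^ 2 + p.2.1 ^ 2 + p.2.2 ^ 2) =
      τ).image fun p => (3 * p.1 - τ.1, 3 * p.2.1 - τ.1)) (by omega) (by
    intro l hl
    obtain ⟨p, hp, rfl⟩ := Finset.mem_image.1 hl
    obtain ⟨hp1, hp2⟩ := Finset.mem_filter.1 hp
    obtain ⟨h3, h4⟩ := Finset.mem_product.1 hp1
    obtain ⟨h5, h6⟩ := Finset.mem_product.1 h4
    have h7 := abs_le.1 (hS _ h3)
    have h8 := abs_le.1 (hS _ h5)
    have h9 := abs_le.1 (hS _ h6)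
    rw [← hp2]
    refine ⟨?_, ?_, ?_⟩
    · simp only
      ring
    · simp only
      push_cast
      rw [abs_le]
      constructor <;> linarith [h7.1, h7.2, h8.1, h8.2, h9.1, h9.2]
    · simp only
      push_cast
      rw [abs_le]
      constructor <;> linarith [h7.1, h7.2, h8.1, h8.2, h9.1, h9.2])
  rw [Finset.card_image_of_injOn] at h1
  · refine h1.trans (le_of_eq ?_)
    push_cast
    rw [Real.mul_rpow (by norm_num) (by positivity), mul_assoc]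
  · intro p hp q hq hpq
    have h3 := (Finset.mem_filter.1 (Finset.mem_coe.1 hp)).2
    have h4 := (Finset.mem_filter.1 (Finset.mem_coe.1 hq)).2
    have h5 := congrArg Prod.fst (h3.trans h4.symm)
    have h6 := congrArg Prod.fst hpq
    have h7 := congrArg Prod.snd hpq
    simp only at h5 h6 h7
    refine Prod.ext (by omega) (Prod.ext (by omega) (by omega))

end T46

open T46 in
theorem t_T46 : S_T46 := by
  classical
  intro ε hε
  obtain ⟨C₁, hC₁, hp⟩ := pairs ε hε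
  obtain ⟨C₂, hC₂, ht⟩ := triples ε hε
  refine ⟨C₁ + C₂, by positivity, fun X c S hX hS => ?_⟩
  have hXε : (0 : ℝ) ≤ (X : ℝ) ^ ε := by positivity
  constructor
  · intro θ
    have h1 := mom m1 ch1 ch1_int ch1_mul ch1_conj ch1_orth (S ×ˢ S)
      (fun p => p.1 ^ 2 + p.2 ^ 2)
      (fun p => c p.1 * c p.2 * eu ((p.1 + p.2 : ℤ) * θ)) _ (hp X S hX hS)
    rw [int_m1]
    have h2 : ∀ t : ℝ, ‖∑ l ∈ S, c l * eu (-(t * (l : ℝ) ^ 2) + l * θ)‖ ^ 4 =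
        ‖∑ p ∈ S ×ˢ S, c p.1 * c p.2 * eu ((p.1 + p.2 : ℤ) * θ) *
          ch1 (p.1 ^ 2 + p.2 ^ 2) t‖ ^ 2 := by
      intro t
      have h3 : ∑ p ∈ S ×ˢ S, c p.1 * c p.2 * eu ((p.1 + p.2 : ℤ) * θ) *
          ch1 (p.1 ^ 2 + p.2 ^ 2) t = (∑ l ∈ S, c l * eu (-(t * (l : ℝ) ^ 2) + l * θ)) ^ 2 := by
        rw [sq, Finset.sum_mul_sum, ← Finset.sum_product']
        refine Finset.sum_congr rfl fun p _ => ?_
        have h4 : eu ((p.1 + p.2 : ℤ) * θ) * ch1 (p.1 ^ 2 + p.2 ^ 2) t =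
            eu (-(t * (p.1 : ℝ) ^ 2) + p.1 * θ) * eu (-(t * (p.2 : ℝ) ^ 2) + p.2 * θ) := by
          rw [ch1, ← eu_add, ← eu_add]
          congr 1
          push_cast
          ring
        rw [mul_assoc, h4]
        ring
      rw [h3, norm_pow, ← pow_mul]
    simp only [h2]
    refine h1.trans ?_
    have h5 : ∑ p ∈ S ×ˢ S, ‖c p.1 * c p.2 * eu ((p.1 + p.2 : ℤ) * θ)‖ ^ 2 =
        (∑ l ∈ S, ‖c l‖ ^ 2) ^ 2 := by
      rw [sq (∑ l ∈ S, ‖c l‖ ^ 2), Finset.sum_mul_sum, ← Finset.sum_product']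
      refine Finset.sum_congr rfl fun p _ => ?_
      rw [norm_mul, norm_mul, norm_eu]
      ring
    rw [h5]
    have h6 : (0 : ℝ) ≤ (∑ l ∈ S, ‖c l‖ ^ 2) ^ 2 := by positivity
    have h7 : C₁ * (X : ℝ) ^ ε ≤ (C₁ + C₂) * (X : ℝ) ^ ε :=
      mul_le_mul_of_nonneg_right (by linarith) hXε
    exact mul_le_mul_of_nonneg_right h7 h6
  · have h1 := mom (m1.prod m1) ch2 ch2_int ch2_mul ch2_conj ch2_orth (S ×ˢ S ×ˢ S)
      (fun p => (p.1 + p.2.1 + p.2.2, p.1 ^ 2 + p.2.1 ^ 2 + p.2.2 ^ 2))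
      (fun p => c p.1 * c p.2.1 * c p.2.2) _ (ht X S hX hS)
    have h2 : ∀ z : ℝ × ℝ, ‖∑ l ∈ S, c l * eu (-(z.1 * (l : ℝ) ^ 2) + l * z.2)‖ ^ 6 =
        ‖∑ p ∈ S ×ˢ S ×ˢ S, c p.1 * c p.2.1 * c p.2.2 *
          ch2 (p.1 + p.2.1 + p.2.2, p.1 ^ 2 + p.2.1 ^ 2 + p.2.2 ^ 2) z‖ ^ 2 := by
      intro z
      have h3 : ∑ p ∈ S ×ˢ S ×ˢ S, c p.1 * c p.2.1 * c p.2.2 *
          ch2 (p.1 + p.2.1 + p.2.2, p.1 ^ 2 + p.2.1 ^ 2 + p.2.2 ^ 2) z =
          (∑ l ∈ S, c l * eu (-(z.1 * (l : ℝ) ^ 2) + l * z.2)) ^ 3 := by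
        have h4 : (∑ l ∈ S, c l * eu (-(z.1 * (l : ℝ) ^ 2) + l * z.2)) ^ 3 =
            (∑ l ∈ S, c l * eu (-(z.1 * (l : ℝ) ^ 2) + l * z.2)) *
            ((∑ l ∈ S, c l * eu (-(z.1 * (l : ℝ) ^ 2) + l * z.2)) *
            (∑ l ∈ S, c l * eu (-(z.1 * (l : ℝ) ^ 2) + l * z.2))) := by ring
        rw [h4, Finset.sum_mul_sum S S, ← Finset.sum_product', Finset.sum_mul_sum,
          ← Finset.sum_product']
        refine Finset.sum_congr rfl fun p _ => ?_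
        have h5 : ch2 (p.1 + p.2.1 + p.2.2, p.1 ^ 2 + p.2.1 ^ 2 + p.2.2 ^ 2) z =
            eu (-(z.1 * (p.1 : ℝ) ^ 2) + p.1 * z.2) *
              (eu (-(z.1 * (p.2.1 : ℝ) ^ 2) + p.2.1 * z.2) *
                eu (-(z.1 * (p.2.2 : ℝ) ^ 2) + p.2.2 * z.2)) := by
          rw [ch2, ← eu_add, ← eu_add]
          congr 1
          push_cast
          ring
        rw [h5]
        ring
      rw [h3, norm_pow, ← pow_mul]
    have h8 : ∫ t in (0 : ℝ)..1, ∫ θ in (0 : ℝ)..1,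
        ‖∑ l ∈ S, c l * eu (-(t * (l : ℝ) ^ 2) + l * θ)‖ ^ 6 =
        ∫ z : ℝ × ℝ, ‖∑ l ∈ S, c l * eu (-(z.1 * (l : ℝ) ^ 2) + l * z.2)‖ ^ 6 ∂(m1.prod m1) := by
      rw [integral_prod]
      · rw [int_m1]
        refine integral_congr_ae (ae_of_all _ fun t => ?_)
        exact int_m1 _
      · refine Integrable.of_bound (Continuous.aestronglyMeasurable ?_) ((∑ l ∈ S, ‖c l‖) ^ 6)
          (ae_of_all _ fun z => ?_)
        · unfold eu
          fun_prop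
        · rw [norm_pow, norm_norm]
          refine pow_le_pow_left₀ (norm_nonneg _) ?_ 6
          refine (norm_sum_le _ _).trans (Finset.sum_le_sum fun l _ => ?_)
          rw [norm_mul, norm_eu, mul_one]
    rw [h8]
    simp only [h2]
    refine h1.trans ?_
    have h5 : ∑ p ∈ S ×ˢ S ×ˢ S, ‖c p.1 * c p.2.1 * c p.2.2‖ ^ 2 =
        (∑ l ∈ S, ‖c l‖ ^ 2) ^ 3 := by
      have h4 : (∑ l ∈ S, ‖c l‖ ^ 2) ^ 3 =
          (∑ l ∈ S, ‖c l‖ ^ 2) * ((∑ l ∈ S, ‖c l‖ ^ 2) * (∑ l ∈ S, ‖c l‖ ^ 2)) := by ring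
      rw [h4, Finset.sum_mul_sum S S, ← Finset.sum_product', Finset.sum_mul_sum,
        ← Finset.sum_product']
      refine Finset.sum_congr rfl fun p _ => ?_
      rw [norm_mul, norm_mul]
      ring
    rw [h5]
    have h6 : (0 : ℝ) ≤ (∑ l ∈ S, ‖c l‖ ^ 2) ^ 3 := by positivity
    have h7 : C₂ * (X : ℝ) ^ ε ≤ (C₁ + C₂) * (X : ℝ) ^ ε :=
      mul_le_mul_of_nonneg_right (by linarith) hXε
    exact mul_le_mul_of_nonneg_right h7 h6

end

end SPH
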