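import Mathlib
import Pool.Agent.SPH.StA
import Pool.Agent.SPH.StE
import Pool.Agent.STZ3.TOJ

/-!
# The bilinear form at the top levels, with a small loss

Module TOS of the project SPH.
-/

set_option autoImplicit false
set_option linter.unusedVariables false

namespace SPH

open STZ LGR STZ3 MeasureTheory Matrix Filter

open scoped ComplexConjugate Matrix Real Topology

noncomputable section

namespace TOS

open STZ3.TOJ

theorem cont_A1 (hW : WWF) (C₀ : ℝ) (c J y : ℕ) : Continuous (A1 C₀ c J y) := by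
  unfold A1
  exact continuous_const.mul ((continuous_const.mul (hW.cont _ _).sqrt).mul continuous_const)

theorem cont_E1 (hW : WWF) (C₀ : ℝ) (c y : ℕ) : Continuous (E1 C₀ c y) := by
  unfold E1
  exact continuous_const.mul ((hW.cont _ _).sqrt.div_const _)

/-- geometric series over the pieces -/
theorem geo_y1 (J : ℕ) (b : ℝ) (hb : 0 < b) :
    ∑ y : Fin (J + 1), (2 : ℝ) ^ (-(b * ((J : ℝ) - (y.val : ℝ)))) ≤ (1 - (2 : ℝ) ^ (-b))⁻¹ := by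
  rw [Fin.sum_univ_eq_sum_range (fun v => (2 : ℝ) ^ (-(b * ((J : ℝ) - (v : ℝ))))) (J + 1)]
  have e3 := Finset.sum_range_reflect (fun v : ℕ => (2 : ℝ) ^ (-(b * (v : ℝ)))) (J + 1)
  simp only [Nat.add_sub_cancel] at e3
  have e4 : ∀ v ∈ Finset.range (J + 1), (2 : ℝ) ^ (-(b * ((J : ℝ) - (v : ℝ)))) =
      (2 : ℝ) ^ (-(b * ((J - v : ℕ) : ℝ))) := by
    intro v hv
    rw [Finset.mem_range] at hv
    rw [Nat.cast_sub (by omega)]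
  rw [Finset.sum_congr rfl e4, e3]
  exact geo_j b hb _

/-- the bound of one piece -/
theorem piece (hW : WWF) (C₀ a C₁ C₂ σ η p ε' : ℝ) (c J : ℕ)
    (y : ℕ) (hy : y ≤ J) {e : ℝ → ℝ} (he : Continuous e) (he0 : ∀ t, 0 ≤ e t) (Λ : ℝ)
    (hp : 2 < p) (hC₁ : 0 ≤ C₁) (hC₂ : 0 ≤ C₂) (hε' : 0 ≤ ε')
    (hx : ∀ j : ℕ, -((p / 2 - 1) / 2) * ((J : ℝ) - y) + (1 - σ * ((p / 2 - 1) / 2)) * j -
      σ / 2 * max 0 (j - 2 * ((J : ℝ) - y)) ≤ -η * (((J : ℝ) - y) + j))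
    (S₁ S₂ : Finset ℕ)
    (hcel : ∀ ρ ∈ S₁, ∀ j ∈ S₂, ∫ t in (0 : ℝ)..1, ∫ s in (0 : ℝ)..1,
      DD (2 ^ ρ) (2 ^ j / (2 ^ J) ^ 2) (1 - 1 / p) e t s ≤
        C₁ * ((2 : ℝ) ^ ρ) ^ ((1 : ℝ) / 2) * (2 ^ j / (2 ^ J) ^ 2) ^ (2 / p) *
          (∫ t in (0 : ℝ)..1, e t) ^ (2 - 2 / p))
    (hptw : ∀ τ v : ℝ, 0 ≤ v →
      min (A1 C₀ c J y τ * v) (E1 C₀ c y τ * √v) ≤
        a * (((2 : ℝ) ^ J) ^ 2 / Λ ^ 2) * (2 : ℝ) ^ (-(((J : ℝ) - y) / 4)) * v ∨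
      ∃ ρ ∈ S₁, ∃ j ∈ S₂, nr (2 ^ ρ) (2 ^ j / (2 ^ J) ^ 2) τ ∧
        min (A1 C₀ c J y τ * v) (E1 C₀ c y τ * √v) ≤
        C₂ * ((2 : ℝ) ^ J) ^ (2 * (1 - 2 / p)) * (2 : ℝ) ^ (-((ρ : ℝ) / 2)) *
          (2 : ℝ) ^ (2 / p * (-((p / 2 - 1) / 2) * ((J : ℝ) - y) - σ * ((p / 2 - 1) / 2) * j -
            σ / 2 * max 0 (j - 2 * ((J : ℝ) - y)))) * v ^ (1 - 1 / p))
    (ha : 0 ≤ a) :
    ∫ t in (0 : ℝ)..1, ∫ s in (0 : ℝ)..1,
      min (A1 C₀ c J y (t - s) * (e t * e s)) (E1 C₀ c y (t - s) * √(e t * e s)) ≤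
    a * (((2 : ℝ) ^ J) ^ 2 / Λ ^ 2) * (2 : ℝ) ^ (-(((J : ℝ) - y) / 4)) *
      (∫ t in (0 : ℝ)..1, e t) ^ 2 +
    C₁ * C₂ * ((2 : ℝ) ^ J) ^ (2 * (1 - 2 / p) - 4 / p) *
      (∫ t in (0 : ℝ)..1, e t) ^ (2 - 2 / p) * (2 : ℝ) ^ (-(2 / p * η * ((J : ℝ) - y))) *
      ((∑ ρ ∈ S₁, (2 : ℝ) ^ (ε' * (ρ : ℝ))) * ∑ j ∈ S₂, (2 : ℝ) ^ (-(2 / p * η * (j : ℝ)))) := by
  have hp0 : 0 < p := by linarith
  set m : ℝ := ∫ t in (0 : ℝ)..1, e t with hm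
  have hm0 : 0 ≤ m := intervalIntegral.integral_nonneg zero_le_one fun t _ => he0 t
  set X : ℝ := (2 : ℝ) ^ J with hXd
  have hX0 : 0 < X := by positivity
  set a' : ℝ := a * (X ^ 2 / Λ ^ 2) * (2 : ℝ) ^ (-(((J : ℝ) - y) / 4)) with ha'
  have ha'0 : 0 ≤ a' := by
    rw [ha']
    have : 0 ≤ Λ ^ 2 := by positivity
    positivity
  let Wt : ℕ → ℕ → ℝ := fun ρ j => C₂ * X ^ (2 * (1 - 2 / p)) *
    (2 : ℝ) ^ (-((ρ : ℝ) / 2)) * (2 : ℝ) ^ (2 / p * (-((p / 2 - 1) / 2) * ((J : ℝ) - y) -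
      σ * ((p / 2 - 1) / 2) * j - σ / 2 * max 0 (j - 2 * ((J : ℝ) - y))))
  have hWt : ∀ ρ j, 0 ≤ Wt ρ j := fun ρ j => by positivity
  have hb : 0 ≤ 1 - 1 / p := by
    have : 1 / p ≤ 1 := by
      rw [div_le_one hp0]
      linarith
    linarith
  have hDi : ∀ ρ j, Integrable (fun z : ℝ × ℝ =>
      DD (2 ^ ρ) (2 ^ j / X ^ 2) (1 - 1 / p) e z.1 z.2) (nu.prod nu) := fun ρ j => DD_int _ _ hb he
  have hFc : Continuous fun z : ℝ × ℝ => min (A1 C₀ c J y (z.1 - z.2) * (e z.1 * e z.2))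
      (E1 C₀ c y (z.1 - z.2) * √(e z.1 * e z.2)) := by
    have h1 : Continuous fun z : ℝ × ℝ => z.1 - z.2 := continuous_fst.sub continuous_snd
    have h2 : Continuous fun z : ℝ × ℝ => e z.1 * e z.2 :=
      (he.comp continuous_fst).mul (he.comp continuous_snd)
    exact (((cont_A1 hW C₀ c J y).comp h1).mul h2).min
      (((cont_E1 hW C₀ c y).comp h1).mul h2.sqrt)
  have hec : Continuous fun z : ℝ × ℝ => e z.1 * e z.2 :=
    (he.comp continuous_fst).mul (he.comp continuous_snd)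
  rw [II_eq (cont_int hFc)]
  -- the pointwise bound
  have hpt : ∀ z : ℝ × ℝ, min (A1 C₀ c J y (z.1 - z.2) * (e z.1 * e z.2))
      (E1 C₀ c y (z.1 - z.2) * √(e z.1 * e z.2)) ≤
      a' * (e z.1 * e z.2) +
        ∑ ρ ∈ S₁, ∑ j ∈ S₂, Wt ρ j * DD (2 ^ ρ) (2 ^ j / X ^ 2) (1 - 1 / p) e z.1 z.2 := by
    intro z
    have hv : 0 ≤ e z.1 * e z.2 := mul_nonneg (he0 _) (he0 _)
    have hsum : 0 ≤ ∑ ρ ∈ S₁, ∑ j ∈ S₂,
        Wt ρ j * DD (2 ^ ρ) (2 ^ j / X ^ 2) (1 - 1 / p) e z.1 z.2 :=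
      Finset.sum_nonneg fun ρ _ => Finset.sum_nonneg fun j _ =>
        mul_nonneg (hWt ρ j) (DD_nn _ _ _ he0 _ _)
    rcases hptw (z.1 - z.2) (e z.1 * e z.2) hv with h | ⟨ρ, hρ, j, hj, hnr, h⟩
    · exact h.trans (le_add_of_nonneg_right hsum)
    · have h1 : Wt ρ j * DD (2 ^ ρ) (2 ^ j / X ^ 2) (1 - 1 / p) e z.1 z.2 ≤ ∑ ρ ∈ S₁, ∑ j ∈ S₂,
          Wt ρ j * DD (2 ^ ρ) (2 ^ j / X ^ 2) (1 - 1 / p) e z.1 z.2 := by
        refine le_trans ?_ (Finset.single_le_sum (f := fun ρ => ∑ j ∈ S₂,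
          Wt ρ j * DD (2 ^ ρ) (2 ^ j / X ^ 2) (1 - 1 / p) e z.1 z.2) (fun ρ _ =>
            Finset.sum_nonneg fun j _ => mul_nonneg (hWt ρ j) (DD_nn _ _ _ he0 _ _)) hρ)
        exact Finset.single_le_sum (f := fun j =>
          Wt ρ j * DD (2 ^ ρ) (2 ^ j / X ^ 2) (1 - 1 / p) e z.1 z.2) (fun j _ =>
            mul_nonneg (hWt ρ j) (DD_nn _ _ _ he0 _ _)) hj
      have h2 : DD (2 ^ ρ) (2 ^ j / X ^ 2) (1 - 1 / p) e z.1 z.2 = (e z.1 * e z.2) ^ (1 - 1 / p) :=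
        if_pos hnr
      rw [h2] at h1
      exact (h.trans h1).trans (le_add_of_nonneg_left (mul_nonneg ha'0 hv))
  have hsi : Integrable (fun z : ℝ × ℝ => ∑ ρ ∈ S₁, ∑ j ∈ S₂,
      Wt ρ j * DD (2 ^ ρ) (2 ^ j / X ^ 2) (1 - 1 / p) e z.1 z.2) (nu.prod nu) :=
    integrable_finsetSum _ fun ρ _ => integrable_finsetSum _ fun j _ => (hDi ρ j).const_mul _
  have hai : Integrable (fun z : ℝ × ℝ => a' * (e z.1 * e z.2)) (nu.prod nu) :=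
    (cont_int hec).const_mul _
  refine (integral_mono (cont_int hFc) (hai.add hsi) hpt).trans ?_
  rw [integral_add' hai hsi]
  have hee : ∫ z : ℝ × ℝ, a' * (e z.1 * e z.2) ∂(nu.prod nu) = a' * m ^ 2 := by
    rw [integral_const_mul, integral_prod_mul, hm, intervalIntegral.integral_of_le zero_le_one, sq]
    rfl
  rw [hee]
  refine add_le_add_right ?_ _
  rw [integral_finsetSum _ fun ρ _ => integrable_finsetSum _ fun j _ => (hDi ρ j).const_mul _]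
  rw [Finset.sum_mul_sum, Finset.mul_sum]
  refine Finset.sum_le_sum fun ρ hρ => ?_
  rw [integral_finsetSum _ fun j _ => (hDi ρ j).const_mul _, Finset.mul_sum]
  refine Finset.sum_le_sum fun j hj => ?_
  rw [integral_const_mul, ← II_eq (hDi ρ j)]
  have h1 := mul_le_mul_of_nonneg_left (hcel ρ hρ j hj) (hWt ρ j)
  refine h1.trans ?_
  have h2 : (2 : ℝ) ^ (2 / p * (-((p / 2 - 1) / 2) * ((J : ℝ) - y) - σ * ((p / 2 - 1) / 2) * j -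
            σ / 2 * max 0 (j - 2 * ((J : ℝ) - y)))) * (2 : ℝ) ^ (2 / p * (j : ℝ)) ≤
      (2 : ℝ) ^ (-(2 / p * η * ((J : ℝ) - y))) * (2 : ℝ) ^ (-(2 / p * η * (j : ℝ))) := by
    rw [← Real.rpow_add two_pos, ← Real.rpow_add two_pos]
    refine Real.rpow_le_rpow_of_exponent_le one_le_two ?_
    have h3 := mul_le_mul_of_nonneg_left (hx j) (show 0 ≤ 2 / p by positivity)
    calc _ = 2 / p * (-((p / 2 - 1) / 2) * ((J : ℝ) - y) + (1 - σ * ((p / 2 - 1) / 2)) * j -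
      σ / 2 * max 0 (j - 2 * ((J : ℝ) - y))) := by ring
      _ ≤ _ := h3
      _ = _ := by ring
  have e1 : ((2 : ℝ) ^ j / X ^ 2) ^ (2 / p) = (2 : ℝ) ^ (2 / p * (j : ℝ)) * X ^ (-(4 / p)) := by
    rw [Real.div_rpow (by positivity) (by positivity), ← Real.rpow_natCast 2 j,
      ← Real.rpow_mul two_pos.le,
      ← Real.rpow_natCast X 2, ← Real.rpow_mul hX0.le, Real.rpow_neg hX0.le, div_eq_mul_inv]
    congr 2
    · ring
    · congr 1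
      push_cast
      ring
  have e2 : (2 : ℝ) ^ (-((ρ : ℝ) / 2)) * ((2 : ℝ) ^ ρ) ^ ((1 : ℝ) / 2) ≤
      (2 : ℝ) ^ (ε' * (ρ : ℝ)) := by
    rw [← Real.rpow_natCast 2 ρ, ← Real.rpow_mul two_pos.le, ← Real.rpow_add two_pos]
    refine Real.rpow_le_rpow_of_exponent_le one_le_two ?_
    have : 0 ≤ ε' * (ρ : ℝ) := by positivity
    linarith
  have e3 : X ^ (2 * (1 - 2 / p) - 4 / p) = X ^ (2 * (1 - 2 / p)) * X ^ (-(4 / p)) := by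
    rw [← Real.rpow_add hX0]
    congr 1
  rw [e1, e3]
  have h4 : 0 ≤ C₁ * C₂ * (X ^ (2 * (1 - 2 / p)) * X ^ (-(4 / p))) *
      m ^ (2 - 2 / p) := by positivity
  have h5 := mul_le_mul_of_nonneg_left (mul_le_mul e2 h2 (by positivity) (by positivity)) h4
  refine le_trans (le_of_eq ?_) (h5.trans (le_of_eq ?_))
  · simp only [Wt]
    ring
  · ring

/-- the end of the proof: solve the inequality for the mass -/
theorem fin (p ε' X Λ m D : ℝ) (hp : 2 < p) (hX : 1 ≤ X) (hΛ : 1 ≤ Λ) (hm : 0 ≤ m) (hD : 0 ≤ D)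
    (h : (X / Λ * m) ^ 2 ≤ 1 / 2 * (X ^ 2 / Λ ^ 2) * m ^ 2 +
      D * X ^ (2 * (1 - 2 / p) - 4 / p) * m ^ (2 - 2 / p) * Λ ^ (4 * ε')) :
    m ≤ (2 * D) ^ (p / 2) * Λ ^ (p + 2 * (p * ε')) * X ^ (-(4 : ℝ)) := by
  have hX0 : 0 < X := by linarith
  have hΛ0 : 0 < Λ := by linarith
  have hp0 : 0 < p := by linarith
  rcases hm.eq_or_lt with h0 | hm0
  · rw [← h0]
    positivity
  have h1 : (X / Λ * m) ^ 2 = X ^ 2 / Λ ^ 2 * m ^ 2 := by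
    rw [mul_pow, div_pow]
  rw [h1] at h
  have h2 : X ^ 2 / Λ ^ 2 * m ^ 2 ≤
      2 * D * X ^ (2 * (1 - 2 / p) - 4 / p) * m ^ (2 - 2 / p) * Λ ^ (4 * ε') := by
    linarith
  have h3 : m ^ 2 = m ^ (2 - 2 / p) * m ^ (2 / p) := by
    rw [← Real.rpow_add hm0, ← Real.rpow_natCast]
    congr 1
    push_cast
    ring
  have h4 : X ^ 2 / Λ ^ 2 = X ^ (2 : ℝ) * Λ ^ (-2 : ℝ) := by
    rw [Real.rpow_neg hΛ0.le, div_eq_mul_inv]
    congr 1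
    · rw [← Real.rpow_natCast]
      norm_num
    · rw [← Real.rpow_natCast]
      norm_num
  rw [h3, h4] at h2
  have hmp : 0 < m ^ (2 - 2 / p) := Real.rpow_pos_of_pos hm0 _
  have h5 : m ^ (2 / p) ≤ 2 * D * Λ ^ (2 + 4 * ε') * X ^ (-(2 / p * 4)) := by
    have hc : 0 < X ^ (2 : ℝ) * Λ ^ (-2 : ℝ) * m ^ (2 - 2 / p) := by positivity
    refine le_of_mul_le_mul_left ?_ hc
    calc X ^ (2 : ℝ) * Λ ^ (-2 : ℝ) * m ^ (2 - 2 / p) * m ^ (2 / p)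
        = X ^ (2 : ℝ) * Λ ^ (-2 : ℝ) * (m ^ (2 - 2 / p) * m ^ (2 / p)) := by ring
      _ ≤ _ := h2
      _ = 2 * D * m ^ (2 - 2 / p) * (Λ ^ (-2 : ℝ) * Λ ^ (2 + 4 * ε')) *
          (X ^ (2 : ℝ) * X ^ (-(2 / p * 4))) := by
        rw [← Real.rpow_add hΛ0, ← Real.rpow_add hX0]
        have e1 : (-2 : ℝ) + (2 + 4 * ε') = 4 * ε' := by ring
        have e2 : (2 : ℝ) + -(2 / p * 4) = 2 * (1 - 2 / p) - 4 / p := by
          field_simp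
          ring
        rw [e1, e2]
        ring
      _ = _ := by ring
  have h6 : m = (m ^ (2 / p)) ^ (p / 2) := by
    rw [← Real.rpow_mul hm]
    have : 2 / p * (p / 2) = 1 := by field_simp
    rw [this, Real.rpow_one]
  rw [h6]
  refine (Real.rpow_le_rpow (by positivity) h5 (by positivity)).trans (le_of_eq ?_)
  rw [Real.mul_rpow (by positivity) (by positivity), Real.mul_rpow (by positivity) (by positivity),
    ← Real.rpow_mul hΛ0.le, ← Real.rpow_mul hX0.le]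
  congr 2
  · congr 1
    ring
  · field_simp

end TOS

open SPH.TOS STZ3.TOJ in
theorem t_TOS : M_TOS := by
  intro hW hCES hXIS hPTS c p C₀ ε hc hp hp6 hC₀ hε
  have hp2 : 2 < p := by linarith
  have hp4 : 4 < p := by linarith
  have hp0 : 0 < p := by linarith
  obtain ⟨σ, η, hσ0, hσ1, hη, hxis⟩ := hXIS p hp hp6
  have hε' : 0 < ε / (2 * p) := by positivity
  obtain ⟨K, C₁, hK1, hC₁, hcel⟩ := hCES p hp4
  have hr : ∀ b : ℝ, 0 < b → 0 < (1 - (2 : ℝ) ^ (-b))⁻¹ := by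
    intro b hb
    have : (2 : ℝ) ^ (-b) < 1 := Real.rpow_lt_one_of_one_lt_of_neg one_lt_two (by linarith)
    exact inv_pos.2 (by linarith)
  set cn : ℝ := (1 - (2 : ℝ) ^ (-(1 / 4 : ℝ)))⁻¹ with hcn
  have hcn0 : 0 < cn := hr _ (by norm_num)
  have ha : 0 < 1 / (2 * cn) := by positivity
  obtain ⟨C₂, J₁, hC₂, hptw⟩ := hPTS c σ p C₀ (1 / (2 * cn)) hc hσ0 hσ1 hp2 hC₀ ha
  have hK1' : (1 : ℝ) ≤ K := by exact_mod_cast hK1
  have hT : 0 < (K : ℝ) + 1 / σ := by positivity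
  obtain ⟨N, hN⟩ := pow_unbounded_of_one_lt ((K : ℝ) * C₂ ^ ((K : ℝ) + 1 / σ))
    (one_lt_two : (1 : ℝ) < 2)
  set b : ℝ := 2 / p * η with hb
  have hb0 : 0 < b := by positivity
  set D : ℝ := C₁ * C₂ * (1 - (2 : ℝ) ^ (-b))⁻¹ *
    (C₂ ^ (ε / (2 * p)) * (1 - (2 : ℝ) ^ (-(ε / (2 * p))))⁻¹ * (1 - (2 : ℝ) ^ (-b))⁻¹) with hD
  have hD0 : 0 ≤ D := by
    have h1 := hr b hb0
    have h2 := hr (ε / (2 * p)) hε'
    positivity
  refine ⟨min (1 / 20) (1 / (4 * ((K : ℝ) + 1 / σ))), (2 * D) ^ (p / 2), max J₁ N,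
    lt_min (by norm_num) (by positivity), by positivity, ?_⟩
  intro J e Λ hJ he he0 hΛ hΛκ hmain
  have hJ1 : J₁ ≤ J := (le_max_left _ _).trans hJ
  have hJN : N ≤ J := (le_max_right _ _).trans hJ
  set X : ℝ := (2 : ℝ) ^ J with hXd
  have hX1 : 1 ≤ X := one_le_pow₀ one_le_two
  have hX0 : 0 < X := by linarith
  have hΛ0 : 0 < Λ := by linarith
  set m : ℝ := ∫ t in (0 : ℝ)..1, e t with hm
  have hm0 : 0 ≤ m := intervalIntegral.integral_nonneg zero_le_one fun t _ => he0 t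
  have hY1 : 1 ≤ C₂ * Λ ^ 4 := by
    have : 1 ≤ Λ ^ 4 := one_le_pow₀ hΛ
    nlinarith
  set Y : ℝ := C₂ * Λ ^ 4 with hY
  have hY0 : 0 < Y := by linarith
  have hΛ20 : Λ ^ 20 ≤ X := by
    have h1 : Λ ≤ X ^ (1 / 20 : ℝ) := hΛκ.trans
      (Real.rpow_le_rpow_of_exponent_le hX1 (min_le_left _ _))
    refine (pow_le_pow_left₀ hΛ0.le h1 20).trans (le_of_eq ?_)
    rw [← Real.rpow_natCast, ← Real.rpow_mul hX0.le]
    norm_num
  set S₁ : Finset ℕ := (Finset.range (⌈Y⌉₊ + 1)).filter fun ρ => (2 : ℝ) ^ ρ ≤ Y with hS₁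
  set S₂ : Finset ℕ := (Finset.range (⌈Y ^ (1 / σ)⌉₊ + 1)).filter
    fun j => (2 : ℝ) ^ (σ * (j : ℝ)) ≤ Y with hS₂
  have h2j : ∀ j : ℕ, (2 : ℝ) ^ (σ * (j : ℝ)) ≤ Y → (2 : ℝ) ^ j ≤ Y ^ (1 / σ) := by
    intro j hj
    have h1 := Real.rpow_le_rpow (by positivity) hj (show 0 ≤ 1 / σ by positivity)
    rw [← Real.rpow_mul two_pos.le] at h1
    have h2 : σ * (j : ℝ) * (1 / σ) = (j : ℕ) := by field_simp
    rwa [h2, Real.rpow_natCast] at h1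
  have hlt : ∀ (k : ℕ) (Z : ℝ), (2 : ℝ) ^ k ≤ Z → k ∈ Finset.range (⌈Z⌉₊ + 1) := by
    intro k Z hk
    rw [Finset.mem_range]
    have h1 : (k : ℝ) < 2 ^ k := by exact_mod_cast Nat.lt_two_pow_self
    have h2 : (k : ℝ) ≤ ⌈Z⌉₊ := (h1.le.trans hk).trans (Nat.le_ceil Z)
    have h3 : k ≤ ⌈Z⌉₊ := by exact_mod_cast h2
    omega
  -- the condition of CES
  have hcond : ∀ ρ ∈ S₁, ∀ j ∈ S₂, (K : ℝ) * (((2 ^ ρ : ℕ) : ℝ)) ^ K * (2 ^ j / X ^ 2) ≤ 1 := by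
    intro ρ hρ j hj
    have hρ' := (Finset.mem_filter.1 hρ).2
    have hj' := h2j j (Finset.mem_filter.1 hj).2
    have h1 : (((2 ^ ρ : ℕ) : ℝ)) ^ K ≤ Y ^ (K : ℝ) := by
      rw [Real.rpow_natCast]
      push_cast
      exact pow_le_pow_left₀ (by positivity) hρ' K
    have h2 : (((2 ^ ρ : ℕ) : ℝ)) ^ K * 2 ^ j ≤ Y ^ ((K : ℝ) + 1 / σ) := by
      rw [Real.rpow_add hY0]
      exact mul_le_mul h1 hj' (by positivity) (by positivity)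
    have h3 : Y ^ ((K : ℝ) + 1 / σ) ≤ C₂ ^ ((K : ℝ) + 1 / σ) * X := by
      rw [hY, Real.mul_rpow (by linarith) (by positivity)]
      refine mul_le_mul_of_nonneg_left ?_ (by positivity)
      rw [← Real.rpow_natCast Λ 4, ← Real.rpow_mul hΛ0.le]
      have h4 : Λ ≤ X ^ (1 / (4 * ((K : ℝ) + 1 / σ))) := hΛκ.trans
        (Real.rpow_le_rpow_of_exponent_le hX1 (min_le_right _ _))
      refine (Real.rpow_le_rpow hΛ0.le h4 (by positivity)).trans (le_of_eq ?_)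
      rw [← Real.rpow_mul hX0.le]
      have h5 : 1 / (4 * ((K : ℝ) + 1 / σ)) * (((4 : ℕ) : ℝ) * ((K : ℝ) + 1 / σ)) = 1 := by
        push_cast
        field_simp
      rw [h5, Real.rpow_one]
    have h6 : (K : ℝ) * C₂ ^ ((K : ℝ) + 1 / σ) ≤ X :=
      hN.le.trans (pow_le_pow_right₀ one_le_two hJN)
    rw [← mul_div_assoc, div_le_one (by positivity)]
    calc (K : ℝ) * (((2 ^ ρ : ℕ) : ℝ)) ^ K * 2 ^ j = K * ((((2 ^ ρ : ℕ) : ℝ)) ^ K * 2 ^ j) := by ring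
      _ ≤ K * (C₂ ^ ((K : ℝ) + 1 / σ) * X) := mul_le_mul_of_nonneg_left (h2.trans h3) (by positivity)
      _ = K * C₂ ^ ((K : ℝ) + 1 / σ) * X := by ring
      _ ≤ X * X := mul_le_mul_of_nonneg_right h6 hX0.le
      _ = X ^ 2 := by ring
  have hyJ : ∀ y : Fin (J + 1), y.val ≤ J := fun y => by
    have := y.isLt
    omega
  have hpc : ∀ y : Fin (J + 1), _ := fun y =>
    piece hW C₀ (1 / (2 * cn)) C₁ C₂ σ η p (ε / (2 * p)) c J y.val (hyJ y) he he0 Λ hp2 hC₁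
      (by linarith) hε'.le
      (fun j => by
        refine hxis ((J : ℝ) - y.val) j ?_ (Nat.cast_nonneg _)
        have : ((y.val : ℕ) : ℝ) ≤ J := by exact_mod_cast hyJ y
        linarith)
      S₁ S₂
      (fun ρ hρ j hj => by
        have h1 := hcel (2 ^ ρ) (2 ^ j / X ^ 2) e Nat.one_le_two_pow (by positivity) (hcond ρ hρ j hj)
          he he0
        push_cast at h1
        exact h1)
      (fun τ v hv => by
        rcases hptw J Λ τ v y.val (hyJ y) hJ1 hΛ hΛ20 hv with h | ⟨ρ, j, h1, h2, h3, h4⟩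
        · exact Or.inl h
        · exact Or.inr ⟨ρ, Finset.mem_filter.2 ⟨hlt ρ Y h1, h1⟩, j,
            Finset.mem_filter.2 ⟨hlt j _ (h2j j h2), h2⟩, h3, h4⟩)
      ha.le
  have hG₁ : ∑ ρ ∈ S₁, (2 : ℝ) ^ (ε / (2 * p) * (ρ : ℝ)) ≤
      Y ^ (ε / (2 * p)) * (1 - (2 : ℝ) ^ (-(ε / (2 * p))))⁻¹ :=
    geo_r _ hε' Y hY1 S₁ fun k hk => (Finset.mem_filter.1 hk).2
  have hG₂ : ∑ j ∈ S₂, (2 : ℝ) ^ (-(b * (j : ℝ))) ≤ (1 - (2 : ℝ) ^ (-b))⁻¹ := geo_j b hb0 S₂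
  have hG : (∑ ρ ∈ S₁, (2 : ℝ) ^ (ε / (2 * p) * (ρ : ℝ))) * ∑ j ∈ S₂, (2 : ℝ) ^ (-(b * (j : ℝ))) ≤
      Y ^ (ε / (2 * p)) * (1 - (2 : ℝ) ^ (-(ε / (2 * p))))⁻¹ * (1 - (2 : ℝ) ^ (-b))⁻¹ :=
    mul_le_mul hG₁ hG₂ (Finset.sum_nonneg fun _ _ => by positivity)
      (mul_nonneg (by positivity) (hr _ hε').le)
  have hYe : Y ^ (ε / (2 * p)) = C₂ ^ (ε / (2 * p)) * Λ ^ (4 * (ε / (2 * p))) := by
    rw [hY, Real.mul_rpow (by linarith) (by positivity), ← Real.rpow_natCast Λ 4,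
      ← Real.rpow_mul hΛ0.le]
    push_cast
    rfl
  have hfin := fin p (ε / (2 * p)) X Λ m D hp2 hX1 hΛ hm0 hD0 ?_
  · have h1 : 2 * (p * (ε / (2 * p))) = ε := by field_simp
    rw [h1] at hfin
    exact hfin
  refine hmain.trans ?_
  unfold MB1
  refine (Finset.sum_le_sum fun y _ => hpc y).trans ?_
  rw [Finset.sum_add_distrib]
  refine add_le_add ?_ ?_
  · have h1 := geo_y1 J (1 / 4) (by norm_num)
    have h2 : ∀ y : Fin (J + 1), 1 / (2 * cn) * (X ^ 2 / Λ ^ 2) *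
        (2 : ℝ) ^ (-(((J : ℝ) - (y.val : ℝ)) / 4)) * m ^ 2 = (1 / (2 * cn) * (X ^ 2 / Λ ^ 2) *
          m ^ 2) * (2 : ℝ) ^ (-(1 / 4 * ((J : ℝ) - (y.val : ℝ)))) := by
      intro y
      have h3 : -(((J : ℝ) - (y.val : ℝ)) / 4) = -(1 / 4 * ((J : ℝ) - (y.val : ℝ))) := by ring
      rw [h3]
      ring
    rw [Finset.sum_congr rfl fun y _ => h2 y]
    rw [← Finset.mul_sum]
    have h4 : 0 ≤ 1 / (2 * cn) * (X ^ 2 / Λ ^ 2) * m ^ 2 := by positivity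
    refine (mul_le_mul_of_nonneg_left h1 h4).trans (le_of_eq ?_)
    rw [← hcn]
    field_simp
  · have h1 := geo_y1 J b hb0
    set E : ℝ := C₁ * C₂ * X ^ (2 * (1 - 2 / p) - 4 / p) * m ^ (2 - 2 / p) with hE
    have hE0 : 0 ≤ E := by positivity
    have hS0 : 0 ≤ (∑ ρ ∈ S₁, (2 : ℝ) ^ (ε / (2 * p) * (ρ : ℝ))) *
        ∑ j ∈ S₂, (2 : ℝ) ^ (-(b * (j : ℝ))) :=
      mul_nonneg (Finset.sum_nonneg fun _ _ => by positivity)
        (Finset.sum_nonneg fun _ _ => by positivity)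
    rw [← Finset.sum_mul, ← Finset.mul_sum]
    calc _ ≤ E * (1 - (2 : ℝ) ^ (-b))⁻¹ *
          (Y ^ (ε / (2 * p)) * (1 - (2 : ℝ) ^ (-(ε / (2 * p))))⁻¹ * (1 - (2 : ℝ) ^ (-b))⁻¹) :=
        mul_le_mul (mul_le_mul_of_nonneg_left h1 hE0) hG hS0
          (mul_nonneg hE0 (hr b hb0).le)
      _ = _ := by
        rw [hYe, hE, hD]
        ring

end

end SPH
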