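import Mathlib
import Pool.Agent.SPH.StA
import Pool.Agent.SPH.TOS
import Pool.Agent.STZ3.PTW

/-!
# The bilinear form at the top levels, without loss

Module TIS of the project SPH.
-/

set_option autoImplicit false
set_option linter.unusedVariables false

namespace SPH

open STZ LGR STZ3 MeasureTheory Matrix Filter

open scoped ComplexConjugate Matrix Real Topology

noncomputable section

namespace TIS

open STZ3.TOJ SPH.TOS

/-- trivial bound of the bilinear form -/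
theorem MB_le (hW : WWF) (C₀ : ℝ) (c J : ℕ)
    (hC₀ : 0 ≤ C₀) (hc : 1 ≤ c) {e : ℝ → ℝ} (he : Continuous e)
    (he0 : ∀ t, 0 ≤ e t) :
    MB1 C₀ c J e ≤ C₀ * √(3 * c) * (1 - (2 : ℝ) ^ (-(1 / 2 : ℝ)))⁻¹ *
      ((2 : ℝ) ^ J) ^ 2 * (∫ t in (0 : ℝ)..1, e t) ^ 2 := by
  set m : ℝ := ∫ t in (0 : ℝ)..1, e t with hm
  set X : ℝ := (2 : ℝ) ^ J with hX
  have hX0 : 0 < X := by positivity
  have hec : Continuous fun z : ℝ × ℝ => e z.1 * e z.2 :=
    (he.comp continuous_fst).mul (he.comp continuous_snd)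
  have hpc : ∀ y : Fin (J + 1), ∫ t in (0 : ℝ)..1, ∫ s in (0 : ℝ)..1,
      min (A1 C₀ c J y.val (t - s) * (e t * e s)) (E1 C₀ c y.val (t - s) * √(e t * e s)) ≤
      C₀ * √(3 * c) * X ^ 2 * m ^ 2 * (2 : ℝ) ^ (-(1 / 2 * ((J : ℝ) - (y.val : ℝ)))) := by
    intro y
    set K : ℝ := C₀ * (X * (√(3 * c) * X) * (2 : ℝ) ^ (-(((J : ℝ) - y.val) / 2))) with hK
    have hFc : Continuous fun z : ℝ × ℝ => min (A1 C₀ c J y.val (z.1 - z.2) * (e z.1 * e z.2))
        (E1 C₀ c y.val (z.1 - z.2) * √(e z.1 * e z.2)) := by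
      have h1 : Continuous fun z : ℝ × ℝ => z.1 - z.2 := continuous_fst.sub continuous_snd
      exact (((cont_A1 hW C₀ c J y.val).comp h1).mul hec).min
        (((cont_E1 hW C₀ c y.val).comp h1).mul hec.sqrt)
    rw [II_eq (cont_int hFc)]
    have hai : Integrable (fun z : ℝ × ℝ => K * (e z.1 * e z.2)) (nu.prod nu) :=
      (cont_int hec).const_mul _
    have hee : ∫ z : ℝ × ℝ, K * (e z.1 * e z.2) ∂(nu.prod nu) = K * m ^ 2 := by
      rw [integral_const_mul, integral_prod_mul, hm, intervalIntegral.integral_of_le zero_le_one, sq]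
      rfl
    have hKe : K * m ^ 2 =
        C₀ * √(3 * c) * X ^ 2 * m ^ 2 * (2 : ℝ) ^ (-(1 / 2 * ((J : ℝ) - (y.val : ℝ)))) := by
      rw [hK, show -(((J : ℝ) - y.val) / 2) = -(1 / 2 * ((J : ℝ) - (y.val : ℝ))) by ring]
      ring
    rw [← hKe, ← hee]
    refine integral_mono (cont_int hFc) hai fun z => ?_
    refine (min_le_left _ _).trans ?_
    refine mul_le_mul_of_nonneg_right ?_ (mul_nonneg (he0 _) (he0 _))
    rw [hK]
    unfold A1
    refine mul_le_mul_of_nonneg_left ?_ hC₀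
    refine mul_le_mul_of_nonneg_right ?_ (by positivity)
    refine mul_le_mul_of_nonneg_left ?_ (by positivity)
    have h1 := STZ3.PTW.WW_le (2 ^ J) c (z.1 - z.2) Nat.one_le_two_pow hc
    push_cast at h1
    refine (Real.sqrt_le_sqrt h1).trans (le_of_eq ?_)
    rw [Real.sqrt_mul' _ (by positivity), Real.sqrt_sq (by positivity)]
  unfold MB1
  refine (Finset.sum_le_sum fun y _ => hpc y).trans ?_
  rw [← Finset.mul_sum]
  have h1 := geo_y1 J (1 / 2) (by norm_num)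
  have h2 : 0 ≤ C₀ * √(3 * c) * X ^ 2 * m ^ 2 := by positivity
  refine (mul_le_mul_of_nonneg_left h1 h2).trans (le_of_eq ?_)
  ring

end TIS

open SPH.TIS in
theorem t_TIS : M_TIS := by
  intro hW hTOS c p C₀ a hc hp hp6 hC₀ ha
  -- the smaller exponent
  obtain ⟨p₀, hp₀, hp₀'⟩ := exists_between hp
  have hp2 : 2 < p := by linarith
  have hp0 : 0 < p := by linarith
  obtain ⟨κ₀, C, J₀, hκ₀, hC, hT⟩ := hTOS c p₀ C₀ (p - p₀) hc hp₀ (by linarith) hC₀
    (by linarith)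
  -- the positive exponent
  have hexp : 0 ≤ p - 4 := by linarith
  set κ : ℝ := κ₀ / 2 with hκ
  have hκ0 : 0 < κ := by positivity
  have hgp : 0 < (1 - (2 : ℝ) ^ (-(1 / 2 : ℝ)))⁻¹ := by
    have : (2 : ℝ) ^ (-(1 / 2 : ℝ)) < 1 :=
      Real.rpow_lt_one_of_one_lt_of_neg one_lt_two (by norm_num)
    exact inv_pos.2 (by linarith)
  -- the constant of the trivial bound
  set Q : ℝ := C₀ * √(3 * c) * (1 - (2 : ℝ) ^ (-(1 / 2 : ℝ)))⁻¹ with hQ
  have hQ0 : 0 ≤ Q := by positivity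
  set C₁ : ℝ := √(1 + Q) with hC₁
  have hin : 1 ≤ 1 + Q := by linarith
  have hC₁1 : 1 ≤ C₁ := Real.one_le_sqrt.2 hin
  have hC₁0 : 0 < C₁ := by linarith
  have hC₁s : C₁ ^ 2 = 1 + Q := Real.sq_sqrt (by linarith)
  -- large scales
  obtain ⟨N, hN⟩ : ∃ N : ℕ, ∀ J : ℕ, N ≤ J → 1 / a ≤ ((2 : ℝ) ^ J) ^ κ := by
    have h2κ : 1 < (2 : ℝ) ^ κ := Real.one_lt_rpow one_lt_two hκ0
    obtain ⟨N, hN⟩ := pow_unbounded_of_one_lt (1 / a) h2κ
    refine ⟨N, fun J hJ => ?_⟩
    have e1 : ((2 : ℝ) ^ J) ^ κ = ((2 : ℝ) ^ κ) ^ J := by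
      rw [← Real.rpow_natCast, ← Real.rpow_mul two_pos.le, mul_comm, Real.rpow_mul two_pos.le,
        Real.rpow_natCast]
    rw [e1]
    exact hN.le.trans (pow_le_pow_right₀ h2κ.le hJ)
  set J₁ : ℕ := max J₀ N with hJ₁
  have hC₁p : 0 ≤ C₁ ^ p := by positivity
  refine ⟨κ, (C₁ * (2 : ℝ) ^ J₁) ^ p + C * (1 + C₁ ^ p), hκ0, by positivity, ?_⟩
  intro J e ℓ he he0 he1 hℓ hmain
  set X : ℝ := (2 : ℝ) ^ J with hX
  have hX1 : 1 ≤ X := one_le_pow₀ one_le_two
  have hX0 : 0 < X := by linarith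
  have hℓ0 : 0 < ℓ := lt_of_lt_of_le (by positivity) hℓ
  set m : ℝ := ∫ t in (0 : ℝ)..1, e t with hm
  have hm0 : 0 ≤ m := intervalIntegral.integral_nonneg zero_le_one fun t _ => he0 t
  have hm1 : m ≤ 1 := by
    have h1 : m ≤ ∫ _t in (0 : ℝ)..1, (1 : ℝ) :=
      intervalIntegral.integral_mono_on zero_le_one (he.intervalIntegrable _ _)
        (continuous_const.intervalIntegrable _ _) fun t _ => he1 t
    simpa using h1
  have hXe : 1 ≤ X ^ (p - 4) := Real.one_le_rpow hX1 hexp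
  have hXe0 : 0 < X ^ (p - 4) := by positivity
  rcases hm0.eq_or_lt with h0 | hmp
  · rw [← h0, zero_mul]
    positivity
  -- the trivial bound
  have hℓX : ℓ ≤ C₁ * X := by
    have h1 := hmain.trans (MB_le hW C₀ c J hC₀ hc he he0)
    rw [← hX, ← hm, ← hQ] at h1
    have h2 : Q * X ^ 2 * m ^ 2 ≤ (C₁ * X * m) ^ 2 := by
      have e1 : (C₁ * X * m) ^ 2 = C₁ ^ 2 * (X ^ 2 * m ^ 2) := by ring
      rw [e1, hC₁s]
      have : 0 ≤ X ^ 2 * m ^ 2 := by positivity
      nlinarith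
    have h4' : ℓ * m ≤ C₁ * X * m :=
      (pow_le_pow_iff_left₀ (by positivity) (by positivity) two_ne_zero).1 (h1.trans h2)
    exact le_of_mul_le_mul_right h4' hmp
  have hXpn : X ^ p * X ^ (-(4 : ℝ)) = X ^ (p - 4) := by
    rw [← Real.rpow_add hX0]
    congr 1
  have hA0 : 0 ≤ (C₁ * (2 : ℝ) ^ J₁) ^ p := by positivity
  by_cases hJ : J₁ ≤ J
  · have hJ0 : J₀ ≤ J := (le_max_left _ _).trans hJ
    have hJN : N ≤ J := (le_max_right _ _).trans hJ
    rcases le_or_gt ℓ X with hc1 | hc1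
    · -- the main case
      set Λ : ℝ := X / ℓ with hΛ
      have hΛ1 : 1 ≤ Λ := (one_le_div hℓ0).2 hc1
      have hΛ0 : 0 < Λ := by linarith
      have hΛκ : Λ ≤ X ^ κ₀ := by
        rw [hΛ, div_le_iff₀ hℓ0]
        have h1 := hN J hJN
        have h2 : 1 ≤ a * X ^ κ := by
          rw [div_le_iff₀ ha] at h1
          linarith
        have h3 : X ^ κ₀ = X ^ κ * X ^ κ := by
          rw [← Real.rpow_add hX0]
          congr 1
          rw [hκ]
          ring
        have h5 : X ^ κ * X ^ (1 - κ) = X := by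
          rw [← Real.rpow_add hX0]
          have : κ + (1 - κ) = 1 := by ring
          rw [this, Real.rpow_one]
        calc X = 1 * X := (one_mul _).symm
          _ ≤ (a * X ^ κ) * X := mul_le_mul_of_nonneg_right h2 (by positivity)
          _ = (a * X ^ κ) * (X ^ κ * X ^ (1 - κ)) := by rw [h5]
          _ = X ^ κ₀ * (a * X ^ (1 - κ)) := by rw [h3]; ring
          _ ≤ X ^ κ₀ * ℓ := mul_le_mul_of_nonneg_left hℓ (by positivity)
      have hℓΛ : X / Λ = ℓ := by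
        rw [hΛ, div_div_eq_mul_div, mul_comm, mul_div_assoc, div_self (by positivity), mul_one]
      have h6 := hT J e Λ hJ0 he he0 hΛ1 hΛκ (by
        rw [← hX, ← hm, hℓΛ]
        exact hmain)
      rw [← hX, ← hm, show p₀ + (p - p₀) = p by ring] at h6
      have h7 : Λ ^ p * ℓ ^ p = X ^ p := by
        rw [← Real.mul_rpow hΛ0.le hℓ0.le, hΛ, div_mul_cancel₀ _ hℓ0.ne']
      calc m * ℓ ^ p ≤ C * Λ ^ p * X ^ (-(4 : ℝ)) * ℓ ^ p :=
            mul_le_mul_of_nonneg_right h6 (by positivity)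
        _ = C * (X ^ p * X ^ (-(4 : ℝ))) := by rw [← h7]; ring
        _ = C * X ^ (p - 4) := by rw [hXpn]
        _ ≤ _ := by
          refine mul_le_mul_of_nonneg_right ?_ hXe0.le
          nlinarith
    · -- the case of the large levels
      have h6 := hT J e 1 hJ0 he he0 le_rfl (Real.one_le_rpow hX1 hκ₀.le) (by
        rw [← hX, ← hm, div_one]
        refine le_trans ?_ hmain
        exact pow_le_pow_left₀ (by positivity) (mul_le_mul_of_nonneg_right hc1.le hm0) 2)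
      rw [← hX, ← hm, Real.one_rpow, mul_one] at h6
      have h7 : ℓ ^ p ≤ C₁ ^ p * X ^ p := by
        rw [← Real.mul_rpow hC₁0.le (by positivity)]
        exact Real.rpow_le_rpow hℓ0.le hℓX hp0.le
      calc m * ℓ ^ p ≤ (C * X ^ (-(4 : ℝ))) * (C₁ ^ p * X ^ p) :=
            mul_le_mul h6 h7 (by positivity) (by positivity)
        _ = C * C₁ ^ p * (X ^ p * X ^ (-(4 : ℝ))) := by ring
        _ = C * C₁ ^ p * X ^ (p - 4) := by rw [hXpn]
        _ ≤ _ := by
          refine mul_le_mul_of_nonneg_right ?_ hXe0.le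
          nlinarith
  · -- small scales
    have hJ' : J ≤ J₁ := by omega
    have h1 : ℓ ^ p ≤ (C₁ * (2 : ℝ) ^ J₁) ^ p := by
      refine Real.rpow_le_rpow hℓ0.le (hℓX.trans ?_) hp0.le
      refine mul_le_mul_of_nonneg_left ?_ hC₁0.le
      exact pow_le_pow_right₀ one_le_two hJ'
    calc m * ℓ ^ p ≤ 1 * (C₁ * (2 : ℝ) ^ J₁) ^ p :=
          mul_le_mul hm1 h1 (by positivity) zero_le_one
      _ ≤ ((C₁ * (2 : ℝ) ^ J₁) ^ p + C * (1 + C₁ ^ p)) * 1 := by
        have : 0 ≤ C * (1 + C₁ ^ p) := by positivity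
        linarith
      _ ≤ _ := mul_le_mul_of_nonneg_left hXe (by positivity)

end

end SPH
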