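import Pool.Agent.SPH.StE

/-!
# Module TPS: the top levels on the sphere
-/

set_option autoImplicit false

namespace SPH

open STZ LGR STZ3 MeasureTheory Matrix Filter

open scoped ComplexConjugate Matrix Real Topology

noncomputable section

namespace TPS

theorem ww_nn (hW : WWF) (R c : ℕ) (t : ℝ) : 0 ≤ WW R c t :=
  (Nat.cast_nonneg R).trans (hW.ge R c t)

theorem nice_A1 (hW : WWF) (C₀ : ℝ) (hC : 0 ≤ C₀) (c J y : ℕ) : STZ.Nice (A1 C₀ c J y) where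
  cont := by
    unfold A1
    exact continuous_const.mul ((continuous_const.mul (hW.cont _ c).sqrt).mul continuous_const)
  nn t := by
    unfold A1
    positivity
  per t := by
    unfold A1
    rw [hW.per]
  even t := by
    unfold A1
    rw [hW.even]

theorem nice_E1 (hW : WWF) (C₀ : ℝ) (hC : 0 ≤ C₀) (c y : ℕ) : STZ.Nice (E1 C₀ c y) where
  cont := by
    unfold E1
    exact continuous_const.mul ((hW.cont _ c).sqrt.div_const _)
  nn t := by
    unfold E1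
    positivity
  per t := by
    unfold E1
    rw [hW.per]
  even t := by
    unfold E1
    rw [hW.even]

theorem A1_mono (hW : WWF) {C C' : ℝ} {c c' : ℕ} (hC : C ≤ C') (h0 : 0 ≤ C) (hc : c ≤ c') (J y : ℕ)
    (t : ℝ) : A1 C c J y t ≤ A1 C' c' J y t := by
  have h1 : √(WW (2 ^ J) c t) ≤ √(WW (2 ^ J) c' t) := Real.sqrt_le_sqrt (hW.mono _ _ _ _ t le_rfl hc)
  unfold A1
  refine mul_le_mul hC ?_ (by positivity) (h0.trans hC)
  exact mul_le_mul_of_nonneg_right (mul_le_mul_of_nonneg_left h1 (by positivity)) (by positivity)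

theorem E1_mono (hW : WWF) {C C' : ℝ} {c c' : ℕ} (hC : C ≤ C') (h0 : 0 ≤ C) (hc : c ≤ c') (y : ℕ)
    (t : ℝ) : E1 C c y t ≤ E1 C' c' y t := by
  have h1 : √(WW (2 ^ y) c t) ≤ √(WW (2 ^ y) c' t) := Real.sqrt_le_sqrt (hW.mono _ _ _ _ t le_rfl hc)
  unfold E1
  refine mul_le_mul hC ?_ (by positivity) (h0.trans hC)
  exact div_le_div_of_nonneg_right h1 (by positivity)

theorem cont_e {M : Type} [TopologicalSpace M] [CompactSpace M] [MeasurableSpace M]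
    [BorelSpace M] [T2Space M] [SecondCountableTopology M] (μ : Measure M)
    [IsProbabilityMeasure μ] {G : ℝ → M → ℂ} (hG : JC G) :
    Continuous fun t => ∫ x, ‖G t x‖ ∂μ := by
  have h1 : Continuous (Function.uncurry fun (t : ℝ) (x : M) => ‖G t x‖) := hG.norm
  have h3 := continuous_parametric_integral_of_continuous (μ := μ) h1 (s := Set.univ)
    isCompact_univ
  simpa using h3

variable {N : ℕ} {H : Subgroup (SU N)} {Hc : Fin 1 → MT N}

/-- the pieces of the kernel -/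
def kp (χ : IX Hc → H → ℂ) (e : ℕ) (T : Finset (PX Hc e)) (Y J y : ℕ) (t : ℝ) (x x' : H) : ℂ :=
  if y ≤ Y then ∑ i ∈ T, nT 1 Y y e J t (lw i.1) * KQ χ e i x x' else 0

theorem sz_eq {χ : IX Hc → H → ℂ} {cc : H → ℝ} {w : H} {μ : Measure H} (hK : KPF χ cc w μ) {e : ℕ}
    (i : PX Hc e) : sz (wG i.1.1) = 1 + (lw i.1 : ℝ) := by
  unfold sz
  rw [Fin.sum_univ_one]
  have h1 : (1 : ℤ) ≤ lw i.1 := hK.ge i.1
  have h2 : (0 : ℝ) ≤ (lw i.1 : ℝ) := by exact_mod_cast (by omega : (0 : ℤ) ≤ lw i.1)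
  have h3 : |((wG i.1.1 0 : ℤ) : ℝ)| = (lw i.1 : ℝ) := abs_of_nonneg h2
  rw [h3]

/-- the supremum of the kernel -/
theorem sup {χ : IX Hc → H → ℂ} {cc : H → ℝ} {w : H} {μ : Measure H} (hK : KPF χ cc w μ)
    (hcc : ∀ g, |cc g| ≤ 1) {e : ℕ} (hsrj : ∀ n : ℕ, ∃ i : IX Hc, lw i = 2 * n + 1)
    (T : Finset (PX Hc e)) (J : ℕ) (hT : ∀ i : PX Hc e, i ∈ T ↔ lw i.1 ≤ 2 * 2 ^ J)
    (f : ℤ → ℂ) (x y : H) : ∃ D : ℝ, 0 ≤ D ∧ D ≤ π ∧ ∑ i ∈ T, f (lw i.1) * KQ χ e i x y =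
      ∑ l ∈ (Finset.Icc (1 : ℤ) (2 * 2 ^ J)).filter (fun l => l % 4 = 1 + 2 * (e : ℤ)),
        f l * ((l : ℂ) * LP (l.toNat / 2) ((Real.cos D : ℝ) : ℂ)) := by
  have h1 := abs_le.1 (hcc (y⁻¹ * x))
  refine ⟨Real.arccos (cc (y⁻¹ * x)), Real.arccos_nonneg _, Real.arccos_le_pi _, ?_⟩
  rw [Real.cos_arccos h1.1 h1.2]
  refine Finset.sum_bij (fun i _ => lw i.1) (fun i hi => ?_) (fun i _ j _ hij => ?_)
    (fun l hl => ?_) (fun i hi => ?_)
  · exact Finset.mem_filter.2 ⟨Finset.mem_Icc.2 ⟨hK.ge i.1, (hT i).1 hi⟩, i.2⟩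
  · exact Subtype.ext (hK.inj _ _ hij)
  · obtain ⟨h2, h3⟩ := Finset.mem_filter.1 hl
    obtain ⟨h4, h5⟩ := Finset.mem_Icc.1 h2
    obtain ⟨i, hi⟩ := hsrj (l / 2).toNat
    have h6 : lw i = l := by
      rw [hi]
      omega
    have h7 : lw i % 4 = 1 + 2 * (e : ℤ) := by rw [h6, h3]
    exact ⟨⟨i, h7⟩, (hT _).2 (by rw [h6]; exact h5), h6⟩
  · have h2 : lw i.1 % 2 = 1 := by
      have h3 : lw i.1 % 4 = 1 + 2 * (e : ℤ) := i.2
      omega
    have h3 : KQ χ e i x y = (lw i.1 : ℂ) * LP ((lw i.1).toNat / 2) (cc (y⁻¹ * x)) :=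
      hK.odd i.1 x y h2
    rw [h3]

/-- the bilinear form -/
theorem form (hW : WWF) (hTTM : S_TTM) (hKOP : S_KOP) (hNT : NTF 1) {Φ : RT 1} (hR : R1F Φ)
    (hcl : IsClosed (H : Set (SU N))) {χ : IX Hc → H → ℂ} {cc : H → ℝ} {w : H} (μ : Measure H)
    [IsProbabilityMeasure μ] [μ.IsMulLeftInvariant] (hK : KPF χ cc w μ) (hcc : ∀ g, |cc g| ≤ 1)
    {e : ℕ} (hsrj : (∀ n : ℕ, ∃ i : IX Hc, lw i = 2 * n + 1) ∧ ∀ K : ℕ, {i : IX Hc | lw i ≤ K}.Finite)
    {C₀ : ℝ} {c Y J : ℕ} (hC₀ : 0 ≤ C₀) (hYJ : Y ≤ J)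
    (hsup : ∀ (y : ℕ) (t D : ℝ), y ≤ Y → 0 ≤ D → D ≤ π →
      ‖∑ l ∈ (Finset.Icc (1 : ℤ) (2 * 2 ^ J)).filter (fun l => l % 4 = 1 + 2 * (e : ℤ)),
        nT 1 Y y e J t l * ((l : ℂ) * LP (l.toNat / 2) ((Real.cos D : ℝ) : ℂ))‖ ≤ A1 C₀ c J y t)
    (hop : ∀ (y : ℕ) (t : ℝ) (l : ℤ), y ≤ Y → ‖nT 1 Y y e J t l‖ ≤ E1 C₀ c y t)
    (F : Finset (PX Hc e)) (u : PX Hc e → H → ℂ)
    (hF : ∀ i ∈ F, (2 : ℤ) ^ J < 8 * lw i.1 ∧ lw i.1 ≤ 2 ^ J)
    (hu : ∀ i ∈ F, Mem μ (KQ χ e i) (u i)) (G : ℝ → H → ℂ) (hGc : JC G) (hGb : ∀ t x, ‖G t x‖ ≤ 1) :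
    ‖∫ t in (0 : ℝ)..1, ∫ x, conj (G t x) *
      uw (fun i : PX Hc e => wG i.1.1) (fun l => -(rd Φ).Q l) F u t x ∂μ‖ ^ 2 ≤
      (∑ a ∈ F, nsq μ (u a)) * MB1 C₀ c J (fun t => ∫ x, ‖G t x‖ ∂μ) := by
  have hcomp : CompactSpace H := isCompact_iff_compactSpace.1 hcl.isCompact
  have hsc : SecondCountableTopology H :=
    TopologicalSpace.Subtype.secondCountableTopology (H : Set (SU N))
  have hfin : {i : PX Hc e | lw i.1 ≤ 2 * 2 ^ J}.Finite := by
    have h1 := hsrj.2 (2 * 2 ^ J)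
    have h2 : {i : PX Hc e | lw i.1 ≤ 2 * 2 ^ J} =
        (fun i : PX Hc e => i.1) ⁻¹' {i : IX Hc | lw i ≤ ((2 * 2 ^ J : ℕ) : ℤ)} := by
      ext i
      simp
    rw [h2]
    exact h1.preimage fun i _ j _ hij => Subtype.ext hij
  obtain ⟨T, hT⟩ : ∃ T : Finset (PX Hc e), ∀ i : PX Hc e, i ∈ T ↔ lw i.1 ≤ 2 * 2 ^ J :=
    ⟨hfin.toFinset, fun i => by simp⟩
  have hpJ : (0 : ℤ) < 2 ^ J := by positivity
  have h1 := hTTM H μ (PX Hc e) (KQ χ e) (hK.ker e) (fun i => -(rd Φ).Q (wG i.1.1)) F T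
    (fun i => qS e (2 ^ J) (lw i.1)) (Fin (J + 1)) (fun y t x x' => kp χ e T Y J y.val t x x')
    (fun y => A1 C₀ c J y.val) (fun y => E1 C₀ c y.val)
    (fun i hi => (hT i).2 (by have := (hF i hi).2; omega)) (fun i _ => ?_) (fun i hi => ?_)
    (fun t x y => ?_) (fun y => ?_) (fun y => nice_A1 hW C₀ hC₀ c J y.val)
    (fun y => nice_E1 hW C₀ hC₀ c y.val) (fun y t x x' => ?_) (fun y t v z hv hz => ?_) u hu G hGc hGb
  · exact h1
  · unfold qS
    split_ifs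
    · exact zero_le_one
    · exact le_rfl
  · have h2 : (1 : ℤ) ≤ lw i.1 := hK.ge i.1
    have h3 : |lw i.1| = lw i.1 := abs_of_nonneg (by omega)
    have h4 : lw i.1 % 4 = 1 + 2 * (e : ℤ) := i.2
    have h5 := hF i hi
    unfold qS
    rw [if_pos]
    rw [h3]
    push_cast
    exact ⟨h4, h5.1, h5.2⟩
  · -- the identity
    have h2 : ∑ y' : Fin (J + 1), kp χ e T Y J y'.val t x y =
        ∑ y' ∈ Finset.range (Y + 1), ∑ i ∈ T, nT 1 Y y' e J t (lw i.1) * KQ χ e i x y := by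
      rw [Fin.sum_univ_eq_sum_range (fun y' => kp χ e T Y J y' t x y) (J + 1)]
      rw [← Finset.sum_subset (Finset.range_subset_range.2 (Nat.succ_le_succ hYJ))]
      · refine Finset.sum_congr rfl fun y' hy' => ?_
        unfold kp
        rw [if_pos (Nat.lt_succ_iff.1 (Finset.mem_range.1 hy'))]
      · intro y' _ hy'
        unfold kp
        rw [if_neg]
        intro h3
        exact hy' (Finset.mem_range.2 (Nat.lt_succ_of_le h3))
    rw [h2, Finset.sum_comm]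
    refine Finset.sum_congr rfl fun i _ => ?_
    rw [← Finset.sum_mul, hNT.sum, ← mul_assoc]
    congr 1
    unfold gS
    congr 2
    rw [hR.q]
    have h3 : wG i.1.1 0 = lw i.1 := rfl
    rw [h3]
    push_cast
    ring
  · -- continuity
    change Continuous fun z : ℝ × H × H => kp χ e T Y J y.val z.1 z.2.1 z.2.2
    unfold kp
    split_ifs
    · refine continuous_finsetSum _ fun i _ => ?_
      exact ((hNT.cont Y y.val e J (lw i.1)).comp continuous_fst).mul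
        (((hK.ker e).cont i).comp continuous_snd)
    · exact continuous_const
  · -- the supremum
    unfold kp
    split_ifs with hy
    · obtain ⟨D, hD0, hD1, hD⟩ := sup hK hcc hsrj.1 T J hT (fun l => nT 1 Y y.val e J t l) x x'
      rw [hD]
      exact hsup y.val t D hy hD0 hD1
    · rw [norm_zero]
      exact (nice_A1 hW C₀ hC₀ c J y.val).nn t
  · -- the operator norm
    have hE := (nice_E1 hW C₀ hC₀ c y.val).nn t
    unfold kp
    split_ifs with hy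
    · exact hKOP H μ (PX Hc e) (KQ χ e) (hK.ker e) T (fun i => nT 1 Y y.val e J t (lw i.1))
        (E1 C₀ c y.val t) hE (fun b _ => hop y.val t _ hy) v z hv hz
    · simp only [zero_mul, integral_zero, mul_zero, norm_zero]
      positivity

end TPS

open TPS in
theorem t_TPS : M_TPS := by
  intro hWFAC hW hRNK hSRJ hMXS hKOP hTTM hNTX hMUT hKSB hTIS
  intro N H Φ B Hc E c k hCX cc ze w C₀ hSP μ _ _ χ hK e he p hp hp1
  have hcl := hCX.closed
  have hcomp : CompactSpace H := isCompact_iff_compactSpace.1 hcl.isCompact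
  have hsc : SecondCountableTopology H :=
    TopologicalSpace.Subtype.secondCountableTopology (H : Set (SU N))
  have hR := hRNK Φ B hCX.lrd.ird (hWFAC 1 Φ B hCX.lrd.ird)
  have hsrj := hSRJ N H Φ B Hc E c k hCX
  obtain ⟨Cm, hCm, hmx⟩ := hMXS N H Φ B Hc E c k hCX cc w χ μ hK e
  have hcc : ∀ g, |cc g| ≤ 1 := by
    intro g
    have h1 := hSP.norm g
    have h2 : 0 ≤ ‖ze g‖ ^ 2 := by positivity
    exact abs_le_one_iff_mul_self_le_one.2 (by nlinarith)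
  obtain ⟨c₁, C₁, hc₁, hC₁, hmut⟩ := hMUT 1 le_rfl
  obtain ⟨c₂, C₂, hc₂, hC₂, hksb⟩ := hKSB 1 le_rfl
  set c' : ℕ := max c₁ c₂ with hc'
  set C' : ℝ := max C₁ C₂ with hC'
  have hC'0 : 0 ≤ C' := hC₁.trans (le_max_left _ _)
  have hp6 : p < 6 := by linarith
  obtain ⟨κ', C'', hκ', hC'', htis⟩ := hTIS c' p C' (1 / 4) (hc₁.trans (le_max_left _ _)) hp hp6
    hC'0 (by norm_num)
  set κ : ℝ := min 1 κ' with hκ
  have hκ0 : 0 < κ := lt_min one_pos hκ'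
  have hκ1 : κ ≤ 1 := min_le_left _ _
  have hκκ' : κ ≤ κ' := min_le_right _ _
  refine ⟨κ, C'' * 2 ^ (p - 4) + Cm ^ p * 256 ^ (4 : ℝ), hκ0, by positivity,
    fun F u hu N₀ hN₀ hFN G hGc hGb ℓ hℓ hℓ1 hℓ2 => ?_⟩
  set m : ℝ := ∫ t in (0 : ℝ)..1, ∫ x, ‖G t x‖ ∂μ with hm
  have hm0 : 0 ≤ m := intervalIntegral.integral_nonneg zero_le_one fun t _ =>
    integral_nonneg fun _ => norm_nonneg _
  have hce := cont_e μ hGc
  have hle1 : ∀ t, ∫ x, ‖G t x‖ ∂μ ≤ 1 := by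
    intro t
    have h1 : ∫ x, ‖G t x‖ ∂μ ≤ ∫ _x : H, (1 : ℝ) ∂μ := by
      refine integral_mono_of_nonneg (Eventually.of_forall fun _ => norm_nonneg _)
        (integrable_const _) (Eventually.of_forall fun x => hGb t x)
    simpa using h1
  have hm1 : m ≤ 1 := by
    have h1 : m ≤ ∫ _t in (0 : ℝ)..1, (1 : ℝ) :=
      intervalIntegral.integral_mono_on zero_le_one (hce.intervalIntegrable _ _)
        (continuous_const.intervalIntegrable _ _) fun t _ => hle1 t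
    simpa using h1
  set S : ℝ := ∑ a ∈ F, nsq μ (u a) with hS
  have hS0 : 0 ≤ S := Finset.sum_nonneg fun a _ => integral_nonneg fun _ => by positivity
  have hN0 : 0 < N₀ := by linarith
  -- the exponents
  have hexp1 : (((1 : ℕ) : ℝ) + 1) / 2 - κ = 1 - κ := by norm_num
  have hexp2 : p * (((1 : ℕ) : ℝ) + 1) / 2 - (((1 : ℕ) : ℝ) + 1 + 2) = p - 4 := by
    push_cast
    ring
  have hexp3 : (((1 : ℕ) : ℝ) + 1) / 2 = 1 := by norm_num
  rw [hexp1] at hℓ1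
  rw [hexp2]
  have hp4 : 0 ≤ p - 4 := by linarith
  have hp0 : 0 < p := by linarith
  have hSp : 0 ≤ S ^ (p / 2) := Real.rpow_nonneg hS0 _
  have hNp : 0 ≤ N₀ ^ (p - 4) := Real.rpow_nonneg hN0.le _
  rcases hm0.eq_or_lt with hmz | hmz
  · rw [← hmz, zero_mul]
    positivity
  rcases lt_or_ge N₀ 256 with hNs | hNl
  · -- small `N`
    have h1 : ‖∫ t in (0 : ℝ)..1, ∫ x, conj (G t x) *
        uw (fun i : PX Hc e => wG i.1.1) (fun l => -(rd Φ).Q l) F u t x ∂μ‖ ≤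
        Cm * N₀ * √S * m := by
      have h2 : ∀ t, ‖∫ x, conj (G t x) *
          uw (fun i : PX Hc e => wG i.1.1) (fun l => -(rd Φ).Q l) F u t x ∂μ‖ ≤
          Cm * N₀ * √S * ∫ x, ‖G t x‖ ∂μ := by
        intro t
        have hGt : Continuous (G t) := hGc.comp (by fun_prop : Continuous fun x : H => (t, x))
        have hGi : Integrable (fun x => ‖G t x‖) μ :=
          hGt.norm.integrable_of_hasCompactSupport (HasCompactSupport.of_compactSpace _)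
        refine (norm_integral_le_integral_norm _).trans ?_
        rw [← integral_const_mul]
        refine integral_mono_of_nonneg (Eventually.of_forall fun _ => norm_nonneg _)
          (hGi.const_mul _) (Eventually.of_forall fun x => ?_)
        have h3 := hmx F u hu N₀ hN₀ (fun a ha => (hFN a ha).2) t x
        rw [hexp3, Real.rpow_one] at h3
        simp only
        rw [norm_mul, RCLike.norm_conj, mul_comm]
        exact mul_le_mul_of_nonneg_right h3 (norm_nonneg _)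
      have h3 := intervalIntegral.norm_integral_le_of_norm_le (μ := volume) zero_le_one
        (f := fun t => ∫ x, conj (G t x) *
          uw (fun i : PX Hc e => wG i.1.1) (fun l => -(rd Φ).Q l) F u t x ∂μ)
        (g := fun t => Cm * N₀ * √S * ∫ x, ‖G t x‖ ∂μ) (Eventually.of_forall fun t _ => h2 t)
        ((hce.const_mul _).intervalIntegrable _ _)
      rw [intervalIntegral.integral_const_mul] at h3
      exact h3
    have h2 : ℓ ≤ Cm * N₀ * √S := le_of_mul_le_mul_right (hℓ2.trans h1) hmz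
    have h3 : ℓ ^ p ≤ (Cm * N₀ * √S) ^ p := Real.rpow_le_rpow hℓ.le h2 hp0.le
    have h4 : (√S) ^ p = S ^ (p / 2) := by
      rw [Real.sqrt_eq_rpow, ← Real.rpow_mul hS0]
      congr 1
      ring
    have h5 : N₀ ^ p = N₀ ^ (4 : ℝ) * N₀ ^ (p - 4) := by
      rw [← Real.rpow_add hN0]
      congr 1
      ring
    rw [Real.mul_rpow (by positivity) (Real.sqrt_nonneg _), Real.mul_rpow hCm hN0.le, h4, h5] at h3
    have h6 : N₀ ^ (4 : ℝ) ≤ 256 ^ (4 : ℝ) := Real.rpow_le_rpow hN0.le hNs.le (by norm_num)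
    have h7 : 0 ≤ ℓ ^ p := Real.rpow_nonneg hℓ.le _
    have h8 : 0 ≤ Cm ^ p := Real.rpow_nonneg hCm _
    calc m * ℓ ^ p ≤ 1 * ℓ ^ p := mul_le_mul_of_nonneg_right hm1 h7
      _ = ℓ ^ p := one_mul _
      _ ≤ Cm ^ p * (N₀ ^ (4 : ℝ) * N₀ ^ (p - 4)) * S ^ (p / 2) := h3
      _ ≤ Cm ^ p * (256 ^ (4 : ℝ) * N₀ ^ (p - 4)) * S ^ (p / 2) := by
          refine mul_le_mul_of_nonneg_right ?_ hSp
          exact mul_le_mul_of_nonneg_left (mul_le_mul_of_nonneg_right h6 hNp) h8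
      _ = Cm ^ p * 256 ^ (4 : ℝ) * N₀ ^ (p - 4) * S ^ (p / 2) := by ring
      _ ≤ (C'' * 2 ^ (p - 4) + Cm ^ p * 256 ^ (4 : ℝ)) * N₀ ^ (p - 4) * S ^ (p / 2) := by
          refine mul_le_mul_of_nonneg_right (mul_le_mul_of_nonneg_right ?_ hNp) hSp
          have : 0 ≤ C'' * 2 ^ (p - 4) := by positivity
          linarith
  -- the scale
  obtain ⟨j, hj1, hj2⟩ := exists_nat_pow_near hN₀ (one_lt_two : (1 : ℝ) < 2)
  set J : ℕ := j + 1 with hJ
  have hJ2 : (2 : ℝ) ^ J ≤ 2 * N₀ := by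
    rw [hJ, pow_succ]
    linarith
  have hJ1 : (1 : ℝ) ≤ 2 ^ J := one_le_pow₀ one_le_two
  have hJ9 : 8 ≤ J := by
    by_contra h1
    push Not at h1
    have h2 : (2 : ℝ) ^ J ≤ 2 ^ 8 := pow_le_pow_right₀ one_le_two h1.le
    have h3 : (2 : ℝ) ^ J > 256 := lt_of_le_of_lt hNl hj2
    norm_num at h2
    linarith
  obtain ⟨Y, hY⟩ : ∃ Y : ℕ, J = Y + 8 := ⟨J - 8, by omega⟩
  have hF : ∀ i ∈ F, (2 : ℤ) ^ J < 8 * lw i.1 ∧ lw i.1 ≤ 2 ^ J := by
    intro i hi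
    obtain ⟨h1, h2⟩ := hFN i hi
    rw [sz_eq hK] at h1 h2
    constructor
    · have h3 : (2 : ℝ) ^ J < 8 * (lw i.1 : ℝ) := by linarith
      exact_mod_cast h3
    · have h3 : (lw i.1 : ℝ) ≤ 2 ^ J := by linarith
      exact_mod_cast h3
  have hform := form hW hTTM hKOP (hNTX 1 le_rfl) hR hcl μ hK hcc hsrj (C₀ := C') (c := c')
    (Y := Y) (J := J) (e := e) hC'0 (by omega)
    (fun y t D hy hD0 hD1 => by
      have h1 : 256 * 1 ^ 2 * 2 ^ Y ≤ 2 ^ J := by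
        rw [hY, pow_add]
        omega
      have h2 : 2 ^ J ≤ 1024 * 1 ^ 2 * 2 ^ Y := by
        rw [hY, pow_add]
        omega
      have h3 := hksb J Y y e t D h1 h2 hy he hD0 hD1
      refine h3.trans ?_
      exact A1_mono hW (le_max_right C₁ C₂) hC₂ (le_max_right c₁ c₂) J y t)
    (fun y t l hy => (hmut J Y y e t l hy).trans
      (E1_mono hW (le_max_left C₁ C₂) hC₁ (le_max_left c₁ c₂) y t)) F u hF hu G hGc hGb
  rw [← hS] at hform
  set V : ℝ := ‖∫ t in (0 : ℝ)..1, ∫ x, conj (G t x) *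
      uw (fun i : PX Hc e => wG i.1.1) (fun l => -(rd Φ).Q l) F u t x ∂μ‖ with hVdef
  have hV0 : 0 ≤ V := norm_nonneg _
  rcases hS0.eq_or_lt with hS1 | hS1
  · rw [← hS1, zero_mul] at hform
    have h1 : V = 0 := pow_eq_zero_iff (two_ne_zero) |>.1 (le_antisymm hform (sq_nonneg _))
    rw [h1] at hℓ2
    have h2 := mul_pos hℓ hmz
    linarith
  have hsS : 0 < √S := Real.sqrt_pos.2 hS1
  have hT := htis J (fun t => ∫ x, ‖G t x‖ ∂μ) (ℓ / √S) hce
    (fun t => integral_nonneg fun _ => norm_nonneg _) hle1 ?_ ?_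
  · -- conclusion
    have h1 : m * (ℓ / √S) ^ p ≤ C'' * ((2 : ℝ) ^ J) ^ (p - 4) := hT
    have h2 : (√S) ^ p = S ^ (p / 2) := by
      rw [Real.sqrt_eq_rpow, ← Real.rpow_mul hS0]
      congr 1
      ring
    rw [Real.div_rpow hℓ.le hsS.le, h2, ← mul_div_assoc, div_le_iff₀ (Real.rpow_pos_of_pos hS1 _)]
      at h1
    refine h1.trans ?_
    refine mul_le_mul_of_nonneg_right ?_ hSp
    have h3 : ((2 : ℝ) ^ J) ^ (p - 4) ≤ (2 * N₀) ^ (p - 4) :=
      Real.rpow_le_rpow (by positivity) hJ2 hp4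
    rw [Real.mul_rpow two_pos.le hN0.le] at h3
    have h4 : 0 ≤ Cm ^ p * 256 ^ (4 : ℝ) * N₀ ^ (p - 4) := by positivity
    calc C'' * ((2 : ℝ) ^ J) ^ (p - 4) ≤ C'' * (2 ^ (p - 4) * N₀ ^ (p - 4)) :=
          mul_le_mul_of_nonneg_left h3 hC''
      _ ≤ (C'' * 2 ^ (p - 4) + Cm ^ p * 256 ^ (4 : ℝ)) * N₀ ^ (p - 4) := by
          rw [add_mul, ← mul_assoc]
          linarith
  · -- the level
    have h1 : ((2 : ℝ) ^ J) ^ (1 - κ') ≤ ((2 : ℝ) ^ J) ^ (1 - κ) :=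
      Real.rpow_le_rpow_of_exponent_le hJ1 (by linarith)
    have h2 : ((2 : ℝ) ^ J) ^ (1 - κ) ≤ (2 * N₀) ^ (1 - κ) :=
      Real.rpow_le_rpow (by positivity) hJ2 (by linarith)
    rw [Real.mul_rpow two_pos.le hN0.le] at h2
    have h3 : (2 : ℝ) ^ (1 - κ) ≤ (2 : ℝ) ^ (1 : ℝ) :=
      Real.rpow_le_rpow_of_exponent_le one_le_two (by linarith)
    rw [Real.rpow_one] at h3
    have h5 : 0 ≤ N₀ ^ (1 - κ) := Real.rpow_nonneg hN0.le _
    rw [le_div_iff₀ hsS]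
    refine le_trans (mul_le_mul_of_nonneg_right ?_ hsS.le) hℓ1
    have h6 : (2 : ℝ) ^ (1 - κ) * N₀ ^ (1 - κ) ≤ 2 * N₀ ^ (1 - κ) :=
      mul_le_mul_of_nonneg_right h3 h5
    linarith
  · -- the bilinear form
    have h1 : (ℓ * m) ^ 2 ≤ V ^ 2 := pow_le_pow_left₀ (mul_nonneg hℓ.le hm0) hℓ2 2
    have h2 := h1.trans hform
    have h3 : (ℓ / √S * m) ^ 2 = (ℓ * m) ^ 2 / S := by
      rw [div_mul_eq_mul_div, div_pow, Real.sq_sqrt hS0]
    change (ℓ / √S * m) ^ 2 ≤ _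
    rw [h3, div_le_iff₀ hS1]
    exact h2.trans (le_of_eq (mul_comm _ _))

end

end SPH
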