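import Pool.Agent.SPH.StE

/-!
# The sphere S²: module WSS (MP_bea16e_an)
-/

namespace SPH

open STZ LGR STZ3 MeasureTheory Matrix Filter

open scoped ComplexConjugate Matrix Real Topology

noncomputable section

namespace WSS

/-- the sum over an interval as a sum over a box in dimension one -/
theorem sum_box (f : ℤ → ℂ) (a : ℤ) (n : ℕ) :
    ∑ x ∈ bxn (fun _ : Fin 1 => a) (fun _ => n), f (x 0) = ∑ j ∈ Finset.Ico a (a + n), f j := by
  refine Finset.sum_bij' (fun x _ => x 0) (fun j _ => fun _ => j) ?_ ?_ ?_ ?_ ?_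
  · intro x hx
    exact Fintype.mem_piFinset.1 hx 0
  · intro j hj
    exact Fintype.mem_piFinset.2 fun _ => hj
  · intro x _
    funext i
    rw [Subsingleton.elim i 0]
  · intro j _
    rfl
  · intro x _
    rfl

end WSS

open WSS in
theorem t_WSS : M_WSS := by
  intro hW hWEYY K hK
  obtain ⟨c₀, hc₀, h⟩ := hWEYY 1 !![32] ⟨by
      ext i j
      fin_cases i
      fin_cases j
      rfl, fun x hx => by
      have h0 : x 0 ≠ 0 := fun h0 => hx (by
        funext i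
        rw [Subsingleton.elim i 0, h0]
        rfl)
      have h1 : x ⬝ᵥ (!![(32 : ℤ)] *ᵥ x) = 32 * (x 0) ^ 2 := by
        simp [Matrix.mulVec, dotProduct]
        ring
      rw [h1]
      positivity⟩
  refine ⟨K * c₀, Nat.one_le_iff_ne_zero.2 (by positivity), ?_⟩
  intro y a b z t α hz
  set n : ℕ := (z - a).toNat with hn
  have hnR : n ≤ K * 2 ^ y := by
    have : (n : ℤ) ≤ K * 2 ^ y := by
      rw [hn]
      have h0 : (0 : ℤ) ≤ K * 2 ^ y := by positivity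
      omega
    exact_mod_cast this
  set f : ℤ → ℂ := fun j => eu (-(t * ((b + 4 * j : ℤ) : ℝ) ^ 2) + ((b + 4 * j : ℤ) : ℝ) * α) with hf
  have e1 : ∑ j ∈ Finset.Ico a z, f j = ∑ x ∈ bxn (fun _ : Fin 1 => a) (fun _ => n), f (x 0) := by
    rw [sum_box]
    rcases le_total a z with h1 | h1
    · rw [hn, Int.toNat_of_nonneg (by omega)]
      congr 1
      congr 1
      ring
    · rw [hn, Int.toNat_of_nonpos (by omega), Finset.Ico_eq_empty (by omega),
        Finset.Ico_eq_empty (by simp)]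
  have e2 := h (fun _ => K * 2 ^ y) (fun _ => a) (fun _ => n) (-t)
    (fun x => -(t * ((b + 4 * x 0 : ℤ) : ℝ) ^ 2) + ((b + 4 * x 0 : ℤ) : ℝ) * α)
    (fun x => -(t * (8 * x 0 * b + 16 * x 0 ^ 2)) + 4 * x 0 * α)
    (fun _ => Nat.one_le_iff_ne_zero.2 (by positivity)) (fun _ => hnR) (fun x h => by
      have h1 : x ⬝ᵥ (!![(32 : ℤ)] *ᵥ h) = 32 * x 0 * h 0 := by
        simp [Matrix.mulVec, dotProduct]
        ring
      rw [h1]
      simp only [Pi.add_apply]
      push_cast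
      ring)
  rw [Fin.prod_univ_one, hW.even] at e2
  have e3 : WW (K * 2 ^ y) c₀ t ≤ K * WW (2 ^ y) (K * c₀) t := hW.scale K (2 ^ y) c₀ t hK
  have hW0 : 0 ≤ WW (2 ^ y) (K * c₀) t := (Nat.cast_nonneg _).trans (hW.ge _ _ _)
  have hc1 : (1 : ℝ) ≤ ((K * c₀ : ℕ) : ℝ) := by
    exact_mod_cast Nat.one_le_iff_ne_zero.2 (by positivity)
  have e4 : ‖∑ j ∈ Finset.Ico a z, f j‖ ^ 2 ≤ ((K * c₀ : ℕ) : ℝ) ^ 2 * WW (2 ^ y) (K * c₀) t := by
    rw [e1]
    calc ‖∑ x ∈ bxn (fun _ : Fin 1 => a) (fun _ => n), f (x 0)‖ ^ 2 ≤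
        c₀ * WW (K * 2 ^ y) c₀ t := e2
      _ ≤ c₀ * (K * WW (2 ^ y) (K * c₀) t) := mul_le_mul_of_nonneg_left e3 (by positivity)
      _ = ((K * c₀ : ℕ) : ℝ) * WW (2 ^ y) (K * c₀) t := by
        push_cast
        ring
      _ ≤ _ := by
        refine mul_le_mul_of_nonneg_right ?_ hW0
        nlinarith
  have e5 : ((K * c₀ : ℕ) : ℝ) * √(WW (2 ^ y) (K * c₀) t) =
      √(((K * c₀ : ℕ) : ℝ) ^ 2 * WW (2 ^ y) (K * c₀) t) := by
    rw [Real.sqrt_mul (by positivity), Real.sqrt_sq (by positivity)]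
  rw [e5]
  exact Real.le_sqrt_of_sq_le e4

end

end SPH
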