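import Pool.Agent.SPH.StE

/-!
# The sphere, module XIS (helper9): the choice of the exponents
-/

namespace SPH

open STZ LGR STZ3 MeasureTheory Matrix Filter

open scoped ComplexConjugate Matrix Real Topology

noncomputable section

theorem t_XIS : S_XIS := by
  intro p h1 h2
  obtain ⟨k, hk⟩ : ∃ k : ℝ, k = p / 2 - 1 := ⟨_, rfl⟩
  obtain ⟨d, hd⟩ : ∃ d : ℝ, d = 3 * k / 2 - 2 := ⟨_, rfl⟩
  have hd0 : 0 < d := by rw [hd, hk]; linarith
  have hd1 : d < 1 := by rw [hd, hk]; linarith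
  have hk1 : 4 / 3 < k := by linarith
  have hk2 : k < 2 := by linarith
  have hkd : k * d ≤ 2 * d := mul_le_mul_of_nonneg_right hk2.le hd0.le
  have hkd0 : 0 ≤ k * d := mul_nonneg (by linarith) hd0.le
  refine ⟨1 - d / 8, d / 8, by linarith, by linarith, by linarith, fun z j hz hj => ?_⟩
  rw [← hk]
  have hA : 0 ≤ (1 - d / 8) * (k + 1) / 2 - 1 - d / 8 := by nlinarith
  have hB : 0 ≤ k / 2 + (1 - d / 8) * k - 2 - 3 * (d / 8) := by nlinarith
  have hC : 0 ≤ 1 - (1 - d / 8) * (k / 2) + d / 8 := by nlinarith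
  rcases le_total j (2 * z) with h | h
  · rw [max_eq_left (by linarith)]
    have e1 := mul_nonneg hC (sub_nonneg.mpr h)
    have e2 := mul_nonneg hB hz
    have e3 : -(k / 2) * z + (1 - (1 - d / 8) * (k / 2)) * j - (1 - d / 8) / 2 * 0 + d / 8 * (z + j) =
        -((1 - (1 - d / 8) * (k / 2) + d / 8) * (2 * z - j)) -
          (k / 2 + (1 - d / 8) * k - 2 - 3 * (d / 8)) * z := by ring
    linarith
  · rw [max_eq_right (by linarith)]
    have e1 := mul_nonneg hA (sub_nonneg.mpr h)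
    have e2 := mul_nonneg hB hz
    have e3 : -(k / 2) * z + (1 - (1 - d / 8) * (k / 2)) * j - (1 - d / 8) / 2 * (j - 2 * z) +
        d / 8 * (z + j) =
        -(((1 - d / 8) * (k + 1) / 2 - 1 - d / 8) * (j - 2 * z)) -
          (k / 2 + (1 - d / 8) * k - 2 - 3 * (d / 8)) * z := by ring
    linarith

end

end SPH
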